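import Pool.Agent.Y7.Poi
import Pool.Agent.W221.NS.Stm2
import Pool.Agent.W440.MD.SOB

/-!
The Sobolev-Poincaré inequality: the oscillation in `L⁴` is bounded by the gradient in `L^(12/7)`
(helper7).
-/

set_option autoImplicit false

open MeasureTheory Set Metric Filter
open scoped ContDiff ENNReal NNReal

namespace Pool.Agent.Y7.Sp

open H459R3.NS W221.NS Pool.Agent.W12.MD Pool.Agent.Y7.Poi

/-- A cut-off function: `1` on the ball of radius `4`, zero outside the ball of radius `8`. -/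
noncomputable def cf (x : V) : ℝ := chi ((1 / 2 : ℝ) • x)

theorem cf_nonneg (x : V) : 0 ≤ cf x := chi.nonneg

theorem cf_le (x : V) : cf x ≤ 1 := chi.le_one

theorem cf_smooth : ContDiff ℝ ∞ cf := by
  have h1 : ContDiff ℝ ∞ (chi : V → ℝ) := chi.contDiff
  exact h1.comp (by fun_prop)

theorem cf_in {x : V} (hx : x ∈ ball (0 : V) 4) : cf x = 1 := by
  refine chi.one_of_mem_closedBall ?_
  rw [mem_closedBall, dist_zero_right, norm_smul, Real.norm_eq_abs]
  rw [mem_ball, dist_zero_right] at hx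
  change |(1 / 2 : ℝ)| * ‖x‖ ≤ 2
  rw [abs_of_pos (by norm_num)]
  linarith

theorem cf_out {x : V} (hx : x ∉ ball (0 : V) 8) : cf x = 0 := by
  refine chi.zero_of_le_dist ?_
  rw [dist_zero_right, norm_smul, Real.norm_eq_abs]
  rw [mem_ball, dist_zero_right, not_lt] at hx
  change 4 ≤ |(1 / 2 : ℝ)| * ‖x‖
  rw [abs_of_pos (by norm_num)]
  linarith

theorem cf_fderiv_out {x : V} (hx : x ∉ ball (0 : V) 8) : fderiv ℝ cf x = 0 := by
  have h1 : IsLocalMin cf x := by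
    refine Eventually.of_forall fun y => ?_
    rw [cf_out hx]
    exact cf_nonneg y
  exact h1.fderiv_eq_zero

theorem cf_fderiv_bdd : ∃ M : ℝ, 0 ≤ M ∧ ∀ x, ‖fderiv ℝ cf x‖ ≤ M := by
  have hc : Continuous (fderiv ℝ cf) := cf_smooth.continuous_fderiv (by simp)
  obtain ⟨M, hM⟩ := (isCompact_closedBall (0 : V) 8).exists_bound_of_continuousOn hc.continuousOn
  refine ⟨max M 0, le_max_right _ _, fun x => ?_⟩
  by_cases hx : x ∈ ball (0 : V) 8
  · exact (hM x (ball_subset_closedBall hx)).trans (le_max_left _ _)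
  · rw [cf_fderiv_out hx, norm_zero]
    exact le_max_right _ _

/-- The scalar inequality. -/
theorem scalar : ∃ K : ℝ≥0∞, K ≠ ⊤ ∧ ∀ f : V → ℝ, ContDiff ℝ ∞ f → (∫ z, th z * f z = 0) →
    ∫⁻ z in ball (0 : V) 4, ENNReal.ofReal |f z| ^ (4 : ℝ)
      ≤ K * (∫⁻ z in ball (0 : V) 8, gn f z ^ (12 / 7 : ℝ)) ^ (7 / 3 : ℝ) := by
  obtain ⟨CP, hCP, hP⟩ := poi (12 / 7) (by norm_num)
  obtain ⟨M, hM0, hM⟩ := cf_fderiv_bdd
  set K0 : ℝ≥0 := SNormLESNormFDerivOfEqConst ℝ (volume : Measure V) ((12 / 7 : ℝ≥0) : ℝ) with hK0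
  set K1 : ℝ≥0∞ := 2 ^ (12 / 7 - 1 : ℝ) * (3 ^ (12 / 7 : ℝ) + ENNReal.ofReal M ^ (12 / 7 : ℝ) * CP)
    with hK1
  have hK1t : K1 ≠ ⊤ := by
    rw [hK1]
    apply ENNReal.mul_ne_top (ENNReal.rpow_ne_top_of_nonneg (by norm_num) (by norm_num))
    apply ENNReal.add_ne_top.2
    refine ⟨ENNReal.rpow_ne_top_of_nonneg (by norm_num) (by norm_num), ?_⟩
    exact ENNReal.mul_ne_top (ENNReal.rpow_ne_top_of_nonneg (by norm_num) ENNReal.ofReal_ne_top) hCP
  refine ⟨(K0 : ℝ≥0∞) ^ (4 : ℝ) * K1 ^ (7 / 3 : ℝ), ?_, fun f hf hmean => ?_⟩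
  · apply ENNReal.mul_ne_top (ENNReal.rpow_ne_top_of_nonneg (by norm_num) ENNReal.coe_ne_top)
    exact ENNReal.rpow_ne_top_of_nonneg (by norm_num) hK1t
  have hfc := hf.continuous
  have hf1 : ContDiff ℝ 1 f := hf.of_le (by norm_cast)
  have hc1 : ContDiff ℝ 1 cf := cf_smooth.of_le (by norm_cast)
  set g : V → ℝ := fun x => cf x * f x with hg
  have hgs : ContDiff ℝ 1 g := hc1.mul hf1
  have hgc : HasCompactSupport g := by
    refine HasCompactSupport.intro (isCompact_closedBall (0 : V) 8) fun x hx => ?_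
    simp only [hg]
    rw [cf_out fun h' => hx (ball_subset_closedBall h'), zero_mul]
  have hfin : Module.finrank ℝ V = 3 := by simp
  have h1 : eLpNorm g ((4 : ℝ≥0) : ℝ≥0∞) volume
      ≤ K0 * eLpNorm (fderiv ℝ g) ((12 / 7 : ℝ≥0) : ℝ≥0∞) volume :=
    eLpNorm_le_eLpNorm_fderiv_of_eq (volume : Measure V) (p := 12 / 7) (p' := 4) hgs hgc
      (by
        rw [← NNReal.coe_le_coe]
        push_cast
        norm_num) (by rw [hfin]; norm_num) (by rw [hfin]; push_cast; norm_num)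
  have hp0 : (((12 / 7 : ℝ≥0)) : ℝ≥0∞) ≠ 0 := by
    rw [ENNReal.coe_ne_zero]
    norm_num
  rw [eLpNorm_eq_lintegral_rpow_enorm_toReal (by norm_num) (by norm_num),
    eLpNorm_eq_lintegral_rpow_enorm_toReal hp0 ENNReal.coe_ne_top] at h1
  have e4 : ((4 : ℝ≥0) : ℝ≥0∞).toReal = 4 := by norm_num
  have e2 : ((12 / 7 : ℝ≥0) : ℝ≥0∞).toReal = 12 / 7 := by
    rw [ENNReal.coe_toReal]
    push_cast
    norm_num
  rw [e4, e2] at h1
  -- the gradient of the product
  have h3 : ∀ x, ‖fderiv ℝ g x‖ₑ ≤ (ball (0 : V) 8).indicator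
      (fun x => 3 * gn f x + ENNReal.ofReal M * ENNReal.ofReal |f x|) x := by
    intro x
    have hd : HasFDerivAt g (cf x • fderiv ℝ f x + f x • fderiv ℝ cf x) x :=
      ((hc1.differentiable one_ne_zero x).hasFDerivAt).mul
        (hf1.differentiable one_ne_zero x).hasFDerivAt
    rw [hd.fderiv]
    by_cases hx : x ∈ ball (0 : V) 8
    · rw [indicator_of_mem hx]
      have a1 : ‖cf x • fderiv ℝ f x + f x • fderiv ℝ cf x‖ ≤ 3 * √(gg f x) + M * |f x| := by
        refine (norm_add_le _ _).trans ?_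
        rw [norm_smul, norm_smul, Real.norm_eq_abs, Real.norm_eq_abs, abs_of_nonneg (cf_nonneg x)]
        have b1 : ‖fderiv ℝ f x‖ ≤ 3 * √(gg f x) := by
          refine (Pool.Agent.W440.MD.fderiv_norm_le x).trans ?_
          have b2 : ∀ j ∈ (Finset.univ : Finset (Fin 3)), |pd j f x| ≤ √(gg f x) := by
            intro j _
            apply Real.abs_le_sqrt
            exact Finset.single_le_sum (f := fun j => pd j f x ^ 2) (fun _ _ => sq_nonneg _)
              (Finset.mem_univ j)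
          refine (Finset.sum_le_sum b2).trans (le_of_eq ?_)
          simp
        have b3 : cf x * ‖fderiv ℝ f x‖ ≤ 1 * (3 * √(gg f x)) :=
          mul_le_mul (cf_le x) b1 (norm_nonneg _) zero_le_one
        have b4 : |f x| * ‖fderiv ℝ cf x‖ ≤ |f x| * M :=
          mul_le_mul_of_nonneg_left (hM x) (abs_nonneg _)
        linarith
      rw [← ofReal_norm]
      refine (ENNReal.ofReal_le_ofReal a1).trans ?_
      rw [ENNReal.ofReal_add (by positivity) (by positivity), ENNReal.ofReal_mul (by norm_num),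
        ENNReal.ofReal_mul hM0]
      have e3 : ENNReal.ofReal 3 = 3 := by simp
      rw [e3]
      exact le_rfl
    · rw [indicator_of_notMem hx, cf_out hx, cf_fderiv_out hx, zero_smul, smul_zero, add_zero,
        ← ofReal_norm, norm_zero, ENNReal.ofReal_zero]
  have h4 : ∫⁻ x, ‖fderiv ℝ g x‖ₑ ^ (12 / 7 : ℝ)
      ≤ K1 * ∫⁻ z in ball (0 : V) 8, gn f z ^ (12 / 7 : ℝ) := by
    have h5 : ∀ x, ‖fderiv ℝ g x‖ₑ ^ (12 / 7 : ℝ) ≤ (ball (0 : V) 8).indicator
        (fun x => 2 ^ (12 / 7 - 1 : ℝ) * (3 ^ (12 / 7 : ℝ) * gn f x ^ (12 / 7 : ℝ)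
          + ENNReal.ofReal M ^ (12 / 7 : ℝ) * ENNReal.ofReal |f x| ^ (12 / 7 : ℝ))) x := by
      intro x
      refine (ENNReal.rpow_le_rpow (h3 x) (by norm_num)).trans ?_
      by_cases hx : x ∈ ball (0 : V) 8
      · rw [indicator_of_mem hx, indicator_of_mem hx]
        refine (ENNReal.rpow_add_le_mul_rpow_add_rpow _ _ (by norm_num)).trans (le_of_eq ?_)
        rw [ENNReal.mul_rpow_of_nonneg _ _ (by norm_num), ENNReal.mul_rpow_of_nonneg _ _ (by norm_num)]
      · rw [indicator_of_notMem hx, indicator_of_notMem hx, ENNReal.zero_rpow_of_pos (by norm_num)]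
    refine (lintegral_mono h5).trans ?_
    rw [lintegral_indicator measurableSet_ball,
      lintegral_const_mul' _ _ (ENNReal.rpow_ne_top_of_nonneg (by norm_num) (by norm_num)),
      lintegral_add_left (((gn_meas hf).pow_const _).const_mul _),
      lintegral_const_mul' _ _ (ENNReal.rpow_ne_top_of_nonneg (by norm_num) (by norm_num)),
      lintegral_const_mul' _ _ (ENNReal.rpow_ne_top_of_nonneg (by norm_num) ENNReal.ofReal_ne_top)]
    have h6 := hP f hf hmean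
    calc (2 : ℝ≥0∞) ^ (12 / 7 - 1 : ℝ) * (3 ^ (12 / 7 : ℝ) *
            (∫⁻ z in ball (0 : V) 8, gn f z ^ (12 / 7 : ℝ))
          + ENNReal.ofReal M ^ (12 / 7 : ℝ) *
            ∫⁻ z in ball (0 : V) 8, ENNReal.ofReal |f z| ^ (12 / 7 : ℝ))
        ≤ (2 : ℝ≥0∞) ^ (12 / 7 - 1 : ℝ) * (3 ^ (12 / 7 : ℝ) *
            (∫⁻ z in ball (0 : V) 8, gn f z ^ (12 / 7 : ℝ))
          + ENNReal.ofReal M ^ (12 / 7 : ℝ) *
            (CP * ∫⁻ z in ball (0 : V) 8, gn f z ^ (12 / 7 : ℝ))) := by gcongr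
      _ = _ := by rw [hK1]; ring
  -- the fourth power
  have h7 : ∫⁻ x, ‖g x‖ₑ ^ (4 : ℝ) ≤ (K0 : ℝ≥0∞) ^ (4 : ℝ) *
      (∫⁻ x, ‖fderiv ℝ g x‖ₑ ^ (12 / 7 : ℝ)) ^ (7 / 3 : ℝ) := by
    have h8 := ENNReal.rpow_le_rpow h1 (show (0 : ℝ) ≤ 4 by norm_num)
    rw [ENNReal.mul_rpow_of_nonneg _ _ (by norm_num), ← ENNReal.rpow_mul, ← ENNReal.rpow_mul] at h8
    norm_num at h8
    norm_num
    exact h8
  have h9 : ∫⁻ z in ball (0 : V) 4, ENNReal.ofReal |f z| ^ (4 : ℝ) ≤ ∫⁻ x, ‖g x‖ₑ ^ (4 : ℝ) := by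
    refine le_trans ?_ (setLIntegral_le_lintegral (ball (0 : V) 4) _)
    refine setLIntegral_mono' measurableSet_ball fun x hx => ?_
    simp only [hg]
    rw [cf_in hx, one_mul, ← ofReal_norm, Real.norm_eq_abs]
  refine h9.trans (h7.trans ?_)
  have h10 := ENNReal.rpow_le_rpow h4 (show (0 : ℝ) ≤ 7 / 3 by norm_num)
  rw [ENNReal.mul_rpow_of_nonneg _ _ (by norm_num)] at h10
  rw [mul_assoc]
  exact mul_le_mul_right h10 _

/-- The gradient to the power `12/7`. -/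
noncomputable def gw (v : V → V) (x : V) : ℝ≥0∞ := ENNReal.ofReal (gsq v x) ^ (6 / 7 : ℝ)

theorem gsq_nonneg (v : V → V) (x : V) : 0 ≤ gsq v x :=
  Finset.sum_nonneg fun _ _ => Finset.sum_nonneg fun _ _ => sq_nonneg _

theorem gn_le (v : V → V) (i : Fin 3) (x : V) :
    gn (fun y => v y i) x ^ (12 / 7 : ℝ) ≤ gw v x := by
  unfold gn gw
  have h1 : gg (fun y => v y i) x ≤ gsq v x :=
    Finset.single_le_sum (f := fun i => ∑ j, pd j (fun y => v y i) x ^ 2)
      (fun _ _ => Finset.sum_nonneg fun _ _ => sq_nonneg _) (Finset.mem_univ i)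
  have h2 : ENNReal.ofReal (√(gg (fun y => v y i) x)) ^ (12 / 7 : ℝ)
      ≤ ENNReal.ofReal (√(gsq v x)) ^ (12 / 7 : ℝ) :=
    ENNReal.rpow_le_rpow (ENNReal.ofReal_le_ofReal (Real.sqrt_le_sqrt h1)) (by norm_num)
  refine h2.trans (le_of_eq ?_)
  rw [Real.sqrt_eq_rpow, ← ENNReal.ofReal_rpow_of_nonneg (gsq_nonneg v x) (by norm_num),
    ← ENNReal.rpow_mul]
  norm_num

/-- The Sobolev-Poincaré inequality. -/
theorem sp : ∃ K : ℝ≥0∞, K ≠ ⊤ ∧ ∀ v : V → V, ContDiff ℝ ∞ v →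
    (∀ i, ∫ z, th z * v z i = 0) →
      ENNReal.ofReal (√(L4 0 4 v)) ≤ K * (∫⁻ z in ball (0 : V) 8, gw v z) ^ (7 / 6 : ℝ) := by
  obtain ⟨K, hK, hs⟩ := scalar
  refine ⟨(9 * K) ^ (1 / 2 : ℝ), ?_, fun v hv hmean => ?_⟩
  · exact ENNReal.rpow_ne_top_of_nonneg (by norm_num) (ENNReal.mul_ne_top (by norm_num) hK)
  have hvi := smooth_comp hv
  have h1 : ENNReal.ofReal (L4 0 4 v) ≤ 9 * K * (∫⁻ z in ball (0 : V) 8, gw v z) ^ (7 / 3 : ℝ) := by
    have hn : Continuous (fun z => nsq v z ^ 2) := by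
      unfold nsq
      exact (continuous_finsetSum _ fun i _ => (hvi i).continuous.pow 2).pow 2
    unfold L4
    rw [ofReal_integral_eq_lintegral_ofReal (intB hn _ _)
      (Filter.Eventually.of_forall fun s => sq_nonneg _)]
    have h2 : ∀ z, ENNReal.ofReal (nsq v z ^ 2) ≤ ∑ i, 3 * ENNReal.ofReal |v z i| ^ (4 : ℝ) := by
      intro z
      have e1 : ∀ i, 3 * ENNReal.ofReal |v z i| ^ (4 : ℝ) = ENNReal.ofReal (3 * |v z i| ^ 4) := by
        intro i
        rw [ENNReal.ofReal_mul (by norm_num), ENNReal.ofReal_pow (abs_nonneg _)]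
        have : ENNReal.ofReal 3 = 3 := by simp
        rw [this]
        norm_cast
      simp_rw [e1]
      rw [← ENNReal.ofReal_sum_of_nonneg fun i _ => by positivity]
      apply ENNReal.ofReal_le_ofReal
      unfold nsq
      have h6 := sq_sum_le_card_mul_sum_sq (s := (Finset.univ : Finset (Fin 3)))
        (f := fun i => v z i ^ 2)
      simp only [Finset.card_univ, Fintype.card_fin] at h6
      refine h6.trans (le_of_eq ?_)
      rw [Finset.mul_sum]
      refine Finset.sum_congr rfl fun i _ => ?_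
      have : |v z i| ^ 4 = (v z i ^ 2) ^ 2 := by
        rw [← sq_abs (v z i)]
        ring
      rw [this]
      push_cast
      ring
    refine (lintegral_mono h2).trans ?_
    have hm : ∀ i : Fin 3, Measurable fun z => 3 * ENNReal.ofReal |v z i| ^ (4 : ℝ) := fun i =>
      (((hvi i).continuous.abs.measurable.ennreal_ofReal).pow_const _).const_mul _
    rw [lintegral_finsetSum _ fun i _ => hm i]
    have h3 : ∀ i, ∫⁻ z in ball (0 : V) 4, 3 * ENNReal.ofReal |v z i| ^ (4 : ℝ)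
        ≤ 3 * K * (∫⁻ z in ball (0 : V) 8, gw v z) ^ (7 / 3 : ℝ) := by
      intro i
      rw [lintegral_const_mul' _ _ (by norm_num), mul_assoc]
      refine mul_le_mul_right ((hs _ (hvi i) (hmean i)).trans ?_) _
      refine mul_le_mul_right ?_ _
      refine ENNReal.rpow_le_rpow ?_ (by norm_num)
      exact lintegral_mono fun z => gn_le v i z
    refine (Finset.sum_le_sum fun i _ => h3 i).trans (le_of_eq ?_)
    simp only [Finset.sum_const, Finset.card_univ, Fintype.card_fin, nsmul_eq_mul]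
    push_cast
    ring
  have hL : 0 ≤ L4 0 4 v := integral_nonneg fun z => sq_nonneg _
  rw [Real.sqrt_eq_rpow, ← ENNReal.ofReal_rpow_of_nonneg hL (by norm_num)]
  refine (ENNReal.rpow_le_rpow h1 (by norm_num)).trans (le_of_eq ?_)
  rw [ENNReal.mul_rpow_of_nonneg _ _ (by norm_num), ← ENNReal.rpow_mul]
  norm_num

end Pool.Agent.Y7.Sp
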