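import Pool.Agent.Y7.Ns
import Pool.Agent.W221.NS.Stm3

/-!
Local solutions which are restrictions of smooth fields without divergence on the whole space:
definitions and statements (helper7).
-/

set_option autoImplicit false
set_option linter.unusedVariables false

open MeasureTheory Set Metric Filter Topology
open scoped ContDiff ENNReal NNReal

namespace Pool.Agent.Y7.D

open H459R3.NS W221.NS

/-- A smooth field without divergence on `(0, T) × ℝ³`, bounded with its gradient on compact time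
intervals, which solves the Navier-Stokes equations (viscosity one) on the open set `O`. -/
structure DSol (T : ℝ) (O : Set V) (u : ℝ → V → V) (p : ℝ → V → ℝ) : Prop where
  smooth_u : ContDiffOn ℝ ∞ (fun z : ℝ × V => u z.1 z.2) (Ioo 0 T ×ˢ univ)
  smooth_p : ContDiffOn ℝ ∞ (fun z : ℝ × V => p z.1 z.2) (Ioo 0 T ×ˢ univ)
  divfree : ∀ t ∈ Ioo 0 T, ∀ x, dv (u t) x = 0
  momentum : ∀ t ∈ Ioo 0 T, ∀ x ∈ O, ∀ i,
    deriv (fun s => u s x i) t + adv (u t) (fun y => u t y i) x
      = lap (fun y => u t y i) x - pd i (p t) x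
  bdd : ∀ a b : ℝ, 0 < a → b < T → ∃ M : ℝ, 0 ≤ M ∧ ∀ t ∈ Icc a b, ∀ x, ‖u t x‖ ≤ M ∧
    ∀ i j, |pd j (fun y => u t y i) x| ≤ M

/-- Extension of a local solution: a smooth solution `u` on `(0, T) × Ω` coincides, on a ball
(a cube, as `V` has the maximum norm) whose double is in `Ω`, with a smooth field without
divergence on the whole space, bounded with its gradient on compact time intervals. -/
def S_DEXT : Prop := ∀ (T E : ℝ) (Ω : Set V) (u : ℝ → V → V) (p : ℝ → V → ℝ), OSol 1 T E Ω u p →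
  ∀ (x₀ : V) (R : ℝ), 0 < R → closedBall x₀ (2 * R) ⊆ Ω →
    ∃ (w : ℝ → V → V) (q : ℝ → V → ℝ), DSol T (ball x₀ R) w q ∧
      ∀ t ∈ Ioo 0 T, ∀ x ∈ ball x₀ R, w t x = u t x

/-- The third power of a field, by its energy and its gradient. -/
def S_DL3 : Prop := ∃ C : ℝ, 0 < C ∧ ∀ v : V → V, ContDiff ℝ ∞ v → ∀ (x₀ : V) (R : ℝ), 0 < R →
  ∫⁻ x in ball x₀ (R / 2), ENNReal.ofReal (‖v x‖ ^ 3)
    ≤ ENNReal.ofReal (C * √(∫ x in ball x₀ R, nsq v x) *
      (√R * ((∫ x in ball x₀ R, gsq v x) + (∫ x in ball x₀ R, nsq v x) / R ^ 2)))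

end Pool.Agent.Y7.D
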