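import Pool.Agent.Y7.WInt

/-!
The energy inequality for the derivatives of the vorticity, integrated over a time interval which
may contain singular times (helper7).
-/

set_option autoImplicit false
set_option linter.unusedVariables false

open MeasureTheory Set Metric Filter Topology
open scoped ContDiff ENNReal

namespace Pool.Agent.Y7.WD

open H459R3.NS W221.NS Pool.Agent.TH305.DR
open Pool.Agent.W583.MD (sm_pd cs_pd pd_mul' Z Z.add Z.sub Z.smul Z.sum int_cs Z_pd hcs)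
open Pool.Agent.W639.MH (int_ball)

lemma ex_eps {δ : ℝ} (hδ : 0 < δ) : ∃ (ε : ℕ → ℝ) (κ : ℕ → V → ℝ), Tendsto ε atTop (𝓝 0) ∧
    (∀ j, 0 < ε j) ∧ (∀ j, ε j ≤ δ) ∧ (∀ j, ε j ≤ 1) ∧ ∀ j, Ker (ε j) (κ j) := by
  have h0 : 0 < min δ 1 := lt_min hδ one_pos
  have h1 : ∀ j : ℕ, 0 < min δ 1 / (j + 1) := fun j => by positivity
  have h2 : ∀ j : ℕ, min δ 1 / (j + 1) ≤ min δ 1 := fun j =>
    div_le_self h0.le (by
      have : (0 : ℝ) ≤ j := Nat.cast_nonneg j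
      linarith)
  choose κ hκ using fun j : ℕ => ex_ker (h1 j)
  refine ⟨fun j => min δ 1 / (j + 1), κ, ?_, h1, fun j => (h2 j).trans (min_le_left _ _),
    fun j => (h2 j).trans (min_le_right _ _), hκ⟩
  exact tendsto_const_div_atTop_nhds_zero_nat (min δ 1) |>.comp (tendsto_add_atTop_nat 1) |>.congr
    fun j => by simp

/-- The passage to the limit. -/
lemma fatou {A : Set ℝ} {z : ℝ → ℝ} {Z : ℕ → ℝ → ℝ} {c : ℕ → ℝ} {c0 : ℝ}
    (hZm : ∀ j, IntegrableOn (Z j) A) (hZ0 : ∀ j, 0 ≤ᵐ[volume.restrict A] Z j)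
    (hz0 : 0 ≤ᵐ[volume.restrict A] z) (hzm : AEStronglyMeasurable z (volume.restrict A))
    (hlim : ∀ᵐ τ ∂(volume.restrict A), Tendsto (fun j => Z j τ) atTop (𝓝 (z τ)))
    (hle : ∀ j, ∫ τ in A, Z j τ ≤ c j) (hc : Tendsto c atTop (𝓝 c0)) :
    IntegrableOn z A ∧ ∫ τ in A, z τ ≤ c0 := by
  have hc0 : 0 ≤ c0 := ge_of_tendsto hc (Eventually.of_forall fun j =>
    (integral_nonneg_of_ae (hZ0 j)).trans (hle j))
  have h1 : ∫⁻ τ in A, ENNReal.ofReal (z τ) ≤ ENNReal.ofReal c0 := by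
    have h2 : ∫⁻ τ in A, ENNReal.ofReal (z τ)
        = ∫⁻ τ in A, liminf (fun j => ENNReal.ofReal (Z j τ)) atTop := by
      apply lintegral_congr_ae
      filter_upwards [hlim] with τ hτ
      exact ((ENNReal.continuous_ofReal.tendsto _).comp hτ).liminf_eq.symm
    rw [h2]
    refine (lintegral_liminf_le' fun j =>
      (hZm j).aestronglyMeasurable.aemeasurable.ennreal_ofReal).trans ?_
    have h3 : Tendsto (fun j => ENNReal.ofReal (c j)) atTop (𝓝 (ENNReal.ofReal c0)) :=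
      (ENNReal.continuous_ofReal.tendsto _).comp hc
    rw [← h3.liminf_eq]
    refine liminf_le_liminf (Eventually.of_forall fun j => ?_)
    show ∫⁻ τ in A, ENNReal.ofReal (Z j τ) ≤ ENNReal.ofReal (c j)
    rw [← ofReal_integral_eq_lintegral_ofReal (hZm j) (hZ0 j)]
    exact ENNReal.ofReal_le_ofReal (hle j)
  have hint : IntegrableOn z A := by
    refine ⟨hzm, ?_⟩
    rw [hasFiniteIntegral_iff_ofReal hz0]
    exact h1.trans_lt ENNReal.ofReal_lt_top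
  refine ⟨hint, ?_⟩
  rw [← ofReal_integral_eq_lintegral_ofReal hint hz0] at h1
  exact (ENNReal.ofReal_le_ofReal_iff hc0).1 h1

/-- The energy inequality over a time interval. -/
lemma enI (K B : ℝ) (hB : 0 ≤ B) (n : ℕ) {ρ ρ1 ρ2 M1 : ℝ} {φ : V → ℝ} (h0 : 0 < ρ)
    (h1 : ρ < ρ1) (h2 : ρ1 < ρ2) (h3 : ρ2 ≤ 1 / 4) (hM1 : 0 ≤ M1) (hφ : Cut ρ ρ1 M1 φ) :
    ∃ Q : ℝ, 0 ≤ Q ∧ ∀ (M : ℝ) (H : Set ℝ) (v W : ℝ → V → V) (G k : ℝ → ℝ), WK K M H v W G k →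
      ∀ s ∈ H, ∀ t ∈ H, -1 / 16 < s → s ≤ t →
        (∀ i < n, ∀ τ ∈ H, s < τ → τ < t → NT i ρ2 (v τ) ≤ B) →
        IntegrableOn (fun τ => NT n ρ2 (v τ)) (Ioo s t) →
        IntegrableOn (fun τ => YY (n + 1) φ (v τ)) (Ioo s t) ∧
          YY n φ (v t) + ∫ τ in Ioo s t, YY (n + 1) φ (v τ) ≤ YY n φ (v s)
            + ∫ τ in Ioo s t, (Q * (1 + G τ) * YY n φ (v τ)
              + Q * (1 + G τ + NT n ρ2 (v τ))) := by
  obtain ⟨ρ1', hρ1'⟩ : ∃ x, x = ρ1 + (ρ2 - ρ1) / 4 := ⟨_, rfl⟩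
  obtain ⟨ρ1a, hρ1a⟩ : ∃ x, x = ρ1 + (ρ2 - ρ1) / 2 := ⟨_, rfl⟩
  have r1 : ρ1 < ρ1' := by linarith
  have r2 : ρ1' < ρ1a := by linarith
  have r3 : ρ1a < ρ2 := by linarith
  obtain ⟨M2, φ1, hM2, hφ1⟩ := exists_cut (by linarith : 0 < ρ1') r2
  obtain ⟨L1, hL1, hlip1⟩ := cut_lip hφ
  obtain ⟨L2, hL2, hlip2⟩ := cut_lip hφ1
  obtain ⟨C1, hC1, HC1⟩ := prod_all K B hB n hφ (h0.trans h1) h2 h3
  obtain ⟨C2, hC2, HC2⟩ := prod_all K B hB n hφ1 (by linarith : 0 < ρ1a) r3 h3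
  obtain ⟨Q, hQ⟩ : ∃ x : ℝ, x = 144 * 4 ^ (n + 1) * C1 + 10 * M1 * (1 + L2) := ⟨_, rfl⟩
  have hQ0 : 0 ≤ Q := by rw [hQ]; positivity
  refine ⟨Q, hQ0, fun M H v W G k hD s hs t ht hs16 hst hlow hint => ?_⟩
  have hs1 := hD.subH hs
  have ht1 := hD.subH ht
  have hA : Ioo s t ⊆ Ioo (-1 : ℝ) 0 := fun τ hτ => ⟨hs1.1.trans hτ.1, hτ.2.trans ht1.2⟩
  have hM0 : 0 ≤ M := by
    have := (hD.sd s hs hs16).Gn
    exact this.trans (hD.GM s hs)
  have hv := fun (τ : ℝ) (hτ : τ ∈ H) i => hD.cv hτ i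
  have hGn : ∀ τ ∈ Ioo s t, τ ∈ H → 0 ≤ G τ := fun τ h1 h2 =>
    (hD.sd τ h2 (by linarith [h1.1])).Gn
  -- the error
  obtain ⟨D, hDdef⟩ : ∃ D : ℝ → ℝ, D = fun τ => 144 * 4 ^ (n + 1) * L1 * C2 *
    ((2 + M) * NT n ρ2 (v τ) + (1 + M)) := ⟨_, rfl⟩
  have iD : IntegrableOn D (Ioo s t) := by
    rw [hDdef]
    exact ((hint.const_mul _).add (integrableOn_const measure_Ioo_lt_top.ne)).const_mul _
  obtain ⟨S, hS⟩ : ∃ S : ℝ → ℝ, S = fun τ => Q * (1 + G τ) * YY n φ (v τ)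
    + Q * (1 + G τ + NT n ρ2 (v τ)) := ⟨_, rfl⟩
  have cY := ct_YY n hφ hD
  have cY1 := ct_YY (n + 1) hφ hD
  have cN := ct_NT' n ρ2 hD
  have cS : ContinuousOn S H := by
    rw [hS]
    exact (((continuousOn_const.mul (continuousOn_const.add hD.Gc)).mul cY)).add
      (continuousOn_const.mul ((continuousOn_const.add hD.Gc).add cN))
  have iS : IntegrableOn S (Ioo s t) := by
    have ig : IntegrableOn (fun τ => Q * (1 + M) * NT n ρ2 (v τ)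
        + Q * (1 + M + NT n ρ2 (v τ))) (Ioo s t) :=
      (hint.const_mul _).add ((((integrableOn_const (C := 1 + M)
        measure_Ioo_lt_top.ne).add hint)).const_mul Q)
    refine int_le hD.openH hD.fullH hA measurableSet_Ioo cS ig fun τ hτ hτH => ?_
    have a0 := hGn τ hτ hτH
    have a1 := hD.GM τ hτH
    have a2 := YY_nonneg n φ (v τ)
    have a3 := YY_le_NT n hφ h2.le (hv τ hτH)
    have a4 := NT_nonneg n ρ2 (v τ)
    rw [hS, abs_of_nonneg (by positivity)]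
    have b1 : (1 + G τ) * YY n φ (v τ) ≤ (1 + M) * NT n ρ2 (v τ) :=
      mul_le_mul (by linarith) a3 a2 (by linarith)
    have b2 := mul_le_mul_of_nonneg_left b1 hQ0
    have b3 : Q * (1 + G τ + NT n ρ2 (v τ)) ≤ Q * (1 + M + NT n ρ2 (v τ)) :=
      mul_le_mul_of_nonneg_left (by linarith) hQ0
    linarith
  -- the mollifiers
  obtain ⟨ε, κ, hε0, hεp, hεd, hε1, hκ⟩ := ex_eps (by linarith : 0 < (ρ2 - ρ1) / 4)
  have key : ∀ j, IntegrableOn (fun τ => Ye (κ j) (n + 1) φ (v τ)) (Ioo s t) ∧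
      ∫ τ in Ioo s t, Ye (κ j) (n + 1) φ (v τ) ≤ Ye (κ j) n φ (v s) - Ye (κ j) n φ (v t)
        + (∫ τ in Ioo s t, S τ) + ε j * ∫ τ in Ioo s t, D τ := by
    intro j
    obtain ⟨B1, hB1, hb1, hm1⟩ := Ye_mod n hφ (by linarith) (hε1 j) (hκ j).toKn hD
    obtain ⟨B2, hB2, hb2, hm2⟩ := Ye_mod (n + 1) hφ (by linarith) (hε1 j) (hκ j).toKn hD
    have iZ : IntegrableOn (fun τ => Ye (κ j) (n + 1) φ (v τ)) (Ioo s t) :=
      int_le hD.openH hD.fullH hA measurableSet_Ioo (ct_Ye (n + 1) hφ (hκ j).toKn hD)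
        (integrableOn_const (C := B2) measure_Ioo_lt_top.ne) fun τ _ hτH => hb2 τ hτH
    refine ⟨iZ, ?_⟩
    obtain ⟨f1, f2⟩ := md_ftc hD.openH hD.subH hD.fullH hD.kint hD.knn hB1 hm1 hs ht hst
    have hle : ∫ τ in Ioo s t, deriv (fun s => Ye (κ j) n φ (v s)) τ
        ≤ ∫ τ in Ioo s t, (-Ye (κ j) (n + 1) φ (v τ) + S τ + ε j * D τ) := by
      refine int_mono hD.fullH hA measurableSet_Ioo f1 ((iZ.neg.add iS).add (iD.const_mul _))
        fun τ hτ hτH => ?_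
      obtain ⟨E', e1, e2⟩ := enm n hφ hφ1 hM1 hL1 hlip1 hL2 hlip2 (hεp j) (hε1 j)
        (by linarith [hεd j]) (by linarith [hεd j]) h3 (by linarith) r3.le (hκ j) hD hτH
      rw [e1.deriv]
      refine e2.trans ?_
      have hsd := hD.sd τ hτH (by linarith [hτ.1])
      have a0 := hGn τ hτ hτH
      have a1 := hD.GM τ hτH
      have hl : ∀ i < n, NT i ρ2 (v τ) ≤ B := fun i hi => hlow i hi τ hτH hτ.1 hτ.2
      have p1 : PP n φ (v τ) ≤ C1 * (1 + G τ) * YY n φ (v τ)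
          + C1 * (1 + G τ + NT n ρ2 (v τ)) := HC1 (v τ) (W τ) (G τ) hsd hl
      have p2 : PP n φ1 (v τ) ≤ C2 * (1 + G τ) * YY n φ1 (v τ)
          + C2 * (1 + G τ + NT n ρ2 (v τ)) := HC2 (v τ) (W τ) (G τ) hsd hl
      have p3 := YY_le_NT n hφ1 r3.le (hv τ hτH)
      have p4 := NT_nonneg n ρ2 (v τ)
      have p5 := YY_nonneg n φ1 (v τ)
      have p6 := YY_nonneg n φ (v τ)
      have p7 : PP n φ1 (v τ) ≤ C2 * ((2 + M) * NT n ρ2 (v τ) + (1 + M)) := by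
        have q1 : (1 + G τ) * YY n φ1 (v τ) ≤ (1 + M) * NT n ρ2 (v τ) :=
          mul_le_mul (by linarith) p3 p5 (by linarith)
        have q2 := mul_le_mul_of_nonneg_left q1 hC2
        have q3 : C2 * (1 + G τ + NT n ρ2 (v τ)) ≤ C2 * (1 + M + NT n ρ2 (v τ)) :=
          mul_le_mul_of_nonneg_left (by linarith) hC2
        linarith
      have c4 : (0 : ℝ) ≤ 144 * 4 ^ (n + 1) := by positivity
      have p8 := mul_le_mul_of_nonneg_left p1 c4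
      have p9 := mul_le_mul_of_nonneg_left p7 (mul_nonneg (mul_nonneg c4 hL1) (hεp j).le)
      have p10 : 0 ≤ 10 * M1 * (1 + L2) := by positivity
      have p11 : 0 ≤ 10 * M1 * (1 + L2) * ((1 + G τ) * YY n φ (v τ)) := by positivity
      have p12 : 0 ≤ 10 * M1 * (1 + L2) * (1 + G τ) := by positivity
      rw [hS, hDdef]
      show -Ye (κ j) (n + 1) φ (v τ) + 10 * M1 * (1 + L2) * NT n ρ2 (v τ)
        + 144 * 4 ^ (n + 1) * (PP n φ (v τ) + L1 * ε j * PP n φ1 (v τ))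
        ≤ -Ye (κ j) (n + 1) φ (v τ) + (Q * (1 + G τ) * YY n φ (v τ)
          + Q * (1 + G τ + NT n ρ2 (v τ))) + ε j * (144 * 4 ^ (n + 1) * L1 * C2 *
          ((2 + M) * NT n ρ2 (v τ) + (1 + M)))
      rw [hQ]
      nlinarith
    have iZn : IntegrableOn (fun τ => -Ye (κ j) (n + 1) φ (v τ)) (Ioo s t) := iZ.neg
    have i12 : IntegrableOn (fun τ => -Ye (κ j) (n + 1) φ (v τ) + S τ) (Ioo s t) := iZn.add iS
    have i3 : IntegrableOn (fun τ => ε j * D τ) (Ioo s t) := iD.const_mul _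
    rw [← f2, integral_add i12 i3, integral_add iZn iS, integral_neg, integral_const_mul] at hle
    linarith
  have hlimc : Tendsto (fun j => Ye (κ j) n φ (v s) - Ye (κ j) n φ (v t)
      + (∫ τ in Ioo s t, S τ) + ε j * ∫ τ in Ioo s t, D τ) atTop
      (𝓝 (YY n φ (v s) - YY n φ (v t) + (∫ τ in Ioo s t, S τ)
        + 0 * ∫ τ in Ioo s t, D τ)) :=
    (((Ye_lim hε0 hε1 hκ n hφ (hv s hs)).sub (Ye_lim hε0 hε1 hκ n hφ (hv t ht))).add
      tendsto_const_nhds).add (hε0.mul_const _)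
  obtain ⟨g1, g2⟩ := fatou (A := Ioo s t) (z := fun τ => YY (n + 1) φ (v τ))
    (Z := fun j τ => Ye (κ j) (n + 1) φ (v τ)) (fun j => (key j).1)
    (fun j => Eventually.of_forall fun τ => Ye_nonneg _ _ _ _)
    (Eventually.of_forall fun τ => YY_nonneg _ _ _)
    (aesm hD.openH hD.fullH hA cY1)
    (by
      filter_upwards [ae_mem hD.fullH hA measurableSet_Ioo] with τ hτ
      exact Ye_lim hε0 hε1 hκ (n + 1) hφ (hv τ hτ.2))
    (fun j => (key j).2) hlimc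
  refine ⟨g1, ?_⟩
  rw [hS] at g2
  linarith

end Pool.Agent.Y7.WD
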