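import Pool.Agent.Y7.WInt

/-!
Gronwall's inequality with dissipation, across singular times (helper7).
-/

set_option autoImplicit false
set_option linter.unusedVariables false

open MeasureTheory Set Metric Filter Topology
open scoped ContDiff ENNReal

namespace Pool.Agent.Y7.WD

section
variable {H : Set ℝ}

/-- A regular time in an interval. -/
lemma ex_H (hfull : volume (Ioo (-1 : ℝ) 0 \ H) = 0) {a b : ℝ} (ha : -1 ≤ a) (hab : a < b)
    (hb : b ≤ 0) : ∃ s ∈ H, a < s ∧ s < b := by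
  by_contra hcon
  push Not at hcon
  have h1 : Ioo a b ⊆ Ioo (-1 : ℝ) 0 \ H := fun x hx =>
    ⟨⟨ha.trans_lt hx.1, hx.2.trans_le hb⟩, fun hxH =>
      absurd hx.2 (not_lt.2 (hcon x hxH hx.1))⟩
  have h2 : volume (Ioo a b) = 0 := measure_mono_null h1 hfull
  rw [Real.volume_Ioo] at h2
  have h3 := ENNReal.ofReal_eq_zero.1 h2
  linarith

lemma ex_seq (hfull : volume (Ioo (-1 : ℝ) 0 \ H) = 0) {a : ℝ} (ha : -1 ≤ a) (ha0 : a < 0) :
    ∃ b : ℕ → ℝ, (∀ j, b j ∈ H) ∧ (∀ j, a < b j) ∧ (∀ j, b j < 0) ∧ Tendsto b atTop (𝓝 0) := by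
  have h : ∀ j : ℕ, ∃ s ∈ H, max a (-1 / (j + 1)) < s ∧ s < 0 := fun j => by
    have hj : (0 : ℝ) < j + 1 := by positivity
    have h1 : -1 / ((j : ℝ) + 1) < 0 := div_neg_of_neg_of_pos (by norm_num) hj
    exact ex_H hfull (le_max_of_le_left ha) (max_lt ha0 h1) le_rfl
  choose b h1 h2 using h
  refine ⟨b, h1, fun j => (le_max_left _ _).trans_lt (h2 j).1, fun j => (h2 j).2, ?_⟩
  have h3 : Tendsto (fun j : ℕ => -1 / ((j : ℝ) + 1)) atTop (𝓝 0) := by
    have := (tendsto_const_div_atTop_nhds_zero_nat (-1 : ℝ)).comp (tendsto_add_atTop_nat 1)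
    refine this.congr fun j => ?_
    simp
  exact tendsto_of_tendsto_of_tendsto_of_le_of_le h3 tendsto_const_nhds
    (fun j => ((le_max_right _ _).trans_lt (h2 j).1).le) fun j => (h2 j).2.le

/-- Gronwall's inequality for absolutely continuous functions. -/
lemma gr0 {s t y : ℝ} (hst : s ≤ t) (hy : 0 ≤ y) {a r w : ℝ → ℝ} (ia : Integrable a)
    (ir : Integrable r) (iw : Integrable w) (na : ∀ x, 0 ≤ a x) (nr : ∀ x, 0 ≤ r x)
    (nw : ∀ x, 0 ≤ w x)
    (h : ∀ᵐ x ∂(volume.restrict (Ioo s t)), r x ≤ a x * (y + ∫ σ in s..x, r σ) + w x) :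
    y + ∫ σ in s..t, r σ ≤ Real.exp (∫ σ in s..t, a σ) * (y + ∫ σ in Ioo s t, w σ) := by
  obtain ⟨P, hP⟩ : ∃ P : ℝ → ℝ, P = fun x => ∫ σ in s..x, a σ := ⟨_, rfl⟩
  obtain ⟨U, hU⟩ : ∃ U : ℝ → ℝ, U = fun x => y + ∫ σ in s..x, r σ := ⟨_, rfl⟩
  obtain ⟨F, hF⟩ : ∃ F : ℝ → ℝ, F = fun x => Real.exp (-P x) * U x := ⟨_, rfl⟩
  have hPs : P s = 0 := by rw [hP]; simp
  have hUs : U s = y := by rw [hU]; simp
  have hdP : ∀ x ∈ Icc s t, ∀ z ∈ Icc s t, x ≤ z → P z - P x = ∫ σ in Ioo x z, a σ := by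
    intro x hx z hz hxz
    rw [hP]
    show (∫ σ in s..z, a σ) - ∫ σ in s..x, a σ = _
    rw [intervalIntegral.integral_interval_sub_left ia.intervalIntegrable ia.intervalIntegrable,
      intervalIntegral.integral_of_le hxz, integral_Ioc_eq_integral_Ioo]
  have hdU : ∀ x ∈ Icc s t, ∀ z ∈ Icc s t, x ≤ z → U z - U x = ∫ σ in Ioo x z, r σ := by
    intro x hx z hz hxz
    rw [hU]
    show (y + ∫ σ in s..z, r σ) - (y + ∫ σ in s..x, r σ) = _
    rw [add_sub_add_left_eq_sub, intervalIntegral.integral_interval_sub_left ir.intervalIntegrable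
      ir.intervalIntegrable, intervalIntegral.integral_of_le hxz, integral_Ioc_eq_integral_Ioo]
  have hms : s ∈ Icc s t := left_mem_Icc.2 hst
  have hmt : t ∈ Icc s t := right_mem_Icc.2 hst
  have hIn : ∀ (f : ℝ → ℝ), (∀ x, 0 ≤ f x) → ∀ x z, 0 ≤ ∫ σ in Ioo x z, f σ := fun f hf x z =>
    integral_nonneg fun σ => hf σ
  have hP0 : ∀ x ∈ Icc s t, 0 ≤ P x := fun x hx => by
    have := hdP s hms x hx hx.1
    have := hIn a na s x
    linarith
  have hU0 : ∀ x ∈ Icc s t, 0 ≤ U x := fun x hx => by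
    have := hdU s hms x hx hx.1
    have := hIn r nr s x
    linarith
  have hUt : ∀ x ∈ Icc s t, U x ≤ U t := fun x hx => by
    have := hdU x hx t hmt hx.2
    have := hIn r nr x t
    linarith
  have hk : Integrable (fun x => U t * a x + r x) := (ia.const_mul _).add ir
  have hmod : ∀ x ∈ Icc s t, ∀ z ∈ Icc s t, x ≤ z →
      |F z - F x| ≤ ∫ σ in Ioo x z, (U t * a σ + r σ) := by
    intro x hx z hz hxz
    have h1 := hdP x hx z hz hxz
    have h2 := hdU x hx z hz hxz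
    have h3 : 0 ≤ P z - P x := by rw [h1]; exact hIn a na x z
    have h4 : 0 ≤ U z - U x := by rw [h2]; exact hIn r nr x z
    have e1 : F z - F x = (Real.exp (-P z) - Real.exp (-P x)) * U z
        + Real.exp (-P x) * (U z - U x) := by
      rw [hF]
      ring
    have e2 : |Real.exp (-P z) - Real.exp (-P x)| ≤ P z - P x := by
      have f1 : Real.exp (-P z) ≤ Real.exp (-P x) := Real.exp_le_exp.2 (by linarith)
      have f2 : Real.exp (-P x) ≤ 1 := Real.exp_le_one_iff.2 (by linarith [hP0 x hx])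
      have f3 : Real.exp (-P x) - Real.exp (-P z)
          = Real.exp (-P x) * (1 - Real.exp (-(P z - P x))) := by
        rw [mul_sub, mul_one, ← Real.exp_add]
        congr 2
        ring
      have f4 : 1 - Real.exp (-(P z - P x)) ≤ P z - P x := by
        have := Real.add_one_le_exp (-(P z - P x))
        linarith
      have f5 : 0 ≤ 1 - Real.exp (-(P z - P x)) := by
        have : Real.exp (-(P z - P x)) ≤ 1 := Real.exp_le_one_iff.2 (by linarith)
        linarith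
      rw [abs_sub_comm, abs_of_nonneg (by linarith), f3]
      calc Real.exp (-P x) * (1 - Real.exp (-(P z - P x)))
          ≤ 1 * (1 - Real.exp (-(P z - P x))) := mul_le_mul_of_nonneg_right f2 f5
        _ ≤ P z - P x := by linarith
    have i1 : IntegrableOn (fun σ => U t * a σ) (Ioo x z) := (ia.const_mul _).integrableOn
    rw [e1, integral_add i1 ir.integrableOn, integral_const_mul, ← h1, ← h2]
    refine (abs_add_le _ _).trans (add_le_add ?_ ?_)
    · rw [abs_mul, abs_of_nonneg (hU0 z hz), mul_comm]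
      exact mul_le_mul (hUt z hz) e2 (abs_nonneg _) (hU0 t hmt)
    · rw [abs_mul, abs_of_nonneg h4, abs_of_pos (Real.exp_pos _)]
      have : Real.exp (-P x) ≤ 1 := Real.exp_le_one_iff.2 (by linarith [hP0 x hx])
      nlinarith
  obtain ⟨g1, g2⟩ := Pool.Agent.Y8.ftc_mod hk hst hmod
  have hle : ∫ σ in Ioo s t, deriv F σ ≤ ∫ σ in Ioo s t, w σ := by
    refine integral_mono_ae g1 iw.integrableOn ?_
    filter_upwards [h, ae_restrict_of_ae
      (_root_.LocallyIntegrable.ae_hasDerivAt_integral ia.locallyIntegrable),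
      ae_restrict_of_ae
      (_root_.LocallyIntegrable.ae_hasDerivAt_integral ir.locallyIntegrable),
      ae_restrict_mem measurableSet_Ioo] with x hx1 hx2 hx3 hx4
    have d1 : HasDerivAt P (a x) x := by
      rw [hP]
      exact hx2 s
    have d2 : HasDerivAt U (r x) x := by
      rw [hU]
      exact (hx3 s).const_add y
    have d3 : HasDerivAt F (Real.exp (-P x) * -a x * U x + Real.exp (-P x) * r x) x := by
      rw [hF]
      exact (d1.neg.exp).mul d2
    rw [d3.deriv]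
    have e0 : x ∈ Icc s t := ⟨hx4.1.le, hx4.2.le⟩
    have e1 : Real.exp (-P x) ≤ 1 := Real.exp_le_one_iff.2 (by linarith [hP0 x e0])
    have e2 := Real.exp_pos (-P x)
    have e3 : r x ≤ a x * U x + w x := by
      rw [hU]
      exact hx1
    have e4 := nw x
    have e5 := mul_le_mul_of_nonneg_left e3 e2.le
    nlinarith
  rw [← g2] at hle
  have e1 : F s = y := by
    rw [hF]
    show Real.exp (-P s) * U s = y
    rw [hPs, hUs]
    simp
  have e2 : F t = Real.exp (-P t) * U t := by rw [hF]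
  rw [e1, e2] at hle
  have e3 : U t ≤ Real.exp (P t) * (y + ∫ σ in Ioo s t, w σ) := by
    have h1 : Real.exp (-P t) * U t ≤ y + ∫ σ in Ioo s t, w σ := by linarith
    have h2 := mul_le_mul_of_nonneg_left h1 (Real.exp_pos (P t)).le
    rw [← mul_assoc, ← Real.exp_add] at h2
    simpa using h2
  rw [hU, hP] at e3
  exact e3

/-- Gronwall's inequality on an interval. -/
lemma gr_step (hHo : IsOpen H) (hfull : volume (Ioo (-1 : ℝ) 0 \ H) = 0)
    (hsub : H ⊆ Ioo (-1) 0) {s t y : ℝ}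
    (hs : s ∈ H) (ht : t ∈ H) (hst : s ≤ t) (hy : 0 ≤ y) {Y A R : ℝ → ℝ}
    (nY : ∀ τ ∈ H, 0 ≤ Y τ) (nA : ∀ τ ∈ H, s < τ → 0 ≤ A τ) (nR : ∀ τ ∈ H, s < τ → 0 ≤ R τ)
    (iA : IntegrableOn A (Ioo s t)) (iR : IntegrableOn R (Ioo s t))
    (iAY : IntegrableOn (fun τ => A τ * Y τ) (Ioo s t))
    (hE : ∀ τ ∈ H, s < τ → τ < t → Y τ ≤ y + ∫ σ in Ioo s τ, (A σ * Y σ + R σ)) :
    y + ∫ σ in Ioo s t, (A σ * Y σ + R σ)
      ≤ Real.exp (∫ σ in Ioo s t, A σ) * (y + ∫ σ in Ioo s t, R σ) := by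
  have hs1 := hsub hs
  have ht1 := hsub ht
  have hA : Ioo s t ⊆ Ioo (-1 : ℝ) 0 := fun τ hτ => ⟨hs1.1.trans hτ.1, hτ.2.trans ht1.2⟩
  have hmeas : MeasurableSet (Ioo s t ∩ H) := measurableSet_Ioo.inter hHo.measurableSet
  -- the integrals
  have hex : ∀ (f : ℝ → ℝ) x, x ≤ t → s ≤ x → ∫ σ in s..x, (Ioo s t ∩ H).indicator f σ
      = ∫ σ in Ioo s x, f σ := by
    intro f x hx hsx
    have hB : Ioo s x ⊆ Ioo (-1 : ℝ) 0 := fun τ hτ =>
      ⟨hs1.1.trans hτ.1, (hτ.2.trans_le hx).trans ht1.2⟩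
    rw [intervalIntegral.integral_of_le hsx, integral_Ioc_eq_integral_Ioo,
      setIntegral_indicator hmeas, rH hfull hB, ← inter_assoc,
      inter_eq_left.2 (Ioo_subset_Ioo_right hx)]
  have hin : ∀ f : ℝ → ℝ, IntegrableOn f (Ioo s t) →
      Integrable ((Ioo s t ∩ H).indicator f) := fun f hf =>
    (integrable_indicator_iff hmeas).2 (hf.mono_set inter_subset_left)
  have iS : IntegrableOn (fun σ => A σ * Y σ + R σ) (Ioo s t) := iAY.add iR
  have hnn : ∀ f : ℝ → ℝ, (∀ τ ∈ H, s < τ → 0 ≤ f τ) → ∀ x, 0 ≤ (Ioo s t ∩ H).indicator f x := by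
    intro f hf x
    exact indicator_nonneg (fun τ hτ => hf τ hτ.2 hτ.1.1) x
  have nS : ∀ τ ∈ H, s < τ → 0 ≤ A τ * Y τ + R τ := fun τ h1 h2 =>
    add_nonneg (mul_nonneg (nA τ h1 h2) (nY τ h1)) (nR τ h1 h2)
  have h := gr0 hst hy (hin A iA) (hin _ iS) (hin R iR) (hnn A nA) (hnn _ nS) (hnn R nR) (by
    filter_upwards [ae_mem hfull hA measurableSet_Ioo] with x hx
    have hxm : x ∈ Ioo s t ∩ H := hx
    rw [hex _ x hx.1.2.le hx.1.1.le, indicator_of_mem hxm, indicator_of_mem hxm,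
      indicator_of_mem hxm]
    have h1 := hE x hx.2 hx.1.1 hx.1.2
    have h2 := mul_le_mul_of_nonneg_left h1 (nA x hx.2 hx.1.1)
    linarith)
  rw [hex _ t le_rfl hst, hex _ t le_rfl hst] at h
  have e : ∫ σ in Ioo s t, (Ioo s t ∩ H).indicator R σ = ∫ σ in Ioo s t, R σ := by
    rw [setIntegral_indicator hmeas, rH hfull hA, ← inter_assoc, inter_self]
  rwa [e] at h

/-- Gronwall's inequality with dissipation. -/
lemma wgron (hHo : IsOpen H) (hfull : volume (Ioo (-1 : ℝ) 0 \ H) = 0) (hsub : H ⊆ Ioo (-1) 0)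
    {a a' KA K1 : ℝ} {Y Z A R : ℝ → ℝ} (ha : -1 ≤ a) (haa : a < a') (ha' : a' < 0)
    (nY : ∀ t ∈ H, 0 ≤ Y t) (nZ : ∀ t ∈ H, 0 ≤ Z t) (nA : ∀ t ∈ H, a < t → 0 ≤ A t)
    (nR : ∀ t ∈ H, a < t → 0 ≤ R t)
    (iY : IntegrableOn Y (Ioo a 0)) (iA : IntegrableOn A (Ioo a 0)) (iR : IntegrableOn R (Ioo a 0))
    (iAY : IntegrableOn (fun t => A t * Y t) (Ioo a 0))
    (hE : ∀ s ∈ H, ∀ t ∈ H, a < s → s ≤ t → IntegrableOn Z (Ioo s t) ∧
      Y t + ∫ τ in Ioo s t, Z τ ≤ Y s + ∫ τ in Ioo s t, (A τ * Y τ + R τ))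
    (hKA : ∫ t in Ioo a 0, A t ≤ KA) (hK1 : ∫ t in Ioo a 0, (Y t + R t) ≤ K1)
    (hKA0 : 0 ≤ KA) (hK10 : 0 ≤ K1) :
    (∀ t ∈ H, a' < t → Y t ≤ Real.exp KA * (2 * K1 / (a' - a))) ∧
      IntegrableOn Z (Ioo a' 0) ∧
      ∫ t in Ioo a' 0, Z t ≤ Real.exp KA * (2 * K1 / (a' - a)) := by
  have had : 0 < a' - a := by linarith
  have had1 : a' - a ≤ 1 := by linarith
  -- a good time
  obtain ⟨s, hsH, has, hsa, hYs⟩ : ∃ s ∈ H, a < s ∧ s < a' ∧ Y s ≤ K1 / (a' - a) := by
    have hB : Ioo a a' ⊆ Ioo (-1 : ℝ) 0 := fun x hx => ⟨ha.trans_lt hx.1, hx.2.trans ha'⟩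
    have hB0 : Ioo a a' ⊆ Ioo a 0 := Ioo_subset_Ioo_right ha'.le
    have hne : (volume : Measure ℝ).restrict (Ioo a a') ≠ 0 := by
      rw [Ne, Measure.restrict_eq_zero, Real.volume_Ioo, ENNReal.ofReal_eq_zero, not_le]
      exact had
    have hN : (volume : Measure ℝ).restrict (Ioo a a') (Ioo a a' ∩ H)ᶜ = 0 := by
      have := ae_mem hfull hB measurableSet_Ioo
      rw [ae_iff] at this
      exact this
    obtain ⟨s, h1, h2⟩ := exists_notMem_null_le_average hne (iY.mono_set hB0) hN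
    rw [notMem_compl_iff] at h1
    refine ⟨s, h1.2, h1.1.1, h1.1.2, h2.trans ?_⟩
    rw [setAverage_eq, smul_eq_mul]
    have h3 : (volume : Measure ℝ).real (Ioo a a') = a' - a := by
      rw [measureReal_def, Real.volume_Ioo, ENNReal.toReal_ofReal had.le]
    rw [h3, inv_mul_eq_div]
    apply div_le_div_of_nonneg_right _ had.le
    have h4 : ∫ x in Ioo a a', Y x ≤ ∫ x in Ioo a 0, Y x := by
      apply setIntegral_mono_set iY
      · filter_upwards [ae_mem hfull (A := Ioo a 0)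
          (fun x hx => ⟨ha.trans_lt hx.1, hx.2⟩) measurableSet_Ioo] with x hx
        exact nY x hx.2
      · exact hB0.eventuallyLE
    have h5 : 0 ≤ ∫ x in Ioo a 0, R x := by
      apply integral_nonneg_of_ae
      filter_upwards [ae_mem hfull (A := Ioo a 0)
        (fun x hx => ⟨ha.trans_lt hx.1, hx.2⟩) measurableSet_Ioo] with x hx
      exact nR x hx.2 hx.1.1
    rw [integral_add iY iR] at hK1
    linarith
  have hRK : ∀ t ∈ H, s ≤ t → ∫ τ in Ioo s t, R τ ≤ K1 / (a' - a) := by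
    intro t ht hst
    have hY0 : 0 ≤ ∫ x in Ioo a 0, Y x := by
      apply integral_nonneg_of_ae
      filter_upwards [ae_mem hfull (A := Ioo a 0)
        (fun x hx => ⟨ha.trans_lt hx.1, hx.2⟩) measurableSet_Ioo] with x hx
      exact nY x hx.2
    have h4 : ∫ x in Ioo s t, R x ≤ ∫ x in Ioo a 0, R x := by
      apply setIntegral_mono_set iR
      · filter_upwards [ae_mem hfull (A := Ioo a 0)
          (fun x hx => ⟨ha.trans_lt hx.1, hx.2⟩) measurableSet_Ioo] with x hx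
        exact nR x hx.2 hx.1.1
      · exact (Ioo_subset_Ioo has.le (hsub ht).2.le).eventuallyLE
    rw [integral_add iY iR] at hK1
    have h5 : K1 ≤ K1 / (a' - a) := by
      rw [le_div_iff₀ had]
      nlinarith
    linarith
  have hAK : ∀ t ∈ H, s ≤ t → ∫ τ in Ioo s t, A τ ≤ KA := by
    intro t ht hst
    refine le_trans ?_ hKA
    apply setIntegral_mono_set iA
    · filter_upwards [ae_mem hfull (A := Ioo a 0)
        (fun x hx => ⟨ha.trans_lt hx.1, hx.2⟩) measurableSet_Ioo] with x hx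
      exact nA x hx.2 hx.1.1
    · exact (Ioo_subset_Ioo has.le (hsub ht).2.le).eventuallyLE
  have key : ∀ t ∈ H, s ≤ t → Y s + ∫ τ in Ioo s t, (A τ * Y τ + R τ)
      ≤ Real.exp KA * (2 * K1 / (a' - a)) := by
    intro t ht hst
    have hsub2 : Ioo s t ⊆ Ioo a 0 := Ioo_subset_Ioo has.le (hsub ht).2.le
    have h1 := gr_step hHo hfull hsub hsH ht hst (nY s hsH) nY
      (fun τ h1 h2 => nA τ h1 (has.trans h2)) (fun τ h1 h2 => nR τ h1 (has.trans h2))
      (iA.mono_set hsub2) (iR.mono_set hsub2) (iAY.mono_set hsub2) (fun τ h1 h2 h3 => by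
        obtain ⟨g1, g2⟩ := hE s hsH τ h1 has h2.le
        have g3 : 0 ≤ ∫ σ in Ioo s τ, Z σ := by
          apply integral_nonneg_of_ae
          filter_upwards [ae_mem hfull (A := Ioo s τ)
            (fun x hx => ⟨(hsub hsH).1.trans hx.1, hx.2.trans (hsub h1).2⟩)
            measurableSet_Ioo] with x hx
          exact nZ x hx.2
        linarith)
    refine h1.trans ?_
    have h2 : Real.exp (∫ σ in Ioo s t, A σ) ≤ Real.exp KA := Real.exp_le_exp.2 (hAK t ht hst)
    have h3 : Y s + ∫ σ in Ioo s t, R σ ≤ 2 * K1 / (a' - a) := by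
      have := hRK t ht hst
      have e : 2 * K1 / (a' - a) = K1 / (a' - a) + K1 / (a' - a) := by ring
      linarith
    have h4 : 0 ≤ Y s + ∫ σ in Ioo s t, R σ := by
      have := nY s hsH
      have g3 : 0 ≤ ∫ σ in Ioo s t, R σ := by
        apply integral_nonneg_of_ae
        filter_upwards [ae_mem hfull (A := Ioo s t)
          (fun x hx => ⟨(hsub hsH).1.trans hx.1, hx.2.trans (hsub ht).2⟩)
          measurableSet_Ioo] with x hx
        exact nR x hx.2 (has.trans hx.1.1)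
      linarith
    exact mul_le_mul h2 h3 h4 (Real.exp_pos _).le
  have hZt : ∀ t ∈ H, a' < t → IntegrableOn Z (Ioo a' t) ∧
      ∫ τ in Ioo a' t, Z τ ≤ Real.exp KA * (2 * K1 / (a' - a)) := by
    intro t ht hat
    obtain ⟨g1, g2⟩ := hE s hsH t ht has (hsa.trans hat).le
    have hss : Ioo a' t ⊆ Ioo s t := Ioo_subset_Ioo_left hsa.le
    refine ⟨g1.mono_set hss, ?_⟩
    have g3 : ∫ τ in Ioo a' t, Z τ ≤ ∫ τ in Ioo s t, Z τ := by
      apply setIntegral_mono_set g1
      · filter_upwards [ae_mem hfull (A := Ioo s t)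
          (fun x hx => ⟨(hsub hsH).1.trans hx.1, hx.2.trans (hsub ht).2⟩)
          measurableSet_Ioo] with x hx
        exact nZ x hx.2
      · exact hss.eventuallyLE
    have g4 := key t ht (hsa.trans hat).le
    have g5 := nY t ht
    linarith
  refine ⟨fun t ht hat => ?_, ?_⟩
  · obtain ⟨g1, g2⟩ := hE s hsH t ht has (hsa.trans hat).le
    have g3 : 0 ≤ ∫ σ in Ioo s t, Z σ := by
      apply integral_nonneg_of_ae
      filter_upwards [ae_mem hfull (A := Ioo s t)
        (fun x hx => ⟨(hsub hsH).1.trans hx.1, hx.2.trans (hsub ht).2⟩)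
        measurableSet_Ioo] with x hx
      exact nZ x hx.2
    have g4 := key t ht (hsa.trans hat).le
    linarith
  · obtain ⟨b, hbH, hab, hb0, hbl⟩ := ex_seq hfull (by linarith : -1 ≤ a') ha'
    have hi : IntegrableOn Z (Ioc a' 0) := by
      refine integrableOn_Ioc_of_intervalIntegral_norm_bounded_right
        (I := Real.exp KA * (2 * K1 / (a' - a))) (b := b) (l := atTop) (fun j => ?_) hbl
        (Eventually.of_forall fun j => ?_)
      · rw [integrableOn_Ioc_iff_integrableOn_Ioo]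
        exact (hZt (b j) (hbH j) (hab j)).1
      · rw [integral_Ioc_eq_integral_Ioo]
        refine le_trans (le_of_eq ?_) (hZt (b j) (hbH j) (hab j)).2
        apply integral_congr_ae
        filter_upwards [ae_mem hfull (A := Ioo a' (b j))
          (fun x hx => ⟨(ha.trans_lt haa).trans hx.1, hx.2.trans (hb0 j)⟩)
          measurableSet_Ioo] with x hx
        rw [Real.norm_eq_abs, abs_of_nonneg (nZ x hx.2)]
    refine ⟨hi.mono_set Ioo_subset_Ioc_self, ?_⟩
    have hcont : ContinuousOn (fun x => ∫ τ in a'..x, Z τ) (uIcc a' 0) := by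
      apply intervalIntegral.continuousOn_primitive_interval
      rw [uIcc_of_le ha'.le, integrableOn_Icc_iff_integrableOn_Ioc]
      exact hi
    have h0 : (0 : ℝ) ∈ uIcc a' 0 := right_mem_uIcc
    have hlim : Tendsto (fun j => ∫ τ in a'..b j, Z τ) atTop (𝓝 (∫ τ in a'..0, Z τ)) := by
      have h1 := hcont 0 h0
      refine h1.tendsto.comp (tendsto_nhdsWithin_iff.2 ⟨hbl, Eventually.of_forall fun j => ?_⟩)
      rw [uIcc_of_le ha'.le]
      exact ⟨(hab j).le, (hb0 j).le⟩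
    have h2 : ∫ τ in a'..0, Z τ ≤ Real.exp KA * (2 * K1 / (a' - a)) := by
      refine le_of_tendsto hlim (Eventually.of_forall fun j => ?_)
      rw [intervalIntegral.integral_of_le (hab j).le, integral_Ioc_eq_integral_Ioo]
      exact (hZt (b j) (hbH j) (hab j)).2
    rwa [intervalIntegral.integral_of_le ha'.le, integral_Ioc_eq_integral_Ioo] at h2

end

end Pool.Agent.Y7.WD
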