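import Pool.Agent.Y7.WInt2
import Pool.Agent.Y7.WGr

/-!
The induction over the order of the derivatives, across singular times (helper7; after
`TH305.DR.Lev`).
-/

set_option autoImplicit false
set_option linter.unusedVariables false

open MeasureTheory Set Metric Filter Topology
open scoped ContDiff ENNReal

namespace Pool.Agent.Y7.WD

open H459R3.NS W221.NS Pool.Agent.TH305.DR
open Pool.Agent.W583.MD (sm_pd cs_pd pd_mul' Z Z.add Z.sub Z.smul Z.sum int_cs Z_pd hcs)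
open Pool.Agent.W639.MH (int_ball)

/-- Level `n`. -/
def WLev (K : ℝ) (n : ℕ) : Prop := ∀ ρ a : ℝ, 0 < ρ → ρ < 1 / 4 → -1 / 16 < a → a < 0 →
  ∃ C : ℝ, 0 ≤ C ∧ ∀ (M : ℝ) (H : Set ℝ) (v W : ℝ → V → V) (G k : ℝ → ℝ), WK K M H v W G k →
    (∀ i < n, ∀ t ∈ H, a < t → NT i ρ (v t) ≤ C) ∧
      IntegrableOn (fun t => NT n ρ (v t)) (Ioo a 0) ∧ ∫ t in Ioo a 0, NT n ρ (v t) ≤ C

section
variable {K M : ℝ} {H : Set ℝ} {v W : ℝ → V → V} {G k : ℝ → ℝ}

lemma sub16 {a : ℝ} (ha : -1 / 16 ≤ a) : Ioo a 0 ⊆ Ioo (-1 : ℝ) 0 :=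
  Ioo_subset_Ioo_left (by linarith)

lemma WK.iG (hD : WK K M H v W G k) {a : ℝ} (ha : -1 / 16 ≤ a) (ha0 : a < 0) :
    IntegrableOn G (Ioo a 0) ∧ 0 ≤ ∫ t in Ioo a 0, G t ∧ ∫ t in Ioo a 0, G t ≤ K := by
  have h0 : ∀ {a : ℝ}, -1 / 16 ≤ a → ∀ᵐ t ∂(volume.restrict (Ioo a 0)), 0 ≤ G t := by
    intro a ha
    filter_upwards [ae_mem hD.fullH (sub16 ha) measurableSet_Ioo] with t ht
    exact (hD.sd t ht.2 (by linarith [ht.1.1])).Gn
  have hi : ∀ {a : ℝ}, -1 / 16 ≤ a → IntegrableOn G (Ioo a 0) := fun {a} ha => by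
    refine int_le hD.openH hD.fullH (sub16 ha) measurableSet_Ioo hD.Gc
      (integrableOn_const (C := M) measure_Ioo_lt_top.ne) fun τ hτ hτH => ?_
    rw [abs_of_nonneg (hD.sd τ hτH (by linarith [hτ.1])).Gn]
    exact hD.GM τ hτH
  refine ⟨hi ha, integral_nonneg_of_ae (h0 ha), ?_⟩
  refine le_trans ?_ hD.Gi
  exact setIntegral_mono_set (hi le_rfl) (h0 le_rfl) (Ioo_subset_Ioo_left ha).eventuallyLE

lemma wlev0 (K : ℝ) (hK : 0 ≤ K) : WLev K 0 := by
  intro ρ a h0 hρ ha ha0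
  refine ⟨K, hK, fun M H v W G k hD => ⟨fun i hi => absurd hi (Nat.not_lt_zero i), ?_⟩⟩
  have hs : Ioo a 0 ⊆ Ioo (-1 / 16 : ℝ) 0 := Ioo_subset_Ioo_left ha.le
  have hi1 : IntegrableOn (fun t => NT 0 (1 / 4) (v t)) (Ioo a 0) := hD.N0i.mono_set hs
  have hle : ∀ τ ∈ Ioo a 0, τ ∈ H → NT 0 ρ (v τ) ≤ NT 0 (1 / 4) (v τ) := fun τ _ hτ =>
    NT_mono 0 hρ.le fun i => hD.cv hτ i
  have hi : IntegrableOn (fun t => NT 0 ρ (v t)) (Ioo a 0) := by
    refine int_le hD.openH hD.fullH (sub16 ha.le) measurableSet_Ioo (ct_NT' 0 ρ hD) hi1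
      fun τ hτ hτH => ?_
    rw [abs_of_nonneg (NT_nonneg _ _ _)]
    exact hle τ hτ hτH
  refine ⟨hi, ?_⟩
  refine (int_mono hD.fullH (sub16 ha.le) measurableSet_Ioo hi hi1 hle).trans (le_trans ?_ hD.N0)
  exact setIntegral_mono_set hD.N0i (Eventually.of_forall fun τ => NT_nonneg _ _ _)
    hs.eventuallyLE

lemma wlev_succ (K : ℝ) (hK : 0 ≤ K) (n : ℕ) (ih : WLev K n) : WLev K (n + 1) := by
  intro ρ a h0 hρ ha ha0
  -- the radii and times
  obtain ⟨ρ2, hρ2⟩ : ∃ x, x = (ρ + 1 / 4) / 2 := ⟨_, rfl⟩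
  obtain ⟨ρ1, hρ1⟩ : ∃ x, x = (ρ + ρ2) / 2 := ⟨_, rfl⟩
  obtain ⟨a1, ha1⟩ : ∃ x, x = (a + -1 / 16) / 2 := ⟨_, rfl⟩
  have r1 : ρ < ρ1 := by linarith
  have r2 : ρ1 < ρ2 := by linarith
  have r3 : ρ2 < 1 / 4 := by linarith
  have t1 : a1 < a := by linarith
  have t2 : -1 / 16 < a1 := by linarith
  obtain ⟨B, hB, HB⟩ := ih ρ2 a1 (by linarith) r3 t2 (by linarith)
  obtain ⟨M1, φ, hM1, hφ⟩ := exists_cut h0 r1
  obtain ⟨Q, hQ0, HQ⟩ := enI K B hB n h0 r1 r2 r3.le hM1 hφ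
  obtain ⟨KA, hKA⟩ : ∃ x : ℝ, x = Q * (1 + K) := ⟨_, rfl⟩
  obtain ⟨K1, hK1⟩ : ∃ x : ℝ, x = B + Q * (1 + K + B) := ⟨_, rfl⟩
  have hKA0 : 0 ≤ KA := by rw [hKA]; positivity
  have hK10 : 0 ≤ K1 := by rw [hK1]; positivity
  have haa : 0 < a - a1 := by linarith
  have ea : 0 ≤ Real.exp KA * (2 * K1 / (a - a1)) := by positivity
  refine ⟨B + Real.exp KA * (2 * K1 / (a - a1)), by positivity, fun M H v W G k hD => ?_⟩
  obtain ⟨hS, hNi, hNI⟩ := HB M H v W G k hD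
  obtain ⟨iG, hG0, hGK⟩ := hD.iG t2.le (by linarith : a1 < 0)
  have hv := fun (τ : ℝ) (hτ : τ ∈ H) i => hD.cv hτ i
  have hsub1 : Ioo a1 0 ⊆ Ioo (-1 : ℝ) 0 := sub16 t2.le
  have hvol : (volume : Measure ℝ).real (Ioo a1 0) ≤ 1 := by
    rw [measureReal_def, Real.volume_Ioo, ENNReal.toReal_ofReal (by linarith)]
    linarith
  have ic : ∀ c : ℝ, IntegrableOn (fun _ : ℝ => c) (Ioo a1 0) := fun c =>
    integrableOn_const measure_Ioo_lt_top.ne
  have hcI : ∀ c : ℝ, 0 ≤ c → ∫ _ in Ioo a1 0, c ≤ c := fun c hc => by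
    rw [setIntegral_const, smul_eq_mul]
    nlinarith [measureReal_nonneg (μ := (volume : Measure ℝ)) (s := Ioo a1 0)]
  have iY : IntegrableOn (fun t => YY n φ (v t)) (Ioo a1 0) := by
    refine int_le hD.openH hD.fullH hsub1 measurableSet_Ioo (ct_YY n hφ hD) hNi
      fun τ hτ hτH => ?_
    rw [abs_of_nonneg (YY_nonneg _ _ _)]
    exact YY_le_NT n hφ r2.le (hv τ hτH)
  have iA : IntegrableOn (fun t => Q * (1 + G t)) (Ioo a1 0) := ((ic 1).add iG).const_mul Q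
  have iR : IntegrableOn (fun t => Q * (1 + G t + NT n ρ2 (v t))) (Ioo a1 0) :=
    (((ic 1).add iG).add hNi).const_mul Q
  have nG : ∀ t ∈ H, a1 < t → 0 ≤ G t := fun t h1 h2 => (hD.sd t h1 (t2.trans h2)).Gn
  have iAY : IntegrableOn (fun t => Q * (1 + G t) * YY n φ (v t)) (Ioo a1 0) := by
    refine int_le hD.openH hD.fullH hsub1 measurableSet_Ioo
      ((continuousOn_const.mul (continuousOn_const.add hD.Gc)).mul (ct_YY n hφ hD))
      (iY.const_mul (Q * (1 + M))) fun τ hτ hτH => ?_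
    have h1 := nG τ hτH hτ.1
    have h2 := hD.GM τ hτH
    have h3 := YY_nonneg n φ (v τ)
    rw [abs_of_nonneg (by positivity)]
    apply mul_le_mul_of_nonneg_right _ h3
    exact mul_le_mul_of_nonneg_left (by linarith) hQ0
  obtain ⟨g1, g2, g3⟩ := wgron (a := a1) (a' := a) (KA := KA) (K1 := K1)
    (Y := fun t => YY n φ (v t)) (Z := fun t => YY (n + 1) φ (v t))
    (A := fun t => Q * (1 + G t)) (R := fun t => Q * (1 + G t + NT n ρ2 (v t)))
    hD.openH hD.fullH hD.subH (by linarith) t1 ha0 (fun t _ => YY_nonneg _ _ _)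
    (fun t _ => YY_nonneg _ _ _)
    (fun t h1 h2 => by
      have := nG t h1 h2
      positivity)
    (fun t h1 h2 => by
      have := nG t h1 h2
      have := NT_nonneg n ρ2 (v t)
      positivity) iY iA iR iAY
    (fun s hs t ht has hst => by
      exact HQ M H v W G k hD s hs t ht (t2.trans has) hst
        (fun i hi τ hτ h1 h2 => hS i hi τ hτ (has.trans h1))
        (hNi.mono_set (Ioo_subset_Ioo has.le (hD.subH ht).2.le)))
    (by
      rw [integral_const_mul, integral_add (ic 1) iG, hKA]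
      apply mul_le_mul_of_nonneg_left _ hQ0
      have := hcI 1 zero_le_one
      linarith)
    (by
      have i1 : IntegrableOn (fun t => 1 + G t) (Ioo a1 0) := (ic 1).add iG
      rw [integral_add iY iR, integral_const_mul, integral_add i1 hNi, integral_add (ic 1) iG,
        hK1]
      have h1 : ∫ t in Ioo a1 0, YY n φ (v t) ≤ B :=
        (int_mono hD.fullH hsub1 measurableSet_Ioo iY hNi fun τ _ hτ =>
          YY_le_NT n hφ r2.le (hv τ hτ)).trans hNI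
      have h2 := hcI 1 zero_le_one
      have h3 : (∫ _ in Ioo a1 0, (1 : ℝ)) + (∫ t in Ioo a1 0, G t)
          + ∫ t in Ioo a1 0, NT n ρ2 (v t) ≤ 1 + K + B := by linarith
      have h4 := mul_le_mul_of_nonneg_left h3 hQ0
      linarith) hKA0 hK10
  refine ⟨?_, ?_⟩
  · intro i hi t ht hat
    rcases Nat.lt_succ_iff_lt_or_eq.1 hi with h | h
    · have h1 := hS i h t ht (t1.trans hat)
      have h2 : NT i ρ (v t) ≤ NT i ρ2 (v t) := NT_mono i (r1.trans r2).le (hv t ht)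
      linarith
    · subst h
      have h1 := g1 t ht hat
      have h2 : NT i ρ (v t) ≤ YY i φ (v t) := NT_le_YY i hφ (hv t ht)
      linarith
  · have hi : IntegrableOn (fun t => NT (n + 1) ρ (v t)) (Ioo a 0) := by
      refine int_le hD.openH hD.fullH (sub16 ha.le) measurableSet_Ioo (ct_NT' (n + 1) ρ hD) g2
        fun τ hτ hτH => ?_
      rw [abs_of_nonneg (NT_nonneg _ _ _)]
      exact NT_le_YY (n + 1) hφ (hv τ hτH)
    refine ⟨hi, ?_⟩
    have h2 := int_mono hD.fullH (sub16 ha.le) measurableSet_Ioo hi g2 fun τ _ hτ =>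
      NT_le_YY (n + 1) hφ (hv τ hτ)
    linarith

theorem wlev (K : ℝ) (hK : 0 ≤ K) (n : ℕ) : WLev K n := by
  induction n with
  | zero => exact wlev0 K hK
  | succ n ih => exact wlev_succ K hK n ih

/-- Pointwise bounds for all derivatives of the vorticity. -/
theorem wlev_pt (K : ℝ) (hK : 0 ≤ K) (n : ℕ) : ∃ C : ℝ, 0 < C ∧
    ∀ (M : ℝ) (H : Set ℝ) (v W : ℝ → V → V) (G k : ℝ → ℝ), WK K M H v W G k →
      ∀ t ∈ H, -1 / 32 < t → ∀ x ∈ ball (0 : V) (1 / 16), ST n (v t) x ≤ C := by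
  obtain ⟨B, hB, HB⟩ := wlev K hK (n + 4) (1 / 8) (-1 / 32) (by norm_num) (by norm_num)
    (by norm_num) (by norm_num)
  obtain ⟨C, hC, HC⟩ := pointN (ρ' := 1 / 16) (ρ := 1 / 8) (by norm_num) (by norm_num)
    (by norm_num)
  refine ⟨C * (4 * B) + 1, by positivity, fun M H v W G k hD t ht ht32 x hx => ?_⟩
  obtain ⟨hS, -⟩ := HB M H v W G k hD
  have h1 : ST n (v t) x ≤ C * (NT n (1 / 8) (v t) + NT (n + 1) (1 / 8) (v t)
      + NT (n + 2) (1 / 8) (v t) + NT (n + 3) (1 / 8) (v t)) := by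
    have h2 : ST n (v t) x ≤ ∑ p : Fin 3 × Fin 3, C * (N n (1 / 8) (Om p.1 p.2 (v t))
        + N (n + 1) (1 / 8) (Om p.1 p.2 (v t)) + N (n + 2) (1 / 8) (Om p.1 p.2 (v t))
        + N (n + 3) (1 / 8) (Om p.1 p.2 (v t))) :=
      Finset.sum_le_sum fun p _ => HC n _ (om_sm (fun i => hD.cv ht i) p.1 p.2) x hx
    refine h2.trans (le_of_eq ?_)
    rw [← Finset.mul_sum, Finset.sum_add_distrib, Finset.sum_add_distrib, Finset.sum_add_distrib]
    rfl
  have a0 := hS n (by omega) t ht ht32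
  have a1 := hS (n + 1) (by omega) t ht ht32
  have a2 := hS (n + 2) (by omega) t ht ht32
  have a3 := hS (n + 3) (by omega) t ht ht32
  have h3 := mul_le_mul_of_nonneg_left (add_le_add (add_le_add (add_le_add a0 a1) a2) a3) hC.le
  linarith

/-- Pointwise bounds for all derivatives of `W`. -/
theorem wlev_W (K : ℝ) (hK : 0 ≤ K) (n : ℕ) : ∃ C : ℝ, 0 < C ∧
    ∀ (M : ℝ) (H : Set ℝ) (v W : ℝ → V → V) (G k : ℝ → ℝ), WK K M H v W G k →
      ∀ t ∈ H, -1 / 32 < t → ∀ x ∈ ball (0 : V) (1 / 16), SV n (W t) x ≤ C := by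
  obtain ⟨B, hB, HB⟩ := wlev K hK (n + 4) (1 / 8) (-1 / 32) (by norm_num) (by norm_num)
    (by norm_num) (by norm_num)
  obtain ⟨C, hC, HC⟩ := pointN (ρ' := 1 / 16) (ρ := 3 / 32) (by norm_num) (by norm_num)
    (by norm_num)
  have hW : ∀ k, ∃ D : ℝ, 0 < D ∧ (k ≤ n + 4 → ∀ (v W : V → V) (G : ℝ), SD K v W G →
      (∀ i < n + 4, NT i (1 / 8) v ≤ B) → NV k (3 / 32) W ≤ D) := by
    intro k
    by_cases hk : k ≤ n + 4
    · obtain ⟨D, hD, h⟩ := Wk K B hB k (n + 4) hk (ρ' := 3 / 32) (ρ := 1 / 8) (by norm_num)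
        (by norm_num) (by norm_num)
      exact ⟨D, hD, fun _ => h⟩
    · exact ⟨1, one_pos, fun h => absurd h hk⟩
  choose D hD HD using hW
  refine ⟨C * (D n + D (n + 1) + D (n + 2) + D (n + 3)), by
    have := hD n
    have := hD (n + 1)
    have := hD (n + 2)
    have := hD (n + 3)
    positivity, fun M H v W G k hDat t ht ht32 x hx => ?_⟩
  have hsd := hDat.sd t ht (by linarith)
  obtain ⟨hS, -⟩ := HB M H v W G k hDat
  have hS' : ∀ i < n + 4, NT i (1 / 8) (v t) ≤ B := fun i hi => hS i hi t ht ht32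
  have h1 : SV n (W t) x ≤ C * (NV n (3 / 32) (W t) + NV (n + 1) (3 / 32) (W t)
      + NV (n + 2) (3 / 32) (W t) + NV (n + 3) (3 / 32) (W t)) := by
    have h2 : SV n (W t) x ≤ ∑ i, C * (N n (3 / 32) (fun y => W t y i)
        + N (n + 1) (3 / 32) (fun y => W t y i) + N (n + 2) (3 / 32) (fun y => W t y i)
        + N (n + 3) (3 / 32) (fun y => W t y i)) :=
      Finset.sum_le_sum fun i _ => HC n _ (hsd.cW i) x hx
    refine h2.trans (le_of_eq ?_)
    rw [← Finset.mul_sum, Finset.sum_add_distrib, Finset.sum_add_distrib, Finset.sum_add_distrib]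
    rfl
  have a0 := HD n (by omega) _ _ _ hsd hS'
  have a1 := HD (n + 1) (by omega) _ _ _ hsd hS'
  have a2 := HD (n + 2) (by omega) _ _ _ hsd hS'
  have a3 := HD (n + 3) (by omega) _ _ _ hsd hS'
  exact h1.trans (mul_le_mul_of_nonneg_left (add_le_add (add_le_add (add_le_add a0 a1) a2) a3)
    hC.le)

end

end Pool.Agent.Y7.WD
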