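import Pool.Agent.Y7.WStm
import Pool.Agent.Y7.WLev
import Pool.Agent.TH305.DR.Loc

/-!
Bounds for the derivatives of weak local solutions (helper7).
-/

set_option autoImplicit false
set_option linter.unusedVariables false

open MeasureTheory Set Metric Filter Topology
open scoped ContDiff ENNReal

namespace Pool.Agent.Y7.WD

open H459R3.NS W221.NS Pool.Agent.TH305.DR Pool.Agent.Y8
open Pool.Agent.W583.MD (sm_pd cs_pd pd_mul' Z Z.add Z.sub Z.smul Z.sum int_cs Z_pd hcs)
open Pool.Agent.W639.MH (int_ball)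
open Pool.Agent.W22.ME.TD (pd_comm lap_smooth)

/-- The vorticity equation at a regular time. -/
lemma vort_eqH {H : Set ℝ} (hH : IsOpen H) (hsub : H ⊆ Ioo (-1) 0) {v : ℝ → V → V}
    {q : ℝ → V → ℝ}
    (hsv : ∀ i, ContDiffOn ℝ ∞ (fun z : ℝ × V => v z.1 z.2 i) (H ×ˢ univ))
    (hsq : ContDiffOn ℝ ∞ (fun z : ℝ × V => q z.1 z.2) (H ×ˢ univ))
    (hmo : ∀ t ∈ H, ∀ x i,
      deriv (fun s => v s x i) t + adv (v t) (fun y => v t y i) x
        = lap (fun y => v t y i) x - pd i (q t) x) {t : ℝ}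
    (ht : t ∈ H) (x : V) (i j : Fin 3) :
    deriv (fun s => Om i j (v s) x) t
      = lap (Om i j (v t)) x - pd i (bb (v t) j) x + pd j (bb (v t) i) x := by
  have hv : ∀ i, ContDiff ℝ ∞ (fun y => v t y i) := fun i => sl (f := fun t y => v t y i) (hsv i) ht
  have hqt : ContDiff ℝ ∞ (q t) := sl hsq ht
  set e : V → ℝ := fun y => ∑ m, v t y m * v t y m / 2 with he
  have hes : ContDiff ℝ ∞ e := ContDiff.sum fun m _ => ((hv m).mul (hv m)).div_const 2
  have hmom : ∀ j, (fun y => deriv (fun s => v s y j) t)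
      = fun y => lap (fun w => v t w j) y - (bb (v t) j y + pd j e y) - pd j (q t) y := by
    intro j
    funext y
    have h2 := hmo t ht y j
    rw [adv_eq hv j] at h2
    linarith
  have hD : ∀ i j, pd i (fun y => deriv (fun s => v s y j) t) x
      = lap (pd i (fun w => v t w j)) x - (pd i (bb (v t) j) x + pd i (pd j e) x)
        - pd i (pd j (q t)) x := by
    intro i j
    rw [hmom j, pd_sub' ((lap_smooth (hv j)).sub ((bb_sm hv j).add (sm_pd hes j))) (sm_pd hqt j),
      pd_sub' (lap_smooth (hv j)) ((bb_sm hv j).add (sm_pd hes j)),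
      pd_add' (bb_sm hv j) (sm_pd hes j), lap_pd_comm (hv j)]
  have hlap : lap (Om i j (v t)) x
      = lap (pd i (fun w => v t w j)) x - lap (pd j (fun w => v t w i)) x := by
    unfold lap
    rw [← Finset.sum_sub_distrib]
    refine Finset.sum_congr rfl fun k _ => ?_
    have e1 : Om i j (v t) = fun y => pd i (fun w => v t w j) y - pd j (fun w => v t w i) y := rfl
    rw [e1, pd_sub' (sm_pd (hv j) i) (sm_pd (hv i) j),
      pd_sub' (sm_pd (sm_pd (hv j) i) k) (sm_pd (sm_pd (hv i) j) k)]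
  have h3 : deriv (fun s => Om i j (v s) x) t
      = pd i (fun y => deriv (fun s => v s y j) t) x
        - pd j (fun y => deriv (fun s => v s y i) t) x := by
    have a1 := dt_hd' (F := fun s => pd i (fun y => v s y j)) hH
      (pd_joint (F := fun s y => v s y j) hH (hsv j) i) ht x
    have a2 := dt_hd' (F := fun s => pd j (fun y => v s y i)) hH
      (pd_joint (F := fun s y => v s y i) hH (hsv i) j) ht x
    have a3 := (a1.sub a2).deriv
    have b1 := comm_H (w := fun s y => v s y j) hH hsub (hsv j) ht x i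
    have b2 := comm_H (w := fun s y => v s y i) hH hsub (hsv i) ht x j
    rw [b1, b2] at a3
    exact a3
  rw [h3, hD, hD, hlap, pd_comm hes i j, pd_comm hqt i j]
  ring

/-- The mollified velocity is bounded and has an integrable modulus of continuity. -/
lemma md_WL2 {H : Set ℝ} {v : ℝ → V → V} {q : ℝ → V → ℝ} {k : ℝ → ℝ} (h : WL2 H v q k) {ε : ℝ}
    {κ : V → ℝ} (hε : ε ≤ 1) (hκ : Kn ε κ) (i : Fin 3) :
    MD H k (fun t => WD.cv κ (fun y => v t y i)) := by
  have b0 : ∃ B : ℝ, ∀ x, |κ x| ≤ B := by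
    obtain ⟨B, hB⟩ := hκ.cs.exists_bound_of_continuous hκ.sm.continuous
    exact ⟨B, hB⟩
  have b1 : ∀ i : Fin 3, ∃ B : ℝ, ∀ x, |pd i κ x| ≤ B := fun i => by
    obtain ⟨B, hB⟩ := (hκ.pd i).cs.exists_bound_of_continuous (hκ.pd i).sm.continuous
    exact ⟨B, hB⟩
  have b2 : ∀ i j : Fin 3, ∃ B : ℝ, ∀ x, |pd i (pd j κ) x| ≤ B := fun i j => by
    obtain ⟨B, hB⟩ := ((hκ.pd j).pd i).cs.exists_bound_of_continuous ((hκ.pd j).pd i).sm.continuous
    exact ⟨B, hB⟩
  obtain ⟨B0, hB0⟩ := b0
  choose B1 hB1 using b1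
  choose B2' hB2 using b2
  have p0 : 0 ≤ B0 := (abs_nonneg _).trans (hB0 0)
  have p1 : ∀ i, 0 ≤ B1 i := fun i => (abs_nonneg _).trans (hB1 i 0)
  have p2 : ∀ i j, 0 ≤ B2' i j := fun i j => (abs_nonneg _).trans (hB2 i j 0)
  obtain ⟨N, hN⟩ : ∃ N : ℝ, N = B0 + (∑ i, B1 i) + ∑ i, ∑ j, B2' i j := ⟨_, rfl⟩
  have q1 : 0 ≤ ∑ i, B1 i := Finset.sum_nonneg fun i _ => p1 i
  have q2 : 0 ≤ ∑ i, ∑ j, B2' i j := Finset.sum_nonneg fun i _ => Finset.sum_nonneg fun j _ => p2 i j
  have hN0 : 0 ≤ N := by rw [hN]; positivity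
  have n0 : ∀ x, |κ x| ≤ N := fun x => (hB0 x).trans (by rw [hN]; linarith)
  have n1 : ∀ i x, |pd i κ x| ≤ N := fun i x => (hB1 i x).trans (by
    have := Finset.single_le_sum (f := B1) (fun i _ => p1 i) (Finset.mem_univ i)
    rw [hN]; linarith)
  have n2 : ∀ i j x, |pd i (pd j κ) x| ≤ N := fun i j x => (hB2 i j x).trans (by
    have h1 := Finset.single_le_sum (f := fun i => ∑ j, B2' i j)
      (fun i _ => Finset.sum_nonneg fun j _ => p2 i j) (Finset.mem_univ i)
    have h2 := Finset.single_le_sum (f := B2' i) (fun j _ => p2 i j) (Finset.mem_univ j)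
    rw [hN]; linarith)
  obtain ⟨B, hB⟩ := h.bdd
  have hvol : 0 ≤ (volume : Measure V).real (ball (0 : V) 8) := measureReal_nonneg
  have hBp : ∀ t ∈ H, 0 ≤ B := fun t ht =>
    (integral_nonneg fun x => Finset.sum_nonneg fun i _ => sq_nonneg _).trans (hB t ht)
  refine ⟨N * ((volume : Measure V).real (ball (0 : V) 8) + |B|) + N, by positivity,
    fun x hx => ⟨fun t ht => ?_, fun s hs t ht hst => ?_⟩⟩
  · have hvt : ContDiff ℝ ∞ (fun y => v t y i) :=
      sl (f := fun t y => v t y i) (comp_joint h.smooth_v i) ht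
    have hvall : ∀ i, ContDiff ℝ ∞ (fun y => v t y i) := fun i =>
      sl (f := fun t y => v t y i) (comp_joint h.smooth_v i) ht
    have hout : ∀ y ∉ ball (0 : V) 8, κ (x - y) * v t y i = 0 := by
      intro y hy
      rw [refl_out hκ x y, zero_mul]
      intro h'
      apply hy
      rw [mem_ball_zero_iff] at hx ⊢
      rw [mem_ball, dist_eq_norm] at h'
      have := norm_add_le (y - x) x
      rw [sub_add_cancel] at this
      linarith
    have e1 : WD.cv κ (fun y => v t y i) x = ∫ y in ball (0 : V) 8, κ (x - y) * v t y i :=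
      (setIntegral_eq_integral_of_forall_compl_eq_zero hout).symm
    have hns : Continuous (fun y => nsq (v t) y) := by
      unfold nsq
      exact continuous_finsetSum _ fun i _ => (hvall i).continuous.pow 2
    have i1 : IntegrableOn (fun _ : V => (1 : ℝ)) (ball (0 : V) 8) :=
      integrableOn_const measure_ball_lt_top.ne
    have i2 : IntegrableOn (fun y => nsq (v t) y) (ball (0 : V) 8) := int_ball hns 0 8
    have i3 : IntegrableOn (fun y => κ (x - y) * v t y i) (ball (0 : V) 8) :=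
      (cv_int hκ hvt.continuous x).integrableOn
    have h1 : |∫ y in ball (0 : V) 8, κ (x - y) * v t y i|
        ≤ ∫ y in ball (0 : V) 8, N * (1 + nsq (v t) y) := by
      refine (abs_integral_le_integral_abs).trans (integral_mono i3.abs ((i1.add i2).const_mul N)
        fun y => ?_)
      show |κ (x - y) * v t y i| ≤ N * (1 + nsq (v t) y)
      rw [abs_mul]
      have a1 : v t y i ^ 2 ≤ nsq (v t) y :=
        Finset.single_le_sum (f := fun i => v t y i ^ 2) (fun i _ => sq_nonneg _)
          (Finset.mem_univ i)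
      have a2 : |v t y i| ≤ 1 + nsq (v t) y := by
        have : |v t y i| ^ 2 = v t y i ^ 2 := sq_abs _
        nlinarith [sq_nonneg (|v t y i| - 1), abs_nonneg (v t y i)]
      exact mul_le_mul (n0 _) a2 (abs_nonneg _) hN0
    rw [integral_const_mul, integral_add i1 i2] at h1
    have h2 : ∫ y in ball (0 : V) 8, nsq (v t) y ≤ B := hB t ht
    have h3 : ∫ _ in ball (0 : V) 8, (1 : ℝ) = (volume : Measure V).real (ball (0 : V) 8) := by
      rw [setIntegral_const, smul_eq_mul, mul_one]
    rw [h3] at h1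
    show |WD.cv κ (fun y => v t y i) x| ≤ _
    rw [e1]
    refine h1.trans ?_
    have h4 : N * ((volume : Measure V).real (ball (0 : V) 8) + ∫ y in ball (0 : V) 8, nsq (v t) y)
        ≤ N * ((volume : Measure V).real (ball (0 : V) 8) + |B|) :=
      mul_le_mul_of_nonneg_left (by linarith [le_abs_self B]) hN0
    linarith
  · have hψ0 : ∀ y ∉ ball (0 : V) 8, κ (x - y) = 0 := by
      intro y hy
      apply refl_out hκ x y
      intro h'
      apply hy
      rw [mem_ball_zero_iff] at hx ⊢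
      rw [mem_ball, dist_eq_norm] at h'
      have := norm_add_le (y - x) x
      rw [sub_add_cancel] at this
      linarith
    have hp1 : ∀ l : Fin 3, pd l (fun y => κ (x - y)) = fun y => -pd l κ (x - y) := fun l =>
      funext fun y => pd_refl hκ.sm x l y
    have hp2 : ∀ l m : Fin 3, pd l (pd m (fun y => κ (x - y))) = fun y => pd l (pd m κ) (x - y) := by
      intro l m
      rw [hp1 m, pd_neg']
      funext y
      have := pd_refl (sm_pd hκ.sm m) x l y
      simp only [this, neg_neg]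
    have h1 := h.mod N (fun y => κ (x - y)) hN0 (refl_sm hκ.sm x) hψ0 (fun y => n0 _)
      (fun y l => by
        rw [hp1 l, abs_neg]
        exact n1 l _)
      (fun y l m => by
        rw [hp2 l m]
        exact n2 l m _) s hs t ht hst i
    have e : ∀ t, WD.cv κ (fun y => v t y i) x = ∫ z, v t z i * κ (x - z) := by
      intro t
      unfold WD.cv
      refine integral_congr_ae (Eventually.of_forall fun y => ?_)
      show κ (x - y) * v t y i = v t y i * κ (x - y)
      ring
    show |WD.cv κ (fun y => v t y i) x - WD.cv κ (fun y => v s y i) x| ≤ _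
    rw [e t, e s]
    refine h1.trans ?_
    apply mul_le_mul_of_nonneg_right _ (integral_nonneg fun τ => h.knn τ)
    have : 0 ≤ N * ((volume : Measure V).real (ball (0 : V) 8) + |B|) := by positivity
    linarith

end Pool.Agent.Y7.WD

namespace Pool.Agent.Y7

open H459R3.NS W221.NS Pool.Agent.TH305.DR Pool.Agent.Y8 WD
open Pool.Agent.W583.MD (sm_pd cs_pd pd_mul' Z Z.add Z.sub Z.smul Z.sum int_cs Z_pd hcs)
open Pool.Agent.W639.MH (int_ball)

theorem t_WDER : S_WDER := by
  obtain ⟨g, C0, hC0, hg⟩ := W221.NS.B.p_green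
  obtain ⟨C', hC', H⟩ := Pool.Agent.Y8.B.p_whyp g C0 hg
  obtain ⟨CD, hCD, Dec⟩ := W221.NS.B.p_dec g C0 hg
  obtain ⟨ε, CL, hε, hCL, L⟩ := Pool.Agent.Y8.B.p_wloc2
  obtain ⟨K, hK⟩ : ∃ x : ℝ, x = CL + ε + 4 * (ε / C') := ⟨_, rfl⟩
  have hεC : 0 < ε / C' := by positivity
  have hK0 : 0 ≤ K := by rw [hK]; positivity
  have hpt := fun n => wlev_pt K hK0 n
  choose C hC HC using hpt
  have hptW := fun n => wlev_W K hK0 n
  choose CW hCW HCW using hptW
  have hha : ∀ n, ∃ C : ℝ, 0 < C ∧ ∀ f : V → ℝ, ContDiff ℝ ∞ f →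
      (∀ x ∈ ball (0 : V) (1 / 4), lap f x = 0) →
      ∀ x ∈ ball (0 : V) (1 / 16), SS n f x ≤ C * N 0 (1 / 4) f := fun n =>
    harm_pt n (by norm_num) (by norm_num) (by norm_num)
  choose CH hCH HCH using hha
  refine ⟨ε / C', hεC, fun n => C n + 2 * CW n + 48 * CH n * CD ^ 2, fun n => by
    have := hC n
    have := hCW n
    have := hCH n
    positivity, fun Hs v q k hL hint hsmall n t ht ht32 x hx => ?_⟩
  have hle : C' * ∫ t in Ioo (-1) 0, B2 0 8 (v t) ≤ ε := by
    calc C' * ∫ t in Ioo (-1) 0, B2 0 8 (v t) ≤ C' * (ε / C') := by gcongr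
      _ = ε := by field_simp
  obtain ⟨F, hH⟩ := H Hs v q k hL ε hint hle
  have hW := L Hs v _ F k _ hH
  obtain ⟨M0, hM0⟩ := hH.fld.bd
  have hM00 : 0 ≤ M0 := (norm_nonneg _).trans (hM0 0 ⟨by norm_num, le_rfl⟩ 0)
  have hsv : ∀ i, ContDiffOn ℝ ∞ (fun z : ℝ × V => v z.1 z.2 i) (Hs ×ˢ univ) := fun i =>
    comp_joint hL.smooth_v i
  have hv : ∀ τ ∈ Hs, ∀ i, ContDiff ℝ ∞ (fun y => v τ y i) := fun τ hτ i =>
    sl (f := fun t y => v t y i) (hsv i) hτ
  have hW' : ∀ τ ∈ Hs, ∀ i, ContDiff ℝ ∞ (fun y => TT g (v τ) y i) := fun τ hτ i =>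
    sl (f := fun t y => TT g (v t) y i)
      (comp_joint (u := fun t => TT g (v t)) hH.smooth_W i) hτ
  have hB0 : ∀ t, 0 ≤ B2 0 8 (v t) := fun t => integral_nonneg fun x =>
    Finset.sum_nonneg fun i _ => Finset.sum_nonneg fun j _ => sq_nonneg _
  have hBc : ContinuousOn (fun t => B2 0 8 (v t)) Hs :=
    pint_cont (F := fun t x => gsq (v t) x) hL.openH (gsq_joint hL.openH hL.smooth_v).continuousOn
      0 8
  obtain ⟨G, hG⟩ : ∃ G : ℝ → ℝ, G = fun t => min (C' * B2 0 8 (v t)) (M0 ^ 2) := ⟨_, rfl⟩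
  have hG0 : ∀ t, 0 ≤ G t := fun t => by
    rw [hG]
    exact le_min (by
      have := hB0 t
      positivity) (sq_nonneg _)
  have hG1 : ∀ t, G t ≤ C' * B2 0 8 (v t) := fun t => by
    rw [hG]
    exact min_le_left _ _
  have hsub16 : Ioo (-1 / 16 : ℝ) 0 ⊆ Ioo (-1) 0 := Ioo_subset_Ioo_left (by norm_num)
  have hint16 : IntegrableOn (fun t => B2 0 8 (v t)) (Ioo (-1 / 16) 0) := hint.mono_set hsub16
  have hI16 : ∫ t in Ioo (-1 / 16) 0, B2 0 8 (v t) ≤ ε / C' :=
    (setIntegral_mono_set hint (Eventually.of_forall fun t => hB0 t)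
      hsub16.eventuallyLE).trans hsmall
  have hGc : ContinuousOn G Hs := by
    rw [hG]
    exact (continuousOn_const.mul hBc).inf continuousOn_const
  have hlapH : ∀ t ∈ Hs, ∀ x ∈ ball (0 : V) (1 / 4), ∀ i,
      lap (fun y => v t y i - TT g (v t) y i) x = 0 := by
    intro t ht x hx i
    obtain ⟨P, hP⟩ := hH.slice t ht
    have h1 := hP.lapD x (ball_subset_ball (by norm_num) hx) i
    have b3 : lap (fun y => v t y i - TT g (v t) y i) x
        = lap (fun y => v t y i) x - lap (fun y => TT g (v t) y i) x := by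
      unfold lap
      rw [← Finset.sum_sub_distrib]
      refine Finset.sum_congr rfl fun j _ => ?_
      rw [pd_sub' (hv t ht i) (hW' t ht i), pd_sub' (sm_pd (hv t ht i) j) (sm_pd (hW' t ht i) j)]
    rw [b3, h1, sub_self]
  have hWK : WK K (M0 ^ 2) Hs v (fun t => TT g (v t)) G k := by
    refine ⟨hL.openH, hL.subH, hL.fullH, hsv, ?_, ?_, hGc, ?_, ?_, ?_, ?_, hL.kint, hL.knn, ?_⟩
    · intro t ht x i j
      exact vort_eqH hL.openH hL.subH hsv hL.smooth_q hL.momentum ht x i j
    · intro t ht ht16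
      refine ⟨hv t ht, hW' t ht, ?_, hlapH t ht, ?_, ?_, hG0 t⟩
      · intro x hx i
        exact lap_div (hv t ht) (fun x _ => hL.divfree t ht x)
          (ball_subset_ball (by norm_num) hx) i
      · intro x hx i
        have := hW t ht ht16 x hx i
        rw [hK]
        linarith
      · intro x hx i
        obtain ⟨P, hP⟩ := hH.slice t ht
        have hx1 : x ∈ ball (0 : V) 1 := ball_subset_ball (by norm_num) hx
        have h1 := hP.dD x hx1 i
        have h2 : |v t x i - TT g (v t) x i| ≤ M0 := by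
          rw [← hH.eqF t ht x hx1 i]
          have h3 := hM0 t ⟨(hL.subH ht).1.le, (hL.subH ht).2.le⟩ x
          exact (norm_le_pi_norm (F t x) i).trans h3
        apply Real.le_sqrt_of_sq_le
        rw [hG]
        apply le_min
        · have h4 : 0 ≤ C' * B2 0 8 (v t) := by
            have := hB0 t
            positivity
          calc |v t x i - TT g (v t) x i| ^ 2 ≤ √(C' * B2 0 8 (v t)) ^ 2 :=
                pow_le_pow_left₀ (abs_nonneg _) h1 2
            _ = C' * B2 0 8 (v t) := Real.sq_sqrt h4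
        · exact pow_le_pow_left₀ (abs_nonneg _) h2 2
    · intro t _
      rw [hG]
      exact min_le_right _ _
    · have hiG : IntegrableOn G (Ioo (-1 / 16) 0) :=
        int_le hL.openH hL.fullH hsub16 measurableSet_Ioo hGc (hint16.const_mul C')
          fun τ _ _ => by
            rw [abs_of_nonneg (hG0 τ)]
            exact hG1 τ
      refine (integral_mono hiG (hint16.const_mul C') fun τ => hG1 τ).trans ?_
      rw [integral_const_mul, hK]
      have h5 : C' * ∫ t in Ioo (-1 / 16) 0, B2 0 8 (v t) ≤ C' * (ε / C') := by gcongr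
      have h6 : C' * (ε / C') = ε := by field_simp
      linarith
    · refine int_le hL.openH hL.fullH hsub16 measurableSet_Ioo ?_ (hint16.const_mul 4)
        fun τ _ hτ => ?_
      · exact continuousOn_finsetSum _ fun p _ =>
          ct_N' (w := fun t => Om p.1 p.2 (v t)) hL.openH 0 (1 / 4)
            (om_joint hL.openH hsv p.1 p.2)
      · rw [abs_of_nonneg (NT_nonneg _ _ _)]
        exact NT0_le (hv τ hτ)
    · have hiN : IntegrableOn (fun t => NT 0 (1 / 4) (v t)) (Ioo (-1 / 16) 0) := by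
        refine int_le hL.openH hL.fullH hsub16 measurableSet_Ioo ?_ (hint16.const_mul 4)
          fun τ _ hτ => ?_
        · exact continuousOn_finsetSum _ fun p _ =>
            ct_N' (w := fun t => Om p.1 p.2 (v t)) hL.openH 0 (1 / 4)
              (om_joint hL.openH hsv p.1 p.2)
        · rw [abs_of_nonneg (NT_nonneg _ _ _)]
          exact NT0_le (hv τ hτ)
      refine (int_mono hL.fullH hsub16 measurableSet_Ioo hiN (hint16.const_mul 4)
        fun τ _ hτ => NT0_le (hv τ hτ)).trans ?_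
      rw [integral_const_mul, hK]
      linarith
    · intro ε' κ hε' hκ i
      exact md_WL2 hL hε' hκ i
  have ht16 : -1 / 16 < t := by linarith
  have hA0 : 0 ≤ A2 0 4 (v t) := integral_nonneg fun x => Finset.sum_nonneg fun i _ => sq_nonneg _
  have p1 := hC n
  have p2 := hCW n
  have p3 := hCH n
  refine ⟨?_, ?_⟩
  · have h1 := HC n _ Hs v _ _ _ hWK t ht ht32 x hx
    have h2 : 0 ≤ 48 * CH n * CD ^ 2 := by positivity
    linarith
  · have h1 := WD.SV_split n (hWK.sd t ht ht16) x
    have h2 := HCW n _ Hs v _ _ _ hWK t ht ht32 x hx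
    have h3 : SV n (fun y i => v t y i - TT g (v t) y i) x ≤ 24 * CH n * CD ^ 2 * A2 0 4 (v t) := by
      have h4 : ∀ i, SS n (fun y => v t y i - TT g (v t) y i) x
          ≤ CH n * (8 * (CD ^ 2 * A2 0 4 (v t))) := by
        intro i
        have hs : ContDiff ℝ ∞ (fun y => v t y i - TT g (v t) y i) :=
          (hv t ht i).sub (hW' t ht i)
        refine (HCH n _ hs (fun x hx => hlapH t ht x hx i) x hx).trans ?_
        apply mul_le_mul_of_nonneg_left _ p3.le
        apply N0_le (by norm_num) (by positivity) hs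
        intro y hy
        have h5 := ((Dec (v t) (contDiff_pi.2 (hv t ht)) (fun x _ => hL.divfree t ht x)).2.2.2 y
          (ball_subset_ball (by norm_num) hy) i).1
        have h6 : CD ^ 2 * A2 0 4 (v t) = (CD * √(A2 0 4 (v t))) ^ 2 := by
          rw [mul_pow, Real.sq_sqrt hA0]
        rw [h6]
        exact sq_le_sq' (by linarith [(abs_le.1 h5).1]) (abs_le.1 h5).2
      have h5 : SV n (fun y i => v t y i - TT g (v t) y i) x
          ≤ ∑ _i : Fin 3, CH n * (8 * (CD ^ 2 * A2 0 4 (v t))) :=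
        Finset.sum_le_sum fun i _ => h4 i
      simp only [Finset.sum_const, Finset.card_univ, Fintype.card_fin] at h5
      refine h5.trans (le_of_eq ?_)
      norm_num
      ring
    have h4 : 0 ≤ C n * (1 + A2 0 4 (v t)) := by positivity
    have h5 : 0 ≤ 2 * CW n * A2 0 4 (v t) := by positivity
    have h6 : 0 ≤ 48 * CH n * CD ^ 2 := by positivity
    have h7 : SV n (v t) x ≤ 2 * CW n + 2 * (24 * CH n * CD ^ 2 * A2 0 4 (v t)) := by linarith
    refine h7.trans ?_
    nlinarith

end Pool.Agent.Y7
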