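import Pool.Agent.Y7.WSing
import Pool.Agent.Y7.WFin3

/-!
The particle paths of suitable weak periodic solutions: the statement at viscosity one
(helper7, helper8).
-/

set_option autoImplicit false
set_option linter.unusedVariables false

open MeasureTheory Set Metric Filter Topology
open scoped ContDiff ENNReal NNReal

namespace Pool.Agent.Y7

open H459R3.NS W221.NS Pool.Agent.TH305.LW Pool.Agent.TH305.DR Pool.Agent.TH305.LG
open Pool.Agent.Y8

/-- A path of class `C¹` which follows the velocity at the times in `G`. -/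
def PathW (T : ℝ) (G : Set ℝ) (u : ℝ → V → V) (ξ : ℝ → V) : Prop :=
  ∃ ξ' : ℝ → V, ContinuousOn ξ' (Ioo 0 T) ∧ (∀ t ∈ Ioo 0 T, HasDerivAt ξ (ξ' t) t) ∧
    ∀ t ∈ G, ξ' t = u t (ξ t)

/-- The particle paths and the regularity scale of the vorticity along them, viscosity one. -/
def S_WLAG : Prop := ∃ (C : ℝ) (K : ℕ → ℝ), 0 < C ∧ (∀ n, 0 < K n) ∧
  ∀ (T E D : ℝ) (G : Set ℝ) (u : ℝ → V → V) (p : ℝ → V → ℝ), Turb 1 T E D G u p →
    ∀ t₀ ∈ Ioo 0 T, ∃ (X : ℝ → V → V) (W : V → ℝ≥0∞), (∀ a, X t₀ a = a) ∧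
      (∀ t ∈ Ioo 0 T, Measurable (X t) ∧ Measure.map (X t) volume = volume ∧
        ∀ (a : V) (n : K3), X t (a - iv n) = X t a - iv n) ∧
      (∀ᵐ a, PathW T G u (fun t => X t a) ∧
        ∀ ξ : ℝ → V, PathW T G u ξ → ξ t₀ = a → ∀ t ∈ Ioo 0 T, ξ t = X t a) ∧
      Measurable W ∧
      ∫⁻ a in cell, W a ≤ ENNReal.ofReal C * ∫⁻ t in Ioo 0 T, ENNReal.ofReal (enstrophy (u t)) ∧
      ∀ᵐ a, ∀ t ∈ G, RegW K 1 (u t) (X t a) ≤ W a + ENNReal.ofReal (C * (1 + 1 / t))

/-- The particles which come close to the singular set. -/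
lemma sing_meas {T E D : ℝ} {G : Set ℝ} {u : ℝ → V → V} {p : ℝ → V → ℝ}
    (hN : Turb 1 T E D G u p) {C : ℝ} {K : ℕ → ℝ} (hC : 0 < C) {X : ℝ → V → V} {W : V → ℝ≥0∞}
    (hWm : Measurable W) {Q : ℝ≥0∞} (hW : ∫⁻ a in cell, W a ≤ Q)
    (hXc : ∀ᵐ a, ContinuousOn (fun t => X t a) (Ioo 0 T))
    (hR : ∀ᵐ a, ∀ t ∈ G, RegW K 1 (u t) (X t a) ≤ W a + ENNReal.ofReal (C * (1 + 1 / t)))
    {t₁ r : ℝ} (ht₁ : 0 < t₁) (hr : 0 < r) :
    volume {a ∈ cell | ∃ t ∈ Ioo t₁ T, ∃ x, SingPt G u t x ∧ ‖X t a - x‖ < r}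
      ≤ ENNReal.ofReal (16 * r ^ 2) * (Q + ENNReal.ofReal (C * (1 + 1 / t₁)) + 1) := by
  have hcell : volume (cell : Set V) = 1 := by
    have h1 := cube_eq (fun _ => 1)
    rw [lintegral_one, lintegral_one, Measure.restrict_apply_univ, Measure.restrict_apply_univ,
      cube_vol] at h1
    exact h1.symm
  rcases lt_or_ge (1 / 4) r with h4 | h4
  · calc volume {a ∈ cell | ∃ t ∈ Ioo t₁ T, ∃ x, SingPt G u t x ∧ ‖X t a - x‖ < r}
        ≤ volume (cell : Set V) := measure_mono fun a ha => ha.1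
      _ = 1 := hcell
      _ ≤ ENNReal.ofReal (16 * r ^ 2) * 1 := by
          rw [mul_one, ← ENNReal.ofReal_one]
          apply ENNReal.ofReal_le_ofReal
          nlinarith
      _ ≤ _ := by
          gcongr
          exact le_add_self
  obtain ⟨θ, hθ⟩ : ∃ θ, θ = ENNReal.ofReal (C * (1 + 1 / t₁)) := ⟨_, rfl⟩
  rw [← hθ]
  have h16 : 0 < 16 * r ^ 2 := by positivity
  obtain ⟨R, hRd⟩ : ∃ R, R = ENNReal.ofReal (1 / (16 * r ^ 2)) := ⟨_, rfl⟩
  have hR0 : R ≠ 0 := by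
    rw [hRd]
    exact ofR_ne (by positivity)
  -- the particles which come close
  have hae : ∀ᵐ a, a ∈ {a ∈ cell | ∃ t ∈ Ioo t₁ T, ∃ x, SingPt G u t x ∧ ‖X t a - x‖ < r} →
      a ∈ {a | R ≤ cell.indicator (fun a => W a + θ) a} := by
    filter_upwards [hXc, hR] with a hc hRa ha
    obtain ⟨hac, t, ht, x, hS, hx⟩ := ha
    show R ≤ cell.indicator (fun a => W a + θ) a
    rw [indicator_of_mem hac]
    by_contra hlt
    rw [not_le] at hlt
    have htT : t ∈ Ioo 0 T := ⟨ht₁.trans ht.1, ht.2⟩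
    refine sing_tube hN (ξ := fun t => X t a) (t := t) (ρ := 4 * r)
      (M := fun n => K n / (4 * r) ^ (2 * n + 4)) (hc.continuousAt (isOpen_Ioo.mem_nhds htT))
      (by positivity) (by linarith) ?_ (x := x) (by linarith) hS
    filter_upwards [isOpen_Ioo.mem_nhds ht] with s hs hsG n y hy
    have h1 := hRa s hsG
    have hs0 : 0 < s := ht₁.trans hs.1
    have h2 : ENNReal.ofReal (C * (1 + 1 / s)) ≤ θ := by
      rw [hθ]
      apply ENNReal.ofReal_le_ofReal
      have := hs.1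
      gcongr
    have h3 : RegW K 1 (u s) (X s a) < R := (h1.trans (by gcongr)).trans_lt hlt
    unfold RegW at h3
    rw [iInf_lt_iff] at h3
    obtain ⟨ρ, h3⟩ := h3
    rw [iInf_lt_iff] at h3
    obtain ⟨hA, h3⟩ := h3
    have hρ := hA.1
    rw [hRd] at h3
    have h5 : 1 / ρ ^ 2 < 1 / (16 * r ^ 2) := (ENNReal.ofReal_lt_ofReal_iff (by positivity)).1 h3
    rw [one_div_lt_one_div (by positivity) h16] at h5
    have h6 : 4 * r < ρ := by
      by_contra hcon
      rw [not_lt] at hcon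
      nlinarith
    have h7 := hA.2 y (ball_subset_ball h6.le hy) n
    rw [one_pow, mul_one] at h7
    rw [le_div_iff₀ (by positivity), mul_comm]
    refine le_trans ?_ h7
    apply mul_le_mul_of_nonneg_right _ (ST_nonneg _ _ _)
    exact pow_le_pow_left₀ (by positivity) h6.le _
  have hm : Measurable (cell.indicator fun a => W a + θ) :=
    (hWm.add_const θ).indicator meas_cell
  calc volume {a ∈ cell | ∃ t ∈ Ioo t₁ T, ∃ x, SingPt G u t x ∧ ‖X t a - x‖ < r}
      ≤ volume {a | R ≤ cell.indicator (fun a => W a + θ) a} := measure_mono_ae hae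
    _ ≤ (∫⁻ a, cell.indicator (fun a => W a + θ) a) / R :=
        meas_ge_le_lintegral_div hm.aemeasurable hR0 (by rw [hRd]; exact ENNReal.ofReal_ne_top)
    _ = ENNReal.ofReal (16 * r ^ 2) * ∫⁻ a in cell, (W a + θ) := by
        rw [lintegral_indicator meas_cell, div_eq_mul_inv, mul_comm, hRd,
          ← ENNReal.ofReal_inv_of_pos (by positivity), one_div, inv_inv]
    _ = ENNReal.ofReal (16 * r ^ 2) * ((∫⁻ a in cell, W a) + θ) := by
        rw [lintegral_add_right _ measurable_const, lintegral_const, Measure.restrict_apply_univ,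
          hcell, mul_one]
    _ ≤ ENNReal.ofReal (16 * r ^ 2) * (Q + θ + 1) :=
        mul_le_mul_right ((add_le_add_left hW θ).trans le_self_add) _

end Pool.Agent.Y7
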