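import Pool.Agent.TH305.DR.Dat

/-!
The norm of the iterated derivative and the sum of squares of the partial derivatives (helper7).
-/

set_option autoImplicit false
set_option linter.unusedVariables false

open MeasureTheory Set Metric Filter Topology
open scoped ContDiff ENNReal NNReal

namespace Pool.Agent.Y7

open H459R3.NS W221.NS Pool.Agent.TH305.DR
open Pool.Agent.W583.MD (sm_pd)

lemma sum3_sq (a : Fin 3 → ℝ) : (∑ i, a i) ^ 2 ≤ 3 * ∑ i, a i ^ 2 := by
  have h := sq_sum_le_card_mul_sum_sq (s := (Finset.univ : Finset (Fin 3))) (f := a)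
  simpa using h

lemma fd_sum {f : V → ℝ} (hf : ContDiff ℝ ∞ f) : fderiv ℝ f = fun y => ∑ j : Fin 3,
    ((ContinuousLinearMap.toSpanSingleton ℝ
      (ContinuousLinearMap.proj (R := ℝ) (φ := fun _ : Fin 3 => ℝ) j)) ∘ (pd j f)) y := by
  funext y
  ext w
  have hw : w = ∑ j, w j • (Pi.single j (1 : ℝ) : V) := by
    ext k
    simp [Finset.sum_apply, Pi.single_apply]
  conv_lhs => rw [hw]
  rw [map_sum, ContinuousLinearMap.sum_apply]
  refine Finset.sum_congr rfl fun j _ => ?_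
  rw [map_smul]
  simp only [Function.comp_apply, ContinuousLinearMap.toSpanSingleton_apply,
    ContinuousLinearMap.smul_apply, ContinuousLinearMap.proj_apply, smul_eq_mul]
  unfold pd
  ring

lemma it_SS (n : ℕ) : ∀ f : V → ℝ, ContDiff ℝ ∞ f → ∀ x : V,
    ‖iteratedFDeriv ℝ n f x‖ ^ 2 ≤ 3 ^ n * SS n f x := by
  induction n with
  | zero =>
    intro f hf x
    rw [norm_iteratedFDeriv_zero, SS_zero, Real.norm_eq_abs, sq_abs, pow_zero, one_mul]
  | succ n ih =>
    intro f hf x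
    have hpd : ∀ j, ContDiff ℝ ∞ (pd j f) := fun j => sm_pd hf j
    rw [← norm_iteratedFDeriv_fderiv, fd_sum hf, iteratedFDeriv_fun_sum_apply (fun j _ =>
      (((ContinuousLinearMap.contDiff _).comp (hpd j)).of_le (by exact_mod_cast le_top)).contDiffAt)]
    have h1 : ∀ j : Fin 3, ‖iteratedFDeriv ℝ n ((ContinuousLinearMap.toSpanSingleton ℝ
        (ContinuousLinearMap.proj (R := ℝ) (φ := fun _ : Fin 3 => ℝ) j)) ∘ (pd j f)) x‖
        ≤ ‖iteratedFDeriv ℝ n (pd j f) x‖ := by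
      intro j
      refine (ContinuousLinearMap.norm_iteratedFDeriv_comp_left _ (N := ∞) (hpd j).contDiffAt
        (by exact_mod_cast le_top)).trans ?_
      refine mul_le_of_le_one_left (norm_nonneg _) ?_
      rw [ContinuousLinearMap.norm_toSpanSingleton]
      refine ContinuousLinearMap.opNorm_le_bound _ zero_le_one fun w => ?_
      rw [one_mul]
      exact norm_le_pi_norm w j
    calc ‖∑ j : Fin 3, iteratedFDeriv ℝ n ((ContinuousLinearMap.toSpanSingleton ℝ
            (ContinuousLinearMap.proj (R := ℝ) (φ := fun _ : Fin 3 => ℝ) j)) ∘ (pd j f)) x‖ ^ 2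
        ≤ (∑ j : Fin 3, ‖iteratedFDeriv ℝ n (pd j f) x‖) ^ 2 := by
          gcongr
          exact (norm_sum_le _ _).trans (Finset.sum_le_sum fun j _ => h1 j)
      _ ≤ 3 * ∑ j : Fin 3, ‖iteratedFDeriv ℝ n (pd j f) x‖ ^ 2 := sum3_sq _
      _ ≤ 3 * ∑ j : Fin 3, 3 ^ n * SS n (pd j f) x := by
          gcongr with j
          exact ih _ (hpd j) x
      _ = 3 ^ (n + 1) * SS (n + 1) f x := by
          rw [← Finset.mul_sum, SS_succ]
          ring

lemma it_SV (n : ℕ) {v : V → V} (hv : ContDiff ℝ ∞ v) (x : V) :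
    ‖iteratedFDeriv ℝ n v x‖ ^ 2 ≤ 3 ^ (n + 1) * SV n v x := by
  have hvi : ∀ i, ContDiff ℝ ∞ (fun y => v y i) := fun i => contDiff_pi.1 hv i
  have e : v = fun y => ∑ i : Fin 3, ((ContinuousLinearMap.toSpanSingleton ℝ
      (Pi.single i (1 : ℝ) : V)) ∘ (fun y => v y i)) y := by
    funext y
    ext k
    simp [Finset.sum_apply, Pi.single_apply]
  have h1 : ∀ i : Fin 3, ‖iteratedFDeriv ℝ n ((ContinuousLinearMap.toSpanSingleton ℝ
      (Pi.single i (1 : ℝ) : V)) ∘ (fun y => v y i)) x‖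
      ≤ ‖iteratedFDeriv ℝ n (fun y => v y i) x‖ := by
    intro i
    refine (ContinuousLinearMap.norm_iteratedFDeriv_comp_left _ (N := ∞) (hvi i).contDiffAt
      (by exact_mod_cast le_top)).trans ?_
    refine mul_le_of_le_one_left (norm_nonneg _) ?_
    rw [ContinuousLinearMap.norm_toSpanSingleton, Pi.norm_single]
    simp
  have h2 : iteratedFDeriv ℝ n v x = ∑ i : Fin 3, iteratedFDeriv ℝ n
      ((ContinuousLinearMap.toSpanSingleton ℝ (Pi.single i (1 : ℝ) : V)) ∘ (fun y => v y i)) x := by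
    conv_lhs => rw [e]
    exact iteratedFDeriv_fun_sum_apply (fun j _ =>
      (((ContinuousLinearMap.contDiff _).comp (hvi j)).of_le (by exact_mod_cast le_top)).contDiffAt)
  calc ‖iteratedFDeriv ℝ n v x‖ ^ 2
      ≤ (∑ i : Fin 3, ‖iteratedFDeriv ℝ n (fun y => v y i) x‖) ^ 2 := by
        rw [h2]
        gcongr
        exact (norm_sum_le _ _).trans (Finset.sum_le_sum fun j _ => h1 j)
    _ ≤ 3 * ∑ i : Fin 3, ‖iteratedFDeriv ℝ n (fun y => v y i) x‖ ^ 2 := sum3_sq _
    _ ≤ 3 * ∑ i : Fin 3, 3 ^ n * SS n (fun y => v y i) x := by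
        gcongr with i
        exact it_SS n _ (hvi i) x
    _ = 3 ^ (n + 1) * SV n v x := by
        rw [← Finset.mul_sum]
        unfold SV
        ring

lemma gsq_fd {v : V → V} (hv : ContDiff ℝ ∞ v) (x : V) : gsq v x ≤ 9 * ‖fderiv ℝ v x‖ ^ 2 := by
  have h : ∀ i j : Fin 3, pd j (fun y => v y i) x ^ 2 ≤ ‖fderiv ℝ v x‖ ^ 2 := by
    intro i j
    rw [← sq_abs]
    have h1 := hasFDerivAt_pi'.1 ((hv.differentiable (by norm_cast)) x).hasFDerivAt i
    have h2 : |pd j (fun y => v y i) x| ≤ ‖fderiv ℝ v x‖ := by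
      unfold pd
      rw [h1.fderiv]
      show |(fderiv ℝ v x (Pi.single j 1)) i| ≤ _
      rw [← Real.norm_eq_abs]
      refine (norm_le_pi_norm _ i).trans ?_
      refine ((fderiv ℝ v x).le_opNorm _).trans ?_
      rw [Pi.norm_single]
      simp
    gcongr
  unfold gsq
  calc ∑ i, ∑ j, pd j (fun y => v y i) x ^ 2 ≤ ∑ _i : Fin 3, ∑ _j : Fin 3, ‖fderiv ℝ v x‖ ^ 2 :=
        Finset.sum_le_sum fun i _ => Finset.sum_le_sum fun j _ => h i j
    _ = 9 * ‖fderiv ℝ v x‖ ^ 2 := by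
        simp only [Finset.sum_const, Finset.card_univ, Fintype.card_fin, nsmul_eq_mul]
        ring

end Pool.Agent.Y7
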