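import Pool.Agent.Y7.Fin7
import Pool.Agent.Y7.Der7
import Pool.Agent.W125.MD.ENST

/-!
The integral of the regularity scale: all viscosities, all derivatives (helper7).
-/

set_option autoImplicit false
set_option linter.unusedVariables false

open MeasureTheory Set Metric Filter Topology
open scoped ContDiff ENNReal NNReal

namespace Pool.Agent.Y7

open H459R3.NS W221.NS Pool.Agent.TH305.LW Pool.Agent.TH305.DR Pool.Agent.TH305.LG

/-- The derivatives of all orders are bounded on the ball of radius `ρ`. -/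
def AdmI (K : ℕ → ℝ) (ν : ℝ) (v : V → V) (x : V) (ρ : ℝ) : Prop :=
  0 < ρ ∧ ∀ y ∈ ball x ρ, ∀ n : ℕ, ‖iteratedFDeriv ℝ (n + 1) v y‖ ≤ K n * ν / ρ ^ (n + 2)

/-- The regularity scale to the power `-4`. -/
noncomputable def RegI (K : ℕ → ℝ) (ν : ℝ) (v : V → V) (x : V) : ℝ≥0∞ :=
  ⨅ ρ : ℝ, ⨅ _ : AdmI K ν v x ρ, ENNReal.ofReal (1 / ρ ^ 4)

lemma regI_le {K : ℕ → ℝ} (hK : ∀ n, 0 < K n) {v : V → V} (hv : ContDiff ℝ ∞ v) (x : V) :
    RegI (fun n => √(3 ^ (n + 2) * K n)) 1 v x ≤ Reg K 1 v x := by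
  refine le_iInf₂ fun ρ hρ => iInf₂_le ρ ⟨hρ.1, fun y hy n => ?_⟩
  have h0 := hρ.1
  have hKn := hK n
  have h1 := hρ.2 y hy n
  have h2 := it_SV (n + 1) hv y
  have h3 : SV (n + 1) v y ≤ K n / ρ ^ (2 * n + 4) := by
    rw [le_div_iff₀ (by positivity)]
    linarith
  rw [mul_one]
  refine abs_le_of_sq_le_sq' ?_ (by positivity) |>.2
  calc ‖iteratedFDeriv ℝ (n + 1) v y‖ ^ 2 ≤ 3 ^ (n + 1 + 1) * SV (n + 1) v y := h2
    _ ≤ 3 ^ (n + 1 + 1) * (K n / ρ ^ (2 * n + 4)) := by gcongr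
    _ = (√(3 ^ (n + 2) * K n) / ρ ^ (n + 2)) ^ 2 := by
        rw [div_pow, Real.sq_sqrt (by positivity), ← pow_mul]
        have : (n + 2) * 2 = 2 * n + 4 := by ring
        rw [this]
        ring

lemma regI_smul {K : ℕ → ℝ} {ν : ℝ} (hν : 0 < ν) {v : V → V} (hv : ContDiff ℝ ∞ v) (x : V) :
    RegI K ν v x ≤ RegI K 1 (fun x => ν⁻¹ • v x) x := by
  refine le_iInf₂ fun ρ hρ => iInf₂_le ρ ⟨hρ.1, fun y hy n => ?_⟩
  have h0 := hρ.1
  have h1 := hρ.2 y hy n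
  rw [iteratedFDeriv_const_smul_apply' ((hv.of_le (by exact_mod_cast le_top)).contDiffAt),
    norm_smul, norm_inv, Real.norm_eq_abs, abs_of_pos hν, inv_mul_le_iff₀ hν] at h1
  refine h1.trans (le_of_eq ?_)
  ring

/-- The derivatives in terms of the regularity scale. -/
lemma der_le {K : ℕ → ℝ} {ν : ℝ} (hν : 0 < ν) {v : V → V} (x : V) (n : ℕ) (hK : 0 < K n) :
    ENNReal.ofReal (‖iteratedFDeriv ℝ (n + 1) v x‖ ^ (4 / (n + 2) : ℝ))
      ≤ ENNReal.ofReal ((K n * ν) ^ (4 / (n + 2) : ℝ)) * RegI K ν v x := by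
  have hc : 0 < (K n * ν) ^ (4 / (n + 2) : ℝ) := Real.rpow_pos_of_pos (by positivity) _
  have hc0 : ENNReal.ofReal ((K n * ν) ^ (4 / (n + 2) : ℝ)) ≠ 0 := by
    rw [Ne, ENNReal.ofReal_eq_zero, not_le]
    exact hc
  rw [← ENNReal.div_le_iff' hc0 ENNReal.ofReal_ne_top]
  refine le_iInf₂ fun ρ hρ => ?_
  have h0 := hρ.1
  have h1 := hρ.2 x (mem_ball_self h0) n
  rw [ENNReal.div_le_iff' hc0 ENNReal.ofReal_ne_top, ← ENNReal.ofReal_mul hc.le]
  apply ENNReal.ofReal_le_ofReal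
  have hn : (0 : ℝ) < n + 2 := by positivity
  calc ‖iteratedFDeriv ℝ (n + 1) v x‖ ^ (4 / (n + 2) : ℝ)
      ≤ (K n * ν / ρ ^ (n + 2)) ^ (4 / (n + 2) : ℝ) :=
        Real.rpow_le_rpow (norm_nonneg _) h1 (by positivity)
    _ = (K n * ν) ^ (4 / (n + 2) : ℝ) * (1 / ρ ^ 4) := by
        rw [Real.div_rpow (by positivity) (by positivity), ← Real.rpow_natCast ρ (n + 2),
          ← Real.rpow_mul h0.le]
        have : ((n + 2 : ℕ) : ℝ) * (4 / (n + 2)) = (4 : ℕ) := by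
          push_cast
          field_simp
        rw [this, Real.rpow_natCast, div_eq_mul_one_div]

lemma time_int {t₀ : ℝ} (ht₀ : 0 < t₀) :
    ∫⁻ t in Ioi t₀, ENNReal.ofReal (1 / t ^ 2) = ENNReal.ofReal (1 / t₀) := by
  have e : ∀ t ∈ Ioi t₀, ENNReal.ofReal (1 / t ^ 2) = ENNReal.ofReal (t ^ (-2 : ℝ)) := by
    intro t ht
    have h0 : 0 < t := ht₀.trans ht
    rw [Real.rpow_neg h0.le, one_div]
    norm_num
  rw [setLIntegral_congr_fun measurableSet_Ioi e, ← ofReal_integral_eq_lintegral_ofReal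
    (integrableOn_Ioi_rpow_of_lt (by norm_num) ht₀), integral_Ioi_rpow_of_lt (by norm_num) ht₀]
  · congr 1
    norm_num
    rw [Real.rpow_neg_one]
  · refine (ae_restrict_iff' measurableSet_Ioi).2 (Eventually.of_forall fun t ht => ?_)
    exact Real.rpow_nonneg (ht₀.trans ht).le _

/-- From the regularity scale to the derivatives. -/
lemma to_der {T ν D c : ℝ} (hν : 0 < ν) (hD : 0 ≤ D) (hc : 0 ≤ c) {K : ℕ → ℝ} {u : ℝ → V → V}
    {W : ℝ≥0∞} {S : Set V}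
    (h : ∫⁻ t in Ioo 0 T, ∫⁻ x in S, (RegI K ν (u t) x
      - ENNReal.ofReal (D * (c + 1 / (ν * t) ^ 2))) ≤ W) (n : ℕ) (hK : 0 < K n) {t₀ : ℝ}
    (ht₀ : 0 < t₀) {B : Set V} (hB : B ⊆ S) :
    ∫⁻ t in Ioo t₀ T, ∫⁻ x in B, ENNReal.ofReal (‖iteratedFDeriv ℝ (n + 1) (u t) x‖
      ^ (4 / (n + 2) : ℝ)) ≤ ENNReal.ofReal ((K n * ν) ^ (4 / (n + 2) : ℝ)) *
        (W + ENNReal.ofReal (D * (c * T + 1 / (ν ^ 2 * t₀))) * volume B) := by
  rcases le_or_gt T t₀ with hT | hT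
  · rw [Ioo_eq_empty (not_lt.2 hT)]
    simp
  have hT0 : 0 < T := ht₀.trans hT
  have h1 : ∀ t, ∫⁻ x in B, ENNReal.ofReal (‖iteratedFDeriv ℝ (n + 1) (u t) x‖
      ^ (4 / (n + 2) : ℝ)) ≤ ENNReal.ofReal ((K n * ν) ^ (4 / (n + 2) : ℝ)) *
        ((∫⁻ x in S, (RegI K ν (u t) x - ENNReal.ofReal (D * (c + 1 / (ν * t) ^ 2))))
          + ENNReal.ofReal (D * (c + 1 / (ν * t) ^ 2)) * volume B) := by
    intro t
    calc ∫⁻ x in B, ENNReal.ofReal (‖iteratedFDeriv ℝ (n + 1) (u t) x‖ ^ (4 / (n + 2) : ℝ))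
        ≤ ∫⁻ x in B, ENNReal.ofReal ((K n * ν) ^ (4 / (n + 2) : ℝ)) * RegI K ν (u t) x :=
          lintegral_mono fun x => der_le hν x n hK
      _ = ENNReal.ofReal ((K n * ν) ^ (4 / (n + 2) : ℝ)) * ∫⁻ x in B, RegI K ν (u t) x :=
          lintegral_const_mul' _ _ ENNReal.ofReal_ne_top
      _ ≤ ENNReal.ofReal ((K n * ν) ^ (4 / (n + 2) : ℝ)) * ∫⁻ x in B,
            ((RegI K ν (u t) x - ENNReal.ofReal (D * (c + 1 / (ν * t) ^ 2)))
              + ENNReal.ofReal (D * (c + 1 / (ν * t) ^ 2))) :=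
          mul_le_mul_right (lintegral_mono fun x => le_tsub_add) _
      _ = ENNReal.ofReal ((K n * ν) ^ (4 / (n + 2) : ℝ)) *
            ((∫⁻ x in B, (RegI K ν (u t) x - ENNReal.ofReal (D * (c + 1 / (ν * t) ^ 2))))
              + ENNReal.ofReal (D * (c + 1 / (ν * t) ^ 2)) * volume B) := by
          rw [lintegral_add_right _ measurable_const, lintegral_const,
            Measure.restrict_apply_univ]
      _ ≤ _ := mul_le_mul_right (add_le_add_left (lintegral_mono_set hB) _) _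
  have hmt : Measurable fun t : ℝ => ENNReal.ofReal (D * (c + 1 / (ν * t) ^ 2)) := by fun_prop
  have h2 : ∫⁻ t in Ioo t₀ T, ENNReal.ofReal (D * (c + 1 / (ν * t) ^ 2))
      ≤ ENNReal.ofReal (D * (c * T + 1 / (ν ^ 2 * t₀))) := by
    have e1 : ∀ t, ENNReal.ofReal (D * (c + 1 / (ν * t) ^ 2)) = ENNReal.ofReal (D * c)
        + ENNReal.ofReal (D / ν ^ 2) * ENNReal.ofReal (1 / t ^ 2) := by
      intro t
      rw [← ENNReal.ofReal_mul (by positivity), ← ENNReal.ofReal_add (by positivity)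
        (by positivity)]
      congr 1
      field_simp
    simp only [e1]
    rw [lintegral_add_left measurable_const, lintegral_const, Measure.restrict_apply_univ,
      Real.volume_Ioo, lintegral_const_mul' _ _ ENNReal.ofReal_ne_top,
      ← ENNReal.ofReal_mul (by positivity)]
    have h3 : ∫⁻ t in Ioo t₀ T, ENNReal.ofReal (1 / t ^ 2) ≤ ENNReal.ofReal (1 / t₀) := by
      rw [← time_int ht₀]
      exact lintegral_mono_set Ioo_subset_Ioi_self
    calc ENNReal.ofReal (D * c * (T - t₀)) + ENNReal.ofReal (D / ν ^ 2) *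
          ∫⁻ t in Ioo t₀ T, ENNReal.ofReal (1 / t ^ 2)
        ≤ ENNReal.ofReal (D * c * T) + ENNReal.ofReal (D / ν ^ 2) * ENNReal.ofReal (1 / t₀) := by
          refine add_le_add (ENNReal.ofReal_le_ofReal ?_) (mul_le_mul_right h3 _)
          have : 0 ≤ D * c := by positivity
          nlinarith
      _ = ENNReal.ofReal (D * (c * T + 1 / (ν ^ 2 * t₀))) := by
          rw [← ENNReal.ofReal_mul (by positivity), ← ENNReal.ofReal_add (by positivity)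
            (by positivity)]
          congr 1
          field_simp
  calc ∫⁻ t in Ioo t₀ T, ∫⁻ x in B, ENNReal.ofReal (‖iteratedFDeriv ℝ (n + 1) (u t) x‖
        ^ (4 / (n + 2) : ℝ))
      ≤ ∫⁻ t in Ioo t₀ T, ENNReal.ofReal ((K n * ν) ^ (4 / (n + 2) : ℝ)) *
        ((∫⁻ x in S, (RegI K ν (u t) x - ENNReal.ofReal (D * (c + 1 / (ν * t) ^ 2))))
          + ENNReal.ofReal (D * (c + 1 / (ν * t) ^ 2)) * volume B) := lintegral_mono h1
    _ = ENNReal.ofReal ((K n * ν) ^ (4 / (n + 2) : ℝ)) *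
        ((∫⁻ t in Ioo t₀ T, ∫⁻ x in S, (RegI K ν (u t) x
            - ENNReal.ofReal (D * (c + 1 / (ν * t) ^ 2))))
          + (∫⁻ t in Ioo t₀ T, ENNReal.ofReal (D * (c + 1 / (ν * t) ^ 2))) * volume B) := by
        rw [lintegral_const_mul' _ _ ENNReal.ofReal_ne_top,
          lintegral_add_right _ (hmt.mul_const _), lintegral_mul_const _ hmt]
    _ ≤ _ := by
        refine mul_le_mul_right (add_le_add ?_ (mul_le_mul_left h2 _)) _
        exact (lintegral_mono_set (Ioo_subset_Ioo ht₀.le le_rfl)).trans h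

lemma pd_smul (c : ℝ) (v : V → V) (x : V) (i j : Fin 3) :
    pd j (fun y => (c • v y) i) x = c * pd j (fun y => v y i) x := by
  unfold pd
  have : (fun y => (c • v y) i) = c • fun y => v y i := by
    funext y; simp
  rw [this, fderiv_const_smul_field]
  simp

lemma enst_smul (c : ℝ) (v : V → V) : enstrophy (fun x => c • v x) = c ^ 2 * enstrophy v := by
  unfold enstrophy
  rw [Finset.mul_sum]
  refine Finset.sum_congr rfl fun i _ => ?_
  rw [Finset.mul_sum]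
  refine Finset.sum_congr rfl fun j _ => ?_
  rw [← integral_const_mul]
  refine integral_congr_ae (Eventually.of_forall fun x => ?_)
  simp only [pd_smul]
  ring

lemma ofR_ne {ν : ℝ} (hν : 0 < ν) : ENNReal.ofReal ν ≠ 0 := by
  rw [Ne, ENNReal.ofReal_eq_zero, not_le]
  exact hν

/-- Change of the viscosity. -/
lemma visc {ν T : ℝ} (hν : 0 < ν) {f g : ℝ → ℝ≥0∞} {D : ℝ≥0∞}
    (h : ∫⁻ t in Ioo 0 (ν * T), f (t / ν) ≤ D * ∫⁻ t in Ioo 0 (ν * T), g (t / ν)) :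
    ∫⁻ t in Ioo 0 T, f t ≤ D * ∫⁻ t in Ioo 0 T, g t := by
  have e1 := lint_scale hν f 0 T
  have e2 := lint_scale hν g 0 T
  rw [mul_zero] at e1 e2
  rw [e1, e2, mul_left_comm] at h
  exact (ENNReal.mul_le_mul_iff_right (ofR_ne hν) ENNReal.ofReal_ne_top).1 h

lemma regB {K : ℕ → ℝ} (hK : ∀ n, 0 < K n) {ν : ℝ} (hν : 0 < ν) {v : V → V}
    (hv : ContDiff ℝ ∞ v) (y : V) :
    RegI (fun n => √(3 ^ (n + 2) * K n)) ν v y ≤ Reg K 1 (fun x => ν⁻¹ • v x) y :=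
  (regI_smul hν hv y).trans (regI_le hK (hv.const_smul ν⁻¹) y)

/-- The whole space, all viscosities. -/
theorem wholeN {K : ℕ → ℝ} (hK : ∀ n, 0 < K n) {D : ℝ} (hD : 0 < D)
    (H : ∀ (T E : ℝ) (u : ℝ → V → V) (p : ℝ → V → ℝ), 0 ≤ E → OSol 1 T E univ u p →
      ∫⁻ t in Ioo 0 T, ∫⁻ y, (Reg K 1 (u t) y - ENNReal.ofReal (D / t ^ 2))
        ≤ ENNReal.ofReal D * ∫⁻ t in Ioo 0 T, ∫⁻ y, ENNReal.ofReal (gsq (u t) y))
    {ν T E : ℝ} {u : ℝ → V → V} {p : ℝ → V → ℝ} (hν : 0 < ν) (hE : 0 ≤ E)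
    (hS : OSol ν T E univ u p) :
    ∫⁻ t in Ioo 0 T, ∫⁻ x, (RegI (fun n => √(3 ^ (n + 2) * K n)) ν (u t) x
        - ENNReal.ofReal (9 * D / (ν * t) ^ 2))
      ≤ ENNReal.ofReal (9 * D / ν ^ 2) *
        ∫⁻ t in Ioo 0 T, ∫⁻ x, ENNReal.ofReal (‖fderiv ℝ (u t) x‖ ^ 2) := by
  have hS1 := W221.NS.B.p_osc ν T E univ u p hν hS
  have h1 := H (ν * T) (E / ν) _ _ (div_nonneg hE hν.le) hS1
  have hu := hS.smooth_u
  have h2 : ∫⁻ t in Ioo 0 T, ∫⁻ y, (Reg K 1 (fun x => ν⁻¹ • u t x) y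
      - ENNReal.ofReal (D / (ν * t) ^ 2)) ≤ ENNReal.ofReal D * ∫⁻ t in Ioo 0 T, ∫⁻ y,
        ENNReal.ofReal (gsq (fun x => ν⁻¹ • u t x) y) := by
    refine visc hν ?_
    refine le_trans (le_of_eq ?_) h1
    refine lintegral_congr fun t => lintegral_congr fun y => ?_
    rw [mul_div_cancel₀ t hν.ne']
  calc ∫⁻ t in Ioo 0 T, ∫⁻ x, (RegI (fun n => √(3 ^ (n + 2) * K n)) ν (u t) x
        - ENNReal.ofReal (9 * D / (ν * t) ^ 2))
      ≤ ∫⁻ t in Ioo 0 T, ∫⁻ y, (Reg K 1 (fun x => ν⁻¹ • u t x) y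
          - ENNReal.ofReal (D / (ν * t) ^ 2)) := by
        refine setLIntegral_mono' measurableSet_Ioo fun t ht => lintegral_mono fun y => ?_
        have hus := slice_cd hu ht
        refine tsub_le_tsub ?_ (ENNReal.ofReal_le_ofReal ?_)
        · exact regB hK hν hus y
        · have : 0 < ν * t := mul_pos hν ht.1
          gcongr
          linarith
    _ ≤ ENNReal.ofReal D * ∫⁻ t in Ioo 0 T, ∫⁻ y,
        ENNReal.ofReal (gsq (fun x => ν⁻¹ • u t x) y) := h2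
    _ ≤ ENNReal.ofReal D * ∫⁻ t in Ioo 0 T, ENNReal.ofReal (9 / ν ^ 2) *
          ∫⁻ y, ENNReal.ofReal (‖fderiv ℝ (u t) y‖ ^ 2) := by
        refine mul_le_mul_right (setLIntegral_mono' measurableSet_Ioo fun t ht => ?_) _
        rw [← lintegral_const_mul' _ _ ENNReal.ofReal_ne_top]
        refine lintegral_mono fun y => ?_
        rw [← ENNReal.ofReal_mul (by positivity)]
        apply ENNReal.ofReal_le_ofReal
        rw [gsq_smul]
        have h3 := gsq_fd (slice_cd hu ht) y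
        calc ν⁻¹ ^ 2 * gsq (u t) y ≤ ν⁻¹ ^ 2 * (9 * ‖fderiv ℝ (u t) y‖ ^ 2) := by gcongr
          _ = 9 / ν ^ 2 * ‖fderiv ℝ (u t) y‖ ^ 2 := by
              field_simp
    _ = ENNReal.ofReal (9 * D / ν ^ 2) *
        ∫⁻ t in Ioo 0 T, ∫⁻ x, ENNReal.ofReal (‖fderiv ℝ (u t) x‖ ^ 2) := by
        rw [lintegral_const_mul' _ _ ENNReal.ofReal_ne_top, ← mul_assoc,
          ← ENNReal.ofReal_mul hD.le]
        congr 2
        ring

/-- The dissipation of a periodic solution. -/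
lemma enst_int {ν T : ℝ} {u : ℝ → V → V} {p : ℝ → V → ℝ} (hν : 0 < ν) (hT : 0 < T)
    (hS : IsSol ν T u p) : ∫⁻ t in Ioo 0 T, ENNReal.ofReal (enstrophy (u t))
        ≤ ENNReal.ofReal (energy (u 0) / (2 * ν)) := by
  have hint := W221.NS.B.p_enst ν T u p hν hT hS
  rw [← ofReal_integral_eq_lintegral_ofReal hint
    (Eventually.of_forall fun t => Pool.Agent.W125.MD.enstrophy_nonneg _)]
  apply ENNReal.ofReal_le_ofReal
  have hlim : Tendsto (fun b : ℝ => ∫ t in (0 : ℝ)..b, enstrophy (u t)) (𝓝[<] T)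
      (𝓝 (∫ t in (0 : ℝ)..T, enstrophy (u t))) := by
    have hii : IntervalIntegrable (fun t => enstrophy (u t)) volume 0 T := by
      rw [intervalIntegrable_iff_integrableOn_Ioo_of_le hT.le]
      exact hint
    have hc := intervalIntegral.continuousOn_primitive_interval' hii left_mem_uIcc
    rw [uIcc_of_le hT.le] at hc
    have hc2 := hc T ⟨hT.le, le_rfl⟩
    refine hc2.mono_left ?_
    rw [nhdsWithin_le_iff]
    exact mem_of_superset (Ioo_mem_nhdsLT hT) Ioo_subset_Icc_self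
  rw [← integral_Ioc_eq_integral_Ioo, ← intervalIntegral.integral_of_le hT.le]
  refine le_of_tendsto hlim ?_
  filter_upwards [Ioo_mem_nhdsLT hT] with b hb
  exact Pool.Agent.W125.MD.int_enst hν hS hb.1.le hb.2

lemma cube_eq (f : V → ℝ≥0∞) : ∫⁻ x in cube, f x = ∫⁻ x in cell, f x := by
  have hcc : (cell : Set V) =ᵐ[volume] cube := by
    have := Measure.univ_pi_Ico_ae_eq_Icc (μ := fun _ : Fin 3 => (volume : Measure ℝ))
      (f := fun _ => (0 : ℝ)) (g := fun _ => (1 : ℝ))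
    exact this
  exact setLIntegral_congr hcc.symm

/-- Periodic solutions, all viscosities. -/
theorem periN {K : ℕ → ℝ} (hK : ∀ n, 0 < K n) {D : ℝ} (hD : 0 < D)
    (H : ∀ (T : ℝ) (u : ℝ → V → V) (p : ℝ → V → ℝ), IsSol 1 T u p →
      ∫⁻ t in Ioo 0 T, ∫⁻ y in cell, (Reg K 1 (u t) y - ENNReal.ofReal (D * (1 + 1 / t ^ 2)))
        ≤ ENNReal.ofReal D * ∫⁻ t in Ioo 0 T, ENNReal.ofReal (enstrophy (u t)))
    {ν T : ℝ} {u : ℝ → V → V} {p : ℝ → V → ℝ} (hν : 0 < ν) (hS : IsSol ν T u p) :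
    ∫⁻ t in Ioo 0 T, ∫⁻ x in cube, (RegI (fun n => √(3 ^ (n + 2) * K n)) ν (u t) x
        - ENNReal.ofReal (D * (1 + 1 / (ν * t) ^ 2)))
      ≤ ENNReal.ofReal (D / ν ^ 3 * energy (u 0)) := by
  rcases le_or_gt T 0 with hT | hT
  · rw [Ioo_eq_empty (not_lt.2 hT)]
    simp
  have hS1 := W221.NS.B.p_scale ν T u p hν hT hS
  have h1 := H (ν * T) _ _ hS1
  have hu : ContDiffOn ℝ ∞ (fun z : ℝ × V => u z.1 z.2) (Ioo 0 T ×ˢ univ) :=
    hS.smooth_u.mono (prod_mono Ioo_subset_Ico_self subset_rfl)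
  have h2 : ∫⁻ t in Ioo 0 T, ∫⁻ y in cell, (Reg K 1 (fun x => ν⁻¹ • u t x) y
      - ENNReal.ofReal (D * (1 + 1 / (ν * t) ^ 2))) ≤ ENNReal.ofReal D * ∫⁻ t in Ioo 0 T,
        ENNReal.ofReal (enstrophy (fun x => ν⁻¹ • u t x)) := by
    refine visc hν ?_
    refine le_trans (le_of_eq ?_) h1
    refine lintegral_congr fun t => lintegral_congr fun y => ?_
    rw [mul_div_cancel₀ t hν.ne']
  calc ∫⁻ t in Ioo 0 T, ∫⁻ x in cube, (RegI (fun n => √(3 ^ (n + 2) * K n)) ν (u t) x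
        - ENNReal.ofReal (D * (1 + 1 / (ν * t) ^ 2)))
      ≤ ∫⁻ t in Ioo 0 T, ∫⁻ y in cell, (Reg K 1 (fun x => ν⁻¹ • u t x) y
          - ENNReal.ofReal (D * (1 + 1 / (ν * t) ^ 2))) := by
        refine setLIntegral_mono' measurableSet_Ioo fun t ht => ?_
        rw [cube_eq]
        refine lintegral_mono fun y => ?_
        have hus := slice_cd hu ht
        exact tsub_le_tsub_right (regB hK hν hus y) _
    _ ≤ ENNReal.ofReal D * ∫⁻ t in Ioo 0 T,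
        ENNReal.ofReal (enstrophy (fun x => ν⁻¹ • u t x)) := h2
    _ = ENNReal.ofReal D * (ENNReal.ofReal (ν⁻¹ ^ 2) *
          ∫⁻ t in Ioo 0 T, ENNReal.ofReal (enstrophy (u t))) := by
        have e3 : ∀ t, ENNReal.ofReal (enstrophy (fun x => ν⁻¹ • u t x))
            = ENNReal.ofReal (ν⁻¹ ^ 2) * ENNReal.ofReal (enstrophy (u t)) := by
          intro t
          rw [← ENNReal.ofReal_mul (by positivity), enst_smul]
        simp only [e3]
        rw [lintegral_const_mul' _ _ ENNReal.ofReal_ne_top]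
    _ ≤ ENNReal.ofReal D * (ENNReal.ofReal (ν⁻¹ ^ 2) *
          ENNReal.ofReal (energy (u 0) / (2 * ν))) :=
        mul_le_mul_right (mul_le_mul_right (enst_int hν hT hS) _) _
    _ ≤ ENNReal.ofReal (D / ν ^ 3 * energy (u 0)) := by
        rw [← ENNReal.ofReal_mul (by positivity), ← ENNReal.ofReal_mul hD.le]
        apply ENNReal.ofReal_le_ofReal
        have hE0 := Pool.Agent.W125.MD.energy_nonneg (u 0)
        calc D * (ν⁻¹ ^ 2 * (energy (u 0) / (2 * ν))) = D / 2 / ν ^ 3 * energy (u 0) := by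
              field_simp
          _ ≤ D / ν ^ 3 * energy (u 0) := by
              gcongr
              linarith

lemma cube_vol : volume (cube : Set V) = 1 := by
  unfold cube
  have : (Icc (0 : V) 1) = univ.pi fun _ : Fin 3 => Icc (0 : ℝ) 1 := by
    rw [← Set.pi_univ_Icc]
    rfl
  rw [this, volume_pi_pi]
  simp

/-- The final statement. -/
theorem final : ∃ C : ℝ, 0 < C ∧ ∃ K : ℕ → ℝ, (∀ n, 0 < K n) ∧
    -- solutions in the whole space
    (∀ (ν T E : ℝ) (u : ℝ → V → V) (p : ℝ → V → ℝ), 0 < ν → 0 ≤ E → OSol ν T E univ u p →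
      ∫⁻ t in Ioo 0 T, ∫⁻ x, (RegI K ν (u t) x - ENNReal.ofReal (C / (ν * t) ^ 2))
        ≤ ENNReal.ofReal (C / ν ^ 2) *
          ∫⁻ t in Ioo 0 T, ∫⁻ x, ENNReal.ofReal (‖fderiv ℝ (u t) x‖ ^ 2) ∧
      ∀ (n : ℕ) (t₀ : ℝ) (B : Set V), 0 < t₀ →
        ∫⁻ t in Ioo t₀ T, ∫⁻ x in B, ENNReal.ofReal (‖iteratedFDeriv ℝ (n + 1) (u t) x‖
          ^ (4 / (n + 2) : ℝ)) ≤ ENNReal.ofReal (C / ν ^ 2 * (K n * ν) ^ (4 / (n + 2) : ℝ)) *
            ((∫⁻ t in Ioo 0 T, ∫⁻ x, ENNReal.ofReal (‖fderiv ℝ (u t) x‖ ^ 2))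
              + ENNReal.ofReal (1 / t₀) * volume B)) ∧
    -- periodic solutions
    ∀ (ν T : ℝ) (u : ℝ → V → V) (p : ℝ → V → ℝ), 0 < ν → IsSol ν T u p →
      ∫⁻ t in Ioo 0 T, ∫⁻ x in cube, (RegI K ν (u t) x
          - ENNReal.ofReal (C * (1 + 1 / (ν * t) ^ 2)))
        ≤ ENNReal.ofReal (C / ν ^ 3 * energy (u 0)) ∧
      ∀ (n : ℕ) (t₀ : ℝ), 0 < t₀ →
        ∫⁻ t in Ioo t₀ T, ∫⁻ x in cube, ENNReal.ofReal (‖iteratedFDeriv ℝ (n + 1) (u t) x‖
          ^ (4 / (n + 2) : ℝ)) ≤ ENNReal.ofReal (C * (K n * ν) ^ (4 / (n + 2) : ℝ) *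
            (energy (u 0) / ν ^ 3 + T + 1 / (ν ^ 2 * t₀))) := by
  obtain ⟨C₀, K₀, hC₀, hK₀, hcore⟩ := core
  obtain ⟨D₁, hD₁, H₁⟩ := whole1 hC₀ hcore
  obtain ⟨D₂, hD₂, H₂⟩ := peri1 hC₀ hcore
  have hK : ∀ n, 0 < √(3 ^ (n + 2) * K₀ n) := fun n => by
    have := hK₀ n
    positivity
  obtain ⟨C, hCd⟩ : ∃ C, C = 9 * D₁ + D₂ := ⟨_, rfl⟩
  have hC : 0 < C := by rw [hCd]; positivity
  have hD1C : 9 * D₁ ≤ C := by rw [hCd]; linarith
  have hD2C : D₂ ≤ C := by rw [hCd]; linarith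
  refine ⟨C, hC, fun n => √(3 ^ (n + 2) * K₀ n), hK, ?_, ?_⟩
  · intro ν T E u p hν hE hS
    have h : ∫⁻ t in Ioo 0 T, ∫⁻ x in univ, (RegI (fun n => √(3 ^ (n + 2) * K₀ n)) ν (u t) x
        - ENNReal.ofReal (C * (0 + 1 / (ν * t) ^ 2))) ≤ ENNReal.ofReal (C / ν ^ 2) *
          ∫⁻ t in Ioo 0 T, ∫⁻ x, ENNReal.ofReal (‖fderiv ℝ (u t) x‖ ^ 2) := by
      refine le_trans ?_ ((wholeN hK₀ hD₁ H₁ hν hE hS).trans
        (mul_le_mul_left (ENNReal.ofReal_le_ofReal (by gcongr)) _))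
      refine setLIntegral_mono' measurableSet_Ioo fun t ht => ?_
      rw [setLIntegral_univ]
      refine lintegral_mono fun y => tsub_le_tsub_left (ENNReal.ofReal_le_ofReal ?_) _
      rw [zero_add, mul_one_div]
      have : 0 < ν * t := mul_pos hν ht.1
      gcongr
    refine ⟨?_, ?_⟩
    · simp only [zero_add, mul_one_div, setLIntegral_univ] at h
      exact h
    · intro n t₀ B ht₀
      have h5 := to_der hν hC.le le_rfl h n (hK n) ht₀ (subset_univ B)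
      refine h5.trans (le_of_eq ?_)
      have e5 : C * (0 * T + 1 / (ν ^ 2 * t₀)) = C / ν ^ 2 * (1 / t₀) := by
        field_simp
        ring
      rw [e5, ENNReal.ofReal_mul (show (0 : ℝ) ≤ C / ν ^ 2 by positivity), mul_assoc, ← mul_add,
        ENNReal.ofReal_mul (show (0 : ℝ) ≤ C / ν ^ 2 by positivity)]
      ring
  · intro ν T u p hν hS
    have h : ∫⁻ t in Ioo 0 T, ∫⁻ x in cube, (RegI (fun n => √(3 ^ (n + 2) * K₀ n)) ν (u t) x
          - ENNReal.ofReal (C * (1 + 1 / (ν * t) ^ 2)))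
        ≤ ENNReal.ofReal (C / ν ^ 3 * energy (u 0)) := by
      have hE0 := Pool.Agent.W125.MD.energy_nonneg (u 0)
      refine le_trans ?_ ((periN hK₀ hD₂ H₂ hν hS).trans (ENNReal.ofReal_le_ofReal (by gcongr)))
      refine lintegral_mono fun t => lintegral_mono fun y =>
        tsub_le_tsub_left (ENNReal.ofReal_le_ofReal ?_) _
      gcongr
    refine ⟨h, ?_⟩
    intro n t₀ ht₀
    rcases le_or_gt T t₀ with hT | hT
    · rw [Ioo_eq_empty (not_lt.2 hT)]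
      simp
    have hT0 : 0 < T := ht₀.trans hT
    have h5 := to_der hν hC.le zero_le_one h n (hK n) ht₀ (subset_rfl)
    refine h5.trans ?_
    have hKν : 0 ≤ (√(3 ^ (n + 2) * K₀ n) * ν) ^ (4 / (n + 2) : ℝ) :=
      Real.rpow_nonneg (mul_nonneg (hK n).le hν.le) _
    have hE0 := Pool.Agent.W125.MD.energy_nonneg (u 0)
    rw [cube_vol, mul_one, ← ENNReal.ofReal_add (by positivity) (by positivity),
      ← ENNReal.ofReal_mul hKν]
    apply ENNReal.ofReal_le_ofReal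
    apply le_of_eq
    ring

end Pool.Agent.Y7
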