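import Mathlib

/-!
A covering estimate on the line: times at which a window of length `h` carries a mass larger than
`η / h`, summed over the dyadic scales (helper7).
-/

set_option autoImplicit false

open MeasureTheory Set
open scoped ENNReal

namespace Pool.Agent.Y7.Cov1

section

variable (f : ℝ → ℝ≥0∞) (h₀ : ℝ)

/-- The length of the windows. -/
noncomputable def hh (k : ℕ) : ℝ := h₀ / 4 ^ k

/-- The grid intervals. -/
def II (k : ℕ) (m : ℤ) : Set ℝ := Ico (m * hh h₀ k) ((m + 1) * hh h₀ k)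

/-- The mass of the grid intervals. -/
noncomputable def MM (k : ℕ) (m : ℤ) : ℝ≥0∞ := ∫⁻ t in II h₀ k m, f t

variable {h₀}

lemma hh_pos (h : 0 < h₀) (k : ℕ) : 0 < hh h₀ k := by
  unfold hh
  positivity

lemma hh_succ (k : ℕ) : hh h₀ k = 4 * hh h₀ (k + 1) := by
  unfold hh
  rw [pow_succ]
  field_simp

lemma II_meas (k : ℕ) (m : ℤ) : MeasurableSet (II h₀ k m) := measurableSet_Ico

lemma mem_II (h : 0 < h₀) (k : ℕ) (m : ℤ) (t : ℝ) : t ∈ II h₀ k m ↔ ⌊t / hh h₀ k⌋ = m := by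
  have hk := hh_pos h k
  unfold II
  rw [mem_Ico, Int.floor_eq_iff, le_div_iff₀ hk, div_lt_iff₀ hk]

lemma vol_II (k : ℕ) (m : ℤ) : volume (II h₀ k m) = ENNReal.ofReal (hh h₀ k) := by
  unfold II
  rw [Real.volume_Ico]
  congr 1
  ring

/-- The mass of an interval is the sum of the masses of its four parts. -/
lemma MM_succ (h : 0 < h₀) (k : ℕ) (m : ℤ) :
    MM f h₀ k m = ∑ c : Fin 4, MM f h₀ (k + 1) (4 * m + (c : ℕ)) := by
  have hk := hh_pos h (k + 1)
  have e : II h₀ k m = ⋃ c : Fin 4, II h₀ (k + 1) (4 * m + (c : ℕ)) := by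
    ext t
    rw [mem_iUnion, mem_II h]
    simp only [mem_II h]
    have e1 : t / hh h₀ k = t / hh h₀ (k + 1) / (4 : ℕ) := by
      rw [hh_succ]
      push_cast
      field_simp
    rw [e1, Int.floor_div_natCast]
    constructor
    · intro h1
      obtain ⟨n, hn⟩ : ∃ n : ℤ, n = ⌊t / hh h₀ (k + 1)⌋ := ⟨_, rfl⟩
      rw [← hn] at h1 ⊢
      have h2 := Int.emod_nonneg n (show (4 : ℤ) ≠ 0 by norm_num)
      have h3 := Int.emod_lt_of_pos n (show (0 : ℤ) < 4 by norm_num)
      refine ⟨⟨(n % 4).toNat, by omega⟩, ?_⟩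
      simp only
      push_cast at h1
      omega
    · rintro ⟨c, hc⟩
      rw [hc]
      have := c.2
      push_cast
      omega
  unfold MM
  rw [e, lintegral_iUnion (fun c => II_meas _ _)]
  · rw [tsum_fintype]
  · intro a b hab
    rw [Function.onFun, Set.disjoint_left]
    intro t h1 h2
    rw [mem_II h] at h1 h2
    apply hab
    rw [h1] at h2
    ext
    omega

/-- The total mass. -/
lemma MM_sum (h : 0 < h₀) : ∑' m : ℤ, MM f h₀ 0 m = ∫⁻ t, f t := by
  unfold MM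
  rw [← lintegral_iUnion (fun m => II_meas 0 m)]
  · have e : (⋃ m : ℤ, II h₀ 0 m) = univ := by
      refine eq_univ_of_forall fun t => ?_
      rw [mem_iUnion]
      exact ⟨_, (mem_II h 0 _ t).2 rfl⟩
    rw [e, Measure.restrict_univ]
  · intro a b hab
    rw [Function.onFun, Set.disjoint_left]
    intro t h1 h2
    rw [mem_II h] at h1 h2
    exact hab (h1.symm.trans h2)

variable (h₀)

open Classical in
/-- The indicator of a bad grid interval. -/
noncomputable def bc (θ : ℝ) (k : ℕ) (m : ℤ) : ℝ≥0∞ :=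
  if ENNReal.ofReal (θ / hh h₀ k) < MM f h₀ k m then 1 else 0

/-- The weighted number of bad intervals of `n` generations. -/
noncomputable def Ph (θ : ℝ) : ℕ → ℕ → ℤ → ℝ≥0∞
  | 0, _, _ => 0
  | n + 1, k, m => bc f h₀ θ k m * ENNReal.ofReal (1 / hh h₀ k)
      + ∑ c : Fin 4, Ph θ n (k + 1) (4 * m + (c : ℕ))

variable {h₀}

/-- The main estimate. -/
lemma Ph_le (h : 0 < h₀) {θ : ℝ} (hθ : 0 < θ) (n : ℕ) : ∀ (k : ℕ) (m : ℤ), Ph f h₀ θ n k m ≠ 0 →
    Ph f h₀ θ n k m + ENNReal.ofReal (1 / 3 * (1 / hh h₀ k))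
      ≤ ENNReal.ofReal (4 / 3 * (1 / θ)) * MM f h₀ k m := by
  induction n with
  | zero => intro k m hne; exact absurd rfl hne
  | succ n ih =>
    intro k m hne
    have hk := hh_pos h k
    have hk1 := hh_pos h (k + 1)
    have ih0 : ∀ c : Fin 4, Ph f h₀ θ n (k + 1) (4 * m + (c : ℕ))
        ≤ ENNReal.ofReal (4 / 3 * (1 / θ)) * MM f h₀ (k + 1) (4 * m + (c : ℕ)) := by
      intro c
      by_cases h0 : Ph f h₀ θ n (k + 1) (4 * m + (c : ℕ)) = 0
      · rw [h0]; exact zero_le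
      · exact le_self_add.trans (ih (k + 1) _ h0)
    have hb : bc f h₀ θ k m * ENNReal.ofReal (1 / hh h₀ k) ≤ ENNReal.ofReal (1 / hh h₀ k) := by
      unfold bc
      split_ifs
      · rw [one_mul]
      · rw [zero_mul]; exact zero_le
    rw [MM_succ f h k m, Finset.mul_sum]
    show bc f h₀ θ k m * ENNReal.ofReal (1 / hh h₀ k)
      + (∑ c : Fin 4, Ph f h₀ θ n (k + 1) (4 * m + (c : ℕ)))
      + ENNReal.ofReal (1 / 3 * (1 / hh h₀ k)) ≤ _
    by_cases hc : ∃ c : Fin 4, Ph f h₀ θ n (k + 1) (4 * m + (c : ℕ)) ≠ 0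
    · obtain ⟨c, hc⟩ := hc
      have h1 := ih (k + 1) _ hc
      have h2 : ENNReal.ofReal (1 / hh h₀ k) + ENNReal.ofReal (1 / 3 * (1 / hh h₀ k))
          = ENNReal.ofReal (1 / 3 * (1 / hh h₀ (k + 1))) := by
        rw [← ENNReal.ofReal_add (by positivity) (by positivity)]
        congr 1
        rw [hh_succ (h₀ := h₀) k]
        field_simp
        norm_num
      calc bc f h₀ θ k m * ENNReal.ofReal (1 / hh h₀ k)
            + (∑ c : Fin 4, Ph f h₀ θ n (k + 1) (4 * m + (c : ℕ)))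
            + ENNReal.ofReal (1 / 3 * (1 / hh h₀ k))
          ≤ ENNReal.ofReal (1 / hh h₀ k)
            + (∑ c : Fin 4, Ph f h₀ θ n (k + 1) (4 * m + (c : ℕ)))
            + ENNReal.ofReal (1 / 3 * (1 / hh h₀ k)) := by gcongr
        _ = (∑ c : Fin 4, Ph f h₀ θ n (k + 1) (4 * m + (c : ℕ)))
            + ENNReal.ofReal (1 / 3 * (1 / hh h₀ (k + 1))) := by
            rw [← h2]
            ring
        _ = (∑ c ∈ Finset.univ.erase c, Ph f h₀ θ n (k + 1) (4 * m + (c : ℕ)))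
            + (Ph f h₀ θ n (k + 1) (4 * m + (c : ℕ))
              + ENNReal.ofReal (1 / 3 * (1 / hh h₀ (k + 1)))) := by
            rw [← Finset.sum_erase_add _ _ (Finset.mem_univ c)]
            ring
        _ ≤ (∑ c ∈ Finset.univ.erase c, ENNReal.ofReal (4 / 3 * (1 / θ)) *
              MM f h₀ (k + 1) (4 * m + (c : ℕ)))
            + ENNReal.ofReal (4 / 3 * (1 / θ)) * MM f h₀ (k + 1) (4 * m + (c : ℕ)) :=
            add_le_add (Finset.sum_le_sum fun c _ => ih0 c) h1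
        _ = _ := Finset.sum_erase_add _ _ (Finset.mem_univ c)
    · push Not at hc
      have h1 : (∑ c : Fin 4, Ph f h₀ θ n (k + 1) (4 * m + (c : ℕ))) = 0 :=
        Finset.sum_eq_zero fun c _ => hc c
      have h2 : bc f h₀ θ k m * ENNReal.ofReal (1 / hh h₀ k) ≠ 0 := by
        intro h3
        apply hne
        show bc f h₀ θ k m * ENNReal.ofReal (1 / hh h₀ k)
          + (∑ c : Fin 4, Ph f h₀ θ n (k + 1) (4 * m + (c : ℕ))) = 0
        rw [h1, h3, zero_add]
      have h3 : ENNReal.ofReal (θ / hh h₀ k) < MM f h₀ k m := by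
        by_contra h4
        apply h2
        unfold bc
        rw [if_neg h4, zero_mul]
      rw [h1, add_zero, ← Finset.mul_sum, ← MM_succ f h k m]
      calc bc f h₀ θ k m * ENNReal.ofReal (1 / hh h₀ k) + ENNReal.ofReal (1 / 3 * (1 / hh h₀ k))
          ≤ ENNReal.ofReal (1 / hh h₀ k) + ENNReal.ofReal (1 / 3 * (1 / hh h₀ k)) := by gcongr
        _ = ENNReal.ofReal (4 / 3 * (1 / θ)) * ENNReal.ofReal (θ / hh h₀ k) := by
            rw [← ENNReal.ofReal_add (by positivity) (by positivity),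
              ← ENNReal.ofReal_mul (by positivity)]
            congr 1
            field_simp
            norm_num
        _ ≤ ENNReal.ofReal (4 / 3 * (1 / θ)) * MM f h₀ k m := by gcongr

/-- The weighted number of bad intervals, summed over the line. -/
lemma Ph_sum (θ : ℝ) (n : ℕ) : ∀ k : ℕ, ∑' m : ℤ, Ph f h₀ θ n k m
    = ∑ j ∈ Finset.range n, ENNReal.ofReal (1 / hh h₀ (k + j)) * ∑' m : ℤ, bc f h₀ θ (k + j) m := by
  induction n with
  | zero =>
    intro k
    simp [Ph]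
  | succ n ih =>
    intro k
    have e1 : ∑' m : ℤ, Ph f h₀ θ (n + 1) k m
        = (∑' m : ℤ, bc f h₀ θ k m * ENNReal.ofReal (1 / hh h₀ k))
          + ∑' m : ℤ, ∑ c : Fin 4, Ph f h₀ θ n (k + 1) (4 * m + (c : ℕ)) := by
      rw [← ENNReal.tsum_add]
      rfl
    have e2 : ∑' m : ℤ, ∑ c : Fin 4, Ph f h₀ θ n (k + 1) (4 * m + (c : ℕ))
        = ∑' m : ℤ, Ph f h₀ θ n (k + 1) m := by
      have e3 : ∑' m : ℤ, ∑ c : Fin 4, Ph f h₀ θ n (k + 1) (4 * m + (c : ℕ))
          = ∑' p : ℤ × Fin 4, Ph f h₀ θ n (k + 1) (4 * p.1 + (p.2 : ℕ)) := by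
        rw [ENNReal.tsum_prod' (f := fun p : ℤ × Fin 4 => Ph f h₀ θ n (k + 1) (4 * p.1 + (p.2 : ℕ)))]
        refine tsum_congr fun m => ?_
        rw [tsum_fintype]
      rw [e3, ← (Int.divModEquiv 4).tsum_eq
        (fun p : ℤ × Fin 4 => Ph f h₀ θ n (k + 1) (4 * p.1 + (p.2 : ℕ)))]
      refine tsum_congr fun m => ?_
      congr 1
      have h4 : ((((Int.divModEquiv 4) m).2 : ℕ) : ℤ) = m % 4 := by
        simp only [Int.divModEquiv, Equiv.coe_fn_mk]
        rw [Fin.val_ofNat, Int.natCast_mod, Int.natMod,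
          Int.toNat_of_nonneg (Int.emod_nonneg _ (by norm_num))]
        push_cast
        omega
      have h5 : ((Int.divModEquiv 4) m).1 = m / 4 := by
        simp [Int.divModEquiv]
      rw [h4, h5]
      omega
    rw [e1, e2, ih (k + 1), Finset.sum_range_succ', ENNReal.tsum_mul_right]
    simp only [add_zero]
    rw [add_comm, mul_comm]
    congr 1
    refine Finset.sum_congr rfl fun j _ => ?_
    have : k + 1 + j = k + (j + 1) := by ring
    rw [this]

/-- The times whose window of length `hh h₀ k` carries a large mass. -/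
def bad (h₀ η : ℝ) (k : ℕ) : Set ℝ :=
  {t | ENNReal.ofReal (η / hh h₀ k) < ∫⁻ τ in Ioo (t - hh h₀ k) t, f τ}

/-- The bad times are covered by the neighbours of the bad intervals. -/
lemma bad_vol (h : 0 < h₀) {η : ℝ} (hη : 0 < η) (k : ℕ) :
    volume (bad f h₀ η k) ≤ ENNReal.ofReal (2 * hh h₀ k) * ∑' m : ℤ, bc f h₀ (η / 2) k m := by
  have hk := hh_pos h k
  have hsub : bad f h₀ η k ⊆ ⋃ m : ℤ,
      {t | ENNReal.ofReal (η / 2 / hh h₀ k) < MM f h₀ k m ∧ (t ∈ II h₀ k m ∨ t ∈ II h₀ k (m + 1))} := by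
    intro t ht
    have ht' : ENNReal.ofReal (η / hh h₀ k) < ∫⁻ τ in Ioo (t - hh h₀ k) t, f τ := ht
    obtain ⟨m, hm⟩ : ∃ m : ℤ, m = ⌊t / hh h₀ k⌋ := ⟨_, rfl⟩
    have htm : t ∈ II h₀ k m := (mem_II h k m t).2 hm.symm
    have hcov : Ioo (t - hh h₀ k) t ⊆ II h₀ k (m - 1) ∪ II h₀ k m := by
      intro τ hτ
      have h1 : (m : ℝ) * hh h₀ k ≤ t := htm.1
      have h2 : t < (m + 1 : ℝ) * hh h₀ k := htm.2
      by_cases h3 : (m : ℝ) * hh h₀ k ≤ τ
      · right
        exact ⟨h3, hτ.2.trans h2⟩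
      · left
        push Not at h3
        refine ⟨?_, ?_⟩
        · push_cast
          linarith [hτ.1]
        · push_cast
          linarith
    have h1 : ∫⁻ τ in Ioo (t - hh h₀ k) t, f τ ≤ MM f h₀ k (m - 1) + MM f h₀ k m :=
      (lintegral_mono_set hcov).trans (lintegral_union_le f _ _)
    have h2 : ENNReal.ofReal (η / hh h₀ k)
        = ENNReal.ofReal (η / 2 / hh h₀ k) + ENNReal.ofReal (η / 2 / hh h₀ k) := by
      rw [← ENNReal.ofReal_add (by positivity) (by positivity)]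
      congr 1
      field_simp
      norm_num
    by_cases h3 : ENNReal.ofReal (η / 2 / hh h₀ k) < MM f h₀ k m
    · exact mem_iUnion.2 ⟨m, h3, Or.inl htm⟩
    · refine mem_iUnion.2 ⟨m - 1, ?_, Or.inr (by rw [sub_add_cancel]; exact htm)⟩
      by_contra h4
      push Not at h3 h4
      rw [h2] at ht'
      exact absurd (ht'.trans_le (h1.trans (add_le_add h4 h3))) (lt_irrefl _)
  refine (measure_mono hsub).trans ((measure_iUnion_le _).trans ?_)
  rw [← ENNReal.tsum_mul_left]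
  refine ENNReal.tsum_le_tsum fun m => ?_
  unfold bc
  split_ifs with h1
  · refine (measure_mono (show _ ⊆ II h₀ k m ∪ II h₀ k (m + 1) from fun t ht => ht.2)).trans ?_
    refine (measure_union_le _ _).trans ?_
    rw [vol_II, vol_II, mul_one, ← ENNReal.ofReal_add hk.le hk.le]
    exact ENNReal.ofReal_le_ofReal (by linarith)
  · rw [mul_zero, nonpos_iff_eq_zero]
    have : {t | ENNReal.ofReal (η / 2 / hh h₀ k) < MM f h₀ k m ∧
        (t ∈ II h₀ k m ∨ t ∈ II h₀ k (m + 1))} = ∅ := by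
      ext t
      simp only [mem_setOf_eq, mem_empty_iff_false, iff_false, not_and]
      intro h2
      exact absurd h2 h1
    rw [this, measure_empty]

/-- Finitely many scales. -/
lemma cov_fin (h : 0 < h₀) {η : ℝ} (hη : 0 < η) (n : ℕ) :
    ∑ k ∈ Finset.range n, ENNReal.ofReal (1 / hh h₀ k ^ 2) * volume (bad f h₀ η k)
      ≤ ENNReal.ofReal (16 / 3 / η) * ∫⁻ t, f t := by
  have h1 : ∀ k, ENNReal.ofReal (1 / hh h₀ k ^ 2) * volume (bad f h₀ η k)
      ≤ 2 * (ENNReal.ofReal (1 / hh h₀ k) * ∑' m : ℤ, bc f h₀ (η / 2) k m) := by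
    intro k
    have hk := hh_pos h k
    refine (mul_le_mul_right (bad_vol f h hη k) _).trans ?_
    rw [← mul_assoc, ← mul_assoc, ← ENNReal.ofReal_mul (by positivity)]
    have e : 1 / hh h₀ k ^ 2 * (2 * hh h₀ k) = 2 * (1 / hh h₀ k) := by
      field_simp
    rw [e, ENNReal.ofReal_mul (by norm_num)]
    simp
  refine (Finset.sum_le_sum fun k _ => h1 k).trans ?_
  rw [← Finset.mul_sum]
  have h2 := Ph_sum f (h₀ := h₀) (η / 2) n 0
  simp only [zero_add] at h2
  rw [← h2]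
  have h3 : ∑' m : ℤ, Ph f h₀ (η / 2) n 0 m
      ≤ ENNReal.ofReal (4 / 3 * (1 / (η / 2))) * ∫⁻ t, f t := by
    rw [← MM_sum f h, ← ENNReal.tsum_mul_left]
    refine ENNReal.tsum_le_tsum fun m => ?_
    by_cases h0 : Ph f h₀ (η / 2) n 0 m = 0
    · rw [h0]; exact zero_le
    · exact le_self_add.trans (Ph_le f h (by positivity) n 0 m h0)
  refine (mul_le_mul_right h3 2).trans ?_
  rw [← mul_assoc]
  have e : (2 : ℝ≥0∞) = ENNReal.ofReal 2 := by simp
  rw [e, ← ENNReal.ofReal_mul (by norm_num)]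
  gcongr
  apply le_of_eq
  field_simp
  norm_num

/-- All scales. -/
theorem cov1 (h : 0 < h₀) {η : ℝ} (hη : 0 < η) :
    ∑' k : ℕ, ENNReal.ofReal (1 / hh h₀ k ^ 2) * volume (bad f h₀ η k)
      ≤ ENNReal.ofReal (16 / 3 / η) * ∫⁻ t, f t := by
  rw [ENNReal.tsum_eq_iSup_nat]
  exact iSup_le fun n => cov_fin f h hη n

end

end Pool.Agent.Y7.Cov1
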