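import Pool.Agent.Y7.Der7
import Pool.Agent.Y7.RegW
import Pool.Agent.Y7.End7

/-!
The regularity scale of a field, and the norms of its derivatives (helper7).
-/

set_option autoImplicit false
set_option linter.unusedVariables false

open MeasureTheory Set Metric Filter Topology
open scoped ContDiff ENNReal NNReal

namespace Pool.Agent.Y7

open H459R3.NS W221.NS Pool.Agent.TH305.LW Pool.Agent.TH305.DR Pool.Agent.TH305.LG
open Pool.Agent.W583.MD (sm_pd)

/-- The vorticity, as an antisymmetric matrix. -/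
noncomputable def vort (v : V → V) (x : V) : Fin 3 → Fin 3 → ℝ :=
  fun i j => fderiv ℝ v x (Pi.single i 1) j - fderiv ℝ v x (Pi.single j 1) i

section
variable {F : Type*} [NormedAddCommGroup F] [NormedSpace ℝ F]

/-- The derivatives of all orders `≥ j` are bounded on the ball of radius `ρ`. -/
def RegBall (j : ℕ) (K : ℕ → ℝ) (ν : ℝ) (w : V → F) (x : V) (ρ : ℝ) : Prop :=
  0 < ρ ∧ ∀ y ∈ ball x ρ, ∀ n : ℕ, ‖iteratedFDeriv ℝ (n + j) w y‖ ≤ K n * ν / ρ ^ (n + 2)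

/-- The regularity scale to the power `-m`. -/
noncomputable def invSc (m j : ℕ) (K : ℕ → ℝ) (ν : ℝ) (w : V → F) (x : V) : ℝ≥0∞ :=
  ⨅ ρ : ℝ, ⨅ _ : RegBall j K ν w x ρ, ENNReal.ofReal (1 / ρ ^ m)

lemma invSc_mono {m j : ℕ} {K K' : ℕ → ℝ} (hK : ∀ n, K n ≤ K' n) {ν : ℝ} (hν : 0 < ν) (w : V → F)
    (x : V) : invSc m j K' ν w x ≤ invSc m j K ν w x := by
  refine le_iInf₂ fun ρ hρ => iInf₂_le ρ ⟨hρ.1, fun y hy n => ?_⟩
  refine (hρ.2 y hy n).trans ?_
  have := hρ.1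
  have := hK n
  gcongr

lemma der_gen {m j : ℕ} {K : ℕ → ℝ} {ν : ℝ} (hν : 0 < ν) (w : V → F) (x : V) (n : ℕ)
    (hK : 0 < K n) : ENNReal.ofReal (‖iteratedFDeriv ℝ (n + j) w x‖ ^ (m / (n + 2) : ℝ))
      ≤ ENNReal.ofReal ((K n * ν) ^ (m / (n + 2) : ℝ)) * invSc m j K ν w x := by
  have hc : 0 < (K n * ν) ^ (m / (n + 2) : ℝ) := Real.rpow_pos_of_pos (by positivity) _
  have hc0 : ENNReal.ofReal ((K n * ν) ^ (m / (n + 2) : ℝ)) ≠ 0 := ofR_ne hc
  rw [← ENNReal.div_le_iff' hc0 ENNReal.ofReal_ne_top]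
  refine le_iInf₂ fun ρ hρ => ?_
  have h0 := hρ.1
  have h1 := hρ.2 x (mem_ball_self h0) n
  rw [ENNReal.div_le_iff' hc0 ENNReal.ofReal_ne_top, ← ENNReal.ofReal_mul hc.le]
  apply ENNReal.ofReal_le_ofReal
  have hn : (0 : ℝ) < n + 2 := by positivity
  calc ‖iteratedFDeriv ℝ (n + j) w x‖ ^ (m / (n + 2) : ℝ)
      ≤ (K n * ν / ρ ^ (n + 2)) ^ (m / (n + 2) : ℝ) :=
        Real.rpow_le_rpow (norm_nonneg _) h1 (by positivity)
    _ = (K n * ν) ^ (m / (n + 2) : ℝ) * (1 / ρ ^ m) := by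
        rw [Real.div_rpow (by positivity) (by positivity), ← Real.rpow_natCast ρ (n + 2),
          ← Real.rpow_mul h0.le]
        have : ((n + 2 : ℕ) : ℝ) * (m / (n + 2)) = (m : ℕ) := by
          push_cast
          field_simp
        rw [this, Real.rpow_natCast, div_eq_mul_one_div]

end

lemma sum9_sq (a : Fin 3 → Fin 3 → ℝ) : (∑ i, ∑ j, a i j) ^ 2 ≤ 9 * ∑ i, ∑ j, a i j ^ 2 := by
  calc (∑ i, ∑ j, a i j) ^ 2 ≤ 3 * ∑ i, (∑ j, a i j) ^ 2 := sum3_sq _
    _ ≤ 3 * ∑ i, 3 * ∑ j, a i j ^ 2 := by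
        gcongr with i
        exact sum3_sq _
    _ = 9 * ∑ i, ∑ j, a i j ^ 2 := by
        rw [← Finset.mul_sum]
        ring

lemma vort_eq_Om {v : V → V} (hv : ContDiff ℝ ∞ v) (x : V) (i j : Fin 3) :
    vort v x i j = Om i j v x := by
  have h1 : ∀ i j : Fin 3, fderiv ℝ v x (Pi.single i 1) j = pd i (fun y => v y j) x := by
    intro i j
    have h1 := hasFDerivAt_pi'.1 ((hv.differentiable (by norm_cast)) x).hasFDerivAt j
    unfold pd
    rw [h1.fderiv]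
    rfl
  unfold vort Om
  rw [h1, h1]

lemma it_ST (n : ℕ) {v : V → V} (hv : ContDiff ℝ ∞ v) (x : V) :
    ‖iteratedFDeriv ℝ n (vort v) x‖ ^ 2 ≤ 9 * 3 ^ n * ST n v x := by
  have hvi : ∀ i, ContDiff ℝ ∞ (fun y => v y i) := fun i => contDiff_pi.1 hv i
  have hO : ∀ i j, ContDiff ℝ ∞ (Om i j v) := fun i j => (sm_pd (hvi j) i).sub (sm_pd (hvi i) j)
  have e : vort v = fun y => ∑ i : Fin 3, ∑ j : Fin 3, ((ContinuousLinearMap.toSpanSingleton ℝ
      (Pi.single i (Pi.single j (1 : ℝ)) : Fin 3 → Fin 3 → ℝ)) ∘ (Om i j v)) y := by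
    funext y
    ext k l
    rw [vort_eq_Om hv]
    simp only [Function.comp_apply, ContinuousLinearMap.toSpanSingleton_apply, Finset.sum_apply,
      Pi.smul_apply, smul_eq_mul]
    rw [Finset.sum_eq_single k, Finset.sum_eq_single l]
    · simp
    · intro j _ hj
      simp [Pi.single_apply, hj.symm]
    · simp
    · intro i _ hi
      refine Finset.sum_eq_zero fun j _ => ?_
      simp [Pi.single_apply, hi.symm]
    · simp
  have h1 : ∀ i j : Fin 3, ‖iteratedFDeriv ℝ n ((ContinuousLinearMap.toSpanSingleton ℝ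
      (Pi.single i (Pi.single j (1 : ℝ)) : Fin 3 → Fin 3 → ℝ)) ∘ (Om i j v)) x‖
      ≤ ‖iteratedFDeriv ℝ n (Om i j v) x‖ := by
    intro i j
    refine (ContinuousLinearMap.norm_iteratedFDeriv_comp_left _ (N := ∞) (hO i j).contDiffAt
      (by exact_mod_cast le_top)).trans ?_
    refine mul_le_of_le_one_left (norm_nonneg _) ?_
    rw [ContinuousLinearMap.norm_toSpanSingleton, Pi.norm_single, Pi.norm_single]
    simp
  have hc : ∀ i j : Fin 3, ContDiffAt ℝ n ((ContinuousLinearMap.toSpanSingleton ℝ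
      (Pi.single i (Pi.single j (1 : ℝ)) : Fin 3 → Fin 3 → ℝ)) ∘ (Om i j v)) x := fun i j =>
    (((ContinuousLinearMap.contDiff _).comp (hO i j)).of_le (by exact_mod_cast le_top)).contDiffAt
  have h2 : iteratedFDeriv ℝ n (vort v) x = ∑ i : Fin 3, ∑ j : Fin 3, iteratedFDeriv ℝ n
      ((ContinuousLinearMap.toSpanSingleton ℝ
      (Pi.single i (Pi.single j (1 : ℝ)) : Fin 3 → Fin 3 → ℝ)) ∘ (Om i j v)) x := by
    conv_lhs => rw [e]
    rw [iteratedFDeriv_fun_sum_apply (fun i _ => ContDiffAt.sum fun j _ => hc i j)]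
    exact Finset.sum_congr rfl fun i _ => iteratedFDeriv_fun_sum_apply (fun j _ => hc i j)
  have h3 : ∀ i j : Fin 3, ‖iteratedFDeriv ℝ n (Om i j v) x‖ ^ 2 ≤ 3 ^ n * SS n (Om i j v) x :=
    fun i j => it_SS n _ (hO i j) x
  calc ‖iteratedFDeriv ℝ n (vort v) x‖ ^ 2
      ≤ (∑ i : Fin 3, ∑ j : Fin 3, ‖iteratedFDeriv ℝ n (Om i j v) x‖) ^ 2 := by
        rw [h2]
        gcongr
        exact (norm_sum_le _ _).trans (Finset.sum_le_sum fun i _ =>
          (norm_sum_le _ _).trans (Finset.sum_le_sum fun j _ => h1 i j))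
    _ ≤ 9 * ∑ i : Fin 3, ∑ j : Fin 3, ‖iteratedFDeriv ℝ n (Om i j v) x‖ ^ 2 := sum9_sq _
    _ ≤ 9 * ∑ i : Fin 3, ∑ j : Fin 3, 3 ^ n * SS n (Om i j v) x := by
        gcongr with i _ j
        exact h3 i j
    _ = 9 * 3 ^ n * ST n v x := by
        simp only [← Finset.mul_sum]
        unfold Pool.Agent.TH305.DR.ST
        rw [Fintype.sum_prod_type]
        ring

/-- The vorticity of a multiple. -/
lemma vort_smul (c : ℝ) {v : V → V} (hv : ContDiff ℝ ∞ v) :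
    vort (fun x => c • v x) = fun x => c • vort v x := by
  funext x
  ext i j
  have h1 : fderiv ℝ (fun x => c • v x) x = c • fderiv ℝ v x :=
    fderiv_const_smul ((hv.differentiable (by norm_cast)) x) c
  unfold vort
  rw [h1]
  simp [mul_sub]

lemma vort_smooth {v : V → V} (hv : ContDiff ℝ ∞ v) : ContDiff ℝ ∞ (vort v) := by
  have hvi : ∀ i, ContDiff ℝ ∞ (fun y => v y i) := fun i => contDiff_pi.1 hv i
  have hO : ∀ i j, ContDiff ℝ ∞ (Om i j v) := fun i j => (sm_pd (hvi j) i).sub (sm_pd (hvi i) j)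
  refine contDiff_pi.2 fun i => contDiff_pi.2 fun j => ?_
  have : (fun x => vort v x i j) = Om i j v := by
    funext x
    exact vort_eq_Om hv x i j
  rw [this]
  exact hO i j

/-- From the sums of squares to the norms. -/
lemma regW_inv {K : ℕ → ℝ} (hK : ∀ n, 0 < K n) {ν : ℝ} (hν : 0 < ν) {v : V → V}
    (hv : ContDiff ℝ ∞ v) (x : V) :
    invSc 2 0 (fun n => √(9 * 3 ^ n * K n)) ν (vort v) x ≤ RegW K 1 (fun x => ν⁻¹ • v x) x := by
  refine le_iInf₂ fun ρ hρ => iInf₂_le ρ ⟨hρ.1, fun y hy n => ?_⟩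
  have h0 := hρ.1
  have hKn := hK n
  have h1 := hρ.2 y hy n
  have h2 := it_ST n (hv.const_smul ν⁻¹) y
  rw [vort_smul ν⁻¹ hv, iteratedFDeriv_const_smul_apply' (((vort_smooth hv).of_le
    (by exact_mod_cast le_top)).contDiffAt), norm_smul, norm_inv, Real.norm_eq_abs,
    abs_of_pos hν] at h2
  have h3 : ST n (fun x => ν⁻¹ • v x) y ≤ K n / ρ ^ (2 * n + 4) := by
    rw [le_div_iff₀ (by positivity)]
    linarith
  rw [add_zero]
  have h4 : ν⁻¹ * ‖iteratedFDeriv ℝ n (vort v) y‖ ≤ √(9 * 3 ^ n * K n) / ρ ^ (n + 2) := by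
    refine abs_le_of_sq_le_sq' ?_ (by positivity) |>.2
    calc (ν⁻¹ * ‖iteratedFDeriv ℝ n (vort v) y‖) ^ 2
        ≤ 9 * 3 ^ n * ST n (fun x => ν⁻¹ • v x) y := h2
      _ ≤ 9 * 3 ^ n * (K n / ρ ^ (2 * n + 4)) := by gcongr
      _ = (√(9 * 3 ^ n * K n) / ρ ^ (n + 2)) ^ 2 := by
          rw [div_pow, Real.sq_sqrt (by positivity), ← pow_mul]
          have : (n + 2) * 2 = 2 * n + 4 := by ring
          rw [this]
          ring
  rw [inv_mul_le_iff₀ hν] at h4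
  refine h4.trans (le_of_eq ?_)
  ring

end Pool.Agent.Y7
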