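import Pool.Agent.Y7.End7
import Pool.Agent.Y7.Der8
import Pool.Agent.TH305.AX.Dv

/-!
Axisymmetric fields: the regularity scale in terms of its integral and the distance to the axis
(helper7).
-/

set_option autoImplicit false
set_option linter.unusedVariables false

open MeasureTheory Set Metric Filter Topology
open scoped ContDiff ENNReal NNReal

namespace Pool.Agent.Y7.Ax

open H459R3.NS W221.NS Pool.Agent.TH305.LW Pool.Agent.TH305.DR Pool.Agent.TH305.LG Pool.Agent.Y7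
open Pool.Agent.TH305.AX

variable {K : ℕ → ℝ} {ν : ℝ} {v : V → V}

lemma adm_mono {x : V} {ρ ρ' : ℝ} (h : Adm K ν v x ρ) (h0 : 0 < ρ') (hle : ρ' ≤ ρ) :
    Adm K ν v x ρ' := by
  refine ⟨h0, fun y hy n => le_trans ?_ (h.2 y (ball_subset_ball hle hy) n)⟩
  have := SV_nn (n + 1) v y
  gcongr

lemma adm_shift {x z : V} {ρ ρ' : ℝ} (h : Adm K ν v x ρ) (h0 : 0 < ρ') (hz : dist z x < ρ - ρ') :
    Adm K ν v z ρ' := by
  have hle : ρ' ≤ ρ := by linarith [dist_nonneg (x := z) (y := x)]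
  refine ⟨h0, fun y hy n => le_trans ?_ (h.2 y ?_ n)⟩
  · have := SV_nn (n + 1) v y
    gcongr
  · rw [mem_ball] at hy ⊢
    linarith [dist_triangle y z x]

lemma reg_meas : Measurable (Reg K ν v) := by
  apply measurable_of_Iio
  intro c
  apply IsOpen.measurableSet
  rw [Metric.isOpen_iff]
  intro x hx
  have hx' : Reg K ν v x < c := hx
  unfold Reg at hx'
  rw [iInf_lt_iff] at hx'
  obtain ⟨ρ, hρ⟩ := hx'
  rw [iInf_lt_iff] at hρ
  obtain ⟨hA, hc⟩ := hρ
  have hρ0 := hA.1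
  have hcont : ContinuousAt (fun s : ℝ => ENNReal.ofReal (1 / s ^ 4)) ρ := by
    apply ENNReal.continuous_ofReal.continuousAt.comp
    apply ContinuousAt.div continuousAt_const (by fun_prop)
    positivity
  have h1 : ∀ᶠ s in 𝓝 ρ, ENNReal.ofReal (1 / s ^ 4) < c := hcont.eventually (gt_mem_nhds hc)
  have h2 : ∀ᶠ s in 𝓝[<] ρ, ENNReal.ofReal (1 / s ^ 4) < c := h1.filter_mono nhdsWithin_le_nhds
  obtain ⟨s, hs1, hs2⟩ := (h2.and (Ioo_mem_nhdsLT hρ0)).exists
  refine ⟨ρ - s, by linarith [hs2.2], fun z hz => ?_⟩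
  show Reg K ν v z < c
  exact lt_of_le_of_lt (reg_le (adm_shift hA hs2.1 hz)) hs1

/-- Away from the axis. -/
lemma ring_adm (hv : ContDiff ℝ ∞ v) (ha : Axi v) {a θ : ℝ} (ha0 : 0 < a) (hθ : 0 ≤ θ)
    (h2 : 2 * θ * a ^ 4 ≤ 1) {x : V}
    (hg : ∫⁻ y, (Reg K ν v y - ENNReal.ofReal θ)
      < ENNReal.ofReal ((√(sg x) + a) / (2048 * a ^ 2))) : Adm K ν v x (a / 4) := by
  have hρ : 0 ≤ √(sg x) := Real.sqrt_nonneg _
  obtain ⟨B, hB⟩ : ∃ B : Set V, B = {y | ENNReal.ofReal (1 / a ^ 4) ≤ Reg K ν v y} := ⟨_, rfl⟩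
  have hsub : B ⊆ {y | ENNReal.ofReal (1 / (2 * a ^ 4)) ≤ Reg K ν v y - ENNReal.ofReal θ} := by
    intro y hy
    rw [hB] at hy
    have hy1 : ENNReal.ofReal (1 / a ^ 4) ≤ Reg K ν v y := hy
    show ENNReal.ofReal (1 / (2 * a ^ 4)) ≤ Reg K ν v y - ENNReal.ofReal θ
    refine le_trans ?_ (tsub_le_tsub_right hy1 _)
    rw [← ENNReal.ofReal_sub _ hθ]
    apply ENNReal.ofReal_le_ofReal
    have h3 : θ ≤ 1 / (2 * a ^ 4) := by
      rw [le_div_iff₀ (by positivity)]
      linarith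
    have h4 : 1 / a ^ 4 = 2 * (1 / (2 * a ^ 4)) := by field_simp
    rw [h4]
    linarith
  have hm := mul_meas_ge_le_lintegral₀ (μ := (volume : Measure V))
    ((reg_meas (K := K) (ν := ν) (v := v)).sub_const (ENNReal.ofReal θ)).aemeasurable
    (ENNReal.ofReal (1 / (2 * a ^ 4)))
  have hvol : volume B < ENNReal.ofReal ((√(sg x) + a) * a ^ 2 / 1024) := by
    by_contra hcon
    rw [not_lt] at hcon
    have h5 := hcon.trans (measure_mono hsub)
    have h6 : ENNReal.ofReal ((√(sg x) + a) / (2048 * a ^ 2))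
        ≤ ENNReal.ofReal (1 / (2 * a ^ 4)) * volume
          {y | ENNReal.ofReal (1 / (2 * a ^ 4)) ≤ Reg K ν v y - ENNReal.ofReal θ} := by
      refine le_trans (le_of_eq ?_) (mul_le_mul_right h5 _)
      rw [← ENNReal.ofReal_mul (by positivity)]
      congr 1
      field_simp
      norm_num
    exact absurd (hg.trans_le (h6.trans hm)) (lt_irrefl _)
  obtain ⟨φ, y, hyB, hyx⟩ := ring_meas ha0 hvol
  have hy1 : Reg K ν v y < ENNReal.ofReal (1 / a ^ 4) := by
    rw [hB] at hyB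
    exact not_le.1 hyB
  unfold Reg at hy1
  rw [iInf_lt_iff] at hy1
  obtain ⟨ρ, hρ1⟩ := hy1
  rw [iInf_lt_iff] at hρ1
  obtain ⟨hA, hc⟩ := hρ1
  have hρ0 := hA.1
  have hρa : a ≤ ρ := by
    rw [ENNReal.ofReal_lt_ofReal_iff (by positivity)] at hc
    by_contra hcon
    rw [not_le] at hcon
    have : 1 / a ^ 4 ≤ 1 / ρ ^ 4 := by gcongr
    linarith
  have hA2 : Adm K ν v (rot φ x) (a / 2) := by
    refine adm_shift hA (by positivity) ?_
    rw [mem_ball] at hyx
    linarith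
  refine ⟨by positivity, fun z hz n => ?_⟩
  have hz2 : rot φ z ∈ ball (rot φ x) (a / 2) := by
    rw [mem_ball, dist_eq_norm] at hz ⊢
    have h3 : rot φ (z - x) = rot φ z - rot φ x := map_sub (rotL φ) _ _
    rw [← h3]
    have := rot_norm φ (z - x)
    linarith
  have h7 := hA2.2 _ hz2 n
  rw [SV_rot hv ha] at h7
  refine le_trans ?_ h7
  have := SV_nn (n + 1) v z
  gcongr
  norm_num

/-- The regularity scale at a point. -/
lemma slice (hv : ContDiff ℝ ∞ v) (ha : Axi v) {t D g : ℝ} (ht : 0 < t) (hD : 0 < D)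
    (hg0 : 0 ≤ g) (hg : ∫⁻ y, (Reg K ν v y - ENNReal.ofReal (D / t ^ 2)) ≤ ENNReal.ofReal g)
    (x : V) : ∃ b : ℝ, 0 < b ∧ Adm K ν v x b ∧
      (1 / b ^ 2 ≤ 16 * (2 * D + 1) / t ∨ (√(sg x) + b) / b ^ 2 ≤ 131072 * g) := by
  have hρ : 0 ≤ √(sg x) := Real.sqrt_nonneg _
  obtain ⟨ρ, hρd⟩ : ∃ ρ, ρ = √(sg x) := ⟨_, rfl⟩
  rw [← hρd] at hρ
  obtain ⟨a₂, ha₂⟩ : ∃ a₂ : ℝ, a₂ = √(t / (2 * D + 1)) := ⟨_, rfl⟩
  have ha₂0 : 0 < a₂ := by rw [ha₂]; positivity
  have ha₂2 : a₂ ^ 2 = t / (2 * D + 1) := by rw [ha₂, Real.sq_sqrt (by positivity)]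
  have hθ : 2 * (D / t ^ 2) * a₂ ^ 4 ≤ 1 := by
    have e : a₂ ^ 4 = (a₂ ^ 2) ^ 2 := by ring
    rw [e, ha₂2, div_pow]
    have e2 : 2 * (D / t ^ 2) * (t ^ 2 / (2 * D + 1) ^ 2) = 2 * D / (2 * D + 1) ^ 2 := by
      field_simp
    rw [e2, div_le_one (by positivity)]
    nlinarith
  rcases lt_or_ge (2048 * g) ((ρ + a₂) / a₂ ^ 2) with h | h
  · refine ⟨a₂ / 4, by positivity, ?_, Or.inl ?_⟩
    · refine ring_adm hv ha ha₂0 (by positivity) hθ (lt_of_le_of_lt hg ?_)
      rw [← hρd, ENNReal.ofReal_lt_ofReal_iff (by positivity)]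
      have e3 : (ρ + a₂) / (2048 * a₂ ^ 2) = (ρ + a₂) / a₂ ^ 2 / 2048 := by field_simp
      rw [e3, lt_div_iff₀ (by norm_num)]
      linarith
    · rw [div_pow, ha₂2]
      apply le_of_eq
      field_simp
      norm_num
  · have hg1 : 0 < g := by
      have : 0 < (ρ + a₂) / a₂ ^ 2 := by positivity
      linarith
    have h1 : ρ / a₂ ^ 2 ≤ 2048 * g := by
      refine le_trans ?_ h
      gcongr
      linarith
    have h2 : 1 / a₂ ≤ 2048 * g := by
      refine le_trans ?_ h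
      rw [div_le_div_iff₀ ha₂0 (by positivity)]
      nlinarith
    obtain ⟨a, haD⟩ : ∃ a : ℝ, a = max (√(ρ / (4096 * g))) (1 / (4096 * g)) := ⟨_, rfl⟩
    have hp : 0 < 1 / (4096 * g) := by positivity
    have ha0 : 0 < a := by rw [haD]; exact lt_max_of_lt_right hp
    have hs1 : √(ρ / (4096 * g)) ≤ a := by rw [haD]; exact le_max_left _ _
    have hs2 : 1 / (4096 * g) ≤ a := by rw [haD]; exact le_max_right _ _
    have hle : a ≤ a₂ := by
      rw [haD]
      apply max_le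
      · rw [Real.sqrt_le_left ha₂0.le, div_le_iff₀ (by positivity)]
        rw [div_le_iff₀ (by positivity)] at h1
        nlinarith [sq_nonneg a₂]
      · rw [div_le_iff₀ (by positivity)]
        rw [div_le_iff₀ ha₂0] at h2
        nlinarith
    have h3 : ρ / a ^ 2 ≤ 4096 * g := by
      rw [div_le_iff₀ (by positivity)]
      have h4 : ρ / (4096 * g) ≤ a ^ 2 := by
        calc ρ / (4096 * g) = √(ρ / (4096 * g)) ^ 2 := (Real.sq_sqrt (by positivity)).symm
          _ ≤ a ^ 2 := by gcongr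
      rw [div_le_iff₀ (by positivity)] at h4
      linarith
    have h5 : 1 / a ≤ 4096 * g := by
      rw [div_le_iff₀ ha0]
      rw [div_le_iff₀ (by positivity)] at hs2
      linarith
    have h6 : (ρ + a) / a ^ 2 ≤ 8192 * g := by
      have e : (ρ + a) / a ^ 2 = ρ / a ^ 2 + 1 / a := by field_simp
      rw [e]
      linarith
    have h7 : 2048 * g < (ρ + a) / a ^ 2 := by
      have e : (ρ + a) / a ^ 2 = ρ / a ^ 2 + 1 / a := by field_simp
      rw [e]
      rcases max_choice (√(ρ / (4096 * g))) (1 / (4096 * g)) with h8 | h8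
      · rw [← haD] at h8
        have h9 : a ^ 2 = ρ / (4096 * g) := by rw [h8, Real.sq_sqrt (by positivity)]
        have h10 : 0 < 1 / a := by positivity
        have h11 : ρ / a ^ 2 = 4096 * g := by
          have hρ0 : ρ ≠ 0 := by
            rintro rfl
            rw [zero_div] at h9
            exact absurd h9 (by positivity)
          rw [h9]
          field_simp
        linarith
      · rw [← haD] at h8
        have h11 : 1 / a = 4096 * g := by rw [h8, one_div_one_div]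
        have h10 : 0 ≤ ρ / a ^ 2 := by positivity
        linarith
    refine ⟨a / 4, by positivity, ?_, Or.inr ?_⟩
    · refine ring_adm hv ha ha0 (by positivity) ?_ (lt_of_le_of_lt hg ?_)
      · refine le_trans ?_ hθ
        gcongr
      · rw [← hρd, ENNReal.ofReal_lt_ofReal_iff (by positivity)]
        have e3 : (ρ + a) / (2048 * a ^ 2) = (ρ + a) / a ^ 2 / 2048 := by field_simp
        rw [e3, lt_div_iff₀ (by norm_num)]
        linarith
    · rw [← hρd]
      calc (ρ + a / 4) / (a / 4) ^ 2 = 16 * ((ρ + a / 4) / a ^ 2) := by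
            field_simp
            norm_num
        _ ≤ 16 * ((ρ + a) / a ^ 2) := by
            gcongr
            linarith
        _ ≤ 131072 * g := by linarith

end Pool.Agent.Y7.Ax
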