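import Pool.Agent.Y7.AxA

/-!
Axisymmetric flows: the endpoint estimates (helper7).
-/

set_option autoImplicit false
set_option linter.unusedVariables false

open MeasureTheory Set Metric Filter Topology
open scoped ContDiff ENNReal NNReal

namespace Pool.Agent.Y7.Ax

open H459R3.NS W221.NS Pool.Agent.TH305.LW Pool.Agent.TH305.DR Pool.Agent.TH305.LG Pool.Agent.Y7
open Pool.Agent.TH305.AX

variable {K : ℕ → ℝ} {ν : ℝ} {v : V → V}

lemma adm_ball (hK : ∀ n, 0 < K n) (hν : 0 < ν) (hv : ContDiff ℝ ∞ v) {x : V} {b : ℝ}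
    (h : Adm K 1 (fun x => ν⁻¹ • v x) x b) :
    RegBall 1 (fun n => √(3 ^ (n + 2) * K n)) ν v x b := by
  refine ⟨h.1, fun y hy n => ?_⟩
  have h0 := h.1
  have hKn := hK n
  have h1 := h.2 y hy n
  have h2 := it_SV (n + 1) (hv.const_smul ν⁻¹) y
  have h3 : SV (n + 1) (fun x => ν⁻¹ • v x) y ≤ K n / b ^ (2 * n + 4) := by
    rw [le_div_iff₀ (by positivity)]
    linarith
  have h4 : ‖iteratedFDeriv ℝ (n + 1) (fun x => ν⁻¹ • v x) y‖
      ≤ √(3 ^ (n + 2) * K n) / b ^ (n + 2) := by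
    refine abs_le_of_sq_le_sq' ?_ (by positivity) |>.2
    calc ‖iteratedFDeriv ℝ (n + 1) (fun x => ν⁻¹ • v x) y‖ ^ 2
        ≤ 3 ^ (n + 1 + 1) * SV (n + 1) (fun x => ν⁻¹ • v x) y := h2
      _ ≤ 3 ^ (n + 1 + 1) * (K n / b ^ (2 * n + 4)) := by gcongr
      _ = (√(3 ^ (n + 2) * K n) / b ^ (n + 2)) ^ 2 := by
          rw [div_pow, Real.sq_sqrt (by positivity), ← pow_mul]
          have : (n + 2) * 2 = 2 * n + 4 := by ring
          rw [this]
          ring
  rw [iteratedFDeriv_const_smul_apply' ((hv.of_le (by exact_mod_cast le_top)).contDiffAt),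
    norm_smul, norm_inv, Real.norm_eq_abs, abs_of_pos hν, inv_mul_le_iff₀ hν] at h4
  refine h4.trans (le_of_eq ?_)
  ring

lemma axi_smul (ha : Axi v) (c : ℝ) : Axi fun x => c • v x := by
  intro θ x
  show c • v (rot θ x) = rot θ (c • v x)
  rw [ha]
  exact (map_smul (rotL θ) c (v x)).symm

/-- The velocity at a point. -/
lemma vel (hν : 0 < ν) (hv : ContDiff ℝ ∞ v) (ha : Axi v) {E : ℝ} (hE : 0 ≤ E)
    (hint : IntegrableOn (nsq v) univ) (hen : ∫ x in univ, nsq v x ≤ E ^ 2) {x : V} {b : ℝ}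
    (h : RegBall 1 K ν v x b) :
    ‖v x‖ ^ 2 ≤ 2 * (K 0 * ν / b) ^ 2 + 96 * (E ^ 2 / (b ^ 2 * (√(sg x) + b))) := by
  have hb0 := h.1
  have hρ : 0 ≤ √(sg x) := Real.sqrt_nonneg _
  have hint' : Integrable (nsq v) := by rwa [integrableOn_univ] at hint
  have h0 : ∀ z, 0 ≤ nsq v z := fun z => Finset.sum_nonneg fun i _ => sq_nonneg _
  have h1 : ∫⁻ y, ENNReal.ofReal (nsq v y) ≤ ENNReal.ofReal (E ^ 2) := by
    rw [← ofReal_integral_eq_lintegral_ofReal hint' (Eventually.of_forall h0)]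
    rw [setIntegral_univ] at hen
    exact ENNReal.ofReal_le_ofReal hen
  have h2 := ring_en hv.continuous ha (by positivity) h1 (x := x) (r := b / 12) (by positivity)
  rw [show 6 * (b / 12) = b / 2 by ring] at h2
  have hvol : volume (ball x (b / 2)) = ENNReal.ofReal (b ^ 3) := by
    rw [Real.volume_pi_ball _ (by positivity)]
    congr 1
    simp
    ring
  have hvr : volume.real (ball x (b / 2)) = b ^ 3 := by
    rw [measureReal_def, hvol, ENNReal.toReal_ofReal (by positivity)]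
  obtain ⟨z, hz, hzle⟩ := exists_le_setAverage (μ := (volume : Measure V))
    (s := ball x (b / 2)) (f := nsq v)
    (by rw [hvol]; simpa using (show 0 < b ^ 3 by positivity))
    (by rw [hvol]; exact ENNReal.ofReal_ne_top) hint'.integrableOn
  rw [setAverage_eq, hvr, smul_eq_mul] at hzle
  have h3 : ∫ a in ball x (b / 2), nsq v a ≤ 48 * (b / 12) * E ^ 2 / (√(sg x) + b / 12) := by
    rw [← ENNReal.ofReal_le_ofReal_iff (by positivity), ofReal_integral_eq_lintegral_ofReal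
      hint'.integrableOn (Eventually.of_forall h0)]
    exact h2
  have h4 : nsq v z ≤ 48 * (E ^ 2 / (b ^ 2 * (√(sg x) + b))) := by
    refine hzle.trans ?_
    calc (b ^ 3)⁻¹ * ∫ a in ball x (b / 2), nsq v a
        ≤ (b ^ 3)⁻¹ * (48 * (b / 12) * E ^ 2 / (√(sg x) + b / 12)) := by gcongr
      _ ≤ (b ^ 3)⁻¹ * (48 * (b / 12) * E ^ 2 / ((√(sg x) + b) / 12)) := by
          gcongr
          linarith
      _ = _ := by
          field_simp
  have h5 : ‖v z‖ ^ 2 ≤ nsq v z := by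
    have h6 : ‖v z‖ ≤ √(nsq v z) := by
      rw [pi_norm_le_iff_of_nonneg (Real.sqrt_nonneg _)]
      intro i
      rw [Real.norm_eq_abs]
      apply Real.abs_le_sqrt
      exact Finset.single_le_sum (f := fun i => v z i ^ 2) (fun i _ => sq_nonneg _)
        (Finset.mem_univ i)
    calc ‖v z‖ ^ 2 ≤ √(nsq v z) ^ 2 := by gcongr
      _ = nsq v z := Real.sq_sqrt (h0 z)
  have h6 : ‖v x - v z‖ ≤ K 0 * ν / b := by
    have hx : x ∈ ball x b := mem_ball_self hb0
    have hzb : z ∈ ball x b := ball_subset_ball (by linarith) hz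
    have h7 := (convex_ball x b).norm_image_sub_le_of_norm_fderiv_le (𝕜 := ℝ) (f := v)
      (C := K 0 * ν / b ^ 2)
      (fun w _ => (hv.differentiable (by norm_cast)) w) (fun w hw => by
        have h8 := h.2 w hw 0
        rw [zero_add, norm_iteratedFDeriv_one] at h8
        exact h8) hzb hx
    have hK0 : 0 ≤ K 0 * ν / b ^ 2 := by
      have h8 := h.2 x hx 0
      exact (norm_nonneg _).trans h8
    have h9 : ‖x - z‖ ≤ b := by
      rw [← dist_eq_norm, dist_comm]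
      exact (mem_ball.1 hzb).le
    refine h7.trans ((mul_le_mul_of_nonneg_left h9 hK0).trans (le_of_eq ?_))
    field_simp
  have h10 : ‖v x‖ ≤ ‖v z‖ + K 0 * ν / b := by
    calc ‖v x‖ = ‖v z + (v x - v z)‖ := by rw [add_sub_cancel]
      _ ≤ ‖v z‖ + ‖v x - v z‖ := norm_add_le _ _
      _ ≤ _ := by linarith
  have h11 : ‖v x‖ ^ 2 ≤ (‖v z‖ + K 0 * ν / b) ^ 2 := by gcongr
  nlinarith [sq_nonneg (‖v z‖ - K 0 * ν / b)]

/-- The logarithm. -/
lemma log_int {t₀ T : ℝ} (ht₀ : 0 < t₀) (hT : t₀ < T) :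
    ∫⁻ t in Ioo t₀ T, ENNReal.ofReal (1 / t) = ENNReal.ofReal (Real.log (T / t₀)) := by
  have hc : ContinuousOn (fun t : ℝ => 1 / t) (Icc t₀ T) := by
    apply ContinuousOn.div continuousOn_const continuousOn_id
    intro t ht
    exact (ht₀.trans_le ht.1).ne'
  have hi : IntegrableOn (fun t : ℝ => 1 / t) (Ioo t₀ T) :=
    (hc.integrableOn_compact isCompact_Icc).mono_set Ioo_subset_Icc_self
  rw [← ofReal_integral_eq_lintegral_ofReal hi]
  · congr 1
    rw [← integral_Ioc_eq_integral_Ioo, ← intervalIntegral.integral_of_le hT.le,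
      integral_one_div_of_pos ht₀ (ht₀.trans hT)]
  · refine (ae_restrict_iff' measurableSet_Ioo).2 (Eventually.of_forall fun t ht => ?_)
    have : 0 < t := ht₀.trans ht.1
    positivity

/-- The endpoint estimates for axisymmetric flows. -/
theorem axF : ∃ C : ℝ, 0 < C ∧ ∃ K : ℕ → ℝ, (∀ n, 0 < K n) ∧
    ∀ (ν T E : ℝ) (u : ℝ → V → V) (p : ℝ → V → ℝ), 0 < ν → 0 ≤ E → OSol ν T E univ u p →
      (∀ t ∈ Ioo 0 T, Axi (u t)) →
      (∫⁻ t in Ioo 0 T, ⨆ x : V, ENNReal.ofReal (√(sg x)) *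
          (invSc 2 1 K ν (u t) x - ENNReal.ofReal (C / (ν * t)))
        ≤ ENNReal.ofReal (C / ν ^ 2) *
          ∫⁻ t in Ioo 0 T, ∫⁻ x, ENNReal.ofReal (‖fderiv ℝ (u t) x‖ ^ 2)) ∧
      ∀ L t₀ : ℝ, 0 < L → 0 < t₀ →
        (∀ n : ℕ, ∫⁻ t in Ioo t₀ T, ⨆ x ∈ {x : V | √(sg x) ≤ L}, ENNReal.ofReal (√(sg x) *
            ‖iteratedFDeriv ℝ (n + 1) (u t) x‖ ^ (2 / (n + 2) : ℝ))
          ≤ ENNReal.ofReal (C * (K n * ν) ^ (2 / (n + 2) : ℝ)) * (ENNReal.ofReal (1 / ν ^ 2) *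
            (∫⁻ t in Ioo 0 T, ∫⁻ x, ENNReal.ofReal (‖fderiv ℝ (u t) x‖ ^ 2))
              + ENNReal.ofReal (L / ν * Real.log (T / t₀)))) ∧
        ∫⁻ t in Ioo t₀ T, ⨆ x ∈ {x : V | √(sg x) ≤ L}, ENNReal.ofReal ((√(sg x) * ‖u t x‖) ^ 2)
          ≤ ENNReal.ofReal (C * (E ^ 2 + ν ^ 2 * L)) * (ENNReal.ofReal (1 / ν ^ 2) *
            (∫⁻ t in Ioo 0 T, ∫⁻ x, ENNReal.ofReal (‖fderiv ℝ (u t) x‖ ^ 2))
              + ENNReal.ofReal (L / ν * Real.log (T / t₀))) := by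
  obtain ⟨C₀, K₀, hC₀, hK₀, hcore⟩ := Pool.Agent.Y7.core
  obtain ⟨D, hD, H⟩ := whole1 hC₀ hcore
  obtain ⟨K, hKd⟩ : ∃ K : ℕ → ℝ, K = fun n => √(3 ^ (n + 2) * K₀ n) := ⟨_, rfl⟩
  have hK : ∀ n, 0 < K n := fun n => by
    rw [hKd]
    have := hK₀ n
    positivity
  obtain ⟨C₁, hC₁⟩ : ∃ C₁ : ℝ, C₁ = 16 * (2 * D + 1) + 131072 * (9 * D + 1) := ⟨_, rfl⟩
  have hC₁0 : 0 < C₁ := by rw [hC₁]; positivity
  have hCa : 16 * (2 * D + 1) ≤ C₁ := by rw [hC₁]; linarith
  have hCb : 131072 * (9 * D) ≤ C₁ := by rw [hC₁]; linarith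
  have hCc : 131072 ≤ C₁ := by rw [hC₁]; linarith
  obtain ⟨C, hCd⟩ : ∃ C : ℝ, C = C₁ * (2 * K 0 ^ 2 + 97) := ⟨_, rfl⟩
  have hCC : C₁ ≤ C := by
    rw [hCd]
    nlinarith [sq_nonneg (K 0)]
  have hC : 0 < C := hC₁0.trans_le hCC
  refine ⟨C, hC, K, hK, ?_⟩
  intro ν T E u p hν hE hS ha
  have hS1 := W221.NS.B.p_osc ν T E univ u p hν hS
  have h1 := H (ν * T) (E / ν) _ _ (div_nonneg hE hν.le) hS1
  have hu := hS.smooth_u
  obtain ⟨I, hI⟩ : ∃ I : ℝ≥0∞, I = ∫⁻ t in Ioo 0 T, ∫⁻ x, ENNReal.ofReal (‖fderiv ℝ (u t) x‖ ^ 2) :=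
    ⟨_, rfl⟩
  obtain ⟨G, hG⟩ : ∃ G : ℝ → ℝ≥0∞, G = fun t => ∫⁻ y, (Reg K₀ 1 (fun x => ν⁻¹ • u t x) y
      - ENNReal.ofReal (D / (ν * t) ^ 2)) := ⟨_, rfl⟩
  have h2 : ∫⁻ t in Ioo 0 T, G t ≤ ENNReal.ofReal D * ∫⁻ t in Ioo 0 T, ∫⁻ y,
        ENNReal.ofReal (gsq (fun x => ν⁻¹ • u t x) y) := by
    refine visc hν ?_
    refine le_trans (le_of_eq ?_) h1
    rw [hG]
    refine lintegral_congr fun t => lintegral_congr fun y => ?_
    rw [mul_div_cancel₀ t hν.ne']
  have h3 : ∫⁻ t in Ioo 0 T, G t ≤ ENNReal.ofReal (9 * D / ν ^ 2) * I := by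
    refine h2.trans ?_
    calc ENNReal.ofReal D * ∫⁻ t in Ioo 0 T, ∫⁻ y,
        ENNReal.ofReal (gsq (fun x => ν⁻¹ • u t x) y)
        ≤ ENNReal.ofReal D * ∫⁻ t in Ioo 0 T, ENNReal.ofReal (9 / ν ^ 2) *
          ∫⁻ y, ENNReal.ofReal (‖fderiv ℝ (u t) y‖ ^ 2) := by
          refine mul_le_mul_right (setLIntegral_mono' measurableSet_Ioo fun t ht => ?_) _
          rw [← lintegral_const_mul' _ _ ENNReal.ofReal_ne_top]
          refine lintegral_mono fun y => ?_
          rw [← ENNReal.ofReal_mul (by positivity)]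
          apply ENNReal.ofReal_le_ofReal
          rw [gsq_smul]
          have h3 := gsq_fd (slice_cd hu ht) y
          calc ν⁻¹ ^ 2 * gsq (u t) y ≤ ν⁻¹ ^ 2 * (9 * ‖fderiv ℝ (u t) y‖ ^ 2) := by gcongr
            _ = 9 / ν ^ 2 * ‖fderiv ℝ (u t) y‖ ^ 2 := by
                field_simp
      _ = _ := by
          rw [lintegral_const_mul' _ _ ENNReal.ofReal_ne_top, ← mul_assoc,
            ← ENNReal.ofReal_mul hD.le, hI]
          congr 2
          ring
  -- the bound at a point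
  have hpt : ∀ t ∈ Ioo 0 T, G t ≠ ⊤ → ∀ x : V, ∃ b : ℝ, 0 < b ∧ RegBall 1 K ν (u t) x b ∧
      (1 / b ^ 2 ≤ C₁ / (ν * t) ∨ (√(sg x) + b) / b ^ 2 ≤ 131072 * (G t).toReal) := by
    intro t ht hGt x
    have hus := slice_cd hu ht
    obtain ⟨b, hb0, hb1, hb2⟩ := slice (K := K₀) (ν := 1) (hus.const_smul ν⁻¹)
      (axi_smul (ha t ht) ν⁻¹) (mul_pos hν ht.1) hD ENNReal.toReal_nonneg (g := (G t).toReal) (by
        rw [ENNReal.ofReal_toReal hGt, hG]) x
    refine ⟨b, hb0, ?_, ?_⟩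
    · rw [hKd]
      exact adm_ball hK₀ hν hus hb1
    · rcases hb2 with h | h
      · left
        refine h.trans ?_
        have : 0 < ν * t := mul_pos hν ht.1
        gcongr
      · exact Or.inr h
  have hA : ∀ t ∈ Ioo 0 T, (⨆ x : V, ENNReal.ofReal (√(sg x)) *
      (invSc 2 1 K ν (u t) x - ENNReal.ofReal (C / (ν * t)))) ≤ ENNReal.ofReal 131072 * G t := by
    intro t ht
    have hνt : 0 < ν * t := mul_pos hν ht.1
    by_cases hGt : G t = ⊤
    · rw [hGt, ENNReal.mul_top]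
      · exact le_top
      · norm_num
    refine iSup_le fun x => ?_
    obtain ⟨b, hb0, hb1, hb2⟩ := hpt t ht hGt x
    have h4 : invSc 2 1 K ν (u t) x ≤ ENNReal.ofReal (1 / b ^ 2) := iInf₂_le b hb1
    rcases hb2 with h | h
    · have h5 : invSc 2 1 K ν (u t) x - ENNReal.ofReal (C / (ν * t)) = 0 := by
        apply tsub_eq_zero_of_le
        refine h4.trans (ENNReal.ofReal_le_ofReal (h.trans ?_))
        gcongr
      rw [h5, mul_zero]
      exact zero_le
    · calc ENNReal.ofReal (√(sg x)) * (invSc 2 1 K ν (u t) x - ENNReal.ofReal (C / (ν * t)))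
          ≤ ENNReal.ofReal (√(sg x)) * ENNReal.ofReal (1 / b ^ 2) :=
            mul_le_mul_right (tsub_le_self.trans h4) _
        _ = ENNReal.ofReal (√(sg x) / b ^ 2) := by
            rw [← ENNReal.ofReal_mul (Real.sqrt_nonneg _)]
            congr 1
            ring
        _ ≤ ENNReal.ofReal (131072 * (G t).toReal) := by
            apply ENNReal.ofReal_le_ofReal
            refine le_trans ?_ h
            gcongr
            linarith
        _ = ENNReal.ofReal 131072 * G t := by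
            rw [ENNReal.ofReal_mul (by norm_num), ENNReal.ofReal_toReal hGt]
  have hI1 : ∫⁻ t in Ioo 0 T, ⨆ x : V, ENNReal.ofReal (√(sg x)) *
          (invSc 2 1 K ν (u t) x - ENNReal.ofReal (C / (ν * t)))
        ≤ ENNReal.ofReal (C₁ / ν ^ 2) * I := by
    refine (setLIntegral_mono' measurableSet_Ioo hA).trans ?_
    rw [lintegral_const_mul' _ _ ENNReal.ofReal_ne_top]
    refine (mul_le_mul_right h3 _).trans ?_
    rw [← mul_assoc, ← ENNReal.ofReal_mul (by norm_num)]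
    refine mul_le_mul_left (ENNReal.ofReal_le_ofReal ?_) _
    rw [← mul_div_assoc]
    gcongr
  rw [← hI]
  refine ⟨hI1.trans (mul_le_mul_left (ENNReal.ofReal_le_ofReal (by gcongr)) _), ?_⟩
  intro L t₀ hL ht₀
  rcases le_or_gt T t₀ with hT | hT
  · rw [Ioo_eq_empty (not_lt.2 hT)]
    simp
  have hT0 : 0 < T := ht₀.trans hT
  have hlog : 0 < Real.log (T / t₀) := Real.log_pos (by rw [one_lt_div ht₀]; exact hT)
  have hsubI : Ioo t₀ T ⊆ Ioo 0 T := Ioo_subset_Ioo ht₀.le le_rfl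
  have hint : ∀ c : ℝ, 0 ≤ c → ∫⁻ t in Ioo t₀ T, ENNReal.ofReal (c / (ν * t))
      = ENNReal.ofReal (c / ν * Real.log (T / t₀)) := by
    intro c hc
    have e : ∀ t, ENNReal.ofReal (c / (ν * t)) = ENNReal.ofReal (c / ν) * ENNReal.ofReal (1 / t) := by
      intro t
      rw [← ENNReal.ofReal_mul (by positivity)]
      congr 1
      field_simp
    simp only [e]
    rw [lintegral_const_mul' _ _ ENNReal.ofReal_ne_top, log_int ht₀ hT,
      ← ENNReal.ofReal_mul (by positivity)]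
  have hmt : ∀ c : ℝ, Measurable fun t : ℝ => ENNReal.ofReal (c / (ν * t)) := by
    intro c
    fun_prop
  constructor
  · intro n
    have hKn := hK n
    have hcn : 0 < (K n * ν) ^ (2 / (n + 2) : ℝ) := Real.rpow_pos_of_pos (by positivity) _
    have h5 : ∀ t ∈ Ioo t₀ T, (⨆ x ∈ {x : V | √(sg x) ≤ L}, ENNReal.ofReal (√(sg x) *
            ‖iteratedFDeriv ℝ (n + 1) (u t) x‖ ^ (2 / (n + 2) : ℝ)))
        ≤ ENNReal.ofReal ((K n * ν) ^ (2 / (n + 2) : ℝ)) *
          ((⨆ x : V, ENNReal.ofReal (√(sg x)) *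
            (invSc 2 1 K ν (u t) x - ENNReal.ofReal (C / (ν * t))))
            + ENNReal.ofReal (L * C / (ν * t))) := by
      intro t ht
      have hνt : 0 < ν * t := mul_pos hν (ht₀.trans ht.1)
      refine iSup₂_le fun x hx => ?_
      have hxL : √(sg x) ≤ L := hx
      have h6 := der_gen (m := 2) (j := 1) hν (u t) x n hKn
      rw [show ((2 : ℕ) : ℝ) = 2 by norm_num] at h6
      rw [ENNReal.ofReal_mul (Real.sqrt_nonneg _)]
      calc ENNReal.ofReal (√(sg x)) *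
            ENNReal.ofReal (‖iteratedFDeriv ℝ (n + 1) (u t) x‖ ^ (2 / (n + 2) : ℝ))
          ≤ ENNReal.ofReal (√(sg x)) * (ENNReal.ofReal ((K n * ν) ^ (2 / (n + 2) : ℝ)) *
            ((invSc 2 1 K ν (u t) x - ENNReal.ofReal (C / (ν * t)))
              + ENNReal.ofReal (C / (ν * t)))) :=
            mul_le_mul_right (h6.trans (mul_le_mul_right le_tsub_add _)) _
        _ = ENNReal.ofReal ((K n * ν) ^ (2 / (n + 2) : ℝ)) * (ENNReal.ofReal (√(sg x)) *
            (invSc 2 1 K ν (u t) x - ENNReal.ofReal (C / (ν * t)))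
              + ENNReal.ofReal (√(sg x)) * ENNReal.ofReal (C / (ν * t))) := by ring
        _ ≤ _ := by
            refine mul_le_mul_right (add_le_add (le_iSup (fun x : V => ENNReal.ofReal (√(sg x)) *
            (invSc 2 1 K ν (u t) x - ENNReal.ofReal (C / (ν * t)))) x) ?_) _
            rw [← ENNReal.ofReal_mul (Real.sqrt_nonneg _)]
            apply ENNReal.ofReal_le_ofReal
            rw [mul_div_assoc]
            gcongr
    refine (setLIntegral_mono' measurableSet_Ioo h5).trans ?_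
    rw [lintegral_const_mul' _ _ ENNReal.ofReal_ne_top, lintegral_add_right _ (hmt _),
      hint _ (by positivity)]
    have e0 : ∀ Z : ℝ≥0∞, ENNReal.ofReal (C * (K n * ν) ^ (2 / (n + 2) : ℝ)) * Z
        = ENNReal.ofReal ((K n * ν) ^ (2 / (n + 2) : ℝ)) * (ENNReal.ofReal C * Z) := by
      intro Z
      rw [← mul_assoc, ← ENNReal.ofReal_mul hcn.le, mul_comm C]
    rw [e0]
    refine mul_le_mul_right ?_ _
    rw [mul_add, ← mul_assoc, ← ENNReal.ofReal_mul hC.le, ← ENNReal.ofReal_mul hC.le]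
    refine add_le_add ?_ (ENNReal.ofReal_le_ofReal (le_of_eq (by ring)))
    refine ((lintegral_mono_set hsubI).trans hI1).trans
      (mul_le_mul_left (ENNReal.ofReal_le_ofReal ?_) _)
    rw [mul_one_div]
    gcongr
  · have h5 : ∀ t ∈ Ioo t₀ T, (⨆ x ∈ {x : V | √(sg x) ≤ L}, ENNReal.ofReal
        ((√(sg x) * ‖u t x‖) ^ 2)) ≤ ENNReal.ofReal ((2 * K 0 ^ 2 + 97) * (E ^ 2 + ν ^ 2 * L)) *
          (ENNReal.ofReal 131072 * G t + ENNReal.ofReal (L * C₁ / (ν * t))) := by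
      intro t ht
      have ht0 := hsubI ht
      have hνt : 0 < ν * t := mul_pos hν ht0.1
      have hfac : 0 < (2 * K 0 ^ 2 + 97) * (E ^ 2 + ν ^ 2 * L) := by positivity
      by_cases hGt : G t = ⊤
      · rw [hGt, ENNReal.mul_top (by norm_num), top_add, ENNReal.mul_top (by
          rw [Ne, ENNReal.ofReal_eq_zero, not_le]
          exact hfac)]
        exact le_top
      refine iSup₂_le fun x hx => ?_
      have hxL : √(sg x) ≤ L := hx
      obtain ⟨ρ, hρd⟩ : ∃ ρ, ρ = √(sg x) := ⟨_, rfl⟩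
      have hρ : 0 ≤ ρ := by rw [hρd]; exact Real.sqrt_nonneg _
      obtain ⟨b, hb0, hb1, hb2⟩ := hpt t ht0 hGt x
      have h6 := vel hν (slice_cd hu ht0) (ha t ht0) hE (hS.en_int t ht0) (hS.en t ht0) hb1
      rw [← hρd] at hb2 h6 hxL ⊢
      have h7 : ρ / b ^ 2 ≤ 131072 * (G t).toReal + L * C₁ / (ν * t) := by
        have p1 : 0 ≤ 131072 * (G t).toReal := by
          have := ENNReal.toReal_nonneg (a := G t)
          positivity
        have p2 : 0 ≤ L * C₁ / (ν * t) := by positivity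
        rcases hb2 with h | h
        · have : ρ / b ^ 2 ≤ L * C₁ / (ν * t) := by
            calc ρ / b ^ 2 = ρ * (1 / b ^ 2) := by ring
              _ ≤ L * (C₁ / (ν * t)) := by gcongr
              _ = _ := by ring
          linarith
        · have : ρ / b ^ 2 ≤ (ρ + b) / b ^ 2 := by
            gcongr
            linarith
          linarith
      have h8 : (ρ * ‖u t x‖) ^ 2 ≤ (2 * K 0 ^ 2 + 97) * (E ^ 2 + ν ^ 2 * L) * (ρ / b ^ 2) := by
        have h9 : ρ ^ 2 * (E ^ 2 / (b ^ 2 * (ρ + b))) ≤ E ^ 2 * (ρ / b ^ 2) := by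
          have h10 : ρ ^ 2 / (ρ + b) ≤ ρ := by
            rw [div_le_iff₀ (by positivity)]
            nlinarith
          calc ρ ^ 2 * (E ^ 2 / (b ^ 2 * (ρ + b))) = E ^ 2 / b ^ 2 * (ρ ^ 2 / (ρ + b)) := by
                field_simp
            _ ≤ E ^ 2 / b ^ 2 * ρ := by gcongr
            _ = _ := by ring
        have h11 : ρ ^ 2 * (K 0 * ν / b) ^ 2 ≤ K 0 ^ 2 * (ν ^ 2 * L) * (ρ / b ^ 2) := by
          calc ρ ^ 2 * (K 0 * ν / b) ^ 2 = K 0 ^ 2 * (ν ^ 2 * ρ) * (ρ / b ^ 2) := by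
                field_simp
            _ ≤ _ := by gcongr
        have q : 0 ≤ ρ / b ^ 2 := by positivity
        have q1 : 0 ≤ E ^ 2 * (ρ / b ^ 2) := by positivity
        have q2 : 0 ≤ ν ^ 2 * L * (ρ / b ^ 2) := by positivity
        have q3 : 0 ≤ K 0 ^ 2 * (E ^ 2 * (ρ / b ^ 2)) := by positivity
        calc (ρ * ‖u t x‖) ^ 2 = ρ ^ 2 * ‖u t x‖ ^ 2 := by ring
          _ ≤ ρ ^ 2 * (2 * (K 0 * ν / b) ^ 2 + 96 * (E ^ 2 / (b ^ 2 * (ρ + b)))) := by gcongr
          _ = 2 * (ρ ^ 2 * (K 0 * ν / b) ^ 2) + 96 * (ρ ^ 2 * (E ^ 2 / (b ^ 2 * (ρ + b)))) := by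
              ring
          _ ≤ 2 * (K 0 ^ 2 * (ν ^ 2 * L) * (ρ / b ^ 2)) + 96 * (E ^ 2 * (ρ / b ^ 2)) := by
              gcongr
          _ ≤ _ := by nlinarith
      calc ENNReal.ofReal ((ρ * ‖u t x‖) ^ 2)
          ≤ ENNReal.ofReal ((2 * K 0 ^ 2 + 97) * (E ^ 2 + ν ^ 2 * L) *
            (131072 * (G t).toReal + L * C₁ / (ν * t))) := by
            apply ENNReal.ofReal_le_ofReal
            refine h8.trans ?_
            gcongr
        _ = _ := by
            rw [ENNReal.ofReal_mul hfac.le, ENNReal.ofReal_add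
              (by have := ENNReal.toReal_nonneg (a := G t); positivity) (by positivity),
              ENNReal.ofReal_mul (show (0 : ℝ) ≤ 131072 by norm_num), ENNReal.ofReal_toReal hGt]
    refine (setLIntegral_mono' measurableSet_Ioo h5).trans ?_
    rw [lintegral_const_mul' _ _ ENNReal.ofReal_ne_top, lintegral_add_right _ (hmt _),
      hint _ (by positivity), lintegral_const_mul' _ _ ENNReal.ofReal_ne_top]
    have e0 : ∀ Z : ℝ≥0∞, ENNReal.ofReal (C * (E ^ 2 + ν ^ 2 * L)) * Z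
        = ENNReal.ofReal ((2 * K 0 ^ 2 + 97) * (E ^ 2 + ν ^ 2 * L)) * (ENNReal.ofReal C₁ * Z) := by
      intro Z
      rw [← mul_assoc, ← ENNReal.ofReal_mul (by positivity), hCd]
      congr 2
      ring
    rw [e0]
    refine mul_le_mul_right ?_ _
    rw [mul_add, ← mul_assoc, ← ENNReal.ofReal_mul hC₁0.le, ← ENNReal.ofReal_mul hC₁0.le]
    refine add_le_add ?_ (ENNReal.ofReal_le_ofReal (le_of_eq (by ring)))
    refine (mul_le_mul_right ((lintegral_mono_set hsubI).trans h3) _).trans ?_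
    rw [← mul_assoc, ← ENNReal.ofReal_mul (by norm_num)]
    refine mul_le_mul_left (ENNReal.ofReal_le_ofReal ?_) _
    rw [← mul_div_assoc, mul_one_div]
    gcongr

end Pool.Agent.Y7.Ax
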