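import Pool.Agent.Y7.WbL
import Pool.Agent.W356.ME.CUT2

/-!
The flux through the unit cut-off at one time (helper7).
-/

set_option linter.all false

open MeasureTheory Set Metric
open scoped ContDiff

namespace Pool.Agent.Y7

open H459R3.NS W221.NS W162.MD W356.ME

theorem cut : ∃ C : ℝ, 0 < C ∧ ∀ (v W N : V → V) (P : V → ℝ) (G : ℝ), Sl v W N P G →
    |∫ z, nsq W z * adv v (fun y => kap y ^ 2) z| + |∫ z, P z * adv W (fun y => kap y ^ 2) z|
      ≤ C * G * √(∫ z, nsq W z * kap z ^ 2) := by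
  obtain ⟨CW, hCW, hWB⟩ := wb
  obtain ⟨C₀, hC₀, hC⟩ := exists_bound
  refine ⟨6 * C₀ * CW + 6 * C₀, by positivity, ?_⟩
  intro v W N P G hS
  have hv := hS.sv
  have hW := hS.sW
  have hPs := hS.sP
  obtain ⟨-, h3, h4, -⟩ := hWB v W N P G hS
  have hG : 0 ≤ G := hS.pos
  have ta := cub_le hC₀.le hC hv hW
  have tP := flux_le hC₀.le hC hW hPs.continuous
  obtain ⟨E, hE⟩ : ∃ E, E = ∫ z, nsq W z * kap z ^ 2 := ⟨_, rfl⟩
  rw [← hE] at ta tP ⊢
  have hsE : 0 ≤ √E := Real.sqrt_nonneg _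
  have hP2 : √(∫ z in ball (0 : V) 1, P z ^ 2) ≤ G := by
    rw [Real.sqrt_le_left hG]
    exact hS.nP
  have hL : √(√(L4 0 1 W) * √(L4 0 1 v)) ≤ CW * G := by
    rw [Real.sqrt_le_left (by positivity)]
    calc √(L4 0 1 W) * √(L4 0 1 v) ≤ (CW * G) * (CW * G) :=
          mul_le_mul h3 h4 (Real.sqrt_nonneg _) (by positivity)
      _ = _ := by ring
  have ta' : |∫ z, nsq W z * adv v (fun y => kap y ^ 2) z| ≤ 6 * C₀ * (CW * G * √E) := by
    refine ta.trans ?_
    apply mul_le_mul_of_nonneg_left _ (by positivity)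
    exact mul_le_mul_of_nonneg_right hL hsE
  have tP' : |∫ z, P z * adv W (fun y => kap y ^ 2) z| ≤ 6 * C₀ * (G * √E) := by
    refine tP.trans ?_
    apply mul_le_mul_of_nonneg_left _ (by positivity)
    exact mul_le_mul_of_nonneg_right hP2 hsE
  calc |∫ z, nsq W z * adv v (fun y => kap y ^ 2) z| + |∫ z, P z * adv W (fun y => kap y ^ 2) z|
      ≤ 6 * C₀ * (CW * G * √E) + 6 * C₀ * (G * √E) := add_le_add ta' tP'
    _ = (6 * C₀ * CW + 6 * C₀) * G * √E := by ring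

end Pool.Agent.Y7
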