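import Pool.Agent.Y7.EnL
import Pool.Agent.Y7.CutL
import Pool.Agent.W356.ME.BASE2
import Pool.Agent.W327.ME.HYP

/-!
The energy step: small `L⁴` oscillation implies small dissipation (helper7).
-/

set_option autoImplicit false
set_option linter.all false

open MeasureTheory Set Metric
open scoped ContDiff

namespace Pool.Agent.Y7

open H459R3.NS W221.NS W356.ME

lemma deriv_bound : ∃ C₁ : ℝ, 0 < C₁ ∧
    ∀ (v W : ℝ → V → V) (G : ℝ → ℝ) (ε : ℝ), HypL v W G ε → ∀ t ∈ Ioo (-1 : ℝ) 0,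
      ∃ D : ℝ, HasDerivAt (W605.MD.EE W) D t ∧
        D ≤ -2 * (∫ z, gsq (W t) z * W605.MD.PH t z) + C₁ * G t * (1 + √(W605.MD.EE W t)) := by
  obtain ⟨Ce, hCe⟩ : ∃ Ce : ℝ, Ce = 24 := ⟨24, rfl⟩
  have hCe0 : 0 < Ce := by rw [hCe]; norm_num
  obtain ⟨Cc, hCc, hcut⟩ := cut
  obtain ⟨Cw, hCw, hwb⟩ := wb
  obtain ⟨L, hL0, hL⟩ := W605.MD.lap_k2_bound
  obtain ⟨N, hN0, hN⟩ := W605.MD.dchi_bound
  refine ⟨(N + L) * Cw + 2 * Cc + Ce * (4 * √Cw + 3), by positivity, ?_⟩
  intro v W G ε hyp t ht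
  obtain ⟨P, hP⟩ := hyp.2.2.1 t ht
  have hG := hP.pos
  obtain ⟨D, hD, hle⟩ := en v W G hyp.2.1 (-1) 0 le_rfl le_rfl W605.MD.PH
    W605.MD.PH_smooth.contDiffOn (fun s _ z hz => PH_zero s hz) t ht
    (fun z => W605.MD.PH_nonneg t z) P hP
  rw [← hCe] at hle
  refine ⟨D, hD, ?_⟩
  have hW := hP.sW
  obtain ⟨hA, -, -, -⟩ := hwb _ _ _ _ _ hP
  have hEA := (EE_le W t hW).trans hA
  have hE0 := W605.MD.EE_nonneg W t
  have t1 : 0 ≤ ∫ z, gsq (W t) z * W605.MD.PH t z :=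
    integral_nonneg fun z => mul_nonneg (W605.MD.gsq_nonneg _ z) (W605.MD.PH_nonneg t z)
  have t2 := term2' hW hL (hN t ht)
  have t2' : (N + L) * A2 0 1 (W t) ≤ (N + L) * Cw * G t := by
    rw [mul_assoc]
    exact mul_le_mul_of_nonneg_left hA (by positivity)
  have c1 := W605.MD.chi_nonneg t
  have c2 := W605.MD.chi_le_one t
  have e3 : √(∫ z, nsq (W t) z * kap z ^ 2) * W605.MD.chi t = √(W605.MD.EE W t) := by
    rw [W605.MD.EE_eq, Real.sqrt_mul' _ (sq_nonneg _), Real.sqrt_sq c1]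
  have e4 : 0 ≤ √(∫ z, nsq (W t) z * kap z ^ 2) := Real.sqrt_nonneg _
  have e5 : 0 ≤ √(W605.MD.EE W t) := Real.sqrt_nonneg _
  have e6 : √(∫ z, nsq (W t) z * kap z ^ 2) * W605.MD.chi t ^ 2 ≤ √(W605.MD.EE W t) := by
    have : √(∫ z, nsq (W t) z * kap z ^ 2) * W605.MD.chi t ^ 2 =
      √(W605.MD.EE W t) * W605.MD.chi t := by rw [← e3]; ring
    rw [this]
    nlinarith
  have t3 : (∫ z, nsq (W t) z * adv (v t) (W605.MD.PH t) z)
      + 2 * (∫ z, P z * adv (W t) (W605.MD.PH t) z) ≤ 2 * (Cc * G t * √(W605.MD.EE W t)) := by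
    have a1 : ∀ (f : V → ℝ) (u : V → V), ∫ z, f z * adv u (W605.MD.PH t) z =
        (∫ z, f z * adv u (fun y => kap y ^ 2) z) * W605.MD.chi t ^ 2 := by
      intro f u
      rw [← integral_mul_const]
      apply integral_congr_ae
      filter_upwards with z
      have : adv u (W605.MD.PH t) z = adv u (fun y => kap y ^ 2) z * W605.MD.chi t ^ 2 :=
        W605.MD.adv_mul_const u W605.MD.k2_smooth _ z
      rw [this]; ring
    rw [a1, a1]
    have a2 := hcut (v t) (W t) _ P (G t) hP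
    obtain ⟨X, hX⟩ : ∃ X, X = ∫ z, nsq (W t) z * adv (v t) (fun y => kap y ^ 2) z := ⟨_, rfl⟩
    obtain ⟨Y, hY⟩ : ∃ Y, Y = ∫ z, P z * adv (W t) (fun y => kap y ^ 2) z := ⟨_, rfl⟩
    rw [← hX, ← hY] at a2 ⊢
    have a3 := le_abs_self X
    have a4 := le_abs_self Y
    have a5 := abs_nonneg X
    have a6 := sq_nonneg (W605.MD.chi t)
    have a7 : X + 2 * Y ≤ 2 * (Cc * G t * √(∫ z, nsq (W t) z * kap z ^ 2)) := by linarith
    calc X * W605.MD.chi t ^ 2 + 2 * (Y * W605.MD.chi t ^ 2) = (X + 2 * Y) * W605.MD.chi t ^ 2 := by ring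
      _ ≤ (2 * (Cc * G t * √(∫ z, nsq (W t) z * kap z ^ 2))) * W605.MD.chi t ^ 2 :=
          mul_le_mul_of_nonneg_right a7 a6
      _ = 2 * (Cc * G t) * (√(∫ z, nsq (W t) z * kap z ^ 2) * W605.MD.chi t ^ 2) := by ring
      _ ≤ 2 * (Cc * G t) * √(W605.MD.EE W t) := mul_le_mul_of_nonneg_left e6 (by positivity)
      _ = _ := by ring
  have hsG : 0 ≤ √(G t) := Real.sqrt_nonneg _
  have hsC : 0 ≤ √Cw := Real.sqrt_nonneg _
  have hsE : √(W605.MD.EE W t) ≤ √Cw * √(G t) := by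
    rw [← Real.sqrt_mul hCw.le]
    exact Real.sqrt_le_sqrt hEA
  have hGE : √(G t) * √(W605.MD.EE W t) ≤ √Cw * G t := by
    calc √(G t) * √(W605.MD.EE W t) ≤ √(G t) * (√Cw * √(G t)) := mul_le_mul_of_nonneg_left hsE hsG
      _ = √Cw * (√(G t) * √(G t)) := by ring
      _ = √Cw * G t := by rw [Real.mul_self_sqrt hG]
  have t4 : √(G t) * (∫ z, nsq (W t) z * W605.MD.PH t z) ≤ √Cw * G t * √(W605.MD.EE W t) := by
    have a1 : (∫ z, nsq (W t) z * W605.MD.PH t z) = √(W605.MD.EE W t) * √(W605.MD.EE W t) :=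
      (Real.mul_self_sqrt hE0).symm
    rw [a1, ← mul_assoc]
    exact mul_le_mul_of_nonneg_right hGE e5
  have t5 : (√(G t) + G t) * (∫ z, √(nsq (W t) z) * W605.MD.PH t z) ≤
      3 * (√Cw * G t) + 3 * (G t * √(W605.MD.EE W t)) := by
    calc (√(G t) + G t) * (∫ z, √(nsq (W t) z) * W605.MD.PH t z)
        ≤ (√(G t) + G t) * (3 * √(W605.MD.EE W t)) :=
          mul_le_mul_of_nonneg_left (lin_term W t hW) (by positivity)
      _ = 3 * (√(G t) * √(W605.MD.EE W t)) + 3 * (G t * √(W605.MD.EE W t)) := by ring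
      _ ≤ _ := by linarith
  have t6 := mul_le_mul_of_nonneg_left (add_le_add t4 t5) hCe0.le
  have hGE0 : 0 ≤ G t * √(W605.MD.EE W t) := mul_nonneg hG e5
  refine hle.trans ?_
  have hfin : (N + L) * Cw * G t + 2 * (Cc * G t * √(W605.MD.EE W t))
      + Ce * (√Cw * G t * √(W605.MD.EE W t) + (3 * (√Cw * G t) + 3 * (G t * √(W605.MD.EE W t))))
      ≤ ((N + L) * Cw + 2 * Cc + Ce * (4 * √Cw + 3)) * G t * (1 + √(W605.MD.EE W t)) := by
    have b1 : 0 ≤ (N + L) * Cw * (G t * √(W605.MD.EE W t)) := by positivity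
    have b2 : 0 ≤ Cc * G t := by positivity
    have b3 : 0 ≤ Ce * √Cw * G t := by positivity
    have b4 : 0 ≤ Ce * √Cw * (G t * √(W605.MD.EE W t)) := by positivity
    have b5 : 0 ≤ Ce * G t := by positivity
    nlinarith
  linarith

theorem base (h4 : S_CT) : ∃ C : ℝ, 0 < C ∧ ∀ ε : ℝ, 0 < ε → ε ≤ 1 →
    ∀ (v W : ℝ → V → V) (G : ℝ → ℝ), HypL v W G ε → ∀ t₁ ∈ Ioo (-9 / 16 : ℝ) 0,
      ∫ t in (-9 / 16)..t₁, B2 0 (3 / 4) (v t) ≤ C * ε := by
  obtain ⟨C₁, hC₁, hD⟩ := deriv_bound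
  obtain ⟨Cw, hCw, hwb⟩ := wb
  refine ⟨C₁ * (1 + √(2 * C₁ + C₁ ^ 2)) + 61, by positivity, ?_⟩
  intro ε hε hε1 v W G hyp t₁ ht₁
  have hyp' := hyp
  obtain ⟨-, -, hsl, hGi, hGe⟩ := hyp
  have hG0 : ∀ t ∈ Ioo (-1 : ℝ) 0, 0 ≤ G t := fun t ht => by
    obtain ⟨P, hP⟩ := hsl t ht
    exact hP.pos
  have hsub : Icc (-7 / 8 : ℝ) t₁ ⊆ Ioo (-1) 0 := by
    intro t ht
    exact ⟨by linarith [ht.1], by linarith [ht.2, ht₁.2]⟩
  have hcont : ContinuousOn (W605.MD.EE W) (Icc (-7 / 8 : ℝ) t₁) := by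
    intro t ht
    obtain ⟨D, hD1, _⟩ := hD v W G ε hyp' t (hsub ht)
    exact hD1.continuousAt.continuousWithinAt
  have hne : (Icc (-7 / 8 : ℝ) t₁).Nonempty := ⟨t₁, by linarith [ht₁.1], le_rfl⟩
  obtain ⟨ts, hts, hmax⟩ := isCompact_Icc.exists_isMaxOn hne hcont
  have hmax' : ∀ t ∈ Icc (-7 / 8 : ℝ) t₁, W605.MD.EE W t ≤ W605.MD.EE W ts := fun t ht => hmax ht
  have hS0 := W605.MD.EE_nonneg W ts
  have h0 : W605.MD.EE W (-7 / 8) = 0 := by
    rw [W605.MD.EE_eq, W605.MD.chi_zero (by norm_num)]; ring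
  have hsub2 : Icc (-7 / 8 : ℝ) ts ⊆ Icc (-7 / 8 : ℝ) t₁ := Icc_subset_Icc_right hts.2
  have hGi2 : IntegrableOn G (Icc (-7 / 8 : ℝ) ts) := hGi.mono_set (hsub2.trans hsub)
  have hkey : W605.MD.EE W ts - W605.MD.EE W (-7 / 8) ≤
      ∫ y in (-7 / 8)..ts, C₁ * (1 + √(W605.MD.EE W ts)) * G y := by
    choose! D hD1 hD2 using hD v W G ε hyp'
    apply intervalIntegral.sub_le_integral_of_hasDeriv_right_of_le (g' := D) hts.1
      (hcont.mono hsub2)
    · intro x hx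
      exact (hD1 x (hsub (hsub2 (Ioo_subset_Icc_self hx)))).hasDerivWithinAt
    · exact hGi2.const_mul _
    · intro x hx
      have hx' := hsub2 (Ioo_subset_Icc_self hx)
      refine (hD2 x (hsub hx')).trans ?_
      have e0 : 0 ≤ ∫ z, gsq (W x) z * W605.MD.PH x z :=
        integral_nonneg fun z => mul_nonneg (W605.MD.gsq_nonneg _ z) (W605.MD.PH_nonneg x z)
      refine (by linarith : _ ≤ C₁ * G x * (1 + √(W605.MD.EE W x))).trans ?_
      have e1 : √(W605.MD.EE W x) ≤ √(W605.MD.EE W ts) := Real.sqrt_le_sqrt (hmax' x hx')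
      have e2 := hG0 x (hsub hx')
      calc C₁ * G x * (1 + √(W605.MD.EE W x)) ≤ C₁ * G x * (1 + √(W605.MD.EE W ts)) :=
            mul_le_mul_of_nonneg_left (by linarith) (by positivity)
        _ = _ := by ring
  have hint : ∫ y in (-7 / 8)..ts, G y ≤ ε := by
    rw [intervalIntegral.integral_of_le hts.1]
    refine le_trans ?_ hGe
    apply setIntegral_mono_set hGi
    · exact (ae_restrict_iff' measurableSet_Ioo).2 (Filter.Eventually.of_forall hG0)
    · exact (Ioc_subset_Icc_self.trans (hsub2.trans hsub)).eventuallyLE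
  rw [intervalIntegral.integral_const_mul, h0, sub_zero] at hkey
  have hS : W605.MD.EE W ts ≤ (2 * C₁ + C₁ ^ 2) * ε := by
    obtain ⟨r, hr, hrS⟩ : ∃ r : ℝ, 0 ≤ r ∧ W605.MD.EE W ts = r ^ 2 :=
      ⟨√(W605.MD.EE W ts), Real.sqrt_nonneg _, (Real.sq_sqrt hS0).symm⟩
    rw [hrS, Real.sqrt_sq hr] at hkey
    rw [hrS]
    have e1 : C₁ * (1 + r) * ∫ y in (-7 / 8)..ts, G y ≤ C₁ * (1 + r) * ε :=
      mul_le_mul_of_nonneg_left hint (by positivity)
    have e2 : r ^ 2 ≤ C₁ * (1 + r) * ε := hkey.trans e1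
    have e3 : (C₁ * ε - r) ^ 2 ≥ 0 := sq_nonneg _
    have e4 : C₁ ^ 2 * ε ^ 2 ≤ C₁ ^ 2 * ε := by
      apply mul_le_mul_of_nonneg_left _ (by positivity)
      nlinarith
    nlinarith
  -- the dissipation
  have hSS : √(W605.MD.EE W ts) ≤ √(2 * C₁ + C₁ ^ 2) := by
    apply Real.sqrt_le_sqrt
    refine hS.trans ?_
    have : 0 ≤ 2 * C₁ + C₁ ^ 2 := by positivity
    nlinarith
  obtain ⟨S, hSd⟩ : ∃ S, S = √(2 * C₁ + C₁ ^ 2) := ⟨_, rfl⟩
  rw [← hSd] at hSS ⊢
  have hSn : 0 ≤ S := by rw [hSd]; exact Real.sqrt_nonneg _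
  have hW := hyp'.2.1
  have hdc : ContinuousOn (fun t => ∫ z, gsq (W t) z * W605.MD.PH t z) (Ioo (-1) 0) :=
    ((h4 (-1) 0 W hW).2 W605.MD.PH W605.MD.PH_smooth.contDiffOn
      (fun t _ z hz => PH_zero t hz)).2
  have hdci : IntegrableOn (fun t => ∫ z, gsq (W t) z * W605.MD.PH t z) (Icc (-7 / 8 : ℝ) t₁) :=
    (hdc.mono hsub).integrableOn_compact isCompact_Icc
  have hle1 : (-7 / 8 : ℝ) ≤ t₁ := by linarith [ht₁.1]
  have hGi1 : IntegrableOn G (Icc (-7 / 8 : ℝ) t₁) := hGi.mono_set hsub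
  have hkey2 : W605.MD.EE W t₁ - W605.MD.EE W (-7 / 8) ≤
      ∫ y in (-7 / 8)..t₁, (C₁ * (1 + S) * G y - 2 * ∫ z, gsq (W y) z * W605.MD.PH y z) := by
    choose! D hD1 hD2 using hD v W G ε hyp'
    apply intervalIntegral.sub_le_integral_of_hasDeriv_right_of_le (g' := D) hle1 hcont
    · intro x hx
      exact (hD1 x (hsub (Ioo_subset_Icc_self hx))).hasDerivWithinAt
    · exact (hGi1.const_mul _).sub (hdci.const_mul 2)
    · intro x hx
      have hx' := Ioo_subset_Icc_self hx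
      refine (hD2 x (hsub hx')).trans ?_
      have e1 : √(W605.MD.EE W x) ≤ S := (Real.sqrt_le_sqrt (hmax' x hx')).trans hSS
      have e2 := hG0 x (hsub hx')
      have e3 : C₁ * G x * (1 + √(W605.MD.EE W x)) ≤ C₁ * (1 + S) * G x := by
        calc C₁ * G x * (1 + √(W605.MD.EE W x)) ≤ C₁ * G x * (1 + S) :=
              mul_le_mul_of_nonneg_left (by linarith) (by positivity)
          _ = _ := by ring
      linarith
  have hi1 : IntervalIntegrable G volume (-7 / 8) t₁ :=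
    (intervalIntegrable_iff_integrableOn_Ioc_of_le hle1).2 (hGi1.mono_set Ioc_subset_Icc_self)
  have hi2 : IntervalIntegrable (fun t => ∫ z, gsq (W t) z * W605.MD.PH t z) volume (-7 / 8) t₁ :=
    (intervalIntegrable_iff_integrableOn_Ioc_of_le hle1).2 (hdci.mono_set Ioc_subset_Icc_self)
  rw [intervalIntegral.integral_sub (hi1.const_mul _) (hi2.const_mul _),
    intervalIntegral.integral_const_mul, intervalIntegral.integral_const_mul, h0, sub_zero] at hkey2
  have hint1 : ∫ y in (-7 / 8)..t₁, G y ≤ ε := by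
    rw [intervalIntegral.integral_of_le hle1]
    refine le_trans ?_ hGe
    apply setIntegral_mono_set hGi
    · exact (ae_restrict_iff' measurableSet_Ioo).2 (Filter.Eventually.of_forall hG0)
    · exact (Ioc_subset_Icc_self.trans hsub).eventuallyLE
  have hE0 := W605.MD.EE_nonneg W t₁
  have hdis : 2 * ∫ t in (-7 / 8)..t₁, ∫ z, gsq (W t) z * W605.MD.PH t z ≤ C₁ * (1 + S) * ε := by
    have : C₁ * (1 + S) * ∫ y in (-7 / 8)..t₁, G y ≤ C₁ * (1 + S) * ε :=
      mul_le_mul_of_nonneg_left hint1 (by positivity)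
    linarith
  have hpos : ∀ t, 0 ≤ ∫ z, gsq (W t) z * W605.MD.PH t z := fun t =>
    integral_nonneg fun z => mul_nonneg (W605.MD.gsq_nonneg _ z) (W605.MD.PH_nonneg t z)
  have hle2 : (-9 / 16 : ℝ) ≤ t₁ := ht₁.1.le
  have hsub3 : Icc (-9 / 16 : ℝ) t₁ ⊆ Icc (-7 / 8 : ℝ) t₁ := Icc_subset_Icc_left (by norm_num)
  have hdis2 : 2 * ∫ t in (-9 / 16)..t₁, ∫ z, gsq (W t) z * W605.MD.PH t z ≤ C₁ * (1 + S) * ε := by
    refine le_trans ?_ hdis
    refine mul_le_mul_of_nonneg_left ?_ (by norm_num)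
    rw [intervalIntegral.integral_of_le hle2, intervalIntegral.integral_of_le hle1]
    exact setIntegral_mono_set (hdci.mono_set Ioc_subset_Icc_self)
      (Filter.Eventually.of_forall hpos) (Ioc_subset_Ioc_left (by norm_num)).eventuallyLE
  -- from `W` to `v`
  have hpt : ∀ t ∈ Icc (-9 / 16 : ℝ) t₁,
      B2 0 (3 / 4) (v t) ≤ 2 * (∫ z, gsq (W t) z * W605.MD.PH t z) + 61 * G t := by
    intro t ht
    have ht1 : t ∈ Ioo (-1 : ℝ) 0 := hsub (hsub3 ht)
    obtain ⟨P, hP⟩ := hsl t ht1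
    have hsv := hP.sv
    have hsm := hP.sW
    have hg := (hwb _ _ _ _ _ hP).2.2.2
    have hPH : ∀ z, W605.MD.PH t z = W605.MD.k2 z := by
      intro z
      unfold W605.MD.PH
      rw [W605.MD.chi_one ht.1]
      ring
    have hcs : HasCompactSupport W605.MD.k2 :=
      HasCompactSupport.of_support_subset_isCompact (isCompact_closedBall (0 : V) 1)
        ((subset_tsupport _).trans W605.MD.k2_tsupport)
    have hgc : Continuous (gsq (W t)) := Pool.Agent.W327.ME.gsq_cont hsm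
    have hgv : Continuous (gsq (v t)) := Pool.Agent.W327.ME.gsq_cont hsv
    have hint2 : Integrable (fun z => gsq (W t) z * W605.MD.PH t z) := by
      simp_rw [hPH]
      exact (hgc.mul W605.MD.k2_cont).integrable_of_hasCompactSupport hcs.mul_left
    have e1 : B2 0 (3 / 4) (W t) ≤ ∫ z, gsq (W t) z * W605.MD.PH t z := by
      have e2 : B2 0 (3 / 4) (W t) = ∫ z in ball (0 : V) (3 / 4), gsq (W t) z * W605.MD.PH t z := by
        unfold B2
        apply setIntegral_congr_fun measurableSet_ball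
        intro z hz
        simp only
        rw [hPH, W605.MD.k2_one hz, mul_one]
      rw [e2]
      exact setIntegral_le_integral hint2 (Filter.Eventually.of_forall fun z =>
        mul_nonneg (W605.MD.gsq_nonneg _ z) (W605.MD.PH_nonneg t z))
    have e3 : B2 0 (3 / 4) (v t) ≤ 2 * B2 0 (3 / 4) (W t) + 61 * G t := by
      unfold B2
      have h1 : ∫ z in ball (0 : V) (3 / 4), gsq (v t) z ≤
          ∫ z in ball (0 : V) (3 / 4), (2 * gsq (W t) z + 18 * G t) := by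
        apply setIntegral_mono_on (W605.MD.intOn_ball hgv _)
          (W605.MD.intOn_ball ((continuous_const.mul hgc).add continuous_const) _) measurableSet_ball
        intro z hz
        exact hg z (ball_subset_ball (by norm_num) hz)
      refine h1.trans ?_
      rw [integral_add ((W605.MD.intOn_ball hgc _).const_mul 2)
        (W605.MD.intOn_ball continuous_const _), integral_const_mul, setIntegral_const,
        smul_eq_mul, Measure.real, Real.volume_pi_ball _ (by norm_num),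
        ENNReal.toReal_ofReal (by positivity)]
      have := hP.pos
      norm_num
      nlinarith
    linarith
  have hvi : IntegrableOn (fun t => B2 0 (3 / 4) (v t)) (Icc (-9 / 16 : ℝ) t₁) :=
    ((((h4 (-1) 0 v hyp'.1).1 0 (3 / 4)).2).mono (hsub3.trans hsub)).integrableOn_compact
      isCompact_Icc
  have hfin : ∫ t in (-9 / 16)..t₁, B2 0 (3 / 4) (v t) ≤
      ∫ t in (-9 / 16)..t₁, (2 * (∫ z, gsq (W t) z * W605.MD.PH t z) + 61 * G t) := by
    apply intervalIntegral.integral_mono_on hle2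
    · exact (intervalIntegrable_iff_integrableOn_Ioc_of_le hle2).2
        (hvi.mono_set Ioc_subset_Icc_self)
    · exact (intervalIntegrable_iff_integrableOn_Ioc_of_le hle2).2
        ((((hdci.mono_set hsub3).mono_set Ioc_subset_Icc_self).const_mul 2).add
          (((hGi1.mono_set hsub3).mono_set Ioc_subset_Icc_self).const_mul 61))
    · exact hpt
  have hi3 : IntervalIntegrable G volume (-9 / 16) t₁ :=
    (intervalIntegrable_iff_integrableOn_Ioc_of_le hle2).2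
      ((hGi1.mono_set hsub3).mono_set Ioc_subset_Icc_self)
  have hi4 : IntervalIntegrable (fun t => ∫ z, gsq (W t) z * W605.MD.PH t z) volume (-9 / 16) t₁ :=
    (intervalIntegrable_iff_integrableOn_Ioc_of_le hle2).2
      ((hdci.mono_set hsub3).mono_set Ioc_subset_Icc_self)
  rw [intervalIntegral.integral_add (hi4.const_mul _) (hi3.const_mul _),
    intervalIntegral.integral_const_mul, intervalIntegral.integral_const_mul] at hfin
  have hint3 : ∫ y in (-9 / 16)..t₁, G y ≤ ε := by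
    rw [intervalIntegral.integral_of_le hle2]
    refine le_trans ?_ hGe
    apply setIntegral_mono_set hGi
    · exact (ae_restrict_iff' measurableSet_Ioo).2 (Filter.Eventually.of_forall hG0)
    · exact (Ioc_subset_Icc_self.trans (hsub3.trans hsub)).eventuallyLE
  calc ∫ t in (-9 / 16)..t₁, B2 0 (3 / 4) (v t) ≤ C₁ * (1 + S) * ε + 61 * ε := by linarith
    _ = (C₁ * (1 + S) + 61) * ε := by ring

end Pool.Agent.Y7
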