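import Pool.Agent.Y7.HypL
import Pool.Agent.Y7.BaseL
import Pool.Agent.W221.NS.Asm2

/-!
The energy step for local solutions: small `L⁴` oscillation implies small dissipation (helper7).
-/

open MeasureTheory Set Metric
open scoped ContDiff

namespace Pool.Agent.Y7

open H459R3.NS W221.NS W221.NS.B

/-- Small `L⁴` oscillation implies small dissipation on a smaller ball at later times. -/
theorem enstep : ∃ C : ℝ, 0 < C ∧ ∀ (v : ℝ → V → V) (q : ℝ → V → ℝ), Loc2 v q → ∀ ε : ℝ, 0 < ε →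
    C * ε ≤ 1 → IntegrableOn (fun t => √(L4 0 4 (v t))) (Ioo (-1) 0) →
    ∫ t in Ioo (-1) 0, √(L4 0 4 (v t)) ≤ ε → ∀ t₁ ∈ Ioo (-9 / 16 : ℝ) 0,
      ∫ t in (-9 / 16)..t₁, B2 0 (3 / 4) (v t) ≤ C * ε := by
  obtain ⟨g, C0, hC0, hg⟩ := p_green
  obtain ⟨C1, hC1, h1⟩ := hyp p_tsm p_dec p_td p_harm hg
  obtain ⟨C2, hC2, h2⟩ := base p_ct
  refine ⟨C1 + C2 * C1, by positivity, ?_⟩
  intro v q hL ε hε hCε hint hle t₁ ht₁
  have e0 : 0 < C2 * C1 * ε := by positivity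
  have e1 : C1 * ε ≤ 1 := by nlinarith
  have h3 := h1 v q hL (C1 * ε) hint (mul_le_mul_of_nonneg_left hle hC1.le)
  have h4 := h2 (C1 * ε) (by positivity) e1 _ _ _ h3 t₁ ht₁
  have e2 : 0 < C1 * ε := by positivity
  nlinarith

end Pool.Agent.Y7
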