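import Pool.Agent.Y7.Ns
import Pool.Agent.Y7.EnStep
import Pool.Agent.TH305.LG.Stay
import Pool.Agent.TH305.LG.Tube

/-!
Particle paths and the paths of the mollified velocity stay close (helper7).
-/

set_option autoImplicit false
set_option linter.unusedVariables false

open MeasureTheory Set Metric Filter Topology
open scoped ContDiff ENNReal NNReal

namespace Pool.Agent.Y7

open H459R3.NS W221.NS Pool.Agent.TH305.LW

lemma aem_path {T R₀ : ℝ} {u : ℝ → V → V}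
    (hu : ContDiffOn ℝ ∞ (fun z : ℝ × V => u z.1 z.2) (Ioo 0 T ×ˢ univ)) {a b : ℝ} (ha : 0 ≤ a)
    (hb : b ≤ T) {ξ : ℝ → V} (hξ : ContinuousOn ξ (Ioo a b)) :
    AEMeasurable (fun τ => Fx R₀ (u τ) (ξ τ)) (volume.restrict (Ioo a b)) := by
  have h1 : AEMeasurable (fun τ => (τ, ξ τ)) (volume.restrict (Ioo a b)) :=
    aemeasurable_id.prodMk (hξ.aemeasurable measurableSet_Ioo)
  have h2 := (Ft_meas R₀ hu).comp_aemeasurable h1
  refine h2.congr ?_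
  refine (ae_restrict_iff' measurableSet_Ioo).2 (Eventually.of_forall fun τ hτ => ?_)
  exact Ft_eq R₀ u ⟨ha.trans_lt hτ.1, hτ.2.trans_le hb⟩ (ξ τ)

/-- The square root of the function along a path. -/
lemma half {T R₀ : ℝ} {u : ℝ → V → V}
    (hu : ContDiffOn ℝ ∞ (fun z : ℝ × V => u z.1 z.2) (Ioo 0 T ×ˢ univ)) {s h η : ℝ} (hh : 0 < h)
    (hη : 0 ≤ η) (ha : 0 ≤ s - h) (hb : s ≤ T) {ξ : ℝ → V} (hξ : ContinuousOn ξ (Ioo (s - h) s))
    (hI : ∫⁻ τ in Ioo (s - h) s, Fx R₀ (u τ) (ξ τ) ≤ ENNReal.ofReal (η / h)) :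
    ∫⁻ τ in Ioo (s - h) s, Fx R₀ (u τ) (ξ τ) ^ (1 / 2 : ℝ) ≤ ENNReal.ofReal (√η) := by
  have hm := (aem_path (R₀ := R₀) hu ha hb hξ).pow_const (1 / 2 : ℝ)
  have h1 := Poi.jensen (p := 2) (by norm_num) hm
  have e1 : ∀ τ, (Fx R₀ (u τ) (ξ τ) ^ (1 / 2 : ℝ)) ^ (2 : ℝ) = Fx R₀ (u τ) (ξ τ) := by
    intro τ
    rw [← ENNReal.rpow_mul]
    norm_num
  simp_rw [e1] at h1
  rw [Measure.restrict_apply_univ, Real.volume_Ioo] at h1
  have e2 : s - (s - h) = h := by ring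
  have e3 : (2 : ℝ) - 1 = 1 := by norm_num
  rw [e2, e3, ENNReal.rpow_one] at h1
  have h2 : (∫⁻ τ in Ioo (s - h) s, Fx R₀ (u τ) (ξ τ) ^ (1 / 2 : ℝ)) ^ (2 : ℝ)
      ≤ ENNReal.ofReal η := by
    refine h1.trans ((mul_le_mul_right hI _).trans ?_)
    rw [← ENNReal.ofReal_mul hh.le]
    apply ENNReal.ofReal_le_ofReal
    rw [mul_div_cancel₀ _ hh.ne']
  have h3 := ENNReal.rpow_le_rpow h2 (show (0 : ℝ) ≤ 1 / 2 by norm_num)
  rw [← ENNReal.rpow_mul, ENNReal.ofReal_rpow_of_nonneg hη (by norm_num), ← Real.sqrt_eq_rpow] at h3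
  norm_num at h3
  norm_num
  exact h3

/-- A cut-off of the distance. -/
noncomputable def cφ (δ d : ℝ) : ℝ := min 1 (max 0 (2 - d / δ))

/-- Particle paths and the paths of the mollified velocity stay close. -/
theorem close : ∃ K : ℝ, 0 < K ∧ ∀ (T : ℝ) (u : ℝ → V → V) (p : ℝ → V → ℝ), NSol T u p →
    ∀ R₀ : ℝ, 0 < R₀ → ∀ (m : ℕ) (s h : ℝ), 0 < h → 0 < s - h → s < T → ∀ ξ : ℝ → V,
      ContinuousOn ξ (Icc (s - h) s) → (∀ τ ∈ Ioo (s - h) s, HasDerivAt ξ (u τ (ξ τ)) τ) →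
      ∀ Y : ℝ → V, Y s = ξ s → Pth (sc R₀ m) u (s - h) s Y →
      ENNReal.ofReal K * ∫⁻ τ in Ioo (s - h) s, Fx R₀ (u τ) (ξ τ) ^ (1 / 2 : ℝ)
        ≤ ENNReal.ofReal (1 / 16) →
      ∀ τ ∈ Ioc (s - h) s, ‖ξ τ - Y τ‖ ≤ sc R₀ m / 16 := by
  obtain ⟨K, hK, hml⟩ := mlb
  refine ⟨K, hK, ?_⟩
  intro T u p hN R₀ hR₀ m s h hh hsh hsT ξ hξ hξd Y hYs hY hI
  have hρ := sc_pos hR₀ m
  obtain ⟨ρ, hρd⟩ : ∃ ρ, ρ = sc R₀ m := ⟨_, rfl⟩
  rw [← hρd] at hρ hY ⊢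
  have hmaps : ∀ τ ∈ Icc (s - h) s, τ ∈ Ioo 0 T := fun τ hτ => ⟨hsh.trans_le hτ.1,
    hτ.2.trans_lt hsT⟩
  obtain ⟨w, hw⟩ : ∃ w : ℝ → V, w = fun τ => u τ (ξ τ) - mol ρ u τ (Y τ) := ⟨_, rfl⟩
  have hwc : ContinuousOn w (Icc (s - h) s) := by
    rw [hw]
    apply ContinuousOn.sub
    · exact hN.smooth_u.continuousOn.comp (f := fun τ : ℝ => (τ, ξ τ))
        (continuousOn_id.prodMk hξ) (fun τ hτ => ⟨hmaps τ hτ, mem_univ _⟩)
    · exact (mol_smooth hN.smooth_u ρ).continuousOn.comp (f := fun τ : ℝ => (τ, Y τ))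
        (continuousOn_id.prodMk hY.cont) (fun τ hτ => ⟨hmaps τ hτ, mem_univ _⟩)
  have hδ : 0 < ρ / 8 := by positivity
  obtain ⟨g, hg⟩ : ∃ g : ℝ → ℝ, g = fun τ => cφ (ρ / 8) ‖ξ τ - Y τ‖ * ‖w τ‖ := ⟨_, rfl⟩
  have hφc : Continuous (cφ (ρ / 8)) := by
    unfold cφ
    fun_prop
  have hφ0 : ∀ d, 0 ≤ cφ (ρ / 8) d := fun d => le_min zero_le_one (le_max_left _ _)
  have hφ1 : ∀ d, cφ (ρ / 8) d ≤ 1 := fun d => min_le_left _ _
  have hgc : ContinuousOn g (Icc (s - h) s) := by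
    rw [hg]
    exact (hφc.comp_continuousOn (hξ.sub hY.cont).norm).mul hwc.norm
  have hg0 : ∀ τ, 0 ≤ g τ := by
    intro τ
    rw [hg]
    exact mul_nonneg (hφ0 _) (norm_nonneg _)
  have hst := Pool.Agent.TH305.LG.stay (ξ := ξ) (Y := Y) (s := s) (h := h) (ρ := ρ / 8) hh hδ
    (g := g) hgc (fun τ _ => hg0 τ) hξ hY.cont hYs.symm ?_ ?_
  · intro τ hτ
    refine (hst τ hτ).trans (le_of_eq ?_)
    ring
  · intro τ hτ
    refine ⟨u τ (ξ τ), mol ρ u τ (Y τ), hξd τ hτ, hY.ode τ hτ, fun hlt => ?_⟩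
    rw [hg, hw]
    simp only
    have h1 : cφ (ρ / 8) ‖ξ τ - Y τ‖ = 1 := by
      unfold cφ
      apply min_eq_left
      apply le_max_of_le_right
      have : ‖ξ τ - Y τ‖ / (ρ / 8) ≤ 1 := by
        rw [div_le_one hδ]
        exact hlt.le
      linarith
    rw [h1, one_mul]
  · have hpt : ∀ τ ∈ Ioo (s - h) s, ENNReal.ofReal (g τ)
        ≤ ENNReal.ofReal (K * ρ) * Fx R₀ (u τ) (ξ τ) ^ (1 / 2 : ℝ) := by
      intro τ hτ
      by_cases hd : ‖ξ τ - Y τ‖ ≤ ρ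
      · have h1 := hml R₀ hR₀ (u τ) (slice_cd hN.smooth_u (hmaps τ (Ioo_subset_Icc_self hτ))) m
          (ξ τ) (Y τ) (by rw [norm_sub_rev, ← hρd]; exact hd)
        rw [← hρd] at h1
        refine le_trans (ENNReal.ofReal_le_ofReal ?_) h1
        rw [hg, hw]
        simp only
        rw [mol_eq, norm_sub_rev (u τ (ξ τ))]
        exact mul_le_of_le_one_left (norm_nonneg _) (hφ1 _)
      · have h1 : g τ = 0 := by
          rw [hg]
          simp only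
          have : cφ (ρ / 8) ‖ξ τ - Y τ‖ = 0 := by
            unfold cφ
            have h2 : 2 - ‖ξ τ - Y τ‖ / (ρ / 8) ≤ 0 := by
              push Not at hd
              have : 2 ≤ ‖ξ τ - Y τ‖ / (ρ / 8) := by
                rw [le_div_iff₀ hδ]
                linarith
              linarith
            rw [max_eq_left h2]
            exact min_eq_right zero_le_one
          rw [this, zero_mul]
        rw [h1, ENNReal.ofReal_zero]
        exact zero_le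
    have hle : s - h ≤ s := by linarith
    rw [intervalIntegral.integral_of_le hle, integral_Ioc_eq_integral_Ioo]
    have hgi : IntegrableOn g (Ioo (s - h) s) :=
      (hgc.integrableOn_compact isCompact_Icc).mono_set Ioo_subset_Icc_self
    rw [← ENNReal.ofReal_le_ofReal_iff (by positivity),
      ofReal_integral_eq_lintegral_ofReal hgi (Eventually.of_forall hg0)]
    refine (setLIntegral_mono' measurableSet_Ioo hpt).trans ?_
    rw [lintegral_const_mul' _ _ ENNReal.ofReal_ne_top, mul_comm K ρ, ENNReal.ofReal_mul hρ.le,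
      mul_assoc]
    refine (mul_le_mul_right hI _).trans ?_
    rw [← ENNReal.ofReal_mul hρ.le]
    apply ENNReal.ofReal_le_ofReal
    linarith

end Pool.Agent.Y7
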