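import Pool.Agent.Y7.Ns
import Pool.Agent.TH305.LG.Peri

/-!
The flow of a solution, forwards and backwards (helper7).
-/

set_option autoImplicit false
set_option linter.unusedVariables false

open MeasureTheory Set Metric Filter Topology
open scoped ContDiff ENNReal NNReal

namespace Pool.Agent.Y7

open H459R3.NS W221.NS Pool.Agent.TH305.LW Pool.Agent.TH305.DR Pool.Agent.TH305.LG

/-- Uniqueness of the trajectories with a given final position. -/
theorem traj_fin {K : ℝ≥0} {u : ℝ → V → V} {t₁ t₂ : ℝ}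
    (hK : ∀ t ∈ Ioo t₁ t₂, LipschitzWith K (u t)) {ξ η : ℝ → V}
    (hξ : Traj u t₁ t₂ ξ) (hη : Traj u t₁ t₂ η) (h0 : ξ t₂ = η t₂) :
    ∀ t ∈ Icc t₁ t₂, ξ t = η t := by
  have hm : ∀ τ ∈ Ioo t₁ t₂, t₁ + t₂ - τ ∈ Ioo t₁ t₂ := fun τ hτ => ⟨by linarith [hτ.2], by
    linarith [hτ.1]⟩
  have hmc : ∀ τ ∈ Icc t₁ t₂, t₁ + t₂ - τ ∈ Icc t₁ t₂ := fun τ hτ => ⟨by linarith [hτ.2], by
    linarith [hτ.1]⟩
  have rev : ∀ ζ : ℝ → V, Traj u t₁ t₂ ζ →
      Traj (fun τ x => -u (t₁ + t₂ - τ) x) t₁ t₂ (fun τ => ζ (t₁ + t₂ - τ)) := by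
    intro ζ hζ
    refine ⟨hζ.cont.comp (by fun_prop) hmc, fun t ht => ?_⟩
    have h4 : HasDerivAt (fun t : ℝ => t₁ + t₂ - t) (-1) t := by
      simpa using (hasDerivAt_id t).const_sub (t₁ + t₂)
    have h5 := (hζ.ode (t₁ + t₂ - t) (hm t ht)).scomp t h4
    simp only [neg_smul, one_smul] at h5
    exact h5
  have hlip : ∀ t ∈ Ioo t₁ t₂, LipschitzWith K (fun x => -u (t₁ + t₂ - t) x) := fun t ht =>
    (hK _ (hm t ht)).neg
  intro t ht
  have := traj_unique hlip (rev ξ hξ) (rev η hη) (by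
    show ξ (t₁ + t₂ - t₁) = η (t₁ + t₂ - t₁)
    rw [add_sub_cancel_left]
    exact h0) (t₁ + t₂ - t) (hmc t ht)
  simpa using this

section
variable {T : ℝ} {u : ℝ → V → V} {p : ℝ → V → ℝ}

/-- The flow labelled by the initial positions. -/
theorem flowJ (h : NSol T u p) {t₁ t₂ : ℝ} (h1 : 0 < t₁) (h12 : t₁ < t₂) (h2 : t₂ < T) :
    ∃ F : ℝ → V → V, (∀ a, F t₁ a = a) ∧ (∀ a, Traj u t₁ t₂ (fun t => F t a)) ∧
      ContinuousOn (fun z : ℝ × V => F z.1 z.2) (Icc t₁ t₂ ×ˢ univ) ∧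
      ∀ s ∈ Icc t₁ t₂, Measure.map (F s) volume ≤ volume := by
  obtain ⟨c, hc⟩ : ∃ c, c = t₁ / 2 := ⟨_, rfl⟩
  obtain ⟨d, hd⟩ : ∃ d, d = (t₂ + T) / 2 := ⟨_, rfl⟩
  have hu := h.smooth_u
  obtain ⟨M, hM0, hMb⟩ := h.bdd c d (by linarith) (by linarith)
  have hsubT : ∀ t ∈ Ioo c d, t ∈ Ioo 0 T := fun t ht => ⟨by linarith [ht.1], by linarith [ht.2]⟩
  have hm : ∀ τ ∈ Ioo 0 (d - c), d - τ ∈ Ioo c d := fun τ hτ => ⟨by linarith [hτ.2], by
    linarith [hτ.1]⟩
  have hg : Good2 (d - c) M M 0 (fun τ x => -u (d - τ) x) :=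
    { smooth := by
        have h3 : ContDiffOn ℝ ∞ (fun z : ℝ × V => u (d - z.1) z.2) (Ioo 0 (d - c) ×ˢ univ) := by
          apply hu.comp (f := fun z : ℝ × V => (d - z.1, z.2)) (by fun_prop)
          intro z hz
          exact ⟨hsubT _ (hm _ hz.1), trivial⟩
        exact h3.neg
      bd := fun t ht x => by
        show ‖-u (d - t) x‖ ≤ M
        rw [norm_neg]
        exact (hMb _ (Ioo_subset_Icc_self (hm t ht)) x).1
      lip := fun t ht x i j => by
        have h3 : pd j (fun y => (-u (d - t) y) i) x = -pd j (fun y => u (d - t) y i) x := by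
          unfold pd
          have : (fun y => (-u (d - t) y) i) = -(fun y => u (d - t) y i) := rfl
          rw [this, fderiv_neg]
          rfl
        show |pd j (fun y => (-u (d - t) y) i) x| ≤ M
        rw [h3, abs_neg]
        exact (hMb _ (Ioo_subset_Icc_self (hm t ht)) x).2 i j
      div := fun t ht x => by
        have h3 : ∀ i, pd i (fun y => (-u (d - t) y) i) x = -pd i (fun y => u (d - t) y i) x := by
          intro i
          unfold pd
          have : (fun y => (-u (d - t) y) i) = -(fun y => u (d - t) y i) := rfl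
          rw [this, fderiv_neg]
          rfl
        have h4 : dv (fun x => -u (d - t) x) x = -dv (u (d - t)) x := by
          unfold dv
          rw [← Finset.sum_neg_distrib]
          exact Finset.sum_congr rfl fun i _ => h3 i
        show |dv (fun x => -u (d - t) x) x| ≤ 0
        rw [h4, h.divfree _ (hsubT _ (hm t ht)) x]
        simp }
  have hα : 0 < d - t₂ := by linarith
  have hαβ : d - t₂ < d - t₁ := by linarith
  have hβ : d - t₁ < d - c := by linarith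
  obtain ⟨X, hX⟩ := W221.NS.B.p_flowx2 _ _ _ _ _ hg _ _ hα hαβ hβ
  have hmap := W221.NS.B.p_flowm2 _ _ _ _ _ hg _ _ hα hαβ hβ X hX
  have hI : ∀ s ∈ Icc t₁ t₂, d - s ∈ Icc (d - t₂) (d - t₁) := fun s hs => ⟨by linarith [hs.2], by
    linarith [hs.1]⟩
  refine ⟨fun t a => X (d - t) a, fun a => hX.fin a, fun a => ⟨?_, ?_⟩, ?_, fun s hs => ?_⟩
  · exact hX.cont.comp (f := fun τ : ℝ => (d - τ, a)) (by fun_prop)
      (fun τ hτ => ⟨hI τ hτ, mem_univ _⟩)
  · intro t ht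
    have h3 := hX.ode a (d - t) ⟨by linarith [ht.2], by linarith [ht.1]⟩
    have h4 : HasDerivAt (fun t : ℝ => d - t) (-1) t := by
      simpa using (hasDerivAt_id t).const_sub d
    have h5 := h3.scomp t h4
    simp only [neg_smul, one_smul, neg_neg, sub_sub_cancel] at h5
    exact h5
  · exact hX.cont.comp (f := fun z : ℝ × V => (d - z.1, z.2)) (by fun_prop)
      (fun z hz => ⟨hI z.1 hz.1, mem_univ _⟩)
  · have h3 := hmap (d - s) (hI s hs)
    simpa using h3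

/-- The flow labelled by the final positions. -/
theorem flowB (h : NSol T u p) {t₁ t₂ : ℝ} (h1 : 0 < t₁) (h12 : t₁ < t₂) (h2 : t₂ < T) :
    ∃ X : ℝ → V → V, (∀ a, X t₂ a = a) ∧ (∀ a, Traj u t₁ t₂ (fun t => X t a)) ∧
      ∀ s ∈ Icc t₁ t₂, Continuous (X s) ∧ Measure.map (X s) volume ≤ volume := by
  obtain ⟨c, hc⟩ : ∃ c, c = t₁ / 2 := ⟨_, rfl⟩
  obtain ⟨d, hd⟩ : ∃ d, d = (t₂ + T) / 2 := ⟨_, rfl⟩
  have hu := h.smooth_u
  obtain ⟨M, hM0, hMb⟩ := h.bdd c d (by linarith) (by linarith)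
  have hsubT : ∀ t ∈ Ioo c d, t ∈ Ioo 0 T := fun t ht => ⟨by linarith [ht.1], by linarith [ht.2]⟩
  have hm : ∀ τ ∈ Ioo 0 (d - c), c + τ ∈ Ioo c d := fun τ hτ => ⟨by linarith [hτ.1], by
    linarith [hτ.2]⟩
  have hg : Good2 (d - c) M M 0 (fun τ x => u (c + τ) x) :=
    { smooth := by
        apply hu.comp (f := fun z : ℝ × V => (c + z.1, z.2)) (by fun_prop)
        intro z hz
        exact ⟨hsubT _ (hm _ hz.1), trivial⟩
      bd := fun t ht x => (hMb _ (Ioo_subset_Icc_self (hm t ht)) x).1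
      lip := fun t ht x i j => (hMb _ (Ioo_subset_Icc_self (hm t ht)) x).2 i j
      div := fun t ht x => by
        show |dv (u (c + t)) x| ≤ 0
        rw [h.divfree _ (hsubT _ (hm t ht)) x]
        simp }
  have hα : 0 < t₁ - c := by linarith
  have hαβ : t₁ - c < t₂ - c := by linarith
  have hβ : t₂ - c < d - c := by linarith
  obtain ⟨X, hX⟩ := W221.NS.B.p_flowx2 _ _ _ _ _ hg _ _ hα hαβ hβ
  have hmap := W221.NS.B.p_flowm2 _ _ _ _ _ hg _ _ hα hαβ hβ X hX
  have hI : ∀ s ∈ Icc t₁ t₂, s - c ∈ Icc (t₁ - c) (t₂ - c) := fun s hs => ⟨by linarith [hs.1], by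
    linarith [hs.2]⟩
  refine ⟨fun t a => X (t - c) a, fun a => hX.fin a, fun a => ⟨?_, ?_⟩, fun s hs => ⟨?_, ?_⟩⟩
  · exact hX.cont.comp (f := fun τ : ℝ => (τ - c, a)) (by fun_prop)
      (fun τ hτ => ⟨hI τ hτ, mem_univ _⟩)
  · intro t ht
    have h3 := hX.ode a (t - c) ⟨by linarith [ht.1], by linarith [ht.2]⟩
    have h4 : HasDerivAt (fun t : ℝ => t - c) 1 t := (hasDerivAt_id t).sub_const c
    have h5 := h3.scomp t h4
    simp only [one_smul, add_sub_cancel] at h5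
    exact h5
  · exact continuousOn_univ.1 (hX.cont.comp (f := fun a : V => (s - c, a)) (by fun_prop)
      (fun a _ => ⟨hI s hs, mem_univ _⟩))
  · have h3 := hmap (s - c) (hI s hs)
    simpa using h3

lemma lipN (h : NSol T u p) {t₁ t₂ : ℝ} (h1 : 0 < t₁) (h2 : t₂ < T) :
    ∃ L : ℝ≥0, ∀ t ∈ Ioo t₁ t₂, LipschitzWith L (u t) := by
  obtain ⟨M, hM0, hMb⟩ := h.bdd t₁ t₂ h1 h2
  refine ⟨(3 * M).toNNReal, fun t ht => ?_⟩
  have htT : t ∈ Ioo 0 T := ⟨by linarith [ht.1], by linarith [ht.2]⟩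
  exact lip_of_pd hM0 ((slice_smooth h.smooth_u htT).differentiable (by norm_cast))
    (fun x => (hMb t (Ioo_subset_Icc_self ht) x).2)

lemma traj_mono {t₁ t₂ s₁ s₂ : ℝ} {ξ : ℝ → V} (h : Traj u t₁ t₂ ξ) (h1 : t₁ ≤ s₁) (h2 : s₂ ≤ t₂) :
    Traj u s₁ s₂ ξ :=
  ⟨h.cont.mono (Icc_subset_Icc h1 h2), fun t ht => h.ode t ⟨h1.trans_lt ht.1, ht.2.trans_le h2⟩⟩

/-- The flow, its inverse, and periodicity. -/
theorem flowN (h : NSol T u p) {t₁ t₂ : ℝ} (h1 : 0 < t₁) (h12 : t₁ < t₂) (h2 : t₂ < T) :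
    ∃ F : ℝ → V → V, (∀ a, Traj u t₁ t₂ (fun t => F t a)) ∧
      ContinuousOn (fun z : ℝ × V => F z.1 z.2) (Icc t₁ t₂ ×ˢ univ) ∧
      (∀ s ∈ Icc t₁ t₂, Measure.map (F s) volume ≤ volume) ∧
      ((∀ t ∈ Ioo 0 T, Per (u t)) → ∀ s ∈ Icc t₁ t₂, ∀ (a : V) (n : K3),
        F s (a - iv n) = F s a - iv n) ∧
      ∀ t ∈ Ioc t₁ t₂, ∃ φ : V → V, Continuous φ ∧ (∀ y, F t (φ y) = y) ∧
        Measure.map φ volume ≤ volume ∧
        ((∀ t ∈ Ioo 0 T, Per (u t)) → ∀ (a : V) (n : K3), φ (a - iv n) = φ a - iv n) := by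
  obtain ⟨F, hF1, hF2, hF3, hF4⟩ := flowJ h h1 h12 h2
  obtain ⟨L, hL⟩ := lipN h h1 h2
  refine ⟨F, hF2, hF3, hF4, ?_, ?_⟩
  · intro hp s hs a n
    exact traj_unique hL (hF2 (a - iv n)) (traj_shift (fun t ht => hp t ⟨by linarith [ht.1], by
      linarith [ht.2]⟩) (hF2 a) n) (by rw [hF1, hF1]) s hs
  · intro t ht
    obtain ⟨X, hX1, hX2, hX3⟩ := flowB h h1 ht.1 (ht.2.trans_lt h2)
    have hLt : ∀ τ ∈ Ioo t₁ t, LipschitzWith L (u τ) := fun τ hτ => hL τ ⟨hτ.1,
      hτ.2.trans_le ht.2⟩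
    refine ⟨X t₁, (hX3 t₁ ⟨le_rfl, ht.1.le⟩).1, fun y => ?_, (hX3 t₁ ⟨le_rfl, ht.1.le⟩).2, ?_⟩
    · have := traj_unique hLt (traj_mono (hF2 (X t₁ y)) le_rfl ht.2) (hX2 y) (hF1 _) t
        ⟨ht.1.le, le_rfl⟩
      rw [this, hX1]
    · intro hp a n
      exact traj_fin hLt (hX2 (a - iv n)) (traj_shift (fun τ hτ => hp τ ⟨by linarith [hτ.1], by
        linarith [hτ.2, ht.2]⟩) (hX2 a) n) (by rw [hX1, hX1]) t₁ ⟨le_rfl, ht.1.le⟩

end

/-! ### Integrals over the cell -/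

lemma cell_sum (x : V) : ∑' n : K3, cell.indicator (fun _ => (1 : ℝ≥0∞)) (x - iv n) = 1 := by
  rw [tsum_eq_single (fun i => ⌊x i⌋)]
  · exact indicator_of_mem (floor_cell x) _
  · intro n hn
    apply indicator_of_notMem
    intro hc
    exact hn (cell_unique hc (floor_cell x))

lemma cell_sum' (x : V) : ∑' n : K3, cell.indicator (fun _ => (1 : ℝ≥0∞)) (x + iv n) = 1 := by
  refine Eq.trans ?_ (cell_sum x)
  rw [← (Equiv.neg K3).tsum_eq (fun n : K3 => cell.indicator (fun _ => (1 : ℝ≥0∞)) (x + iv n))]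
  refine tsum_congr fun n => ?_
  simp only [Equiv.neg_apply]
  rw [iv_neg, ← sub_eq_add_neg]

/-- A measure-decreasing map which commutes with the translations of the lattice. -/
theorem cell_tr {φ : V → V} (hφ : Measurable φ) (hm : Measure.map φ volume ≤ volume)
    (hn : ∀ (y : V) (n : K3), φ (y - iv n) = φ y - iv n) {h : V → ℝ≥0∞} (hh : Measurable h)
    (hp : ∀ (x : V) (n : K3), h (x - iv n) = h x) :
    ∫⁻ y in cell, h (φ y) ≤ ∫⁻ a in cell, h a := by
  obtain ⟨c, hc⟩ : ∃ c : V → ℝ≥0∞, c = cell.indicator (fun _ => (1 : ℝ≥0∞)) := ⟨_, rfl⟩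
  have hcm : Measurable c := by
    rw [hc]
    exact measurable_const.indicator meas_cell
  have hcs : ∀ x, ∑' n : K3, c (x - iv n) = 1 := by
    rw [hc]
    exact cell_sum
  have hcs' : ∀ x, ∑' n : K3, c (x + iv n) = 1 := by
    rw [hc]
    exact cell_sum'
  have hin : ∀ g : V → ℝ≥0∞, ∫⁻ y in cell, g y = ∫⁻ y, c y * g y := by
    intro g
    rw [← lintegral_indicator meas_cell]
    refine lintegral_congr fun y => ?_
    rw [hc]
    by_cases hy : y ∈ cell
    · rw [indicator_of_mem hy, indicator_of_mem hy, one_mul]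
    · rw [indicator_of_notMem hy, indicator_of_notMem hy, zero_mul]
  have hsub : ∀ n : K3, Measurable fun y : V => y - iv n := fun n => measurable_id.sub_const _
  obtain ⟨G, hG⟩ : ∃ G : V → ℝ≥0∞, G = fun x => c x * h x := ⟨_, rfl⟩
  have hGm : Measurable G := by
    rw [hG]
    exact hcm.mul hh
  have e1 : ∀ y, c y * h (φ y) = ∑' n : K3, c y * G (φ (y - iv n)) := by
    intro y
    rw [ENNReal.tsum_mul_left]
    congr 1
    have e2 : ∀ n : K3, G (φ (y - iv n)) = c (φ y - iv n) * h (φ y) := by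
      intro n
      rw [hG, hn]
      simp only
      rw [hp]
    simp_rw [e2]
    rw [ENNReal.tsum_mul_right, hcs, one_mul]
  calc ∫⁻ y in cell, h (φ y) = ∫⁻ y, ∑' n : K3, c y * G (φ (y - iv n)) := by
        rw [hin]
        exact lintegral_congr e1
    _ = ∑' n : K3, ∫⁻ y, c y * G (φ (y - iv n)) := by
        apply lintegral_tsum
        intro n
        exact (hcm.mul (hGm.comp (hφ.comp (hsub n)))).aemeasurable
    _ = ∑' n : K3, ∫⁻ y, c (y + iv n) * G (φ y) := by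
        refine tsum_congr fun n => ?_
        rw [← lintegral_sub_right_eq_self (fun y => c (y + iv n) * G (φ y)) (iv n)]
        refine lintegral_congr fun y => ?_
        rw [sub_add_cancel]
    _ = ∫⁻ y, ∑' n : K3, c (y + iv n) * G (φ y) := by
        symm
        apply lintegral_tsum
        intro n
        exact ((hcm.comp (measurable_id.add_const (iv n))).mul (hGm.comp hφ)).aemeasurable
    _ = ∫⁻ y, G (φ y) := by
        refine lintegral_congr fun y => ?_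
        rw [ENNReal.tsum_mul_right, hcs', one_mul]
    _ = ∫⁻ x, G x ∂(Measure.map φ volume) := (lintegral_map hGm hφ).symm
    _ ≤ ∫⁻ x, G x := lintegral_mono' hm le_rfl
    _ = ∫⁻ a in cell, h a := by rw [hin, hG]

/-- Whole space. -/
theorem univ_tr {φ : V → V} (hφ : Measurable φ) (hm : Measure.map φ volume ≤ volume)
    {h : V → ℝ≥0∞} (hh : Measurable h) : ∫⁻ y, h (φ y) ≤ ∫⁻ a, h a := by
  rw [← lintegral_map hh hφ]
  exact lintegral_mono' hm le_rfl

/-- Periodicity of the maximal function. -/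
lemma Fx_per (R₀ : ℝ) {v : V → V} (hv : Per v) (x : V) (n : K3) :
    Fx R₀ v (x - iv n) = Fx R₀ v x := by
  have hg : ∀ y, Sp.gw v (y - iv n) = Sp.gw v y := by
    intro y
    have hc : ∀ i : Fin 3, Per (fun y => v y i) := fun i k x => by
      show v _ i = v x i
      rw [hv k x]
    have h1 : gsq v (y - iv n) = gsq v y := by
      unfold gsq
      refine Finset.sum_congr rfl fun i _ => Finset.sum_congr rfl fun j _ => ?_
      rw [per_iv' (H459R3.NS.Per.pd (hc i) j) n y]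
    unfold Sp.gw
    rw [h1]
  unfold Fx Hl.Mx
  congr 1
  refine iSup_congr fun m => ?_
  congr 1
  rw [← lintegral_indicator measurableSet_ball, ← lintegral_indicator measurableSet_ball,
    ← lintegral_sub_right_eq_self (fun y => (ball (x - iv n) (Hl.Rr R₀ m)).indicator
      (fun y => Sp.gw v y) y) (iv n)]
  refine lintegral_congr fun y => ?_
  by_cases hy : y ∈ ball x (Hl.Rr R₀ m)
  · have hy' : y - iv n ∈ ball (x - iv n) (Hl.Rr R₀ m) := by
      rw [mem_ball, dist_sub_right]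
      exact hy
    rw [indicator_of_mem hy, indicator_of_mem hy', hg]
  · have hy' : y - iv n ∉ ball (x - iv n) (Hl.Rr R₀ m) := by
      rw [mem_ball, dist_sub_right]
      exact hy
    rw [indicator_of_notMem hy, indicator_of_notMem hy']

end Pool.Agent.Y7
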