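import Pool.Agent.Y7.Reg7
import Pool.Agent.Y7.Flw7

/-!
The integral of the regularity scale, by the maximal function (helper7).
-/

set_option autoImplicit false
set_option linter.unusedVariables false

open MeasureTheory Set Metric Filter Topology
open scoped ContDiff ENNReal NNReal

namespace Pool.Agent.Y7

open H459R3.NS W221.NS Pool.Agent.TH305.LW Pool.Agent.TH305.DR Pool.Agent.TH305.LG
open Pool.Agent.Y7.Cov1

/-- The sum of the weights of the bad windows. -/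
noncomputable def Hs (f : ℝ × V → ℝ≥0∞) (h₀ η : ℝ) (z : ℝ × V) : ℝ≥0∞ :=
  ∑' j : ℕ, ENNReal.ofReal (1 / hh h₀ j ^ 2)
    * (bad (fun τ => f (τ, z.2)) h₀ η j).indicator (fun _ => 1) z.1

lemma bad_meas {f : ℝ × V → ℝ≥0∞} (hf : Measurable f) (h₀ η : ℝ) (j : ℕ) :
    MeasurableSet {z : ℝ × V | z.1 ∈ bad (fun τ => f (τ, z.2)) h₀ η j} := by
  have e : (fun z : ℝ × V => ∫⁻ τ in Ioo (z.1 - hh h₀ j) z.1, f (τ, z.2))
      = fun z : ℝ × V => ∫⁻ τ, ({q : (ℝ × V) × ℝ | q.1.1 - hh h₀ j < q.2 ∧ q.2 < q.1.1}.indicator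
        (fun q => f (q.2, q.1.2))) (z, τ) := by
    funext z
    rw [← lintegral_indicator measurableSet_Ioo]
    rfl
  have hm : Measurable (fun z : ℝ × V => ∫⁻ τ in Ioo (z.1 - hh h₀ j) z.1, f (τ, z.2)) := by
    rw [e]
    apply Measurable.lintegral_prod_right' (f := {q : (ℝ × V) × ℝ |
      q.1.1 - hh h₀ j < q.2 ∧ q.2 < q.1.1}.indicator (fun q => f (q.2, q.1.2)))
    refine Measurable.indicator ?_ ?_
    · exact hf.comp (measurable_snd.prodMk (measurable_snd.comp measurable_fst))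
    · exact (measurableSet_lt ((measurable_fst.comp measurable_fst).sub_const _)
        measurable_snd).inter (measurableSet_lt measurable_snd (measurable_fst.comp measurable_fst))
  exact measurableSet_lt measurable_const hm

lemma Hs_meas {f : ℝ × V → ℝ≥0∞} (hf : Measurable f) (h₀ η : ℝ) : Measurable (Hs f h₀ η) := by
  unfold Hs
  refine Measurable.tsum fun j => Measurable.const_mul ?_ _
  have e : (fun z : ℝ × V => (bad (fun τ => f (τ, z.2)) h₀ η j).indicator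
      (fun _ => (1 : ℝ≥0∞)) z.1)
      = {z : ℝ × V | z.1 ∈ bad (fun τ => f (τ, z.2)) h₀ η j}.indicator (fun _ => 1) := by
    funext z
    by_cases hz : z.1 ∈ bad (fun τ => f (τ, z.2)) h₀ η j
    · rw [indicator_of_mem hz, indicator_of_mem (show z ∈ {z : ℝ × V |
        z.1 ∈ bad (fun τ => f (τ, z.2)) h₀ η j} from hz)]
    · rw [indicator_of_notMem hz, indicator_of_notMem (show z ∉ {z : ℝ × V |
        z.1 ∈ bad (fun τ => f (τ, z.2)) h₀ η j} from hz)]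
  rw [e]
  exact measurable_const.indicator (bad_meas hf h₀ η j)

lemma Hs_int {f : ℝ × V → ℝ≥0∞} (hf : Measurable f) {h₀ η : ℝ} (hh₀ : 0 < h₀) (hη : 0 < η) (a : V) :
    ∫⁻ t, Hs f h₀ η (t, a) ≤ ENNReal.ofReal (16 / 3 / η) * ∫⁻ τ, f (τ, a) := by
  unfold Hs
  have hm : ∀ j, MeasurableSet (bad (fun τ => f (τ, a)) h₀ η j) := by
    intro j
    have h1 : Measurable (fun t : ℝ => (t, a)) := measurable_id.prodMk measurable_const
    exact h1 (bad_meas hf h₀ η j)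
  rw [lintegral_tsum fun j => ((measurable_const.indicator (hm j)).const_mul _).aemeasurable]
  refine le_trans (le_of_eq ?_) (cov1 (f := fun τ => f (τ, a)) hh₀ hη)
  refine tsum_congr fun j => ?_
  rw [lintegral_const_mul _ (measurable_const.indicator (hm j)), lintegral_indicator (hm j),
    lintegral_const, Measure.restrict_apply_univ, one_mul]

/-- The function along the flow. -/
noncomputable def ff (R₀ : ℝ) (u : ℝ → V → V) (t₁ t₂ : ℝ) (F : ℝ → V → V) (z : ℝ × V) : ℝ≥0∞ :=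
  (Ioo t₁ t₂).indicator (fun τ => Fx R₀ (u τ) (F τ z.2)) z.1

lemma ff_meas {T : ℝ} {u : ℝ → V → V}
    (hu : ContDiffOn ℝ ∞ (fun z : ℝ × V => u z.1 z.2) (Ioo 0 T ×ˢ univ)) (R₀ : ℝ) {t₁ t₂ : ℝ}
    (h1 : 0 < t₁) (h12 : t₁ < t₂) (h2 : t₂ < T) {F : ℝ → V → V}
    (hF : ContinuousOn (fun z : ℝ × V => F z.1 z.2) (Icc t₁ t₂ ×ˢ univ)) :
    Measurable (ff R₀ u t₁ t₂ F) := by
  obtain ⟨cl, hcl⟩ : ∃ cl : ℝ → ℝ, cl = fun t => max t₁ (min t₂ t) := ⟨_, rfl⟩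
  have hclc : Continuous cl := by rw [hcl]; fun_prop
  have hclm : ∀ t, cl t ∈ Icc t₁ t₂ := by
    intro t
    rw [hcl]
    exact ⟨le_max_left _ _, max_le h12.le (min_le_left _ _)⟩
  have hcleq : ∀ t ∈ Icc t₁ t₂, cl t = t := by
    intro t ht
    rw [hcl]
    simp only
    rw [min_eq_right ht.2, max_eq_right ht.1]
  have hc : Continuous (fun z : ℝ × V => F (cl z.1) z.2) :=
    ContinuousOn.comp_continuous (g := fun z : ℝ × V => F z.1 z.2)
      (f := fun z : ℝ × V => (cl z.1, z.2)) hF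
      ((hclc.comp continuous_fst).prodMk continuous_snd) (fun z => ⟨hclm _, mem_univ _⟩)
  have hc2 : Measurable (fun z : ℝ × V => (z.1, F (cl z.1) z.2)) :=
    measurable_fst.prodMk hc.measurable
  have e : ff R₀ u t₁ t₂ F = (Ioo t₁ t₂ ×ˢ (univ : Set V)).indicator
      (fun z : ℝ × V => Ft R₀ T u (z.1, F (cl z.1) z.2)) := by
    funext z
    unfold ff
    by_cases hz : z.1 ∈ Ioo t₁ t₂
    · rw [indicator_of_mem hz, indicator_of_mem (show z ∈ Ioo t₁ t₂ ×ˢ (univ : Set V) from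
        ⟨hz, mem_univ _⟩), hcleq _ (Ioo_subset_Icc_self hz),
        Ft_eq R₀ u ⟨h1.trans hz.1, hz.2.trans h2⟩]
    · rw [indicator_of_notMem hz, indicator_of_notMem (show z ∉ Ioo t₁ t₂ ×ˢ (univ : Set V) from
        fun h => hz h.1)]
  rw [e]
  exact ((Ft_meas R₀ hu).comp hc2).indicator (measurableSet_Ioo.prod MeasurableSet.univ)

lemma Fx_meas (R₀ : ℝ) {v : V → V} (hv : ContDiff ℝ ∞ v) : Measurable (Fx R₀ v) :=
  (Hl.meas_Mx (gw_meas hv)).pow_const _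

/-- The core estimate. -/
theorem core : ∃ (C : ℝ) (K : ℕ → ℝ), 0 < C ∧ (∀ n, 0 < K n) ∧
    ∀ (T : ℝ) (u : ℝ → V → V) (p : ℝ → V → ℝ), NSol T u p → ∀ R₀ : ℝ, 0 < R₀ →
      ∀ (t₁ t₂ : ℝ), 0 < t₁ → t₁ < t₂ → t₂ < T → ∀ F : ℝ → V → V,
      (∀ a, Traj u t₁ t₂ (fun t => F t a)) →
      ContinuousOn (fun z : ℝ × V => F z.1 z.2) (Icc t₁ t₂ ×ˢ univ) →
      ∀ (S : Set V) (P : (V → ℝ≥0∞) → Prop), MeasurableSet S →
      (∀ s ∈ Ioo t₁ t₂, ∀ h, Measurable h → P h → ∫⁻ a in S, h (F s a) ≤ ∫⁻ a in S, h a) →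
      (∀ t ∈ Ioo t₁ t₂, ∃ φ : V → V, (∀ y, F t (φ y) = y) ∧
        ∀ h, Measurable h → P h → ∫⁻ y in S, h (φ y) ≤ ∫⁻ a in S, h a) →
      (∀ s ∈ Ioo t₁ t₂, P (Fx R₀ (u s))) →
      (∀ t ∈ Ioo t₁ t₂, ∀ η, P (fun a => Hs (ff R₀ u t₁ t₂ F) (sc R₀ 0 ^ 2) η (t, a))) →
      ∫⁻ t in Ioo t₁ t₂, ∫⁻ y in S, (Reg K 1 (u t) y - ENNReal.ofReal C *
          (ENNReal.ofReal (1 / sc R₀ 0 ^ 4) + ENNReal.ofReal (1 / (t - t₁) ^ 2)))
        ≤ ENNReal.ofReal C * ∫⁻ t in Ioo t₁ t₂, ∫⁻ y in S, Fx R₀ (u t) y := by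
  obtain ⟨η, C, K, hη, hC, hK, H⟩ := part
  refine ⟨C * (16 / 3 / η + 1), K, by positivity, hK, ?_⟩
  intro T u p hN R₀ hR₀ t₁ t₂ h1 h12 h2 F hF2 hF3 S P hS hP1 hP2 hP3 hP4
  obtain ⟨h₀, hh₀⟩ : ∃ h₀, h₀ = sc R₀ 0 ^ 2 := ⟨_, rfl⟩
  have hsc := sc_pos hR₀ 0
  have h₀0 : 0 < h₀ := by rw [hh₀]; positivity
  rw [← hh₀] at hP4
  have hu := hN.smooth_u
  obtain ⟨f, hf⟩ : ∃ f, f = ff R₀ u t₁ t₂ F := ⟨_, rfl⟩
  have hfm : Measurable f := by
    rw [hf]
    exact ff_meas hu R₀ h1 h12 h2 hF3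
  rw [← hf] at hP4
  have hHm := Hs_meas hfm h₀ η
  have hFxm : ∀ t ∈ Ioo t₁ t₂, Measurable (Fx R₀ (u t)) := fun t ht =>
    Fx_meas R₀ (slice_cd hu ⟨h1.trans ht.1, ht.2.trans h2⟩)
  have hCC : ENNReal.ofReal C ≤ ENNReal.ofReal (C * (16 / 3 / η + 1)) := by
    apply ENNReal.ofReal_le_ofReal
    have : 0 ≤ C * (16 / 3 / η) := by positivity
    linarith
  -- the pointwise bound
  have hpt : ∀ t ∈ Ioo t₁ t₂, ∫⁻ y in S, (Reg K 1 (u t) y
        - ENNReal.ofReal (C * (16 / 3 / η + 1)) *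
          (ENNReal.ofReal (1 / sc R₀ 0 ^ 4) + ENNReal.ofReal (1 / (t - t₁) ^ 2)))
      ≤ ENNReal.ofReal C * ((∫⁻ a in S, Hs f h₀ η (t, a)) + ∫⁻ y in S, Fx R₀ (u t) y) := by
    intro t ht
    obtain ⟨φ, hφ1, hφ2⟩ := hP2 t ht
    have hy : ∀ y, Reg K 1 (u t) y - ENNReal.ofReal (C * (16 / 3 / η + 1)) *
          (ENNReal.ofReal (1 / sc R₀ 0 ^ 4) + ENNReal.ofReal (1 / (t - t₁) ^ 2))
        ≤ ENNReal.ofReal C * (Hs f h₀ η (t, φ y) + Fx R₀ (u t) y) := by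
      intro y
      have h3 := H T u p hN R₀ hR₀ t₁ t h1.le ht.1 (ht.2.trans h2) (fun τ => F τ (φ y))
        (traj_mono (hF2 (φ y)) le_rfl ht.2.le) (fun τ => f (τ, φ y)) (fun τ hτ => by
          rw [hf]
          unfold ff
          exact indicator_of_mem (show τ ∈ Ioo t₁ t₂ from ⟨hτ.1, hτ.2.trans ht.2⟩) _)
      simp only [hφ1] at h3
      rw [tsub_le_iff_left]
      refine h3.trans ?_
      rw [← hh₀, add_assoc, mul_add]
      gcongr
      exact le_rfl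
    refine (lintegral_mono hy).trans ?_
    rw [lintegral_const_mul' _ _ ENNReal.ofReal_ne_top, lintegral_add_right _ (hFxm t ht)]
    have h4 : ∫⁻ y in S, Hs f h₀ η (t, φ y) ≤ ∫⁻ a in S, Hs f h₀ η (t, a) :=
      hφ2 _ (hHm.comp (measurable_const.prodMk measurable_id)) (hP4 t ht η)
    exact mul_le_mul_right (add_le_add_left h4 _) _
  refine (setLIntegral_mono' measurableSet_Ioo hpt).trans ?_
  rw [lintegral_const_mul' _ _ ENNReal.ofReal_ne_top]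
  have hHm2 : Measurable (fun t : ℝ => ∫⁻ a in S, Hs f h₀ η (t, a)) :=
    Measurable.lintegral_prod_right' (f := Hs f h₀ η) hHm
  rw [lintegral_add_left hHm2]
  have hmain : ∫⁻ t in Ioo t₁ t₂, ∫⁻ a in S, Hs f h₀ η (t, a)
      ≤ ENNReal.ofReal (16 / 3 / η) * ∫⁻ t in Ioo t₁ t₂, ∫⁻ y in S, Fx R₀ (u t) y := by
    calc ∫⁻ t in Ioo t₁ t₂, ∫⁻ a in S, Hs f h₀ η (t, a)
        ≤ ∫⁻ t, ∫⁻ a in S, Hs f h₀ η (t, a) := setLIntegral_le_lintegral _ _
      _ = ∫⁻ a in S, ∫⁻ t, Hs f h₀ η (t, a) :=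
          lintegral_lintegral_swap (f := fun t a => Hs f h₀ η (t, a)) hHm.aemeasurable
      _ ≤ ∫⁻ a in S, ENNReal.ofReal (16 / 3 / η) * ∫⁻ τ, f (τ, a) :=
          lintegral_mono fun a => Hs_int hfm h₀0 hη a
      _ = ENNReal.ofReal (16 / 3 / η) * ∫⁻ a in S, ∫⁻ τ, f (τ, a) := by
          rw [lintegral_const_mul' _ _ ENNReal.ofReal_ne_top]
      _ = ENNReal.ofReal (16 / 3 / η) * ∫⁻ τ, ∫⁻ a in S, f (τ, a) := by
          rw [lintegral_lintegral_swap (f := fun τ a => f (τ, a)) hfm.aemeasurable]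
      _ = ENNReal.ofReal (16 / 3 / η) * ∫⁻ τ in Ioo t₁ t₂, ∫⁻ a in S, Fx R₀ (u τ) (F τ a) := by
          congr 1
          rw [← lintegral_indicator measurableSet_Ioo]
          refine lintegral_congr fun τ => ?_
          by_cases hτ : τ ∈ Ioo t₁ t₂
          · rw [indicator_of_mem hτ]
            refine lintegral_congr fun a => ?_
            rw [hf]
            exact indicator_of_mem hτ _
          · rw [indicator_of_notMem hτ]
            have : ∀ a, f (τ, a) = 0 := by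
              intro a
              rw [hf]
              exact indicator_of_notMem hτ _
            simp only [this, lintegral_zero]
      _ ≤ ENNReal.ofReal (16 / 3 / η) * ∫⁻ t in Ioo t₁ t₂, ∫⁻ y in S, Fx R₀ (u t) y := by
          exact mul_le_mul_right (setLIntegral_mono' measurableSet_Ioo fun τ hτ =>
            hP1 τ hτ _ (hFxm τ hτ) (hP3 τ hτ)) _
  rw [ENNReal.ofReal_mul hC.le, mul_assoc]
  gcongr
  rw [ENNReal.ofReal_add (by positivity) (by norm_num), add_mul, ENNReal.ofReal_one, one_mul]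
  gcongr

end Pool.Agent.Y7
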