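import Pool.Agent.Y7.Core7
import Pool.Agent.TH305.LG.Bdd
import Pool.Agent.W221.NS.Fin2

/-!
The integral of the regularity scale: solutions in the whole space and periodic solutions
(helper7).
-/

set_option autoImplicit false
set_option linter.unusedVariables false

open MeasureTheory Set Metric Filter Topology
open scoped ContDiff ENNReal NNReal

namespace Pool.Agent.Y7

open H459R3.NS W221.NS Pool.Agent.TH305.LW Pool.Agent.TH305.DR Pool.Agent.TH305.LG
open Pool.Agent.Y7.Cov1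

/-- The maximal theorem. -/
theorem FxL : ∃ C : ℝ, 0 < C ∧ ∀ R₀ : ℝ, 0 < R₀ → ∀ g : V → ℝ≥0∞, Measurable g →
    ∀ B : ℝ≥0∞, B ≠ ⊤ → (∀ x, g x ≤ B) →
    ∫⁻ x, Hl.Mx R₀ g x ^ (7 / 6 : ℝ) ≤ ENNReal.ofReal C * ∫⁻ x, g x ^ (7 / 6 : ℝ) := by
  refine ⟨7 / 6 * (2000 * (16 ^ ((7 : ℝ) / 6 - 1) * (7 / 6 - 1)⁻¹)), by positivity, ?_⟩
  intro R₀ hR₀ g hg B hB hgB
  refine (Hl.strong (p := 7 / 6) (by norm_num) hR₀ hg hB hgB).trans (le_of_eq ?_)
  rw [ENNReal.ofReal_mul (by norm_num), ENNReal.ofReal_mul (by norm_num),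
    ENNReal.ofReal_mul (by positivity), ENNReal.ofReal_inv_of_pos (by norm_num)]
  have : ENNReal.ofReal 2000 = 2000 := by norm_num
  rw [this]
  ring

lemma gw_pow (v : V → V) (x : V) : Sp.gw v x ^ (7 / 6 : ℝ) = ENNReal.ofReal (gsq v x) := by
  unfold Sp.gw
  rw [← ENNReal.rpow_mul]
  norm_num

lemma gsq_bd {v : V → V} {M : ℝ} (hM : ∀ x i j, |pd j (fun y => v y i) x| ≤ M) (x : V) :
    gsq v x ≤ 9 * M ^ 2 := by
  unfold gsq
  have h : ∀ i j : Fin 3, pd j (fun y => v y i) x ^ 2 ≤ M ^ 2 := by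
    intro i j
    rw [← sq_abs]
    have := hM x i j
    gcongr
  calc ∑ i, ∑ j, pd j (fun y => v y i) x ^ 2 ≤ ∑ _i : Fin 3, ∑ _j : Fin 3, M ^ 2 :=
        Finset.sum_le_sum fun i _ => Finset.sum_le_sum fun j _ => h i j
    _ = 9 * M ^ 2 := by
        simp only [Finset.sum_const, Finset.card_univ, Fintype.card_fin, nsmul_eq_mul]
        ring

lemma gw_bd {v : V → V} {M : ℝ} (hM : ∀ x i j, |pd j (fun y => v y i) x| ≤ M) (x : V) :
    Sp.gw v x ≤ ENNReal.ofReal (9 * M ^ 2) ^ (6 / 7 : ℝ) := by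
  unfold Sp.gw
  exact ENNReal.rpow_le_rpow (ENNReal.ofReal_le_ofReal (gsq_bd hM x)) (by norm_num)

/-- Solutions in the whole space. -/
lemma nsol_osol {T E : ℝ} {u : ℝ → V → V} {p : ℝ → V → ℝ} (hE : 0 ≤ E) (hS : OSol 1 T E univ u p)
    (hD : ∫⁻ τ in Ioo 0 T, ∫⁻ y, ENNReal.ofReal (gsq (u τ) y) ≠ ⊤) : NSol T u p where
  smooth_u := hS.smooth_u
  smooth_p := hS.smooth_p
  divfree := fun t ht x => hS.divfree t ht x (mem_univ x)
  momentum := fun t ht x i => (osol_lsol hS).momentum t ht x trivial i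
  bdd := fun a b ha hb => by
    obtain ⟨M, hM⟩ := bddW hE hS (a := 0) (b := T) (a' := a) (b' := b) le_rfl le_rfl ha hb hD
    refine ⟨max M 0, le_max_right _ _, fun t ht x => ⟨(hM t ht x).1.trans (le_max_left _ _),
      fun i j => ((hM t ht x).2 i j).trans (le_max_left _ _)⟩⟩

/-- Periodic solutions. -/
lemma nsol_issol {T : ℝ} {u : ℝ → V → V} {p : ℝ → V → ℝ} (hS : IsSol 1 T u p) : NSol T u p where
  smooth_u := hS.smooth_u.mono (prod_mono Ioo_subset_Ico_self subset_rfl)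
  smooth_p := hS.smooth_p.mono (prod_mono Ioo_subset_Ico_self subset_rfl)
  divfree := fun t ht x => hS.divfree t ⟨ht.1.le, ht.2⟩ x
  momentum := fun t ht x i => by
    have := hS.momentum t ht x i
    rw [one_mul] at this
    exact this
  bdd := fun a b ha hb => by
    obtain ⟨M, hM⟩ := per_bdd (hS.smooth_u.mono (prod_mono Ioo_subset_Ico_self subset_rfl))
      (fun t ht => hS.per_u t ⟨ht.1.le, ht.2⟩) ha hb
    refine ⟨max M 0, le_max_right _ _, fun t ht x => ⟨(hM t ht x).1.trans (le_max_left _ _),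
      fun i j => ((hM t ht x).2 i j).trans (le_max_left _ _)⟩⟩

/-- The limit in time. -/
lemma limT {T : ℝ} {S : Set V} {R : ℝ → V → ℝ≥0∞} {C c : ℝ} (hC : 0 ≤ C) (hc : 0 ≤ c) {W : ℝ≥0∞}
    (h : ∀ t₁ t₂ : ℝ, 0 < t₁ → t₁ < t₂ → t₂ < T → ∫⁻ t in Ioo t₁ t₂, ∫⁻ y in S,
      (R t y - ENNReal.ofReal (C * (c + 1 / (t - t₁) ^ 2))) ≤ W) :
    ∫⁻ t in Ioo 0 T, ∫⁻ y in S, (R t y - ENNReal.ofReal (4 * C * (c + 1 / t ^ 2))) ≤ W := by
  rcases le_or_gt T 0 with hT | hT
  · rw [Ioo_eq_empty (not_lt.2 hT)]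
    simp
  obtain ⟨a, ha⟩ : ∃ a : ℕ → ℝ, a = fun n : ℕ => T / ((n : ℝ) + 3) := ⟨_, rfl⟩
  have ha0 : ∀ n, 0 < a n := fun n => by rw [ha]; positivity
  have ha3 : ∀ n, a n ≤ T / 3 := fun n => by
    rw [ha]
    simp only
    gcongr
    have : (0 : ℝ) ≤ n := Nat.cast_nonneg n
    linarith
  have hU : Ioo 0 T = ⋃ n, Ioo (a n) (T - a n) := by
    ext t
    simp only [mem_iUnion, mem_Ioo]
    constructor
    · rintro ⟨h1, h2⟩
      have hl : Tendsto a atTop (𝓝 0) := by
        rw [ha]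
        apply Tendsto.div_atTop tendsto_const_nhds
        exact tendsto_atTop_add_const_right _ _ tendsto_natCast_atTop_atTop
      obtain ⟨n, hn⟩ := (hl.eventually (gt_mem_nhds (lt_min h1 (sub_pos.2 h2)))).exists
      exact ⟨n, hn.trans_le (min_le_left _ _), by
        have := hn.trans_le (min_le_right _ _)
        linarith⟩
    · rintro ⟨n, h1, h2⟩
      have := ha0 n
      constructor <;> linarith
  have hmono : Monotone fun n => Ioo (a n) (T - a n) := by
    intro n m hnm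
    have : a m ≤ a n := by
      rw [ha]
      simp only
      gcongr
    exact Ioo_subset_Ioo this (by linarith)
  rw [hU, setLIntegral_iUnion_of_directed _ hmono.directed_le]
  refine iSup_le fun n => ?_
  have h1 := ha0 n
  have h2 := ha3 n
  refine le_trans ?_ (h (a n / 2) (T - a n) (by linarith) (by linarith) (by linarith))
  refine le_trans ?_ (lintegral_mono_set (Ioo_subset_Ioo (by linarith : a n / 2 ≤ a n) le_rfl))
  refine setLIntegral_mono' measurableSet_Ioo fun t ht => ?_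
  refine lintegral_mono fun y => ?_
  refine tsub_le_tsub_left (ENNReal.ofReal_le_ofReal ?_) _
  have h3 : 0 < t := h1.trans ht.1
  have h4 : t / 2 ≤ t - a n / 2 := by linarith [ht.1]
  have h5 : 1 / (t - a n / 2) ^ 2 ≤ 4 / t ^ 2 := by
    calc 1 / (t - a n / 2) ^ 2 ≤ 1 / (t / 2) ^ 2 := by gcongr
      _ = 4 / t ^ 2 := by field_simp; norm_num
  calc C * (c + 1 / (t - a n / 2) ^ 2) ≤ C * (4 * c + 4 / t ^ 2) := by
        gcongr
        linarith
    _ = 4 * C * (c + 1 / t ^ 2) := by ring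

/-- The property established by the core estimate. -/
def CoreP (C : ℝ) (K : ℕ → ℝ) : Prop :=
    ∀ (T : ℝ) (u : ℝ → V → V) (p : ℝ → V → ℝ), NSol T u p → ∀ R₀ : ℝ, 0 < R₀ →
      ∀ (t₁ t₂ : ℝ), 0 < t₁ → t₁ < t₂ → t₂ < T → ∀ F : ℝ → V → V,
      (∀ a, Traj u t₁ t₂ (fun t => F t a)) →
      ContinuousOn (fun z : ℝ × V => F z.1 z.2) (Icc t₁ t₂ ×ˢ univ) →
      ∀ (S : Set V) (P : (V → ℝ≥0∞) → Prop), MeasurableSet S →
      (∀ s ∈ Ioo t₁ t₂, ∀ h, Measurable h → P h → ∫⁻ a in S, h (F s a) ≤ ∫⁻ a in S, h a) →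
      (∀ t ∈ Ioo t₁ t₂, ∃ φ : V → V, (∀ y, F t (φ y) = y) ∧
        ∀ h, Measurable h → P h → ∫⁻ y in S, h (φ y) ≤ ∫⁻ a in S, h a) →
      (∀ s ∈ Ioo t₁ t₂, P (Fx R₀ (u s))) →
      (∀ t ∈ Ioo t₁ t₂, ∀ η, P (fun a => Hs (ff R₀ u t₁ t₂ F) (sc R₀ 0 ^ 2) η (t, a))) →
      ∫⁻ t in Ioo t₁ t₂, ∫⁻ y in S, (Reg K 1 (u t) y - ENNReal.ofReal C *
          (ENNReal.ofReal (1 / sc R₀ 0 ^ 4) + ENNReal.ofReal (1 / (t - t₁) ^ 2)))
        ≤ ENNReal.ofReal C * ∫⁻ t in Ioo t₁ t₂, ∫⁻ y in S, Fx R₀ (u t) y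

/-- The whole space. -/
theorem whole1 {C : ℝ} {K : ℕ → ℝ} (hC : 0 < C) (hcore : CoreP C K) : ∃ D : ℝ, 0 < D ∧
    ∀ (T E : ℝ) (u : ℝ → V → V) (p : ℝ → V → ℝ), 0 ≤ E → OSol 1 T E univ u p →
      ∫⁻ t in Ioo 0 T, ∫⁻ y, (Reg K 1 (u t) y - ENNReal.ofReal (D / t ^ 2))
        ≤ ENNReal.ofReal D * ∫⁻ t in Ioo 0 T, ∫⁻ y, ENNReal.ofReal (gsq (u t) y) := by
  obtain ⟨A, hA, hHL⟩ := FxL
  refine ⟨8 * C + C * A, by positivity, ?_⟩
  intro T E u p hE hS
  by_cases hD : ∫⁻ τ in Ioo 0 T, ∫⁻ y, ENNReal.ofReal (gsq (u τ) y) = ⊤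
  · rw [hD, ENNReal.mul_top]
    · exact le_top
    · rw [Ne, ENNReal.ofReal_eq_zero, not_le]
      positivity
  have hN := nsol_osol hE hS hD
  have key : ∫⁻ t in Ioo 0 T, ∫⁻ y in univ,
      (Reg K 1 (u t) y - ENNReal.ofReal (4 * (2 * C) * (0 + 1 / t ^ 2)))
        ≤ ENNReal.ofReal (C * A) * ∫⁻ t in Ioo 0 T, ∫⁻ y, ENNReal.ofReal (gsq (u t) y) := by
    refine limT (by positivity) le_rfl ?_
    intro t₁ t₂ h1 h12 h2
    obtain ⟨F, hF1, hF2, hF3, -, hF4⟩ := flowN hN h1 h12 h2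
    have h0 : 0 < t₂ - t₁ := by linarith
    have hR₀ : 0 < 16 * √(t₂ - t₁) := by positivity
    have hsc : sc (16 * √(t₂ - t₁)) 0 ^ 4 = (t₂ - t₁) ^ 2 := by
      unfold sc Hl.Rr
      rw [pow_zero, div_one, mul_div_cancel_left₀ _ (by norm_num : (16 : ℝ) ≠ 0)]
      have : √(t₂ - t₁) ^ 4 = (√(t₂ - t₁) ^ 2) ^ 2 := by ring
      rw [this, Real.sq_sqrt h0.le]
    have h3 := hcore T u p hN _ hR₀ t₁ t₂ h1 h12 h2 F hF1 hF2 univ (fun _ => True)
      MeasurableSet.univ
      (fun s hs h hh _ => by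
        rw [setLIntegral_univ, setLIntegral_univ]
        have hs' := Ioo_subset_Icc_self hs
        have hc : Continuous (F s) := continuousOn_univ.1 (hF2.comp
          (f := fun a : V => (s, a)) (by fun_prop) (fun a _ => ⟨hs', mem_univ _⟩))
        exact univ_tr hc.measurable (hF3 s hs') hh)
      (fun t ht => by
        obtain ⟨φ, g1, g2, g3, -⟩ := hF4 t ⟨ht.1, ht.2.le⟩
        refine ⟨φ, g2, fun h hh _ => ?_⟩
        rw [setLIntegral_univ, setLIntegral_univ]
        exact univ_tr g1.measurable g3 hh)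
      (fun _ _ => trivial) (fun _ _ _ => trivial)
    rw [hsc] at h3
    calc ∫⁻ t in Ioo t₁ t₂, ∫⁻ y in univ,
          (Reg K 1 (u t) y - ENNReal.ofReal (2 * C * (0 + 1 / (t - t₁) ^ 2)))
        ≤ ∫⁻ t in Ioo t₁ t₂, ∫⁻ y in univ, (Reg K 1 (u t) y - ENNReal.ofReal C *
          (ENNReal.ofReal (1 / (t₂ - t₁) ^ 2) + ENNReal.ofReal (1 / (t - t₁) ^ 2))) := by
          refine setLIntegral_mono' measurableSet_Ioo fun t ht => ?_
          refine lintegral_mono fun y => tsub_le_tsub_left ?_ _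
          rw [← ENNReal.ofReal_add (by positivity) (by positivity), ← ENNReal.ofReal_mul hC.le]
          apply ENNReal.ofReal_le_ofReal
          have h4 : 0 < t - t₁ := by linarith [ht.1]
          have h5 : 1 / (t₂ - t₁) ^ 2 ≤ 1 / (t - t₁) ^ 2 := by
            have : t - t₁ ≤ t₂ - t₁ := by linarith [ht.2]
            gcongr
          nlinarith
      _ ≤ ENNReal.ofReal C * ∫⁻ t in Ioo t₁ t₂, ∫⁻ y in univ, Fx (16 * √(t₂ - t₁)) (u t) y := h3
      _ ≤ ENNReal.ofReal C * ∫⁻ t in Ioo t₁ t₂, ENNReal.ofReal A *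
            ∫⁻ y, ENNReal.ofReal (gsq (u t) y) := by
          refine mul_le_mul_right (setLIntegral_mono' measurableSet_Ioo fun t ht => ?_) _
          rw [setLIntegral_univ]
          have htT : t ∈ Ioo 0 T := ⟨h1.trans ht.1, ht.2.trans h2⟩
          obtain ⟨M, hM0, hM⟩ := hN.bdd t t htT.1 htT.2
          have h6 := hHL _ hR₀ (Sp.gw (u t)) (gw_meas (slice_cd hN.smooth_u htT))
            (ENNReal.ofReal (9 * M ^ 2) ^ (6 / 7 : ℝ))
            (ENNReal.rpow_ne_top_of_nonneg (by norm_num) ENNReal.ofReal_ne_top)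
            (gw_bd fun x => (hM t ⟨le_rfl, le_rfl⟩ x).2)
          simp only [gw_pow] at h6
          exact h6
      _ = ENNReal.ofReal (C * A) * ∫⁻ t in Ioo t₁ t₂, ∫⁻ y, ENNReal.ofReal (gsq (u t) y) := by
          rw [lintegral_const_mul' _ _ ENNReal.ofReal_ne_top, ← mul_assoc,
            ← ENNReal.ofReal_mul hC.le]
      _ ≤ _ := mul_le_mul_right (lintegral_mono_set (Ioo_subset_Ioo h1.le h2.le)) _
  calc ∫⁻ t in Ioo 0 T, ∫⁻ y, (Reg K 1 (u t) y - ENNReal.ofReal ((8 * C + C * A) / t ^ 2))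
      ≤ ∫⁻ t in Ioo 0 T, ∫⁻ y in univ,
        (Reg K 1 (u t) y - ENNReal.ofReal (4 * (2 * C) * (0 + 1 / t ^ 2))) := by
        refine setLIntegral_mono' measurableSet_Ioo fun t ht => ?_
        rw [setLIntegral_univ]
        refine lintegral_mono fun y => tsub_le_tsub_left (ENNReal.ofReal_le_ofReal ?_) _
        have : 0 < t ^ 2 := pow_pos ht.1 2
        rw [zero_add, mul_one_div]
        gcongr
        nlinarith
    _ ≤ _ := key.trans (mul_le_mul_left (ENNReal.ofReal_le_ofReal (by nlinarith)) _)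

/-- Periodic solutions. -/
theorem peri1 {C : ℝ} {K : ℕ → ℝ} (hC : 0 < C) (hcore : CoreP C K) : ∃ D : ℝ, 0 < D ∧
    ∀ (T : ℝ) (u : ℝ → V → V) (p : ℝ → V → ℝ), IsSol 1 T u p →
      ∫⁻ t in Ioo 0 T, ∫⁻ y in cell, (Reg K 1 (u t) y - ENNReal.ofReal (D * (1 + 1 / t ^ 2)))
        ≤ ENNReal.ofReal D * ∫⁻ t in Ioo 0 T, ENNReal.ofReal (enstrophy (u t)) := by
  obtain ⟨A, hA, hHL⟩ := FxL
  obtain ⟨s₀, hs₀⟩ : ∃ s₀, s₀ = 1 / sc 1 0 ^ 4 := ⟨_, rfl⟩
  have hsc1 := sc_pos one_pos 0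
  have hs₀0 : 0 < s₀ := by rw [hs₀]; positivity
  refine ⟨4 * C * (s₀ + 1) + C * (A * 216), by positivity, ?_⟩
  intro T u p hS
  have hN := nsol_issol hS
  have hpu : ∀ t ∈ Ioo 0 T, Per (u t) := fun t ht => hS.per_u t ⟨ht.1.le, ht.2⟩
  have key : ∫⁻ t in Ioo 0 T, ∫⁻ y in cell,
      (Reg K 1 (u t) y - ENNReal.ofReal (4 * C * (s₀ + 1 / t ^ 2)))
        ≤ ENNReal.ofReal (C * (A * 216)) * ∫⁻ t in Ioo 0 T, ENNReal.ofReal (enstrophy (u t)) := by
    refine limT hC.le hs₀0.le ?_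
    intro t₁ t₂ h1 h12 h2
    obtain ⟨F, hF1, hF2, hF3, hF5, hF4⟩ := flowN hN h1 h12 h2
    have hF5' := hF5 hpu
    have h3 := hcore T u p hN _ one_pos t₁ t₂ h1 h12 h2 F hF1 hF2 cell
      (fun h => ∀ (x : V) (n : K3), h (x - iv n) = h x) meas_cell
      (fun s hs h hh hp => by
        have hs' := Ioo_subset_Icc_self hs
        have hc : Continuous (F s) := continuousOn_univ.1 (hF2.comp
          (f := fun a : V => (s, a)) (by fun_prop) (fun a _ => ⟨hs', mem_univ _⟩))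
        exact cell_tr hc.measurable (hF3 s hs') (fun y n => hF5' s hs' y n) hh hp)
      (fun t ht => by
        obtain ⟨φ, g1, g2, g3, g4⟩ := hF4 t ⟨ht.1, ht.2.le⟩
        exact ⟨φ, g2, fun h hh hp => cell_tr g1.measurable g3 (g4 hpu) hh hp⟩)
      (fun s hs x n => Fx_per 1 (hpu s ⟨h1.trans hs.1, hs.2.trans h2⟩) x n)
      (fun t ht η x n => by
        have e : (fun τ => ff 1 u t₁ t₂ F (τ, x - iv n)) = fun τ => ff 1 u t₁ t₂ F (τ, x) := by
          funext τ
          unfold ff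
          by_cases hτ : τ ∈ Ioo t₁ t₂
          · rw [indicator_of_mem hτ, indicator_of_mem hτ]
            simp only
            rw [hF5' τ (Ioo_subset_Icc_self hτ),
              Fx_per 1 (hpu τ ⟨h1.trans hτ.1, hτ.2.trans h2⟩)]
          · rw [indicator_of_notMem hτ, indicator_of_notMem hτ]
        unfold Hs
        simp only
        rw [e])
    rw [← hs₀] at h3
    calc ∫⁻ t in Ioo t₁ t₂, ∫⁻ y in cell,
          (Reg K 1 (u t) y - ENNReal.ofReal (C * (s₀ + 1 / (t - t₁) ^ 2)))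
        = ∫⁻ t in Ioo t₁ t₂, ∫⁻ y in cell, (Reg K 1 (u t) y - ENNReal.ofReal C *
          (ENNReal.ofReal s₀ + ENNReal.ofReal (1 / (t - t₁) ^ 2))) := by
          refine lintegral_congr fun t => lintegral_congr fun y => ?_
          rw [← ENNReal.ofReal_add hs₀0.le (by positivity), ← ENNReal.ofReal_mul hC.le]
      _ ≤ ENNReal.ofReal C * ∫⁻ t in Ioo t₁ t₂, ∫⁻ y in cell, Fx 1 (u t) y := h3
      _ ≤ ENNReal.ofReal C * ∫⁻ t in Ioo t₁ t₂, ENNReal.ofReal (A * 216) *
            ENNReal.ofReal (enstrophy (u t)) := by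
          refine mul_le_mul_right (setLIntegral_mono' measurableSet_Ioo fun t ht => ?_) _
          have htT : t ∈ Ioo 0 T := ⟨h1.trans ht.1, ht.2.trans h2⟩
          obtain ⟨M, hM0, hM⟩ := hN.bdd t t htT.1 htT.2
          have hgm := gw_meas (slice_cd hN.smooth_u htT)
          obtain ⟨g, hg⟩ : ∃ g : V → ℝ≥0∞, g = (ball (0 : V) 3).indicator (Sp.gw (u t)) := ⟨_, rfl⟩
          have h6 := hHL 1 one_pos g (by rw [hg]; exact hgm.indicator measurableSet_ball)
            (ENNReal.ofReal (9 * M ^ 2) ^ (6 / 7 : ℝ))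
            (ENNReal.rpow_ne_top_of_nonneg (by norm_num) ENNReal.ofReal_ne_top)
            (fun x => by
              rw [hg]
              exact (indicator_le_self _ _ x).trans
                (gw_bd (fun x => (hM t ⟨le_rfl, le_rfl⟩ x).2) x))
          have h7 : ∫⁻ x, g x ^ (7 / 6 : ℝ) ≤ ENNReal.ofReal (216 * enstrophy (u t)) := by
            refine le_trans (le_of_eq ?_)
              (W221.NS.B.p_pere _ ⟨slice_smooth hN.smooth_u htT, hpu t htT⟩)
            rw [← lintegral_indicator measurableSet_ball]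
            refine lintegral_congr fun x => ?_
            rw [hg]
            by_cases hx : x ∈ ball (0 : V) 3
            · rw [indicator_of_mem hx, indicator_of_mem hx, gw_pow]
              congr 1
              unfold gsq
              refine Finset.sum_congr rfl fun i _ => Finset.sum_congr rfl fun j _ => ?_
              congr 1
              refine pd_congr_open isOpen_ball (fun z hz => ?_) j hx
              show u t z i = zt z • u t z i
              rw [zt_one hz, one_smul]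
            · rw [indicator_of_notMem hx, indicator_of_notMem hx,
                ENNReal.zero_rpow_of_pos (by norm_num)]
          have h8 : ∫⁻ y in cell, Fx 1 (u t) y ≤ ∫⁻ x, Hl.Mx 1 g x ^ (7 / 6 : ℝ) := by
            rw [← lintegral_indicator meas_cell]
            refine lintegral_mono fun x => ?_
            by_cases hx : x ∈ cell
            · rw [indicator_of_mem hx]
              unfold Fx Hl.Mx
              refine ENNReal.rpow_le_rpow (iSup_mono fun m => ?_) (by norm_num)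
              refine ENNReal.div_le_div_right (le_of_eq ?_) _
              refine setLIntegral_congr_fun measurableSet_ball fun y hy => ?_
              rw [hg, indicator_of_mem]
              have h9 := Hl.Rr_le (R₀ := 1) one_pos m
              have h10 := cell_norm hx
              rw [mem_ball] at hy ⊢
              have h11 := dist_triangle y x 0
              rw [dist_zero_right x] at h11
              linarith
            · rw [indicator_of_notMem hx]
              exact zero_le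
          refine h8.trans (h6.trans ((mul_le_mul_right h7 _).trans (le_of_eq ?_)))
          rw [ENNReal.ofReal_mul (by norm_num : (0 : ℝ) ≤ 216), ← mul_assoc,
            ← ENNReal.ofReal_mul hA.le]
      _ = ENNReal.ofReal (C * (A * 216)) *
            ∫⁻ t in Ioo t₁ t₂, ENNReal.ofReal (enstrophy (u t)) := by
          rw [lintegral_const_mul' _ _ ENNReal.ofReal_ne_top, ← mul_assoc,
            ← ENNReal.ofReal_mul hC.le]
      _ ≤ _ := mul_le_mul_right (lintegral_mono_set (Ioo_subset_Ioo h1.le h2.le)) _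
  have hp1 : 0 < C * (A * 216) := by positivity
  refine le_trans ?_ (key.trans (mul_le_mul_left (ENNReal.ofReal_le_ofReal (by
    have : 0 < 4 * C * (s₀ + 1) := by positivity
    linarith)) _))
  refine setLIntegral_mono' measurableSet_Ioo fun t ht => ?_
  refine lintegral_mono fun y => tsub_le_tsub_left (ENNReal.ofReal_le_ofReal ?_) _
  have h12 : 0 ≤ 1 / t ^ 2 := by positivity
  have h13 : 0 ≤ s₀ * (1 / t ^ 2) := by positivity
  have h14 : 0 ≤ C * (A * 216) * (1 + 1 / t ^ 2) := by positivity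
  calc 4 * C * (s₀ + 1 / t ^ 2) ≤ 4 * C * ((s₀ + 1) * (1 + 1 / t ^ 2)) := by
        gcongr
        nlinarith
    _ ≤ (4 * C * (s₀ + 1) + C * (A * 216)) * (1 + 1 / t ^ 2) := by nlinarith

end Pool.Agent.Y7
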