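import Pool.Agent.Y7.DCore
import Pool.Agent.Y7.Fin7
import Pool.Agent.W349.MF.OMEGA1

/-!
Local solutions: the integral of the regularity scale over a ball (helper7).
-/

set_option autoImplicit false
set_option linter.unusedVariables false

open MeasureTheory Set Metric Filter Topology
open scoped ContDiff ENNReal NNReal

namespace Pool.Agent.Y7.D

open H459R3.NS W221.NS Pool.Agent.TH305.LW Pool.Agent.TH305.DR Pool.Agent.TH305.LG Pool.Agent.Y7
open Pool.Agent.Y7.Cov1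

/-- The local maximal theorem. -/
theorem FxLoc : ∃ C : ℝ, 0 < C ∧ ∀ R₀ : ℝ, 0 < R₀ → ∀ (O Og : Set V), MeasurableSet O →
    MeasurableSet Og → (∀ x ∈ Og, ball x R₀ ⊆ O) → ∀ v : V → V, ContDiff ℝ ∞ v → ∀ M : ℝ,
    (∀ x i j, |pd j (fun y => v y i) x| ≤ M) →
    ∫⁻ x in Og, Fx R₀ v x ≤ ENNReal.ofReal C * ∫⁻ x in O, ENNReal.ofReal (gsq v x) := by
  obtain ⟨A, hA, hHL⟩ := FxL
  refine ⟨A, hA, fun R₀ hR₀ O Og hO hOg hb v hv M hM => ?_⟩
  have h1 : ∀ x ∈ Og, Fx R₀ v x = Hl.Mx R₀ (O.indicator (Sp.gw v)) x ^ (7 / 6 : ℝ) := by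
    intro x hx
    unfold Fx Hl.Mx
    congr 1
    refine iSup_congr fun m => ?_
    congr 1
    refine setLIntegral_congr_fun measurableSet_ball fun y hy => ?_
    have : y ∈ O := hb x hx (ball_subset_ball (by
      unfold Hl.Rr
      exact div_le_self hR₀.le (one_le_pow₀ (by norm_num))) hy)
    exact (indicator_of_mem this _).symm
  have h2 := hHL R₀ hR₀ (O.indicator (Sp.gw v)) ((gw_meas hv).indicator hO)
    (ENNReal.ofReal (9 * M ^ 2) ^ (6 / 7 : ℝ))
    (ENNReal.rpow_ne_top_of_nonneg (by norm_num) ENNReal.ofReal_ne_top)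
    (fun x => (indicator_le_self _ _ x).trans (gw_bd hM x))
  calc ∫⁻ x in Og, Fx R₀ v x
      = ∫⁻ x in Og, Hl.Mx R₀ (O.indicator (Sp.gw v)) x ^ (7 / 6 : ℝ) :=
        setLIntegral_congr_fun hOg h1
    _ ≤ ∫⁻ x, Hl.Mx R₀ (O.indicator (Sp.gw v)) x ^ (7 / 6 : ℝ) := setLIntegral_le_lintegral _ _
    _ ≤ _ := h2
    _ = ENNReal.ofReal A * ∫⁻ x, O.indicator (fun x => ENNReal.ofReal (gsq v x)) x := by
        congr 1
        refine lintegral_congr fun x => ?_
        by_cases hx : x ∈ O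
        · rw [indicator_of_mem hx, indicator_of_mem hx, gw_pow]
        · rw [indicator_of_notMem hx, indicator_of_notMem hx,
            ENNReal.zero_rpow_of_pos (by norm_num)]
    _ = _ := by rw [lintegral_indicator hO]

lemma SV_congr {O : Set V} (hO : IsOpen O) {v w : V → V} (h : ∀ x ∈ O, v x = w x) (n : ℕ) :
    ∀ x ∈ O, SV n v x = SV n w x := by
  intro x hx
  unfold SV
  refine Finset.sum_congr rfl fun i _ => ?_
  apply SS_congr_nhds
  filter_upwards [hO.mem_nhds hx] with y hy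
  rw [h y hy]

/-- The regularity scale is local. -/
lemma reg_loc {K : ℕ → ℝ} {ν : ℝ} {v w : V → V} {x : V} {d : ℝ} (hd : 0 < d)
    (h : ∀ y ∈ ball x d, v y = w y) :
    Reg K ν v x ≤ Reg K ν w x + ENNReal.ofReal (1 / d ^ 4) := by
  unfold Reg
  rw [ENNReal.iInf_add]
  refine le_iInf fun ρ => ?_
  rw [ENNReal.iInf_add]
  refine le_iInf fun hρ => ?_
  have hm : 0 < min ρ d := lt_min hρ.1 hd
  have hA : Adm K ν v x (min ρ d) := by
    refine ⟨hm, fun y hy n => ?_⟩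
    have hy1 : y ∈ ball x ρ := ball_subset_ball (min_le_left _ _) hy
    have hy2 : y ∈ ball x d := ball_subset_ball (min_le_right _ _) hy
    rw [SV_congr isOpen_ball h (n + 1) y hy2]
    refine le_trans ?_ (hρ.2 y hy1 n)
    have := SV_nn (n + 1) w y
    gcongr
    exact min_le_left _ _
  refine (iInf₂_le (min ρ d) hA).trans ?_
  rw [← ENNReal.ofReal_add (by have := hρ.1; positivity) (by positivity)]
  apply ENNReal.ofReal_le_ofReal
  rcases le_total ρ d with h1 | h1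
  · rw [min_eq_left h1]
    have : 0 ≤ 1 / d ^ 4 := by positivity
    linarith
  · rw [min_eq_right h1]
    have := hρ.1
    have : 0 ≤ 1 / ρ ^ 4 := by positivity
    linarith

/-- The estimate over a ball. -/
theorem dball : ∃ (C : ℝ) (K : ℕ → ℝ), 0 < C ∧ (∀ n, 0 < K n) ∧
    ∀ (T : ℝ) (u : ℝ → V → V) (p : ℝ → V → ℝ) (x₀ : V) (R : ℝ), 0 < R →
      DSol T (ball x₀ R) u p → ∀ (t₁ t₂ : ℝ), 0 < t₁ → t₁ < t₂ → t₂ < T →
      ∫⁻ t in Ioo t₁ t₂, ∫⁻ y in ball x₀ (R / 4),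
          (Reg K 1 (u t) y - ENNReal.ofReal (C * (1 / R ^ 4 + 1 / (t - t₁) ^ 2)))
        ≤ ENNReal.ofReal C * ((∫⁻ t in Ioo t₁ t₂, ∫⁻ y in ball x₀ R, ENNReal.ofReal (gsq (u t) y))
          + ENNReal.ofReal (1 / R) *
            ∫⁻ t in Ioo t₁ t₂, ∫⁻ y in ball x₀ (R / 2), ‖u t y‖ₑ ^ (3 : ℝ)) := by
  obtain ⟨C, K, hC, hK, H⟩ := core
  obtain ⟨A, hA, hFx⟩ := FxLoc
  refine ⟨C * (32 ^ 4 + A), K, by positivity, hK, ?_⟩
  intro T u p x₀ R hR hN t₁ t₂ h1 h12 h2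
  have hR2 : 0 < R / 2 := by positivity
  have hsc : sc (R / 2) 0 = R / 32 := by
    unfold sc Hl.Rr
    rw [pow_zero, div_one]
    ring
  have hball : ∀ x ∈ ball x₀ (R / 2), ball x (R / 2) ⊆ ball x₀ R := by
    intro x hx
    apply ball_subset_ball'
    rw [mem_ball] at hx
    linarith
  have h3 := H T (ball x₀ R) u p hN (R / 2) hR2 (ball x₀ (R / 2)) (ball x₀ (R / 4)) (R / 4)
    isOpen_ball measurableSet_ball (ball_subset_ball (by linarith)) (by positivity)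
    (fun x hx => (ball_subset_ball (by rw [hsc]; linarith)).trans (hball x hx))
    (fun x hx y hy => by
      rw [mem_ball] at hx
      rw [mem_ball, not_lt] at hy
      have := dist_triangle y x x₀
      rw [← dist_eq_norm, dist_comm]
      linarith) t₁ t₂ h1 h12 h2
  rw [hsc] at h3
  have hFi : ∫⁻ t in Ioo t₁ t₂, ∫⁻ y in ball x₀ (R / 2), Fx (R / 2) (u t) y
      ≤ ENNReal.ofReal A * ∫⁻ t in Ioo t₁ t₂, ∫⁻ y in ball x₀ R, ENNReal.ofReal (gsq (u t) y) := by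
    rw [← lintegral_const_mul' _ _ ENNReal.ofReal_ne_top]
    refine setLIntegral_mono' measurableSet_Ioo fun t ht => ?_
    have htT : t ∈ Ioo 0 T := ⟨h1.trans ht.1, ht.2.trans h2⟩
    obtain ⟨M, hM0, hM⟩ := hN.bdd t t htT.1 htT.2
    exact hFx (R / 2) hR2 (ball x₀ R) (ball x₀ (R / 2)) measurableSet_ball measurableSet_ball
      hball (u t) (slice_cd hN.smooth_u htT) M fun x => (hM t ⟨le_rfl, le_rfl⟩ x).2
  obtain ⟨P, hP⟩ : ∃ P, P = ∫⁻ t in Ioo t₁ t₂, ∫⁻ y in ball x₀ R, ENNReal.ofReal (gsq (u t) y) :=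
    ⟨_, rfl⟩
  obtain ⟨Q, hQ⟩ : ∃ Q, Q = ∫⁻ t in Ioo t₁ t₂, ∫⁻ y in ball x₀ (R / 2), ‖u t y‖ₑ ^ (3 : ℝ) :=
    ⟨_, rfl⟩
  rw [← hP] at hFi ⊢
  rw [← hQ] at h3 ⊢
  calc ∫⁻ t in Ioo t₁ t₂, ∫⁻ y in ball x₀ (R / 4),
          (Reg K 1 (u t) y - ENNReal.ofReal (C * (32 ^ 4 + A) * (1 / R ^ 4 + 1 / (t - t₁) ^ 2)))
      ≤ ∫⁻ t in Ioo t₁ t₂, ∫⁻ y in ball x₀ (R / 4), (Reg K 1 (u t) y - ENNReal.ofReal C *
          (ENNReal.ofReal (1 / (R / 32) ^ 4) + ENNReal.ofReal (1 / (t - t₁) ^ 2))) := by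
        refine setLIntegral_mono' measurableSet_Ioo fun t ht => ?_
        refine lintegral_mono fun y => tsub_le_tsub_left ?_ _
        have h4 : 0 < t - t₁ := by linarith [ht.1]
        rw [← ENNReal.ofReal_add (by positivity) (by positivity), ← ENNReal.ofReal_mul hC.le]
        apply ENNReal.ofReal_le_ofReal
        rw [mul_assoc]
        gcongr
        have e1 : 1 / (R / 32) ^ 4 = 32 ^ 4 * (1 / R ^ 4) := by
          field_simp
        rw [e1]
        have h5 : 0 ≤ 1 / R ^ 4 := by positivity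
        have h6 : 0 ≤ 1 / (t - t₁) ^ 2 := by positivity
        nlinarith
    _ ≤ _ := h3
    _ ≤ ENNReal.ofReal C * (ENNReal.ofReal A * P
        + ENNReal.ofReal ((R / 32) ^ 2 / (R / 4) ^ 3) * Q) := by gcongr
    _ ≤ ENNReal.ofReal C * (ENNReal.ofReal (32 ^ 4 + A) * P
        + ENNReal.ofReal (32 ^ 4 + A) * (ENNReal.ofReal (1 / R) * Q)) := by
        refine mul_le_mul_right (add_le_add (mul_le_mul_left (ENNReal.ofReal_le_ofReal
          (by linarith [show (0 : ℝ) ≤ 32 ^ 4 by norm_num])) _) ?_) _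
        rw [← mul_assoc, ← ENNReal.ofReal_mul (by positivity)]
        refine mul_le_mul_left (ENNReal.ofReal_le_ofReal ?_) _
        have e2 : (R / 32) ^ 2 / (R / 4) ^ 3 = 64 / 1024 * (1 / R) := by
          field_simp
          norm_num
        rw [e2]
        have : 0 ≤ 1 / R := by positivity
        nlinarith
    _ = _ := by
        rw [ENNReal.ofReal_mul hC.le]
        ring

end Pool.Agent.Y7.D
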