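import Pool.Agent.Y7.DDef
import Pool.Agent.Y7.Flw7

/-!
Local solutions: the flow, forwards and backwards (helper7).
-/

set_option autoImplicit false
set_option linter.unusedVariables false

open MeasureTheory Set Metric Filter Topology
open scoped ContDiff ENNReal NNReal

namespace Pool.Agent.Y7.D

open H459R3.NS W221.NS Pool.Agent.TH305.LW Pool.Agent.TH305.DR Pool.Agent.TH305.LG Pool.Agent.Y7

section
variable {T : ℝ} {O : Set V} {u : ℝ → V → V} {p : ℝ → V → ℝ}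

/-- The flow labelled by the initial positions. -/
theorem flowJ (h : DSol T O u p) {t₁ t₂ : ℝ} (h1 : 0 < t₁) (h12 : t₁ < t₂) (h2 : t₂ < T) :
    ∃ F : ℝ → V → V, (∀ a, F t₁ a = a) ∧ (∀ a, Traj u t₁ t₂ (fun t => F t a)) ∧
      ContinuousOn (fun z : ℝ × V => F z.1 z.2) (Icc t₁ t₂ ×ˢ univ) ∧
      ∀ s ∈ Icc t₁ t₂, Measure.map (F s) volume ≤ volume := by
  obtain ⟨c, hc⟩ : ∃ c, c = t₁ / 2 := ⟨_, rfl⟩
  obtain ⟨d, hd⟩ : ∃ d, d = (t₂ + T) / 2 := ⟨_, rfl⟩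
  have hu := h.smooth_u
  obtain ⟨M, hM0, hMb⟩ := h.bdd c d (by linarith) (by linarith)
  have hsubT : ∀ t ∈ Ioo c d, t ∈ Ioo 0 T := fun t ht => ⟨by linarith [ht.1], by linarith [ht.2]⟩
  have hm : ∀ τ ∈ Ioo 0 (d - c), d - τ ∈ Ioo c d := fun τ hτ => ⟨by linarith [hτ.2], by
    linarith [hτ.1]⟩
  have hg : Good2 (d - c) M M 0 (fun τ x => -u (d - τ) x) :=
    { smooth := by
        have h3 : ContDiffOn ℝ ∞ (fun z : ℝ × V => u (d - z.1) z.2) (Ioo 0 (d - c) ×ˢ univ) := by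
          apply hu.comp (f := fun z : ℝ × V => (d - z.1, z.2)) (by fun_prop)
          intro z hz
          exact ⟨hsubT _ (hm _ hz.1), trivial⟩
        exact h3.neg
      bd := fun t ht x => by
        show ‖-u (d - t) x‖ ≤ M
        rw [norm_neg]
        exact (hMb _ (Ioo_subset_Icc_self (hm t ht)) x).1
      lip := fun t ht x i j => by
        have h3 : pd j (fun y => (-u (d - t) y) i) x = -pd j (fun y => u (d - t) y i) x := by
          unfold pd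
          have : (fun y => (-u (d - t) y) i) = -(fun y => u (d - t) y i) := rfl
          rw [this, fderiv_neg]
          rfl
        show |pd j (fun y => (-u (d - t) y) i) x| ≤ M
        rw [h3, abs_neg]
        exact (hMb _ (Ioo_subset_Icc_self (hm t ht)) x).2 i j
      div := fun t ht x => by
        have h3 : ∀ i, pd i (fun y => (-u (d - t) y) i) x = -pd i (fun y => u (d - t) y i) x := by
          intro i
          unfold pd
          have : (fun y => (-u (d - t) y) i) = -(fun y => u (d - t) y i) := rfl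
          rw [this, fderiv_neg]
          rfl
        have h4 : dv (fun x => -u (d - t) x) x = -dv (u (d - t)) x := by
          unfold dv
          rw [← Finset.sum_neg_distrib]
          exact Finset.sum_congr rfl fun i _ => h3 i
        show |dv (fun x => -u (d - t) x) x| ≤ 0
        rw [h4, h.divfree _ (hsubT _ (hm t ht)) x]
        simp }
  have hα : 0 < d - t₂ := by linarith
  have hαβ : d - t₂ < d - t₁ := by linarith
  have hβ : d - t₁ < d - c := by linarith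
  obtain ⟨X, hX⟩ := W221.NS.B.p_flowx2 _ _ _ _ _ hg _ _ hα hαβ hβ
  have hmap := W221.NS.B.p_flowm2 _ _ _ _ _ hg _ _ hα hαβ hβ X hX
  have hI : ∀ s ∈ Icc t₁ t₂, d - s ∈ Icc (d - t₂) (d - t₁) := fun s hs => ⟨by linarith [hs.2], by
    linarith [hs.1]⟩
  refine ⟨fun t a => X (d - t) a, fun a => hX.fin a, fun a => ⟨?_, ?_⟩, ?_, fun s hs => ?_⟩
  · exact hX.cont.comp (f := fun τ : ℝ => (d - τ, a)) (by fun_prop)
      (fun τ hτ => ⟨hI τ hτ, mem_univ _⟩)
  · intro t ht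
    have h3 := hX.ode a (d - t) ⟨by linarith [ht.2], by linarith [ht.1]⟩
    have h4 : HasDerivAt (fun t : ℝ => d - t) (-1) t := by
      simpa using (hasDerivAt_id t).const_sub d
    have h5 := h3.scomp t h4
    simp only [neg_smul, one_smul, neg_neg, sub_sub_cancel] at h5
    exact h5
  · exact hX.cont.comp (f := fun z : ℝ × V => (d - z.1, z.2)) (by fun_prop)
      (fun z hz => ⟨hI z.1 hz.1, mem_univ _⟩)
  · have h3 := hmap (d - s) (hI s hs)
    simpa using h3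

/-- The flow labelled by the final positions. -/
theorem flowB (h : DSol T O u p) {t₁ t₂ : ℝ} (h1 : 0 < t₁) (h12 : t₁ < t₂) (h2 : t₂ < T) :
    ∃ X : ℝ → V → V, (∀ a, X t₂ a = a) ∧ (∀ a, Traj u t₁ t₂ (fun t => X t a)) ∧
      ∀ s ∈ Icc t₁ t₂, Continuous (X s) ∧ Measure.map (X s) volume ≤ volume := by
  obtain ⟨c, hc⟩ : ∃ c, c = t₁ / 2 := ⟨_, rfl⟩
  obtain ⟨d, hd⟩ : ∃ d, d = (t₂ + T) / 2 := ⟨_, rfl⟩
  have hu := h.smooth_u
  obtain ⟨M, hM0, hMb⟩ := h.bdd c d (by linarith) (by linarith)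
  have hsubT : ∀ t ∈ Ioo c d, t ∈ Ioo 0 T := fun t ht => ⟨by linarith [ht.1], by linarith [ht.2]⟩
  have hm : ∀ τ ∈ Ioo 0 (d - c), c + τ ∈ Ioo c d := fun τ hτ => ⟨by linarith [hτ.1], by
    linarith [hτ.2]⟩
  have hg : Good2 (d - c) M M 0 (fun τ x => u (c + τ) x) :=
    { smooth := by
        apply hu.comp (f := fun z : ℝ × V => (c + z.1, z.2)) (by fun_prop)
        intro z hz
        exact ⟨hsubT _ (hm _ hz.1), trivial⟩
      bd := fun t ht x => (hMb _ (Ioo_subset_Icc_self (hm t ht)) x).1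
      lip := fun t ht x i j => (hMb _ (Ioo_subset_Icc_self (hm t ht)) x).2 i j
      div := fun t ht x => by
        show |dv (u (c + t)) x| ≤ 0
        rw [h.divfree _ (hsubT _ (hm t ht)) x]
        simp }
  have hα : 0 < t₁ - c := by linarith
  have hαβ : t₁ - c < t₂ - c := by linarith
  have hβ : t₂ - c < d - c := by linarith
  obtain ⟨X, hX⟩ := W221.NS.B.p_flowx2 _ _ _ _ _ hg _ _ hα hαβ hβ
  have hmap := W221.NS.B.p_flowm2 _ _ _ _ _ hg _ _ hα hαβ hβ X hX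
  have hI : ∀ s ∈ Icc t₁ t₂, s - c ∈ Icc (t₁ - c) (t₂ - c) := fun s hs => ⟨by linarith [hs.1], by
    linarith [hs.2]⟩
  refine ⟨fun t a => X (t - c) a, fun a => hX.fin a, fun a => ⟨?_, ?_⟩, fun s hs => ⟨?_, ?_⟩⟩
  · exact hX.cont.comp (f := fun τ : ℝ => (τ - c, a)) (by fun_prop)
      (fun τ hτ => ⟨hI τ hτ, mem_univ _⟩)
  · intro t ht
    have h3 := hX.ode a (t - c) ⟨by linarith [ht.1], by linarith [ht.2]⟩
    have h4 : HasDerivAt (fun t : ℝ => t - c) 1 t := (hasDerivAt_id t).sub_const c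
    have h5 := h3.scomp t h4
    simp only [one_smul, add_sub_cancel] at h5
    exact h5
  · exact continuousOn_univ.1 (hX.cont.comp (f := fun a : V => (s - c, a)) (by fun_prop)
      (fun a _ => ⟨hI s hs, mem_univ _⟩))
  · have h3 := hmap (s - c) (hI s hs)
    simpa using h3

lemma lipN (h : DSol T O u p) {t₁ t₂ : ℝ} (h1 : 0 < t₁) (h2 : t₂ < T) :
    ∃ L : ℝ≥0, ∀ t ∈ Ioo t₁ t₂, LipschitzWith L (u t) := by
  obtain ⟨M, hM0, hMb⟩ := h.bdd t₁ t₂ h1 h2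
  refine ⟨(3 * M).toNNReal, fun t ht => ?_⟩
  have htT : t ∈ Ioo 0 T := ⟨by linarith [ht.1], by linarith [ht.2]⟩
  exact lip_of_pd hM0 ((slice_smooth h.smooth_u htT).differentiable (by norm_cast))
    (fun x => (hMb t (Ioo_subset_Icc_self ht) x).2)

lemma traj_mono {t₁ t₂ s₁ s₂ : ℝ} {ξ : ℝ → V} (h : Traj u t₁ t₂ ξ) (h1 : t₁ ≤ s₁) (h2 : s₂ ≤ t₂) :
    Traj u s₁ s₂ ξ :=
  ⟨h.cont.mono (Icc_subset_Icc h1 h2), fun t ht => h.ode t ⟨h1.trans_lt ht.1, ht.2.trans_le h2⟩⟩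

/-- The flow and its inverse. -/
theorem flowN (h : DSol T O u p) {t₁ t₂ : ℝ} (h1 : 0 < t₁) (h12 : t₁ < t₂) (h2 : t₂ < T) :
    ∃ F : ℝ → V → V, (∀ a, Traj u t₁ t₂ (fun t => F t a)) ∧
      ContinuousOn (fun z : ℝ × V => F z.1 z.2) (Icc t₁ t₂ ×ˢ univ) ∧
      (∀ s ∈ Icc t₁ t₂, Measure.map (F s) volume ≤ volume) ∧
      ∀ t ∈ Ioc t₁ t₂, ∃ φ : V → V, Continuous φ ∧ (∀ y, F t (φ y) = y) ∧
        Measure.map φ volume ≤ volume := by
  obtain ⟨F, hF1, hF2, hF3, hF4⟩ := flowJ h h1 h12 h2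
  obtain ⟨L, hL⟩ := lipN h h1 h2
  refine ⟨F, hF2, hF3, hF4, ?_⟩
  intro t ht
  obtain ⟨X, hX1, hX2, hX3⟩ := flowB h h1 ht.1 (ht.2.trans_lt h2)
  have hLt : ∀ τ ∈ Ioo t₁ t, LipschitzWith L (u τ) := fun τ hτ => hL τ ⟨hτ.1,
    hτ.2.trans_le ht.2⟩
  refine ⟨X t₁, (hX3 t₁ ⟨le_rfl, ht.1.le⟩).1, fun y => ?_, (hX3 t₁ ⟨le_rfl, ht.1.le⟩).2⟩
  have := traj_unique hLt (traj_mono (hF2 (X t₁ y)) le_rfl ht.2) (hX2 y) (hF1 _) t
    ⟨ht.1.le, le_rfl⟩
  rw [this, hX1]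

end

end Pool.Agent.Y7.D
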