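import Pool.Agent.Y7.DReg
import Pool.Agent.Y7.DFlw
import Pool.Agent.Y7.Core7

/-!
Local solutions: the integral of the regularity scale, by the maximal function and by the third
power of the velocity, which controls the particles that enter from the outside (helper7).
-/

set_option autoImplicit false
set_option linter.unusedVariables false

open MeasureTheory Set Metric Filter Topology
open scoped ContDiff ENNReal NNReal

namespace Pool.Agent.Y7.D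

open H459R3.NS W221.NS Pool.Agent.TH305.LW Pool.Agent.TH305.DR Pool.Agent.TH305.LG Pool.Agent.Y7
open Pool.Agent.Y7.Cov1

/-- A particle which comes from the outside has moved. -/
lemma disp {T : ℝ} {u : ℝ → V → V}
    (hu : ContDiffOn ℝ ∞ (fun z : ℝ × V => u z.1 z.2) (Ioo 0 T ×ˢ univ)) {t₁ t₂ : ℝ}
    (h1 : 0 < t₁) (h2 : t₂ < T) {ξ : ℝ → V} (hξ : Traj u t₁ t₂ ξ) {Og : Set V}
    (hOg : IsOpen Og) {δ : ℝ} {a t : ℝ} (ha : t₁ ≤ a) (ht : t < t₂)
    (hsep : ∀ y, y ∉ Og → δ ≤ ‖ξ t - y‖) (hex : ∃ τ ∈ Ioo a t, ξ τ ∉ Og) :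
    ENNReal.ofReal δ ≤ ∫⁻ τ in Ioo a t, Og.indicator (fun y => ‖u τ y‖ₑ) (ξ τ) := by
  obtain ⟨τ₀, hτ₀, hτ₀O⟩ := hex
  obtain ⟨S, hS⟩ : ∃ S, S = {τ | τ ∈ Icc τ₀ t ∧ ξ τ ∉ Og} := ⟨_, rfl⟩
  have hξc : ContinuousOn ξ (Icc τ₀ t) := hξ.cont.mono (Icc_subset_Icc
    (ha.trans hτ₀.1.le) ht.le)
  have hSc : IsCompact S := by
    rw [hS]
    have h3 : IsClosed (Icc τ₀ t ∩ ξ ⁻¹' Ogᶜ) :=
      hξc.preimage_isClosed_of_isClosed isClosed_Icc hOg.isClosed_compl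
    exact isCompact_Icc.of_isClosed_subset h3 inter_subset_left
  have hSne : S.Nonempty := ⟨τ₀, by rw [hS]; exact ⟨⟨le_rfl, hτ₀.2.le⟩, hτ₀O⟩⟩
  obtain ⟨e, heS, hemax⟩ := hSc.exists_isGreatest hSne
  rw [hS] at heS
  obtain ⟨he1, he2⟩ := heS
  have hin : ∀ τ ∈ Ioc e t, ξ τ ∈ Og := by
    intro τ hτ
    by_contra hcon
    have : τ ∈ S := by
      rw [hS]
      exact ⟨⟨he1.1.trans hτ.1.le, hτ.2⟩, hcon⟩
    exact absurd (hemax this) (not_le.2 hτ.1)
  have het : e ≤ t := he1.2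
  have hae : a < e := hτ₀.1.trans_le he1.1
  have hc : ContinuousOn (fun τ => u τ (ξ τ)) (Icc e t) := by
    apply hu.continuousOn.comp (f := fun τ : ℝ => (τ, ξ τ))
      (continuousOn_id.prodMk (hξc.mono (Icc_subset_Icc_left he1.1)))
    intro τ hτ
    exact ⟨⟨by linarith [hτ.1], by linarith [hτ.2]⟩, mem_univ _⟩
  have hint : IntervalIntegrable (fun τ => u τ (ξ τ)) volume e t := by
    apply ContinuousOn.intervalIntegrable
    rw [uIcc_of_le het]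
    exact hc
  have hftc := intervalIntegral.integral_eq_sub_of_hasDerivAt_of_le het
    (hξc.mono (Icc_subset_Icc_left he1.1))
    (fun τ hτ => hξ.ode τ ⟨by linarith [hτ.1], by linarith [hτ.2]⟩) hint
  have h3 := hsep (ξ e) he2
  calc ENNReal.ofReal δ ≤ ENNReal.ofReal ‖ξ t - ξ e‖ := ENNReal.ofReal_le_ofReal h3
    _ = ‖∫ τ in e..t, u τ (ξ τ)‖ₑ := by rw [hftc, ofReal_norm]
    _ = ‖∫ τ in Ioc e t, u τ (ξ τ)‖ₑ := by rw [intervalIntegral.integral_of_le het]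
    _ ≤ ∫⁻ τ in Ioc e t, ‖u τ (ξ τ)‖ₑ := enorm_integral_le_lintegral_enorm _
    _ = ∫⁻ τ in Ioo e t, ‖u τ (ξ τ)‖ₑ := by
        rw [Measure.restrict_congr_set Ioo_ae_eq_Ioc]
    _ = ∫⁻ τ in Ioo e t, Og.indicator (fun y => ‖u τ y‖ₑ) (ξ τ) := by
        refine setLIntegral_congr_fun measurableSet_Ioo fun τ hτ => ?_
        rw [indicator_of_mem (hin τ ⟨hτ.1, hτ.2.le⟩)]
    _ ≤ _ := lintegral_mono_set (Ioo_subset_Ioo_left hae.le)

/-- The integral over the windows of length `h`. -/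
lemma win_int {G : ℝ → ℝ≥0∞} (hG : Measurable G) {h : ℝ} (hh : 0 ≤ h) :
    ∫⁻ t, ∫⁻ τ in Ioo (t - h) t, G τ = ENNReal.ofReal h * ∫⁻ τ, G τ := by
  have e1 : ∀ t, ∫⁻ τ in Ioo (t - h) t, G τ
      = ∫⁻ τ, {q : ℝ × ℝ | q.1 - h < q.2 ∧ q.2 < q.1}.indicator (fun q => G q.2) (t, τ) := by
    intro t
    rw [← lintegral_indicator measurableSet_Ioo]
    rfl
  have hm : Measurable ({q : ℝ × ℝ | q.1 - h < q.2 ∧ q.2 < q.1}.indicator
      (fun q : ℝ × ℝ => G q.2)) := by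
    refine Measurable.indicator (hG.comp measurable_snd) ?_
    exact (measurableSet_lt (measurable_fst.sub_const _) measurable_snd).inter
      (measurableSet_lt measurable_snd measurable_fst)
  simp_rw [e1]
  rw [lintegral_lintegral_swap (f := fun t τ =>
    {q : ℝ × ℝ | q.1 - h < q.2 ∧ q.2 < q.1}.indicator (fun q => G q.2) (t, τ)) hm.aemeasurable]
  rw [← lintegral_const_mul _ hG]
  refine lintegral_congr fun τ => ?_
  have e2 : ∀ t, {q : ℝ × ℝ | q.1 - h < q.2 ∧ q.2 < q.1}.indicator (fun q => G q.2) (t, τ)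
      = (Ioo τ (τ + h)).indicator (fun _ => G τ) t := by
    intro t
    by_cases ht : t ∈ Ioo τ (τ + h)
    · rw [indicator_of_mem ht, indicator_of_mem (show (t, τ) ∈ {q : ℝ × ℝ | q.1 - h < q.2 ∧
        q.2 < q.1} from ⟨by show t - h < τ; linarith [ht.2], ht.1⟩)]
    · rw [indicator_of_notMem ht, indicator_of_notMem (show (t, τ) ∉ {q : ℝ × ℝ | q.1 - h < q.2 ∧
        q.2 < q.1} from fun hq => ht ⟨hq.2, by have : t - h < τ := hq.1; linarith⟩)]
  simp_rw [e2]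
  rw [lintegral_indicator measurableSet_Ioo, lintegral_const, Measure.restrict_apply_univ,
    Real.volume_Ioo, add_sub_cancel_left, mul_comm]

section
variable (Og : Set V) (t₁ t₂ : ℝ) (F : ℝ → V → V)

/-- The times and the particles inside. -/
def AA : Set (ℝ × V) := {z | z.1 ∈ Ioo t₁ t₂ ∧ F z.1 z.2 ∈ Og}

variable {Og t₁ t₂ F}

lemma AA_open (h12 : t₁ < t₂) (hO : IsOpen Og)
    (hF : ContinuousOn (fun z : ℝ × V => F z.1 z.2) (Icc t₁ t₂ ×ˢ univ)) :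
    IsOpen (AA Og t₁ t₂ F) := by
  have h1 : IsOpen (Ioo t₁ t₂ ×ˢ (univ : Set V)) := isOpen_Ioo.prod isOpen_univ
  have h2 := (hF.mono (prod_mono Ioo_subset_Icc_self subset_rfl)).isOpen_inter_preimage h1 hO
  convert h2 using 1
  ext z
  simp [AA, and_assoc]

/-- The finite part of the function along the flow. -/
noncomputable def f1 (R₀ : ℝ) (Og : Set V) (u : ℝ → V → V) (t₁ t₂ : ℝ) (F : ℝ → V → V) :
    ℝ × V → ℝ≥0∞ := (AA Og t₁ t₂ F).indicator (ff R₀ u t₁ t₂ F)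

/-- The velocity inside. -/
noncomputable def gg (Og : Set V) (u : ℝ → V → V) (t₁ t₂ : ℝ) (F : ℝ → V → V) :
    ℝ × V → ℝ≥0∞ := (AA Og t₁ t₂ F).indicator (fun z => ‖u z.1 (F z.1 z.2)‖ₑ)

/-- Infinity outside. -/
noncomputable def f2 (Og : Set V) (t₁ t₂ : ℝ) (F : ℝ → V → V) :
    ℝ × V → ℝ≥0∞ := ((Ioo t₁ t₂ ×ˢ univ) \ AA Og t₁ t₂ F).indicator (fun _ => ⊤)

lemma gg_meas {T : ℝ} {u : ℝ → V → V}
    (hu : ContDiffOn ℝ ∞ (fun z : ℝ × V => u z.1 z.2) (Ioo 0 T ×ˢ univ))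
    (h1 : 0 < t₁) (h12 : t₁ < t₂) (h2 : t₂ < T) (hO : IsOpen Og)
    (hF : ContinuousOn (fun z : ℝ × V => F z.1 z.2) (Icc t₁ t₂ ×ˢ univ)) :
    Measurable (gg Og u t₁ t₂ F) := by
  have hA := AA_open h12 hO hF
  have hc : ContinuousOn (fun z : ℝ × V => ‖u z.1 (F z.1 z.2)‖ₑ) (AA Og t₁ t₂ F) := by
    apply Continuous.comp_continuousOn continuous_enorm
    apply hu.continuousOn.comp (f := fun z : ℝ × V => (z.1, F z.1 z.2))
    · exact continuousOn_fst.prodMk (hF.mono fun z hz => ⟨Ioo_subset_Icc_self hz.1, mem_univ _⟩)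
    · intro z hz
      exact ⟨⟨h1.trans hz.1.1, hz.1.2.trans h2⟩, mem_univ _⟩
  classical
  have h := hc.measurable_piecewise (g := fun _ => (0 : ℝ≥0∞)) continuousOn_const hA.measurableSet
  unfold gg
  rw [← piecewise_eq_indicator]
  exact h

lemma f1_meas {T : ℝ} {u : ℝ → V → V}
    (hu : ContDiffOn ℝ ∞ (fun z : ℝ × V => u z.1 z.2) (Ioo 0 T ×ˢ univ)) (R₀ : ℝ)
    (h1 : 0 < t₁) (h12 : t₁ < t₂) (h2 : t₂ < T) (hO : IsOpen Og)
    (hF : ContinuousOn (fun z : ℝ × V => F z.1 z.2) (Icc t₁ t₂ ×ˢ univ)) :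
    Measurable (f1 R₀ Og u t₁ t₂ F) :=
  (ff_meas hu R₀ h1 h12 h2 hF).indicator (AA_open h12 hO hF).measurableSet

lemma f2_meas (h12 : t₁ < t₂) (hO : IsOpen Og)
    (hF : ContinuousOn (fun z : ℝ × V => F z.1 z.2) (Icc t₁ t₂ ×ˢ univ)) :
    Measurable (f2 Og t₁ t₂ F) :=
  measurable_const.indicator ((measurableSet_Ioo.prod MeasurableSet.univ).diff
    (AA_open h12 hO hF).measurableSet)

/-- The weights of the windows in which the particle enters. -/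
noncomputable def Ex (g : ℝ × V → ℝ≥0∞) (h₀ c : ℝ) (z : ℝ × V) : ℝ≥0∞ :=
  ∑' j : ℕ, ENNReal.ofReal c * ∫⁻ τ in Ioo (z.1 - hh h₀ j) z.1, g (τ, z.2) ^ (3 : ℝ)

lemma Ex_meas {g : ℝ × V → ℝ≥0∞} (hg : Measurable g) (h₀ c : ℝ) : Measurable (Ex g h₀ c) := by
  unfold Ex
  refine Measurable.tsum fun j => Measurable.const_mul ?_ _
  have e : (fun z : ℝ × V => ∫⁻ τ in Ioo (z.1 - hh h₀ j) z.1, g (τ, z.2) ^ (3 : ℝ))
      = fun z : ℝ × V => ∫⁻ τ, ({q : (ℝ × V) × ℝ | q.1.1 - hh h₀ j < q.2 ∧ q.2 < q.1.1}.indicator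
        (fun q => g (q.2, q.1.2) ^ (3 : ℝ))) (z, τ) := by
    funext z
    rw [← lintegral_indicator measurableSet_Ioo]
    rfl
  rw [e]
  apply Measurable.lintegral_prod_right' (f := {q : (ℝ × V) × ℝ |
    q.1.1 - hh h₀ j < q.2 ∧ q.2 < q.1.1}.indicator (fun q => g (q.2, q.1.2) ^ (3 : ℝ)))
  refine Measurable.indicator ?_ ?_
  · exact (hg.comp (measurable_snd.prodMk (measurable_snd.comp measurable_fst))).pow_const _
  · exact (measurableSet_lt ((measurable_fst.comp measurable_fst).sub_const _)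
      measurable_snd).inter (measurableSet_lt measurable_snd (measurable_fst.comp measurable_fst))

lemma Ex_int {g : ℝ × V → ℝ≥0∞} (hg : Measurable g) {h₀ c : ℝ} (hh₀ : 0 < h₀) (hc : 0 ≤ c)
    (a : V) : ∫⁻ t, Ex g h₀ c (t, a)
      ≤ ENNReal.ofReal (c * (4 / 3 * h₀)) * ∫⁻ τ, g (τ, a) ^ (3 : ℝ) := by
  have hga : Measurable (fun τ : ℝ => g (τ, a) ^ (3 : ℝ)) :=
    (hg.comp (measurable_id.prodMk measurable_const)).pow_const _
  have hm : ∀ j, Measurable (fun t : ℝ => ENNReal.ofReal c *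
      ∫⁻ τ in Ioo (t - hh h₀ j) t, g (τ, a) ^ (3 : ℝ)) := by
    intro j
    apply Measurable.const_mul
    have e : (fun t : ℝ => ∫⁻ τ in Ioo (t - hh h₀ j) t, g (τ, a) ^ (3 : ℝ))
        = fun t : ℝ => ∫⁻ τ, ({q : ℝ × ℝ | q.1 - hh h₀ j < q.2 ∧ q.2 < q.1}.indicator
          (fun q => g (q.2, a) ^ (3 : ℝ))) (t, τ) := by
      funext t
      rw [← lintegral_indicator measurableSet_Ioo]
      rfl
    rw [e]
    apply Measurable.lintegral_prod_right' (f := {q : ℝ × ℝ |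
      q.1 - hh h₀ j < q.2 ∧ q.2 < q.1}.indicator (fun q => g (q.2, a) ^ (3 : ℝ)))
    refine Measurable.indicator (hga.comp measurable_snd) ?_
    exact (measurableSet_lt (measurable_fst.sub_const _) measurable_snd).inter
      (measurableSet_lt measurable_snd measurable_fst)
  unfold Ex
  rw [lintegral_tsum fun j => (hm j).aemeasurable]
  have e1 : ∀ j, ∫⁻ t, ENNReal.ofReal c * ∫⁻ τ in Ioo (t - hh h₀ j) t, g (τ, a) ^ (3 : ℝ)
      = ENNReal.ofReal (c * hh h₀ j) * ∫⁻ τ, g (τ, a) ^ (3 : ℝ) := by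
    intro j
    rw [lintegral_const_mul' _ _ ENNReal.ofReal_ne_top, win_int hga (hh_pos hh₀ j).le,
      ← mul_assoc, ← ENNReal.ofReal_mul hc]
  simp_rw [e1]
  rw [ENNReal.tsum_mul_right]
  gcongr
  have hs : HasSum (fun j : ℕ => c * hh h₀ j) (c * (4 / 3 * h₀)) := by
    apply HasSum.mul_left
    have h1 := (hasSum_geometric_of_lt_one (r := (1 / 4 : ℝ)) (by norm_num)
      (by norm_num)).mul_left h₀
    have e2 : hh h₀ = fun j : ℕ => h₀ * (1 / 4) ^ j := by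
      funext j
      unfold hh
      rw [one_div, inv_pow]
      rfl
    rw [e2]
    convert h1 using 1
    norm_num
    ring
  rw [← ENNReal.ofReal_tsum_of_nonneg (fun j => mul_nonneg hc (hh_pos hh₀ j).le) hs.summable,
    hs.tsum_eq]

end

/-- The comparison of the windows. -/
lemma bad_split {T : ℝ} {u : ℝ → V → V}
    (hu : ContDiffOn ℝ ∞ (fun z : ℝ × V => u z.1 z.2) (Ioo 0 T ×ˢ univ)) {t₁ t₂ : ℝ}
    (h1 : 0 < t₁) (h12 : t₁ < t₂) (h2 : t₂ < T) (R₀ : ℝ) {Og : Set V} (hOg : IsOpen Og)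
    {F : ℝ → V → V} (hFt : ∀ a, Traj u t₁ t₂ (fun t => F t a))
    (hF : ContinuousOn (fun z : ℝ × V => F z.1 z.2) (Icc t₁ t₂ ×ˢ univ)) {δ : ℝ} (hδ : 0 < δ)
    {t : ℝ} (ht : t ∈ Ioo t₁ t₂) {a : V} (hsep : ∀ y, y ∉ Og → δ ≤ ‖F t a - y‖) {h₀ η : ℝ}
    (hh₀ : 0 < h₀) :
    ∑' j : ℕ, ENNReal.ofReal (1 / hh h₀ j ^ 2)
      * (bad (fun τ => f1 R₀ Og u t₁ t₂ F (τ, a) + f2 Og t₁ t₂ F (τ, a)) h₀ η j).indicator
        (fun _ => 1) t
      ≤ Hs (f1 R₀ Og u t₁ t₂ F) h₀ η (t, a) + Ex (gg Og u t₁ t₂ F) h₀ (1 / δ ^ 3) (t, a) := by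
  unfold Hs Ex
  rw [← ENNReal.tsum_add]
  refine ENNReal.tsum_le_tsum fun j => ?_
  have hhj := hh_pos hh₀ j
  by_cases hb : t ∈ bad (fun τ => f1 R₀ Og u t₁ t₂ F (τ, a) + f2 Og t₁ t₂ F (τ, a)) h₀ η j
  swap
  · rw [indicator_of_notMem hb, mul_zero]
    exact zero_le
  rw [indicator_of_mem hb, mul_one]
  obtain ⟨α, hα⟩ : ∃ α, α = max (t - hh h₀ j) t₁ := ⟨_, rfl⟩
  have hα1 : t₁ ≤ α := by rw [hα]; exact le_max_right _ _
  have hα2 : t - hh h₀ j ≤ α := by rw [hα]; exact le_max_left _ _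
  by_cases hex : ∃ τ ∈ Ioo α t, F τ a ∉ Og
  · refine le_add_left ?_
    have hd := disp hu h1 h2 (hFt a) hOg hα1 ht.2 hsep hex
    have hg : ∫⁻ τ in Ioo α t, Og.indicator (fun y => ‖u τ y‖ₑ) (F τ a)
        ≤ ∫⁻ τ in Ioo (t - hh h₀ j) t, gg Og u t₁ t₂ F (τ, a) := by
      calc ∫⁻ τ in Ioo α t, Og.indicator (fun y => ‖u τ y‖ₑ) (F τ a)
          = ∫⁻ τ in Ioo α t, gg Og u t₁ t₂ F (τ, a) := by
            refine setLIntegral_congr_fun measurableSet_Ioo fun τ hτ => ?_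
            have hτ2 : τ ∈ Ioo t₁ t₂ := ⟨hα1.trans_lt hτ.1, hτ.2.trans ht.2⟩
            unfold gg
            by_cases hO : F τ a ∈ Og
            · rw [indicator_of_mem hO, indicator_of_mem (show (τ, a) ∈ AA Og t₁ t₂ F from
                ⟨hτ2, hO⟩)]
            · rw [indicator_of_notMem hO, indicator_of_notMem (show (τ, a) ∉ AA Og t₁ t₂ F from
                fun h => hO h.2)]
        _ ≤ _ := lintegral_mono_set (Ioo_subset_Ioo_left hα2)
    have hgm : AEMeasurable (fun τ => gg Og u t₁ t₂ F (τ, a))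
        (volume.restrict (Ioo (t - hh h₀ j) t)) :=
      ((gg_meas hu h1 h12 h2 hOg hF).comp (measurable_id.prodMk measurable_const)).aemeasurable
    have hj := Poi.jensen (p := 3) (by norm_num) hgm
    rw [Measure.restrict_apply_univ, Real.volume_Ioo, sub_sub_cancel] at hj
    have h3 : ENNReal.ofReal (δ ^ 3) ≤ ENNReal.ofReal (hh h₀ j ^ 2) *
        ∫⁻ τ in Ioo (t - hh h₀ j) t, gg Og u t₁ t₂ F (τ, a) ^ (3 : ℝ) := by
      calc ENNReal.ofReal (δ ^ 3) = ENNReal.ofReal δ ^ (3 : ℝ) := by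
            rw [ENNReal.ofReal_rpow_of_nonneg hδ.le (by norm_num)]
            norm_num
        _ ≤ (∫⁻ τ in Ioo (t - hh h₀ j) t, gg Og u t₁ t₂ F (τ, a)) ^ (3 : ℝ) :=
            ENNReal.rpow_le_rpow (hd.trans hg) (by norm_num)
        _ ≤ _ := hj
        _ = _ := by
            congr 1
            rw [ENNReal.ofReal_rpow_of_nonneg hhj.le (by norm_num)]
            norm_num
    calc ENNReal.ofReal (1 / hh h₀ j ^ 2)
        = ENNReal.ofReal (1 / δ ^ 3 * (1 / hh h₀ j ^ 2)) * ENNReal.ofReal (δ ^ 3) := by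
          rw [← ENNReal.ofReal_mul (by positivity)]
          congr 1
          field_simp
      _ ≤ ENNReal.ofReal (1 / δ ^ 3 * (1 / hh h₀ j ^ 2)) * (ENNReal.ofReal (hh h₀ j ^ 2) *
        ∫⁻ τ in Ioo (t - hh h₀ j) t, gg Og u t₁ t₂ F (τ, a) ^ (3 : ℝ)) :=
          mul_le_mul_right h3 _
      _ = _ := by
          rw [← mul_assoc, ← ENNReal.ofReal_mul (by positivity)]
          congr 2
          field_simp
  · push Not at hex
    refine le_add_right ?_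
    have hb1 : t ∈ bad (fun τ => f1 R₀ Og u t₁ t₂ F (τ, a)) h₀ η j := by
      have hb' : ENNReal.ofReal (η / hh h₀ j) < ∫⁻ τ in Ioo (t - hh h₀ j) t,
        (f1 R₀ Og u t₁ t₂ F (τ, a) + f2 Og t₁ t₂ F (τ, a)) := hb
      refine hb'.trans_le (le_of_eq ?_)
      refine setLIntegral_congr_fun measurableSet_Ioo fun τ hτ => ?_
      have h5 : f2 Og t₁ t₂ F (τ, a) = 0 := by
        unfold f2
        apply indicator_of_notMem
        rintro ⟨h6, h7⟩
        have h8 : τ ∈ Ioo t₁ t₂ := h6.1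
        apply h7
        refine ⟨h8, hex τ ⟨?_, hτ.2⟩⟩
        rw [hα]
        exact max_lt hτ.1 h8.1
      simp only [h5, add_zero]
    rw [indicator_of_mem hb1, mul_one]

/-- The core estimate. -/
theorem core : ∃ (C : ℝ) (K : ℕ → ℝ), 0 < C ∧ (∀ n, 0 < K n) ∧
    ∀ (T : ℝ) (O : Set V) (u : ℝ → V → V) (p : ℝ → V → ℝ), DSol T O u p → ∀ R₀ : ℝ, 0 < R₀ →
      ∀ (Og Ki : Set V) (δ : ℝ), IsOpen Og → MeasurableSet Ki → Ki ⊆ Og → 0 < δ →
      (∀ x ∈ Og, ball x (10 * sc R₀ 0) ⊆ O) → (∀ x ∈ Ki, ∀ y, y ∉ Og → δ ≤ ‖x - y‖) →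
      ∀ (t₁ t₂ : ℝ), 0 < t₁ → t₁ < t₂ → t₂ < T →
      ∫⁻ t in Ioo t₁ t₂, ∫⁻ y in Ki, (Reg K 1 (u t) y - ENNReal.ofReal C *
          (ENNReal.ofReal (1 / sc R₀ 0 ^ 4) + ENNReal.ofReal (1 / (t - t₁) ^ 2)))
        ≤ ENNReal.ofReal C * ((∫⁻ t in Ioo t₁ t₂, ∫⁻ y in Og, Fx R₀ (u t) y)
          + ENNReal.ofReal (sc R₀ 0 ^ 2 / δ ^ 3) *
            ∫⁻ t in Ioo t₁ t₂, ∫⁻ y in Og, ‖u t y‖ₑ ^ (3 : ℝ)) := by
  obtain ⟨η, C, K, hη, hC, hK, H⟩ := part
  refine ⟨C * (16 / 3 / η + 2), K, by positivity, hK, ?_⟩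
  intro T O u p hN R₀ hR₀ Og Ki δ hOg hKi hKO hδ hball hsep t₁ t₂ h1 h12 h2
  obtain ⟨F, hF2, hF3, hF4, hF5⟩ := flowN hN h1 h12 h2
  obtain ⟨h₀, hh₀⟩ : ∃ h₀, h₀ = sc R₀ 0 ^ 2 := ⟨_, rfl⟩
  have hsc := sc_pos hR₀ 0
  have h₀0 : 0 < h₀ := by rw [hh₀]; positivity
  rw [← hh₀]
  have hu := hN.smooth_u
  obtain ⟨f, hf⟩ : ∃ f, f = f1 R₀ Og u t₁ t₂ F := ⟨_, rfl⟩
  obtain ⟨f', hf'⟩ : ∃ f', f' = f2 Og t₁ t₂ F := ⟨_, rfl⟩
  obtain ⟨g, hg⟩ : ∃ g, g = gg Og u t₁ t₂ F := ⟨_, rfl⟩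
  have hfm : Measurable f := by
    rw [hf]
    exact f1_meas hu R₀ h1 h12 h2 hOg hF3
  have hfm' : Measurable f' := by
    rw [hf']
    exact f2_meas h12 hOg hF3
  have hgm : Measurable g := by
    rw [hg]
    exact gg_meas hu h1 h12 h2 hOg hF3
  have hHm := Hs_meas hfm h₀ η
  have hEm := Ex_meas hgm h₀ (1 / δ ^ 3)
  have hFxm : ∀ t ∈ Ioo t₁ t₂, Measurable (Fx R₀ (u t)) := fun t ht =>
    Fx_meas R₀ (slice_cd hu ⟨h1.trans ht.1, ht.2.trans h2⟩)
  have hum : ∀ t ∈ Ioo t₁ t₂, Measurable fun y => ‖u t y‖ₑ := fun t ht =>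
    (slice_cd hu ⟨h1.trans ht.1, ht.2.trans h2⟩).continuous.measurable.enorm
  -- the pointwise bound
  have hpt : ∀ t ∈ Ioo t₁ t₂, ∫⁻ y in Ki, (Reg K 1 (u t) y
        - ENNReal.ofReal (C * (16 / 3 / η + 2)) *
          (ENNReal.ofReal (1 / sc R₀ 0 ^ 4) + ENNReal.ofReal (1 / (t - t₁) ^ 2)))
      ≤ ENNReal.ofReal C * ((∫⁻ a, Hs f h₀ η (t, a)) + (∫⁻ a, Ex g h₀ (1 / δ ^ 3) (t, a))
        + ∫⁻ y in Og, Fx R₀ (u t) y) := by
    intro t ht
    obtain ⟨φ, hφc, hφ1, hφ2⟩ := hF5 t ⟨ht.1, ht.2.le⟩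
    have hy : ∀ y ∈ Ki, Reg K 1 (u t) y - ENNReal.ofReal (C * (16 / 3 / η + 2)) *
          (ENNReal.ofReal (1 / sc R₀ 0 ^ 4) + ENNReal.ofReal (1 / (t - t₁) ^ 2))
        ≤ ENNReal.ofReal C * (Hs f h₀ η (t, φ y) + Ex g h₀ (1 / δ ^ 3) (t, φ y)
          + Fx R₀ (u t) y) := by
      intro y hyK
      have h3 := H T O u p hN R₀ hR₀ t₁ t h1.le ht.1 (ht.2.trans h2) (fun τ => F τ (φ y))
        (traj_mono (hF2 (φ y)) le_rfl ht.2.le) (fun τ => f (τ, φ y) + f' (τ, φ y))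
        ((hfm.comp (measurable_id.prodMk measurable_const)).add
          (hfm'.comp (measurable_id.prodMk measurable_const)))
        (fun τ hτ => by
          have hτ2 : τ ∈ Ioo t₁ t₂ := ⟨hτ.1, hτ.2.trans ht.2⟩
          by_cases hO : F τ (φ y) ∈ Og
          · refine le_add_right (le_of_eq ?_)
            rw [hf]
            unfold f1 ff
            rw [indicator_of_mem (show (τ, φ y) ∈ AA Og t₁ t₂ F from ⟨hτ2, hO⟩),
              indicator_of_mem hτ2]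
          · refine le_add_left ?_
            rw [hf']
            unfold f2
            rw [indicator_of_mem (show (τ, φ y) ∈ (Ioo t₁ t₂ ×ˢ univ) \ AA Og t₁ t₂ F from
              ⟨⟨hτ2, mem_univ _⟩, fun h => hO h.2⟩)]
            exact le_top)
        (fun τ hτ hne => by
          have hτ2 : τ ∈ Ioo t₁ t₂ := ⟨hτ.1, hτ.2.trans ht.2⟩
          apply hball
          by_contra hO
          apply hne
          have : f' (τ, φ y) = ⊤ := by
            rw [hf']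
            unfold f2
            rw [indicator_of_mem (show (τ, φ y) ∈ (Ioo t₁ t₂ ×ˢ univ) \ AA Og t₁ t₂ F from
              ⟨⟨hτ2, mem_univ _⟩, fun h => hO h.2⟩)]
          rw [this, add_top])
      have h5 := bad_split (η := η) hu h1 h12 h2 R₀ hOg hF2 hF3 hδ ht (a := φ y)
        (by rw [hφ1]; exact hsep y hyK) h₀0
      rw [← hf, ← hf', ← hg] at h5
      simp only [hφ1] at h3
      rw [← hh₀] at h3
      rw [tsub_le_iff_left]
      refine h3.trans ?_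
      rw [add_assoc (_ + _) _ (Fx R₀ (u t) y), mul_add]
      gcongr
      linarith [show (0 : ℝ) ≤ C * (16 / 3 / η) by positivity]
    refine (setLIntegral_mono' hKi hy).trans ?_
    rw [lintegral_const_mul' _ _ ENNReal.ofReal_ne_top, lintegral_add_right _ (hFxm t ht)]
    gcongr
    · have hm : Measurable fun a => Hs f h₀ η (t, a) + Ex g h₀ (1 / δ ^ 3) (t, a) :=
        (hHm.comp (measurable_const.prodMk measurable_id)).add
          (hEm.comp (measurable_const.prodMk measurable_id))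
      calc ∫⁻ y in Ki, (Hs f h₀ η (t, φ y) + Ex g h₀ (1 / δ ^ 3) (t, φ y))
          ≤ ∫⁻ y, (Hs f h₀ η (t, φ y) + Ex g h₀ (1 / δ ^ 3) (t, φ y)) :=
            setLIntegral_le_lintegral _ _
        _ ≤ ∫⁻ a, (Hs f h₀ η (t, a) + Ex g h₀ (1 / δ ^ 3) (t, a)) :=
            univ_tr hφc.measurable hφ2 hm
        _ = _ := lintegral_add_left (hHm.comp (measurable_const.prodMk measurable_id)) _
  refine (setLIntegral_mono' measurableSet_Ioo hpt).trans ?_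
  rw [lintegral_const_mul' _ _ ENNReal.ofReal_ne_top]
  have hHm2 : Measurable (fun t : ℝ => ∫⁻ a, Hs f h₀ η (t, a)) :=
    Measurable.lintegral_prod_right' (f := Hs f h₀ η) hHm
  have hEm2 : Measurable (fun t : ℝ => ∫⁻ a, Ex g h₀ (1 / δ ^ 3) (t, a)) :=
    Measurable.lintegral_prod_right' (f := Ex g h₀ (1 / δ ^ 3)) hEm
  rw [lintegral_add_left (show Measurable (fun t : ℝ => (∫⁻ a, Hs f h₀ η (t, a)) +
    ∫⁻ a, Ex g h₀ (1 / δ ^ 3) (t, a)) from hHm2.add hEm2), lintegral_add_left hHm2]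
  have hmain : ∫⁻ t in Ioo t₁ t₂, ∫⁻ a, Hs f h₀ η (t, a)
      ≤ ENNReal.ofReal (16 / 3 / η) * ∫⁻ t in Ioo t₁ t₂, ∫⁻ y in Og, Fx R₀ (u t) y := by
    calc ∫⁻ t in Ioo t₁ t₂, ∫⁻ a, Hs f h₀ η (t, a)
        ≤ ∫⁻ t, ∫⁻ a, Hs f h₀ η (t, a) := setLIntegral_le_lintegral _ _
      _ = ∫⁻ a, ∫⁻ t, Hs f h₀ η (t, a) :=
          lintegral_lintegral_swap (f := fun t a => Hs f h₀ η (t, a)) hHm.aemeasurable
      _ ≤ ∫⁻ a, ENNReal.ofReal (16 / 3 / η) * ∫⁻ τ, f (τ, a) :=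
          lintegral_mono fun a => Hs_int hfm h₀0 hη a
      _ = ENNReal.ofReal (16 / 3 / η) * ∫⁻ a, ∫⁻ τ, f (τ, a) := by
          rw [lintegral_const_mul' _ _ ENNReal.ofReal_ne_top]
      _ = ENNReal.ofReal (16 / 3 / η) * ∫⁻ τ, ∫⁻ a, f (τ, a) := by
          rw [lintegral_lintegral_swap (f := fun τ a => f (τ, a)) hfm.aemeasurable]
      _ = ENNReal.ofReal (16 / 3 / η) *
          ∫⁻ τ in Ioo t₁ t₂, ∫⁻ a, Og.indicator (Fx R₀ (u τ)) (F τ a) := by
          congr 1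
          rw [← lintegral_indicator measurableSet_Ioo]
          refine lintegral_congr fun τ => ?_
          by_cases hτ : τ ∈ Ioo t₁ t₂
          · rw [indicator_of_mem hτ]
            refine lintegral_congr fun a => ?_
            rw [hf]
            unfold f1 ff
            by_cases hO : F τ a ∈ Og
            · rw [indicator_of_mem (show (τ, a) ∈ AA Og t₁ t₂ F from ⟨hτ, hO⟩),
                indicator_of_mem hτ, indicator_of_mem hO]
            · rw [indicator_of_notMem (show (τ, a) ∉ AA Og t₁ t₂ F from fun h => hO h.2),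
                indicator_of_notMem hO]
          · rw [indicator_of_notMem hτ]
            have : ∀ a, f (τ, a) = 0 := by
              intro a
              rw [hf]
              unfold f1
              exact indicator_of_notMem (fun h => hτ h.1) _
            simp only [this, lintegral_zero]
      _ ≤ ENNReal.ofReal (16 / 3 / η) * ∫⁻ t in Ioo t₁ t₂, ∫⁻ y in Og, Fx R₀ (u t) y := by
          refine mul_le_mul_right (setLIntegral_mono' measurableSet_Ioo fun τ hτ => ?_) _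
          have hFc : Continuous (F τ) := continuousOn_univ.1 (hF3.comp (f := fun a : V => (τ, a))
            (by fun_prop) (fun a _ => ⟨Ioo_subset_Icc_self hτ, mem_univ _⟩))
          refine (univ_tr hFc.measurable (hF4 τ (Ioo_subset_Icc_self hτ))
            ((hFxm τ hτ).indicator hOg.measurableSet)).trans (le_of_eq ?_)
          exact lintegral_indicator hOg.measurableSet _
  have hexit : ∫⁻ t in Ioo t₁ t₂, ∫⁻ a, Ex g h₀ (1 / δ ^ 3) (t, a)
      ≤ ENNReal.ofReal (1 / δ ^ 3 * (4 / 3 * h₀)) *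
        ∫⁻ t in Ioo t₁ t₂, ∫⁻ y in Og, ‖u t y‖ₑ ^ (3 : ℝ) := by
    have hgm3 : Measurable fun z : ℝ × V => g z ^ (3 : ℝ) := hgm.pow_const _
    calc ∫⁻ t in Ioo t₁ t₂, ∫⁻ a, Ex g h₀ (1 / δ ^ 3) (t, a)
        ≤ ∫⁻ t, ∫⁻ a, Ex g h₀ (1 / δ ^ 3) (t, a) := setLIntegral_le_lintegral _ _
      _ = ∫⁻ a, ∫⁻ t, Ex g h₀ (1 / δ ^ 3) (t, a) :=
          lintegral_lintegral_swap (f := fun t a => Ex g h₀ (1 / δ ^ 3) (t, a)) hEm.aemeasurable
      _ ≤ ∫⁻ a, ENNReal.ofReal (1 / δ ^ 3 * (4 / 3 * h₀)) * ∫⁻ τ, g (τ, a) ^ (3 : ℝ) :=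
          lintegral_mono fun a => Ex_int hgm h₀0 (by positivity) a
      _ = ENNReal.ofReal (1 / δ ^ 3 * (4 / 3 * h₀)) * ∫⁻ a, ∫⁻ τ, g (τ, a) ^ (3 : ℝ) := by
          rw [lintegral_const_mul' _ _ ENNReal.ofReal_ne_top]
      _ = ENNReal.ofReal (1 / δ ^ 3 * (4 / 3 * h₀)) * ∫⁻ τ, ∫⁻ a, g (τ, a) ^ (3 : ℝ) := by
          rw [lintegral_lintegral_swap (f := fun τ a => g (τ, a) ^ (3 : ℝ)) hgm3.aemeasurable]
      _ = ENNReal.ofReal (1 / δ ^ 3 * (4 / 3 * h₀)) *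
          ∫⁻ τ in Ioo t₁ t₂, ∫⁻ a, Og.indicator (fun y => ‖u τ y‖ₑ ^ (3 : ℝ)) (F τ a) := by
          congr 1
          rw [← lintegral_indicator measurableSet_Ioo]
          refine lintegral_congr fun τ => ?_
          by_cases hτ : τ ∈ Ioo t₁ t₂
          · rw [indicator_of_mem hτ]
            refine lintegral_congr fun a => ?_
            rw [hg]
            unfold gg
            by_cases hO : F τ a ∈ Og
            · rw [indicator_of_mem (show (τ, a) ∈ AA Og t₁ t₂ F from ⟨hτ, hO⟩),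
                indicator_of_mem hO]
            · rw [indicator_of_notMem (show (τ, a) ∉ AA Og t₁ t₂ F from fun h => hO h.2),
                indicator_of_notMem hO, ENNReal.zero_rpow_of_pos (by norm_num)]
          · rw [indicator_of_notMem hτ]
            have : ∀ a, g (τ, a) ^ (3 : ℝ) = 0 := by
              intro a
              rw [hg]
              unfold gg
              rw [indicator_of_notMem (fun h => hτ h.1), ENNReal.zero_rpow_of_pos (by norm_num)]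
            simp only [this, lintegral_zero]
      _ ≤ _ := by
          refine mul_le_mul_right (setLIntegral_mono' measurableSet_Ioo fun τ hτ => ?_) _
          have hFc : Continuous (F τ) := continuousOn_univ.1 (hF3.comp (f := fun a : V => (τ, a))
            (by fun_prop) (fun a _ => ⟨Ioo_subset_Icc_self hτ, mem_univ _⟩))
          refine (univ_tr hFc.measurable (hF4 τ (Ioo_subset_Icc_self hτ))
            (((hum τ hτ).pow_const _).indicator hOg.measurableSet)).trans (le_of_eq ?_)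
          exact lintegral_indicator hOg.measurableSet _
  obtain ⟨A, hA⟩ : ∃ A, A = ∫⁻ t in Ioo t₁ t₂, ∫⁻ y in Og, Fx R₀ (u t) y := ⟨_, rfl⟩
  obtain ⟨B, hB⟩ : ∃ B, B = ∫⁻ t in Ioo t₁ t₂, ∫⁻ y in Og, ‖u t y‖ₑ ^ (3 : ℝ) := ⟨_, rfl⟩
  rw [← hA] at hmain ⊢
  rw [← hB] at hexit ⊢
  rw [ENNReal.ofReal_mul hC.le, mul_assoc]
  gcongr
  have e3 : ENNReal.ofReal (1 / δ ^ 3 * (4 / 3 * h₀)) ≤ ENNReal.ofReal (16 / 3 / η + 2) *
      ENNReal.ofReal (h₀ / δ ^ 3) := by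
    rw [← ENNReal.ofReal_mul (by positivity)]
    apply ENNReal.ofReal_le_ofReal
    have h6 : 0 ≤ 16 / 3 / η * (h₀ / δ ^ 3) := by positivity
    have h7 : 0 ≤ h₀ / δ ^ 3 := by positivity
    have e4 : 1 / δ ^ 3 * (4 / 3 * h₀) = 4 / 3 * (h₀ / δ ^ 3) := by ring
    rw [e4]
    linarith
  have e5 : ENNReal.ofReal (16 / 3 / η) + 1 ≤ ENNReal.ofReal (16 / 3 / η + 2) := by
    rw [← ENNReal.ofReal_one, ← ENNReal.ofReal_add (by positivity) (by norm_num)]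
    apply ENNReal.ofReal_le_ofReal
    linarith
  calc _ ≤ ENNReal.ofReal (16 / 3 / η) * A + ENNReal.ofReal (1 / δ ^ 3 * (4 / 3 * h₀)) * B + A := by
        gcongr
    _ = (ENNReal.ofReal (16 / 3 / η) + 1) * A + ENNReal.ofReal (1 / δ ^ 3 * (4 / 3 * h₀)) * B := by
        ring
    _ ≤ ENNReal.ofReal (16 / 3 / η + 2) * A + ENNReal.ofReal (16 / 3 / η + 2) *
      ENNReal.ofReal (h₀ / δ ^ 3) * B := by gcongr
    _ = _ := by ring

end Pool.Agent.Y7.D
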