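import Pool.Agent.Y7.Flw7
import Pool.Agent.TH305.LG.FinL

/-!
The flow of a solution up to the final time (helper7).
-/

set_option autoImplicit false
set_option linter.unusedVariables false

open MeasureTheory Set Metric Filter Topology
open scoped ContDiff ENNReal NNReal

namespace Pool.Agent.Y7

open H459R3.NS W221.NS Pool.Agent.TH305.LW Pool.Agent.TH305.DR Pool.Agent.TH305.LG

/-- The flow up to the final time. -/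
theorem flowG {T : ℝ} {u : ℝ → V → V} {p : ℝ → V → ℝ} (h : NSol T u p) {t₁ : ℝ} (h1 : 0 < t₁)
    (h2 : t₁ < T) : ∃ X : ℝ → V → V, (∀ a, X t₁ a = a) ∧
      (∀ a, Pathline u t₁ T (fun t => X t a)) ∧
      ContinuousOn (fun z : ℝ × V => X z.1 z.2) (Ico t₁ T ×ˢ univ) ∧
      (∀ s ∈ Ico t₁ T, Measure.map (X s) volume ≤ volume) ∧
      ((∀ t ∈ Ioo 0 T, Per (u t)) → ∀ s ∈ Ico t₁ T, ∀ (a : V) (n : K3),
        X s (a - iv n) = X s a - iv n) := by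
  have hex : ∀ t₂ : ℝ, t₁ < t₂ ∧ t₂ < T → ∃ F : ℝ → V → V, (∀ a, F t₁ a = a) ∧
      (∀ a, Traj u t₁ t₂ (fun t => F t a)) ∧
      ContinuousOn (fun z : ℝ × V => F z.1 z.2) (Icc t₁ t₂ ×ˢ univ) ∧
      ∀ s ∈ Icc t₁ t₂, Measure.map (F s) volume ≤ volume := fun t₂ ht => flowJ h h1 ht.1 ht.2
  choose! F hF1 hF2 hF3 hF4 using hex
  have huniq : ∀ t₂ t₃ : ℝ, t₁ < t₂ ∧ t₂ < T → t₁ < t₃ ∧ t₃ < T → ∀ t, t₁ ≤ t → t ≤ t₂ → t ≤ t₃ →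
      ∀ a, F t₂ t a = F t₃ t a := by
    intro t₂ t₃ ht₂ ht₃ t ht1 ht2 ht3 a
    rcases eq_or_lt_of_le ht1 with he | hlt
    · rw [← he, hF1 t₂ ht₂, hF1 t₃ ht₃]
    · obtain ⟨L, hL⟩ := lipN h h1 (ht2.trans_lt ht₂.2)
      exact traj_unique hL (traj_mono (hF2 t₂ ht₂ a) le_rfl ht2) (traj_mono (hF2 t₃ ht₃ a) le_rfl ht3)
        (by rw [hF1 t₂ ht₂, hF1 t₃ ht₃]) t ⟨ht1, le_rfl⟩
  have hm : ∀ t ∈ Ico t₁ T, t₁ < (t + T) / 2 ∧ (t + T) / 2 < T ∧ t < (t + T) / 2 := fun t ht =>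
    ⟨by linarith [ht.1], by linarith [ht.2], by linarith [ht.2]⟩
  obtain ⟨X, hX⟩ : ∃ X : ℝ → V → V, X = fun t => F ((t + T) / 2) t := ⟨_, rfl⟩
  have hXF : ∀ t₂ : ℝ, t₁ < t₂ ∧ t₂ < T → ∀ t ∈ Icc t₁ t₂, ∀ a, X t a = F t₂ t a := by
    intro t₂ ht₂ t ht a
    obtain ⟨m1, m2, m3⟩ := hm t ⟨ht.1, ht.2.trans_lt ht₂.2⟩
    rw [hX]
    exact huniq _ _ ⟨m1, m2⟩ ht₂ t ht.1 m3.le ht.2 a
  have hc : ContinuousOn (fun z : ℝ × V => X z.1 z.2) (Ico t₁ T ×ˢ univ) := by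
    rintro ⟨t, a⟩ ⟨ht, -⟩
    obtain ⟨m1, m2, m3⟩ := hm t ht
    have c1 := hF3 _ ⟨m1, m2⟩ (t, a) ⟨⟨ht.1, m3.le⟩, mem_univ _⟩
    have c2 : ContinuousWithinAt (fun z : ℝ × V => X z.1 z.2) (Icc t₁ ((t + T) / 2) ×ˢ univ)
        (t, a) := by
      refine c1.congr (fun z hz => hXF _ ⟨m1, m2⟩ z.1 hz.1 z.2) ?_
      exact hXF _ ⟨m1, m2⟩ t ⟨ht.1, m3.le⟩ a
    refine c2.mono_of_mem_nhdsWithin ?_
    have h3 : {z : ℝ × V | z.1 < (t + T) / 2} ∈ 𝓝 (t, a) :=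
      (isOpen_lt continuous_fst continuous_const).mem_nhds m3
    filter_upwards [mem_nhdsWithin_of_mem_nhds h3, self_mem_nhdsWithin] with z hz1 hz2
    exact ⟨⟨hz2.1.1, le_of_lt hz1⟩, mem_univ _⟩
  have hX1 : ∀ a, X t₁ a = a := by
    intro a
    obtain ⟨m1, m2, m3⟩ := hm t₁ ⟨le_rfl, h2⟩
    rw [hXF _ ⟨m1, m2⟩ t₁ ⟨le_rfl, m3.le⟩, hF1 _ ⟨m1, m2⟩]
  refine ⟨X, hX1, fun a => ⟨?_, ?_⟩, hc, ?_, ?_⟩
  · exact hc.comp (f := fun τ : ℝ => (τ, a)) (by fun_prop) (fun τ hτ => ⟨hτ, mem_univ _⟩)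
  · intro t ht
    obtain ⟨m1, m2, m3⟩ := hm t ⟨ht.1.le, ht.2⟩
    have h3 := (hF2 _ ⟨m1, m2⟩ a).ode t ⟨ht.1, m3⟩
    have h4 : (fun τ => X τ a) =ᶠ[𝓝 t] fun τ => F ((t + T) / 2) τ a := by
      filter_upwards [Ioo_mem_nhds ht.1 m3] with τ hτ
      exact hXF _ ⟨m1, m2⟩ τ ⟨hτ.1.le, hτ.2.le⟩ a
    have h5 := h3.congr_of_eventuallyEq h4
    rw [← hXF _ ⟨m1, m2⟩ t ⟨ht.1.le, m3.le⟩ a] at h5
    exact h5
  · intro s hs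
    obtain ⟨m1, m2, m3⟩ := hm s hs
    rw [hX]
    exact hF4 _ ⟨m1, m2⟩ s ⟨hs.1, m3.le⟩
  · intro hp s hs a n
    obtain ⟨m1, m2, m3⟩ := hm s hs
    obtain ⟨L, hL⟩ := lipN h h1 m2
    rw [hXF _ ⟨m1, m2⟩ s ⟨hs.1, m3.le⟩, hXF _ ⟨m1, m2⟩ s ⟨hs.1, m3.le⟩]
    exact traj_unique hL (hF2 _ ⟨m1, m2⟩ (a - iv n)) (traj_shift (fun t ht => hp t
      ⟨by linarith [ht.1], by linarith [ht.2]⟩) (hF2 _ ⟨m1, m2⟩ a) n)
      (by rw [hF1 _ ⟨m1, m2⟩, hF1 _ ⟨m1, m2⟩]) s ⟨hs.1, m3.le⟩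

lemma path_traj {u : ℝ → V → V} {t₁ T t : ℝ} {ξ : ℝ → V} (h : Pathline u t₁ T ξ) (ht : t < T) :
    Traj u t₁ t ξ :=
  ⟨h.cont.mono (fun τ hτ => ⟨hτ.1, hτ.2.trans_lt ht⟩), fun τ hτ => h.ode τ ⟨hτ.1, hτ.2.trans ht⟩⟩

/-- The function along the flow is measurable. -/
lemma fX_meas {T : ℝ} {u : ℝ → V → V}
    (hu : ContDiffOn ℝ ∞ (fun z : ℝ × V => u z.1 z.2) (Ioo 0 T ×ˢ univ)) (R₀ : ℝ) {t₁ : ℝ}
    (h1 : 0 < t₁) {X : ℝ → V → V}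
    (hX : ContinuousOn (fun z : ℝ × V => X z.1 z.2) (Ico t₁ T ×ˢ univ)) :
    Measurable (fun z : ℝ × V => (Ioo t₁ T).indicator (fun τ => Fx R₀ (u τ) (X τ z.2)) z.1) := by
  classical
  have hS : MeasurableSet (Ioo t₁ T ×ˢ (univ : Set V)) := measurableSet_Ioo.prod MeasurableSet.univ
  have hg : Measurable ((Ioo t₁ T ×ˢ (univ : Set V)).piecewise
      (fun z : ℝ × V => (z.1, X z.1 z.2)) (fun z => z)) := by
    refine ContinuousOn.measurable_piecewise ?_ continuousOn_id hS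
    exact continuousOn_fst.prodMk (hX.mono (prod_mono Ioo_subset_Ico_self subset_rfl))
  have e : (fun z : ℝ × V => (Ioo t₁ T).indicator (fun τ => Fx R₀ (u τ) (X τ z.2)) z.1)
      = (Ioo t₁ T ×ˢ (univ : Set V)).indicator (fun z => Ft R₀ T u
        (((Ioo t₁ T ×ˢ (univ : Set V)).piecewise
          (fun z : ℝ × V => (z.1, X z.1 z.2)) (fun z => z)) z)) := by
    funext z
    by_cases hz : z.1 ∈ Ioo t₁ T
    · have hz2 : z ∈ Ioo t₁ T ×ˢ (univ : Set V) := ⟨hz, mem_univ _⟩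
      rw [indicator_of_mem hz, indicator_of_mem hz2, piecewise_eq_of_mem _ _ _ hz2,
        Ft_eq R₀ u ⟨h1.trans hz.1, hz.2⟩]
    · rw [indicator_of_notMem hz, indicator_of_notMem (show z ∉ Ioo t₁ T ×ˢ (univ : Set V) from
        fun h => hz h.1)]
  rw [e]
  exact ((Ft_meas R₀ hu).comp hg).indicator hS

end Pool.Agent.Y7
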