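import Pool.Agent.Y7.DLoc
import Pool.Agent.Y7.Reg7

/-!
Local solutions: the regularity scale along a particle path (helper7).
-/

set_option autoImplicit false
set_option linter.unusedVariables false

open MeasureTheory Set Metric Filter Topology
open scoped ContDiff ENNReal NNReal

namespace Pool.Agent.Y7.D

open H459R3.NS W221.NS Pool.Agent.TH305.LW Pool.Agent.TH305.DR Pool.Agent.TH305.LG Pool.Agent.Y7
open Pool.Agent.Y7.Cov1

/-- The regularity scale along a particle path. -/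
theorem part : ∃ (η C : ℝ) (K : ℕ → ℝ), 0 < η ∧ 0 < C ∧ (∀ n, 0 < K n) ∧
    ∀ (T : ℝ) (O : Set V) (u : ℝ → V → V) (p : ℝ → V → ℝ), DSol T O u p → ∀ R₀ : ℝ, 0 < R₀ →
      ∀ (t₁ t : ℝ), 0 ≤ t₁ → t₁ < t → t < T → ∀ ξ : ℝ → V, Traj u t₁ t ξ → ∀ f : ℝ → ℝ≥0∞,
      Measurable f → (∀ τ ∈ Ioo t₁ t, Fx R₀ (u τ) (ξ τ) ≤ f τ) →
      (∀ τ ∈ Ioo t₁ t, f τ ≠ ⊤ → ball (ξ τ) (10 * sc R₀ 0) ⊆ O) →
      Reg K 1 (u t) (ξ t) ≤ ENNReal.ofReal C * (ENNReal.ofReal (1 / sc R₀ 0 ^ 4)
        + ENNReal.ofReal (1 / (t - t₁) ^ 2)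
        + (∑' j : ℕ, ENNReal.ofReal (1 / hh (sc R₀ 0 ^ 2) j ^ 2)
            * (bad f (sc R₀ 0 ^ 2) η j).indicator (fun _ => 1) t)
        + Fx R₀ (u t) (ξ t)) := by
  obtain ⟨η, C, K, hη, hC, hK, H⟩ := loc7
  refine ⟨η, 16 * 256 ^ 4 + 256 ^ 4 * C, K, hη, by positivity, hK, ?_⟩
  intro T O u p hN R₀ hR₀ t₁ t ht₁ h1t htT ξ hξ f hfm hf hfO
  obtain ⟨h₀, hh₀⟩ : ∃ h₀, h₀ = sc R₀ 0 ^ 2 := ⟨_, rfl⟩
  have hsc := sc_pos hR₀ 0
  have h₀0 : 0 < h₀ := by rw [hh₀]; positivity
  have e4 : sc R₀ 0 ^ 4 = hh h₀ 0 ^ 2 := by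
    rw [hh₀, ← sc_hh]
    ring
  rw [← hh₀]
  obtain ⟨S, hS⟩ : ∃ S, S = ∑' j : ℕ, ENNReal.ofReal (1 / hh h₀ j ^ 2)
      * (bad f h₀ η j).indicator (fun _ => 1) t := ⟨_, rfl⟩
  rw [← hS]
  by_cases hFt : Fx R₀ (u t) (ξ t) = ⊤
  · rw [hFt]
    have : ENNReal.ofReal (16 * 256 ^ 4 + 256 ^ 4 * C) ≠ 0 := by
      rw [Ne, ENNReal.ofReal_eq_zero, not_le]
      positivity
    rw [add_top, ENNReal.mul_top this]
    exact le_top
  obtain ⟨F, hF⟩ : ∃ F, F = (Fx R₀ (u t) (ξ t)).toReal := ⟨_, rfl⟩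
  have hF0 : 0 ≤ F := by rw [hF]; exact ENNReal.toReal_nonneg
  have hFF : Fx R₀ (u t) (ξ t) = ENNReal.ofReal F := by rw [hF, ENNReal.ofReal_toReal hFt]
  by_cases hex : ∃ k, hh h₀ k < t - t₁ ∧ t ∉ bad f h₀ η k
  · classical
    obtain ⟨k, hk⟩ : ∃ k, k = Nat.find hex := ⟨_, rfl⟩
    have hk1 : hh h₀ k < t - t₁ ∧ t ∉ bad f h₀ η k := by rw [hk]; exact Nat.find_spec hex
    have hkm : ∀ j, j < k → ¬(hh h₀ j < t - t₁ ∧ t ∉ bad f h₀ η j) := fun j hj =>
      Nat.find_min hex (by rwa [← hk])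
    obtain ⟨hk2, hk3⟩ := hk1
    have er : sc R₀ k ^ 2 = hh h₀ k := by rw [hh₀]; exact sc_hh R₀ k
    have hhk := hh_pos h₀0 k
    have hgood : ∫⁻ τ in Ioo (t - hh h₀ k) t, f τ ≤ ENNReal.ofReal (η / hh h₀ k) :=
      not_lt.1 hk3
    have hscm : sc R₀ k ≤ sc R₀ 0 := by
      have h1 : sc R₀ k ^ 2 ≤ sc R₀ 0 ^ 2 := by
        rw [er, ← hh₀]
        unfold hh
        exact div_le_self h₀0.le (one_le_pow₀ (by norm_num))
      exact le_of_sq_le_sq h1 hsc.le
    have hfin : ∫⁻ τ in Ioo (t - hh h₀ k) t, f τ ≠ ⊤ := ne_top_of_le_ne_top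
      ENNReal.ofReal_ne_top hgood
    have hae : ∀ᵐ τ ∂(volume.restrict (Ioo (t - hh h₀ k) t)), f τ < ⊤ :=
      ae_lt_top hfm hfin
    have hballs : ∀ τ ∈ Ioo (t - hh h₀ k) t, ball (ξ τ) (9 * sc R₀ k) ⊆ O := by
      intro τ hτ
      have hτ2 : τ ∈ Icc t₁ t := ⟨by linarith [hτ.1], hτ.2.le⟩
      have hc := hξ.cont τ hτ2
      rw [Metric.continuousWithinAt_iff] at hc
      obtain ⟨δ, hδ, hδ2⟩ := hc (sc R₀ 0) hsc
      -- a good time near
      obtain ⟨a, ha⟩ : ∃ a, a = max (t - hh h₀ k) (τ - δ) := ⟨_, rfl⟩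
      have ha1 : a < τ := by rw [ha]; exact max_lt hτ.1 (by linarith)
      have hsub : Ioo a τ ⊆ Ioo (t - hh h₀ k) t := Ioo_subset_Ioo
        (by rw [ha]; exact le_max_left _ _) hτ.2.le
      have hne : ∃ τ' ∈ Ioo a τ, f τ' < ⊤ := by
        by_contra hcon
        push Not at hcon
        have h2 := ae_restrict_of_ae_restrict_of_subset hsub hae
        have h3 : ∀ᵐ τ' ∂(volume.restrict (Ioo a τ)), False := by
          filter_upwards [h2, ae_restrict_mem measurableSet_Ioo] with τ' h4 h5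
          exact absurd h4 (not_lt.2 (hcon τ' h5))
        rw [eventually_false_iff_eq_bot, ae_eq_bot, Measure.restrict_eq_zero, Real.volume_Ioo,
          ENNReal.ofReal_eq_zero] at h3
        linarith
      obtain ⟨τ', hτ', hτf⟩ := hne
      have hτ3 := hsub hτ'
      have hb := hfO τ' ⟨by linarith [hτ3.1], hτ3.2⟩ hτf.ne
      have hd := hδ2 (show τ' ∈ Icc t₁ t from ⟨by linarith [hτ3.1], hτ3.2.le⟩) (by
        rw [Real.dist_eq, abs_lt]
        have : τ - δ ≤ a := by rw [ha]; exact le_max_right _ _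
        constructor <;> linarith [hτ'.1, hτ'.2])
      refine (ball_subset_ball' ?_).trans hb
      rw [dist_comm] at hd
      linarith
    have hloc := H T O u p hN R₀ hR₀ k t (by rw [er]; linarith) htT ξ
      (hξ.cont.mono (Icc_subset_Icc_left (by rw [er]; linarith)))
      (fun τ hτ => hξ.ode τ ⟨by rw [er] at hτ; linarith [hτ.1], hτ.2⟩)
      (by rw [er]; exact hballs)
      (by
        rw [er]
        refine le_trans ?_ hgood
        refine setLIntegral_mono' measurableSet_Ioo fun τ hτ => ?_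
        exact hf τ ⟨by linarith [hτ.1], hτ.2⟩) F hF0 hFF.le
    have hreg := reg_of (sc_pos hR₀ k) hC hF0 hloc
    have e5 : sc R₀ k ^ 4 = hh h₀ k ^ 2 := by
      rw [← er]
      ring
    rw [e5] at hreg
    have hb : ENNReal.ofReal (256 ^ 4 / hh h₀ k ^ 2) ≤ ENNReal.ofReal (16 * 256 ^ 4)
        * (ENNReal.ofReal (1 / sc R₀ 0 ^ 4) + ENNReal.ofReal (1 / (t - t₁) ^ 2) + S) := by
      rcases Nat.eq_zero_or_pos k with h0 | hpos
      · rw [h0, e4]
        calc ENNReal.ofReal (256 ^ 4 / hh h₀ 0 ^ 2)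
            ≤ ENNReal.ofReal (16 * 256 ^ 4) * ENNReal.ofReal (1 / hh h₀ 0 ^ 2) := by
              rw [← ENNReal.ofReal_mul (by norm_num)]
              apply ENNReal.ofReal_le_ofReal
              rw [mul_one_div]
              have := hh_pos h₀0 0
              gcongr
              norm_num
          _ ≤ _ := by
              gcongr
              exact le_add_right le_self_add
      · obtain ⟨j, hj⟩ : ∃ j, k = j + 1 := ⟨k - 1, by omega⟩
        have hjn := hkm j (by omega)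
        have hhj := hh_pos h₀0 j
        have e6 : 256 ^ 4 / hh h₀ k ^ 2 = 16 * 256 ^ 4 * (1 / hh h₀ j ^ 2) := by
          have h7 := hh_succ (h₀ := h₀) j
          rw [← hj] at h7
          rw [h7]
          field_simp
          norm_num
        rw [e6, ENNReal.ofReal_mul (by norm_num)]
        by_cases hjb : t ∈ bad f h₀ η j
        · have h8 : ENNReal.ofReal (1 / hh h₀ j ^ 2) ≤ S := by
            rw [hS]
            refine le_trans (le_of_eq ?_) (ENNReal.le_tsum j)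
            rw [indicator_of_mem hjb, mul_one]
          gcongr
          exact h8.trans le_add_self
        · have h9 : t - t₁ ≤ hh h₀ j := by
            by_contra hcon
            exact hjn ⟨not_le.1 hcon, hjb⟩
          have h10 : ENNReal.ofReal (1 / hh h₀ j ^ 2) ≤ ENNReal.ofReal (1 / (t - t₁) ^ 2) := by
            apply ENNReal.ofReal_le_ofReal
            have : 0 < t - t₁ := by linarith
            gcongr
          gcongr
          exact h10.trans (le_add_right le_add_self)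
    refine hreg.trans ?_
    rw [mul_add]
    gcongr
    · refine hb.trans ?_
      gcongr
      have : 0 ≤ 256 ^ 4 * C := by positivity
      linarith
    · rw [hFF, ← ENNReal.ofReal_mul (by positivity)]
      apply ENNReal.ofReal_le_ofReal
      have : 0 ≤ 16 * 256 ^ 4 * F := by positivity
      linarith
  · push Not at hex
    have hStop : S = ⊤ := by
      apply ENNReal.eq_top_of_forall_nnreal_le
      intro M
      obtain ⟨j, hj1, hj2⟩ : ∃ j : ℕ, hh h₀ j < t - t₁ ∧ (M : ℝ) ≤ 1 / hh h₀ j ^ 2 := by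
        have l1 : Tendsto (fun j : ℕ => hh h₀ j) atTop (𝓝 0) := by
          have : (fun j : ℕ => hh h₀ j) = fun j => h₀ * (1 / 4) ^ j := by
            funext j
            unfold hh
            rw [one_div, inv_pow]
            rfl
          rw [this]
          simpa using (tendsto_pow_atTop_nhds_zero_of_lt_one (by norm_num : (0 : ℝ) ≤ 1 / 4)
            (by norm_num)).const_mul h₀
        obtain ⟨δ, hδ⟩ : ∃ δ : ℝ, δ = min (t - t₁) (1 / √(M + 1)) := ⟨_, rfl⟩
        have hM1 : (0 : ℝ) < M + 1 := by positivity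
        have hδ0 : 0 < δ := by
          rw [hδ]
          have := Real.sqrt_pos.2 hM1
          exact lt_min (by linarith) (by positivity)
        obtain ⟨j, hj⟩ := (l1.eventually (gt_mem_nhds hδ0)).exists
        refine ⟨j, hj.trans_le (by rw [hδ]; exact min_le_left _ _), ?_⟩
        have hhj := hh_pos h₀0 j
        have h1 : hh h₀ j ≤ 1 / √(M + 1) := hj.le.trans (by rw [hδ]; exact min_le_right _ _)
        have h2 : hh h₀ j ^ 2 ≤ 1 / ((M : ℝ) + 1) := by
          calc hh h₀ j ^ 2 ≤ (1 / √(M + 1)) ^ 2 := by gcongr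
            _ = 1 / ((M : ℝ) + 1) := by
              rw [div_pow, Real.sq_sqrt hM1.le]
              norm_num
        rw [le_div_iff₀ (by positivity)]
        rw [le_div_iff₀ hM1] at h2
        nlinarith [M.2, sq_nonneg (hh h₀ j)]
      rw [hS]
      refine le_trans ?_ (ENNReal.le_tsum j)
      rw [indicator_of_mem (hex j hj1), mul_one, ← ENNReal.ofReal_coe_nnreal]
      exact ENNReal.ofReal_le_ofReal hj2
    rw [hStop]
    have : ENNReal.ofReal (16 * 256 ^ 4 + 256 ^ 4 * C) ≠ 0 := by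
      rw [Ne, ENNReal.ofReal_eq_zero, not_le]
      positivity
    rw [add_top, top_add, ENNReal.mul_top this]
    exact le_top

end Pool.Agent.Y7.D
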