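import Pool.Agent.Y7.Fin7
import Pool.Agent.Y7.RegW
import Pool.Agent.Y7.FlwG

/-!
The largest value of the regularity scale along the particle paths (helper7).
-/

set_option autoImplicit false
set_option linter.unusedVariables false

open MeasureTheory Set Metric Filter Topology
open scoped ContDiff ENNReal NNReal

namespace Pool.Agent.Y7

open H459R3.NS W221.NS Pool.Agent.TH305.LW Pool.Agent.TH305.DR Pool.Agent.TH305.LG

/-- The property of `partW`. -/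
def PartP (C : ℝ) (K : ℕ → ℝ) : Prop :=
    ∀ (T : ℝ) (u : ℝ → V → V) (p : ℝ → V → ℝ), NSol T u p → ∀ R₀ : ℝ, 0 < R₀ →
      ∀ (t₁ t : ℝ), 0 ≤ t₁ → t₁ < t → t < T → ∀ ξ : ℝ → V, Traj u t₁ t ξ →
      RegW K 1 (u t) (ξ t) ≤ ENNReal.ofReal C * (ENNReal.ofReal (1 / sc R₀ 0 ^ 2)
        + ENNReal.ofReal (1 / (t - t₁)) + ∫⁻ τ in Ioo t₁ t, Fx R₀ (u τ) (ξ τ))

/-- The property of the maximal theorem. -/
def HLP (A : ℝ) : Prop := ∀ R₀ : ℝ, 0 < R₀ → ∀ g : V → ℝ≥0∞, Measurable g →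
    ∀ B : ℝ≥0∞, B ≠ ⊤ → (∀ x, g x ≤ B) →
    ∫⁻ x, Hl.Mx R₀ g x ^ (7 / 6 : ℝ) ≤ ENNReal.ofReal A * ∫⁻ x, g x ^ (7 / 6 : ℝ)

lemma hl_whole {A : ℝ} (hHL : HLP A) {R₀ : ℝ} (hR₀ : 0 < R₀) {v : V → V} (hv : ContDiff ℝ ∞ v)
    {M : ℝ} (hM : ∀ x i j, |pd j (fun y => v y i) x| ≤ M) :
    ∫⁻ y, Fx R₀ v y ≤ ENNReal.ofReal A * ∫⁻ y, ENNReal.ofReal (gsq v y) := by
  have h6 := hHL R₀ hR₀ (Sp.gw v) (gw_meas hv) (ENNReal.ofReal (9 * M ^ 2) ^ (6 / 7 : ℝ))
    (ENNReal.rpow_ne_top_of_nonneg (by norm_num) ENNReal.ofReal_ne_top) (gw_bd hM)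
  simp only [gw_pow] at h6
  exact h6

lemma hl_cell {A : ℝ} (hA : 0 ≤ A) (hHL : HLP A) {v : V → V} (hv : ContDiff ℝ ∞ v) (hp : Per v)
    {M : ℝ} (hM : ∀ x i j, |pd j (fun y => v y i) x| ≤ M) :
    ∫⁻ y in cell, Fx 1 v y ≤ ENNReal.ofReal (A * 216) * ENNReal.ofReal (enstrophy v) := by
  have hgm := gw_meas hv
  obtain ⟨g, hg⟩ : ∃ g : V → ℝ≥0∞, g = (ball (0 : V) 3).indicator (Sp.gw v) := ⟨_, rfl⟩
  have h6 := hHL 1 one_pos g (by rw [hg]; exact hgm.indicator measurableSet_ball)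
    (ENNReal.ofReal (9 * M ^ 2) ^ (6 / 7 : ℝ))
    (ENNReal.rpow_ne_top_of_nonneg (by norm_num) ENNReal.ofReal_ne_top)
    (fun x => by
      rw [hg]
      exact (indicator_le_self _ _ x).trans (gw_bd hM x))
  have h7 : ∫⁻ x, g x ^ (7 / 6 : ℝ) ≤ ENNReal.ofReal (216 * enstrophy v) := by
    refine le_trans (le_of_eq ?_) (W221.NS.B.p_pere _ ⟨hv, hp⟩)
    rw [← lintegral_indicator measurableSet_ball]
    refine lintegral_congr fun x => ?_
    rw [hg]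
    by_cases hx : x ∈ ball (0 : V) 3
    · rw [indicator_of_mem hx, indicator_of_mem hx, gw_pow]
      congr 1
      unfold gsq
      refine Finset.sum_congr rfl fun i _ => Finset.sum_congr rfl fun j _ => ?_
      congr 1
      refine pd_congr_open isOpen_ball (fun z hz => ?_) j hx
      show v z i = zt z • v z i
      rw [zt_one hz, one_smul]
    · rw [indicator_of_notMem hx, indicator_of_notMem hx,
        ENNReal.zero_rpow_of_pos (by norm_num)]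
  have h8 : ∫⁻ y in cell, Fx 1 v y ≤ ∫⁻ x, Hl.Mx 1 g x ^ (7 / 6 : ℝ) := by
    rw [← lintegral_indicator meas_cell]
    refine lintegral_mono fun x => ?_
    by_cases hx : x ∈ cell
    · rw [indicator_of_mem hx]
      unfold Fx Hl.Mx
      refine ENNReal.rpow_le_rpow (iSup_mono fun m => ?_) (by norm_num)
      refine ENNReal.div_le_div_right (le_of_eq ?_) _
      refine setLIntegral_congr_fun measurableSet_ball fun y hy => ?_
      rw [hg, indicator_of_mem]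
      have h9 := Hl.Rr_le (R₀ := 1) one_pos m
      have h10 := cell_norm hx
      rw [mem_ball] at hy ⊢
      have h11 := dist_triangle y x 0
      rw [dist_zero_right x] at h11
      linarith
    · rw [indicator_of_notMem hx]
      exact zero_le
  refine h8.trans (h6.trans ((mul_le_mul_right h7 _).trans (le_of_eq ?_)))
  rw [ENNReal.ofReal_mul (by norm_num : (0 : ℝ) ≤ 216), ← mul_assoc, ← ENNReal.ofReal_mul hA]

/-- The Lagrangian estimate, by the maximal function. -/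
theorem lagP {C : ℝ} {K : ℕ → ℝ} (hC : 0 ≤ C) (H : PartP C K) {T : ℝ} {u : ℝ → V → V}
    {p : ℝ → V → ℝ} (hN : NSol T u p) {R₀ : ℝ} (hR₀ : 0 < R₀) {t₁ : ℝ} (h1 : 0 < t₁)
    {X : ℝ → V → V} (hX1 : ∀ a, Pathline u t₁ T (fun t => X t a))
    (hX2 : ContinuousOn (fun z : ℝ × V => X z.1 z.2) (Ico t₁ T ×ˢ univ))
    {S : Set V} (hP1 : ∀ s ∈ Ioo t₁ T, ∫⁻ a in S, Fx R₀ (u s) (X s a) ≤ ∫⁻ a in S, Fx R₀ (u s) a) :
    ∫⁻ a in S, ⨆ t ∈ Ioo t₁ T, (RegW K 1 (u t) (X t a) - ENNReal.ofReal C *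
        (ENNReal.ofReal (1 / sc R₀ 0 ^ 2) + ENNReal.ofReal (1 / (t - t₁))))
      ≤ ENNReal.ofReal C * ∫⁻ t in Ioo t₁ T, ∫⁻ y in S, Fx R₀ (u t) y := by
  obtain ⟨f, hf⟩ : ∃ f : ℝ × V → ℝ≥0∞,
    f = fun z : ℝ × V => (Ioo t₁ T).indicator (fun τ => Fx R₀ (u τ) (X τ z.2)) z.1 := ⟨_, rfl⟩
  have hfm : Measurable f := by
    rw [hf]
    exact fX_meas hN.smooth_u R₀ h1 hX2
  have hpt : ∀ a, (⨆ t ∈ Ioo t₁ T, (RegW K 1 (u t) (X t a) - ENNReal.ofReal C *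
        (ENNReal.ofReal (1 / sc R₀ 0 ^ 2) + ENNReal.ofReal (1 / (t - t₁)))))
      ≤ ENNReal.ofReal C * ∫⁻ τ, f (τ, a) := by
    intro a
    refine iSup₂_le fun t ht => ?_
    rw [tsub_le_iff_left]
    refine (H T u p hN R₀ hR₀ t₁ t h1.le ht.1 ht.2 _ (path_traj (hX1 a) ht.2)).trans ?_
    rw [mul_add]
    refine add_le_add le_rfl (mul_le_mul_right ?_ _)
    rw [← lintegral_indicator measurableSet_Ioo]
    refine lintegral_mono fun τ => ?_
    rw [hf]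
    by_cases hτ : τ ∈ Ioo t₁ t
    · rw [indicator_of_mem hτ]
      simp only
      rw [indicator_of_mem (show τ ∈ Ioo t₁ T from ⟨hτ.1, hτ.2.trans ht.2⟩)]
    · rw [indicator_of_notMem hτ]
      exact zero_le
  calc ∫⁻ a in S, ⨆ t ∈ Ioo t₁ T, (RegW K 1 (u t) (X t a) - ENNReal.ofReal C *
        (ENNReal.ofReal (1 / sc R₀ 0 ^ 2) + ENNReal.ofReal (1 / (t - t₁))))
      ≤ ∫⁻ a in S, ENNReal.ofReal C * ∫⁻ τ, f (τ, a) := lintegral_mono hpt
    _ = ENNReal.ofReal C * ∫⁻ a in S, ∫⁻ τ, f (τ, a) :=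
        lintegral_const_mul' _ _ ENNReal.ofReal_ne_top
    _ = ENNReal.ofReal C * ∫⁻ τ, ∫⁻ a in S, f (τ, a) := by
        rw [lintegral_lintegral_swap (f := fun τ a => f (τ, a)) hfm.aemeasurable]
    _ = ENNReal.ofReal C * ∫⁻ τ in Ioo t₁ T, ∫⁻ a in S, Fx R₀ (u τ) (X τ a) := by
        congr 1
        rw [← lintegral_indicator measurableSet_Ioo]
        refine lintegral_congr fun τ => ?_
        by_cases hτ : τ ∈ Ioo t₁ T
        · rw [indicator_of_mem hτ]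
          refine lintegral_congr fun a => ?_
          rw [hf]
          exact indicator_of_mem hτ _
        · rw [indicator_of_notMem hτ]
          have : ∀ a, f (τ, a) = 0 := by
            intro a
            rw [hf]
            exact indicator_of_notMem hτ _
          simp only [this, lintegral_zero]
    _ ≤ ENNReal.ofReal C * ∫⁻ t in Ioo t₁ T, ∫⁻ y in S, Fx R₀ (u t) y :=
        mul_le_mul_right (setLIntegral_mono' measurableSet_Ioo hP1) _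

/-- The whole space, viscosity one. -/
theorem lag_whole {C A : ℝ} {K : ℕ → ℝ} (hC : 0 < C) (H : PartP C K) (hA : 0 < A) (hHL : HLP A)
    {T : ℝ} {u : ℝ → V → V} {p : ℝ → V → ℝ} (hN : NSol T u p) {t₁ : ℝ} (h1 : 0 < t₁)
    (h2 : t₁ < T) : ∃ X : ℝ → V → V, (∀ a, X t₁ a = a) ∧
      (∀ a, Pathline u t₁ T (fun t => X t a)) ∧
      ∫⁻ a, ⨆ t ∈ Ioo t₁ T, (RegW K 1 (u t) (X t a) - ENNReal.ofReal (2 * C / (t - t₁)))
        ≤ ENNReal.ofReal (C * A) *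
          ∫⁻ t in Ioo t₁ T, ∫⁻ y, ENNReal.ofReal (gsq (u t) y) := by
  obtain ⟨X, hX0, hX1, hX2, hX3, -⟩ := flowG hN h1 h2
  refine ⟨X, hX0, hX1, ?_⟩
  have h0 : 0 < T - t₁ := by linarith
  have hR₀ : 0 < 16 * √(T - t₁) := by positivity
  have hsc : sc (16 * √(T - t₁)) 0 ^ 2 = T - t₁ := by
    unfold sc Hl.Rr
    rw [pow_zero, div_one, mul_div_cancel_left₀ _ (by norm_num : (16 : ℝ) ≠ 0), Real.sq_sqrt h0.le]
  have h3 := lagP hC.le H hN hR₀ h1 hX1 hX2 (S := univ) (fun s hs => by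
    rw [setLIntegral_univ, setLIntegral_univ]
    have hs' : s ∈ Ico t₁ T := ⟨hs.1.le, hs.2⟩
    have hc : Continuous (X s) := continuousOn_univ.1 (hX2.comp
      (f := fun a : V => (s, a)) (by fun_prop) (fun a _ => ⟨hs', mem_univ _⟩))
    exact univ_tr hc.measurable (hX3 s hs')
      (Fx_meas _ (slice_cd hN.smooth_u ⟨h1.trans hs.1, hs.2⟩)))
  rw [hsc, setLIntegral_univ] at h3
  calc ∫⁻ a, ⨆ t ∈ Ioo t₁ T, (RegW K 1 (u t) (X t a) - ENNReal.ofReal (2 * C / (t - t₁)))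
      ≤ ∫⁻ a, ⨆ t ∈ Ioo t₁ T, (RegW K 1 (u t) (X t a) - ENNReal.ofReal C *
        (ENNReal.ofReal (1 / (T - t₁)) + ENNReal.ofReal (1 / (t - t₁)))) := by
        refine lintegral_mono fun a => iSup₂_mono fun t ht => tsub_le_tsub_left ?_ _
        have h4 : 0 < t - t₁ := by linarith [ht.1]
        rw [← ENNReal.ofReal_add (by positivity) (by positivity), ← ENNReal.ofReal_mul hC.le]
        apply ENNReal.ofReal_le_ofReal
        have h5 : 1 / (T - t₁) ≤ 1 / (t - t₁) := by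
          have : t - t₁ ≤ T - t₁ := by linarith [ht.2]
          gcongr
        calc C * (1 / (T - t₁) + 1 / (t - t₁)) ≤ C * (1 / (t - t₁) + 1 / (t - t₁)) := by gcongr
          _ = 2 * C / (t - t₁) := by ring
    _ ≤ ENNReal.ofReal C * ∫⁻ t in Ioo t₁ T, ∫⁻ y in univ, Fx (16 * √(T - t₁)) (u t) y := h3
    _ ≤ ENNReal.ofReal C * ∫⁻ t in Ioo t₁ T, ENNReal.ofReal A *
          ∫⁻ y, ENNReal.ofReal (gsq (u t) y) := by
        refine mul_le_mul_right (setLIntegral_mono' measurableSet_Ioo fun t ht => ?_) _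
        rw [setLIntegral_univ]
        have htT : t ∈ Ioo 0 T := ⟨h1.trans ht.1, ht.2⟩
        obtain ⟨M, hM0, hM⟩ := hN.bdd t t htT.1 htT.2
        exact hl_whole hHL hR₀ (slice_cd hN.smooth_u htT) (fun x => (hM t ⟨le_rfl, le_rfl⟩ x).2)
    _ = ENNReal.ofReal (C * A) * ∫⁻ t in Ioo t₁ T, ∫⁻ y, ENNReal.ofReal (gsq (u t) y) := by
        rw [lintegral_const_mul' _ _ ENNReal.ofReal_ne_top, ← mul_assoc,
          ← ENNReal.ofReal_mul hC.le]

/-- Periodic solutions, viscosity one. -/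
theorem lag_peri {C A : ℝ} {K : ℕ → ℝ} (hC : 0 < C) (H : PartP C K) (hA : 0 < A) (hHL : HLP A)
    {T : ℝ} {u : ℝ → V → V} {p : ℝ → V → ℝ} (hN : NSol T u p) (hpu : ∀ t ∈ Ioo 0 T, Per (u t))
    {t₁ : ℝ} (h1 : 0 < t₁) (h2 : t₁ < T) : ∃ X : ℝ → V → V, (∀ a, X t₁ a = a) ∧
      (∀ a, Pathline u t₁ T (fun t => X t a)) ∧
      ∫⁻ a in cell, ⨆ t ∈ Ioo t₁ T, (RegW K 1 (u t) (X t a)
          - ENNReal.ofReal (C * (1 / sc 1 0 ^ 2 + 1 / (t - t₁))))
        ≤ ENNReal.ofReal (C * (A * 216)) *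
          ∫⁻ t in Ioo t₁ T, ENNReal.ofReal (enstrophy (u t)) := by
  obtain ⟨X, hX0, hX1, hX2, hX3, hX4⟩ := flowG hN h1 h2
  refine ⟨X, hX0, hX1, ?_⟩
  have hsc1 := sc_pos one_pos 0
  have h3 := lagP hC.le H hN one_pos h1 hX1 hX2 (S := cell) (fun s hs => by
    have hs' : s ∈ Ico t₁ T := ⟨hs.1.le, hs.2⟩
    have hc : Continuous (X s) := continuousOn_univ.1 (hX2.comp
      (f := fun a : V => (s, a)) (by fun_prop) (fun a _ => ⟨hs', mem_univ _⟩))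
    exact cell_tr hc.measurable (hX3 s hs') (fun y n => hX4 hpu s hs' y n)
      (Fx_meas _ (slice_cd hN.smooth_u ⟨h1.trans hs.1, hs.2⟩))
      (fun x n => Fx_per 1 (hpu s ⟨h1.trans hs.1, hs.2⟩) x n))
  calc ∫⁻ a in cell, ⨆ t ∈ Ioo t₁ T, (RegW K 1 (u t) (X t a)
          - ENNReal.ofReal (C * (1 / sc 1 0 ^ 2 + 1 / (t - t₁))))
      = ∫⁻ a in cell, ⨆ t ∈ Ioo t₁ T, (RegW K 1 (u t) (X t a) - ENNReal.ofReal C *
        (ENNReal.ofReal (1 / sc 1 0 ^ 2) + ENNReal.ofReal (1 / (t - t₁)))) := by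
        refine lintegral_congr fun a => iSup_congr fun t => iSup_congr fun ht => ?_
        have h4 : 0 < t - t₁ := by linarith [ht.1]
        rw [← ENNReal.ofReal_add (by positivity) (by positivity), ← ENNReal.ofReal_mul hC.le]
    _ ≤ ENNReal.ofReal C * ∫⁻ t in Ioo t₁ T, ∫⁻ y in cell, Fx 1 (u t) y := h3
    _ ≤ ENNReal.ofReal C * ∫⁻ t in Ioo t₁ T, ENNReal.ofReal (A * 216) *
          ENNReal.ofReal (enstrophy (u t)) := by
        refine mul_le_mul_right (setLIntegral_mono' measurableSet_Ioo fun t ht => ?_) _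
        have htT : t ∈ Ioo 0 T := ⟨h1.trans ht.1, ht.2⟩
        obtain ⟨M, hM0, hM⟩ := hN.bdd t t htT.1 htT.2
        exact hl_cell hA.le hHL (slice_cd hN.smooth_u htT) (hpu t htT)
          (fun x => (hM t ⟨le_rfl, le_rfl⟩ x).2)
    _ = ENNReal.ofReal (C * (A * 216)) *
          ∫⁻ t in Ioo t₁ T, ENNReal.ofReal (enstrophy (u t)) := by
        rw [lintegral_const_mul' _ _ ENNReal.ofReal_ne_top, ← mul_assoc,
          ← ENNReal.ofReal_mul hC.le]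

end Pool.Agent.Y7
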