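import Pool.Agent.Y7.DLoc

/-!
Local solutions: little oscillation along a particle path bounds all derivatives of the vorticity
around it (helper7).
-/

set_option autoImplicit false
set_option linter.unusedVariables false

open MeasureTheory Set Metric Filter Topology
open scoped ContDiff ENNReal NNReal

namespace Pool.Agent.Y7.D

open H459R3.NS W221.NS Pool.Agent.TH305.LW Pool.Agent.TH305.DR Pool.Agent.Y7

theorem locW : ∃ (η : ℝ) (K : ℕ → ℝ), 0 < η ∧ (∀ n, 0 < K n) ∧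
    ∀ (T : ℝ) (O : Set V) (u : ℝ → V → V) (p : ℝ → V → ℝ), DSol T O u p → ∀ R₀ : ℝ, 0 < R₀ →
      ∀ (m : ℕ) (s : ℝ),
      sc R₀ m ^ 2 < s → s < T → ∀ ξ : ℝ → V, ContinuousOn ξ (Icc (s - sc R₀ m ^ 2) s) →
      (∀ τ ∈ Ioo (s - sc R₀ m ^ 2) s, HasDerivAt ξ (u τ (ξ τ)) τ) →
      (∀ τ ∈ Ioo (s - sc R₀ m ^ 2) s, ball (ξ τ) (9 * sc R₀ m) ⊆ O) →
      ∫⁻ τ in Ioo (s - sc R₀ m ^ 2) s, Fx R₀ (u τ) (ξ τ) ≤ ENNReal.ofReal (η / sc R₀ m ^ 2) →
      ∀ n, ∀ y ∈ ball (ξ s) (sc R₀ m / 256),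
        (sc R₀ m / 16) ^ (2 * n + 4) * ST n (u s) y ≤ K n := by
  obtain ⟨ε, hε, Cl, hCl, hloc⟩ := loc_all
  obtain ⟨K₁, hK₁, hclose⟩ := close
  obtain ⟨C₂, hC₂, hsmall⟩ := small
  obtain ⟨η, hη, hη1, hη2, hη3⟩ : ∃ η : ℝ, 0 < η ∧ K₁ * √η ≤ 1 / 16 ∧ C₂ * η ≤ 1 ∧
      16 * (C₂ * η) ≤ ε := by
    refine ⟨min ((1 / (16 * K₁)) ^ 2) (min (1 / C₂) (ε / (16 * C₂))), by positivity, ?_, ?_, ?_⟩
    · have h1 : √(min ((1 / (16 * K₁)) ^ 2) (min (1 / C₂) (ε / (16 * C₂)))) ≤ 1 / (16 * K₁) := by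
        refine (Real.sqrt_le_sqrt (min_le_left _ _)).trans (le_of_eq ?_)
        exact Real.sqrt_sq (by positivity)
      calc K₁ * √(min ((1 / (16 * K₁)) ^ 2) (min (1 / C₂) (ε / (16 * C₂))))
          ≤ K₁ * (1 / (16 * K₁)) := by gcongr
        _ = 1 / 16 := by field_simp
    · calc C₂ * min ((1 / (16 * K₁)) ^ 2) (min (1 / C₂) (ε / (16 * C₂)))
          ≤ C₂ * (1 / C₂) := by
            gcongr
            exact (min_le_right _ _).trans (min_le_left _ _)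
        _ = 1 := by field_simp
    · calc 16 * (C₂ * min ((1 / (16 * K₁)) ^ 2) (min (1 / C₂) (ε / (16 * C₂))))
          ≤ 16 * (C₂ * (ε / (16 * C₂))) := by
            gcongr
            exact (min_le_right _ _).trans (min_le_right _ _)
        _ = ε := by field_simp
  refine ⟨η, Cl, hη, hCl, ?_⟩
  intro T O u p hN R₀ hR₀ m s hrs hsT ξ hξ hξd hO hI n y hy
  have hr := sc_pos hR₀ m
  have hu := hN.smooth_u
  -- the two scales
  obtain ⟨r, hrd⟩ : ∃ r, r = sc R₀ m := ⟨_, rfl⟩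
  obtain ⟨r', hr'd⟩ : ∃ r', r' = sc R₀ (m + 4) := ⟨_, rfl⟩
  have hrr : r' = r / 16 := by
    rw [hr'd, hrd, sc_add]
    norm_num
  have hr' : 0 < r' := by
    rw [hr'd]
    exact sc_pos hR₀ _
  have hcl0 := hclose T O u p hN R₀ hR₀ m s
  have hcl1 := hclose T O u p hN R₀ hR₀ (m + 4) s
  have hsm := hsmall T O u p hN R₀ hR₀ m s
  simp only [← hrd] at hr hrs hξ hξd hO hI hy hcl0 hsm ⊢
  rw [← hr'd] at hcl1
  have hr2 : 0 < r ^ 2 := by positivity
  have hα : 0 < s - r ^ 2 := by linarith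
  have hs0 : 0 < s := by linarith
  obtain ⟨Y, hYs, hY⟩ := mpath hN r hα (show s - r ^ 2 < s by linarith) hsT (ξ s)
  obtain ⟨Y', hYs', hY'⟩ := mpath hN r' hα (show s - r ^ 2 < s by linarith) hsT (ξ s)
  have hhalf : ENNReal.ofReal K₁ * ∫⁻ τ in Ioo (s - r ^ 2) s, Fx R₀ (u τ) (ξ τ) ^ (1 / 2 : ℝ)
      ≤ ENNReal.ofReal (1 / 16) := by
    refine (mul_le_mul_right (half hu hr2 hη.le hα.le hsT.le
      (hξ.mono Ioo_subset_Icc_self) hI) _).trans ?_
    rw [← ENNReal.ofReal_mul hK₁.le]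
    exact ENNReal.ofReal_le_ofReal hη1
  have d0 := hcl0 (r ^ 2) hr2 hα hsT ξ hξ hξd Y hYs hY hhalf
  have d1 := hcl1 (r ^ 2) hr2 hα hsT ξ hξ hξd Y' hYs' hY' hhalf
  have hYO : ∀ τ ∈ Ioo (s - r ^ 2) s, ball (Y τ) (8 * r) ⊆ O := fun τ hτ => by
    refine (ball_subset_ball' ?_).trans (hO τ hτ)
    rw [dist_eq_norm, norm_sub_rev]
    have := d0 τ ⟨hτ.1, hτ.2.le⟩
    linarith
  have hdis := hsm hrs hsT ξ Y hY hYO
    (fun τ hτ => (d0 τ ⟨hτ.1, hτ.2.le⟩).trans (by linarith)) η hη hη2 hI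
  -- the dissipation along the path at the smaller scale
  have hr'2 : r' ^ 2 = r ^ 2 / 256 := by
    rw [hrr]
    ring
  have hr's : r' ^ 2 < s := by rw [hr'2]; linarith
  have hY'2 : Pth r' u (s - r' ^ 2) s Y' := hY'.mono (by rw [hr'2]; linarith) le_rfl
  have hα' : 0 < s - r' ^ 2 := by linarith
  have m1 : ContinuousOn (fun τ => B2 (Y' τ) (8 * r') (u τ)) (Icc (s - r' ^ 2) s) :=
    mass_cont hu hα' hsT (by linarith [pow_pos hr' 2]) hY'2.cont (8 * r')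
  have m2 : ContinuousOn (fun τ => B2 (Y τ) (r * (3 / 4)) (u τ)) (Icc (s - r ^ 2) s) :=
    mass_cont hu hα hsT (by linarith) hY.cont (r * (3 / 4))
  have hB0 : ∀ τ, 0 ≤ B2 (Y τ) (r * (3 / 4)) (u τ) := fun τ => integral_nonneg fun x =>
    Finset.sum_nonneg fun i _ => Finset.sum_nonneg fun j _ => sq_nonneg _
  have hms : ms u r' Y' (s - r' ^ 2) s ≤ ε := by
    unfold ms
    have i1 : IntervalIntegrable (fun τ => B2 (Y' τ) (8 * r') (u τ)) volume (s - r' ^ 2) s := by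
      apply ContinuousOn.intervalIntegrable
      rw [uIcc_of_le (by linarith [pow_pos hr' 2])]
      exact m1
    have i2 : IntervalIntegrable (fun τ => B2 (Y τ) (r * (3 / 4)) (u τ)) volume
        (s - r' ^ 2) s := by
      apply ContinuousOn.intervalIntegrable
      rw [uIcc_of_le (by linarith [pow_pos hr' 2])]
      exact m2.mono (Icc_subset_Icc_left (by rw [hr'2]; linarith))
    have i3 : IntervalIntegrable (fun τ => B2 (Y τ) (r * (3 / 4)) (u τ)) volume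
        (s - 9 / 16 * r ^ 2) s := by
      apply ContinuousOn.intervalIntegrable
      rw [uIcc_of_le (by linarith)]
      exact m2.mono (Icc_subset_Icc_left (by linarith))
    have e1 : ∫ τ in (s - r' ^ 2)..s, B2 (Y' τ) (8 * r') (u τ)
        ≤ ∫ τ in (s - r' ^ 2)..s, B2 (Y τ) (r * (3 / 4)) (u τ) := by
      apply intervalIntegral.integral_mono_on_of_le_Ioo (by linarith [pow_pos hr' 2]) i1 i2
      intro τ hτ
      have hτ2 : τ ∈ Ioc (s - r ^ 2) s := ⟨by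
        have := hτ.1
        rw [hr'2] at this
        linarith, hτ.2.le⟩
      apply B2_mono (slice_cd hu ⟨by linarith [hτ.1], by linarith [hτ.2]⟩)
      apply ball_subset_ball'
      rw [dist_eq_norm]
      have h1 := d0 τ hτ2
      have h2 := d1 τ hτ2
      have h3 : ‖Y' τ - Y τ‖ ≤ ‖ξ τ - Y' τ‖ + ‖ξ τ - Y τ‖ := by
        have e : Y' τ - Y τ = (ξ τ - Y τ) - (ξ τ - Y' τ) := by abel
        rw [e]
        exact (norm_sub_le _ _).trans (by linarith)
      linarith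
    have e2 : ∫ τ in (s - r' ^ 2)..s, B2 (Y τ) (r * (3 / 4)) (u τ)
        ≤ ∫ τ in (s - 9 / 16 * r ^ 2)..s, B2 (Y τ) (r * (3 / 4)) (u τ) := by
      apply intervalIntegral.integral_mono_interval (by rw [hr'2]; linarith)
        (by linarith [pow_pos hr' 2]) le_rfl (Eventually.of_forall fun τ => hB0 τ) i3
    calc r'⁻¹ * ∫ τ in (s - r' ^ 2)..s, B2 (Y' τ) (8 * r') (u τ)
        ≤ r'⁻¹ * (C₂ * η * r) := by
          gcongr
          exact (e1.trans e2).trans hdis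
      _ = 16 * (C₂ * η) := by
          rw [hrr]
          field_simp
      _ ≤ ε := hη3
  -- the frame
  have hY'O : ∀ τ ∈ Ioo (s - r' ^ 2) s, ball (Y' τ) (8 * r') ⊆ O := fun τ hτ => by
    have hτ1 : s - r ^ 2 < τ := by
      have := hτ.1
      rw [hr'2] at this
      linarith
    refine (ball_subset_ball' ?_).trans (hO τ ⟨hτ1, hτ.2⟩)
    rw [dist_eq_norm, norm_sub_rev]
    have := d1 τ ⟨hτ1, hτ.2.le⟩
    linarith
  have hL := frame hN hr' hr's hsT hY'2.smooth hY'2.ode hY'O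
  have hInt := frame_int (r := r') (s := s) hu hr' hα' le_rfl le_rfl hsT hY'2.cont
  have hle : ∫ t in Ioo (-1) 0, B2 0 8 (frv r' s Y' u t) ≤ ε := by
    rw [ms_eq hu hr' hα' hsT Y']
    exact hms
  have hall := hloc _ _ hL hInt hle
  -- the point
  obtain ⟨z, hz⟩ : ∃ z : V, z = r'⁻¹ • (y - ξ s) := ⟨_, rfl⟩
  have hyz : y = ξ s + r' • z := by
    rw [hz, smul_smul, mul_inv_cancel₀ hr'.ne', one_smul, add_sub_cancel]
  have hzb : z ∈ ball (0 : V) (1 / 16) := by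
    rw [mem_ball, dist_eq_norm] at hy
    rw [hz, mem_ball_zero_iff, norm_smul, Real.norm_eq_abs, abs_of_pos (inv_pos.2 hr'),
      inv_mul_lt_iff₀ hr', hrr]
    linarith
  have hr2' : 0 < r' ^ 2 := by positivity
  have hev : ∀ τ ∈ Ioo (s - r' ^ 2 / 32) s, r' ^ (2 * n + 4) * ST n (u τ) (Y' τ + r' • z)
      ≤ Cl n := by
    intro τ hτ
    have htm : (τ - s) / r' ^ 2 ∈ Ioo (-1 / 32 : ℝ) 0 := by
      constructor
      · rw [lt_div_iff₀ hr2']
        linarith [hτ.1]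
      · exact div_neg_of_neg_of_pos (by linarith [hτ.2]) hr2'
    have e1 : s + r' ^ 2 * ((τ - s) / r' ^ 2) = τ := by
      field_simp
      ring
    have hτ2 : τ ∈ Ioo (s - r' ^ 2) s := ⟨by linarith [hτ.1], hτ.2⟩
    have hv : ContDiff ℝ ∞ (u (s + r' ^ 2 * ((τ - s) / r' ^ 2))) := by
      rw [e1]
      exact slice_cd hu ⟨by linarith [hτ2.1], hτ2.2.trans hsT⟩
    have a1 := (hall n _ htm z hzb).1
    rw [ST_frv n hv, e1] at a1
    exact a1
  have l1 : Tendsto (fun τ => r' ^ (2 * n + 4) * ST n (u τ) (Y' τ + r' • z)) (𝓝[<] s)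
      (𝓝 (r' ^ (2 * n + 4) * ST n (u s) y)) := by
    apply Tendsto.const_mul
    exact lim_path (st_jsT n hu) (show s - r' ^ 2 < s by linarith) hs0 hsT
      (Y := fun τ => Y' τ + r' • z) (hY'2.cont.add continuousOn_const) (by rw [hYs', ← hyz])
  rw [← hrr]
  refine le_of_tendsto l1 ?_
  filter_upwards [Ioo_mem_nhdsLT (show s - r' ^ 2 / 32 < s by linarith)] with τ hτ
  exact hev τ hτ

end Pool.Agent.Y7.D
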