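import Pool.Agent.Y7.DOm

/-!
Local solutions: all viscosities (helper7).
-/

set_option autoImplicit false
set_option linter.unusedVariables false

open MeasureTheory Set Metric Filter Topology
open scoped ContDiff ENNReal NNReal

namespace Pool.Agent.Y7.D

open H459R3.NS W221.NS Pool.Agent.TH305.LW Pool.Agent.TH305.DR Pool.Agent.TH305.LG Pool.Agent.Y7
open Pool.Agent.Y7.Cov1

/-- The regularity scale is local. -/
lemma regI_loc {K : ℕ → ℝ} (hK : ∀ n, 0 < K n) {ν : ℝ} (hν : 0 < ν) {v w : V → V}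
    (hw : ContDiff ℝ ∞ w) {x : V} {d : ℝ} (hd : 0 < d) (h : ∀ y ∈ ball x d, w y = ν⁻¹ • v y) :
    RegI K ν v x ≤ RegI K 1 w x + ENNReal.ofReal (1 / d ^ 4) := by
  unfold RegI
  rw [ENNReal.iInf_add]
  refine le_iInf fun ρ => ?_
  rw [ENNReal.iInf_add]
  refine le_iInf fun hρ => ?_
  have hm : 0 < min ρ d := lt_min hρ.1 hd
  have hA : AdmI K ν v x (min ρ d) := by
    refine ⟨hm, fun y hy n => ?_⟩
    have hy1 : y ∈ ball x ρ := ball_subset_ball (min_le_left _ _) hy
    have hy2 : y ∈ ball x d := ball_subset_ball (min_le_right _ _) hy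
    have h1 := hρ.2 y hy1 n
    rw [mul_one] at h1
    have e : v =ᶠ[𝓝 y] fun y => ν • w y := by
      filter_upwards [isOpen_ball.mem_nhds hy2] with z hz
      rw [h z hz, smul_smul, mul_inv_cancel₀ hν.ne', one_smul]
    have hKn := hK n
    rw [(e.iteratedFDeriv ℝ (n + 1)).eq_of_nhds, iteratedFDeriv_const_smul_apply'
      ((hw.of_le (by exact_mod_cast le_top)).contDiffAt), norm_smul, Real.norm_eq_abs,
      abs_of_pos hν]
    calc ν * ‖iteratedFDeriv ℝ (n + 1) w y‖ ≤ ν * (K n / ρ ^ (n + 2)) := by gcongr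
      _ ≤ ν * (K n / min ρ d ^ (n + 2)) := by
          gcongr
          exact min_le_left _ _
      _ = _ := by ring
  refine (iInf₂_le (min ρ d) hA).trans ?_
  rw [← ENNReal.ofReal_add (by have := hρ.1; positivity) (by positivity)]
  apply ENNReal.ofReal_le_ofReal
  rcases le_total ρ d with h1 | h1
  · rw [min_eq_left h1]
    have : 0 ≤ 1 / d ^ 4 := by positivity
    linarith
  · rw [min_eq_right h1]
    have := hρ.1
    have : 0 ≤ 1 / ρ ^ 4 := by positivity
    linarith

/-- The estimate for all viscosities. -/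
theorem domN (hX : S_DEXT) (hL : S_DL3) : ∃ (C : ℝ) (K : ℕ → ℝ), 0 < C ∧ (∀ n, 0 < K n) ∧
    ∀ (ν T E : ℝ) (Ω : Set V) (u : ℝ → V → V) (p : ℝ → V → ℝ) (x₀ : V) (R : ℝ), 0 < ν → 0 ≤ E →
      OSol ν T E Ω u p → 0 < R → closedBall x₀ (2 * R) ⊆ Ω →
      ∫⁻ t in Ioo 0 T, ∫⁻ y in ball x₀ (R / 4),
          (RegI K ν (u t) y - ENNReal.ofReal (C * (1 / R ^ 4 + 1 / (ν * t) ^ 2)))
        ≤ ENNReal.ofReal (C / ν ^ 2 * (1 + E / (ν * √R))) *
          ((∫⁻ t in Ioo 0 T, ∫⁻ y in ball x₀ R, ENNReal.ofReal (‖fderiv ℝ (u t) y‖ ^ 2))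
            + ENNReal.ofReal (E ^ 2 * T / R ^ 2)) := by
  obtain ⟨C, K, hC, hK, H⟩ := dw1 hL
  obtain ⟨K', hK'd⟩ : ∃ K' : ℕ → ℝ, K' = fun n => √(3 ^ (n + 2) * K n) := ⟨_, rfl⟩
  have hK' : ∀ n, 0 < K' n := fun n => by
    rw [hK'd]
    have := hK n
    positivity
  refine ⟨9 * C + 256, K', by positivity, hK', ?_⟩
  intro ν T E Ω u p x₀ R hν hE hS hR hΩ
  rcases le_or_gt T 0 with hT | hT
  · rw [Ioo_eq_empty (not_lt.2 hT)]
    simp
  have hS1 := W221.NS.B.p_osc ν T E Ω u p hν hS
  obtain ⟨w, q, hN, hwu⟩ := hX (ν * T) (E / ν) Ω _ _ hS1 x₀ R hR hΩ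
  have hRO : ball x₀ R ⊆ Ω := (ball_subset_closedBall.trans
    (closedBall_subset_closedBall (by linarith))).trans hΩ
  have hen : ∀ t ∈ Ioo 0 (ν * T), ∫ x in ball x₀ R, nsq (w t) x ≤ (E / ν) ^ 2 := by
    intro t ht
    calc ∫ x in ball x₀ R, nsq (w t) x
        = ∫ x in ball x₀ R, nsq (fun x => ν⁻¹ • u (t / ν) x) x := by
          refine setIntegral_congr_fun measurableSet_ball fun x hx => ?_
          have e1 := hwu t ht x hx
          simp only [nsq] at *
          rw [e1]
      _ ≤ ∫ x in Ω, nsq (fun x => ν⁻¹ • u (t / ν) x) x := by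
          refine setIntegral_mono_set (hS1.en_int t ht) (Eventually.of_forall fun x =>
            Finset.sum_nonneg fun i _ => sq_nonneg _) hRO.eventuallyLE
      _ ≤ _ := hS1.en t ht
  have h1 := H (ν * T) (E / ν) w q x₀ R hR (div_nonneg hE hν.le) hN hen
  have hkey : ∫⁻ t in Ioo 0 (ν * T), ∫⁻ y in ball x₀ (R / 4),
        (Reg K 1 (w t) y - ENNReal.ofReal (C * (1 / R ^ 4 + 1 / t ^ 2)))
      ≤ ENNReal.ofReal (C * (1 + E / (ν * √R))) * ∫⁻ t in Ioo 0 (ν * T),
        ((∫⁻ y in ball x₀ R, ENNReal.ofReal (gsq (w t) y))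
          + ENNReal.ofReal ((E / ν) ^ 2 / R ^ 2)) := by
    refine h1.trans (le_of_eq ?_)
    rw [lintegral_add_right _ measurable_const, lintegral_const, Measure.restrict_apply_univ,
      Real.volume_Ioo, ← ENNReal.ofReal_mul (by positivity)]
    congr 2
    · congr 1
      rw [div_div]
    · congr 1
      congr 1
      ring
  have hkey2 : ∫⁻ t in Ioo 0 T, ∫⁻ y in ball x₀ (R / 4),
        (Reg K 1 (w (ν * t)) y - ENNReal.ofReal (C * (1 / R ^ 4 + 1 / (ν * t) ^ 2)))
      ≤ ENNReal.ofReal (C * (1 + E / (ν * √R))) * ∫⁻ t in Ioo 0 T,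
        ((∫⁻ y in ball x₀ R, ENNReal.ofReal (gsq (w (ν * t)) y))
          + ENNReal.ofReal ((E / ν) ^ 2 / R ^ 2)) := by
    refine visc hν ?_
    refine le_trans (le_of_eq ?_) (hkey.trans (le_of_eq ?_))
    · refine lintegral_congr fun t => lintegral_congr fun y => ?_
      rw [mul_div_cancel₀ t hν.ne']
    · congr 1
      refine lintegral_congr fun t => ?_
      rw [mul_div_cancel₀ t hν.ne']
  have hloc : ∀ t ∈ Ioo 0 T, ∀ y ∈ ball x₀ R, w (ν * t) y = ν⁻¹ • u t y := by
    intro t ht y hy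
    have e1 := hwu (ν * t) ⟨mul_pos hν ht.1, by gcongr; exact ht.2⟩ y hy
    rw [e1, mul_div_cancel_left₀ t hν.ne']
  have hws : ∀ t ∈ Ioo 0 T, ContDiff ℝ ∞ (w (ν * t)) := fun t ht =>
    slice_cd hN.smooth_u ⟨mul_pos hν ht.1, by gcongr; exact ht.2⟩
  calc ∫⁻ t in Ioo 0 T, ∫⁻ y in ball x₀ (R / 4),
          (RegI K' ν (u t) y - ENNReal.ofReal ((9 * C + 256) * (1 / R ^ 4 + 1 / (ν * t) ^ 2)))
      ≤ ∫⁻ t in Ioo 0 T, ∫⁻ y in ball x₀ (R / 4),
        (Reg K 1 (w (ν * t)) y - ENNReal.ofReal (C * (1 / R ^ 4 + 1 / (ν * t) ^ 2))) := by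
        refine setLIntegral_mono' measurableSet_Ioo fun t ht => ?_
        refine setLIntegral_mono' measurableSet_ball fun y hy => ?_
        have h2 : RegI K' ν (u t) y ≤ Reg K 1 (w (ν * t)) y
            + ENNReal.ofReal (1 / (R / 4) ^ 4) := by
          refine (regI_loc hK' hν (hws t ht) (show 0 < R / 4 by positivity) ?_).trans ?_
          · intro z hz
            refine hloc t ht z ?_
            rw [mem_ball] at hz hy ⊢
            have := dist_triangle z y x₀
            linarith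
          · refine add_le_add_left ?_ _
            have := regI_le hK (hws t ht) y
            rw [hK'd]
            exact this
        rw [tsub_le_iff_right]
        refine h2.trans ?_
        have h3 : ENNReal.ofReal (1 / (R / 4) ^ 4) + ENNReal.ofReal
            (C * (1 / R ^ 4 + 1 / (ν * t) ^ 2))
            ≤ ENNReal.ofReal ((9 * C + 256) * (1 / R ^ 4 + 1 / (ν * t) ^ 2)) := by
          have p1 : 0 ≤ 1 / R ^ 4 := by positivity
          have p2 : 0 ≤ 1 / (ν * t) ^ 2 := by positivity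
          rw [← ENNReal.ofReal_add (by positivity) (by positivity)]
          apply ENNReal.ofReal_le_ofReal
          have e1 : 1 / (R / 4) ^ 4 = 256 * (1 / R ^ 4) := by
            field_simp
            norm_num
          rw [e1]
          nlinarith [mul_nonneg hC.le p1, mul_nonneg hC.le p2]
        calc Reg K 1 (w (ν * t)) y + ENNReal.ofReal (1 / (R / 4) ^ 4)
            ≤ ((Reg K 1 (w (ν * t)) y - ENNReal.ofReal (C * (1 / R ^ 4 + 1 / (ν * t) ^ 2)))
              + ENNReal.ofReal (C * (1 / R ^ 4 + 1 / (ν * t) ^ 2)))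
                + ENNReal.ofReal (1 / (R / 4) ^ 4) := add_le_add_left le_tsub_add _
          _ = (Reg K 1 (w (ν * t)) y - ENNReal.ofReal (C * (1 / R ^ 4 + 1 / (ν * t) ^ 2)))
              + (ENNReal.ofReal (1 / (R / 4) ^ 4)
                + ENNReal.ofReal (C * (1 / R ^ 4 + 1 / (ν * t) ^ 2))) := by ring
          _ ≤ _ := add_le_add_right h3 _
    _ ≤ _ := hkey2
    _ ≤ ENNReal.ofReal (C * (1 + E / (ν * √R))) * ∫⁻ t in Ioo 0 T, ENNReal.ofReal (9 / ν ^ 2) *
        ((∫⁻ y in ball x₀ R, ENNReal.ofReal (‖fderiv ℝ (u t) y‖ ^ 2))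
          + ENNReal.ofReal (E ^ 2 / R ^ 2)) := by
        refine mul_le_mul_right (setLIntegral_mono' measurableSet_Ioo fun t ht => ?_) _
        rw [mul_add]
        refine add_le_add ?_ ?_
        · rw [← lintegral_const_mul' _ _ ENNReal.ofReal_ne_top]
          refine setLIntegral_mono' measurableSet_ball fun y hy => ?_
          rw [← ENNReal.ofReal_mul (by positivity)]
          apply ENNReal.ofReal_le_ofReal
          have h3 := gsq_fd (hws t ht) y
          have e : w (ν * t) =ᶠ[𝓝 y] fun y => ν⁻¹ • u t y := by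
            filter_upwards [isOpen_ball.mem_nhds hy] with z hz
            exact hloc t ht z hz
          have e2 : fderiv ℝ (w (ν * t)) y = ν⁻¹ • fderiv ℝ (u t) y := by
            rw [e.fderiv_eq]
            exact congrFun (fderiv_const_smul_field (𝕜 := ℝ) (f := u t) ν⁻¹) y
          rw [e2, norm_smul, norm_inv, Real.norm_eq_abs, abs_of_pos hν] at h3
          refine h3.trans (le_of_eq ?_)
          field_simp
        · rw [← ENNReal.ofReal_mul (by positivity)]
          apply ENNReal.ofReal_le_ofReal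
          have : (E / ν) ^ 2 / R ^ 2 = 1 / ν ^ 2 * (E ^ 2 / R ^ 2) := by
            field_simp
          rw [this]
          gcongr
          norm_num
    _ = ENNReal.ofReal (9 * C / ν ^ 2 * (1 + E / (ν * √R))) *
          ((∫⁻ t in Ioo 0 T, ∫⁻ y in ball x₀ R, ENNReal.ofReal (‖fderiv ℝ (u t) y‖ ^ 2))
            + ENNReal.ofReal (E ^ 2 * T / R ^ 2)) := by
        rw [lintegral_const_mul' _ _ ENNReal.ofReal_ne_top, ← mul_assoc,
          ← ENNReal.ofReal_mul (by positivity), lintegral_add_right _ measurable_const,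
          lintegral_const, Measure.restrict_apply_univ, Real.volume_Ioo, sub_zero,
          ← ENNReal.ofReal_mul (show (0 : ℝ) ≤ E ^ 2 / R ^ 2 by positivity)]
        congr 2
        · ring
        · congr 1
          ring
    _ ≤ _ := by
        refine mul_le_mul_left (ENNReal.ofReal_le_ofReal ?_) _
        have h4 : 0 ≤ 1 + E / (ν * √R) := by positivity
        gcongr
        linarith

end Pool.Agent.Y7.D
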