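import Pool.Agent.Y7.Der8
import Pool.Agent.Y7.LagW

/-!
The regularity scale: in the space and the time, and along the particle paths (helper7).
-/

set_option autoImplicit false
set_option linter.unusedVariables false

open MeasureTheory Set Metric Filter Topology
open scoped ContDiff ENNReal NNReal

namespace Pool.Agent.Y7

open H459R3.NS W221.NS Pool.Agent.TH305.LW Pool.Agent.TH305.DR Pool.Agent.TH305.LG

/-- Change of the viscosity for the paths of the particles. -/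
lemma path_scale {ν : ℝ} (hν : 0 < ν) {u : ℝ → V → V} {t₁ T : ℝ} {ξ : ℝ → V}
    (h : Pathline (fun t x => ν⁻¹ • u (t / ν) x) (ν * t₁) (ν * T) ξ) :
    Pathline u t₁ T (fun t => ξ (ν * t)) where
  cont := by
    refine h.cont.comp (f := fun t : ℝ => ν * t) (by fun_prop) ?_
    intro t ht
    exact ⟨mul_le_mul_of_nonneg_left ht.1 hν.le, mul_lt_mul_of_pos_left ht.2 hν⟩
  ode := fun t ht => by
    have h1 := h.ode (ν * t) ⟨mul_lt_mul_of_pos_left ht.1 hν, mul_lt_mul_of_pos_left ht.2 hν⟩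
    have h2 := h1.scomp t ((hasDerivAt_id t).const_mul ν)
    simp only [mul_one, mul_div_cancel_left₀ _ hν.ne', smul_smul, mul_inv_cancel₀ hν.ne',
      one_smul] at h2
    exact h2

/-- The dissipation and the change of the viscosity. -/
lemma gsq_visc {ν : ℝ} (hν : 0 < ν) {u : ℝ → V → V} {t₁ T : ℝ}
    (hu : ContDiffOn ℝ ∞ (fun z : ℝ × V => u z.1 z.2) (Ioo 0 T ×ˢ univ)) (ht₁ : 0 ≤ t₁) :
    ∫⁻ τ in Ioo (ν * t₁) (ν * T), ∫⁻ y, ENNReal.ofReal (gsq (fun x => ν⁻¹ • u (τ / ν) x) y)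
      ≤ ENNReal.ofReal (9 / ν) *
        ∫⁻ t in Ioo t₁ T, ∫⁻ y, ENNReal.ofReal (‖fderiv ℝ (u t) y‖ ^ 2) := by
  rw [lint_scale hν (fun t => ∫⁻ y, ENNReal.ofReal (gsq (fun x => ν⁻¹ • u t x) y))]
  calc ENNReal.ofReal ν * ∫⁻ t in Ioo t₁ T, ∫⁻ y, ENNReal.ofReal (gsq (fun x => ν⁻¹ • u t x) y)
      ≤ ENNReal.ofReal ν * ∫⁻ t in Ioo t₁ T, ENNReal.ofReal (9 / ν ^ 2) *
          ∫⁻ y, ENNReal.ofReal (‖fderiv ℝ (u t) y‖ ^ 2) := by
        refine mul_le_mul_right (setLIntegral_mono' measurableSet_Ioo fun t ht => ?_) _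
        rw [← lintegral_const_mul' _ _ ENNReal.ofReal_ne_top]
        refine lintegral_mono fun y => ?_
        rw [← ENNReal.ofReal_mul (by positivity)]
        apply ENNReal.ofReal_le_ofReal
        rw [gsq_smul]
        have h3 := gsq_fd (slice_cd hu (show t ∈ Ioo 0 T from ⟨ht₁.trans_lt ht.1, ht.2⟩)) y
        calc ν⁻¹ ^ 2 * gsq (u t) y ≤ ν⁻¹ ^ 2 * (9 * ‖fderiv ℝ (u t) y‖ ^ 2) := by gcongr
          _ = 9 / ν ^ 2 * ‖fderiv ℝ (u t) y‖ ^ 2 := by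
              field_simp
    _ = ENNReal.ofReal (9 / ν) *
        ∫⁻ t in Ioo t₁ T, ∫⁻ y, ENNReal.ofReal (‖fderiv ℝ (u t) y‖ ^ 2) := by
        rw [lintegral_const_mul' _ _ ENNReal.ofReal_ne_top, ← mul_assoc,
          ← ENNReal.ofReal_mul hν.le]
        congr 2
        field_simp

/-- The supremum along the paths and the change of the viscosity. -/
lemma sup_visc {ν : ℝ} (hν : 0 < ν) {u : ℝ → V → V} {t₁ T : ℝ} {G : ℝ → ℝ} {K : ℕ → ℝ}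
    (hK : ∀ n, 0 < K n)
    (hu : ContDiffOn ℝ ∞ (fun z : ℝ × V => u z.1 z.2) (Ioo 0 T ×ˢ univ)) (ht₁ : 0 ≤ t₁)
    (X : ℝ → V → V) (a : V) :
    ⨆ t ∈ Ioo t₁ T, (invSc 2 0 (fun n => √(9 * 3 ^ n * K n)) ν (vort (u t)) (X (ν * t) a)
        - ENNReal.ofReal (G (ν * t)))
      ≤ ⨆ τ ∈ Ioo (ν * t₁) (ν * T), (RegW K 1 (fun x => ν⁻¹ • u (τ / ν) x) (X τ a)
        - ENNReal.ofReal (G τ)) := by
  refine iSup₂_le fun t ht => ?_
  have hm : ν * t ∈ Ioo (ν * t₁) (ν * T) :=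
    ⟨mul_lt_mul_of_pos_left ht.1 hν, mul_lt_mul_of_pos_left ht.2 hν⟩
  refine le_trans ?_ (le_iSup₂ (f := fun τ (_ : τ ∈ Ioo (ν * t₁) (ν * T)) =>
    RegW K 1 (fun x => ν⁻¹ • u (τ / ν) x) (X τ a) - ENNReal.ofReal (G τ)) (ν * t) hm)
  refine tsub_le_tsub_right ?_ _
  rw [mul_div_cancel_left₀ _ hν.ne']
  exact regW_inv hK hν (slice_cd hu (show t ∈ Ioo 0 T from ⟨ht₁.trans_lt ht.1, ht.2⟩)) _

/-- The whole space, all viscosities. -/
theorem lagN_whole {C A : ℝ} {K : ℕ → ℝ} (hK : ∀ n, 0 < K n) (hC : 0 < C) (H : PartP C K)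
    (hA : 0 < A) (hHL : HLP A) {ν T E : ℝ} {u : ℝ → V → V} {p : ℝ → V → ℝ} (hν : 0 < ν)
    (hE : 0 ≤ E) (hS : OSol ν T E univ u p)
    (hD : ∫⁻ t in Ioo 0 T, ∫⁻ x, ENNReal.ofReal (‖fderiv ℝ (u t) x‖ ^ 2) ≠ ⊤) {t₁ : ℝ}
    (ht₁ : t₁ ∈ Ioo 0 T) :
    ∃ X : ℝ → V → V, (∀ a, X t₁ a = a) ∧ (∀ a, Pathline u t₁ T (fun t => X t a)) ∧
      ∫⁻ a, ⨆ t ∈ Ioo t₁ T, (invSc 2 0 (fun n => √(9 * 3 ^ n * K n)) ν (vort (u t)) (X t a)
          - ENNReal.ofReal (2 * C / (ν * (t - t₁))))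
        ≤ ENNReal.ofReal (9 * (C * A) / ν) *
          ∫⁻ t in Ioo t₁ T, ∫⁻ x, ENNReal.ofReal (‖fderiv ℝ (u t) x‖ ^ 2) := by
  have hS1 := W221.NS.B.p_osc ν T E univ u p hν hS
  have hu := hS.smooth_u
  have hD1 : ∫⁻ τ in Ioo 0 (ν * T), ∫⁻ y, ENNReal.ofReal (gsq (fun x => ν⁻¹ • u (τ / ν) x) y)
      ≠ ⊤ := by
    have h1 := gsq_visc hν hu le_rfl
    rw [mul_zero] at h1
    exact ne_top_of_le_ne_top (ENNReal.mul_ne_top ENNReal.ofReal_ne_top hD) h1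
  have hN := nsol_osol (div_nonneg hE hν.le) hS1 hD1
  obtain ⟨X, hX0, hX1, hX2⟩ := lag_whole hC H hA hHL hN (t₁ := ν * t₁) (mul_pos hν ht₁.1)
    (mul_lt_mul_of_pos_left ht₁.2 hν)
  refine ⟨fun t => X (ν * t), fun a => hX0 a, fun a => path_scale hν (hX1 a), ?_⟩
  calc ∫⁻ a, ⨆ t ∈ Ioo t₁ T, (invSc 2 0 (fun n => √(9 * 3 ^ n * K n)) ν (vort (u t)) (X (ν * t) a)
          - ENNReal.ofReal (2 * C / (ν * (t - t₁))))
      ≤ ∫⁻ a, ⨆ τ ∈ Ioo (ν * t₁) (ν * T), (RegW K 1 (fun x => ν⁻¹ • u (τ / ν) x) (X τ a)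
        - ENNReal.ofReal (2 * C / (τ - ν * t₁))) := by
        refine lintegral_mono fun a => ?_
        refine le_trans (le_of_eq ?_) (sup_visc hν (G := fun τ => 2 * C / (τ - ν * t₁)) hK hu
          ht₁.1.le X a)
        simp only [mul_sub]
    _ ≤ ENNReal.ofReal (C * A) * ∫⁻ τ in Ioo (ν * t₁) (ν * T), ∫⁻ y,
          ENNReal.ofReal (gsq (fun x => ν⁻¹ • u (τ / ν) x) y) := hX2
    _ ≤ ENNReal.ofReal (C * A) * (ENNReal.ofReal (9 / ν) *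
          ∫⁻ t in Ioo t₁ T, ∫⁻ y, ENNReal.ofReal (‖fderiv ℝ (u t) y‖ ^ 2)) :=
        mul_le_mul_right (gsq_visc hν hu ht₁.1.le) _
    _ = ENNReal.ofReal (9 * (C * A) / ν) *
          ∫⁻ t in Ioo t₁ T, ∫⁻ x, ENNReal.ofReal (‖fderiv ℝ (u t) x‖ ^ 2) := by
        rw [← mul_assoc, ← ENNReal.ofReal_mul (by positivity)]
        congr 2
        field_simp

/-- Periodic solutions, all viscosities. -/
theorem lagN_peri {C A : ℝ} {K : ℕ → ℝ} (hK : ∀ n, 0 < K n) (hC : 0 < C) (H : PartP C K)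
    (hA : 0 < A) (hHL : HLP A) {ν T : ℝ} {u : ℝ → V → V} {p : ℝ → V → ℝ} (hν : 0 < ν)
    (hS : IsSol ν T u p) {t₁ : ℝ} (ht₁ : t₁ ∈ Ioo 0 T) :
    ∃ X : ℝ → V → V, (∀ a, X t₁ a = a) ∧ (∀ a, Pathline u t₁ T (fun t => X t a)) ∧
      ∫⁻ a in cube, ⨆ t ∈ Ioo t₁ T, (invSc 2 0 (fun n => √(9 * 3 ^ n * K n)) ν (vort (u t)) (X t a)
          - ENNReal.ofReal (C * (1 / sc 1 0 ^ 2 + 1 / (ν * (t - t₁)))))
        ≤ ENNReal.ofReal (C * (A * 216) / ν ^ 2 * energy (u 0)) := by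
  have hT : 0 < T := ht₁.1.trans ht₁.2
  have hS1 := W221.NS.B.p_scale ν T u p hν hT hS
  have hu : ContDiffOn ℝ ∞ (fun z : ℝ × V => u z.1 z.2) (Ioo 0 T ×ˢ univ) :=
    hS.smooth_u.mono (prod_mono Ioo_subset_Ico_self subset_rfl)
  have hN := nsol_issol hS1
  have hpu : ∀ t ∈ Ioo 0 (ν * T), Per (fun x => ν⁻¹ • u (t / ν) x) :=
    fun t ht => hS1.per_u t ⟨ht.1.le, ht.2⟩
  obtain ⟨X, hX0, hX1, hX2⟩ := lag_peri hC H hA hHL hN hpu (t₁ := ν * t₁) (mul_pos hν ht₁.1)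
    (mul_lt_mul_of_pos_left ht₁.2 hν)
  refine ⟨fun t => X (ν * t), fun a => hX0 a, fun a => path_scale hν (hX1 a), ?_⟩
  calc ∫⁻ a in cube, ⨆ t ∈ Ioo t₁ T, (invSc 2 0 (fun n => √(9 * 3 ^ n * K n)) ν (vort (u t))
          (X (ν * t) a) - ENNReal.ofReal (C * (1 / sc 1 0 ^ 2 + 1 / (ν * (t - t₁)))))
      ≤ ∫⁻ a in cell, ⨆ τ ∈ Ioo (ν * t₁) (ν * T), (RegW K 1 (fun x => ν⁻¹ • u (τ / ν) x) (X τ a)
        - ENNReal.ofReal (C * (1 / sc 1 0 ^ 2 + 1 / (τ - ν * t₁)))) := by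
        rw [cube_eq]
        refine lintegral_mono fun a => ?_
        refine le_trans (le_of_eq ?_) (sup_visc hν
          (G := fun τ => C * (1 / sc 1 0 ^ 2 + 1 / (τ - ν * t₁))) hK hu ht₁.1.le X a)
        simp only [mul_sub]
    _ ≤ ENNReal.ofReal (C * (A * 216)) * ∫⁻ τ in Ioo (ν * t₁) (ν * T),
          ENNReal.ofReal (enstrophy (fun x => ν⁻¹ • u (τ / ν) x)) := hX2
    _ = ENNReal.ofReal (C * (A * 216)) * (ENNReal.ofReal ν * ∫⁻ t in Ioo t₁ T,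
          ENNReal.ofReal (enstrophy (fun x => ν⁻¹ • u t x))) := by
        rw [lint_scale hν (fun t => ENNReal.ofReal (enstrophy (fun x => ν⁻¹ • u t x)))]
    _ = ENNReal.ofReal (C * (A * 216)) * (ENNReal.ofReal ν * (ENNReal.ofReal (ν⁻¹ ^ 2) *
          ∫⁻ t in Ioo t₁ T, ENNReal.ofReal (enstrophy (u t)))) := by
        have e3 : ∀ t, ENNReal.ofReal (enstrophy (fun x => ν⁻¹ • u t x))
            = ENNReal.ofReal (ν⁻¹ ^ 2) * ENNReal.ofReal (enstrophy (u t)) := by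
          intro t
          rw [← ENNReal.ofReal_mul (by positivity), enst_smul]
        simp only [e3]
        rw [lintegral_const_mul' _ _ ENNReal.ofReal_ne_top]
    _ ≤ ENNReal.ofReal (C * (A * 216)) * (ENNReal.ofReal ν * (ENNReal.ofReal (ν⁻¹ ^ 2) *
          ENNReal.ofReal (energy (u 0) / (2 * ν)))) := by
        refine mul_le_mul_right (mul_le_mul_right (mul_le_mul_right ?_ _) _) _
        exact (lintegral_mono_set (Ioo_subset_Ioo ht₁.1.le le_rfl)).trans (enst_int hν hT hS)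
    _ ≤ ENNReal.ofReal (C * (A * 216) / ν ^ 2 * energy (u 0)) := by
        rw [← ENNReal.ofReal_mul (by positivity), ← ENNReal.ofReal_mul hν.le,
          ← ENNReal.ofReal_mul (by positivity)]
        apply ENNReal.ofReal_le_ofReal
        have hE0 := Pool.Agent.W125.MD.energy_nonneg (u 0)
        calc C * (A * 216) * (ν * (ν⁻¹ ^ 2 * (energy (u 0) / (2 * ν))))
            = C * (A * 216) / ν ^ 2 * energy (u 0) / 2 := by
              field_simp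
          _ ≤ C * (A * 216) / ν ^ 2 * energy (u 0) := by
              have : 0 ≤ C * (A * 216) / ν ^ 2 * energy (u 0) := by positivity
              linarith

/-- From the regularity scale of the vorticity to its derivatives, along the paths. -/
lemma lag_der {ν : ℝ} (hν : 0 < ν) {K : ℕ → ℝ} {u : ℝ → V → V} {X : ℝ → V → V} {W : ℝ≥0∞}
    {S : Set V} {t₁ T : ℝ} {G : ℝ → ℝ} (hG : ∀ t₀ t, t₁ < t₀ → t₀ ≤ t → G t ≤ G t₀)
    (h : ∫⁻ a in S, ⨆ t ∈ Ioo t₁ T, (invSc 2 0 K ν (vort (u t)) (X t a)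
      - ENNReal.ofReal (G t)) ≤ W) (n : ℕ) (hK : 0 < K n) {t₀ : ℝ} (ht₀ : t₁ < t₀)
    {B : Set V} (hB : B ⊆ S) :
    ∫⁻ a in B, ⨆ t ∈ Ico t₀ T, ENNReal.ofReal (‖iteratedFDeriv ℝ n (vort (u t)) (X t a)‖
      ^ (2 / (n + 2) : ℝ)) ≤ ENNReal.ofReal ((K n * ν) ^ (2 / (n + 2) : ℝ)) *
        (W + ENNReal.ofReal (G t₀) * volume B) := by
  obtain ⟨F, hF⟩ : ∃ F : V → ℝ≥0∞, F = fun a => ⨆ t ∈ Ioo t₁ T,
    (invSc 2 0 K ν (vort (u t)) (X t a) - ENNReal.ofReal (G t)) := ⟨_, rfl⟩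
  have h1 : ∀ a, (⨆ t ∈ Ico t₀ T, ENNReal.ofReal (‖iteratedFDeriv ℝ n (vort (u t)) (X t a)‖
      ^ (2 / (n + 2) : ℝ))) ≤ ENNReal.ofReal ((K n * ν) ^ (2 / (n + 2) : ℝ)) *
        (F a + ENNReal.ofReal (G t₀)) := by
    intro a
    refine iSup₂_le fun t ht => ?_
    have h2 := der_gen (m := 2) (j := 0) hν (vort (u t)) (X t a) n hK
    rw [add_zero] at h2
    push_cast at h2
    refine h2.trans (mul_le_mul_right ?_ _)
    have h3 : invSc 2 0 K ν (vort (u t)) (X t a) - ENNReal.ofReal (G t) ≤ F a := by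
      rw [hF]
      exact le_iSup₂ (f := fun t (_ : t ∈ Ioo t₁ T) => invSc 2 0 K ν (vort (u t)) (X t a)
        - ENNReal.ofReal (G t)) t ⟨ht₀.trans_le ht.1, ht.2⟩
    calc invSc 2 0 K ν (vort (u t)) (X t a) ≤ (invSc 2 0 K ν (vort (u t)) (X t a)
          - ENNReal.ofReal (G t)) + ENNReal.ofReal (G t) := le_tsub_add
      _ ≤ F a + ENNReal.ofReal (G t₀) :=
          add_le_add h3 (ENNReal.ofReal_le_ofReal (hG t₀ t ht₀ ht.1))
  calc ∫⁻ a in B, ⨆ t ∈ Ico t₀ T, ENNReal.ofReal (‖iteratedFDeriv ℝ n (vort (u t)) (X t a)‖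
        ^ (2 / (n + 2) : ℝ))
      ≤ ∫⁻ a in B, ENNReal.ofReal ((K n * ν) ^ (2 / (n + 2) : ℝ)) *
        (F a + ENNReal.ofReal (G t₀)) := lintegral_mono h1
    _ = ENNReal.ofReal ((K n * ν) ^ (2 / (n + 2) : ℝ)) *
        ((∫⁻ a in B, F a) + ENNReal.ofReal (G t₀) * volume B) := by
        rw [lintegral_const_mul' _ _ ENNReal.ofReal_ne_top,
          lintegral_add_right _ measurable_const, lintegral_const, Measure.restrict_apply_univ]
    _ ≤ _ := by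
        refine mul_le_mul_right (add_le_add ?_ le_rfl) _
        refine (lintegral_mono_set hB).trans ?_
        rw [hF]
        exact h

end Pool.Agent.Y7
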