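import Pool.Agent.Y7.DLag
import Pool.Agent.Y7.DFin
import Pool.Agent.Y7.End8

/-!
Local solutions: the estimates along the particle paths (helper7).
-/

set_option autoImplicit false
set_option linter.unusedVariables false

open MeasureTheory Set Metric Filter Topology
open scoped ContDiff ENNReal NNReal

namespace Pool.Agent.Y7.D

open H459R3.NS W221.NS Pool.Agent.TH305.LW Pool.Agent.TH305.DR Pool.Agent.TH305.LG Pool.Agent.Y7

section
variable {F : Type*} [NormedAddCommGroup F] [NormedSpace ℝ F]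

/-- The regularity scale is local. -/
lemma invSc_loc {m j : ℕ} {K : ℕ → ℝ} (hK : ∀ n, 0 < K n) {ν : ℝ} (hν : 0 < ν) {v w : V → F} {x : V}
    {d : ℝ} (hd : 0 < d) (h : ∀ y ∈ ball x d, v y = w y) :
    invSc m j K ν v x ≤ invSc m j K ν w x + ENNReal.ofReal (1 / d ^ m) := by
  unfold invSc
  rw [ENNReal.iInf_add]
  refine le_iInf fun ρ => ?_
  rw [ENNReal.iInf_add]
  refine le_iInf fun hρ => ?_
  have hm : 0 < min ρ d := lt_min hρ.1 hd
  have hA : RegBall j K ν v x (min ρ d) := by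
    refine ⟨hm, fun y hy n => ?_⟩
    have hy1 : y ∈ ball x ρ := ball_subset_ball (min_le_left _ _) hy
    have hy2 : y ∈ ball x d := ball_subset_ball (min_le_right _ _) hy
    have h1 := hρ.2 y hy1 n
    have e : v =ᶠ[𝓝 y] w := by
      filter_upwards [isOpen_ball.mem_nhds hy2] with z hz
      exact h z hz
    have hKn := hK n
    rw [(e.iteratedFDeriv ℝ (n + j)).eq_of_nhds]
    refine h1.trans ?_
    gcongr
    exact min_le_left _ _
  refine (iInf₂_le (min ρ d) hA).trans ?_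
  rw [← ENNReal.ofReal_add (by have := hρ.1; positivity) (by positivity)]
  apply ENNReal.ofReal_le_ofReal
  rcases le_total ρ d with h1 | h1
  · rw [min_eq_left h1]
    have : 0 ≤ 1 / d ^ m := by positivity
    linarith
  · rw [min_eq_right h1]
    have := hρ.1
    have : 0 ≤ 1 / ρ ^ m := by positivity
    linarith

end

lemma vort_congr {v w : V → V} {O : Set V} (hO : IsOpen O) (h : ∀ y ∈ O, v y = w y) :
    ∀ y ∈ O, vort v y = vort w y := by
  intro y hy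
  have e : v =ᶠ[𝓝 y] w := by
    filter_upwards [hO.mem_nhds hy] with z hz
    exact h z hz
  unfold vort
  rw [e.fderiv_eq]

/-- The vorticity of a field which is locally a multiple of a smooth field. -/
lemma regW_loc {K : ℕ → ℝ} (hK : ∀ n, 0 < K n) {ν : ℝ} (hν : 0 < ν) {v w : V → V}
    (hw : ContDiff ℝ ∞ w) {x : V} {d : ℝ} (hd : 0 < d) (h : ∀ y ∈ ball x d, w y = ν⁻¹ • v y) :
    invSc 2 0 (fun n => √(9 * 3 ^ n * K n)) ν (vort v) x
      ≤ RegW K 1 w x + ENNReal.ofReal (1 / d ^ 2) := by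
  have h1 : ∀ y ∈ ball x d, v y = ν • w y := fun y hy => by
    rw [h y hy, smul_smul, mul_inv_cancel₀ hν.ne', one_smul]
  have h2 := regW_inv hK hν (hw.const_smul ν) x
  have e : (fun x => ν⁻¹ • (ν • w x)) = w := by
    funext y
    rw [smul_smul, inv_mul_cancel₀ hν.ne', one_smul]
  rw [e] at h2
  refine (invSc_loc (fun n => by have := hK n; positivity) hν hd
    (vort_congr isOpen_ball h1)).trans ?_
  exact add_le_add_left h2 _

/-- The particles, all viscosities. -/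
theorem pathN (hX : S_DEXT) : ∃ (C : ℝ) (K : ℕ → ℝ), 0 < C ∧ (∀ n, 0 < K n) ∧
    ∀ (ν T E : ℝ) (Ω : Set V) (u : ℝ → V → V) (p : ℝ → V → ℝ) (x₀ : V) (R : ℝ), 0 < ν →
      OSol ν T E Ω u p → 0 < R → closedBall x₀ (2 * R) ⊆ Ω → ∀ t₁ ∈ Ioo 0 T,
      ∃ X : ℝ → V → V, (∀ a, X t₁ a = a) ∧ (∀ a, ContinuousOn (fun t => X t a) (Ico t₁ T)) ∧
      (∀ a, ∀ t ∈ Ioo t₁ T, X t a ∈ ball x₀ R →
        HasDerivAt (fun s => X s a) (u t (X t a)) t) ∧
      ∫⁻ a, ⨆ t ∈ stay t₁ T (ball x₀ (R / 4)) X a, (invSc 2 0 K ν (vort (u t)) (X t a)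
          - ENNReal.ofReal (C * (1 / R ^ 2 + 1 / (ν * (t - t₁)))))
        ≤ ENNReal.ofReal (C / ν) *
          ∫⁻ t in Ioo t₁ T, ∫⁻ y in ball x₀ R, ENNReal.ofReal (‖fderiv ℝ (u t) y‖ ^ 2) := by
  obtain ⟨C, K, hC, hK, H⟩ := lagD
  obtain ⟨K', hK'd⟩ : ∃ K' : ℕ → ℝ, K' = fun n => √(9 * 3 ^ n * K n) := ⟨_, rfl⟩
  have hK' : ∀ n, 0 < K' n := fun n => by
    rw [hK'd]
    have := hK n
    positivity
  refine ⟨9 * C + 4, K', by positivity, hK', ?_⟩
  intro ν T E Ω u p x₀ R hν hS hR hΩ t₁ ht₁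
  have hS1 := W221.NS.B.p_osc ν T E Ω u p hν hS
  obtain ⟨w, q, hN, hwu⟩ := hX (ν * T) (E / ν) Ω _ _ hS1 x₀ R hR hΩ
  obtain ⟨X, hX0, hX1, hX2⟩ := H (ν * T) w q x₀ R hR hN (ν * t₁) (mul_pos hν ht₁.1)
    (mul_lt_mul_of_pos_left ht₁.2 hν)
  have hloc : ∀ t ∈ Ioo 0 T, ∀ y ∈ ball x₀ R, w (ν * t) y = ν⁻¹ • u t y := by
    intro t ht y hy
    have e1 := hwu (ν * t) ⟨mul_pos hν ht.1, mul_lt_mul_of_pos_left ht.2 hν⟩ y hy
    rw [e1, mul_div_cancel_left₀ t hν.ne']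
  have hws : ∀ t ∈ Ioo 0 T, ContDiff ℝ ∞ (w (ν * t)) := fun t ht =>
    slice_cd hN.smooth_u ⟨mul_pos hν ht.1, mul_lt_mul_of_pos_left ht.2 hν⟩
  refine ⟨fun t => X (ν * t), fun a => hX0 a, fun a => ?_, fun a t ht hin => ?_, ?_⟩
  · refine (hX1 a).cont.comp (f := fun t : ℝ => ν * t) (by fun_prop) ?_
    intro t ht
    exact ⟨mul_le_mul_of_nonneg_left ht.1 hν.le, mul_lt_mul_of_pos_left ht.2 hν⟩
  · have h1 := (hX1 a).ode (ν * t) ⟨mul_lt_mul_of_pos_left ht.1 hν,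
      mul_lt_mul_of_pos_left ht.2 hν⟩
    have h2 := h1.scomp t ((hasDerivAt_id t).const_mul ν)
    rw [hloc t ⟨ht₁.1.trans ht.1, ht.2⟩ _ hin] at h2
    simp only [mul_one, smul_smul, mul_inv_cancel₀ hν.ne', one_smul] at h2
    exact h2
  -- the dissipation
  have hdis : ∫⁻ τ in Ioo (ν * t₁) (ν * T), ∫⁻ y in ball x₀ R, ENNReal.ofReal (gsq (w τ) y)
      ≤ ENNReal.ofReal (9 / ν) *
        ∫⁻ t in Ioo t₁ T, ∫⁻ y in ball x₀ R, ENNReal.ofReal (‖fderiv ℝ (u t) y‖ ^ 2) := by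
    have h1 : ∀ t ∈ Ioo t₁ T, ∫⁻ y in ball x₀ R, ENNReal.ofReal (gsq (w (ν * t)) y)
        ≤ ENNReal.ofReal (9 / ν ^ 2) *
          ∫⁻ y in ball x₀ R, ENNReal.ofReal (‖fderiv ℝ (u t) y‖ ^ 2) := by
      intro t ht
      have ht0 : t ∈ Ioo 0 T := ⟨ht₁.1.trans ht.1, ht.2⟩
      rw [← lintegral_const_mul' _ _ ENNReal.ofReal_ne_top]
      refine setLIntegral_mono' measurableSet_ball fun y hy => ?_
      rw [← ENNReal.ofReal_mul (by positivity)]
      apply ENNReal.ofReal_le_ofReal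
      have h3 := gsq_fd (hws t ht0) y
      have e : w (ν * t) =ᶠ[𝓝 y] fun y => ν⁻¹ • u t y := by
        filter_upwards [isOpen_ball.mem_nhds hy] with z hz
        exact hloc t ht0 z hz
      have e2 : fderiv ℝ (w (ν * t)) y = ν⁻¹ • fderiv ℝ (u t) y := by
        rw [e.fderiv_eq]
        exact congrFun (fderiv_const_smul_field (𝕜 := ℝ) (f := u t) ν⁻¹) y
      rw [e2, norm_smul, norm_inv, Real.norm_eq_abs, abs_of_pos hν] at h3
      refine h3.trans (le_of_eq ?_)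
      field_simp
    have e1 := lint_scale hν (fun t => ∫⁻ y in ball x₀ R, ENNReal.ofReal (gsq (w (ν * t)) y)) t₁ T
    have e2 : ∀ τ : ℝ, ν * (τ / ν) = τ := fun τ => mul_div_cancel₀ τ hν.ne'
    simp only [e2] at e1
    rw [e1]
    calc ENNReal.ofReal ν * ∫⁻ t in Ioo t₁ T,
          ∫⁻ y in ball x₀ R, ENNReal.ofReal (gsq (w (ν * t)) y)
        ≤ ENNReal.ofReal ν * ∫⁻ t in Ioo t₁ T, ENNReal.ofReal (9 / ν ^ 2) *
          ∫⁻ y in ball x₀ R, ENNReal.ofReal (‖fderiv ℝ (u t) y‖ ^ 2) :=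
          mul_le_mul_right (setLIntegral_mono' measurableSet_Ioo h1) _
      _ = _ := by
          rw [lintegral_const_mul' _ _ ENNReal.ofReal_ne_top, ← mul_assoc,
            ← ENNReal.ofReal_mul hν.le]
          congr 2
          field_simp
  -- the pointwise estimate
  have hpt : ∀ a, (⨆ t ∈ stay t₁ T (ball x₀ (R / 4)) (fun t => X (ν * t)) a,
      (invSc 2 0 K' ν (vort (u t)) (X (ν * t) a)
          - ENNReal.ofReal ((9 * C + 4) * (1 / R ^ 2 + 1 / (ν * (t - t₁))))))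
      ≤ ⨆ t ∈ stay (ν * t₁) (ν * T) (ball x₀ (R / 4)) X a, (RegW K 1 (w t) (X t a)
          - ENNReal.ofReal (C * (1 / R ^ 2 + 1 / (t - ν * t₁)))) := by
    intro a
    refine iSup₂_le fun t ht => ?_
    obtain ⟨ht1, ht2⟩ := ht
    have ht0 : t ∈ Ioo 0 T := ⟨ht₁.1.trans ht1.1, ht1.2⟩
    have hst : ν * t ∈ stay (ν * t₁) (ν * T) (ball x₀ (R / 4)) X a := by
      refine ⟨⟨mul_lt_mul_of_pos_left ht1.1 hν, mul_lt_mul_of_pos_left ht1.2 hν⟩, ?_⟩
      intro τ hτ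
      have h1 := ht2 (τ / ν) ⟨by rw [le_div_iff₀ hν]; linarith [hτ.1], by
        rw [div_le_iff₀ hν]; linarith [hτ.2]⟩
      have h1' : X (ν * (τ / ν)) a ∈ ball x₀ (R / 4) := h1
      rwa [mul_div_cancel₀ τ hν.ne'] at h1'
    refine le_trans ?_ (le_iSup₂ (f := fun t (_ : t ∈ stay (ν * t₁) (ν * T) (ball x₀ (R / 4)) X a) =>
      (RegW K 1 (w t) (X t a) - ENNReal.ofReal (C * (1 / R ^ 2 + 1 / (t - ν * t₁))))) (ν * t) hst)
    have hin := hst.2 (ν * t) ⟨(mul_lt_mul_of_pos_left ht1.1 hν).le, le_rfl⟩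
    have h2 : invSc 2 0 K' ν (vort (u t)) (X (ν * t) a) ≤ RegW K 1 (w (ν * t)) (X (ν * t) a)
        + ENNReal.ofReal (1 / (R / 2) ^ 2) := by
      rw [hK'd]
      refine regW_loc hK hν (hws t ht0) (by positivity) fun z hz => hloc t ht0 z ?_
      rw [mem_ball] at hz hin ⊢
      have := dist_triangle z (X (ν * t) a) x₀
      linarith
    have h4 : 0 < ν * (t - t₁) := mul_pos hν (by linarith [ht1.1])
    have e4 : ν * t - ν * t₁ = ν * (t - t₁) := by ring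
    rw [e4, tsub_le_iff_right]
    refine h2.trans ?_
    have h3 : ENNReal.ofReal (1 / (R / 2) ^ 2) + ENNReal.ofReal
        (C * (1 / R ^ 2 + 1 / (ν * (t - t₁))))
        ≤ ENNReal.ofReal ((9 * C + 4) * (1 / R ^ 2 + 1 / (ν * (t - t₁)))) := by
      have p1 : 0 ≤ 1 / R ^ 2 := by positivity
      have p2 : 0 ≤ 1 / (ν * (t - t₁)) := by positivity
      rw [← ENNReal.ofReal_add (by positivity) (by positivity)]
      apply ENNReal.ofReal_le_ofReal
      have e1 : 1 / (R / 2) ^ 2 = 4 * (1 / R ^ 2) := by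
        field_simp
        norm_num
      rw [e1]
      nlinarith [mul_nonneg hC.le p1, mul_nonneg hC.le p2]
    calc RegW K 1 (w (ν * t)) (X (ν * t) a) + ENNReal.ofReal (1 / (R / 2) ^ 2)
        ≤ ((RegW K 1 (w (ν * t)) (X (ν * t) a)
          - ENNReal.ofReal (C * (1 / R ^ 2 + 1 / (ν * (t - t₁)))))
          + ENNReal.ofReal (C * (1 / R ^ 2 + 1 / (ν * (t - t₁)))))
            + ENNReal.ofReal (1 / (R / 2) ^ 2) := add_le_add_left le_tsub_add _
      _ = (RegW K 1 (w (ν * t)) (X (ν * t) a)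
          - ENNReal.ofReal (C * (1 / R ^ 2 + 1 / (ν * (t - t₁)))))
          + (ENNReal.ofReal (1 / (R / 2) ^ 2)
            + ENNReal.ofReal (C * (1 / R ^ 2 + 1 / (ν * (t - t₁))))) := by ring
      _ ≤ _ := add_le_add_right h3 _
  refine (lintegral_mono hpt).trans (hX2.trans ((mul_le_mul_right hdis _).trans ?_))
  rw [← mul_assoc, ← ENNReal.ofReal_mul hC.le]
  refine mul_le_mul_left (ENNReal.ofReal_le_ofReal ?_) _
  rw [mul_div_assoc']
  gcongr
  linarith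

/-- The derivatives along the paths. -/
lemma path_der {ν : ℝ} (hν : 0 < ν) {K : ℕ → ℝ} {u : ℝ → V → V} {X : ℝ → V → V} {W : ℝ≥0∞}
    {B : Set V} {t₁ T c : ℝ} (hc : 0 ≤ c) (hX0 : ∀ a, X t₁ a = a) (hBm : MeasurableSet B)
    {D : ℝ} (hD : 0 ≤ D)
    (h : ∫⁻ a, ⨆ t ∈ stay t₁ T B X a, (invSc 2 0 K ν (vort (u t)) (X t a)
      - ENNReal.ofReal (D * (c + 1 / (ν * (t - t₁))))) ≤ W) (n : ℕ) (hK : 0 < K n) {t₀ : ℝ}
    (ht₀ : t₁ < t₀) :
    ∫⁻ a, ⨆ t ∈ Ici t₀ ∩ stay t₁ T B X a, ENNReal.ofReal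
        (‖iteratedFDeriv ℝ n (vort (u t)) (X t a)‖ ^ (2 / (n + 2) : ℝ))
      ≤ ENNReal.ofReal ((K n * ν) ^ (2 / (n + 2) : ℝ)) *
        (W + ENNReal.ofReal (D * (c + 1 / (ν * (t₀ - t₁)))) * volume B) := by
  obtain ⟨F, hF⟩ : ∃ F : V → ℝ≥0∞, F = fun a => ⨆ t ∈ stay t₁ T B X a,
    (invSc 2 0 K ν (vort (u t)) (X t a)
      - ENNReal.ofReal (D * (c + 1 / (ν * (t - t₁))))) := ⟨_, rfl⟩
  have h1 : ∀ a, (⨆ t ∈ Ici t₀ ∩ stay t₁ T B X a, ENNReal.ofReal
      (‖iteratedFDeriv ℝ n (vort (u t)) (X t a)‖ ^ (2 / (n + 2) : ℝ)))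
      ≤ ENNReal.ofReal ((K n * ν) ^ (2 / (n + 2) : ℝ)) *
        (F a + B.indicator (fun _ => ENNReal.ofReal (D * (c + 1 / (ν * (t₀ - t₁))))) a) := by
    intro a
    refine iSup₂_le fun t ht => ?_
    have hta : t₀ ≤ t := ht.1
    have haB : a ∈ B := by
      have := ht.2.2 t₁ ⟨le_rfl, ht.2.1.1.le⟩
      rwa [hX0] at this
    have h2 := der_gen (m := 2) (j := 0) hν (vort (u t)) (X t a) n hK
    rw [add_zero] at h2
    push_cast at h2
    refine h2.trans (mul_le_mul_right ?_ _)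
    have h3 : invSc 2 0 K ν (vort (u t)) (X t a)
        - ENNReal.ofReal (D * (c + 1 / (ν * (t - t₁)))) ≤ F a := by
      rw [hF]
      exact le_iSup₂ (f := fun t (_ : t ∈ stay t₁ T B X a) =>
        (invSc 2 0 K ν (vort (u t)) (X t a)
      - ENNReal.ofReal (D * (c + 1 / (ν * (t - t₁)))))) t ht.2
    rw [indicator_of_mem haB]
    calc invSc 2 0 K ν (vort (u t)) (X t a) ≤ (invSc 2 0 K ν (vort (u t)) (X t a)
          - ENNReal.ofReal (D * (c + 1 / (ν * (t - t₁)))))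
            + ENNReal.ofReal (D * (c + 1 / (ν * (t - t₁)))) := le_tsub_add
      _ ≤ _ := by
          refine add_le_add h3 (ENNReal.ofReal_le_ofReal ?_)
          have e1 : 0 < ν * (t₀ - t₁) := mul_pos hν (by linarith)
          have e2 : ν * (t₀ - t₁) ≤ ν * (t - t₁) := by gcongr
          gcongr
  calc ∫⁻ a, ⨆ t ∈ Ici t₀ ∩ stay t₁ T B X a, ENNReal.ofReal
        (‖iteratedFDeriv ℝ n (vort (u t)) (X t a)‖ ^ (2 / (n + 2) : ℝ))
      ≤ ∫⁻ a, ENNReal.ofReal ((K n * ν) ^ (2 / (n + 2) : ℝ)) *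
        (F a + B.indicator (fun _ => ENNReal.ofReal (D * (c + 1 / (ν * (t₀ - t₁))))) a) :=
        lintegral_mono h1
    _ = ENNReal.ofReal ((K n * ν) ^ (2 / (n + 2) : ℝ)) *
        ((∫⁻ a, F a) + ENNReal.ofReal (D * (c + 1 / (ν * (t₀ - t₁)))) * volume B) := by
        rw [lintegral_const_mul' _ _ ENNReal.ofReal_ne_top,
          lintegral_add_right _ (measurable_const.indicator hBm), lintegral_indicator hBm,
          lintegral_const, Measure.restrict_apply_univ]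
    _ ≤ _ := by
        refine mul_le_mul_right (add_le_add ?_ le_rfl) _
        rw [hF]
        exact h

end Pool.Agent.Y7.D
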