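import Pool.Agent.Y7.Close

/-!
Little oscillation along a particle path implies little dissipation around it (helper7).
-/

set_option autoImplicit false
set_option linter.unusedVariables false

open MeasureTheory Set Metric Filter Topology
open scoped ContDiff ENNReal NNReal

namespace Pool.Agent.Y7

open H459R3.NS W221.NS Pool.Agent.TH305.LW

/-- Affine change of variables. -/
lemma aff (H : ℝ → ℝ≥0∞) {s c a b : ℝ} (hc : 0 < c) :
    ∫⁻ t in Ioo a b, H (s + c * t)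
      = ENNReal.ofReal (1 / c) * ∫⁻ τ in Ioo (s + c * a) (s + c * b), H τ := by
  have h1 : ∫⁻ t in Ioo a b, H (s + c * t)
      = ∫⁻ t, (Ioo (s + c * a) (s + c * b)).indicator H (s + c * t) := by
    rw [← lintegral_indicator measurableSet_Ioo]
    refine lintegral_congr fun t => ?_
    have hiff : t ∈ Ioo a b ↔ s + c * t ∈ Ioo (s + c * a) (s + c * b) := by
      simp only [mem_Ioo]
      constructor
      · rintro ⟨h1, h2⟩
        constructor <;> nlinarith
      · rintro ⟨h1, h2⟩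
        constructor <;> nlinarith
    by_cases h : t ∈ Ioo a b
    · rw [indicator_of_mem h, indicator_of_mem (hiff.1 h)]
    · rw [indicator_of_notMem h, indicator_of_notMem (fun h' => h (hiff.2 h'))]
  have h2 : ∫⁻ t, (Ioo (s + c * a) (s + c * b)).indicator H (s + c * t)
      = ∫⁻ y, (Ioo (s + c * a) (s + c * b)).indicator H (s + y)
        ∂(Measure.map (fun t : ℝ => c * t) volume) :=
    ((Homeomorph.mulLeft₀ c hc.ne').toMeasurableEquiv.measurableEmbedding.lintegral_map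
      (fun y => (Ioo (s + c * a) (s + c * b)).indicator H (s + y))).symm
  have h3 : Measure.map (fun t : ℝ => c * t) volume = ENNReal.ofReal (1 / c) • volume := by
    rw [Real.map_volume_mul_left hc.ne', abs_of_pos (inv_pos.2 hc), one_div]
  rw [h1, h2, h3, lintegral_smul_measure,
    lintegral_add_left_eq_self (fun y => (Ioo (s + c * a) (s + c * b)).indicator H y) s,
    lintegral_indicator measurableSet_Ioo, smul_eq_mul]

/-- The velocity in the moving frame. -/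
lemma frv_fr {r s t : ℝ} {u : ℝ → V → V} {Y : ℝ → V}
    (hd : HasDerivAt Y (mol r u (s + r ^ 2 * t) (Y (s + r ^ 2 * t))) (s + r ^ 2 * t)) :
    frv r s Y u t = fr r (u (s + r ^ 2 * t)) (Y (s + r ^ 2 * t)) := by
  funext z i
  have hd' : HasDerivAt (fun τ => Y τ i) (mol r u (s + r ^ 2 * t) (Y (s + r ^ 2 * t)) i)
    (s + r ^ 2 * t) := (hasDerivAt_pi.1 hd) i
  show r * (u (s + r ^ 2 * t) (Y (s + r ^ 2 * t) + r • z) i
    - deriv (fun τ => Y τ i) (s + r ^ 2 * t)) = _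
  rw [hd'.deriv]
  rfl

/-- Little oscillation along a particle path implies little dissipation around it. -/
theorem small : ∃ C : ℝ, 0 < C ∧ ∀ (T : ℝ) (u : ℝ → V → V) (p : ℝ → V → ℝ), NSol T u p →
    ∀ R₀ : ℝ, 0 < R₀ → ∀ (m : ℕ) (s : ℝ), sc R₀ m ^ 2 < s → s < T → ∀ ξ : ℝ → V,
      ∀ Y : ℝ → V, Pth (sc R₀ m) u (s - sc R₀ m ^ 2) s Y →
      (∀ τ ∈ Ioo (s - sc R₀ m ^ 2) s, ‖ξ τ - Y τ‖ ≤ sc R₀ m) → ∀ η : ℝ, 0 < η → C * η ≤ 1 →
      ∫⁻ τ in Ioo (s - sc R₀ m ^ 2) s, Fx R₀ (u τ) (ξ τ) ≤ ENNReal.ofReal (η / sc R₀ m ^ 2) →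
      ∫ τ in (s - 9 / 16 * sc R₀ m ^ 2)..s, B2 (Y τ) (sc R₀ m * (3 / 4)) (u τ)
        ≤ C * η * sc R₀ m := by
  obtain ⟨K, hK, hosc⟩ := osc
  obtain ⟨k, hk⟩ : ∃ k, k = K.toReal := ⟨_, rfl⟩
  have hk0 : 0 ≤ k := by rw [hk]; exact ENNReal.toReal_nonneg
  have hKk : K = ENNReal.ofReal k := by rw [hk, ENNReal.ofReal_toReal hK]
  obtain ⟨C, hC, hen⟩ := enstep
  refine ⟨C * (k + 1), by positivity, ?_⟩
  intro T u p hN R₀ hR₀ m s hrs hsT ξ Y hY hcl η hη hCη hI
  have hr := sc_pos hR₀ m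
  obtain ⟨r, hrd⟩ : ∃ r, r = sc R₀ m := ⟨_, rfl⟩
  have hosc' := hosc R₀ hR₀
  simp only [← hrd] at hr hrs hY hcl hI ⊢
  have hr2 : 0 < r ^ 2 := by positivity
  have hα : 0 < s - r ^ 2 := by linarith
  have hL := frame hN hr hrs hsT hY.smooth hY.ode
  have hτ : ∀ t ∈ Ioo (-1 : ℝ) 0, s + r ^ 2 * t ∈ Ioo (s - r ^ 2) s := fun t ht =>
    ⟨by nlinarith [ht.1], by nlinarith [ht.2]⟩
  have hτT : ∀ τ ∈ Ioo (s - r ^ 2) s, τ ∈ Ioo 0 T := fun τ h => ⟨by linarith [h.1], by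
    linarith [h.2]⟩
  have hv : ∀ t ∈ Ioo (-1 : ℝ) 0, frv r s Y u t = fr r (u (s + r ^ 2 * t)) (Y (s + r ^ 2 * t)) :=
    fun t ht => frv_fr (hY.ode _ (hτ t ht))
  have hpt : ∀ t ∈ Ioo (-1 : ℝ) 0, ENNReal.ofReal (√(L4 0 4 (frv r s Y u t)))
      ≤ ENNReal.ofReal (k * r ^ 4) * Fx R₀ (u (s + r ^ 2 * t)) (ξ (s + r ^ 2 * t)) := by
    intro t ht
    have h1 := hosc' (u (s + r ^ 2 * t)) (slice_cd hN.smooth_u (hτT _ (hτ t ht))) m
      (ξ (s + r ^ 2 * t)) (Y (s + r ^ 2 * t)) (by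
        rw [norm_sub_rev, ← hrd]
        exact hcl _ (hτ t ht))
    rw [← hrd, hKk, ← mul_assoc, ← ENNReal.ofReal_mul hk0] at h1
    rw [hv t ht]
    exact h1
  have hlint : ∫⁻ t in Ioo (-1 : ℝ) 0, ENNReal.ofReal (√(L4 0 4 (frv r s Y u t)))
      ≤ ENNReal.ofReal (k * η) := by
    refine (setLIntegral_mono' measurableSet_Ioo hpt).trans ?_
    rw [lintegral_const_mul' _ _ ENNReal.ofReal_ne_top,
      aff (fun τ => Fx R₀ (u τ) (ξ τ)) hr2]
    have e1 : s + r ^ 2 * (-1) = s - r ^ 2 := by ring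
    have e2 : s + r ^ 2 * 0 = s := by ring
    rw [e1, e2]
    refine (mul_le_mul_right (mul_le_mul_right hI _) _).trans ?_
    rw [← ENNReal.ofReal_mul (by positivity), ← ENNReal.ofReal_mul (by positivity)]
    apply ENNReal.ofReal_le_ofReal
    apply le_of_eq
    field_simp
  have hcont : ContinuousOn (fun t => √(L4 0 4 (frv r s Y u t))) (Ioo (-1) 0) := by
    apply Real.continuous_sqrt.comp_continuousOn
    unfold L4
    apply W221.NS.B.p_pcont (-1) 0 (fun t z => nsq (frv r s Y u t) z ^ 2) 0 4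
    have h1 : ContinuousOn (fun z : ℝ × V => frv r s Y u z.1 z.2) (Ioo (-1) 0 ×ˢ univ) :=
      hL.smooth_v.continuousOn
    have h2 : ∀ i, ContinuousOn (fun z : ℝ × V => frv r s Y u z.1 z.2 i) (Ioo (-1) 0 ×ˢ univ) :=
      fun i => continuousOn_pi.1 h1 i
    unfold nsq
    exact (continuousOn_finsetSum _ fun i _ => (h2 i).pow 2).pow 2
  have hint : IntegrableOn (fun t => √(L4 0 4 (frv r s Y u t))) (Ioo (-1) 0) := by
    refine ⟨hcont.aestronglyMeasurable measurableSet_Ioo, ?_⟩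
    rw [hasFiniteIntegral_iff_ofReal (Eventually.of_forall fun t => Real.sqrt_nonneg _)]
    exact hlint.trans_lt ENNReal.ofReal_lt_top
  have hle : ∫ t in Ioo (-1 : ℝ) 0, √(L4 0 4 (frv r s Y u t)) ≤ (k + 1) * η := by
    have h1 : ∫ t in Ioo (-1 : ℝ) 0, √(L4 0 4 (frv r s Y u t)) ≤ k * η := by
      rw [← ENNReal.ofReal_le_ofReal_iff (by positivity),
        ofReal_integral_eq_lintegral_ofReal hint (Eventually.of_forall fun t => Real.sqrt_nonneg _)]
      exact hlint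
    linarith
  have hE := hen _ _ hL ((k + 1) * η) (by positivity) (by linarith) hint hle
  -- the mass before the final time
  have hm := mass_cont (T := T) hN.smooth_u hα hsT (by linarith) hY.cont (r * (3 / 4))
  have hb : ∀ b ∈ Ioo (s - 9 / 16 * r ^ 2) s,
      ∫ τ in (s - 9 / 16 * r ^ 2)..b, B2 (Y τ) (r * (3 / 4)) (u τ) ≤ C * (k + 1) * η * r := by
    intro b hb
    obtain ⟨t₁, ht₁⟩ : ∃ t₁, t₁ = (b - s) / r ^ 2 := ⟨_, rfl⟩
    have hbt : s + r ^ 2 * t₁ = b := by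
      rw [ht₁]
      field_simp
      ring
    have ht₁m : t₁ ∈ Ioo (-9 / 16 : ℝ) 0 := by
      rw [ht₁]
      constructor
      · rw [lt_div_iff₀ hr2]
        linarith [hb.1]
      · exact div_neg_of_neg_of_pos (by linarith [hb.2]) hr2
    have h1 := hE t₁ ht₁m
    rw [mass_cov (T := T) hN.smooth_u hr ht₁m.1.le (by nlinarith) (by rw [hbt]; linarith [hb.2]) Y 0
      (3 / 4)] at h1
    have e1 : s + r ^ 2 * (-9 / 16) = s - 9 / 16 * r ^ 2 := by ring
    simp only [smul_zero, add_zero] at h1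
    rw [e1, hbt, inv_mul_le_iff₀ hr] at h1
    refine h1.trans (le_of_eq ?_)
    ring
  -- the limit
  have hlt : s - 9 / 16 * r ^ 2 < s := by linarith
  have hii : IntervalIntegrable (fun τ => B2 (Y τ) (r * (3 / 4)) (u τ)) volume
      (s - 9 / 16 * r ^ 2) s := by
    apply ContinuousOn.intervalIntegrable
    rw [uIcc_of_le hlt.le]
    exact hm.mono (Icc_subset_Icc_left (by linarith))
  have hprim := intervalIntegral.continuousOn_primitive_interval' hii left_mem_uIcc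
  rw [uIcc_of_le hlt.le] at hprim
  have hcs : ContinuousWithinAt (fun b => ∫ τ in (s - 9 / 16 * r ^ 2)..b,
      B2 (Y τ) (r * (3 / 4)) (u τ)) (Iio s) s := by
    apply (hprim s ⟨hlt.le, le_rfl⟩).mono_of_mem_nhdsWithin
    exact mem_of_superset (Ioo_mem_nhdsLT hlt) Ioo_subset_Icc_self
  refine le_of_tendsto hcs ?_
  filter_upwards [Ioo_mem_nhdsLT hlt] with b hb'
  exact hb b hb'

end Pool.Agent.Y7
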