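import Pool.Agent.Y7.DNs
import Pool.Agent.Y7.Small

/-!
Local solutions: particle paths and the paths of the mollified velocity stay close; little
oscillation along a particle path implies little dissipation around it (helper7).
-/

set_option autoImplicit false
set_option linter.unusedVariables false

open MeasureTheory Set Metric Filter Topology
open scoped ContDiff ENNReal NNReal

namespace Pool.Agent.Y7.D

open H459R3.NS W221.NS Pool.Agent.TH305.LW Pool.Agent.TH305.DR Pool.Agent.Y7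

/-- Particle paths and the paths of the mollified velocity stay close. -/
theorem close : ∃ K : ℝ, 0 < K ∧ ∀ (T : ℝ) (O : Set V) (u : ℝ → V → V) (p : ℝ → V → ℝ),
    DSol T O u p → ∀ R₀ : ℝ, 0 < R₀ → ∀ (m : ℕ) (s h : ℝ), 0 < h → 0 < s - h → s < T → ∀ ξ : ℝ → V,
      ContinuousOn ξ (Icc (s - h) s) → (∀ τ ∈ Ioo (s - h) s, HasDerivAt ξ (u τ (ξ τ)) τ) →
      ∀ Y : ℝ → V, Y s = ξ s → Pth (sc R₀ m) u (s - h) s Y →
      ENNReal.ofReal K * ∫⁻ τ in Ioo (s - h) s, Fx R₀ (u τ) (ξ τ) ^ (1 / 2 : ℝ)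
        ≤ ENNReal.ofReal (1 / 16) →
      ∀ τ ∈ Ioc (s - h) s, ‖ξ τ - Y τ‖ ≤ sc R₀ m / 16 := by
  obtain ⟨K, hK, hml⟩ := mlb
  refine ⟨K, hK, ?_⟩
  intro T O u p hN R₀ hR₀ m s h hh hsh hsT ξ hξ hξd Y hYs hY hI
  have hρ := sc_pos hR₀ m
  obtain ⟨ρ, hρd⟩ : ∃ ρ, ρ = sc R₀ m := ⟨_, rfl⟩
  rw [← hρd] at hρ hY ⊢
  have hmaps : ∀ τ ∈ Icc (s - h) s, τ ∈ Ioo 0 T := fun τ hτ => ⟨hsh.trans_le hτ.1,
    hτ.2.trans_lt hsT⟩
  obtain ⟨w, hw⟩ : ∃ w : ℝ → V, w = fun τ => u τ (ξ τ) - mol ρ u τ (Y τ) := ⟨_, rfl⟩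
  have hwc : ContinuousOn w (Icc (s - h) s) := by
    rw [hw]
    apply ContinuousOn.sub
    · exact hN.smooth_u.continuousOn.comp (f := fun τ : ℝ => (τ, ξ τ))
        (continuousOn_id.prodMk hξ) (fun τ hτ => ⟨hmaps τ hτ, mem_univ _⟩)
    · exact (mol_smooth hN.smooth_u ρ).continuousOn.comp (f := fun τ : ℝ => (τ, Y τ))
        (continuousOn_id.prodMk hY.cont) (fun τ hτ => ⟨hmaps τ hτ, mem_univ _⟩)
  have hδ : 0 < ρ / 8 := by positivity
  obtain ⟨g, hg⟩ : ∃ g : ℝ → ℝ, g = fun τ => cφ (ρ / 8) ‖ξ τ - Y τ‖ * ‖w τ‖ := ⟨_, rfl⟩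
  have hφc : Continuous (cφ (ρ / 8)) := by
    unfold cφ
    fun_prop
  have hφ0 : ∀ d, 0 ≤ cφ (ρ / 8) d := fun d => le_min zero_le_one (le_max_left _ _)
  have hφ1 : ∀ d, cφ (ρ / 8) d ≤ 1 := fun d => min_le_left _ _
  have hgc : ContinuousOn g (Icc (s - h) s) := by
    rw [hg]
    exact (hφc.comp_continuousOn (hξ.sub hY.cont).norm).mul hwc.norm
  have hg0 : ∀ τ, 0 ≤ g τ := by
    intro τ
    rw [hg]
    exact mul_nonneg (hφ0 _) (norm_nonneg _)
  have hst := Pool.Agent.TH305.LG.stay (ξ := ξ) (Y := Y) (s := s) (h := h) (ρ := ρ / 8) hh hδ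
    (g := g) hgc (fun τ _ => hg0 τ) hξ hY.cont hYs.symm ?_ ?_
  · intro τ hτ
    refine (hst τ hτ).trans (le_of_eq ?_)
    ring
  · intro τ hτ
    refine ⟨u τ (ξ τ), mol ρ u τ (Y τ), hξd τ hτ, hY.ode τ hτ, fun hlt => ?_⟩
    rw [hg, hw]
    simp only
    have h1 : cφ (ρ / 8) ‖ξ τ - Y τ‖ = 1 := by
      unfold cφ
      apply min_eq_left
      apply le_max_of_le_right
      have : ‖ξ τ - Y τ‖ / (ρ / 8) ≤ 1 := by
        rw [div_le_one hδ]
        exact hlt.le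
      linarith
    rw [h1, one_mul]
  · have hpt : ∀ τ ∈ Ioo (s - h) s, ENNReal.ofReal (g τ)
        ≤ ENNReal.ofReal (K * ρ) * Fx R₀ (u τ) (ξ τ) ^ (1 / 2 : ℝ) := by
      intro τ hτ
      by_cases hd : ‖ξ τ - Y τ‖ ≤ ρ
      · have h1 := hml R₀ hR₀ (u τ) (slice_cd hN.smooth_u (hmaps τ (Ioo_subset_Icc_self hτ))) m
          (ξ τ) (Y τ) (by rw [norm_sub_rev, ← hρd]; exact hd)
        rw [← hρd] at h1
        refine le_trans (ENNReal.ofReal_le_ofReal ?_) h1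
        rw [hg, hw]
        simp only
        rw [mol_eq, norm_sub_rev (u τ (ξ τ))]
        exact mul_le_of_le_one_left (norm_nonneg _) (hφ1 _)
      · have h1 : g τ = 0 := by
          rw [hg]
          simp only
          have : cφ (ρ / 8) ‖ξ τ - Y τ‖ = 0 := by
            unfold cφ
            have h2 : 2 - ‖ξ τ - Y τ‖ / (ρ / 8) ≤ 0 := by
              push Not at hd
              have : 2 ≤ ‖ξ τ - Y τ‖ / (ρ / 8) := by
                rw [le_div_iff₀ hδ]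
                linarith
              linarith
            rw [max_eq_left h2]
            exact min_eq_right zero_le_one
          rw [this, zero_mul]
        rw [h1, ENNReal.ofReal_zero]
        exact zero_le
    have hle : s - h ≤ s := by linarith
    rw [intervalIntegral.integral_of_le hle, integral_Ioc_eq_integral_Ioo]
    have hgi : IntegrableOn g (Ioo (s - h) s) :=
      (hgc.integrableOn_compact isCompact_Icc).mono_set Ioo_subset_Icc_self
    rw [← ENNReal.ofReal_le_ofReal_iff (by positivity),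
      ofReal_integral_eq_lintegral_ofReal hgi (Eventually.of_forall hg0)]
    refine (setLIntegral_mono' measurableSet_Ioo hpt).trans ?_
    rw [lintegral_const_mul' _ _ ENNReal.ofReal_ne_top, mul_comm K ρ, ENNReal.ofReal_mul hρ.le,
      mul_assoc]
    refine (mul_le_mul_right hI _).trans ?_
    rw [← ENNReal.ofReal_mul hρ.le]
    apply ENNReal.ofReal_le_ofReal
    linarith

/-- Little oscillation along a particle path implies little dissipation around it. -/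
theorem small : ∃ C : ℝ, 0 < C ∧ ∀ (T : ℝ) (O : Set V) (u : ℝ → V → V) (p : ℝ → V → ℝ),
    DSol T O u p → ∀ R₀ : ℝ, 0 < R₀ → ∀ (m : ℕ) (s : ℝ), sc R₀ m ^ 2 < s → s < T → ∀ ξ : ℝ → V,
      ∀ Y : ℝ → V, Pth (sc R₀ m) u (s - sc R₀ m ^ 2) s Y →
      (∀ τ ∈ Ioo (s - sc R₀ m ^ 2) s, ball (Y τ) (8 * sc R₀ m) ⊆ O) →
      (∀ τ ∈ Ioo (s - sc R₀ m ^ 2) s, ‖ξ τ - Y τ‖ ≤ sc R₀ m) → ∀ η : ℝ, 0 < η → C * η ≤ 1 →
      ∫⁻ τ in Ioo (s - sc R₀ m ^ 2) s, Fx R₀ (u τ) (ξ τ) ≤ ENNReal.ofReal (η / sc R₀ m ^ 2) →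
      ∫ τ in (s - 9 / 16 * sc R₀ m ^ 2)..s, B2 (Y τ) (sc R₀ m * (3 / 4)) (u τ)
        ≤ C * η * sc R₀ m := by
  obtain ⟨K, hK, hosc⟩ := osc
  obtain ⟨k, hk⟩ : ∃ k, k = K.toReal := ⟨_, rfl⟩
  have hk0 : 0 ≤ k := by rw [hk]; exact ENNReal.toReal_nonneg
  have hKk : K = ENNReal.ofReal k := by rw [hk, ENNReal.ofReal_toReal hK]
  obtain ⟨C, hC, hen⟩ := enstep
  refine ⟨C * (k + 1), by positivity, ?_⟩
  intro T O u p hN R₀ hR₀ m s hrs hsT ξ Y hY hO hcl η hη hCη hI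
  have hr := sc_pos hR₀ m
  obtain ⟨r, hrd⟩ : ∃ r, r = sc R₀ m := ⟨_, rfl⟩
  have hosc' := hosc R₀ hR₀
  simp only [← hrd] at hr hrs hY hO hcl hI ⊢
  have hr2 : 0 < r ^ 2 := by positivity
  have hα : 0 < s - r ^ 2 := by linarith
  have hL := frame hN hr hrs hsT hY.smooth hY.ode hO
  have hτ : ∀ t ∈ Ioo (-1 : ℝ) 0, s + r ^ 2 * t ∈ Ioo (s - r ^ 2) s := fun t ht =>
    ⟨by nlinarith [ht.1], by nlinarith [ht.2]⟩
  have hτT : ∀ τ ∈ Ioo (s - r ^ 2) s, τ ∈ Ioo 0 T := fun τ h => ⟨by linarith [h.1], by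
    linarith [h.2]⟩
  have hv : ∀ t ∈ Ioo (-1 : ℝ) 0, frv r s Y u t = fr r (u (s + r ^ 2 * t)) (Y (s + r ^ 2 * t)) :=
    fun t ht => frv_fr (hY.ode _ (hτ t ht))
  have hpt : ∀ t ∈ Ioo (-1 : ℝ) 0, ENNReal.ofReal (√(L4 0 4 (frv r s Y u t)))
      ≤ ENNReal.ofReal (k * r ^ 4) * Fx R₀ (u (s + r ^ 2 * t)) (ξ (s + r ^ 2 * t)) := by
    intro t ht
    have h1 := hosc' (u (s + r ^ 2 * t)) (slice_cd hN.smooth_u (hτT _ (hτ t ht))) m
      (ξ (s + r ^ 2 * t)) (Y (s + r ^ 2 * t)) (by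
        rw [norm_sub_rev, ← hrd]
        exact hcl _ (hτ t ht))
    rw [← hrd, hKk, ← mul_assoc, ← ENNReal.ofReal_mul hk0] at h1
    rw [hv t ht]
    exact h1
  have hlint : ∫⁻ t in Ioo (-1 : ℝ) 0, ENNReal.ofReal (√(L4 0 4 (frv r s Y u t)))
      ≤ ENNReal.ofReal (k * η) := by
    refine (setLIntegral_mono' measurableSet_Ioo hpt).trans ?_
    rw [lintegral_const_mul' _ _ ENNReal.ofReal_ne_top,
      aff (fun τ => Fx R₀ (u τ) (ξ τ)) hr2]
    have e1 : s + r ^ 2 * (-1) = s - r ^ 2 := by ring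
    have e2 : s + r ^ 2 * 0 = s := by ring
    rw [e1, e2]
    refine (mul_le_mul_right (mul_le_mul_right hI _) _).trans ?_
    rw [← ENNReal.ofReal_mul (by positivity), ← ENNReal.ofReal_mul (by positivity)]
    apply ENNReal.ofReal_le_ofReal
    apply le_of_eq
    field_simp
  have hcont : ContinuousOn (fun t => √(L4 0 4 (frv r s Y u t))) (Ioo (-1) 0) := by
    apply Real.continuous_sqrt.comp_continuousOn
    unfold L4
    apply W221.NS.B.p_pcont (-1) 0 (fun t z => nsq (frv r s Y u t) z ^ 2) 0 4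
    have h1 : ContinuousOn (fun z : ℝ × V => frv r s Y u z.1 z.2) (Ioo (-1) 0 ×ˢ univ) :=
      hL.smooth_v.continuousOn
    have h2 : ∀ i, ContinuousOn (fun z : ℝ × V => frv r s Y u z.1 z.2 i) (Ioo (-1) 0 ×ˢ univ) :=
      fun i => continuousOn_pi.1 h1 i
    unfold nsq
    exact (continuousOn_finsetSum _ fun i _ => (h2 i).pow 2).pow 2
  have hint : IntegrableOn (fun t => √(L4 0 4 (frv r s Y u t))) (Ioo (-1) 0) := by
    refine ⟨hcont.aestronglyMeasurable measurableSet_Ioo, ?_⟩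
    rw [hasFiniteIntegral_iff_ofReal (Eventually.of_forall fun t => Real.sqrt_nonneg _)]
    exact hlint.trans_lt ENNReal.ofReal_lt_top
  have hle : ∫ t in Ioo (-1 : ℝ) 0, √(L4 0 4 (frv r s Y u t)) ≤ (k + 1) * η := by
    have h1 : ∫ t in Ioo (-1 : ℝ) 0, √(L4 0 4 (frv r s Y u t)) ≤ k * η := by
      rw [← ENNReal.ofReal_le_ofReal_iff (by positivity),
        ofReal_integral_eq_lintegral_ofReal hint (Eventually.of_forall fun t => Real.sqrt_nonneg _)]
      exact hlint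
    linarith
  have hE := hen _ _ hL ((k + 1) * η) (by positivity) (by linarith) hint hle
  -- the mass before the final time
  have hm := mass_cont (T := T) hN.smooth_u hα hsT (by linarith) hY.cont (r * (3 / 4))
  have hb : ∀ b ∈ Ioo (s - 9 / 16 * r ^ 2) s,
      ∫ τ in (s - 9 / 16 * r ^ 2)..b, B2 (Y τ) (r * (3 / 4)) (u τ) ≤ C * (k + 1) * η * r := by
    intro b hb
    obtain ⟨t₁, ht₁⟩ : ∃ t₁, t₁ = (b - s) / r ^ 2 := ⟨_, rfl⟩
    have hbt : s + r ^ 2 * t₁ = b := by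
      rw [ht₁]
      field_simp
      ring
    have ht₁m : t₁ ∈ Ioo (-9 / 16 : ℝ) 0 := by
      rw [ht₁]
      constructor
      · rw [lt_div_iff₀ hr2]
        linarith [hb.1]
      · exact div_neg_of_neg_of_pos (by linarith [hb.2]) hr2
    have h1 := hE t₁ ht₁m
    rw [mass_cov (T := T) hN.smooth_u hr ht₁m.1.le (by nlinarith) (by rw [hbt]; linarith [hb.2]) Y 0
      (3 / 4)] at h1
    have e1 : s + r ^ 2 * (-9 / 16) = s - 9 / 16 * r ^ 2 := by ring
    simp only [smul_zero, add_zero] at h1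
    rw [e1, hbt, inv_mul_le_iff₀ hr] at h1
    refine h1.trans (le_of_eq ?_)
    ring
  -- the limit
  have hlt : s - 9 / 16 * r ^ 2 < s := by linarith
  have hii : IntervalIntegrable (fun τ => B2 (Y τ) (r * (3 / 4)) (u τ)) volume
      (s - 9 / 16 * r ^ 2) s := by
    apply ContinuousOn.intervalIntegrable
    rw [uIcc_of_le hlt.le]
    exact hm.mono (Icc_subset_Icc_left (by linarith))
  have hprim := intervalIntegral.continuousOn_primitive_interval' hii left_mem_uIcc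
  rw [uIcc_of_le hlt.le] at hprim
  have hcs : ContinuousWithinAt (fun b => ∫ τ in (s - 9 / 16 * r ^ 2)..b,
      B2 (Y τ) (r * (3 / 4)) (u τ)) (Iio s) s := by
    apply (hprim s ⟨hlt.le, le_rfl⟩).mono_of_mem_nhdsWithin
    exact mem_of_superset (Ioo_mem_nhdsLT hlt) Ioo_subset_Icc_self
  refine le_of_tendsto hcs ?_
  filter_upwards [Ioo_mem_nhdsLT hlt] with b hb'
  exact hb b hb'

end Pool.Agent.Y7.D
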