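import Pool.Agent.W240.ME.DECT
import Pool.Agent.W505.ME.DEC
import Pool.Agent.W583.MD.EN

/-!
The evolution of the decomposition at one time; the error is bounded by the `L²` and `L⁴` norms of
the velocity (no gradient) (helper7).
-/

set_option linter.unusedVariables false

open MeasureTheory Set Metric Filter Topology
open scoped ContDiff ENNReal

namespace Pool.Agent.Y7.Dect

open H459R3.NS W221.NS Pool.Agent.W22.ME.TD Pool.Agent.W505.ME.DEC

/-- `a Δφ` as a sum of derivatives of terms without derivatives of `φ`. -/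
theorem mul_lap {a φ : V → ℝ} (ha : ContDiff ℝ ∞ a) (hφ : ContDiff ℝ ∞ φ) (y : V) :
    a y * lap φ y = lap (fun w => a w * φ w) y - 2 * (∑ l, pd l (fun w => pd l a w * φ w) y)
      + lap a y * φ y := by
  have e1 : ∀ l, pd l (pd l (fun w => a w * φ w)) y = a y * pd l (pd l φ) y
      + 2 * (pd l φ y * pd l a y) + φ y * pd l (pd l a) y := by
    intro l
    have e : pd l (fun w => a w * φ w) = fun w => a w * pd l φ w + φ w * pd l a w := by
      funext w; exact pd_mul ha hφ l w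
    have e2 : pd l (fun w => a w * pd l φ w + φ w * pd l a w) y
        = pd l (fun w => a w * pd l φ w) y + pd l (fun w => φ w * pd l a w) y :=
      Pool.Agent.W240.ME.pd_add (ha.mul (pd_smooth hφ l)) (hφ.mul (pd_smooth ha l)) l y
    rw [e, e2, pd_mul ha (pd_smooth hφ l), pd_mul hφ (pd_smooth ha l)]
    ring
  have e2 : ∀ l, pd l (fun w => pd l a w * φ w) y = pd l a y * pd l φ y + φ y * pd l (pd l a) y :=
    fun l => pd_mul (pd_smooth ha l) hφ l y
  unfold lap
  rw [Finset.sum_congr rfl fun l _ => e1 l, Finset.sum_congr rfl fun l _ => e2 l]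
  simp only [Fin.sum_univ_three]
  ring

theorem T4_lap {a : V → ℝ} (ha : T4 a) : T4 (lap a) := by
  refine ⟨lap_smooth ha.1, fun z hz => ?_⟩
  unfold lap
  exact Finset.sum_eq_zero fun l _ => (T4_pd (T4_pd ha l) l).2 z hz

/-- the operator `∂ᵢ K` applied to `a Δφ` -/
theorem lap_bd (h : S_HARM) {g : V → ℝ} {C : ℝ} (hg : IsGreen g C) {a : V → ℝ} (ha : T4 a)
    (h0 : ∀ z ∈ ball (0 : V) 2, a z = 0) : ∃ K : ℝ, 0 < K ∧ ∀ v : V → V, ContDiff ℝ ∞ v →
      ∀ k i : Fin 3, ∀ z ∈ ball (0 : V) 1,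
        |pd i (KK g (fun y => a y * lap (fun w => v w k) y)) z| ≤ K * √(A2 0 4 v) := by
  obtain ⟨K, hK, hKb⟩ := term_bd h hg
  choose M1 hM1 using fun l => T4_bdd (T4_pd ha l)
  obtain ⟨M2, hM2, hM2b⟩ := T4_bdd (T4_lap ha)
  set M : ℝ := ∑ i, M1 i with hM
  have hMn : 0 ≤ M := Finset.sum_nonneg fun i _ => (hM1 i).1
  have b1 : ∀ i z, |pd i a z| ≤ M := by
    intro i z
    have := Finset.single_le_sum (f := M1) (fun i _ => (hM1 i).1) (Finset.mem_univ i)
    linarith [(hM1 i).2 z]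
  refine ⟨6 * K * M + K * M2 + 1, by positivity, fun v hv k i z hz => ?_⟩
  obtain ⟨φ, hφd⟩ : ∃ φ : V → ℝ, φ = fun w => v w k := ⟨_, rfl⟩
  have hφ : ContDiff ℝ ∞ φ := by rw [hφd]; exact comp_smooth hv k
  rw [← hφd]
  have hp0 : ∀ l, ∀ z ∈ ball (0 : V) 2, pd l a z = 0 := by
    intro l z hz
    have e : a =ᶠ[𝓝 z] fun _ => 0 := by
      filter_upwards [isOpen_ball.mem_nhds hz] with y hy
      exact h0 y hy
    rw [pd_congr e, pd_const]
  have hl0 : ∀ z ∈ ball (0 : V) 2, lap a z = 0 := by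
    intro z hz
    unfold lap
    refine Finset.sum_eq_zero fun l _ => ?_
    have e : pd l a =ᶠ[𝓝 z] fun _ => 0 := by
      filter_upwards [isOpen_ball.mem_nhds hz] with y hy
      exact hp0 l y hy
    rw [pd_congr e, pd_const]
  have T1 : T4 (fun w => a w * φ w) := T4_mul ha hφ
  have T2 : ∀ l, T4 (fun w => pd l a w * φ w) := fun l => T4_mul (T4_pd ha l) hφ
  have T3 : T4 (fun w => lap a w * φ w) := T4_mul (T4_lap ha) hφ
  have T2' : ∀ l, T4 (pd l (fun w => pd l a w * φ w)) := fun l => T4_pd (T2 l) l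
  have T2s : T4 (fun y => ∑ l, pd l (fun w => pd l a w * φ w) y) :=
    ⟨ContDiff.sum fun l _ => (T2' l).1, fun z hz => Finset.sum_eq_zero fun l _ => (T2' l).2 z hz⟩
  have T1l : T4 (lap (fun w => a w * φ w)) := T4_lap T1
  have s2 : ∀ l, ContDiff ℝ ∞ (KK g (fun w => pd l a w * φ w)) := fun l => hg.smooth _ (T2 l)
  -- the splitting
  have e0 : (fun y => a y * lap φ y) = fun y =>
      (lap (fun w => a w * φ w) y - ((∑ l, pd l (fun w => pd l a w * φ w) y) +
        ∑ l, pd l (fun w => pd l a w * φ w) y)) + lap a y * φ y := by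
    funext y
    rw [mul_lap ha.1 hφ y]
    ring
  have e1 : KK g (fun y => a y * lap φ y) = fun x =>
      (KK g (lap (fun w => a w * φ w)) x - ((∑ l, pd l (KK g (fun w => pd l a w * φ w)) x) +
        ∑ l, pd l (KK g (fun w => pd l a w * φ w)) x)) + KK g (fun w => lap a w * φ w) x := by
    have h1 : KK g (fun y => ∑ l, pd l (fun w => pd l a w * φ w) y) =
        fun x => ∑ l, pd l (KK g (fun w => pd l a w * φ w)) x := by
      rw [KK_sum hg T2']
      funext x
      exact Finset.sum_congr rfl fun l _ => by rw [hg.pdK _ (T2 l)]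
    have hadd : ∀ {p q : V → ℝ}, T4 p → T4 q →
        KK g (fun y => p y + q y) = fun x => KK g p x + KK g q x := by
      intro p q hp hq
      have hq' : T4 (fun y => -q y) := ⟨hq.1.neg, fun z hz => by show -q z = 0; rw [hq.2 z hz, neg_zero]⟩
      have e : (fun y => p y + q y) = fun y => p y - (-q y) := by funext y; ring
      rw [e, KK_sub hg hp hq', KK_neg]
      funext x
      ring
    rw [e0, hadd (T4_sub T1l (T4_add T2s T2s)) T3, KK_sub hg T1l (T4_add T2s T2s),
      hadd T2s T2s, h1]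
  -- the main term vanishes
  have hmain : pd i (KK g (lap (fun w => a w * φ w))) z = 0 := by
    have h1 : KK g (lap (fun w => a w * φ w)) = lap (KK g (fun w => a w * φ w)) := by
      have e : lap (fun w => a w * φ w) = fun y => ∑ l, pd l (pd l (fun w => a w * φ w)) y := rfl
      rw [e, KK_sum hg fun l => T4_pd (T4_pd T1 l) l]
      funext x
      unfold lap
      refine Finset.sum_congr rfl fun l _ => ?_
      rw [hg.pdK _ T1, hg.pdK _ (T4_pd T1 l)]
    rw [h1]
    have e : lap (KK g (fun w => a w * φ w)) =ᶠ[𝓝 z] fun _ => (∫ y, a y * φ y) / 16 ^ 3 := by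
      filter_upwards [isOpen_ball.mem_nhds (ball_subset_ball (by norm_num : (1 : ℝ) ≤ 2) hz)] with y hy
      have h2 := hg.eqn _ T1 y (ball_subset_ball (by norm_num) hy)
      simp only [h0 y hy, zero_mul] at h2
      linarith
    rw [pd_congr e, pd_const]
  have sl : ContDiff ℝ ∞ (KK g (lap (fun w => a w * φ w))) := hg.smooth _ T1l
  have ss : ContDiff ℝ ∞ (fun x => ∑ l, pd l (KK g (fun w => pd l a w * φ w)) x) :=
    ContDiff.sum fun l _ => pd_smooth (s2 l) l
  have s3 : ContDiff ℝ ∞ (KK g (fun w => lap a w * φ w)) := hg.smooth _ T3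
  have e2 : pd i (KK g (fun y => a y * lap φ y)) z =
      -(2 * ∑ l, pd i (pd l (KK g (fun w => pd l a w * φ w))) z)
        + pd i (KK g (fun w => lap a w * φ w)) z := by
    rw [e1, Pool.Agent.W240.ME.pd_add (sl.sub (ss.add ss)) s3,
      Pool.Agent.W240.ME.pd_sub sl (ss.add ss), Pool.Agent.W240.ME.pd_add ss ss, hmain]
    have := congrFun (pd_sum (fun l => pd_smooth (s2 l) l) i) z
    rw [this]
    ring
  rw [e2]
  have hX0 := A2_nonneg 4 v
  have c1 : ∀ l, |pd i (pd l (KK g (fun w => pd l a w * φ w))) z| ≤ K * M * √(A2 0 4 v) := by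
    intro l
    have hc := coef (T4_pd ha l) (b1 l) hv k
    have hz0 : ∀ z ∈ ball (0 : V) 2, pd l a z * φ z = 0 := fun z hz => by rw [hp0 l z hz, zero_mul]
    have := (hKb _ (T2 l) hz0 (M ^ 2 * A2 0 4 v) (by positivity) (by rw [hφd]; exact hc) l z hz).2 i
    rw [Real.sqrt_mul (sq_nonneg M), Real.sqrt_sq hMn, ← mul_assoc] at this
    exact this
  have c2 : |pd i (KK g (fun w => lap a w * φ w)) z| ≤ K * M2 * √(A2 0 4 v) := by
    have hc := coef (T4_lap ha) hM2b hv k
    have hz0 : ∀ z ∈ ball (0 : V) 2, lap a z * φ z = 0 := fun z hz => by rw [hl0 z hz, zero_mul]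
    have := (hKb _ T3 hz0 (M2 ^ 2 * A2 0 4 v) (by positivity) (by rw [hφd]; exact hc) i z hz).1
    rw [Real.sqrt_mul (sq_nonneg M2), Real.sqrt_sq hM2, ← mul_assoc] at this
    exact this
  have c3 : |∑ l, pd i (pd l (KK g (fun w => pd l a w * φ w))) z| ≤ 3 * (K * M * √(A2 0 4 v)) := by
    refine (Finset.abs_sum_le_sum_abs _ _).trans ?_
    refine (Finset.sum_le_sum fun l _ => c1 l).trans (le_of_eq ?_)
    simp
  have hs := Real.sqrt_nonneg (A2 0 4 v)
  rw [abs_le] at c2 c3 ⊢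
  constructor <;> nlinarith [c2.1, c2.2, c3.1, c3.2]

/-- the mean value of `χ Δφ` -/
theorem mean_lap : ∃ K : ℝ, 0 < K ∧ ∀ v : V → V, ContDiff ℝ ∞ v → ∀ k : Fin 3,
    |(∫ y, chi y * lap (fun w => v w k) y) / 16 ^ 3| ≤ K * √(A2 0 4 v) := by
  obtain ⟨M2, hM2, hM2b⟩ := T4_bdd (T4_lap T4_chi)
  refine ⟨M2 + 1, by positivity, fun v hv k => ?_⟩
  obtain ⟨φ, hφd⟩ : ∃ φ : V → ℝ, φ = fun w => v w k := ⟨_, rfl⟩
  have hφ : ContDiff ℝ ∞ φ := by rw [hφd]; exact comp_smooth hv k
  rw [← hφd]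
  have T1 : T4 (fun w => chi w * φ w) := T4_mul T4_chi hφ
  have T2 : ∀ l, T4 (fun w => pd l chi w * φ w) := fun l => T4_mul (T4_pd T4_chi l) hφ
  have T3 : T4 (fun w => lap chi w * φ w) := T4_mul (T4_lap T4_chi) hφ
  have hc4 : ∀ {a : V → ℝ}, T4 a → HasCompactSupport a := fun h => hcs h.2
  have z1 : Pool.Agent.W583.MD.Z (lap (fun w => chi w * φ w)) := by
    have : lap (fun w => chi w * φ w) = fun y => ∑ l, pd l (pd l (fun w => chi w * φ w)) y := rfl
    rw [this]
    exact Pool.Agent.W583.MD.Z.sum fun l =>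
      Pool.Agent.W583.MD.Z_pd (T4_pd T1 l).1 (hc4 (T4_pd T1 l)) l
  have z2 : Pool.Agent.W583.MD.Z (fun y => ∑ l, pd l (fun w => pd l chi w * φ w) y) :=
    Pool.Agent.W583.MD.Z.sum fun l => Pool.Agent.W583.MD.Z_pd (T2 l).1 (hc4 (T2 l)) l
  have h3i : Integrable (fun w => lap chi w * φ w) := T4_int T3
  have e : ∫ y, chi y * lap φ y = ∫ y, lap chi y * φ y := by
    have h1 : (fun y => chi y * lap φ y) = fun y => (lap (fun w => chi w * φ w) y -
        2 * (∑ l, pd l (fun w => pd l chi w * φ w) y)) + lap chi y * φ y := by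
      funext y
      rw [mul_lap T4_chi.1 hφ y]
    have z3 := Pool.Agent.W583.MD.Z.sub z1 (Pool.Agent.W583.MD.Z.smul z2 2)
    rw [h1, integral_add z3.1 h3i, z3.2, zero_add]
  rw [e]
  have hX0 := A2_nonneg 4 v
  have h1 : ∫ y, lap chi y * φ y = ∫ y in ball (0 : V) 4, 1 * (lap chi y * φ y) := by
    simp_rw [one_mul]
    rw [setIntegral_eq_integral_of_forall_compl_eq_zero]
    intro y hy
    exact T3.2 y hy
  have hc : Continuous (fun y => lap chi y * φ y) := T3.1.continuous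
  have h2 := integral_mul_sq_le (μ := volume.restrict (ball (0 : V) 4)) (a := fun _ => (1 : ℝ))
    (b := fun y => lap chi y * φ y) (intOn (by fun_prop) _ _) (intOn (hc.pow 2) _ _)
    (intOn (by fun_prop) _ _)
  have h3 : ∫ _x in ball (0 : V) 4, ((1 : ℝ)) ^ 2 = 512 := by
    rw [setIntegral_const, smul_eq_mul, Measure.real, Real.volume_pi_ball 0 (by norm_num),
      ENNReal.toReal_ofReal (by positivity)]
    norm_num
  have h4 : ∫ y in ball (0 : V) 4, (lap chi y * φ y) ^ 2 ≤ M2 ^ 2 * A2 0 4 v := by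
    refine le_trans ?_ (coef (T4_lap T4_chi) hM2b hv k)
    rw [setIntegral_eq_integral_of_forall_compl_eq_zero]
    · rw [hφd]
    · intro y hy
      have h6 : lap chi y * φ y = 0 := T3.2 y hy
      rw [h6]
      norm_num
  rw [← h1, h3] at h2
  have h5 : (∫ y, lap chi y * φ y) ^ 2 ≤ 512 * (M2 ^ 2 * A2 0 4 v) :=
    h2.trans (mul_le_mul_of_nonneg_left h4 (by norm_num))
  have h6 : |(∫ y, lap chi y * φ y) / 16 ^ 3| ≤ √(M2 ^ 2 * A2 0 4 v) := by
    apply Real.abs_le_sqrt
    rw [div_pow]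
    have h7 : 0 ≤ M2 ^ 2 * A2 0 4 v := by positivity
    rw [div_le_iff₀ (by norm_num)]
    nlinarith
  rw [Real.sqrt_mul (sq_nonneg M2), Real.sqrt_sq hM2] at h6
  have := Real.sqrt_nonneg (A2 0 4 v)
  linarith

/-- `T` applied to the Laplacian of a field without divergence -/
theorem visc (h : S_HARM) {g : V → ℝ} {C : ℝ} (hg : IsGreen g C) : ∃ K : ℝ, 0 < K ∧
    ∀ v : V → V, ContDiff ℝ ∞ v → (∀ x ∈ ball (0 : V) 8, dv v x = 0) →
      ∀ z ∈ ball (0 : V) 1, ∀ i,
        |lap (fun y => v y i) z - TT g (fun y k => lap (fun w => v w k) y) z i|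
          ≤ K * √(A2 0 4 v) := by
  have hp0 : ∀ l, ∀ z ∈ ball (0 : V) 2, pd l chi z = 0 := fun l z hz => pd_chi_zero l hz
  choose K1 hK1 hK1b using fun j : Fin 3 => lap_bd h hg (T4_pd T4_chi j) (hp0 j)
  obtain ⟨K0, hK0, hK0b⟩ := mean_lap
  set K : ℝ := ∑ j, K1 j with hKd
  have hKn : 0 ≤ K := Finset.sum_nonneg fun i _ => (hK1 i).le
  have hKj : ∀ j, K1 j ≤ K := fun j =>
    Finset.single_le_sum (f := K1) (fun i _ => (hK1 i).le) (Finset.mem_univ j)
  refine ⟨K0 + 9 * K + 1, by positivity, fun v hv hd z hz i => ?_⟩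
  have hs := Real.sqrt_nonneg (A2 0 4 v)
  obtain ⟨f, hfd⟩ : ∃ f : V → V, f = fun y k => lap (fun w => v w k) y := ⟨_, rfl⟩
  have hf : ContDiff ℝ ∞ f := by
    rw [hfd]
    exact contDiff_pi.2 fun k => lap_smooth (comp_smooth hv k)
  have hfdv : ∀ x ∈ ball (0 : V) 8, dv f x = 0 := by
    intro x hx
    have e1 : dv f x = lap (fun y => dv v y) x := by
      unfold dv
      rw [Pool.Agent.W505.ME.DEC.lap_sum (fun i => pd_smooth (comp_smooth hv i) i)]
      refine Finset.sum_congr rfl fun j _ => ?_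
      rw [hfd, lap_pd (comp_smooth hv j)]
    rw [e1]
    unfold lap
    refine Finset.sum_eq_zero fun l _ => ?_
    have h1 : ∀ y ∈ ball (0 : V) 8, pd l (fun y => dv v y) y = 0 := by
      intro y hy
      have e : (fun y => dv v y) =ᶠ[𝓝 y] fun _ => 0 := by
        filter_upwards [isOpen_ball.mem_nhds hy] with w hw
        exact hd w hw
      rw [pd_congr e, pd_const]
    have e : pd l (fun y => dv v y) =ᶠ[𝓝 x] fun _ => 0 := by
      filter_upwards [isOpen_ball.mem_nhds hx] with y hy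
      exact h1 y hy
    rw [pd_congr e, pd_const]
  have hz2 : z ∈ ball (0 : V) 2 := ball_subset_ball (by norm_num) hz
  have hD := D_eq hg hf hfdv hz2 i
  have e0 : f z i = lap (fun y => v y i) z := by rw [hfd]
  rw [e0] at hD
  rw [← hfd, hD]
  have b0 : |(∫ y, uu f i y) / 16 ^ 3| ≤ K0 * √(A2 0 4 v) := by
    have := hK0b v hv i
    rw [hfd]
    exact this
  have b1 : ∀ k a l, |pd l (KK g (ww f k a)) z| ≤ K * √(A2 0 4 v) := by
    intro k a l
    have e : ww f k a = fun y => pd k chi y * lap (fun w => v w a) y := by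
      funext y
      rw [hfd]
      rfl
    rw [e]
    exact (hK1b k v hv a l z hz).trans (mul_le_mul_of_nonneg_right (hKj k) hs)
  have b2 : ∀ j, |pd j (KK g (vp f i j)) z| ≤ 2 * (K * √(A2 0 4 v)) := by
    intro j
    have e : KK g (vp f i j) = fun x => KK g (ww f i j) x - KK g (ww f j i) x := by
      rw [← KK_sub hg (T4_ww hf i j) (T4_ww hf j i)]
      rfl
    rw [e, congrFun (pd_sub (hg.smooth _ (T4_ww hf i j)) (hg.smooth _ (T4_ww hf j i)) j) z]
    have := abs_sub (pd j (KK g (ww f i j)) z) (pd j (KK g (ww f j i)) z)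
    linarith [b1 i j j, b1 j i j]
  have h2 : |∑ j, pd i (KK g (ww f j j)) z| ≤ 3 * (K * √(A2 0 4 v)) := by
    refine (Finset.abs_sum_le_sum_abs _ _).trans ?_
    refine (Finset.sum_le_sum fun j _ => b1 j j i).trans (le_of_eq ?_)
    simp
  have h3 : |∑ j, pd j (KK g (vp f i j)) z| ≤ 3 * (2 * (K * √(A2 0 4 v))) := by
    refine (Finset.abs_sum_le_sum_abs _ _).trans ?_
    refine (Finset.sum_le_sum fun j _ => b2 j).trans (le_of_eq ?_)
    simp
  have h4 := abs_add_le ((∫ y, uu f i y) / 16 ^ 3 - (∑ j, pd i (KK g (ww f j j)) z))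
    (∑ j, pd j (KK g (vp f i j)) z)
  have h5 := abs_sub ((∫ y, uu f i y) / 16 ^ 3) (∑ j, pd i (KK g (ww f j j)) z)
  nlinarith

/-- The evolution of the decomposition at one time, without the gradient. -/
theorem dect (h : S_TD) (hA : S_HARM) {g : V → ℝ} {C : ℝ} (hG : IsGreen g C) :
    ∃ C' : ℝ, 0 < C' ∧
      ∀ (v N : V → V) (q : V → ℝ), ContDiff ℝ ∞ v → ContDiff ℝ ∞ N → ContDiff ℝ ∞ q →
        (∀ x ∈ ball (0 : V) 8, dv v x = 0) →
        (∀ x ∈ ball (0 : V) 8, ∀ i, N x i + adv v (fun y => v y i) x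
          = lap (fun y => v y i) x - pd i q x) →
          ∃ P : V → ℝ, ContDiff ℝ ∞ P ∧ (∀ x ∈ ball (0 : V) 1, -lap P x = ddq v x) ∧
            ∫ x in ball (0 : V) 1, P x ^ 2 ≤ C' * L4 0 4 v ∧
            ∀ x ∈ ball (0 : V) 1, ∀ i,
              |TT g N x i + adv v (fun y => v y i) x - lap (fun y => v y i) x + pd i P x|
                ≤ C' * (√(A2 0 4 v) + √(L4 0 4 v)) := by
  obtain ⟨C1, hC1, hTD⟩ := h g C hG
  obtain ⟨K, hK, hvisc⟩ := visc hA hG
  refine ⟨K + 3 * C1 + 81 * |C| + 1, by positivity, ?_⟩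
  intro v N q hv hN hq hd heq
  obtain ⟨P, hP⟩ : ∃ P : V → ℝ, P = fun x => ∑ l, pd l (KK g (fun y =>
    ∑ j, pd j (fun w => chi w * (v w l * v w j)) y)) x := ⟨_, rfl⟩
  obtain ⟨hP1, hP2, hP3⟩ := Pool.Agent.W240.ME.press hG hv hP
  have hL : 0 ≤ L4 0 4 v := by
    unfold L4
    exact setIntegral_nonneg measurableSet_ball fun x _ => sq_nonneg _
  refine ⟨P, hP1, hP2, hP3.trans (mul_le_mul_of_nonneg_right (by linarith) hL), ?_⟩
  choose H2 hH2s hH2 hH2b using fun l : Fin 3 =>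
    hTD (fun (w : V) (j : Fin 3) => v w l * v w j) l (Pool.Agent.W240.ME.cd_k hv l)
  have hadv : ∀ x ∈ ball (0 : V) 8, ∀ i, adv v (fun y => v y i) x = ∑ l, pd l (fun w => v w l * v w i) x := by
    intro x hx i
    have e : ∀ l, pd l (fun w => v w l * v w i) x = v x l * pd l (fun w => v w i) x +
        pd l (fun w => v w l) x * v x i := fun l =>
          Pool.Agent.W240.ME.pd_mul (Pool.Agent.W240.ME.cd_comp hv l) (Pool.Agent.W240.ME.cd_comp hv i) l x
    rw [Finset.sum_congr rfl fun l _ => e l, Finset.sum_add_distrib, ← Finset.sum_mul]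
    have h1 : ∑ l, pd l (fun w => v w l) x = 0 := hd x hx
    rw [h1, zero_mul, add_zero]
    rfl
  have hNe : ∀ x ∈ ball (0 : V) 8, ∀ i, N x i =
      lap (fun y => v y i) x - (∑ l, pd l (fun w => v w l * v w i) x) - pd i q x := by
    intro x hx i
    have h1 := heq x hx i
    rw [hadv x hx i] at h1
    linarith
  -- three fields; the first one is used once
  obtain ⟨A, hAd⟩ : ∃ A : Fin 3 → V → V, A = fun (l : Fin 3) (y : V) (i : Fin 3) =>
      (if l = 0 then lap (fun w => v w i) y else 0 : ℝ) := ⟨_, rfl⟩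
  have hcA : ∀ l, ContDiff ℝ ∞ (A l) := by
    intro l
    rw [hAd]
    refine contDiff_pi.2 fun i => ?_
    by_cases hl : l = 0
    · simp only [hl, if_true]
      exact lap_smooth (comp_smooth hv i)
    · simp only [hl, if_false]
      exact contDiff_const
  have hA0 : A 0 = fun y k => lap (fun w => v w k) y := by
    rw [hAd]
    funext y i
    simp
  have hA1 : ∀ l, l ≠ 0 → A l = fun _ _ => (0 : ℝ) := by
    intro l hl
    rw [hAd]
    funext y i
    simp [hl]
  have hcB : ∀ l, ContDiff ℝ ∞ (fun (y : V) (i : Fin 3) => pd l (fun w => v w l * v w i) y) :=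
    fun l => Pool.Agent.W240.ME.cd_D (Pool.Agent.W240.ME.cd_k hv l) l
  have hcz : ∀ i j y, Pool.Agent.W240.ME.cur i j (fun (_ : V) (_ : Fin 3) => (0 : ℝ)) y = 0 := by
    intro i j y
    unfold Pool.Agent.W240.ME.cur
    rw [pd_const, pd_const, sub_zero]
  have hcur : ∀ y ∈ ball (0 : V) 4, ∀ i j, Pool.Agent.W240.ME.cur i j N y =
      ∑ l, Pool.Agent.W240.ME.cur i j (A l) y -
      ∑ l, Pool.Agent.W240.ME.cur i j (fun (y : V) (i : Fin 3) => pd l (fun w => v w l * v w i) y) y := by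
    intro y hy i j
    have hy8 : y ∈ ball (0 : V) 8 := ball_subset_ball (by norm_num) hy
    have eA : ∑ l, Pool.Agent.W240.ME.cur i j (A l) y =
        Pool.Agent.W240.ME.cur i j (fun y k => lap (fun w => v w k) y) y := by
      rw [Finset.sum_eq_single 0]
      · rw [hA0]
      · intro b _ hb
        rw [hA1 b hb]
        exact hcz i j y
      · intro h
        exact absurd (Finset.mem_univ _) h
    rw [eA]
    have e : ∀ a b : Fin 3, pd a (fun w => N w b) y =
        pd a (fun y => lap (fun w => v w b) y) y -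
        (∑ l, pd a (fun y => pd l (fun w => v w l * v w b) y) y) - pd a (pd b q) y := by
      intro a b
      have c2 : ∀ l, ContDiff ℝ ∞ (fun y => pd l (fun w => v w l * v w b) y) :=
        fun l => Pool.Agent.W240.ME.cd_comp (hcB l) b
      have c1 : ContDiff ℝ ∞ (fun y => lap (fun w => v w b) y) := lap_smooth (comp_smooth hv b)
      rw [Pool.Agent.W240.ME.pd_congr' isOpen_ball (fun w hw => hNe w hw b) a y hy8,
        Pool.Agent.W240.ME.pd_sub (c1.sub (Pool.Agent.W240.ME.cd_sum c2)) (Pool.Agent.W240.ME.cd_pd hq b),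
        Pool.Agent.W240.ME.pd_sub c1 (Pool.Agent.W240.ME.cd_sum c2),
        Pool.Agent.W240.ME.pd_sum c2]
    unfold Pool.Agent.W240.ME.cur
    rw [e i j, e j i, Pool.Agent.W240.ME.pd_comm hq i j, Finset.sum_sub_distrib]
    ring
  intro x hx i
  have hx2 : x ∈ ball (0 : V) 2 := ball_subset_ball (by norm_num) hx
  have hx8 : x ∈ ball (0 : V) 8 := ball_subset_ball (by norm_num) hx
  have hT := Pool.Agent.W240.ME.TT_lin hG hcA hcB hcur x i
  have hTA : ∑ l, TT g (A l) x i = TT g (fun y k => lap (fun w => v w k) y) x i := by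
    rw [Finset.sum_eq_single 0]
    · rw [hA0]
    · intro b _ hb
      rw [hA1 b hb, Pool.Agent.W240.ME.TT_eq]
      refine Finset.sum_eq_zero fun j _ => ?_
      have e : (fun y => chi y * Pool.Agent.W240.ME.cur i j (fun (_ : V) (_ : Fin 3) => (0 : ℝ)) y)
          = fun _ => 0 := by
        funext y
        rw [hcz, mul_zero]
      rw [e]
      have e2 : KK g (fun _ => 0) = fun _ => 0 := by
        funext y
        unfold KK
        simp
      rw [e2, pd_const]
    · intro h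
      exact absurd (Finset.mem_univ _) h
  rw [hT, hTA, Finset.sum_congr rfl fun l _ => hH2 l x hx2 i, hadv x hx8 i]
  have hpdP : pd i P x = ∑ l, pd i (pd l (KK g (fun y => ∑ j, pd j (fun w => chi w * (v w l * v w j)) y))) x := by
    rw [hP]
    apply Pool.Agent.W240.ME.pd_sum
    intro l
    exact Pool.Agent.W240.ME.cd_pd (hG.smooth _ (Pool.Agent.W240.ME.T4_sum fun j =>
      Pool.Agent.W240.ME.T4_pd (Pool.Agent.W240.ME.T4_chi
        ((Pool.Agent.W240.ME.cd_comp hv l).mul (Pool.Agent.W240.ME.cd_comp hv j))) j)) l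
  rw [hpdP]
  simp only [Finset.sum_add_distrib]
  have hb2 : ∀ l, |H2 l x i| ≤ C1 * √(L4 0 4 v) := fun l =>
    (hH2b l x hx i).trans (mul_le_mul_of_nonneg_left
      (Real.sqrt_le_sqrt (Pool.Agent.W240.ME.A2_k hv l)) hC1.le)
  have hb3 := hvisc v hv hd x hx i
  have hs2 : |∑ l, H2 l x i| ≤ 3 * (C1 * √(L4 0 4 v)) := by
    refine (Finset.abs_sum_le_sum_abs _ _).trans ((Finset.sum_le_sum fun l _ => hb2 l).trans (le_of_eq ?_))
    simp
  have hsB := Real.sqrt_nonneg (A2 0 4 v)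
  have hsL := Real.sqrt_nonneg (L4 0 4 v)
  have hCn := abs_nonneg C
  rw [abs_le] at hs2 hb3 ⊢
  have f1 : (K + 3 * C1 + 81 * |C| + 1) * (√(A2 0 4 v) + √(L4 0 4 v)) =
      K * √(A2 0 4 v) + 3 * (C1 * √(L4 0 4 v)) +
      (K * √(L4 0 4 v) + 3 * C1 * √(A2 0 4 v) + (81 * |C| + 1) * (√(A2 0 4 v) + √(L4 0 4 v))) := by
    ring
  have f2 : 0 ≤ K * √(L4 0 4 v) + 3 * C1 * √(A2 0 4 v)
      + (81 * |C| + 1) * (√(A2 0 4 v) + √(L4 0 4 v)) := by positivity
  rw [f1]
  constructor <;> linarith [hs2.1, hs2.2, hb3.1, hb3.2]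

end Pool.Agent.Y7.Dect
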