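import Pool.Agent.Y7.End8

/-!
The final statement, with the estimates along the particle paths (helper7).
-/

set_option autoImplicit false
set_option linter.unusedVariables false

open MeasureTheory Set Metric Filter Topology
open scoped ContDiff ENNReal NNReal

namespace Pool.Agent.Y7

open H459R3.NS W221.NS Pool.Agent.TH305.LW Pool.Agent.TH305.DR Pool.Agent.TH305.LG

lemma invSc_RegI {K K' : ℕ → ℝ} (hK : ∀ n, K n ≤ K' n) {ν : ℝ} (hν : 0 < ν) (v : V → V) (x : V) :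
    invSc 4 1 K' ν v x ≤ RegI K ν v x := invSc_mono hK hν v x

/-- The final statement. -/
theorem final8 : ∃ C : ℝ, 0 < C ∧ ∃ K : ℕ → ℝ, (∀ n, 0 < K n) ∧
    -- solutions in the whole space
    (∀ (ν T E : ℝ) (u : ℝ → V → V) (p : ℝ → V → ℝ), 0 < ν → 0 ≤ E → OSol ν T E univ u p →
      (∫⁻ t in Ioo 0 T, ∫⁻ x, (invSc 4 1 K ν (u t) x - ENNReal.ofReal (C / (ν * t) ^ 2))
        ≤ ENNReal.ofReal (C / ν ^ 2) *
          ∫⁻ t in Ioo 0 T, ∫⁻ x, ENNReal.ofReal (‖fderiv ℝ (u t) x‖ ^ 2)) ∧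
      (∀ (n : ℕ) (t₀ : ℝ) (B : Set V), 0 < t₀ →
        ∫⁻ t in Ioo t₀ T, ∫⁻ x in B, ENNReal.ofReal (‖iteratedFDeriv ℝ (n + 1) (u t) x‖
          ^ (4 / (n + 2) : ℝ)) ≤ ENNReal.ofReal (C / ν ^ 2 * (K n * ν) ^ (4 / (n + 2) : ℝ)) *
            ((∫⁻ t in Ioo 0 T, ∫⁻ x, ENNReal.ofReal (‖fderiv ℝ (u t) x‖ ^ 2))
              + ENNReal.ofReal (1 / t₀) * volume B)) ∧
      (∫⁻ t in Ioo 0 T, ∫⁻ x, ENNReal.ofReal (‖fderiv ℝ (u t) x‖ ^ 2) ≠ ⊤ →
        ∀ t₁ ∈ Ioo 0 T, ∃ X : ℝ → V → V, (∀ a, X t₁ a = a) ∧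
          (∀ a, Pathline u t₁ T (fun t => X t a)) ∧
          ∫⁻ a, ⨆ t ∈ Ioo t₁ T, (invSc 2 0 K ν (vort (u t)) (X t a)
              - ENNReal.ofReal (C / (ν * (t - t₁))))
            ≤ ENNReal.ofReal (C / ν) *
              ∫⁻ t in Ioo t₁ T, ∫⁻ x, ENNReal.ofReal (‖fderiv ℝ (u t) x‖ ^ 2) ∧
          ∀ (n : ℕ) (t₀ : ℝ) (B : Set V), t₁ < t₀ →
            ∫⁻ a in B, ⨆ t ∈ Ico t₀ T, ENNReal.ofReal
                (‖iteratedFDeriv ℝ n (vort (u t)) (X t a)‖ ^ (2 / (n + 2) : ℝ))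
              ≤ ENNReal.ofReal (C / ν * (K n * ν) ^ (2 / (n + 2) : ℝ)) *
                ((∫⁻ t in Ioo t₁ T, ∫⁻ x, ENNReal.ofReal (‖fderiv ℝ (u t) x‖ ^ 2))
                  + ENNReal.ofReal (1 / (t₀ - t₁)) * volume B))) ∧
    -- periodic solutions
    ∀ (ν T : ℝ) (u : ℝ → V → V) (p : ℝ → V → ℝ), 0 < ν → IsSol ν T u p →
      (∫⁻ t in Ioo 0 T, ∫⁻ x in cube, (invSc 4 1 K ν (u t) x
          - ENNReal.ofReal (C * (1 + 1 / (ν * t) ^ 2)))
        ≤ ENNReal.ofReal (C / ν ^ 3 * energy (u 0))) ∧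
      (∀ (n : ℕ) (t₀ : ℝ), 0 < t₀ →
        ∫⁻ t in Ioo t₀ T, ∫⁻ x in cube, ENNReal.ofReal (‖iteratedFDeriv ℝ (n + 1) (u t) x‖
          ^ (4 / (n + 2) : ℝ)) ≤ ENNReal.ofReal (C * (K n * ν) ^ (4 / (n + 2) : ℝ) *
            (energy (u 0) / ν ^ 3 + T + 1 / (ν ^ 2 * t₀)))) ∧
      (∀ t₁ ∈ Ioo 0 T, ∃ X : ℝ → V → V, (∀ a, X t₁ a = a) ∧
          (∀ a, Pathline u t₁ T (fun t => X t a)) ∧
          ∫⁻ a in cube, ⨆ t ∈ Ioo t₁ T, (invSc 2 0 K ν (vort (u t)) (X t a)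
              - ENNReal.ofReal (C * (1 + 1 / (ν * (t - t₁)))))
            ≤ ENNReal.ofReal (C / ν ^ 2 * energy (u 0)) ∧
          ∀ (n : ℕ) (t₀ : ℝ), t₁ < t₀ →
            ∫⁻ a in cube, ⨆ t ∈ Ico t₀ T, ENNReal.ofReal
                (‖iteratedFDeriv ℝ n (vort (u t)) (X t a)‖ ^ (2 / (n + 2) : ℝ))
              ≤ ENNReal.ofReal (C * (K n * ν) ^ (2 / (n + 2) : ℝ) *
                (energy (u 0) / ν ^ 2 + 1 + 1 / (ν * (t₀ - t₁))))) := by
  obtain ⟨C₀, K₀, hC₀, hK₀, hcore⟩ := core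
  obtain ⟨D₁, hD₁, H₁⟩ := whole1 hC₀ hcore
  obtain ⟨D₂, hD₂, H₂⟩ := peri1 hC₀ hcore
  obtain ⟨C₃, K₃, hC₃, hK₃, H₃⟩ := partW
  obtain ⟨A, hA, hHL⟩ := FxL
  have hP : PartP C₃ K₃ := H₃
  have hHL' : HLP A := hHL
  have hsc1 := sc_pos one_pos 0
  have hs0 : 0 < 1 / sc 1 0 ^ 2 := by positivity
  obtain ⟨K, hKd⟩ : ∃ K : ℕ → ℝ, K = fun n => √(3 ^ (n + 2) * K₀ n) + √(9 * 3 ^ n * K₃ n) :=
    ⟨_, rfl⟩
  have hKa : ∀ n, √(3 ^ (n + 2) * K₀ n) ≤ K n := fun n => by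
    rw [hKd]
    simp only
    linarith [Real.sqrt_nonneg (9 * 3 ^ n * K₃ n)]
  have hKb : ∀ n, √(9 * 3 ^ n * K₃ n) ≤ K n := fun n => by
    rw [hKd]
    simp only
    linarith [Real.sqrt_nonneg (3 ^ (n + 2) * K₀ n)]
  have hK : ∀ n, 0 < K n := fun n => by
    have h1 := hK₀ n
    have h2 : 0 < √(3 ^ (n + 2) * K₀ n) := by positivity
    exact h2.trans_le (hKa n)
  obtain ⟨C, hCd⟩ : ∃ C, C = 9 * D₁ + D₂ + 2 * C₃ + 9 * (C₃ * A) + C₃ * (1 / sc 1 0 ^ 2) +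
    C₃ * (A * 216) := ⟨_, rfl⟩
  have p1 : 0 < C₃ * A := by positivity
  have p2 : 0 < C₃ * (1 / sc 1 0 ^ 2) := by positivity
  have p3 : 0 < C₃ * (A * 216) := by positivity
  have hC : 0 < C := by rw [hCd]; positivity
  have hD1C : 9 * D₁ ≤ C := by rw [hCd]; linarith
  have hD2C : D₂ ≤ C := by rw [hCd]; linarith
  have hD3C : 2 * C₃ ≤ C := by rw [hCd]; linarith
  have hD4C : 9 * (C₃ * A) ≤ C := by rw [hCd]; linarith
  have hD5C : C₃ * (1 / sc 1 0 ^ 2) ≤ C := by rw [hCd]; linarith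
  have hD6C : C₃ * (A * 216) ≤ C := by rw [hCd]; linarith
  have hD7C : C₃ ≤ C := by linarith
  refine ⟨C, hC, K, hK, ?_, ?_⟩
  · intro ν T E u p hν hE hS
    have h : ∫⁻ t in Ioo 0 T, ∫⁻ x in univ, (RegI K ν (u t) x
        - ENNReal.ofReal (C * (0 + 1 / (ν * t) ^ 2))) ≤ ENNReal.ofReal (C / ν ^ 2) *
          ∫⁻ t in Ioo 0 T, ∫⁻ x, ENNReal.ofReal (‖fderiv ℝ (u t) x‖ ^ 2) := by
      refine le_trans ?_ ((wholeN hK₀ hD₁ H₁ hν hE hS).trans
        (mul_le_mul_left (ENNReal.ofReal_le_ofReal (by gcongr)) _))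
      refine setLIntegral_mono' measurableSet_Ioo fun t ht => ?_
      rw [setLIntegral_univ]
      refine lintegral_mono fun y => tsub_le_tsub (invSc_RegI hKa hν _ _)
        (ENNReal.ofReal_le_ofReal ?_)
      rw [zero_add, mul_one_div]
      have : 0 < ν * t := mul_pos hν ht.1
      gcongr
    refine ⟨?_, ?_, ?_⟩
    · simp only [zero_add, mul_one_div, setLIntegral_univ] at h
      exact h
    · intro n t₀ B ht₀
      have h5 := to_der hν hC.le le_rfl h n (hK n) ht₀ (subset_univ B)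
      refine h5.trans (le_of_eq ?_)
      have e5 : C * (0 * T + 1 / (ν ^ 2 * t₀)) = C / ν ^ 2 * (1 / t₀) := by
        field_simp
        ring
      rw [e5, ENNReal.ofReal_mul (show (0 : ℝ) ≤ C / ν ^ 2 by positivity), mul_assoc, ← mul_add,
        ENNReal.ofReal_mul (show (0 : ℝ) ≤ C / ν ^ 2 by positivity)]
      ring
    · intro hD t₁ ht₁
      obtain ⟨X, hX0, hX1, hX2⟩ := lagN_whole hK₃ hC₃ hP hA hHL' hν hE hS hD ht₁
      have hX3 : ∫⁻ a, ⨆ t ∈ Ioo t₁ T, (invSc 2 0 K ν (vort (u t)) (X t a)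
              - ENNReal.ofReal (C / (ν * (t - t₁))))
            ≤ ENNReal.ofReal (C / ν) *
              ∫⁻ t in Ioo t₁ T, ∫⁻ x, ENNReal.ofReal (‖fderiv ℝ (u t) x‖ ^ 2) := by
        refine le_trans ?_ (hX2.trans (mul_le_mul_left (ENNReal.ofReal_le_ofReal
          (by gcongr)) _))
        refine lintegral_mono fun a => iSup₂_mono fun t ht => tsub_le_tsub (invSc_mono hKb hν _ _)
          (ENNReal.ofReal_le_ofReal ?_)
        have : 0 < ν * (t - t₁) := mul_pos hν (by linarith [ht.1])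
        gcongr
      refine ⟨X, hX0, hX1, hX3, ?_⟩
      intro n t₀ B ht₀
      have h5 := lag_der (S := univ) (G := fun t => C / (ν * (t - t₁))) hν
        (fun s t h1 h2 => by
          have e1 : 0 < ν * (s - t₁) := mul_pos hν (by linarith)
          have e2 : ν * (s - t₁) ≤ ν * (t - t₁) := by gcongr
          gcongr) (le_of_eq_of_le (setLIntegral_univ _) hX3) n (hK n) ht₀ (subset_univ B)
      refine h5.trans (le_of_eq ?_)
      have e0 : 0 < t₀ - t₁ := by linarith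
      have e5 : C / (ν * (t₀ - t₁)) = C / ν * (1 / (t₀ - t₁)) := by
        field_simp
      rw [e5, ENNReal.ofReal_mul (show (0 : ℝ) ≤ C / ν by positivity), mul_assoc, ← mul_add,
        ENNReal.ofReal_mul (show (0 : ℝ) ≤ C / ν by positivity)]
      ring
  · intro ν T u p hν hS
    have hE0 := Pool.Agent.W125.MD.energy_nonneg (u 0)
    have h : ∫⁻ t in Ioo 0 T, ∫⁻ x in cube, (RegI K ν (u t) x
          - ENNReal.ofReal (C * (1 + 1 / (ν * t) ^ 2)))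
        ≤ ENNReal.ofReal (C / ν ^ 3 * energy (u 0)) := by
      refine le_trans ?_ ((periN hK₀ hD₂ H₂ hν hS).trans (ENNReal.ofReal_le_ofReal (by gcongr)))
      refine lintegral_mono fun t => lintegral_mono fun y =>
        tsub_le_tsub (invSc_RegI hKa hν _ _) (ENNReal.ofReal_le_ofReal ?_)
      gcongr
    refine ⟨h, ?_, ?_⟩
    · intro n t₀ ht₀
      rcases le_or_gt T t₀ with hT | hT
      · rw [Ioo_eq_empty (not_lt.2 hT)]
        simp
      have hT0 : 0 < T := ht₀.trans hT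
      have h5 := to_der hν hC.le zero_le_one h n (hK n) ht₀ (subset_rfl)
      refine h5.trans ?_
      have hKν : 0 ≤ (K n * ν) ^ (4 / (n + 2) : ℝ) :=
        Real.rpow_nonneg (mul_nonneg (hK n).le hν.le) _
      rw [cube_vol, mul_one, ← ENNReal.ofReal_add (by positivity) (by positivity),
        ← ENNReal.ofReal_mul hKν]
      apply ENNReal.ofReal_le_ofReal
      apply le_of_eq
      ring
    · intro t₁ ht₁
      obtain ⟨X, hX0, hX1, hX2⟩ := lagN_peri hK₃ hC₃ hP hA hHL' hν hS ht₁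
      have hX3 : ∫⁻ a in cube, ⨆ t ∈ Ioo t₁ T, (invSc 2 0 K ν (vort (u t)) (X t a)
              - ENNReal.ofReal (C * (1 + 1 / (ν * (t - t₁)))))
            ≤ ENNReal.ofReal (C / ν ^ 2 * energy (u 0)) := by
        refine le_trans ?_ (hX2.trans (ENNReal.ofReal_le_ofReal (by gcongr)))
        refine lintegral_mono fun a => iSup₂_mono fun t ht => tsub_le_tsub (invSc_mono hKb hν _ _)
          (ENNReal.ofReal_le_ofReal ?_)
        have e1 : 0 < ν * (t - t₁) := mul_pos hν (by linarith [ht.1])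
        have e2 : 0 < 1 / (ν * (t - t₁)) := by positivity
        rw [mul_add, mul_add, mul_one]
        gcongr
      refine ⟨X, hX0, hX1, hX3, ?_⟩
      intro n t₀ ht₀
      have h5 := lag_der (S := cube) (G := fun t => C * (1 + 1 / (ν * (t - t₁)))) hν
        (fun s t h1 h2 => by
          have e1 : 0 < ν * (s - t₁) := mul_pos hν (by linarith)
          have e2 : ν * (s - t₁) ≤ ν * (t - t₁) := by gcongr
          gcongr) hX3 n (hK n) ht₀ subset_rfl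
      refine h5.trans ?_
      have e0 : 0 < t₀ - t₁ := by linarith
      have hKν : 0 ≤ (K n * ν) ^ (2 / (n + 2) : ℝ) :=
        Real.rpow_nonneg (mul_nonneg (hK n).le hν.le) _
      rw [cube_vol, mul_one, ← ENNReal.ofReal_add (by positivity) (by positivity),
        ← ENNReal.ofReal_mul hKν]
      apply ENNReal.ofReal_le_ofReal
      apply le_of_eq
      ring

end Pool.Agent.Y7
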