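import Pool.Agent.H459R3.NS.Defs

/-!
The maximal theorem of Hardy and Littlewood for discrete radii, strong type (helper7).
-/

set_option autoImplicit false

open MeasureTheory Set Metric
open scoped ENNReal

namespace Pool.Agent.Y7.Hl

open H459R3.NS (V)

/-- The radii. -/
noncomputable def Rr (R₀ : ℝ) (m : ℕ) : ℝ := R₀ / 2 ^ m

/-- The discrete maximal function. -/
noncomputable def Mx (R₀ : ℝ) (g : V → ℝ≥0∞) (x : V) : ℝ≥0∞ :=
  ⨆ m : ℕ, (∫⁻ y in ball x (Rr R₀ m), g y) / ENNReal.ofReal (Rr R₀ m ^ 3)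

variable {R₀ : ℝ}

lemma Rr_pos (h : 0 < R₀) (m : ℕ) : 0 < Rr R₀ m := by
  unfold Rr
  positivity

lemma Rr_le (h : 0 < R₀) (m : ℕ) : Rr R₀ m ≤ R₀ := by
  unfold Rr
  exact div_le_self h.le (one_le_pow₀ (by norm_num))

lemma vol_ball (x : V) {r : ℝ} (hr : 0 < r) : volume (ball x r) = 8 * ENNReal.ofReal (r ^ 3) := by
  rw [Real.volume_pi_ball _ hr, Fintype.card_fin, mul_pow, ENNReal.ofReal_mul (by norm_num)]
  norm_num

lemma vol_cball (x : V) {r : ℝ} (hr : 0 ≤ r) :
    volume (closedBall x r) = 8 * ENNReal.ofReal (r ^ 3) := by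
  rw [Real.volume_pi_closedBall _ hr, Fintype.card_fin, mul_pow, ENNReal.ofReal_mul (by norm_num)]
  norm_num

lemma meas_avg {g : V → ℝ≥0∞} (hg : Measurable g) (r : ℝ) :
    Measurable fun x : V => ∫⁻ y in ball x r, g y := by
  have e : (fun x : V => ∫⁻ y in ball x r, g y)
      = fun x : V => ∫⁻ y, ({p : V × V | dist p.2 p.1 < r}.indicator (fun p => g p.2)) (x, y) := by
    funext x
    rw [← lintegral_indicator measurableSet_ball]
    rfl
  rw [e]
  apply Measurable.lintegral_prod_right' (f := {p : V × V | dist p.2 p.1 < r}.indicator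
    (fun p => g p.2))
  exact (hg.comp measurable_snd).indicator
    (measurableSet_lt (measurable_snd.dist measurable_fst) measurable_const)

lemma meas_Mx {g : V → ℝ≥0∞} (hg : Measurable g) : Measurable (Mx R₀ g) := by
  unfold Mx
  exact Measurable.iSup fun m => (meas_avg hg _).div_const _

/-- The weak type inequality. -/
theorem weak (h : 0 < R₀) {g : V → ℝ≥0∞} {l : ℝ≥0∞} (hl : l ≠ 0) :
    l * volume {x | l < Mx R₀ g x} ≤ 1000 * ∫⁻ y, g y := by
  classical
  obtain ⟨S, hS⟩ : ∃ S : Set V, S = {x | l < Mx R₀ g x} := ⟨_, rfl⟩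
  have hch : ∀ x : V, ∃ m : ℕ, x ∈ S →
      l * ENNReal.ofReal (Rr R₀ m ^ 3) < ∫⁻ y in ball x (Rr R₀ m), g y := by
    intro x
    by_cases hx : x ∈ S
    · rw [hS] at hx
      obtain ⟨m, hm⟩ := lt_iSup_iff.1 (show l < Mx R₀ g x from hx)
      refine ⟨m, fun _ => ?_⟩
      have hR := Rr_pos h m
      exact (ENNReal.lt_div_iff_mul_lt (Or.inl (by
        rw [Ne, ENNReal.ofReal_eq_zero, not_le]
        positivity)) (Or.inl ENNReal.ofReal_ne_top)).1 hm
    · exact ⟨0, fun h => absurd h hx⟩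
  choose m hm using hch
  rw [← hS]
  obtain ⟨u, huS, hud, huc⟩ := Vitali.exists_disjoint_subfamily_covering_enlargement_closedBall
    S (fun x : V => x) (fun x => Rr R₀ (m x)) R₀ (fun x _ => Rr_le h _) 5 (by norm_num)
  have hRp : ∀ x, 0 < Rr R₀ (m x) := fun x => Rr_pos h _
  have hcount : u.Countable := hud.countable_of_nonempty_interior fun x _ => by
    rw [interior_closedBall _ (hRp x).ne']
    exact ⟨x, mem_ball_self (hRp x)⟩
  have hcov : S ⊆ ⋃ b ∈ u, closedBall b (5 * Rr R₀ (m b)) := by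
    intro x hx
    obtain ⟨b, hb, hsub⟩ := huc x hx
    exact mem_biUnion hb (hsub (mem_closedBall_self (hRp x).le))
  have h1 : volume S ≤ ∑' b : u, volume (closedBall (b : V) (5 * Rr R₀ (m b))) :=
    (measure_mono hcov).trans (measure_biUnion_le volume hcount _)
  have h2 : ∀ b : u, l * volume (closedBall (b : V) (5 * Rr R₀ (m b)))
      ≤ 1000 * ∫⁻ y in closedBall (b : V) (Rr R₀ (m b)), g y := by
    intro b
    have hb := hm b (huS b.2)
    rw [vol_cball _ (by have := hRp b; positivity), mul_pow, ENNReal.ofReal_mul (by norm_num)]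
    have e5 : ENNReal.ofReal ((5 : ℝ) ^ 3) = 125 := by norm_num
    rw [e5]
    calc l * (8 * (125 * ENNReal.ofReal (Rr R₀ (m b) ^ 3)))
        = 1000 * (l * ENNReal.ofReal (Rr R₀ (m b) ^ 3)) := by
          rw [show (1000 : ℝ≥0∞) = 8 * 125 by norm_num]
          ring
      _ ≤ 1000 * ∫⁻ y in ball (b : V) (Rr R₀ (m b)), g y := by gcongr
      _ ≤ _ := by
          gcongr
          exact ball_subset_closedBall
  calc l * volume S ≤ l * ∑' b : u, volume (closedBall (b : V) (5 * Rr R₀ (m b))) := by gcongr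
    _ = ∑' b : u, l * volume (closedBall (b : V) (5 * Rr R₀ (m b))) := ENNReal.tsum_mul_left.symm
    _ ≤ ∑' b : u, 1000 * ∫⁻ y in closedBall (b : V) (Rr R₀ (m b)), g y :=
        ENNReal.tsum_le_tsum h2
    _ = 1000 * ∑' b : u, ∫⁻ y in closedBall (b : V) (Rr R₀ (m b)), g y := ENNReal.tsum_mul_left
    _ = 1000 * ∫⁻ y in ⋃ b ∈ u, closedBall b (Rr R₀ (m b)), g y := by
        rw [lintegral_biUnion hcount (fun b _ => measurableSet_closedBall) hud]
    _ ≤ 1000 * ∫⁻ y, g y := by
        gcongr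
        exact Measure.restrict_le_self

/-- The maximal function of a bounded function. -/
lemma Mx_le (h : 0 < R₀) {g : V → ℝ≥0∞} {B : ℝ≥0∞} (hB : ∀ x, g x ≤ B) (x : V) :
    Mx R₀ g x ≤ 8 * B := by
  refine iSup_le fun m => ?_
  have hR := Rr_pos h m
  refine ENNReal.div_le_of_le_mul ?_
  calc ∫⁻ y in ball x (Rr R₀ m), g y ≤ ∫⁻ _ in ball x (Rr R₀ m), B :=
        lintegral_mono fun y => hB y
    _ = 8 * B * ENNReal.ofReal (Rr R₀ m ^ 3) := by
        rw [setLIntegral_const, vol_ball x hR]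
        ring

/-- Sub-additivity. -/
lemma Mx_add (h : 0 < R₀) {g g1 : V → ℝ≥0∞} {B : ℝ≥0∞} (hg : ∀ x, g x ≤ g1 x + B) (x : V) :
    Mx R₀ g x ≤ Mx R₀ g1 x + 8 * B := by
  refine iSup_le fun m => ?_
  have hR := Rr_pos h m
  have h1 : (∫⁻ y in ball x (Rr R₀ m), g y)
      ≤ (∫⁻ y in ball x (Rr R₀ m), g1 y) + 8 * B * ENNReal.ofReal (Rr R₀ m ^ 3) := by
    refine (lintegral_mono fun y => hg y).trans ?_
    rw [lintegral_add_right _ measurable_const, setLIntegral_const, vol_ball x hR]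
    refine add_le_add le_rfl (le_of_eq (by ring))
  have h0 : ENNReal.ofReal (Rr R₀ m ^ 3) ≠ 0 := by
    rw [Ne, ENNReal.ofReal_eq_zero, not_le]
    positivity
  refine (ENNReal.div_le_div_right h1 _).trans ?_
  rw [ENNReal.add_div, ENNReal.mul_div_cancel_right h0 ENNReal.ofReal_ne_top]
  exact add_le_add (le_iSup (fun m : ℕ => (∫⁻ y in ball x (Rr R₀ m), g1 y)
    / ENNReal.ofReal (Rr R₀ m ^ 3)) m) le_rfl

/-- The strong type inequality. -/
theorem strong {p : ℝ} (hp : 1 < p) (h : 0 < R₀) {g : V → ℝ≥0∞} (hg : Measurable g) {B : ℝ≥0∞}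
    (hBt : B ≠ ⊤) (hB : ∀ x, g x ≤ B) :
    ∫⁻ x, Mx R₀ g x ^ p ≤ ENNReal.ofReal p * (2000 * (ENNReal.ofReal (16 ^ (p - 1)) *
      ((ENNReal.ofReal (p - 1))⁻¹ * ∫⁻ x, g x ^ p))) := by
  have hp0 : 0 < p := by linarith
  have hp1 : 0 < p - 1 := by linarith
  have hMt : ∀ x, Mx R₀ g x ≠ ⊤ := fun x =>
    ((Mx_le h hB x).trans_lt (ENNReal.mul_lt_top (by norm_num) hBt.lt_top)).ne
  have hgt : ∀ x, g x ≠ ⊤ := fun x => ((hB x).trans_lt hBt.lt_top).ne
  obtain ⟨f, hf⟩ : ∃ f : V → ℝ, f = fun x => (Mx R₀ g x).toReal := ⟨_, rfl⟩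
  obtain ⟨G, hG⟩ : ∃ G : V → ℝ, G = fun x => 16 * (g x).toReal := ⟨_, rfl⟩
  have hfm : Measurable f := by rw [hf]; exact (meas_Mx hg).ennreal_toReal
  have hGm : Measurable G := by rw [hG]; exact hg.ennreal_toReal.const_mul 16
  have e1 : ∫⁻ x, Mx R₀ g x ^ p = ∫⁻ x, ENNReal.ofReal (f x ^ p) := by
    refine lintegral_congr fun x => ?_
    rw [← ENNReal.ofReal_rpow_of_nonneg (by rw [hf]; exact ENNReal.toReal_nonneg) hp0.le, hf,
      ENNReal.ofReal_toReal (hMt x)]
  rw [e1, lintegral_rpow_eq_lintegral_meas_lt_mul volume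
    (Filter.Eventually.of_forall fun x => by rw [hf]; exact ENNReal.toReal_nonneg)
    hfm.aemeasurable hp0]
  refine mul_le_mul_right ?_ _
  obtain ⟨ν, hν⟩ : ∃ ν : Measure V, ν = volume.withDensity g := ⟨_, rfl⟩
  -- the level sets
  have key : ∀ t ∈ Ioi (0 : ℝ), volume {a : V | t < f a} * ENNReal.ofReal (t ^ (p - 1))
      ≤ 2000 * (ν {a : V | t < G a} * ENNReal.ofReal (t ^ (p - 1 - 1))) := by
    intro t ht
    have ht0 : (0 : ℝ) < t := ht
    obtain ⟨A, hA⟩ : ∃ A : Set V, A = {a : V | t < G a} := ⟨_, rfl⟩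
    have hAm : MeasurableSet A := by rw [hA]; exact measurableSet_lt measurable_const hGm
    have hsub : {a : V | t < f a} ⊆ {x | ENNReal.ofReal (t / 2) < Mx R₀ (A.indicator g) x} := by
      intro x hx
      have hx' : t < f x := hx
      have h1 : ∀ y, g y ≤ A.indicator g y + ENNReal.ofReal (t / 16) := by
        intro y
        by_cases hy : y ∈ A
        · rw [indicator_of_mem hy]
          exact le_self_add
        · rw [indicator_of_notMem hy, zero_add]
          rw [hA, hG] at hy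
          have hy' : ¬ t < 16 * (g y).toReal := hy
          rw [← ENNReal.ofReal_toReal (hgt y)]
          apply ENNReal.ofReal_le_ofReal
          linarith
      have h2 := Mx_add h h1 x
      have h3 : ENNReal.ofReal t < Mx R₀ g x := by
        rw [hf] at hx'
        exact (ENNReal.ofReal_lt_iff_lt_toReal ht0.le (hMt x)).2 hx'
      have h4 : (8 : ℝ≥0∞) * ENNReal.ofReal (t / 16) = ENNReal.ofReal (t / 2) := by
        have : (8 : ℝ≥0∞) = ENNReal.ofReal 8 := by simp
        rw [this, ← ENNReal.ofReal_mul (by norm_num)]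
        congr 1
        ring
      rw [h4] at h2
      show ENNReal.ofReal (t / 2) < Mx R₀ (A.indicator g) x
      by_contra h5
      push Not at h5
      have h6 : Mx R₀ g x ≤ ENNReal.ofReal t := by
        refine h2.trans ((add_le_add h5 le_rfl).trans (le_of_eq ?_))
        rw [← ENNReal.ofReal_add (by positivity) (by positivity)]
        congr 1
        ring
      exact absurd h3 (not_lt.2 h6)
    have hw := weak h (g := A.indicator g) (l := ENNReal.ofReal (t / 2))
      (by rw [Ne, ENNReal.ofReal_eq_zero, not_le]; positivity)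
    rw [lintegral_indicator hAm] at hw
    have hν' : ν A = ∫⁻ y in A, g y := by rw [hν, withDensity_apply _ hAm]
    rw [← hν'] at hw
    have h7 : ENNReal.ofReal (t / 2) * volume {a : V | t < f a} ≤ 1000 * ν A :=
      (mul_le_mul_right (measure_mono hsub) _).trans hw
    have h8 : ENNReal.ofReal (t ^ (p - 1))
        = 2 * (ENNReal.ofReal (t / 2) * ENNReal.ofReal (t ^ (p - 1 - 1))) := by
      have : (2 : ℝ≥0∞) = ENNReal.ofReal 2 := by simp
      rw [this, ← ENNReal.ofReal_mul (by positivity), ← ENNReal.ofReal_mul (by norm_num)]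
      congr 1
      rw [Real.rpow_sub_one ht0.ne' (p - 1)]
      field_simp
    rw [h8, ← hA]
    calc volume {a : V | t < f a} * (2 * (ENNReal.ofReal (t / 2) * ENNReal.ofReal (t ^ (p - 1 - 1))))
        = 2 * ENNReal.ofReal (t ^ (p - 1 - 1)) *
            (ENNReal.ofReal (t / 2) * volume {a : V | t < f a}) := by ring
      _ ≤ 2 * ENNReal.ofReal (t ^ (p - 1 - 1)) * (1000 * ν A) := by gcongr
      _ = 2000 * (ν A * ENNReal.ofReal (t ^ (p - 1 - 1))) := by
          rw [show (2000 : ℝ≥0∞) = 2 * 1000 by norm_num]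
          ring
  refine (setLIntegral_mono' measurableSet_Ioi key).trans ?_
  rw [lintegral_const_mul' _ _ (by norm_num)]
  refine mul_le_mul_right ?_ _
  have e2 := lintegral_rpow_eq_lintegral_meas_lt_mul ν (f := G)
    (Filter.Eventually.of_forall fun x => by
      rw [hG]
      exact mul_nonneg (by norm_num) ENNReal.toReal_nonneg)
    hGm.aemeasurable hp1
  have e3 : ∫⁻ x, ENNReal.ofReal (G x ^ (p - 1)) ∂ν
      = ENNReal.ofReal (16 ^ (p - 1)) * ∫⁻ x, g x ^ p := by
    rw [hν, lintegral_withDensity_eq_lintegral_mul _ hg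
      ((hGm.pow_const (p - 1)).ennreal_ofReal), ← lintegral_const_mul' _ _ ENNReal.ofReal_ne_top]
    refine lintegral_congr fun x => ?_
    simp only [Pi.mul_apply]
    rw [hG]
    simp only
    rw [Real.mul_rpow (by norm_num) ENNReal.toReal_nonneg, ENNReal.ofReal_mul (by positivity),
      ← ENNReal.ofReal_rpow_of_nonneg ENNReal.toReal_nonneg hp1.le, ENNReal.ofReal_toReal (hgt x)]
    have e4 : g x ^ p = g x * g x ^ (p - 1) := by
      have : p = 1 + (p - 1) := by ring
      conv_lhs => rw [this]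
      rw [ENNReal.rpow_add_of_nonneg _ _ (by norm_num) hp1.le, ENNReal.rpow_one]
    rw [e4]
    ring
  rw [e3] at e2
  have h9 : ENNReal.ofReal (p - 1) ≠ 0 := by
    rw [Ne, ENNReal.ofReal_eq_zero, not_le]
    exact hp1
  rw [mul_left_comm, e2, ← mul_assoc, ENNReal.inv_mul_cancel h9 ENNReal.ofReal_ne_top, one_mul]

end Pool.Agent.Y7.Hl
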