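import Pool.Agent.Y7.Sl
import Pool.Agent.Y7.Dect
import Pool.Agent.W327.ME.HYP

/-!
From a solution to the hypothesis of the energy step (helper7).
-/

open MeasureTheory Set Metric
open scoped ContDiff ENNReal Topology

namespace Pool.Agent.Y7

open H459R3.NS W221.NS Pool.Agent.W327.ME

theorem L4_nonneg (a : V) (ρ : ℝ) (w : V → V) : 0 ≤ L4 a ρ w :=
  integral_nonneg fun z => by positivity

/-- From a solution to the hypothesis of the energy step. -/
theorem hyp (h1 : S_TSM) (h2 : S_DEC) (h3 : S_TD) (h4 : S_HARM) {g : V → ℝ} {C : ℝ}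
    (hg : IsGreen g C) : ∃ C' : ℝ, 0 < C' ∧
      ∀ (v : ℝ → V → V) (q : ℝ → V → ℝ), Loc2 v q → ∀ ε : ℝ,
        IntegrableOn (fun t => √(L4 0 4 (v t))) (Ioo (-1) 0) →
        C' * ∫ t in Ioo (-1) 0, √(L4 0 4 (v t)) ≤ ε →
          HypL v (fun t => TT g (v t)) (fun t => C' * √(L4 0 4 (v t))) ε := by
  obtain ⟨CD, hCD, hdec⟩ := h2 g C hg
  obtain ⟨CT, hCT, hdect⟩ := Dect.dect h3 h4 hg
  set C' : ℝ := 2 + 257 * CD ^ 2 + 257 * CT ^ 2 + CT with hC'
  have e1 : 0 < 257 * CD ^ 2 := by positivity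
  have e3 : 0 < 257 * CT ^ 2 := by positivity
  have hC'pos : 0 < C' := by rw [hC']; linarith
  refine ⟨C', hC'pos, ?_⟩
  intro v q hL ε hint hle
  obtain ⟨hWs, hWt⟩ := h1 g C hg v hL.smooth_v
  refine ⟨hL.smooth_v, hWs, ?_, hint.const_mul C', ?_⟩
  · intro t ht
    have hv : ContDiff ℝ ∞ (v t) := slice hL.smooth_v ht
    have hq : ContDiff ℝ ∞ (q t) := slice1 hL.smooth_q ht
    have hN : ContDiff ℝ ∞ (fun x i => deriv (fun s => v s x i) t) := dt_smooth hL.smooth_v ht
    set B := √(L4 0 4 (v t)) with hB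
    have hB0 : 0 ≤ B := Real.sqrt_nonneg _
    have hs0 : 0 ≤ √B := Real.sqrt_nonneg B
    have hL40 : 0 ≤ L4 0 4 (v t) := L4_nonneg _ _ _
    have hBB : L4 0 4 (v t) = B ^ 2 := (Real.sq_sqrt hL40).symm
    have hA2 : A2 0 4 (v t) ≤ 257 * B := A2_le hv
    have hA20 : 0 ≤ A2 0 4 (v t) := integral_nonneg fun z => nsq_nonneg _ z
    obtain ⟨hW1, hW2, hW3, hW4⟩ := hdec (v t) hv (hL.divfree t ht)
    obtain ⟨P, hP1, hP2, hP3, hP4⟩ := hdect (v t) (fun x i => deriv (fun s => v s x i) t) (q t)
      hv hN hq (hL.divfree t ht) (hL.momentum t ht)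
    have hb18 : ball (0 : V) 1 ⊆ ball 0 8 := ball_subset_ball (by norm_num)
    have hb12 : ball (0 : V) 1 ⊆ ball 0 2 := ball_subset_ball (by norm_num)
    have hgen : ∀ D : ℝ, 0 < D → 257 * D ^ 2 ≤ C' → D * √(A2 0 4 (v t)) ≤ √(C' * B) := by
      intro D hD hle
      have : D * √(A2 0 4 (v t)) = √(D ^ 2 * A2 0 4 (v t)) := by
        rw [Real.sqrt_mul (by positivity), Real.sqrt_sq hD.le]
      rw [this]
      apply Real.sqrt_le_sqrt
      calc D ^ 2 * A2 0 4 (v t) ≤ D ^ 2 * (257 * B) :=
            mul_le_mul_of_nonneg_left hA2 (by positivity)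
        _ = (257 * D ^ 2) * B := by ring
        _ ≤ C' * B := mul_le_mul_of_nonneg_right hle hB0
    have hsq := hgen CD hCD (by rw [hC']; linarith)
    have hsq2 := hgen CT hCT (by rw [hC']; linarith)
    refine ⟨P, ?_⟩
    refine
      { sv := hv
        sW := hW1
        sN := (dt_smooth hWs ht).continuous
        sP := hP1
        divv := fun x hx => hL.divfree t ht x (hb18 hx)
        divW := fun x _ => hW2 x
        pos := by positivity
        l4 := ?_
        dD := fun z hz i => ((hW4 z hz i).1).trans hsq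
        gD := fun z hz i j => ((hW4 z hz i).2 j).trans hsq
        lapD := fun z hz i => hW3 z (hb12 hz) i
        eqP := hP2
        nP := ?_
        evo := ?_ }
    · calc B = 1 * B := by rw [one_mul]
        _ ≤ C' * B := mul_le_mul_of_nonneg_right (by rw [hC']; linarith) hB0
    · refine hP3.trans ?_
      rw [hBB, mul_pow]
      apply mul_le_mul_of_nonneg_right _ (by positivity)
      have h5 : 1 ≤ C' := by rw [hC']; linarith
      have h6 : CT ≤ C' := by rw [hC']; linarith
      nlinarith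
    · intro x hx i
      have h5 := hP4 x hx i
      have h6 : deriv (fun s => TT g (v s) x i) t =
          TT g (fun y i => deriv (fun s => v s y i) t) x i := hWt t ht x i
      show |deriv (fun s => TT g (v s) x i) t + adv (v t) (fun y => v t y i) x -
        lap (fun y => v t y i) x + pd i P x| ≤ √(C' * B) + C' * B
      rw [h6]
      refine h5.trans ?_
      have h9 : CT * B ≤ C' * B := by
        apply mul_le_mul_of_nonneg_right _ hB0
        rw [hC']
        linarith
      calc CT * (√(A2 0 4 (v t)) + √(L4 0 4 (v t))) = CT * √(A2 0 4 (v t)) + CT * B := by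
            rw [mul_add]
        _ ≤ √(C' * B) + C' * B := add_le_add hsq2 h9
  · rw [integral_const_mul]
    exact hle

end Pool.Agent.Y7
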