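import Pool.Agent.Y7.P12
import Pool.Agent.W61.MD.FRAME
import Pool.Agent.TH305.LG.Flow
import Pool.Agent.TH305.DR.Meas

/-!
Smooth solutions which are bounded on compact time intervals: the equations in the moving frame,
the paths of the mollified velocity, measurability (helper7).
-/

set_option autoImplicit false
set_option linter.unusedVariables false

open MeasureTheory Set Metric Filter Topology
open scoped ContDiff ENNReal NNReal

namespace Pool.Agent.Y7

open H459R3.NS W221.NS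

/-- A smooth solution on `(0, T) × ℝ³`, viscosity one, which is bounded with its gradient on
compact time intervals. -/
structure NSol (T : ℝ) (u : ℝ → V → V) (p : ℝ → V → ℝ) : Prop where
  smooth_u : ContDiffOn ℝ ∞ (fun z : ℝ × V => u z.1 z.2) (Ioo 0 T ×ˢ univ)
  smooth_p : ContDiffOn ℝ ∞ (fun z : ℝ × V => p z.1 z.2) (Ioo 0 T ×ˢ univ)
  divfree : ∀ t ∈ Ioo 0 T, ∀ x, dv (u t) x = 0
  momentum : ∀ t ∈ Ioo 0 T, ∀ x, ∀ i,
    deriv (fun s => u s x i) t + adv (u t) (fun y => u t y i) x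
      = lap (fun y => u t y i) x - pd i (p t) x
  bdd : ∀ a b : ℝ, 0 < a → b < T → ∃ M : ℝ, 0 ≤ M ∧ ∀ t ∈ Icc a b, ∀ x, ‖u t x‖ ≤ M ∧
    ∀ i j, |pd j (fun y => u t y i) x| ≤ M

section frame

open Pool.Agent.W61.MD.FRAME

theorem frame {T : ℝ} {u : ℝ → V → V} {p : ℝ → V → ℝ} (hu : NSol T u p) {r s : ℝ} (hr : 0 < r)
    (hs : r ^ 2 < s) (hsT : s < T) {X : ℝ → V} (hX : ContDiffOn ℝ ∞ X (Ioo (s - r ^ 2) s))
    (hX' : ∀ t ∈ Ioo (s - r ^ 2) s, HasDerivAt X (mol r u t (X t)) t) :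
    Loc2 (frv r s X u) (frq r s X p) := by
  -- the time interval
  have hτ : ∀ t ∈ Ioo (-1 : ℝ) 0, s + r ^ 2 * t ∈ Ioo (s - r ^ 2) s := by
    intro t ht
    have hr2 : 0 < r ^ 2 := by positivity
    constructor
    · nlinarith [ht.1]
    · nlinarith [ht.2]
  have hsub : ∀ τ ∈ Ioo (s - r ^ 2) s, τ ∈ Ioo 0 T := by
    intro τ h
    exact ⟨by linarith [h.1], by linarith [h.2]⟩
  -- smooth components
  have hU : ∀ i, ContDiffOn ℝ ∞ (fun z : ℝ × V => u z.1 z.2 i) (Ioo 0 T ×ˢ univ) := by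
    intro i
    exact (contDiffOn_pi.1 hu.smooth_u) i
  have hP : ContDiffOn ℝ ∞ (fun z : ℝ × V => p z.1 z.2) (Ioo 0 T ×ˢ univ) :=
    hu.smooth_p
  have hopen : IsOpen (Ioo 0 T ×ˢ (univ : Set V)) := isOpen_Ioo.prod isOpen_univ
  have hXi : ∀ i, ContDiffOn ℝ ∞ (fun τ => X τ i) (Ioo (s - r ^ 2) s) := fun i =>
    (contDiffOn_pi.1 hX) i
  have hX1 : ∀ i, ContDiffOn ℝ ∞ (deriv (fun τ => X τ i)) (Ioo (s - r ^ 2) s) := fun i =>
    (hXi i).deriv_of_isOpen isOpen_Ioo (by simp)
  have hX2 : ∀ i, ContDiffOn ℝ ∞ (deriv (deriv (fun τ => X τ i))) (Ioo (s - r ^ 2) s) := fun i =>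
    (hX1 i).deriv_of_isOpen isOpen_Ioo (by simp)
  -- the change of variables
  have hA : ContDiff ℝ ∞ (fun z : ℝ × V => s + r ^ 2 * z.1) := by fun_prop
  have hAm : MapsTo (fun z : ℝ × V => s + r ^ 2 * z.1) (Ioo (-1) 0 ×ˢ univ)
      (Ioo (s - r ^ 2) s) := fun z hz => hτ z.1 hz.1
  have hΨ : ContDiffOn ℝ ∞ (fun z : ℝ × V => (s + r ^ 2 * z.1, X (s + r ^ 2 * z.1) + r • z.2))
      (Ioo (-1) 0 ×ˢ univ) := by
    refine hA.contDiffOn.prodMk ?_
    exact (hX.comp hA.contDiffOn hAm).add (by fun_prop)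
  have hΨm : MapsTo (fun z : ℝ × V => (s + r ^ 2 * z.1, X (s + r ^ 2 * z.1) + r • z.2))
      (Ioo (-1) 0 ×ˢ univ) (Ioo 0 T ×ˢ univ) := fun z hz => ⟨hsub _ (hτ z.1 hz.1), mem_univ _⟩
  -- slices
  have hus : ∀ τ ∈ Ioo 0 T, ∀ i, ContDiff ℝ ∞ (fun y => u τ y i) := fun τ h i =>
    slice_smooth (F := fun z : ℝ × V => u z.1 z.2 i) (hU i) h
  have hps : ∀ τ ∈ Ioo 0 T, ContDiff ℝ ∞ (p τ) := fun τ h =>
    slice_smooth (F := fun z : ℝ × V => p z.1 z.2) hP h
  have hdiff : ∀ {f : V → ℝ}, ContDiff ℝ ∞ f → ∀ x, DifferentiableAt ℝ f x := fun hf x =>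
    (hf.differentiable (by simp)) x
  have hpdsm : ∀ {f : V → ℝ}, ContDiff ℝ ∞ f → ∀ j, ContDiff ℝ ∞ (pd j f) := by
    intro f hf j
    unfold pd
    exact (hf.fderiv_right (m := ∞) (by simp)).clm_apply contDiff_const
  -- first derivatives in the moving frame
  have hpv : ∀ t ∈ Ioo (-1 : ℝ) 0, ∀ i j x, pd j (fun y => frv r s X u t y i) x =
      r ^ 2 * pd j (fun y => u (s + r ^ 2 * t) y i) (X (s + r ^ 2 * t) + r • x) := by
    intro t ht i j x
    have h1 := hus _ (hsub _ (hτ t ht)) i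
    have e1 : (fun y => frv r s X u t y i) = fun y =>
        r * ((fun y => u (s + r ^ 2 * t) y i) (X (s + r ^ 2 * t) + r • y)
          - deriv (fun τ => X τ i) (s + r ^ 2 * t)) := rfl
    rw [e1, pd_const_mul, pd_sub_const, pd_affine _ _ _ _ (hdiff h1 _)]
    · ring
    · refine DifferentiableAt.sub_const ?_ _
      exact (hdiff h1 _).comp x (by fun_prop)
  refine ⟨?_, ?_, ?_, ?_, ?_⟩
  · -- smoothness of v
    rw [contDiffOn_pi]
    intro i
    have h1 := (hU i).comp hΨ hΨm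
    have h2 := (hX1 i).comp hA.contDiffOn hAm
    exact contDiffOn_const.mul (h1.sub h2)
  · -- smoothness of q
    have h1 := hP.comp hΨ hΨm
    have h2 : ∀ i, ContDiffOn ℝ ∞ (fun z : ℝ × V =>
        r ^ 3 * deriv (deriv (fun τ => X τ i)) (s + r ^ 2 * z.1) * z.2 i)
        (Ioo (-1) 0 ×ˢ univ) := by
      intro i
      have h3 := (hX2 i).comp hA.contDiffOn hAm
      refine (contDiffOn_const.mul h3).mul ?_
      fun_prop
    exact (contDiffOn_const.mul h1).add (ContDiffOn.sum fun i _ => h2 i)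
  · -- divergence
    intro t ht x hx
    unfold dv
    simp only [hpv t ht]
    have hd := hu.divfree _ (hsub _ (hτ t ht)) (X (s + r ^ 2 * t) + r • x)
    unfold dv at hd
    rw [← Finset.mul_sum, hd, mul_zero]
  · -- momentum
    intro t ht x hx i
    unfold adv lap
    set τ := s + r ^ 2 * t with hτdef
    have hτ1 : τ ∈ Ioo (s - r ^ 2) s := hτ t ht
    have hτ2 : τ ∈ Ioo 0 T := hsub _ hτ1
    have hui := hus τ hτ2 i
    set Y : V := X τ + r • x with hY
    have hFd : DifferentiableAt ℝ (fun z : ℝ × V => u z.1 z.2 i) (τ, Y) :=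
      ((hU i).contDiffAt (hopen.mem_nhds ⟨hτ2, mem_univ _⟩)).differentiableAt (by simp)
    have hXd : HasDerivAt X (mol r u τ (X τ)) τ := hX' τ hτ1
    have hXc : ∀ j, deriv (fun τ => X τ j) τ = mol r u τ (X τ) j := fun j =>
      ((hasDerivAt_pi.1 hXd) j).deriv
    have hX1d : DifferentiableAt ℝ (deriv (fun τ => X τ i)) τ :=
      ((hX1 i).contDiffAt (isOpen_Ioo.mem_nhds hτ1)).differentiableAt (by simp)
    have hAd : HasDerivAt (fun t' : ℝ => s + r ^ 2 * t') (r ^ 2) t := by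
      have := ((hasDerivAt_id t).const_mul (r ^ 2)).const_add s
      simpa using this
    -- the time derivative
    have hcurve : HasDerivAt (fun t' : ℝ => (s + r ^ 2 * t', X (s + r ^ 2 * t') + r • x))
        (r ^ 2, r ^ 2 • mol r u τ (X τ)) t := by
      refine hAd.prodMk ?_
      have h1 : HasDerivAt (fun t' : ℝ => X (s + r ^ 2 * t')) (r ^ 2 • mol r u τ (X τ)) t :=
        HasDerivAt.scomp t hXd hAd
      exact h1.add_const _
    have hd1 : HasDerivAt (fun t' : ℝ => u (s + r ^ 2 * t') (X (s + r ^ 2 * t') + r • x) i)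
        (fderiv ℝ (fun z : ℝ × V => u z.1 z.2 i) (τ, Y) (r ^ 2, r ^ 2 • mol r u τ (X τ))) t := by
      have h0 : HasFDerivAt (fun z : ℝ × V => u z.1 z.2 i)
          (fderiv ℝ (fun z : ℝ × V => u z.1 z.2 i) (τ, Y))
          ((fun t' : ℝ => (s + r ^ 2 * t', X (s + r ^ 2 * t') + r • x)) t) := hFd.hasFDerivAt
      exact h0.comp_hasDerivAt t hcurve
    rw [total hFd] at hd1
    have hd2 : HasDerivAt (fun t' : ℝ => deriv (fun τ => X τ i) (s + r ^ 2 * t'))
        (deriv (deriv (fun τ => X τ i)) τ * r ^ 2) t := by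
      have h0 : HasDerivAt (deriv (fun τ => X τ i)) (deriv (deriv (fun τ => X τ i)) τ)
          ((fun t' : ℝ => s + r ^ 2 * t') t) := hX1d.hasDerivAt
      exact h0.comp t hAd
    have hd3 : deriv (fun s' => frv r s X u s' x i) t =
        r * ((r ^ 2 * deriv (fun s => u s Y i) τ + ∑ j, (r ^ 2 • mol r u τ (X τ)) j *
          pd j (fun y => u τ y i) Y) - deriv (deriv (fun τ => X τ i)) τ * r ^ 2) :=
      ((hd1.sub hd2).const_mul r).deriv
    -- second derivatives
    have hpv2 : ∀ j, pd j (pd j (fun y => frv r s X u t y i)) x =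
        r ^ 3 * pd j (pd j (fun y => u τ y i)) Y := by
      intro j
      have e1 : pd j (fun y => frv r s X u t y i) = fun x =>
          r ^ 2 * (pd j (fun y => u τ y i)) (X τ + r • x) := funext fun x => hpv t ht i j x
      have h2 := hpdsm hui j
      rw [e1, pd_const_mul, pd_affine _ _ _ _ (hdiff h2 _)]
      · ring
      · exact (hdiff h2 _).comp x (by fun_prop)
    -- the pressure
    have hpq : pd i (frq r s X p t) x = r ^ 3 * pd i (p τ) Y +
        r ^ 3 * deriv (deriv (fun τ => X τ i)) τ := by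
      have h1 := hps τ hτ2
      have e1 : frq r s X p t = fun y => r ^ 2 * (p τ) (X τ + r • y) +
          ∑ i, (fun i => r ^ 3 * deriv (deriv (fun τ => X τ i)) τ) i * y i := rfl
      rw [e1, pd_add, pd_const_mul, pd_affine _ _ _ _ (hdiff h1 _), pd_lin]
      · ring
      · exact (hdiff h1 _).comp x (by fun_prop)
      · exact ((hdiff h1 _).comp x (by fun_prop)).const_mul _
      · fun_prop
    have hmom := hu.momentum τ hτ2 Y i
    unfold adv lap at hmom
    rw [hd3, hpq]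
    simp only [hpv t ht, hpv2]
    rw [← Finset.mul_sum]
    have e5 : ∑ j, (r ^ 2 • mol r u τ (X τ)) j * pd j (fun y => u τ y i) Y =
        r ^ 2 * ∑ j, mol r u τ (X τ) j * pd j (fun y => u τ y i) Y := by
      rw [Finset.mul_sum]
      refine Finset.sum_congr rfl fun j _ => ?_
      rw [Pi.smul_apply, smul_eq_mul]
      ring
    have e6 : ∑ j, frv r s X u t x j * (r ^ 2 * pd j (fun y => u (s + r ^ 2 * t) y i)
        (X (s + r ^ 2 * t) + r • x)) = r ^ 3 * ∑ j, u τ Y j * pd j (fun y => u τ y i) Y -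
        r ^ 3 * ∑ j, mol r u τ (X τ) j * pd j (fun y => u τ y i) Y := by
      rw [Finset.mul_sum, Finset.mul_sum, ← Finset.sum_sub_distrib]
      refine Finset.sum_congr rfl fun j _ => ?_
      have e7 : frv r s X u t x j = r * (u τ Y j - mol r u τ (X τ) j) := by
        show r * (u τ Y j - deriv (fun τ => X τ j) τ) = _
        rw [hXc]
      rw [e7]
      ring
    rw [e5, e6]
    linear_combination r ^ 3 * hmom
  · -- mean
    intro t ht i
    set τ := s + r ^ 2 * t with hτdef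
    have hτ1 : τ ∈ Ioo (s - r ^ 2) s := hτ t ht
    have hτ2 : τ ∈ Ioo 0 T := hsub _ hτ1
    have hui := hus τ hτ2 i
    have hXd : HasDerivAt X (mol r u τ (X τ)) τ := hX' τ hτ1
    have hXc : deriv (fun τ => X τ i) τ = mol r u τ (X τ) i := ((hasDerivAt_pi.1 hXd) i).deriv
    have hc : Continuous (fun z => u τ (X τ + r • z) i) :=
      hui.continuous.comp (by fun_prop)
    have i1 : Integrable (fun z => th z * u τ (X τ + r • z) i) := by
      refine Continuous.integrable_of_hasCompactSupport (th_cont.mul hc) ?_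
      exact th_supp.mul_right
    have i2 : Integrable th := th_cont.integrable_of_hasCompactSupport th_supp
    have e1 : ∀ z, th z * frv r s X u t z i =
        r * (th z * u τ (X τ + r • z) i) - (r * mol r u τ (X τ) i) * th z := by
      intro z
      show th z * (r * (u τ (X τ + r • z) i - deriv (fun τ => X τ i) τ)) = _
      rw [hXc]
      ring
    simp only [e1]
    rw [integral_sub (i1.const_mul r) (i2.const_mul _), integral_const_mul, integral_const_mul,
      th_int]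
    show r * mol r u τ (X τ) i - _ = 0
    ring


end frame

lemma mol_eq (r : ℝ) (u : ℝ → V → V) (t : ℝ) (x : V) : mol r u t x = ml r (u t) x := rfl

/-- The mollified velocity is smooth. -/
theorem mol_smooth {T : ℝ} {u : ℝ → V → V}
    (hu : ContDiffOn ℝ ∞ (fun z : ℝ × V => u z.1 z.2) (Ioo 0 T ×ˢ univ)) (r : ℝ) :
    ContDiffOn ℝ ∞ (fun z : ℝ × V => mol r u z.1 z.2) (Ioo 0 T ×ˢ univ) := by
  refine contDiffOn_pi.2 fun i => ?_
  let g : (ℝ × V) → V → ℝ := fun z y => th y * u z.1 (z.2 + r • y) i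
  have hs : IsOpen (Ioo 0 T ×ˢ (univ : Set V)) := isOpen_Ioo.prod isOpen_univ
  have hg : ContDiffOn ℝ ∞ (↿g) ((Ioo 0 T ×ˢ (univ : Set V)) ×ˢ (univ : Set V)) := by
    have h1 : ContDiffOn ℝ ∞ (fun q : (ℝ × V) × V => th q.2)
        ((Ioo 0 T ×ˢ (univ : Set V)) ×ˢ (univ : Set V)) :=
      (W496.MD.th_smooth.comp contDiff_snd).contDiffOn
    have h2 : ContDiff ℝ ∞ (fun q : (ℝ × V) × V => ((q.1.1, q.1.2 + r • q.2) : ℝ × V)) := by
      fun_prop
    have h3 := hu.comp h2.contDiffOn (s := (Ioo 0 T ×ˢ (univ : Set V)) ×ˢ (univ : Set V))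
      (fun q hq => ⟨hq.1.1, mem_univ _⟩)
    have h4 : ContDiffOn ℝ ∞ (fun q : (ℝ × V) × V => u q.1.1 (q.1.2 + r • q.2) i)
        ((Ioo 0 T ×ˢ (univ : Set V)) ×ˢ (univ : Set V)) := contDiffOn_pi.1 h3 i
    exact h1.mul h4
  have key := contDiffOn_convolution_right_with_param_comp (𝕜 := ℝ) (n := ⊤)
    (ContinuousLinearMap.mul ℝ ℝ) (s := Ioo 0 T ×ˢ (univ : Set V))
    (v := fun _ : ℝ × V => (0 : V)) contDiffOn_const (f := fun _ : V => (1 : ℝ)) (g := g)
    (k := closedBall (0 : V) 1) hs (isCompact_closedBall 0 1)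
    (fun z y _ hy => by simp [g, W496.MD.th_zero hy]) (μ := (volume : Measure V))
    (locallyIntegrable_const 1) hg
  refine key.congr ?_
  intro z _
  simp only [convolution_def, ContinuousLinearMap.mul_apply', one_mul, zero_sub]
  exact (integral_neg_eq_self (fun y => g z y) volume).symm

lemma slice_cd {T : ℝ} {u : ℝ → V → V}
    (hu : ContDiffOn ℝ ∞ (fun z : ℝ × V => u z.1 z.2) (Ioo 0 T ×ˢ univ)) {t : ℝ}
    (ht : t ∈ Ioo 0 T) : ContDiff ℝ ∞ (u t) := by
  rw [← contDiffOn_univ]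
  exact hu.comp (contDiff_const.prodMk contDiff_id).contDiffOn (fun x _ => ⟨ht, mem_univ _⟩)

lemma th_bd {f : V → ℝ} (hf : Continuous f) {M : ℝ} (hM : ∀ x, |f x| ≤ M) :
    |∫ y, th y * f y| ≤ M := by
  have hi := Pool.Agent.W12.MD.th_mul_int hf
  have h1 := Pool.Agent.W12.MD.th_mul_int (f := fun _ => (1 : ℝ)) continuous_const
  simp only [mul_one] at h1
  calc |∫ y, th y * f y| ≤ ∫ y, |th y * f y| := abs_integral_le_integral_abs
    _ ≤ ∫ y, M * th y := by
        refine integral_mono hi.abs (h1.const_mul M) fun y => ?_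
        show |th y * f y| ≤ M * th y
        rw [abs_mul, abs_of_nonneg (Pool.Agent.W12.MD.th_nonneg y), mul_comm]
        exact mul_le_mul_of_nonneg_right (hM y) (Pool.Agent.W12.MD.th_nonneg y)
    _ = M := by rw [integral_const_mul, Pool.Agent.W12.MD.th_int, mul_one]

/-- Paths of the mollified velocity. -/
theorem mpath {T : ℝ} {u : ℝ → V → V} {p : ℝ → V → ℝ} (h : NSol T u p) (ρ : ℝ) {α β : ℝ}
    (hα : 0 < α) (hαβ : α < β) (hβ : β < T) (x : V) :
    ∃ Y : ℝ → V, Y β = x ∧ Pool.Agent.TH305.LW.Pth ρ u α β Y := by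
  obtain ⟨c, hc⟩ : ∃ c, c = α / 2 := ⟨_, rfl⟩
  obtain ⟨d, hd⟩ : ∃ d, d = (β + T) / 2 := ⟨_, rfl⟩
  have hc0 : 0 < c := by rw [hc]; linarith
  have hdT : d < T := by rw [hd]; linarith
  obtain ⟨M, hM0, hM⟩ := h.bdd c d hc0 hdT
  have hm := mol_smooth h.smooth_u ρ
  have hI : ∀ τ ∈ Ioo 0 (d - c), c + τ ∈ Ioo 0 T := fun τ hτ => ⟨by linarith [hτ.1], by
    linarith [hτ.2]⟩
  have hI2 : ∀ τ ∈ Ioo 0 (d - c), c + τ ∈ Icc c d := fun τ hτ => ⟨by linarith [hτ.1], by
    linarith [hτ.2]⟩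
  have hg : Good2 (d - c) M M 0 (fun τ x => mol ρ u (c + τ) x) :=
    { smooth := by
        apply hm.comp (f := fun z : ℝ × V => (c + z.1, z.2)) (by fun_prop)
        intro z hz
        exact ⟨hI _ hz.1, trivial⟩
      bd := fun t ht x => by
        have hs := slice_cd h.smooth_u (hI t ht)
        rw [pi_norm_le_iff_of_nonneg hM0]
        intro i
        rw [Real.norm_eq_abs]
        have hci : Continuous fun y => u (c + t) (x + ρ • y) i :=
          (comp_affine (Pool.Agent.W12.MD.smooth_comp hs i) ρ x).continuous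
        exact th_bd hci fun y => (norm_le_pi_norm (u (c + t) (x + ρ • y)) i).trans
          (hM _ (hI2 t ht) _).1
      lip := fun t ht x i j => by
        have hs := slice_cd h.smooth_u (hI t ht)
        have hsi := Pool.Agent.W12.MD.smooth_comp hs i
        have h1 : pd j (fun y => mol ρ u (c + t) y i) x
            = ∫ y, th y * pd j (fun z => u (c + t) z i) (x + ρ • y) :=
          W496.MD.pd_moll hsi ρ x j
        rw [h1]
        exact th_bd (comp_affine (Pool.Agent.W12.MD.smooth_pd hsi j) ρ x).continuous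
          fun y => (hM _ (hI2 t ht) _).2 i j
      div := fun t ht x => by
        have hs := slice_cd h.smooth_u (hI t ht)
        have h1 : ∀ i, pd i (fun y => mol ρ u (c + t) y i) x
            = ∫ y, th y * pd i (fun z => u (c + t) z i) (x + ρ • y) := fun i =>
          W496.MD.pd_moll (Pool.Agent.W12.MD.smooth_comp hs i) ρ x i
        have h2 : dv (mol ρ u (c + t)) x = ∫ y, th y * dv (u (c + t)) (x + ρ • y) := by
          unfold dv
          rw [Finset.sum_congr rfl fun i _ => h1 i, ← integral_finsetSum]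
          · refine integral_congr_ae (Eventually.of_forall fun y => ?_)
            simp only [Finset.mul_sum]
          · intro i _
            exact Pool.Agent.W12.MD.th_mul_int (comp_affine (Pool.Agent.W12.MD.smooth_pd
              (Pool.Agent.W12.MD.smooth_comp hs i) i) ρ x).continuous
        show |dv (mol ρ u (c + t)) x| ≤ 0
        rw [h2]
        have h3 : ∀ y, th y * dv (u (c + t)) (x + ρ • y) = 0 := by
          intro y
          rw [h.divfree _ (hI t ht), mul_zero]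
        simp_rw [h3]
        simp }
  have h1 : 0 < α - c := by rw [hc]; linarith
  have h2 : α - c < β - c := by linarith
  have h3 : β - c < d - c := by rw [hd]; linarith
  obtain ⟨X, hX⟩ := W221.NS.B.p_flowx2 _ _ _ _ _ hg _ _ h1 h2 h3
  have hmap : ∀ t ∈ Icc α β, t - c ∈ Icc (α - c) (β - c) := fun t ht => ⟨by linarith [ht.1], by
    linarith [ht.2]⟩
  have hmapo : ∀ t ∈ Ioo α β, t - c ∈ Ioo (α - c) (β - c) := fun t ht => ⟨by linarith [ht.1], by
    linarith [ht.2]⟩
  refine ⟨fun t => X (t - c) x, hX.fin x, ⟨?_, ?_, ?_⟩⟩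
  · exact hX.cont.comp (f := fun τ : ℝ => (τ - c, x)) (by fun_prop)
      (fun τ hτ => ⟨hmap τ hτ, mem_univ _⟩)
  · intro t ht
    have h4 := hX.ode x (t - c) (hmapo t ht)
    have h5 : HasDerivAt (fun t : ℝ => t - c) 1 t := (hasDerivAt_id t).sub_const c
    have h6 := h4.scomp t h5
    simp only [one_smul, add_sub_cancel] at h6
    exact h6
  · exact (hX.smooth x).comp (t := Ioo (α - c) (β - c)) (f := fun t : ℝ => t - c) (by fun_prop)
      (fun t ht => hmapo t ht)

/-! ### Measurability -/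

/-- The function of the gradient, as a function of time and space. -/
noncomputable def Ft (R₀ T : ℝ) (u : ℝ → V → V) (z : ℝ × V) : ℝ≥0∞ :=
  Hl.Mx R₀ (fun y => (Ioo 0 T ×ˢ (univ : Set V)).indicator (fun z => Sp.gw (u z.1) z.2) (z.1, y))
    z.2 ^ (7 / 6 : ℝ)

lemma Ft_eq (R₀ : ℝ) {T : ℝ} (u : ℝ → V → V) {t : ℝ} (ht : t ∈ Ioo 0 T) (x : V) :
    Ft R₀ T u (t, x) = Fx R₀ (u t) x := by
  unfold Ft Fx
  congr 2
  funext y
  rw [indicator_of_mem]
  exact ⟨ht, mem_univ _⟩

lemma Ft_meas (R₀ : ℝ) {T : ℝ} {u : ℝ → V → V}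
    (hu : ContDiffOn ℝ ∞ (fun z : ℝ × V => u z.1 z.2) (Ioo 0 T ×ˢ univ)) :
    Measurable (Ft R₀ T u) := by
  have hgs : ContinuousOn (fun z : ℝ × V => gsq (u z.1) z.2) (Ioo 0 T ×ˢ univ) :=
    W335.MD.gsq_cont hu
  have hS : MeasurableSet (Ioo 0 T ×ˢ (univ : Set V)) := measurableSet_Ioo.prod MeasurableSet.univ
  have hG : Measurable ((Ioo 0 T ×ˢ (univ : Set V)).indicator
      (fun z : ℝ × V => Sp.gw (u z.1) z.2)) := by
    have h1 := (W919.MH.MARK3.measurable_indicator hS hgs).pow_const (6 / 7 : ℝ)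
    have e : ((Ioo 0 T ×ˢ (univ : Set V)).indicator (fun z : ℝ × V => Sp.gw (u z.1) z.2))
        = fun z => ((Ioo 0 T ×ˢ (univ : Set V)).indicator
          (fun z : ℝ × V => ENNReal.ofReal (gsq (u z.1) z.2)) z) ^ (6 / 7 : ℝ) := by
      funext z
      by_cases hz : z ∈ Ioo 0 T ×ˢ (univ : Set V)
      · rw [indicator_of_mem hz, indicator_of_mem hz]
        rfl
      · rw [indicator_of_notMem hz, indicator_of_notMem hz, ENNReal.zero_rpow_of_pos (by norm_num)]
    rw [e]
    exact h1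
  obtain ⟨G, hGd⟩ : ∃ G : ℝ × V → ℝ≥0∞, G = (Ioo 0 T ×ˢ (univ : Set V)).indicator
      (fun z : ℝ × V => Sp.gw (u z.1) z.2) := ⟨_, rfl⟩
  rw [← hGd] at hG
  have e2 : Ft R₀ T u = fun z => (⨆ m : ℕ, (∫⁻ y in ball z.2 (Hl.Rr R₀ m), G (z.1, y))
      / ENNReal.ofReal (Hl.Rr R₀ m ^ 3)) ^ (7 / 6 : ℝ) := by
    funext z
    rw [hGd]
    rfl
  rw [e2]
  refine (Measurable.iSup fun m => ?_).pow_const _
  refine Measurable.div_const ?_ _
  have e : (fun z : ℝ × V => ∫⁻ y in ball z.2 (Hl.Rr R₀ m), G (z.1, y))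
      = fun z : ℝ × V => ∫⁻ y, ({q : (ℝ × V) × V | dist q.2 q.1.2 < Hl.Rr R₀ m}.indicator
        (fun q => G (q.1.1, q.2))) (z, y) := by
    funext z
    rw [← lintegral_indicator measurableSet_ball]
    rfl
  rw [e]
  apply Measurable.lintegral_prod_right' (f := {q : (ℝ × V) × V |
    dist q.2 q.1.2 < Hl.Rr R₀ m}.indicator (fun q => G (q.1.1, q.2)))
  refine Measurable.indicator ?_ ?_
  · exact hG.comp ((measurable_fst.comp measurable_fst).prodMk measurable_snd)
  · exact measurableSet_lt (measurable_snd.dist (measurable_snd.comp measurable_fst))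
      measurable_const

end Pool.Agent.Y7
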