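import Pool.Agent.Y7.Sp
import Pool.Agent.Y7.Hl

/-!
The oscillation of a field at all scales, by the maximal function of its gradient (helper7).
-/

set_option autoImplicit false

open MeasureTheory Set Metric Filter Topology
open scoped ContDiff ENNReal NNReal

namespace Pool.Agent.Y7

open H459R3.NS W221.NS Pool.Agent.W12.MD Pool.Agent.Y7.Poi Pool.Agent.Y7.Sp Pool.Agent.Y7.Hl

/-- The function of the gradient at a fixed time. -/
noncomputable def Fx (R₀ : ℝ) (v : V → V) (x : V) : ℝ≥0∞ := Mx R₀ (gw v) x ^ (7 / 6 : ℝ)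

/-- The mollified field. -/
noncomputable def ml (r : ℝ) (w : V → V) (y : V) : V := fun i => ∫ z, th z * w (y + r • z) i

/-- The field in the frame of the scale `r` at the point `y`. -/
noncomputable def fr (r : ℝ) (w : V → V) (y : V) (z : V) : V :=
  fun i => r * (w (y + r • z) i - ml r w y i)

/-- The scales. -/
noncomputable def sc (R₀ : ℝ) (m : ℕ) : ℝ := Rr R₀ m / 16

lemma sc_pos {R₀ : ℝ} (h : 0 < R₀) (m : ℕ) : 0 < sc R₀ m := by
  have := Rr_pos h m
  unfold sc
  positivity

lemma sc_succ (R₀ : ℝ) (m : ℕ) : sc R₀ (m + 1) = sc R₀ m / 2 := by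
  unfold sc Rr
  rw [pow_succ]
  field_simp

lemma sc_add (R₀ : ℝ) (m k : ℕ) : sc R₀ (m + k) = sc R₀ m / 2 ^ k := by
  unfold sc Rr
  rw [pow_add]
  field_simp

theorem comp_affine {f : V → ℝ} (hf : ContDiff ℝ ∞ f) (r : ℝ) (y : V) :
    ContDiff ℝ ∞ (fun z => f (y + r • z)) := hf.comp (by fun_prop)

theorem fr_smooth {w : V → V} (hw : ContDiff ℝ ∞ w) (r : ℝ) (y : V) : ContDiff ℝ ∞ (fr r w y) := by
  refine contDiff_pi.2 fun i => ?_
  exact contDiff_const.mul ((comp_affine (smooth_comp hw i) r y).sub contDiff_const)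

theorem fr_mean {w : V → V} (hw : ContDiff ℝ ∞ w) (r : ℝ) (y : V) (i : Fin 3) :
    ∫ z, th z * fr r w y z i = 0 := by
  have hc : Continuous fun z => w (y + r • z) i := (comp_affine (smooth_comp hw i) r y).continuous
  have e : ∀ z, th z * fr r w y z i = r * (th z * w (y + r • z) i) - r * ml r w y i * th z := by
    intro z
    unfold fr
    ring
  have i2 : Integrable (fun z => th z) := by
    simpa using th_mul_int (f := fun _ => 1) continuous_const
  simp_rw [e]
  rw [integral_sub ((th_mul_int hc).const_mul r) (i2.const_mul _), integral_const_mul,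
    integral_const_mul, th_int]
  unfold ml
  ring

theorem fr_gsq {w : V → V} (hw : ContDiff ℝ ∞ w) (r : ℝ) (y z : V) :
    gsq (fr r w y) z = r ^ 4 * gsq w (y + r • z) := by
  have hp : ∀ i j, pd j (fun z => fr r w y z i) z = r ^ 2 * pd j (fun y => w y i) (y + r • z) := by
    intro i j
    have hd : HasFDerivAt (fun z => w (y + r • z) i)
        ((fderiv ℝ (fun y => w y i) (y + r • z)).comp (r • ContinuousLinearMap.id ℝ V)) z := by
      have h1 : HasFDerivAt (fun z : V => y + r • z) (r • ContinuousLinearMap.id ℝ V) z :=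
        ((hasFDerivAt_id z).const_smul r).const_add y
      exact HasFDerivAt.comp z ((smooth_comp hw i).differentiable (by simp) _).hasFDerivAt h1
    have hd2 : HasFDerivAt (fun z => fr r w y z i)
        (r • ((fderiv ℝ (fun y => w y i) (y + r • z)).comp (r • ContinuousLinearMap.id ℝ V))) z :=
      (hd.sub_const _).const_mul r
    unfold pd
    rw [hd2.fderiv]
    simp
    ring
  unfold gsq
  rw [Finset.mul_sum]
  refine Finset.sum_congr rfl fun i _ => ?_
  rw [Finset.mul_sum]
  refine Finset.sum_congr rfl fun j _ => ?_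
  rw [hp i j]
  ring

theorem gw_meas {w : V → V} (hw : ContDiff ℝ ∞ w) : Measurable (gw w) := by
  have hc : Continuous (gsq w) := by
    unfold gsq
    exact continuous_finsetSum _ fun i _ => continuous_finsetSum _ fun j _ =>
      (smooth_pd (smooth_comp hw i) j).continuous.pow 2
  exact (hc.measurable.ennreal_ofReal).pow_const _

theorem fr_gw {w : V → V} (hw : ContDiff ℝ ∞ w) {r : ℝ} (hr : 0 < r) (y z : V) :
    gw (fr r w y) z = ENNReal.ofReal r ^ (24 / 7 : ℝ) * gw w (y + r • z) := by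
  unfold gw
  rw [fr_gsq hw, ENNReal.ofReal_mul (by positivity), ENNReal.mul_rpow_of_nonneg _ _ (by norm_num),
    ENNReal.ofReal_pow hr.le, ← ENNReal.rpow_natCast, ← ENNReal.rpow_mul]
  norm_num

/-- The oscillation at the scale `r` around a nearby point. -/
theorem osc : ∃ K : ℝ≥0∞, K ≠ ⊤ ∧ ∀ R₀ : ℝ, 0 < R₀ → ∀ w : V → V, ContDiff ℝ ∞ w → ∀ m : ℕ,
    ∀ x y : V, ‖y - x‖ ≤ sc R₀ m →
      ENNReal.ofReal (√(L4 0 4 (fr (sc R₀ m) w y)))
        ≤ K * (ENNReal.ofReal (sc R₀ m ^ 4) * Fx R₀ w x) := by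
  obtain ⟨K, hK, hsp⟩ := sp
  refine ⟨K * 4096 ^ (7 / 6 : ℝ), ENNReal.mul_ne_top hK
    (ENNReal.rpow_ne_top_of_nonneg (by norm_num) (by norm_num)), ?_⟩
  intro R₀ hR₀ w hw m x y hxy
  obtain ⟨r, hr⟩ : ∃ r, r = sc R₀ m := ⟨_, rfl⟩
  have hr0 : 0 < r := by rw [hr]; exact sc_pos hR₀ m
  have hRr : Rr R₀ m = 16 * r := by
    rw [hr]
    unfold sc
    ring
  rw [← hr] at hxy ⊢
  refine (hsp _ (fr_smooth hw r y) (fr_mean hw r y)).trans ?_
  rw [mul_assoc]
  refine mul_le_mul_right ?_ _
  have hg := gw_meas hw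
  have h1 : ∫⁻ z in ball (0 : V) 8, gw (fr r w y) z
      ≤ ENNReal.ofReal r ^ (24 / 7 : ℝ) * (4096 * Mx R₀ (gw w) x) := by
    simp_rw [fr_gw hw hr0]
    rw [lintegral_const_mul' _ _ (ENNReal.rpow_ne_top_of_nonneg (by norm_num) ENNReal.ofReal_ne_top)]
    refine mul_le_mul_right ?_ _
    have h2 : ∫⁻ z in ball (0 : V) 8, gw w (y + r • z)
        = ∫⁻ z, (ball y (8 * r)).indicator (gw w) (y + r • z) := by
      rw [← lintegral_indicator measurableSet_ball]
      refine lintegral_congr fun z => ?_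
      have hiff : z ∈ ball (0 : V) 8 ↔ y + r • z ∈ ball y (8 * r) := by
        rw [mem_ball_zero_iff, mem_ball, dist_eq_norm, add_sub_cancel_left, norm_smul,
          Real.norm_eq_abs, abs_of_pos hr0, mul_comm]
        exact (mul_lt_mul_iff_left₀ hr0).symm
      by_cases hz : z ∈ ball (0 : V) 8
      · rw [indicator_of_mem hz, indicator_of_mem (hiff.1 hz)]
      · rw [indicator_of_notMem hz, indicator_of_notMem (fun h => hz (hiff.2 h))]
    rw [h2, lint_smul _ (hg.indicator measurableSet_ball) hr0.ne', lintegral_indicator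
      measurableSet_ball, abs_of_pos (by positivity)]
    have hsub : ball y (8 * r) ⊆ ball x (Rr R₀ m) := by
      intro a ha
      rw [mem_ball, dist_eq_norm] at ha ⊢
      have h3 : ‖a - x‖ ≤ ‖a - y‖ + ‖y - x‖ := by
        have : a - x = (a - y) + (y - x) := by abel
        rw [this]
        exact norm_add_le _ _
      rw [hRr]
      linarith
    have h4 : (∫⁻ a in ball x (Rr R₀ m), gw w a) / ENNReal.ofReal (Rr R₀ m ^ 3) ≤ Mx R₀ (gw w) x :=
      le_iSup (fun m : ℕ => (∫⁻ a in ball x (Rr R₀ m), gw w a) / ENNReal.ofReal (Rr R₀ m ^ 3)) m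
    calc ENNReal.ofReal (r ^ 3)⁻¹ * ∫⁻ a in ball y (8 * r), gw w a
        ≤ ENNReal.ofReal (r ^ 3)⁻¹ * ∫⁻ a in ball x (Rr R₀ m), gw w a := by
          gcongr
      _ = 4096 * ((∫⁻ a in ball x (Rr R₀ m), gw w a) / ENNReal.ofReal (Rr R₀ m ^ 3)) := by
          rw [hRr, mul_pow, ENNReal.div_eq_inv_mul, ← ENNReal.ofReal_inv_of_pos (by positivity),
            ← mul_assoc]
          congr 1
          have : (4096 : ℝ≥0∞) = ENNReal.ofReal 4096 := by simp
          rw [this, ← ENNReal.ofReal_mul (by norm_num)]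
          congr 1
          field_simp
          norm_num
      _ ≤ _ := by gcongr
  refine (ENNReal.rpow_le_rpow h1 (by norm_num : (0 : ℝ) ≤ 7 / 6)).trans (le_of_eq ?_)
  rw [ENNReal.mul_rpow_of_nonneg _ _ (by norm_num), ENNReal.mul_rpow_of_nonneg _ _ (by norm_num),
    ← ENNReal.rpow_mul]
  have e1 : (24 / 7 : ℝ) * (7 / 6) = ((4 : ℕ) : ℝ) := by norm_num
  rw [e1, ENNReal.rpow_natCast, ENNReal.ofReal_pow hr0.le]
  unfold Fx
  ring

/-! ### The mollified field and the field -/

theorem jen2 {h : V → ℝ} (hh : Continuous h) : (∫ z, th z * h z) ^ 2 ≤ ∫ z, th z * h z ^ 2 := by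
  obtain ⟨m, hm⟩ : ∃ m, m = ∫ z, th z * h z := ⟨_, rfl⟩
  have h0 : 0 ≤ ∫ z, th z * (h z - m) ^ 2 :=
    integral_nonneg fun z => mul_nonneg (th_nonneg z) (sq_nonneg _)
  have e : ∀ z, th z * (h z - m) ^ 2 = th z * h z ^ 2 - 2 * m * (th z * h z) + m ^ 2 * th z := by
    intro z; ring
  have i2 : Integrable (fun z => th z) := by
    simpa using th_mul_int (f := fun _ => 1) continuous_const
  have i0 : Integrable (fun z => th z * h z ^ 2) := th_mul_int (hh.pow 2)
  have i1 : Integrable (fun z => 2 * m * (th z * h z)) := (th_mul_int hh).const_mul _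
  simp_rw [e] at h0
  have i01 : Integrable (fun z => th z * h z ^ 2 - 2 * m * (th z * h z)) := i0.sub i1
  rw [integral_add i01 (i2.const_mul _), integral_sub i0 i1, integral_const_mul,
    integral_const_mul, th_int, ← hm] at h0
  rw [← hm]
  linarith

theorem th4 : ∃ C : ℝ, 0 < C ∧ ∀ v : V → V, ContDiff ℝ ∞ v → ∀ a : V, ‖a‖ ≤ 1 → ∀ b : ℝ, 1 / 2 ≤ b →
    b ≤ 1 → ∀ i, |∫ z, th z * v (a + b • z) i| ≤ C * √(√(L4 0 4 v)) := by
  obtain ⟨C, hC0, hC⟩ := th_bdd
  refine ⟨√(√(8 * C)), by positivity, fun v hv a ha b hb hb1 i => ?_⟩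
  have hb0 : 0 < b := by linarith
  have hvi := smooth_comp hv i
  have hc : Continuous fun z => v (a + b • z) i := (comp_affine hvi b a).continuous
  have h1 : (∫ z, th z * v (a + b • z) i) ^ 4 ≤ 8 * C * L4 0 4 v := by
    have h2 := jen2 hc
    have h3 := jen2 (hc.pow 2)
    have h4 : (∫ z, th z * v (a + b • z) i) ^ 4 ≤ ∫ z, th z * (v (a + b • z) i ^ 2) ^ 2 := by
      calc (∫ z, th z * v (a + b • z) i) ^ 4 = ((∫ z, th z * v (a + b • z) i) ^ 2) ^ 2 := by ring
        _ ≤ (∫ z, th z * v (a + b • z) i ^ 2) ^ 2 := pow_le_pow_left₀ (sq_nonneg _) h2 2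
        _ ≤ _ := h3
    have h5 : ∫ z, th z * (v (a + b • z) i ^ 2) ^ 2
        ≤ C * ∫ z in ball (0 : V) 1, (v (a + b • z) i ^ 2) ^ 2 :=
      th_int_le hC ((hc.pow 2).pow 2) (fun z => sq_nonneg _) le_rfl
    have hF : Continuous fun z => (v z i ^ 2) ^ 2 := (hvi.continuous.pow 2).pow 2
    have h6 : ∫ z in ball (0 : V) 1, (v (a + b • z) i ^ 2) ^ 2
        = (b ^ 3)⁻¹ * ∫ z in ball a (b * 1), (v z i ^ 2) ^ 2 := by
      have e1 : ∫ z in ball (0 : V) 1, (v (a + b • z) i ^ 2) ^ 2
          = ∫ z, (ball a (b * 1)).indicator (fun z => (v z i ^ 2) ^ 2) (a + b • z) := by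
        rw [← integral_indicator measurableSet_ball]
        congr 1
        funext z
        have hiff : z ∈ ball (0 : V) 1 ↔ a + b • z ∈ ball a (b * 1) := by
          rw [mem_ball_zero_iff, mem_ball, dist_eq_norm, add_sub_cancel_left, norm_smul,
            Real.norm_eq_abs, abs_of_pos hb0]
          exact (mul_lt_mul_iff_right₀ hb0).symm
        by_cases hz : z ∈ ball (0 : V) 1
        · rw [indicator_of_mem hz, indicator_of_mem (hiff.1 hz)]
        · rw [indicator_of_notMem hz, indicator_of_notMem (fun h => hz (hiff.2 h))]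
      have e2 := Measure.integral_comp_smul (μ := (volume : Measure V))
        (fun z => (ball a (b * 1)).indicator (fun z => (v z i ^ 2) ^ 2) (a + z)) b
      rw [e1, e2, integral_add_left_eq_self _ a, integral_indicator measurableSet_ball]
      simp only [Module.finrank_fintype_fun_eq_card, Fintype.card_fin, smul_eq_mul]
      rw [abs_of_pos (by positivity)]
    have h7 : ∫ z in ball a (b * 1), (v z i ^ 2) ^ 2 ≤ L4 0 4 v := by
      unfold L4
      have hn : Continuous (fun z => nsq v z ^ 2) := by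
        unfold nsq
        exact (continuous_finsetSum _ fun i _ => (smooth_comp hv i).continuous.pow 2).pow 2
      calc ∫ z in ball a (b * 1), (v z i ^ 2) ^ 2 ≤ ∫ z in ball a (b * 1), nsq v z ^ 2 := by
            refine setIntegral_mono (intB hF _ _) (intB hn _ _) fun z => ?_
            refine pow_le_pow_left₀ (sq_nonneg _) ?_ 2
            exact Finset.single_le_sum (f := fun i => v z i ^ 2) (fun _ _ => sq_nonneg _)
              (Finset.mem_univ i)
        _ ≤ ∫ z in ball (0 : V) 4, nsq v z ^ 2 := by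
            apply setIntegral_mono_set (intB hn _ _)
              (Eventually.of_forall fun z => sq_nonneg _)
            refine LE.le.eventuallyLE ?_
            intro z hz
            rw [mem_ball, dist_eq_norm] at hz
            rw [mem_ball_zero_iff]
            have : ‖z‖ ≤ ‖z - a‖ + ‖a‖ := by
              have e : z = (z - a) + a := by abel
              conv_lhs => rw [e]
              exact norm_add_le _ _
            linarith
    have h8 : (b ^ 3)⁻¹ ≤ 8 := by
      have h9 : (1 / 8 : ℝ) ≤ b ^ 3 := by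
        have := pow_le_pow_left₀ (by norm_num) hb 3
        norm_num at this ⊢
        exact this
      calc (b ^ 3)⁻¹ ≤ (1 / 8 : ℝ)⁻¹ := inv_anti₀ (by norm_num) h9
        _ = 8 := by norm_num
    have hL : 0 ≤ L4 0 4 v := integral_nonneg fun z => sq_nonneg _
    have h10 : 0 ≤ ∫ z in ball a (b * 1), (v z i ^ 2) ^ 2 := integral_nonneg fun z => sq_nonneg _
    calc (∫ z, th z * v (a + b • z) i) ^ 4
        ≤ C * ((b ^ 3)⁻¹ * ∫ z in ball a (b * 1), (v z i ^ 2) ^ 2) := by
          rw [← h6]; exact h4.trans h5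
      _ ≤ C * (8 * L4 0 4 v) := by gcongr
      _ = _ := by ring
  have hL : 0 ≤ L4 0 4 v := integral_nonneg fun z => sq_nonneg _
  rw [← Real.sqrt_mul (Real.sqrt_nonneg _), ← Real.sqrt_mul (by positivity)]
  apply Real.abs_le_sqrt
  apply Real.le_sqrt_of_sq_le
  calc ((∫ z, th z * v (a + b • z) i) ^ 2) ^ 2 = (∫ z, th z * v (a + b • z) i) ^ 4 := by ring
    _ ≤ _ := h1

theorem ml_diff {w : V → V} (hw : ContDiff ℝ ∞ w) {r : ℝ} (hr : 0 < r) (x a : V) (b : ℝ)
    (i : Fin 3) : ∫ z, th z * fr r w x (a + b • z) i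
      = r * (ml (r * b) w (x + r • a) i - ml r w x i) := by
  have hwi := smooth_comp hw i
  have hc : Continuous fun z => w ((x + r • a) + (r * b) • z) i := (comp_affine hwi _ _).continuous
  have e : ∀ z, th z * fr r w x (a + b • z) i
      = r * (th z * w ((x + r • a) + (r * b) • z) i) - r * ml r w x i * th z := by
    intro z
    unfold fr
    have e1 : x + r • (a + b • z) = (x + r • a) + (r * b) • z := by
      rw [smul_add, smul_smul, add_assoc]
    rw [e1]
    ring
  have i2 : Integrable (fun z => th z) := by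
    simpa using th_mul_int (f := fun _ => 1) continuous_const
  simp_rw [e]
  rw [integral_sub ((th_mul_int hc).const_mul r) (i2.const_mul _), integral_const_mul,
    integral_const_mul, th_int]
  have e2 : ml (r * b) w (x + r • a) i = ∫ z, th z * w ((x + r • a) + (r * b) • z) i := rfl
  rw [e2]
  ring

/-- The mollified field converges. -/
theorem ml_lim {w : V → V} (hw : ContDiff ℝ ∞ w) (x : V) (i : Fin 3) {ρ : ℕ → ℝ}
    (hρ : Tendsto ρ atTop (𝓝 0)) : Tendsto (fun k => ml (ρ k) w x i) atTop (𝓝 (w x i)) := by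
  have hwi := smooth_comp hw i
  have hthc : Continuous th := th_cont
  have e : ∀ r, ml r w x i = ∫ z in closedBall (0 : V) 1, th z * w (x + r • z) i := by
    intro r
    refine (setIntegral_eq_integral_of_forall_compl_eq_zero fun z hz => ?_).symm
    rw [th_zero (fun h => hz (ball_subset_closedBall h)), zero_mul]
  have hcont : Continuous fun r : ℝ => ∫ z in closedBall (0 : V) 1, th z * w (x + r • z) i := by
    apply continuous_parametric_integral_of_continuous (s := closedBall (0 : V) 1)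
      (f := fun (r : ℝ) (z : V) => th z * w (x + r • z) i)
    · have h1 : Continuous fun p : ℝ × V => w (x + p.1 • p.2) i :=
        hwi.continuous.comp (by fun_prop)
      exact (hthc.comp continuous_snd).mul h1
    · exact isCompact_closedBall 0 1
  have h1 : Tendsto (fun r : ℝ => ml r w x i) (𝓝 0) (𝓝 (ml 0 w x i)) := by
    have : (fun r : ℝ => ml r w x i) = fun r : ℝ =>
        ∫ z in closedBall (0 : V) 1, th z * w (x + r • z) i := funext e
    rw [this, e 0]
    exact hcont.tendsto 0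
  have h0 : ml 0 w x i = w x i := by
    show ∫ z, th z * w (x + (0 : ℝ) • z) i = w x i
    simp only [zero_smul, add_zero]
    rw [integral_mul_const, th_int, one_mul]
  rw [h0] at h1
  exact h1.comp hρ

/-- The mollified field and the field. -/
theorem mlb : ∃ K : ℝ, 0 < K ∧ ∀ R₀ : ℝ, 0 < R₀ → ∀ w : V → V, ContDiff ℝ ∞ w → ∀ m : ℕ,
    ∀ x y : V, ‖y - x‖ ≤ sc R₀ m →
      ENNReal.ofReal ‖ml (sc R₀ m) w y - w x‖
        ≤ ENNReal.ofReal (K * sc R₀ m) * Fx R₀ w x ^ (1 / 2 : ℝ) := by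
  obtain ⟨K, hK, hosc⟩ := osc
  obtain ⟨C, hC, h4⟩ := th4
  obtain ⟨k, hk⟩ : ∃ k, k = K.toReal := ⟨_, rfl⟩
  have hk0 : 0 ≤ k := by rw [hk]; exact ENNReal.toReal_nonneg
  have hKk : K = ENNReal.ofReal k := by rw [hk, ENNReal.ofReal_toReal hK]
  refine ⟨3 * (C * √k) + 1, by positivity, ?_⟩
  intro R₀ hR₀ w hw m x y hxy
  have hr := sc_pos hR₀ m
  by_cases hF : Fx R₀ w x = ⊤
  · rw [hF, ENNReal.top_rpow_of_pos (by norm_num), ENNReal.mul_top]
    · exact le_top
    · rw [Ne, ENNReal.ofReal_eq_zero, not_le]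
      positivity
  obtain ⟨A, hA⟩ : ∃ A, A = (Fx R₀ w x).toReal := ⟨_, rfl⟩
  have hA0 : 0 ≤ A := by rw [hA]; exact ENNReal.toReal_nonneg
  have hFA : Fx R₀ w x = ENNReal.ofReal A := by rw [hA, ENNReal.ofReal_toReal hF]
  -- the bound at each scale
  have hb : ∀ m : ℕ, √(√(L4 0 4 (fr (sc R₀ m) w x))) ≤ √k * (sc R₀ m ^ 2 * √A) := by
    intro m
    have hr := sc_pos hR₀ m
    have h1 := hosc R₀ hR₀ w hw m x x (by rw [sub_self, norm_zero]; exact hr.le)
    rw [hKk, hFA, ← ENNReal.ofReal_mul (by positivity), ← ENNReal.ofReal_mul hk0,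
      ENNReal.ofReal_le_ofReal_iff (by positivity)] at h1
    refine (Real.sqrt_le_sqrt h1).trans (le_of_eq ?_)
    rw [Real.sqrt_mul hk0, Real.sqrt_mul (by positivity)]
    congr 2
    rw [show sc R₀ m ^ 4 = (sc R₀ m ^ 2) ^ 2 by ring, Real.sqrt_sq (by positivity)]
  have hd : ∀ (m : ℕ) (a : V), ‖a‖ ≤ 1 → ∀ b : ℝ, 1 / 2 ≤ b → b ≤ 1 → ∀ i,
      |ml (sc R₀ m * b) w (x + sc R₀ m • a) i - ml (sc R₀ m) w x i|
        ≤ C * √k * (sc R₀ m * √A) := by
    intro m a ha b hb1 hb2 i
    have hr := sc_pos hR₀ m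
    have h1 := h4 _ (fr_smooth hw (sc R₀ m) x) a ha b hb1 hb2 i
    rw [ml_diff hw hr, abs_mul, abs_of_pos hr] at h1
    have h2 : sc R₀ m * |ml (sc R₀ m * b) w (x + sc R₀ m • a) i - ml (sc R₀ m) w x i|
        ≤ sc R₀ m * (C * √k * (sc R₀ m * √A)) := by
      refine h1.trans ?_
      calc C * √(√(L4 0 4 (fr (sc R₀ m) w x))) ≤ C * (√k * (sc R₀ m ^ 2 * √A)) :=
            mul_le_mul_of_nonneg_left (hb m) hC.le
        _ = _ := by ring
    exact le_of_mul_le_mul_left h2 hr
  -- telescoping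
  have ht : ∀ (i : Fin 3) (j : ℕ), |ml (sc R₀ (m + j)) w x i - ml (sc R₀ m) w x i|
      ≤ 2 * (C * √k * (sc R₀ m * √A)) * (1 - 1 / 2 ^ j) := by
    intro i j
    induction j with
    | zero => simp
    | succ j ih =>
      have h1 := hd (m + j) 0 (by simp) (1 / 2) le_rfl (by norm_num) i
      have h2 : sc R₀ (m + j) * (1 / 2) = sc R₀ (m + (j + 1)) := by
        rw [← add_assoc, sc_succ]
        ring
      rw [h2, smul_zero, add_zero] at h1
      have h3 := abs_sub_le (ml (sc R₀ (m + (j + 1))) w x i) (ml (sc R₀ (m + j)) w x i)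
        (ml (sc R₀ m) w x i)
      refine h3.trans ((add_le_add h1 ih).trans (le_of_eq ?_))
      rw [sc_add R₀ m j, pow_succ]
      field_simp
      ring
  have hx : ∀ i, |w x i - ml (sc R₀ m) w x i| ≤ 2 * (C * √k * (sc R₀ m * √A)) := by
    intro i
    have hl : Tendsto (fun j => sc R₀ (m + j)) atTop (𝓝 0) := by
      have e : (fun j => sc R₀ (m + j)) = fun j : ℕ => sc R₀ m * (1 / 2) ^ j := by
        funext j
        rw [sc_add, one_div, inv_pow]
        rfl
      rw [e]
      have := (tendsto_pow_atTop_nhds_zero_of_lt_one (r := (1 / 2 : ℝ)) (by norm_num)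
        (by norm_num)).const_mul (sc R₀ m)
      rwa [mul_zero] at this
    have h1 := ((ml_lim hw x i hl).sub_const (ml (sc R₀ m) w x i)).abs
    refine le_of_tendsto h1 (Eventually.of_forall fun j => (ht i j).trans ?_)
    have h2 : (1 : ℝ) - 1 / 2 ^ j ≤ 1 := by
      have : (0 : ℝ) < 1 / 2 ^ j := by positivity
      linarith
    have h3 : 0 ≤ 2 * (C * √k * (sc R₀ m * √A)) := by positivity
    nlinarith
  -- the conclusion
  have hfin : ‖ml (sc R₀ m) w y - w x‖ ≤ (3 * (C * √k) + 1) * sc R₀ m * √A := by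
    rw [pi_norm_le_iff_of_nonneg (by positivity)]
    intro i
    rw [Real.norm_eq_abs, Pi.sub_apply]
    obtain ⟨a, ha⟩ : ∃ a : V, a = (sc R₀ m)⁻¹ • (y - x) := ⟨_, rfl⟩
    have ha1 : ‖a‖ ≤ 1 := by
      rw [ha, norm_smul, Real.norm_eq_abs, abs_of_pos (inv_pos.2 hr), inv_mul_le_iff₀ hr]
      linarith
    have hya : x + sc R₀ m • a = y := by
      rw [ha, smul_smul, mul_inv_cancel₀ hr.ne', one_smul, add_sub_cancel]
    have h1 := hd m a ha1 1 (by norm_num) le_rfl i
    rw [mul_one, hya] at h1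
    have h2 := abs_sub_le (ml (sc R₀ m) w y i) (ml (sc R₀ m) w x i) (w x i)
    have h3 := hx i
    rw [abs_sub_comm] at h3
    have h4 : 0 ≤ sc R₀ m * √A := by positivity
    calc |ml (sc R₀ m) w y i - w x i|
        ≤ C * √k * (sc R₀ m * √A) + 2 * (C * √k * (sc R₀ m * √A)) := h2.trans (add_le_add h1 h3)
      _ ≤ _ := by linarith
  rw [hFA, ENNReal.ofReal_rpow_of_nonneg hA0 (by norm_num), ← Real.sqrt_eq_rpow,
    ← ENNReal.ofReal_mul (by positivity)]
  exact ENNReal.ofReal_le_ofReal hfin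

end Pool.Agent.Y7
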