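import Pool.Agent.W12.MD.POINC

/-!
The Poincaré inequality in `Lᵖ` on a cube with weighted mean zero (helper7).
-/

set_option autoImplicit false

open MeasureTheory Set Metric
open scoped ContDiff ENNReal

namespace Pool.Agent.Y7.Poi

open H459R3.NS W221.NS Pool.Agent.W12.MD

/-- Jensen's inequality for the lower integral. -/
theorem jensen {α : Type*} [MeasurableSpace α] {μ : Measure α} {p : ℝ} (hp : 1 < p) {h : α → ℝ≥0∞}
    (hh : AEMeasurable h μ) :
    (∫⁻ x, h x ∂μ) ^ p ≤ μ univ ^ (p - 1) * ∫⁻ x, h x ^ p ∂μ := by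
  have hp0 : 0 < p := by linarith
  obtain ⟨q, hq⟩ : ∃ q, q = p / (p - 1) := ⟨_, rfl⟩
  have hpq : p.HolderConjugate q := by
    rw [hq]
    exact Real.HolderConjugate.conjExponent hp
  have h1 := ENNReal.lintegral_mul_le_Lp_mul_Lq μ hpq hh (g := fun _ => 1) aemeasurable_const
  simp only [Pi.mul_apply, mul_one, ENNReal.one_rpow, lintegral_const, one_mul] at h1
  have h2 := ENNReal.rpow_le_rpow h1 hp0.le
  refine h2.trans (le_of_eq ?_)
  rw [ENNReal.mul_rpow_of_nonneg _ _ hp0.le, ← ENNReal.rpow_mul, ← ENNReal.rpow_mul, mul_comm]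
  have e1 : 1 / p * p = 1 := by field_simp
  have e2 : 1 / q * p = p - 1 := by
    rw [hq]
    have : p - 1 ≠ 0 := by linarith
    field_simp
  rw [e1, e2, ENNReal.rpow_one]

theorem vol8 : volume (ball (0 : V) 8) = 4096 := by
  rw [Real.volume_pi_ball _ (by norm_num)]
  norm_num

theorem one_side (G : V → ℝ≥0∞) (hG : Measurable G) {a b : ℝ} (ha : 1 / 2 ≤ a) :
    ∫⁻ y in ball (0 : V) 8, ∫⁻ z in ball (0 : V) 8, G (b • y + a • z) ≤ 32768 * ∫⁻ z, G z := by
  have h1 : ∀ y : V, ∫⁻ z in ball (0 : V) 8, G (b • y + a • z) ≤ 8 * ∫⁻ z, G z := by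
    intro y
    refine (setLIntegral_le_lintegral _ _).trans ?_
    rw [lint_smul G hG (by linarith : a ≠ 0)]
    refine mul_le_mul_left ?_ _
    have h2 : |a ^ 3|⁻¹ ≤ 8 := by
      have ha0 : 0 < a := by linarith
      rw [abs_of_pos (by positivity)]
      have h3 : (1 / 8 : ℝ) ≤ a ^ 3 := by
        have := pow_le_pow_left₀ (by norm_num) ha 3
        norm_num at this ⊢
        exact this
      calc (a ^ 3)⁻¹ ≤ (1 / 8 : ℝ)⁻¹ := inv_anti₀ (by norm_num) h3
        _ = 8 := by norm_num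
    calc ENNReal.ofReal |a ^ 3|⁻¹ ≤ ENNReal.ofReal 8 := ENNReal.ofReal_le_ofReal h2
      _ = 8 := by simp
  calc ∫⁻ y in ball (0 : V) 8, ∫⁻ z in ball (0 : V) 8, G (b • y + a • z)
      ≤ ∫⁻ y in ball (0 : V) 8, 8 * ∫⁻ z, G z := lintegral_mono fun y => h1 y
    _ = 32768 * ∫⁻ z, G z := by
      rw [lintegral_const, Measure.restrict_apply_univ, vol8, mul_right_comm]
      norm_num

theorem both_sides (G : V → ℝ≥0∞) (hG : Measurable G) (s : ℝ) :
    ∫⁻ z in ball (0 : V) 8, ∫⁻ y in ball (0 : V) 8, G (y + s • (z - y)) ≤ 32768 * ∫⁻ z, G z := by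
  have e : ∀ y z : V, y + s • (z - y) = (1 - s) • y + s • z := by
    intro y z
    rw [smul_sub, sub_smul, one_smul]
    abel
  simp_rw [e]
  rcases le_total (1 / 2) s with hs | hs
  · rw [lintegral_lintegral_swap]
    · exact one_side G hG hs
    · refine (hG.comp ?_).aemeasurable
      fun_prop
  · have e2 : ∀ y z : V, (1 - s) • y + s • z = s • z + (1 - s) • y := fun y z => add_comm _ _
    simp_rw [e2]
    exact one_side G hG (by linarith)

/-- The length of the gradient. -/
noncomputable def gn (f : V → ℝ) (x : V) : ℝ≥0∞ := ENNReal.ofReal (√(gg f x))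

theorem gn_meas {f : V → ℝ} (hf : ContDiff ℝ ∞ f) : Measurable (gn f) :=
  ((gg_cont hf).sqrt).measurable.ennreal_ofReal

/-- The difference of two values, by the gradient along the segment. -/
theorem seg {f : V → ℝ} (hf : ContDiff ℝ ∞ f) {y z : V} (hy : y ∈ ball (0 : V) 8)
    (hz : z ∈ ball (0 : V) 8) :
    ENNReal.ofReal |f z - f y| ≤ 48 * ∫⁻ s in Ioc (0 : ℝ) 1, gn f (y + s • (z - y)) := by
  have hd : Differentiable ℝ f := hf.differentiable (by simp)
  have hφ : ∀ s : ℝ, HasDerivAt (fun s : ℝ => f (y + s • (z - y)))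
      (fderiv ℝ f (y + s • (z - y)) (z - y)) s := by
    intro s
    have h1 : HasDerivAt (fun s : ℝ => y + s • (z - y)) (z - y) s := by
      have h2 := ((hasDerivAt_id s).smul_const (z - y)).const_add y
      simpa using h2
    exact (hd _).hasFDerivAt.comp_hasDerivAt s h1
  have hcl : Continuous (fun s : ℝ => y + s • (z - y)) := by fun_prop
  have hc : Continuous (fun s : ℝ => fderiv ℝ f (y + s • (z - y)) (z - y)) := by
    have h3 : Continuous (fderiv ℝ f) := hf.continuous_fderiv (by simp)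
    exact (h3.comp hcl).clm_apply continuous_const
  have hftc := intervalIntegral.integral_eq_sub_of_hasDerivAt (a := (0 : ℝ)) (b := 1)
    (fun s _ => hφ s) (hc.intervalIntegrable _ _)
  simp only [one_smul, add_sub_cancel, zero_smul, add_zero] at hftc
  rw [← hftc]
  have hcg : Continuous (fun s : ℝ => √(gg f (y + s • (z - y)))) := ((gg_cont hf).comp hcl).sqrt
  have h1 : |∫ s in (0 : ℝ)..1, fderiv ℝ f (y + s • (z - y)) (z - y)|
      ≤ 48 * ∫ s in (0 : ℝ)..1, √(gg f (y + s • (z - y))) := by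
    refine (intervalIntegral.abs_integral_le_integral_abs (by norm_num)).trans ?_
    rw [← intervalIntegral.integral_const_mul]
    refine intervalIntegral.integral_mono_on (by norm_num) (hc.abs.intervalIntegrable _ _)
      ((hcg.const_mul 48).intervalIntegrable _ _) fun s _ => ?_
    rw [fderiv_sum]
    have h2 : (∑ j, (z - y) j * pd j f (y + s • (z - y))) ^ 2
        ≤ 48 ^ 2 * gg f (y + s • (z - y)) := by
      refine (Finset.sum_mul_sq_le_sq_mul_sq _ _ _).trans ?_
      refine mul_le_mul_of_nonneg_right ?_ (gg_nonneg _ _)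
      have hb : ∀ j ∈ (Finset.univ : Finset (Fin 3)), (z - y) j ^ 2 ≤ 256 := by
        intro j _
        have h4 : |(z - y) j| ≤ 16 := by
          have h5 : ‖(z - y) j‖ ≤ ‖z - y‖ := norm_le_pi_norm (z - y) j
          have h6 : ‖z - y‖ ≤ 16 := by
            have h7 := norm_sub_le z y
            rw [mem_ball_zero_iff] at hy hz
            linarith
          exact h5.trans h6
        rw [← sq_abs]
        nlinarith [abs_nonneg ((z - y) j)]
      refine (Finset.sum_le_sum hb).trans ?_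
      rw [Finset.sum_const, Finset.card_univ, Fintype.card_fin]
      norm_num
    have h3 := Real.abs_le_sqrt h2
    rwa [Real.sqrt_mul (by norm_num), Real.sqrt_sq (by norm_num)] at h3
  refine (ENNReal.ofReal_le_ofReal h1).trans ?_
  rw [ENNReal.ofReal_mul (by norm_num)]
  have h48 : ENNReal.ofReal 48 = 48 := by simp
  rw [h48]
  refine mul_le_mul_right ?_ _
  rw [intervalIntegral.integral_of_le (by norm_num),
    ofReal_integral_eq_lintegral_ofReal ((hcg.intervalIntegrable (μ := volume) 0 1).1)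
      (Filter.Eventually.of_forall fun s => Real.sqrt_nonneg _)]
  exact le_rfl

theorem key {p : ℝ} (hp : 1 < p) {f : V → ℝ} (hf : ContDiff ℝ ∞ f) :
    ∫⁻ z in ball (0 : V) 8, (∫⁻ y in ball (0 : V) 8, ENNReal.ofReal |f z - f y|) ^ p
      ≤ 4096 ^ (p - 1) * (48 ^ p * (32768 * ∫⁻ x in ball (0 : V) 8, gn f x ^ p)) := by
  have hp0 : 0 < p := by linarith
  set G : V → ℝ≥0∞ := (ball (0 : V) 8).indicator (fun x => gn f x ^ p) with hGdef
  have hG : Measurable G := ((gn_meas hf).pow_const p).indicator measurableSet_ball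
  have hGi : ∫⁻ z, G z = ∫⁻ x in ball (0 : V) 8, gn f x ^ p :=
    lintegral_indicator measurableSet_ball _
  have hfc := hf.continuous
  have hpt : ∀ z ∈ ball (0 : V) 8, ∀ y ∈ ball (0 : V) 8, ENNReal.ofReal |f z - f y| ^ p
      ≤ 48 ^ p * ∫⁻ s in Ioc (0 : ℝ) 1, G (y + s • (z - y)) := by
    intro z hz y hy
    refine (ENNReal.rpow_le_rpow (seg hf hy hz) hp0.le).trans ?_
    rw [ENNReal.mul_rpow_of_nonneg _ _ hp0.le]
    refine mul_le_mul_right ?_ _
    have hcl : Continuous (fun s : ℝ => y + s • (z - y)) := by fun_prop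
    have h1 := jensen (μ := volume.restrict (Ioc (0 : ℝ) 1)) hp
      (h := fun s => gn f (y + s • (z - y))) ((gn_meas hf).comp hcl.measurable).aemeasurable
    refine h1.trans ?_
    rw [Measure.restrict_apply_univ, Real.volume_Ioc]
    simp only [sub_zero, ENNReal.ofReal_one, ENNReal.one_rpow, one_mul]
    refine setLIntegral_mono' measurableSet_Ioc fun s hs => ?_
    have hmem : y + s • (z - y) ∈ ball (0 : V) 8 :=
      (convex_ball (0 : V) 8).add_smul_sub_mem hy hz ⟨hs.1.le, hs.2⟩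
    rw [hGdef, indicator_of_mem hmem]
  have h0 : ∀ z ∈ ball (0 : V) 8, (∫⁻ y in ball (0 : V) 8, ENNReal.ofReal |f z - f y|) ^ p
      ≤ 4096 ^ (p - 1) * ∫⁻ y in ball (0 : V) 8,
        48 ^ p * ∫⁻ s in Ioc (0 : ℝ) 1, G (y + s • (z - y)) := by
    intro z hz
    have hm : Measurable fun y => ENNReal.ofReal |f z - f y| :=
      (continuous_const.sub hfc).abs.measurable.ennreal_ofReal
    refine (jensen (μ := volume.restrict (ball (0 : V) 8)) hp hm.aemeasurable).trans ?_
    rw [Measure.restrict_apply_univ, vol8]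
    refine mul_le_mul_right ?_ _
    exact setLIntegral_mono' measurableSet_ball fun y hy => hpt z hz y hy
  refine (setLIntegral_mono' measurableSet_ball h0).trans ?_
  have h48 : ((48 : ℝ≥0∞) ^ p) ≠ ⊤ := ENNReal.rpow_ne_top_of_nonneg hp0.le (by norm_num)
  have h4096 : ((4096 : ℝ≥0∞) ^ (p - 1)) ≠ ⊤ :=
    ENNReal.rpow_ne_top_of_nonneg (by linarith) (by norm_num)
  rw [lintegral_const_mul' _ _ h4096]
  refine mul_le_mul_right ?_ _
  have hm : Measurable (fun p : (V × ℝ) × V => G (p.2 + p.1.2 • (p.1.1 - p.2))) := by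
    refine hG.comp ?_
    fun_prop
  have h2 : ∫⁻ z in ball (0 : V) 8, ∫⁻ y in ball (0 : V) 8,
        48 ^ p * ∫⁻ s in Ioc (0 : ℝ) 1, G (y + s • (z - y))
      = 48 ^ p * ∫⁻ s in Ioc (0 : ℝ) 1, ∫⁻ z in ball (0 : V) 8, ∫⁻ y in ball (0 : V) 8,
        G (y + s • (z - y)) := by
    have e1 : ∀ z : V, ∫⁻ y in ball (0 : V) 8, 48 ^ p * ∫⁻ s in Ioc (0 : ℝ) 1, G (y + s • (z - y))
        = 48 ^ p * ∫⁻ s in Ioc (0 : ℝ) 1, ∫⁻ y in ball (0 : V) 8, G (y + s • (z - y)) := by
      intro z
      rw [lintegral_const_mul' _ _ h48]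
      congr 1
      rw [lintegral_lintegral_swap]
      refine (hG.comp ?_).aemeasurable
      fun_prop
    simp_rw [e1]
    rw [lintegral_const_mul' _ _ h48]
    congr 1
    rw [lintegral_lintegral_swap]
    exact (hm.lintegral_prod_right').aemeasurable
  rw [h2]
  refine mul_le_mul_right ?_ _
  have h3 : ∫⁻ s in Ioc (0 : ℝ) 1, ∫⁻ z in ball (0 : V) 8, ∫⁻ y in ball (0 : V) 8,
        G (y + s • (z - y)) ≤ 32768 * ∫⁻ z, G z := by
    refine (lintegral_mono fun s => both_sides G hG s).trans ?_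
    rw [lintegral_const, Measure.restrict_apply_univ, Real.volume_Ioc]
    simp
  rw [hGi] at h3
  exact h3

/-- The Poincaré inequality in `Lᵖ`. -/
theorem poi (p : ℝ) (hp : 1 < p) : ∃ C : ℝ≥0∞, C ≠ ⊤ ∧ ∀ f : V → ℝ, ContDiff ℝ ∞ f →
    (∫ z, th z * f z = 0) →
      ∫⁻ z in ball (0 : V) 8, ENNReal.ofReal |f z| ^ p ≤ C * ∫⁻ z in ball (0 : V) 8, gn f z ^ p := by
  have hp0 : 0 < p := by linarith
  obtain ⟨C, hC0, hC⟩ := th_bdd
  refine ⟨ENNReal.ofReal C ^ p * (4096 ^ (p - 1) * (48 ^ p * 32768)), ?_, fun f hf hmean => ?_⟩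
  · apply ENNReal.mul_ne_top (ENNReal.rpow_ne_top_of_nonneg hp0.le ENNReal.ofReal_ne_top)
    apply ENNReal.mul_ne_top (ENNReal.rpow_ne_top_of_nonneg (by linarith) (by norm_num))
    exact ENNReal.mul_ne_top (ENNReal.rpow_ne_top_of_nonneg hp0.le (by norm_num)) (by norm_num)
  have hfc := hf.continuous
  have h1 : ∀ z, ENNReal.ofReal |f z| ^ p
      ≤ ENNReal.ofReal C ^ p * (∫⁻ y in ball (0 : V) 8, ENNReal.ofReal |f z - f y|) ^ p := by
    intro z
    rw [← ENNReal.mul_rpow_of_nonneg _ _ hp0.le]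
    refine ENNReal.rpow_le_rpow ?_ hp0.le
    have hcc : Continuous (fun y => |f z - f y|) := (continuous_const.sub hfc).abs
    have h2 : |f z| ≤ C * ∫ y in ball (0 : V) 8, |f z - f y| := by
      refine le_trans ?_ (th_int_le hC hcc (fun y => abs_nonneg _) (by norm_num))
      have e : f z = ∫ y, th y * (f z - f y) := by
        have e0 : ∀ y, th y * (f z - f y) = f z * th y - th y * f y := fun y => by ring
        simp_rw [e0]
        have i1 : Integrable (fun y => f z * th y) := by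
          have := th_mul_int (f := fun _ => f z) continuous_const
          simpa [mul_comm] using this
        rw [integral_sub i1 (th_mul_int hfc), integral_const_mul, hmean, th_int]
        ring
      calc |f z| = |∫ y, th y * (f z - f y)| := by rw [← e]
        _ ≤ ∫ y, |th y * (f z - f y)| := abs_integral_le_integral_abs
        _ = ∫ y, th y * |f z - f y| := by
            congr 1
            funext y
            rw [abs_mul, abs_of_nonneg (th_nonneg y)]
    refine (ENNReal.ofReal_le_ofReal h2).trans ?_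
    rw [ENNReal.ofReal_mul hC0.le, ofReal_integral_eq_lintegral_ofReal (intB hcc _ _)
      (Filter.Eventually.of_forall fun s => abs_nonneg _)]
  have hCt : (ENNReal.ofReal C ^ p) ≠ ⊤ := ENNReal.rpow_ne_top_of_nonneg hp0.le ENNReal.ofReal_ne_top
  calc ∫⁻ z in ball (0 : V) 8, ENNReal.ofReal |f z| ^ p
      ≤ ∫⁻ z in ball (0 : V) 8, ENNReal.ofReal C ^ p *
          (∫⁻ y in ball (0 : V) 8, ENNReal.ofReal |f z - f y|) ^ p := lintegral_mono fun z => h1 z
    _ = ENNReal.ofReal C ^ p * ∫⁻ z in ball (0 : V) 8,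
          (∫⁻ y in ball (0 : V) 8, ENNReal.ofReal |f z - f y|) ^ p := lintegral_const_mul' _ _ hCt
    _ ≤ ENNReal.ofReal C ^ p * (4096 ^ (p - 1) * (48 ^ p *
          (32768 * ∫⁻ x in ball (0 : V) 8, gn f x ^ p))) := mul_le_mul_right (key hp hf) _
    _ = _ := by ring

end Pool.Agent.Y7.Poi
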