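import Pool.Agent.W221.NS.Stm2

/-!
The information at one time, measured by the oscillation in `L⁴` only (helper7).
-/

open MeasureTheory Set Metric
open scoped ContDiff

namespace Pool.Agent.Y7

open H459R3.NS W221.NS

/-- The information at one time; `G` bounds the `L⁴` oscillation. -/
structure Sl (v W N : V → V) (P : V → ℝ) (G : ℝ) : Prop where
  sv : ContDiff ℝ ∞ v
  sW : ContDiff ℝ ∞ W
  sN : Continuous N
  sP : ContDiff ℝ ∞ P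
  divv : ∀ x ∈ ball (0 : V) 1, dv v x = 0
  divW : ∀ x ∈ ball (0 : V) 1, dv W x = 0
  pos : 0 ≤ G
  l4 : √(L4 0 4 v) ≤ G
  dD : ∀ z ∈ ball (0 : V) 1, ∀ i, |v z i - W z i| ≤ √G
  gD : ∀ z ∈ ball (0 : V) 1, ∀ i j, |pd j (fun y => v y i - W y i) z| ≤ √G
  lapD : ∀ z ∈ ball (0 : V) 1, ∀ i, lap (fun y => v y i) z = lap (fun y => W y i) z
  eqP : ∀ x ∈ ball (0 : V) 1, -lap P x = ddq v x
  nP : ∫ x in ball (0 : V) 1, P x ^ 2 ≤ G ^ 2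
  evo : ∀ x ∈ ball (0 : V) 1, ∀ i,
    |N x i + adv v (fun y => v y i) x - lap (fun y => v y i) x + pd i P x| ≤ √G + G

/-- The hypothesis of the energy step. -/
def HypL (v W : ℝ → V → V) (G : ℝ → ℝ) (ε : ℝ) : Prop :=
  ContDiffOn ℝ ∞ (fun z : ℝ × V => v z.1 z.2) (Ioo (-1) 0 ×ˢ univ) ∧
  ContDiffOn ℝ ∞ (fun z : ℝ × V => W z.1 z.2) (Ioo (-1) 0 ×ˢ univ) ∧
  (∀ t ∈ Ioo (-1 : ℝ) 0, ∃ P,
    Sl (v t) (W t) (fun x i => deriv (fun s => W s x i) t) P (G t)) ∧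
  IntegrableOn G (Ioo (-1) 0) ∧ ∫ t in Ioo (-1) 0, G t ≤ ε

end Pool.Agent.Y7
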