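import Pool.Agent.Y7.WStm
import Pool.Agent.Y7.Close
import Pool.Agent.Y8.WFrame

/-!
Paths of the mollified velocities at different scales stay close, weak solutions (helper7).
-/

set_option autoImplicit false
set_option linter.unusedVariables false

open MeasureTheory Set Metric Filter Topology
open scoped ContDiff ENNReal NNReal

namespace Pool.Agent.Y7

open H459R3.NS W221.NS Pool.Agent.Y8 Pool.Agent.TH305.LG

lemma mo_ml (r : ℝ) (w : V → V) (y : V) : mo r w y = ml r w y := rfl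

lemma sc_le' {R₀ : ℝ} (hR₀ : 0 < R₀) {m N : ℕ} (h : m ≤ N) : sc R₀ N ≤ sc R₀ m := by
  obtain ⟨k, rfl⟩ := Nat.exists_eq_add_of_le h
  rw [sc_add]
  exact div_le_self (sc_pos hR₀ m).le (one_le_pow₀ (by norm_num))

theorem t_WCLOSE : S_WCLOSE := by
  obtain ⟨K, hK, hml⟩ := mlb
  refine ⟨2 * K, by positivity, ?_⟩
  intro T E D G u p hN R₀ hR₀ m N hmN s h hh hsh hsT ξ ξ' Y Y' B C B' C' hξ hY hYs hI
  have hρ := sc_pos hR₀ m
  obtain ⟨ρ, hρd⟩ : ∃ ρ, ρ = sc R₀ m := ⟨_, rfl⟩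
  have hρN : sc R₀ N ≤ ρ := by rw [hρd]; exact sc_le' hR₀ hmN
  rw [← hρd] at hρ hY ⊢
  have hmaps : ∀ τ ∈ Icc (s - h) s, τ ∈ Ioo 0 T := fun τ hτ => ⟨hsh.trans_le hτ.1,
    hτ.2.trans_lt hsT⟩
  obtain ⟨w, hw⟩ : ∃ w : ℝ → V, w = fun τ => ξ' τ - Y' τ := ⟨_, rfl⟩
  have hwc : ContinuousOn w (Icc (s - h) s) := by
    rw [hw]
    exact ((hξ.yc hN).mono hmaps).sub ((hY.yc hN).mono hmaps)
  have hξc : ContinuousOn ξ (Icc (s - h) s) := fun τ hτ =>
    (hξ.hd τ (hmaps τ hτ)).continuousAt.continuousWithinAt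
  have hYc : ContinuousOn Y (Icc (s - h) s) := fun τ hτ =>
    (hY.hd τ (hmaps τ hτ)).continuousAt.continuousWithinAt
  have hδ : 0 < ρ / 8 := by positivity
  obtain ⟨g, hg⟩ : ∃ g : ℝ → ℝ, g = fun τ => cφ (ρ / 8) ‖ξ τ - Y τ‖ * ‖w τ‖ := ⟨_, rfl⟩
  have hφc : Continuous (cφ (ρ / 8)) := by
    unfold cφ
    fun_prop
  have hφ0 : ∀ d, 0 ≤ cφ (ρ / 8) d := fun d => le_min zero_le_one (le_max_left _ _)
  have hφ1 : ∀ d, cφ (ρ / 8) d ≤ 1 := fun d => min_le_left _ _
  have hgc : ContinuousOn g (Icc (s - h) s) := by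
    rw [hg]
    exact (hφc.comp_continuousOn (hξc.sub hYc).norm).mul hwc.norm
  have hg0 : ∀ τ, 0 ≤ g τ := by
    intro τ
    rw [hg]
    exact mul_nonneg (hφ0 _) (norm_nonneg _)
  have hst := Pool.Agent.TH305.LG.stay (ξ := ξ) (Y := Y) (s := s) (h := h) (ρ := ρ / 8) hh hδ
    (g := g) hgc (fun τ _ => hg0 τ) hξc hYc hYs.symm ?_ ?_
  · intro τ hτ
    refine (hst τ hτ).trans (le_of_eq ?_)
    ring
  · intro τ hτ
    refine ⟨ξ' τ, Y' τ, hξ.hd τ (hmaps τ (Ioo_subset_Icc_self hτ)),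
      hY.hd τ (hmaps τ (Ioo_subset_Icc_self hτ)), fun hlt => ?_⟩
    rw [hg, hw]
    simp only
    have h1 : cφ (ρ / 8) ‖ξ τ - Y τ‖ = 1 := by
      unfold cφ
      apply min_eq_left
      apply le_max_of_le_right
      have : ‖ξ τ - Y τ‖ / (ρ / 8) ≤ 1 := by
        rw [div_le_one hδ]
        exact hlt.le
      linarith
    rw [h1, one_mul]
  · have hpt : ∀ τ ∈ G, ENNReal.ofReal (g τ)
        ≤ ENNReal.ofReal (2 * K * ρ) * Fx R₀ (u τ) (ξ τ) ^ (1 / 2 : ℝ) := by
      intro τ hτ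
      by_cases hd : ‖ξ τ - Y τ‖ ≤ ρ
      · have hus := (hN.spv hτ).1
        have h1 := hml R₀ hR₀ (u τ) hus m (ξ τ) (Y τ) (by rw [norm_sub_rev, ← hρd]; exact hd)
        have h2 := hml R₀ hR₀ (u τ) hus N (ξ τ) (ξ τ) (by
          rw [sub_self, norm_zero]
          exact (sc_pos hR₀ N).le)
        rw [← hρd] at h1
        have h3 : g τ ≤ ‖ml (sc R₀ N) (u τ) (ξ τ) - u τ (ξ τ)‖
            + ‖ml ρ (u τ) (Y τ) - u τ (ξ τ)‖ := by
          rw [hg, hw]
          simp only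
          rw [hξ.ev τ hτ, hY.ev τ hτ, mo_ml, mo_ml]
          refine (mul_le_of_le_one_left (norm_nonneg _) (hφ1 _)).trans ?_
          have e : ml (sc R₀ N) (u τ) (ξ τ) - ml ρ (u τ) (Y τ)
              = (ml (sc R₀ N) (u τ) (ξ τ) - u τ (ξ τ)) - (ml ρ (u τ) (Y τ) - u τ (ξ τ)) := by
            abel
          rw [e]
          exact norm_sub_le _ _
        refine (ENNReal.ofReal_le_ofReal h3).trans ?_
        rw [ENNReal.ofReal_add (norm_nonneg _) (norm_nonneg _)]
        have h4 : ENNReal.ofReal (K * sc R₀ N) * Fx R₀ (u τ) (ξ τ) ^ (1 / 2 : ℝ)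
            ≤ ENNReal.ofReal (K * ρ) * Fx R₀ (u τ) (ξ τ) ^ (1 / 2 : ℝ) :=
          mul_le_mul_left (ENNReal.ofReal_le_ofReal (mul_le_mul_of_nonneg_left hρN hK.le)) _
        refine (add_le_add (h2.trans h4) h1).trans (le_of_eq ?_)
        rw [← add_mul, ← ENNReal.ofReal_add (by positivity) (by positivity)]
        congr 2
        ring
      · have h1 : g τ = 0 := by
          rw [hg]
          simp only
          have : cφ (ρ / 8) ‖ξ τ - Y τ‖ = 0 := by
            unfold cφ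
            have h2 : 2 - ‖ξ τ - Y τ‖ / (ρ / 8) ≤ 0 := by
              push Not at hd
              have : 2 ≤ ‖ξ τ - Y τ‖ / (ρ / 8) := by
                rw [le_div_iff₀ hδ]
                linarith
              linarith
            rw [max_eq_left h2]
            exact min_eq_right zero_le_one
          rw [this, zero_mul]
        rw [h1, ENNReal.ofReal_zero]
        exact zero_le
    have hle : s - h ≤ s := by linarith
    rw [intervalIntegral.integral_of_le hle, integral_Ioc_eq_integral_Ioo]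
    have hgi : IntegrableOn g (Ioo (s - h) s) :=
      (hgc.integrableOn_compact isCompact_Icc).mono_set Ioo_subset_Icc_self
    rw [← ENNReal.ofReal_le_ofReal_iff (by positivity),
      ofReal_integral_eq_lintegral_ofReal hgi (Eventually.of_forall hg0)]
    have hae : ∫⁻ τ in Ioo (s - h) s, ENNReal.ofReal (g τ)
        ≤ ∫⁻ τ in Ioo (s - h) s, ENNReal.ofReal (2 * K * ρ)
          * Fx R₀ (u τ) (ξ τ) ^ (1 / 2 : ℝ) := by
      apply lintegral_mono_ae
      filter_upwards [aeT hN hsh.le hsT.le] with τ hτ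
      exact hpt τ hτ
    refine hae.trans ?_
    rw [lintegral_const_mul' _ _ ENNReal.ofReal_ne_top, mul_comm (2 * K) ρ,
      ENNReal.ofReal_mul hρ.le, mul_assoc]
    refine (mul_le_mul_right hI _).trans ?_
    rw [← ENNReal.ofReal_mul hρ.le]
    apply ENNReal.ofReal_le_ofReal
    linarith

end Pool.Agent.Y7
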