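import Pool.Agent.Y7.WPart

/-!
The integral of the regularity scale, by the maximal function: weak periodic solutions (helper7).
-/

set_option autoImplicit false
set_option linter.unusedVariables false

open MeasureTheory Set Metric Filter Topology
open scoped ContDiff ENNReal NNReal

namespace Pool.Agent.Y7

open H459R3.NS W221.NS Pool.Agent.TH305.LW Pool.Agent.TH305.DR Pool.Agent.TH305.LG
open Pool.Agent.Y7.Cov1 Pool.Agent.Y8 Pool.Agent.W349.MF

/-- A measure-preserving map which commutes with the translations of the lattice. -/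
theorem cell_eq {φ : V → V} (hφ : Measurable φ) (hm : Measure.map φ volume = volume)
    (hn : ∀ (y : V) (n : K3), φ (y - iv n) = φ y - iv n) {h : V → ℝ≥0∞} (hh : Measurable h)
    (hp : ∀ (x : V) (n : K3), h (x - iv n) = h x) :
    ∫⁻ y in cell, h (φ y) = ∫⁻ a in cell, h a := by
  obtain ⟨c, hc⟩ : ∃ c : V → ℝ≥0∞, c = cell.indicator (fun _ => (1 : ℝ≥0∞)) := ⟨_, rfl⟩
  have hcm : Measurable c := by
    rw [hc]
    exact measurable_const.indicator meas_cell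
  have hcs : ∀ x, ∑' n : K3, c (x - iv n) = 1 := by
    rw [hc]
    exact cell_sum
  have hcs' : ∀ x, ∑' n : K3, c (x + iv n) = 1 := by
    rw [hc]
    exact cell_sum'
  have hin : ∀ g : V → ℝ≥0∞, ∫⁻ y in cell, g y = ∫⁻ y, c y * g y := by
    intro g
    rw [← lintegral_indicator meas_cell]
    refine lintegral_congr fun y => ?_
    rw [hc]
    by_cases hy : y ∈ cell
    · rw [indicator_of_mem hy, indicator_of_mem hy, one_mul]
    · rw [indicator_of_notMem hy, indicator_of_notMem hy, zero_mul]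
  have hsub : ∀ n : K3, Measurable fun y : V => y - iv n := fun n => measurable_id.sub_const _
  obtain ⟨G, hG⟩ : ∃ G : V → ℝ≥0∞, G = fun x => c x * h x := ⟨_, rfl⟩
  have hGm : Measurable G := by
    rw [hG]
    exact hcm.mul hh
  have e1 : ∀ y, c y * h (φ y) = ∑' n : K3, c y * G (φ (y - iv n)) := by
    intro y
    rw [ENNReal.tsum_mul_left]
    congr 1
    have e2 : ∀ n : K3, G (φ (y - iv n)) = c (φ y - iv n) * h (φ y) := by
      intro n
      rw [hG, hn]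
      simp only
      rw [hp]
    simp_rw [e2]
    rw [ENNReal.tsum_mul_right, hcs, one_mul]
  calc ∫⁻ y in cell, h (φ y) = ∫⁻ y, ∑' n : K3, c y * G (φ (y - iv n)) := by
        rw [hin]
        exact lintegral_congr e1
    _ = ∑' n : K3, ∫⁻ y, c y * G (φ (y - iv n)) := by
        apply lintegral_tsum
        intro n
        exact (hcm.mul (hGm.comp (hφ.comp (hsub n)))).aemeasurable
    _ = ∑' n : K3, ∫⁻ y, c (y + iv n) * G (φ y) := by
        refine tsum_congr fun n => ?_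
        rw [← lintegral_sub_right_eq_self (fun y => c (y + iv n) * G (φ y)) (iv n)]
        refine lintegral_congr fun y => ?_
        rw [sub_add_cancel]
    _ = ∫⁻ y, ∑' n : K3, c (y + iv n) * G (φ y) := by
        symm
        apply lintegral_tsum
        intro n
        exact ((hcm.comp (measurable_id.add_const (iv n))).mul (hGm.comp hφ)).aemeasurable
    _ = ∫⁻ y, G (φ y) := by
        refine lintegral_congr fun y => ?_
        rw [ENNReal.tsum_mul_right, hcs', one_mul]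
    _ = ∫⁻ x, G x ∂(Measure.map φ volume) := (lintegral_map hGm hφ).symm
    _ = ∫⁻ x, G x := by rw [hm]
    _ = ∫⁻ a in cell, h a := by rw [hin, hG]

lemma SS_per (n : ℕ) : ∀ {f : V → ℝ}, Per f → Per (SS n f) := by
  induction n with
  | zero =>
    intro f hf k x
    show f _ ^ 2 = f x ^ 2
    rw [hf k x]
  | succ n ih =>
    intro f hf k x
    rw [SS_succ, SS_succ]
    exact Finset.sum_congr rfl fun i _ => ih (pd_per hf i) k x

lemma SV_per (n : ℕ) {v : V → V} (hv : Per v) : Per (SV n v) := by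
  intro k x
  unfold SV
  exact Finset.sum_congr rfl fun i _ => SS_per n (comp_per hv i) k x

lemma Reg_per (K : ℕ → ℝ) (ν : ℝ) {v : V → V} (hv : Per v) (x : V) (n : K3) :
    Reg K ν v (x - iv n) = Reg K ν v x := by
  unfold Reg
  refine iInf_congr fun ρ => ?_
  have e : Adm K ν v (x - iv n) ρ ↔ Adm K ν v x ρ := by
    constructor
    · rintro ⟨h0, h⟩
      refine ⟨h0, fun y hy k => ?_⟩
      have h1 := h (y - iv n) (by
        rw [mem_ball] at hy ⊢
        rwa [dist_sub_right]) k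
      rwa [per_iv' (SV_per (k + 1) hv)] at h1
    · rintro ⟨h0, h⟩
      refine ⟨h0, fun y hy k => ?_⟩
      have h1 := h (y + iv n) (by
        rw [mem_ball] at hy ⊢
        rw [← dist_sub_right _ _ (iv n), add_sub_cancel_right]
        exact hy) k
      rwa [per_iv (SV_per (k + 1) hv)] at h1
  simp only [e]

section
variable {T E D : ℝ} {G : Set ℝ} {u : ℝ → V → V} {p : ℝ → V → ℝ}

/-- The function along the flow. -/
noncomputable def fw (R₀ : ℝ) (G : Set ℝ) (u : ℝ → V → V) (t₁ t₂ : ℝ) (F : ℝ → V → V)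
    (z : ℝ × V) : ℝ≥0∞ :=
  (Ioo t₁ t₂ ∩ G).indicator (fun τ => Fx R₀ (u τ) (F τ z.2)) z.1

lemma fw_meas (h : Turb 1 T E D G u p) (R₀ : ℝ) {t₁ t₂ : ℝ}
    (h1 : 0 < t₁) (h12 : t₁ < t₂) (h2 : t₂ < T) {F : ℝ → V → V}
    (hF : ContinuousOn (fun z : ℝ × V => F z.1 z.2) (Ioo 0 T ×ˢ univ)) :
    Measurable (fw R₀ G u t₁ t₂ F) := by
  obtain ⟨cl, hcl⟩ : ∃ cl : ℝ → ℝ, cl = fun t => max t₁ (min t₂ t) := ⟨_, rfl⟩
  have hclc : Continuous cl := by rw [hcl]; fun_prop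
  have hclm : ∀ t, cl t ∈ Ioo 0 T := by
    intro t
    rw [hcl]
    exact ⟨h1.trans_le (le_max_left _ _), (max_le h12.le (min_le_left _ _)).trans_lt h2⟩
  have hcleq : ∀ t ∈ Icc t₁ t₂, cl t = t := by
    intro t ht
    rw [hcl]
    simp only
    rw [min_eq_right ht.2, max_eq_right ht.1]
  have hc : Continuous (fun z : ℝ × V => F (cl z.1) z.2) :=
    ContinuousOn.comp_continuous (g := fun z : ℝ × V => F z.1 z.2)
      (f := fun z : ℝ × V => (cl z.1, z.2)) hF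
      ((hclc.comp continuous_fst).prodMk continuous_snd) (fun z => ⟨hclm _, mem_univ _⟩)
  have hc2 : Measurable (fun z : ℝ × V => (z.1, F (cl z.1) z.2)) :=
    measurable_fst.prodMk hc.measurable
  have e : fw R₀ G u t₁ t₂ F = ((Ioo t₁ t₂ ∩ G) ×ˢ (univ : Set V)).indicator
      (fun z : ℝ × V => FtG R₀ G u (z.1, F (cl z.1) z.2)) := by
    funext z
    unfold fw
    by_cases hz : z.1 ∈ Ioo t₁ t₂ ∩ G
    · rw [indicator_of_mem hz, indicator_of_mem (show z ∈ (Ioo t₁ t₂ ∩ G) ×ˢ (univ : Set V) from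
        ⟨hz, mem_univ _⟩), hcleq _ (Ioo_subset_Icc_self hz.1), FtG_eq R₀ u hz.2]
    · rw [indicator_of_notMem hz, indicator_of_notMem
        (show z ∉ (Ioo t₁ t₂ ∩ G) ×ˢ (univ : Set V) from fun h => hz h.1)]
  rw [e]
  exact ((FtG_meas R₀ h).comp hc2).indicator
    ((measurableSet_Ioo.inter h.openG.measurableSet).prod MeasurableSet.univ)

end

/-- The core estimate, truncated. -/
theorem wcoreM (hE4 : S_WEN4) (hEQ : S_WEQV) : ∃ (C : ℝ) (K : ℕ → ℝ), 0 < C ∧ (∀ n, 0 < K n) ∧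
    ∀ (T E D : ℝ) (G : Set ℝ) (u : ℝ → V → V) (p : ℝ → V → ℝ), Turb 1 T E D G u p →
      ∀ R₀ : ℝ, 0 < R₀ → sc R₀ 0 ≤ 1 → ∀ (M : ℕ) (t₁ t₂ : ℝ), 0 < t₁ → t₁ < t₂ → t₂ < T →
      ∫⁻ t in Ioo t₁ t₂, ∫⁻ y in cell, (min (Reg K 1 (u t) y)
          (ENNReal.ofReal (1 / hh (sc R₀ 0 ^ 2) M ^ 2)) - ENNReal.ofReal C *
          (ENNReal.ofReal (1 / sc R₀ 0 ^ 4) + ENNReal.ofReal (1 / (t - t₁) ^ 2)))
        ≤ ENNReal.ofReal C * ∫⁻ t in Ioo t₁ t₂, ∫⁻ y in cell, Fx R₀ (u t) y := by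
  obtain ⟨η, C, K, hη, hC, hK, H⟩ := wpart hE4
  obtain ⟨Kf, hKf, hfl⟩ := Pool.Agent.Y8.B.p_wfl
  refine ⟨C * (16 / 3 / η + 1), K, by positivity, hK, ?_⟩
  intro T E D G u p hN R₀ hR₀ hsc1 M t₁ t₂ h1 h12 h2
  obtain ⟨h₀, hh₀⟩ : ∃ h₀, h₀ = sc R₀ 0 ^ 2 := ⟨_, rfl⟩
  have hsc := sc_pos hR₀ 0
  have h₀0 : 0 < h₀ := by rw [hh₀]; positivity
  have hN4 : sc R₀ (M + 4) ≤ 1 := (sc_le' hR₀ (Nat.zero_le _)).trans hsc1
  have ht₁T : t₁ ∈ Ioo 0 T := ⟨h1, h12.trans h2⟩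
  obtain ⟨CF, hCF, hfl2⟩ := hfl E (sc R₀ (M + 4)) (sc_pos hR₀ _) hN4
  obtain ⟨X, Y, hX⟩ := hfl2 T D G u p hN t₁ ht₁T
  have hXe := hEQ T E D G u p hN _ _ _ t₁ X Y (sc_pos hR₀ _) hN4 ht₁T hX
  have hXc : ∀ t ∈ Ioo 0 T, Measurable (X t) := fun t ht => by
    have : Continuous (X t) := continuousOn_univ.1 (hX.cont.comp
      (f := fun a : V => (t, a)) (by fun_prop) (fun a _ => ⟨ht, mem_univ _⟩))
    exact this.measurable
  obtain ⟨f, hf⟩ : ∃ f, f = fw R₀ G u t₁ t₂ X := ⟨_, rfl⟩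
  have hfm : Measurable f := by
    rw [hf]
    exact fw_meas hN R₀ h1 h12 h2 hX.cont
  have hHm := Hs_meas hfm h₀ η
  have hGT : ∀ t ∈ Ioo t₁ t₂, t ∈ Ioo 0 T := fun t ht => ⟨h1.trans ht.1, ht.2.trans h2⟩
  have haeG : ∀ᵐ t ∂(volume.restrict (Ioo t₁ t₂)), t ∈ Ioo t₁ t₂ ∧ t ∈ G := by
    filter_upwards [aeT hN h1.le h2.le, ae_restrict_mem measurableSet_Ioo] with t h3 h4
    exact ⟨h4, h3⟩
  have hFxm : ∀ t ∈ G, Measurable (Fx R₀ (u t)) := fun t ht => Fx_meas R₀ (hN.spv ht).1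
  have hFxp : ∀ t ∈ G, ∀ (x : V) (n : K3), Fx R₀ (u t) (x - iv n) = Fx R₀ (u t) x :=
    fun t ht x n => Fx_per R₀ (hN.per_u t ht) x n
  have hFxX : ∀ t ∈ Ioo t₁ t₂, t ∈ G →
      ∫⁻ a in cell, Fx R₀ (u t) (X t a) = ∫⁻ y in cell, Fx R₀ (u t) y := fun t ht htG =>
    cell_eq (hXc t (hGT t ht)) (hX.meas t (hGT t ht)) (hXe t (hGT t ht)) (hFxm t htG)
      (hFxp t htG)
  have hCC : ENNReal.ofReal C ≤ ENNReal.ofReal (C * (16 / 3 / η + 1)) := by
    apply ENNReal.ofReal_le_ofReal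
    have : 0 ≤ C * (16 / 3 / η) := by positivity
    linarith
  -- the pointwise bound
  have hpt : ∀ t ∈ Ioo t₁ t₂, t ∈ G → ∫⁻ y in cell, (min (Reg K 1 (u t) y)
          (ENNReal.ofReal (1 / hh (sc R₀ 0 ^ 2) M ^ 2))
        - ENNReal.ofReal (C * (16 / 3 / η + 1)) *
          (ENNReal.ofReal (1 / sc R₀ 0 ^ 4) + ENNReal.ofReal (1 / (t - t₁) ^ 2)))
      ≤ ENNReal.ofReal C * ((∫⁻ a in cell, Hs f h₀ η (t, a)) + ∫⁻ y in cell, Fx R₀ (u t) y) := by
    intro t ht htG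
    obtain ⟨b, hb⟩ : ∃ b, b = ENNReal.ofReal (C * (16 / 3 / η + 1)) *
          (ENNReal.ofReal (1 / sc R₀ 0 ^ 4) + ENNReal.ofReal (1 / (t - t₁) ^ 2)) := ⟨_, rfl⟩
    rw [← hb]
    have hy : ∀ a, min (Reg K 1 (u t) (X t a)) (ENNReal.ofReal (1 / hh (sc R₀ 0 ^ 2) M ^ 2)) - b
        ≤ ENNReal.ofReal C * (Hs f h₀ η (t, a) + Fx R₀ (u t) (X t a)) := by
      intro a
      have h3 := H T E D G u p hN R₀ hR₀ hsc1 M (M + 4) le_rfl t₁ t h1.le ht.1 htG
        (fun τ => X τ a) (fun τ => Y τ a) _ _ (hX.path a) (fun τ => f (τ, a))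
        (fun τ hτ hτG => by
          rw [hf]
          unfold fw
          exact indicator_of_mem (show τ ∈ Ioo t₁ t₂ ∩ G from ⟨⟨hτ.1, hτ.2.trans ht.2⟩, hτG⟩) _)
      rw [tsub_le_iff_left]
      refine h3.trans ?_
      rw [← hh₀, add_assoc, mul_add, hb]
      gcongr
      exact le_rfl
    have hRm : Measurable (fun y => min (Reg K 1 (u t) y)
        (ENNReal.ofReal (1 / hh (sc R₀ 0 ^ 2) M ^ 2)) - b) :=
      ((reg_meas1 hN K 1 htG).min measurable_const).sub_const b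
    have e1 := cell_eq (hXc t (hGT t ht)) (hX.meas t (hGT t ht)) (hXe t (hGT t ht)) hRm
      (fun x n => by rw [Reg_per K 1 (hN.per_u t htG) x n])
    rw [← e1]
    refine (lintegral_mono hy).trans ?_
    have hm3 : Measurable (fun a => Fx R₀ (u t) (X t a)) :=
      (hFxm t htG).comp (hXc t (hGT t ht))
    rw [lintegral_const_mul' _ _ ENNReal.ofReal_ne_top, lintegral_add_right _ hm3]
    rw [hFxX t ht htG]
  have hle1 : ∫⁻ t in Ioo t₁ t₂, ∫⁻ y in cell, (min (Reg K 1 (u t) y)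
          (ENNReal.ofReal (1 / hh (sc R₀ 0 ^ 2) M ^ 2))
        - ENNReal.ofReal (C * (16 / 3 / η + 1)) *
          (ENNReal.ofReal (1 / sc R₀ 0 ^ 4) + ENNReal.ofReal (1 / (t - t₁) ^ 2)))
      ≤ ∫⁻ t in Ioo t₁ t₂, ENNReal.ofReal C * ((∫⁻ a in cell, Hs f h₀ η (t, a))
        + ∫⁻ y in cell, Fx R₀ (u t) y) := by
    apply lintegral_mono_ae
    filter_upwards [haeG] with t ht
    exact hpt t ht.1 ht.2
  refine hle1.trans ?_
  rw [lintegral_const_mul' _ _ ENNReal.ofReal_ne_top]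
  have hHm2 : Measurable (fun t : ℝ => ∫⁻ a in cell, Hs f h₀ η (t, a)) :=
    Measurable.lintegral_prod_right' (f := Hs f h₀ η) hHm
  rw [lintegral_add_left hHm2]
  have hmain : ∫⁻ t in Ioo t₁ t₂, ∫⁻ a in cell, Hs f h₀ η (t, a)
      ≤ ENNReal.ofReal (16 / 3 / η) * ∫⁻ t in Ioo t₁ t₂, ∫⁻ y in cell, Fx R₀ (u t) y := by
    calc ∫⁻ t in Ioo t₁ t₂, ∫⁻ a in cell, Hs f h₀ η (t, a)
        ≤ ∫⁻ t, ∫⁻ a in cell, Hs f h₀ η (t, a) := setLIntegral_le_lintegral _ _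
      _ = ∫⁻ a in cell, ∫⁻ t, Hs f h₀ η (t, a) :=
          lintegral_lintegral_swap (f := fun t a => Hs f h₀ η (t, a)) hHm.aemeasurable
      _ ≤ ∫⁻ a in cell, ENNReal.ofReal (16 / 3 / η) * ∫⁻ τ, f (τ, a) :=
          lintegral_mono fun a => Hs_int hfm h₀0 hη a
      _ = ENNReal.ofReal (16 / 3 / η) * ∫⁻ a in cell, ∫⁻ τ, f (τ, a) := by
          rw [lintegral_const_mul' _ _ ENNReal.ofReal_ne_top]
      _ = ENNReal.ofReal (16 / 3 / η) * ∫⁻ τ, ∫⁻ a in cell, f (τ, a) := by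
          rw [lintegral_lintegral_swap (f := fun τ a => f (τ, a)) hfm.aemeasurable]
      _ = ENNReal.ofReal (16 / 3 / η) * ∫⁻ τ in Ioo t₁ t₂ ∩ G, ∫⁻ y in cell, Fx R₀ (u τ) y := by
          congr 1
          rw [← lintegral_indicator (measurableSet_Ioo.inter hN.openG.measurableSet)]
          refine lintegral_congr fun τ => ?_
          by_cases hτ : τ ∈ Ioo t₁ t₂ ∩ G
          · rw [indicator_of_mem hτ, ← hFxX τ hτ.1 hτ.2]
            refine lintegral_congr fun a => ?_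
            rw [hf]
            exact indicator_of_mem hτ _
          · rw [indicator_of_notMem hτ]
            have : ∀ a, f (τ, a) = 0 := by
              intro a
              rw [hf]
              exact indicator_of_notMem hτ _
            simp only [this, lintegral_zero]
      _ ≤ ENNReal.ofReal (16 / 3 / η) * ∫⁻ t in Ioo t₁ t₂, ∫⁻ y in cell, Fx R₀ (u t) y :=
          mul_le_mul_right (lintegral_mono_set inter_subset_left) _
  rw [ENNReal.ofReal_mul hC.le, mul_assoc]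
  gcongr
  rw [ENNReal.ofReal_add (by positivity) (by norm_num), add_mul, ENNReal.ofReal_one, one_mul]
  gcongr

/-- The core estimate. -/
theorem wcore (hE4 : S_WEN4) (hEQ : S_WEQV) : ∃ (C : ℝ) (K : ℕ → ℝ), 0 < C ∧ (∀ n, 0 < K n) ∧
    ∀ (T E D : ℝ) (G : Set ℝ) (u : ℝ → V → V) (p : ℝ → V → ℝ), Turb 1 T E D G u p →
      ∀ R₀ : ℝ, 0 < R₀ → sc R₀ 0 ≤ 1 → ∀ (t₁ t₂ : ℝ), 0 < t₁ → t₁ < t₂ → t₂ < T →
      ∫⁻ t in Ioo t₁ t₂, ∫⁻ y in cell, (Reg K 1 (u t) y - ENNReal.ofReal C *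
          (ENNReal.ofReal (1 / sc R₀ 0 ^ 4) + ENNReal.ofReal (1 / (t - t₁) ^ 2)))
        ≤ ENNReal.ofReal C * ∫⁻ t in Ioo t₁ t₂, ∫⁻ y in cell, Fx R₀ (u t) y := by
  obtain ⟨C, K, hC, hK, H⟩ := wcoreM hE4 hEQ
  refine ⟨C, K, hC, hK, ?_⟩
  intro T E D G u p hN R₀ hR₀ hsc1 t₁ t₂ h1 h12 h2
  obtain ⟨W, hW⟩ : ∃ W, W = ENNReal.ofReal C * ∫⁻ t in Ioo t₁ t₂, ∫⁻ y in cell, Fx R₀ (u t) y :=
    ⟨_, rfl⟩
  rw [← hW]
  have HM := fun M => H T E D G u p hN R₀ hR₀ hsc1 M t₁ t₂ h1 h12 h2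
  rw [← hW] at HM
  have hsc := sc_pos hR₀ 0
  have h₀0 : 0 < sc R₀ 0 ^ 2 := by positivity
  obtain ⟨c, hc⟩ : ∃ c : ℕ → ℝ≥0∞, c = fun M => ENNReal.ofReal (1 / hh (sc R₀ 0 ^ 2) M ^ 2) :=
    ⟨_, rfl⟩
  obtain ⟨b, hb⟩ : ∃ b : ℝ → ℝ≥0∞, b = fun t => ENNReal.ofReal C *
      (ENNReal.ofReal (1 / sc R₀ 0 ^ 4) + ENNReal.ofReal (1 / (t - t₁) ^ 2)) := ⟨_, rfl⟩
  have hbm : Measurable b := by
    rw [hb]
    have h3 : Measurable fun t : ℝ => 1 / (t - t₁) ^ 2 := by fun_prop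
    exact (measurable_const.add h3.ennreal_ofReal).const_mul _
  obtain ⟨R, hR⟩ : ∃ R : ℝ × V → ℝ≥0∞, R = (G ×ˢ (univ : Set V)).indicator
      (fun z : ℝ × V => Reg K 1 (u z.1) z.2) := ⟨_, rfl⟩
  have hRm : Measurable R := by rw [hR]; exact reg_meas hN K 1
  have hRt : ∀ t ∈ G, ∀ y, R (t, y) = Reg K 1 (u t) y := fun t ht y => by
    rw [hR]
    exact indicator_of_mem (show (t, y) ∈ G ×ˢ (univ : Set V) from ⟨ht, mem_univ _⟩) _
  have hcm : Monotone c := by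
    intro i j hij
    rw [hc]
    apply ENNReal.ofReal_le_ofReal
    have h3 := hh_pos h₀0 j
    have h4 := hh_pos h₀0 i
    have h5 : hh (sc R₀ 0 ^ 2) j ≤ hh (sc R₀ 0 ^ 2) i := by
      unfold hh
      apply div_le_div_of_nonneg_left h₀0.le (by positivity)
      exact pow_le_pow_right₀ (by norm_num) hij
    gcongr
  have hcT : ⨆ M, c M = ⊤ := by
    apply ENNReal.eq_top_of_forall_nnreal_le
    intro r
    have l1 : Tendsto (fun j : ℕ => hh (sc R₀ 0 ^ 2) j) atTop (𝓝 0) := by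
      have : (fun j : ℕ => hh (sc R₀ 0 ^ 2) j) = fun j => sc R₀ 0 ^ 2 * (1 / 4) ^ j := by
        funext j
        unfold hh
        rw [one_div, inv_pow]
        rfl
      rw [this]
      simpa using (tendsto_pow_atTop_nhds_zero_of_lt_one (by norm_num : (0 : ℝ) ≤ 1 / 4)
        (by norm_num)).const_mul (sc R₀ 0 ^ 2)
    have hr1 : (0 : ℝ) < r + 1 := by positivity
    obtain ⟨j, hj⟩ := (l1.eventually (gt_mem_nhds (show (0 : ℝ) < 1 / √(r + 1) by
      have := Real.sqrt_pos.2 hr1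
      positivity))).exists
    refine le_trans ?_ (le_iSup c j)
    rw [hc, ← ENNReal.ofReal_coe_nnreal]
    apply ENNReal.ofReal_le_ofReal
    have hhj := hh_pos h₀0 j
    have h2 : hh (sc R₀ 0 ^ 2) j ^ 2 ≤ 1 / ((r : ℝ) + 1) := by
      calc hh (sc R₀ 0 ^ 2) j ^ 2 ≤ (1 / √(r + 1)) ^ 2 := by gcongr
        _ = 1 / ((r : ℝ) + 1) := by
          rw [div_pow, Real.sq_sqrt hr1.le]
          norm_num
    rw [le_div_iff₀ (by positivity)]
    rw [le_div_iff₀ hr1] at h2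
    nlinarith [r.2, sq_nonneg (hh (sc R₀ 0 ^ 2) j)]
  -- the truncated functions
  obtain ⟨g, hg⟩ : ∃ g : ℕ → ℝ × V → ℝ≥0∞, g = fun M z => min (R z) (c M) - b z.1 := ⟨_, rfl⟩
  have hgm : ∀ M, Measurable (g M) := fun M => by
    rw [hg]
    exact (hRm.min measurable_const).sub (hbm.comp measurable_fst)
  have hgmono : Monotone g := by
    intro i j hij z
    rw [hg]
    exact tsub_le_tsub_right (min_le_min_left _ (hcm hij)) _
  have hgsup : ∀ z, ⨆ M, g M z = R z - b z.1 := by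
    intro z
    rw [hg]
    simp only
    rw [← ENNReal.iSup_sub]
    congr 1
    have := (inf_iSup_eq (R z) c).symm
    rw [hcT, inf_top_eq] at this
    exact this
  have hgM : ∀ M, ∫⁻ t in Ioo t₁ t₂, ∫⁻ y in cell, g M (t, y) ≤ W := by
    intro M
    refine le_trans (le_of_eq ?_) (HM M)
    apply lintegral_congr_ae
    filter_upwards [aeT hN h1.le h2.le] with t ht
    refine lintegral_congr fun y => ?_
    rw [hg, hc, hb]
    simp only
    rw [hRt t ht]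
  have hfin : ∫⁻ t in Ioo t₁ t₂, ∫⁻ y in cell, (R (t, y) - b t) ≤ W := by
    have e1 : ∀ t, ∫⁻ y in cell, (R (t, y) - b t) = ⨆ M, ∫⁻ y in cell, g M (t, y) := by
      intro t
      have e2 := lintegral_iSup (μ := volume.restrict cell) (f := fun M y => g M (t, y))
        (fun M => (hgm M).comp measurable_prodMk_left) (fun i j hij y => hgmono hij (t, y))
      rw [← e2]
      refine lintegral_congr fun y => (hgsup (t, y)).symm
    simp_rw [e1]
    rw [lintegral_iSup (fun M => Measurable.lintegral_prod_right' (f := g M) (hgm M))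
      (fun i j hij t => lintegral_mono fun y => hgmono hij (t, y))]
    exact iSup_le hgM
  refine le_trans (le_of_eq ?_) hfin
  apply lintegral_congr_ae
  filter_upwards [aeT hN h1.le h2.le] with t ht
  refine lintegral_congr fun y => ?_
  rw [hRt t ht, hb]

end Pool.Agent.Y7
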