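import Pool.Agent.TH305.DR.Lev

/-!
Derivative bounds at one time: the nonlinear estimates of the derivative bounds for the fields at
one time (helper7; after `TH305.DR.Dat`, `Nl`, `Lev`).
-/

set_option autoImplicit false
set_option linter.unusedVariables false

open MeasureTheory Set Metric Filter Topology
open scoped ContDiff

namespace Pool.Agent.Y7.WD

open H459R3.NS W221.NS Pool.Agent.TH305.DR
open Pool.Agent.W583.MD (sm_pd cs_pd pd_mul' Z Z.add Z.sub Z.smul Z.sum int_cs Z_pd hd_int hcs)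
open Pool.Agent.W639.MH (int_ball)

/-- The data at one time. -/
structure SD (K : ℝ) (v W : V → V) (G : ℝ) : Prop where
  cv : ∀ i, ContDiff ℝ ∞ (fun y => v y i)
  cW : ∀ i, ContDiff ℝ ∞ (fun y => W y i)
  lapv : ∀ x ∈ ball (0 : V) (1 / 4), ∀ i, lap (fun y => v y i) x = ∑ m, pd m (Om m i v) x
  lapH : ∀ x ∈ ball (0 : V) (1 / 4), ∀ i, lap (fun y => v y i - W y i) x = 0
  bW : ∀ x ∈ ball (0 : V) (1 / 4), ∀ i, |W x i| ≤ K
  bH : ∀ x ∈ ball (0 : V) (1 / 4), ∀ i, |v x i - W x i| ≤ √G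
  Gn : 0 ≤ G

section
variable {K : ℝ} {v W : V → V} {G : ℝ}

/-- The field `W` in the Sobolev norms. -/
lemma Wb (K : ℝ) (a : ℕ) : ∀ {ρ' ρ : ℝ}, 0 < ρ' → ρ' < ρ → ρ ≤ 1 / 4 → ∃ C : ℝ, 0 < C ∧
    ∀ (v W : V → V) (G : ℝ), SD K v W G →
      NV a ρ' W ≤ C * (1 + ∑ i ∈ Finset.range a, NT i ρ v) := by
  induction a with
  | zero =>
    intro ρ' ρ h0 h hρ
    refine ⟨24 * K ^ 2 + 1, by positivity, fun v W G hD => ?_⟩
    have h1 : ∀ i, N 0 ρ' (fun y => W y i) ≤ 8 * K ^ 2 := by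
      intro i
      apply N0_le (by linarith) (sq_nonneg K) (hD.cW i)
      intro x hx
      have := hD.bW x (ball_subset_ball (by linarith) hx) i
      exact sq_le_sq' (by linarith [(abs_le.1 this).1]) (abs_le.1 this).2
    have h2 : NV 0 ρ' W ≤ ∑ _i : Fin 3, 8 * K ^ 2 := Finset.sum_le_sum fun i _ => h1 i
    simp only [Finset.sum_const, Finset.card_univ, Fintype.card_fin, Finset.range_zero,
      Finset.sum_empty, add_zero, mul_one] at h2 ⊢
    refine h2.trans ?_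
    norm_num
    linarith
  | succ a ih =>
    intro ρ' ρ h0 h hρ
    have a1 : ρ' < (ρ' + ρ) / 2 := by linarith
    have a2 : (ρ' + ρ) / 2 < ρ := by linarith
    obtain ⟨C1, hC1, H1⟩ := el_ball h0 a1
    obtain ⟨C2, hC2, H2⟩ := ih (h0.trans a1) a2 hρ
    refine ⟨C1 * (C2 + 1), by positivity, fun v W G hD => ?_⟩
    have h3 : ∀ i, N (a + 1) ρ' (fun y => W y i)
        ≤ C1 * (N a ((ρ' + ρ) / 2) (fun y => W y i)
          + ∑ m, N a ((ρ' + ρ) / 2) (Om m i v)) := by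
      intro i
      apply H1 a _ _ (hD.cW i) (fun m => om_sm hD.cv m i)
      intro x hx
      have hx' : x ∈ ball (0 : V) (1 / 4) := ball_subset_ball (by linarith) hx
      have b1 := hD.lapv x hx' i
      have b2 := hD.lapH x hx' i
      have b3 : lap (fun y => v y i - W y i) x
          = lap (fun y => v y i) x - lap (fun y => W y i) x := by
        unfold lap
        rw [← Finset.sum_sub_distrib]
        refine Finset.sum_congr rfl fun j _ => ?_
        rw [pd_sub' (hD.cv i) (hD.cW i), pd_sub' (sm_pd (hD.cv i) j)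
          (sm_pd (hD.cW i) j)]
      rw [b3] at b2
      linarith
    have h4 : NV (a + 1) ρ' W ≤ C1 * (NV a ((ρ' + ρ) / 2) W
        + NT a ((ρ' + ρ) / 2) v) := by
      have c1 : NV (a + 1) ρ' W ≤ ∑ i, C1 * (N a ((ρ' + ρ) / 2) (fun y => W y i)
          + ∑ m, N a ((ρ' + ρ) / 2) (Om m i v)) := Finset.sum_le_sum fun i _ => h3 i
      refine c1.trans (le_of_eq ?_)
      rw [← Finset.mul_sum, Finset.sum_add_distrib]
      congr 2
      unfold NT
      rw [Fintype.sum_prod_type, Finset.sum_comm]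
    have h5 := H2 v W G hD
    have h6 : NT a ((ρ' + ρ) / 2) v ≤ NT a ρ v := NT_mono a a2.le hD.cv
    have h7 : ∑ i ∈ Finset.range (a + 1), NT i ρ v
        = (∑ i ∈ Finset.range a, NT i ρ v) + NT a ρ v := Finset.sum_range_succ _ _
    have h8 : 0 ≤ ∑ i ∈ Finset.range a, NT i ρ v :=
      Finset.sum_nonneg fun i _ => NT_nonneg _ _ _
    have h9 := NT_nonneg a ρ v
    refine h4.trans ?_
    rw [mul_assoc]
    apply mul_le_mul_of_nonneg_left _ hC1.le
    rw [h7]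
    nlinarith [mul_nonneg hC2.le h9]

/-- The harmonic part. -/
lemma Hb (K : ℝ) (a : ℕ) {ρ' : ℝ} (h0 : 0 < ρ') (h : ρ' < 1 / 4) : ∃ C : ℝ, 0 < C ∧
    ∀ (v W : V → V) (G : ℝ), SD K v W G →
      ∀ x ∈ ball (0 : V) ρ', SV a (fun y i => v y i - W y i) x ≤ C * G := by
  obtain ⟨C, hC, H⟩ := harm_pt a h0 h (by norm_num)
  refine ⟨24 * C, by positivity, fun v W G hD x hx => ?_⟩
  have hG := hD.Gn
  have h1 : ∀ i, SS a (fun y => v y i - W y i) x ≤ C * (8 * G) := by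
    intro i
    have hs : ContDiff ℝ ∞ (fun y => v y i - W y i) := (hD.cv i).sub (hD.cW i)
    refine (H _ hs (fun x hx => hD.lapH x hx i) x hx).trans ?_
    apply mul_le_mul_of_nonneg_left _ hC.le
    apply N0_le (by norm_num) hG hs
    intro y hy
    have := hD.bH y hy i
    rw [← Real.sq_sqrt hG]
    exact sq_le_sq' (by linarith [(abs_le.1 this).1]) (abs_le.1 this).2
  have h2 : SV a (fun y i => v y i - W y i) x ≤ ∑ _i : Fin 3, C * (8 * G) :=
    Finset.sum_le_sum fun i _ => h1 i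
  simp only [Finset.sum_const, Finset.card_univ, Fintype.card_fin] at h2
  refine h2.trans (le_of_eq ?_)
  norm_num
  ring


/-- The term of order zero in the velocity. -/
lemma p0 (n : ℕ) {ρ' ρ M : ℝ} {φ : V → ℝ} (hφ : Cut ρ' ρ M φ) (hρ : ρ ≤ 1 / 4)
    (hD : SD K v W G) :
    ∫ x, SV 0 v x * ST n v x * φ x ^ 2
      ≤ 6 * (K ^ 2 + G) * ∑ p : Fin 3 × Fin 3, ∫ x, SS n (Om p.1 p.2 v) x * φ x ^ 2 := by
  have hv := hD.cv
  have hG := hD.Gn
  have j1 : ∀ p : Fin 3 × Fin 3, Integrable (fun x => SS n (Om p.1 p.2 v) x * φ x ^ 2) :=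
    fun p => int_ss n (om_sm hv p.1 p.2) hφ.sm hφ.cs
  rw [← integral_finsetSum _ fun p _ => j1 p, ← integral_const_mul]
  apply integral_mono (int_sv 0 n hv hv hφ)
  · exact (integrable_finsetSum _ fun p _ => j1 p).const_mul _
  · intro x
    show SV 0 v x * ST n v x * φ x ^ 2
      ≤ 6 * (K ^ 2 + G) * ∑ p : Fin 3 × Fin 3, SS n (Om p.1 p.2 v) x * φ x ^ 2
    rw [← Finset.sum_mul]
    by_cases hx : x ∈ ball (0 : V) ρ
    · have hx' : x ∈ ball (0 : V) (1 / 4) := ball_subset_ball hρ hx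
      have h1 : ∀ i, v x i ^ 2 ≤ 2 * (K ^ 2 + G) := by
        intro i
        have a1 := hD.bW x hx' i
        have a2 := hD.bH x hx' i
        have a3 : W x i ^ 2 ≤ K ^ 2 := sq_le_sq' (by linarith [(abs_le.1 a1).1]) (abs_le.1 a1).2
        have a4 : (v x i - W x i) ^ 2 ≤ G := by
          rw [← Real.sq_sqrt hG]
          exact sq_le_sq' (by linarith [(abs_le.1 a2).1]) (abs_le.1 a2).2
        nlinarith [sq_nonneg (W x i - (v x i - W x i))]
      have h2 : SV 0 v x ≤ 6 * (K ^ 2 + G) := by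
        unfold SV
        simp only [SS_zero, Fin.sum_univ_three]
        linarith [h1 0, h1 1, h1 2]
      have h3 := mul_le_mul_of_nonneg_right h2 (mul_nonneg (ST_nonneg n v x) (sq_nonneg (φ x)))
      have h4 : SV 0 v x * ST n v x * φ x ^ 2
          = SV 0 v x * (ST n v x * φ x ^ 2) := by ring
      rw [h4]
      exact h3
    · rw [hφ.out x hx]
      simp

lemma SV_split (a : ℕ) (hD : SD K v W G) (x : V) :
    SV a v x ≤ 2 * SV a W x + 2 * SV a (fun y i => v y i - W y i) x := by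
  unfold SV
  rw [Finset.mul_sum, Finset.mul_sum, ← Finset.sum_add_distrib]
  refine Finset.sum_le_sum fun i _ => ?_
  have h1 := SS_add a (hD.cW i) ((hD.cv i).sub (hD.cW i)) x
  have e : (fun y => v y i) = fun y => W y i + (v y i - W y i) := by
    funext y
    ring
  rw [e]
  exact h1

/-- The other terms. -/
lemma pa (K : ℝ) (a b : ℕ) {ρ' ρ M : ℝ} {φ : V → ℝ} (hφ : Cut ρ' ρ M φ) (h0 : 0 < ρ)
    (hρ : ρ < 1 / 4) : ∃ C : ℝ, 0 < C ∧ ∀ (v W : V → V) (G : ℝ), SD K v W G → ∫ x, SV a v x * ST b v x * φ x ^ 2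
      ≤ 2 * (∫ x in ball (0 : V) ρ, SV a W x * ST b v x) + C * G * NT b ρ v := by
  obtain ⟨C, hC, H⟩ := Hb K a h0 hρ
  refine ⟨2 * C, by positivity, fun v W G hD => ?_⟩
  have hv := hD.cv
  have hW := hD.cW
  have hc : Continuous fun x => 2 * (SV a W x * ST b v x)
      + 2 * C * G * ST b v x :=
    (((SV_cont a hW).mul (ST_cont b hv)).const_mul 2).add ((ST_cont b hv).const_mul _)
  have hG := hD.Gn
  have h1 : ∫ x, SV a v x * ST b v x * φ x ^ 2
      ≤ ∫ x, (2 * (SV a W x * ST b v x) + 2 * C * G * ST b v x) * φ x ^ 2 := by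
    apply integral_mono (int_sv a b hv hv hφ)
    · have hφ2 : HasCompactSupport (fun x => φ x ^ 2) := by
        have := hφ.cs.comp_left (g := fun y : ℝ => y ^ 2) (by simp)
        exact this
      exact int_cs (hc.mul (hφ.sm.continuous.pow 2)) hφ2.mul_left
    · intro x
      show SV a v x * ST b v x * φ x ^ 2
        ≤ (2 * (SV a W x * ST b v x) + 2 * C * G * ST b v x) * φ x ^ 2
      by_cases hx : x ∈ ball (0 : V) ρ
      · apply mul_le_mul_of_nonneg_right _ (sq_nonneg _)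
        have a1 := SV_split a hD x
        have a2 := H v W G hD x hx
        have a3 : SV a v x ≤ 2 * SV a W x + 2 * (C * G) := by linarith
        have a4 := mul_le_mul_of_nonneg_right a3 (ST_nonneg b v x)
        linarith
      · rw [hφ.out x hx]
        simp
  refine h1.trans ?_
  have h2 := cut_le_N' hφ hc (fun x => by
    have := SV_nonneg a W x
    have := ST_nonneg b v x
    positivity)
  refine h2.trans (le_of_eq ?_)
  have k1 : IntegrableOn (fun x => 2 * (SV a W x * ST b v x)) (ball (0 : V) ρ) :=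
    int_ball (((SV_cont a hW).mul (ST_cont b hv)).const_mul 2) 0 ρ
  have k2 : IntegrableOn (fun x => 2 * C * G * ST b v x) (ball (0 : V) ρ) :=
    int_ball ((ST_cont b hv).const_mul _) 0 ρ
  rw [integral_add k1 k2, integral_const_mul, integral_const_mul, NT_eq b ρ hv]


/-- The term which needs the Gagliardo-Nirenberg inequality. -/
lemma pGN (K : ℝ) {ρ' ρ : ℝ} (h0 : 0 < ρ') (h : ρ' < ρ) (hρ : ρ ≤ 1 / 4) : ∃ C : ℝ, 0 < C ∧
    ∀ (v W : V → V) (G : ℝ), SD K v W G →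
      ∫ x in ball (0 : V) ρ', SV 1 W x * ST 0 v x
        ≤ C * (NV 1 ρ W + NV 2 ρ W) + C * G * NV 1 ρ W := by
  obtain ⟨C1, hC1, H1⟩ := Hb K 1 h0 (h.trans_le hρ)
  obtain ⟨C2, hC2, H2⟩ := gn h0 h
  refine ⟨24 * C2 * K ^ 2 + 8 * C1, by positivity, fun v W G hD => ?_⟩
  have hv := hD.cv
  have hW := hD.cW
  have hG := hD.Gn
  have h3 : ∀ x ∈ ball (0 : V) ρ', SV 1 W x * ST 0 v x
      ≤ 24 * (∑ i, SS 1 (fun y => W y i) x ^ 2) + 8 * C1 * G * SV 1 W x := by
    intro x hx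
    have a1 := ST0_le (w := v) x
    have a2 := SV_split 1 hD x
    have a3 := H1 v W G hD x hx
    have a4 : ST 0 v x ≤ 8 * SV 1 W x + 8 * (C1 * G) := by linarith
    have a5 := mul_le_mul_of_nonneg_left a4 (SV_nonneg 1 W x)
    have a6 : SV 1 W x * SV 1 W x ≤ 3 * ∑ i, SS 1 (fun y => W y i) x ^ 2 := by
      unfold SV
      simp only [Fin.sum_univ_three]
      nlinarith [sq_nonneg (SS 1 (fun y => W y 0) x - SS 1 (fun y => W y 1) x),
        sq_nonneg (SS 1 (fun y => W y 0) x - SS 1 (fun y => W y 2) x),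
        sq_nonneg (SS 1 (fun y => W y 1) x - SS 1 (fun y => W y 2) x)]
    nlinarith
  have k1 : ∀ i : Fin 3, IntegrableOn (fun x => SS 1 (fun y => W y i) x ^ 2)
      (ball (0 : V) ρ') := fun i => int_ball ((SS_cont 1 (hW i)).pow 2) 0 ρ'
  have k2 : IntegrableOn (SV 1 W) (ball (0 : V) ρ') := int_ball (SV_cont 1 hW) 0 ρ'
  have k3 : IntegrableOn (fun x => 24 * ∑ i, SS 1 (fun y => W y i) x ^ 2)
      (ball (0 : V) ρ') := (integrable_finsetSum _ fun i _ => k1 i).const_mul 24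
  have k4 : IntegrableOn (fun x => 8 * C1 * G * SV 1 W x) (ball (0 : V) ρ') :=
    k2.const_mul _
  have h4 : ∫ x in ball (0 : V) ρ', SV 1 W x * ST 0 v x
      ≤ ∫ x in ball (0 : V) ρ', (24 * (∑ i, SS 1 (fun y => W y i) x ^ 2)
        + 8 * C1 * G * SV 1 W x) :=
    setIntegral_mono_on (int_ball ((SV_cont 1 hW).mul (ST_cont 0 hv)) 0 ρ') (k3.add k4)
      measurableSet_ball h3
  refine h4.trans ?_
  rw [integral_add k3 k4, integral_const_mul, integral_const_mul,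
    integral_finsetSum _ fun i _ => k1 i, ← NV_eq 1 ρ' hW]
  have h5 : ∀ i, ∫ x in ball (0 : V) ρ', SS 1 (fun y => W y i) x ^ 2
      ≤ C2 * K ^ 2 * (N 1 ρ (fun y => W y i) + N 2 ρ (fun y => W y i)) := fun i =>
    H2 _ K (hW i) fun x hx => hD.bW x (ball_subset_ball hρ hx) i
  have h6 : ∑ i, ∫ x in ball (0 : V) ρ', SS 1 (fun y => W y i) x ^ 2
      ≤ C2 * K ^ 2 * (NV 1 ρ W + NV 2 ρ W) := by
    refine (Finset.sum_le_sum fun i _ => h5 i).trans (le_of_eq ?_)
    rw [← Finset.mul_sum, Finset.sum_add_distrib]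
    rfl
  have h7 := NV_mono 1 h.le hW
  have h8 := NV_nonneg 1 ρ W
  have h9 := NV_nonneg 2 ρ W
  have e1 : 8 * C1 * G * NV 1 ρ' W ≤ 8 * C1 * G * NV 1 ρ W :=
    mul_le_mul_of_nonneg_left h7 (by positivity)
  have e2 : 0 ≤ 8 * C1 * (NV 1 ρ W + NV 2 ρ W) := by positivity
  have e3 : 0 ≤ 24 * C2 * K ^ 2 * G * NV 1 ρ W := by positivity
  nlinarith


/-- `W` in the norms of order at most `n`. -/
lemma Wk (K B : ℝ) (hB : 0 ≤ B) (k n : ℕ) (hk : k ≤ n) {ρ' ρ : ℝ} (h0 : 0 < ρ') (h : ρ' < ρ)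
    (hρ : ρ ≤ 1 / 4) : ∃ D : ℝ, 0 < D ∧ ∀ (v W : V → V) (G : ℝ), SD K v W G → (∀ i < n, NT i ρ v ≤ B) → NV k ρ' W ≤ D := by
  obtain ⟨C, hC, H⟩ := Wb K k h0 h hρ
  refine ⟨C * (1 + k * B), by positivity, fun v W G hD hS => ?_⟩
  refine (H v W G hD).trans ?_
  apply mul_le_mul_of_nonneg_left _ hC.le
  have h1 : ∑ i ∈ Finset.range k, NT i ρ v ≤ ∑ _i ∈ Finset.range k, B :=
    Finset.sum_le_sum fun i hi => hS i ((Finset.mem_range.1 hi).trans_le hk)
  simp only [Finset.sum_const, Finset.card_range, nsmul_eq_mul] at h1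
  linarith

/-- `W` in the norm of order `n + 1`. -/
lemma Wn (K B : ℝ) (hB : 0 ≤ B) (n : ℕ) {ρ' ρ : ℝ} (h0 : 0 < ρ') (h : ρ' < ρ)
    (hρ : ρ ≤ 1 / 4) : ∃ D : ℝ, 0 < D ∧ ∀ (v W : V → V) (G : ℝ), SD K v W G → (∀ i < n, NT i ρ v ≤ B) →
      NV (n + 1) ρ' W ≤ D * (1 + NT n ρ v) := by
  obtain ⟨C, hC, H⟩ := Wb K (n + 1) h0 h hρ
  refine ⟨C * (1 + n * B), by positivity, fun v W G hD hS => ?_⟩
  refine (H v W G hD).trans ?_
  rw [mul_assoc]
  apply mul_le_mul_of_nonneg_left _ hC.le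
  rw [Finset.sum_range_succ]
  have h1 : ∑ i ∈ Finset.range n, NT i ρ v ≤ ∑ _i ∈ Finset.range n, B :=
    Finset.sum_le_sum fun i hi => hS i (Finset.mem_range.1 hi)
  simp only [Finset.sum_const, Finset.card_range, nsmul_eq_mul] at h1
  have h2 := NT_nonneg n ρ v
  have h3 : 0 ≤ (n : ℝ) * B := by positivity
  nlinarith [mul_nonneg h3 h2]

/-- One product. -/
lemma prod_a (K B : ℝ) (hB : 0 ≤ B) (n a : ℕ) (ha : a ≤ n) {ρ' ρ ρ2 M : ℝ} {φ : V → ℝ}
    (hφ : Cut ρ' ρ M φ) (h0 : 0 < ρ) (h : ρ < ρ2) (hρ : ρ2 ≤ 1 / 4) : ∃ C : ℝ, 0 < C ∧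
    ∀ (v W : V → V) (G : ℝ), SD K v W G →
      (∀ i < n, NT i ρ2 v ≤ B) →
      ∫ x, SV a v x * ST (n - a) v x * φ x ^ 2
        ≤ C * (1 + G) * (∑ p : Fin 3 × Fin 3, ∫ x, SS n (Om p.1 p.2 v) x * φ x ^ 2)
          + C * (1 + G + NT n ρ2 v) := by
  have hρ1 : ρ < 1 / 4 := h.trans_le hρ
  have b1 : ρ < (ρ + ρ2) / 2 := by linarith
  have b2 : (ρ + ρ2) / 2 < ρ2 := by linarith
  have b0 : 0 < (ρ + ρ2) / 2 := h0.trans b1
  rcases Nat.eq_zero_or_pos a with ha0 | ha0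
  · subst ha0
    refine ⟨6 * (K ^ 2 + 1), by positivity, fun v W G hD hS => ?_⟩
    have hG := hD.Gn
    have h1 := p0 n hφ hρ1.le hD
    rw [Nat.sub_zero]
    have h2 : 0 ≤ ∑ p : Fin 3 × Fin 3, ∫ x, SS n (Om p.1 p.2 v) x * φ x ^ 2 :=
      Finset.sum_nonneg fun p _ => integral_nonneg fun x =>
        mul_nonneg (SS_nonneg _ _ _) (sq_nonneg _)
    have h3 : 6 * (K ^ 2 + G) ≤ 6 * (K ^ 2 + 1) * (1 + G) := by
      have := mul_nonneg (sq_nonneg K) hG
      nlinarith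
    have h4 := mul_le_mul_of_nonneg_right h3 h2
    have h5 := NT_nonneg n ρ2 v
    have h6 : 0 ≤ 6 * (K ^ 2 + 1) * (1 + G + NT n ρ2 v) := by positivity
    linarith
  · obtain ⟨C1, hC1, H1⟩ := pa K a (n - a) hφ h0 hρ1
    have hlt : n - a < n := by omega
    rcases Nat.lt_or_ge n 2 with hn | hn
    · have hn1 : n = 1 := by omega
      have ha1 : a = 1 := by omega
      subst hn1
      subst ha1
      obtain ⟨C2, hC2, H2⟩ := pGN K h0 b1 (b2.le.trans hρ)
      obtain ⟨D1, hD1, HD1⟩ := Wk K B hB 1 1 le_rfl b0 b2 hρ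
      obtain ⟨D2, hD2, HD2⟩ := Wn K B hB 1 b0 b2 hρ
      refine ⟨2 * C2 * (D1 + D2) + C1 * B + 1, by positivity, fun v W G hD hS => ?_⟩
      have hG := hD.Gn
      have h1 := H1 v W G hD
      have h2 := H2 v W G hD
      have h3 := HD1 v W G hD hS
      have h4 := HD2 v W G hD hS
      have h5 := hS 0 one_pos
      have h6 : NT 0 ρ v ≤ NT 0 ρ2 v := NT_mono 0 h.le hD.cv
      have h7 := NT_nonneg 1 ρ2 v
      have h8 := NV_nonneg 1 ((ρ + ρ2) / 2) W
      have h9 := NT_nonneg 0 ρ v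
      have hY : 0 ≤ ∑ p : Fin 3 × Fin 3, ∫ x, SS 1 (Om p.1 p.2 v) x * φ x ^ 2 :=
        Finset.sum_nonneg fun p _ => integral_nonneg fun x =>
          mul_nonneg (SS_nonneg _ _ _) (sq_nonneg _)
      have e1 : C1 * G * NT 0 ρ v ≤ C1 * G * B :=
        mul_le_mul_of_nonneg_left (h6.trans h5) (by positivity)
      have e2 : C2 * (NV 1 ((ρ + ρ2) / 2) W + NV 2 ((ρ + ρ2) / 2) W)
          ≤ C2 * (D1 + D2 * (1 + NT 1 ρ2 v)) :=
        mul_le_mul_of_nonneg_left (add_le_add h3 h4) hC2.le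
      have e3 : C2 * G * NV 1 ((ρ + ρ2) / 2) W ≤ C2 * G * D1 :=
        mul_le_mul_of_nonneg_left h3 (by positivity)
      have e4 : 0 ≤ (2 * C2 * (D1 + D2) + C1 * B + 1) * (1 + G)
          * ∑ p : Fin 3 × Fin 3, ∫ x, SS 1 (Om p.1 p.2 v) x * φ x ^ 2 := by positivity
      have e5 : 0 ≤ C2 * D1 * NT 1 ρ2 v := by positivity
      have e6 : 0 ≤ C1 * B := by positivity
      have e7 : 0 ≤ C2 * D2 * G := by positivity
      have e8 : 0 ≤ C1 * B * NT 1 ρ2 v := by positivity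
      have e9 : 0 ≤ G + NT 1 ρ2 v := by positivity
      show ∫ x, SV 1 v x * ST 0 v x * φ x ^ 2 ≤ _
      have h1' : ∫ x, SV 1 v x * ST 0 v x * φ x ^ 2
          ≤ 2 * (∫ x in ball (0 : V) ρ, SV 1 W x * ST 0 v x)
            + C1 * G * NT 0 ρ v := h1
      nlinarith
    · obtain ⟨C2, hC2, H2⟩ := pW a (n - a) h0 b1 (by linarith)
      obtain ⟨D0, hD0, HD0⟩ := Wk K B hB a n ha b0 b2 hρ
      rcases Nat.lt_or_ge a 2 with ha2 | ha2
      · -- `a = 1`
        have ha1 : a = 1 := by omega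
        obtain ⟨D1, hD1, HD1⟩ := Wk K B hB (a + 1) n (by omega) b0 b2 hρ
        refine ⟨2 * C2 * (D0 + D1) * (1 + B) + C1 * B + 1, by positivity,
          fun v W G hD hS => ?_⟩
        have hG := hD.Gn
        have h1 := H1 v W G hD
        have h2 := H2 W v hD.cW hD.cv
        have h3 := HD0 v W G hD hS
        have h4 := HD1 v W G hD hS
        have h5 := hS (n - a) hlt
        have h6 : NT (n - a) ρ v ≤ NT (n - a) ρ2 v := NT_mono _ h.le hD.cv
        have h6' : NT (n - a) ((ρ + ρ2) / 2) v ≤ NT (n - a) ρ2 v :=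
          NT_mono _ b2.le hD.cv
        have e0 : n - a + 1 = n := by omega
        have h6'' : NT (n - a + 1) ((ρ + ρ2) / 2) v ≤ NT n ρ2 v := by
          rw [e0]
          exact NT_mono _ b2.le hD.cv
        have h7 := NT_nonneg n ρ2 v
        have h9 := NT_nonneg (n - a) ρ v
        have hY : 0 ≤ ∑ p : Fin 3 × Fin 3, ∫ x, SS n (Om p.1 p.2 v) x * φ x ^ 2 :=
          Finset.sum_nonneg fun p _ => integral_nonneg fun x =>
            mul_nonneg (SS_nonneg _ _ _) (sq_nonneg _)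
        have e1 : C1 * G * NT (n - a) ρ v ≤ C1 * G * B :=
          mul_le_mul_of_nonneg_left (h6.trans h5) (by positivity)
        have e2 : (NV a ((ρ + ρ2) / 2) W + NV (a + 1) ((ρ + ρ2) / 2) W)
            * (NT (n - a) ((ρ + ρ2) / 2) v + NT (n - a + 1) ((ρ + ρ2) / 2) v)
            ≤ (D0 + D1) * (B + NT n ρ2 v) :=
          mul_le_mul (add_le_add h3 h4) (add_le_add (h6'.trans h5) h6'')
            (add_nonneg (NT_nonneg _ _ _) (NT_nonneg _ _ _)) (by positivity)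
        have e3 := mul_le_mul_of_nonneg_left e2 hC2.le
        have e4 : 0 ≤ (2 * C2 * (D0 + D1) * (1 + B) + C1 * B + 1) * (1 + G)
            * ∑ p : Fin 3 × Fin 3, ∫ x, SS n (Om p.1 p.2 v) x * φ x ^ 2 := by positivity
        have e5 : 0 ≤ C2 * (D0 + D1) * (B * NT n ρ2 v) := by positivity
        have e6 : 0 ≤ C1 * B := by positivity
        have e7 : 0 ≤ C2 * (D0 + D1) * (1 + B) * G := by positivity
        have e8 : 0 ≤ C1 * B * NT n ρ2 v := by positivity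
        have e9 : 0 ≤ G + NT n ρ2 v := by positivity
        have e10 : 0 ≤ C2 * (D0 + D1) := by positivity
        nlinarith
      · -- `2 ≤ a`
        obtain ⟨D1, hD1, HD1⟩ : ∃ D : ℝ, 0 < D ∧ ∀ (v W : V → V) (G : ℝ), SD K v W G → (∀ i < n, NT i ρ2 v ≤ B) →
              NV (a + 1) ((ρ + ρ2) / 2) W ≤ D * (1 + NT n ρ2 v) := by
          rcases Nat.lt_or_ge a n with han | han
          · obtain ⟨D, hD, H⟩ := Wk K B hB (a + 1) n (by omega) b0 b2 hρ
            refine ⟨D, hD, fun v W G hDat hS => ?_⟩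
            have := H v W G hDat hS
            have h2 := mul_nonneg hD.le (NT_nonneg n ρ2 v)
            linarith
          · have : a = n := le_antisymm ha han
            subst this
            exact Wn K B hB a b0 b2 hρ
        refine ⟨4 * C2 * (D0 + D1) * (1 + B) + C1 * B + 1, by positivity,
          fun v W G hD hS => ?_⟩
        have hG := hD.Gn
        have h1 := H1 v W G hD
        have h2 := H2 W v hD.cW hD.cv
        have h3 := HD0 v W G hD hS
        have h4 := HD1 v W G hD hS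
        have h5 := hS (n - a) hlt
        have h5' := hS (n - a + 1) (by omega)
        have h6 : NT (n - a) ρ v ≤ NT (n - a) ρ2 v := NT_mono _ h.le hD.cv
        have h6' : NT (n - a) ((ρ + ρ2) / 2) v ≤ NT (n - a) ρ2 v :=
          NT_mono _ b2.le hD.cv
        have h6'' : NT (n - a + 1) ((ρ + ρ2) / 2) v ≤ NT (n - a + 1) ρ2 v :=
          NT_mono _ b2.le hD.cv
        have h7 := NT_nonneg n ρ2 v
        have h9 := NT_nonneg (n - a) ρ v
        have hY : 0 ≤ ∑ p : Fin 3 × Fin 3, ∫ x, SS n (Om p.1 p.2 v) x * φ x ^ 2 :=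
          Finset.sum_nonneg fun p _ => integral_nonneg fun x =>
            mul_nonneg (SS_nonneg _ _ _) (sq_nonneg _)
        have e1 : C1 * G * NT (n - a) ρ v ≤ C1 * G * B :=
          mul_le_mul_of_nonneg_left (h6.trans h5) (by positivity)
        have e2 : (NV a ((ρ + ρ2) / 2) W + NV (a + 1) ((ρ + ρ2) / 2) W)
            * (NT (n - a) ((ρ + ρ2) / 2) v + NT (n - a + 1) ((ρ + ρ2) / 2) v)
            ≤ (D0 + D1 * (1 + NT n ρ2 v)) * (B + B) :=
          mul_le_mul (add_le_add h3 h4) (add_le_add (h6'.trans h5) (h6''.trans h5'))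
            (add_nonneg (NT_nonneg _ _ _) (NT_nonneg _ _ _)) (by positivity)
        have e3 := mul_le_mul_of_nonneg_left e2 hC2.le
        have e4 : 0 ≤ (4 * C2 * (D0 + D1) * (1 + B) + C1 * B + 1) * (1 + G)
            * ∑ p : Fin 3 × Fin 3, ∫ x, SS n (Om p.1 p.2 v) x * φ x ^ 2 := by positivity
        have e5 : 0 ≤ C2 * (D0 + D1) * NT n ρ2 v := by positivity
        have e5' : 0 ≤ C2 * D0 * (B * NT n ρ2 v) := by positivity
        have e6 : 0 ≤ C1 * B := by positivity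
        have e7 : 0 ≤ C2 * (D0 + D1) * (1 + B) * G := by positivity
        have e8 : 0 ≤ C1 * B * NT n ρ2 v := by positivity
        have e9 : 0 ≤ G + NT n ρ2 v := by positivity
        have e10 : 0 ≤ C2 * (D0 + D1) := by positivity
        nlinarith

/-- All products. -/
lemma prod_all (K B : ℝ) (hB : 0 ≤ B) (n : ℕ) {ρ' ρ ρ2 M : ℝ} {φ : V → ℝ}
    (hφ : Cut ρ' ρ M φ) (h0 : 0 < ρ) (h : ρ < ρ2) (hρ : ρ2 ≤ 1 / 4) : ∃ C : ℝ, 0 ≤ C ∧
    ∀ (v W : V → V) (G : ℝ), SD K v W G →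
      (∀ i < n, NT i ρ2 v ≤ B) →
      ∑ a ∈ Finset.range (n + 1), ∫ x, SV a v x * ST (n - a) v x * φ x ^ 2
        ≤ C * (1 + G) * (∑ p : Fin 3 × Fin 3, ∫ x, SS n (Om p.1 p.2 v) x * φ x ^ 2)
          + C * (1 + G + NT n ρ2 v) := by
  have h1 : ∀ a : ℕ, ∃ C : ℝ, 0 ≤ C ∧ (a ≤ n → ∀ (v W : V → V) (G : ℝ), SD K v W G → (∀ i < n, NT i ρ2 v ≤ B) →
      ∫ x, SV a v x * ST (n - a) v x * φ x ^ 2
        ≤ C * (1 + G) * (∑ p : Fin 3 × Fin 3, ∫ x, SS n (Om p.1 p.2 v) x * φ x ^ 2)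
          + C * (1 + G + NT n ρ2 v)) := by
    intro a
    by_cases ha : a ≤ n
    · obtain ⟨C, hC, H⟩ := prod_a K B hB n a ha hφ h0 h hρ
      exact ⟨C, hC.le, fun _ => H⟩
    · exact ⟨0, le_rfl, fun h => absurd h ha⟩
  choose C hC H using h1
  refine ⟨∑ a ∈ Finset.range (n + 1), C a, Finset.sum_nonneg fun a _ => hC a,
    fun v W G hD hS => ?_⟩
  rw [Finset.sum_mul, Finset.sum_mul, Finset.sum_mul, ← Finset.sum_add_distrib]
  exact Finset.sum_le_sum fun a ha => H a (Nat.lt_succ_iff.1 (Finset.mem_range.1 ha)) v W G hD hS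

end

end Pool.Agent.Y7.WD
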