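import Pool.Agent.Y7.WMod
import Pool.Agent.Y7.WSd

/-!
The mollified energy inequality for the derivatives of the vorticity (helper7).
-/

set_option autoImplicit false
set_option linter.unusedVariables false

open MeasureTheory Set Metric Filter Topology
open scoped ContDiff

namespace Pool.Agent.Y7.WD

open H459R3.NS W221.NS Pool.Agent.TH305.DR
open Pool.Agent.W583.MD (sm_pd cs_pd pd_mul' Z Z.add Z.sub Z.smul Z.sum int_cs Z_pd hcs)
open Pool.Agent.W639.MH (int_ball)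
open Pool.Agent.W22.ME.TD (pd_comm lap_smooth)

/-- The weighted sum of squares of the derivatives of the vorticity. -/
noncomputable def YY (n : ℕ) (φ : V → ℝ) (v : V → V) : ℝ :=
  ∑ p : Fin 3 × Fin 3, ∫ x, SS n (Om p.1 p.2 v) x * φ x ^ 2

/-- The weighted sum of squares of the derivatives of the mollified vorticity. -/
noncomputable def Ye (κ : V → ℝ) (n : ℕ) (φ : V → ℝ) (v : V → V) : ℝ :=
  ∑ p : Fin 3 × Fin 3, ∫ x, SS n (cv κ (Om p.1 p.2 v)) x * φ x ^ 2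

/-- The weighted products. -/
noncomputable def PP (n : ℕ) (φ : V → ℝ) (v : V → V) : ℝ :=
  ∑ a ∈ Finset.range (n + 1), ∫ x, SV a v x * ST (n - a) v x * φ x ^ 2

lemma YY_nonneg (n : ℕ) (φ : V → ℝ) (v : V → V) : 0 ≤ YY n φ v :=
  Finset.sum_nonneg fun p _ => integral_nonneg fun x => mul_nonneg (SS_nonneg _ _ _) (sq_nonneg _)

lemma Ye_nonneg (κ : V → ℝ) (n : ℕ) (φ : V → ℝ) (v : V → V) : 0 ≤ Ye κ n φ v :=
  Finset.sum_nonneg fun p _ => integral_nonneg fun x => mul_nonneg (SS_nonneg _ _ _) (sq_nonneg _)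

lemma PP_nonneg (n : ℕ) (φ : V → ℝ) (v : V → V) : 0 ≤ PP n φ v :=
  Finset.sum_nonneg fun a _ => integral_nonneg fun x =>
    mul_nonneg (mul_nonneg (SV_nonneg _ _ _) (ST_nonneg _ _ _)) (sq_nonneg _)

/-- Weak local data at unit scale. -/
structure WK (K M : ℝ) (H : Set ℝ) (v W : ℝ → V → V) (G k : ℝ → ℝ) : Prop where
  openH : IsOpen H
  subH : H ⊆ Ioo (-1) 0
  fullH : volume (Ioo (-1 : ℝ) 0 \ H) = 0
  smv : ∀ i, ContDiffOn ℝ ∞ (fun z : ℝ × V => v z.1 z.2 i) (H ×ˢ univ)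
  eq : ∀ t ∈ H, ∀ x i j, deriv (fun s => Om i j (v s) x) t
      = lap (Om i j (v t)) x - pd i (bb (v t) j) x + pd j (bb (v t) i) x
  sd : ∀ t ∈ H, -1 / 16 < t → SD K (v t) (W t) (G t)
  Gc : ContinuousOn G H
  GM : ∀ t ∈ H, G t ≤ M
  Gi : ∫ t in Ioo (-1 / 16) 0, G t ≤ K
  N0i : IntegrableOn (fun t => NT 0 (1 / 4) (v t)) (Ioo (-1 / 16) 0)
  N0 : ∫ t in Ioo (-1 / 16) 0, NT 0 (1 / 4) (v t) ≤ K
  kint : Integrable k
  knn : ∀ t, 0 ≤ k t
  md : ∀ (ε : ℝ) (κ : V → ℝ), ε ≤ 1 → Kn ε κ → ∀ i, MD H k (fun t => cv κ (fun y => v t y i))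

lemma cv_add {ε : ℝ} {κ : V → ℝ} (h : Kn ε κ) {f g : V → ℝ} (hf : Continuous f)
    (hg : Continuous g) (x : V) : cv κ (fun y => f y + g y) x = cv κ f x + cv κ g x := by
  unfold cv
  rw [← integral_add (cv_int h hf x) (cv_int h hg x)]
  refine integral_congr_ae (Eventually.of_forall fun y => ?_)
  show κ (x - y) * (f y + g y) = _
  ring

lemma cv_lap {ε : ℝ} {κ : V → ℝ} (h : Kn ε κ) {f : V → ℝ} (hf : ContDiff ℝ ∞ f) (x : V) :
    lap (cv κ f) x = cv κ (lap f) x := by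
  unfold lap
  rw [cv_sum3 h (fun i => (sm_pd (sm_pd hf i) i).continuous)]
  refine Finset.sum_congr rfl fun i _ => ?_
  rw [cv_pd' h hf, cv_pd' h (sm_pd hf i)]

/-- The right side for the products. -/
lemma gg_int (n : ℕ) {ρ' ρ M : ℝ} {φ : V → ℝ} (hφ : Cut ρ' ρ M φ) {v : V → V}
    (hv : ∀ i, ContDiff ℝ ∞ (fun y => v y i)) :
    ∑ p : Fin 3 × Fin 3, ∑ m, ∫ x, SS n (gg v p.1 p.2 m) x * φ x ^ 2
      ≤ 36 * 4 ^ (n + 1) * PP n φ v := by
  have j1 : ∀ (p : Fin 3 × Fin 3) (m : Fin 3),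
      Integrable (fun x => SS n (gg v p.1 p.2 m) x * φ x ^ 2) := fun p m =>
    int_ss n (gg_sm hv p.1 p.2 m) hφ.sm hφ.cs
  have hφ2 : HasCompactSupport (fun x => φ x ^ 2) := by
    have := hφ.cs.comp_left (g := fun y : ℝ => y ^ 2) (by simp)
    exact this
  have j2 : ∀ a, Integrable (fun x => SV a v x * ST (n - a) v x * φ x ^ 2) := by
    intro a
    apply int_cs (((SV_cont a hv).mul (ST_cont (n - a) hv)).mul (hφ.sm.continuous.pow 2))
    exact hφ2.mul_left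
  have e1 : ∑ p : Fin 3 × Fin 3, ∑ m, ∫ x, SS n (gg v p.1 p.2 m) x * φ x ^ 2
      = ∫ x, ∑ p : Fin 3 × Fin 3, ∑ m, SS n (gg v p.1 p.2 m) x * φ x ^ 2 := by
    rw [integral_finsetSum _ fun p _ => integrable_finsetSum _ fun m _ => j1 p m]
    refine Finset.sum_congr rfl fun p _ => ?_
    rw [integral_finsetSum _ fun m _ => j1 p m]
  unfold PP
  rw [e1, ← integral_finsetSum _ fun a _ => j2 a, ← integral_const_mul]
  apply integral_mono
  · exact integrable_finsetSum _ fun p _ => integrable_finsetSum _ fun m _ => j1 p m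
  · exact (integrable_finsetSum _ fun a _ => j2 a).const_mul _
  · intro x
    show ∑ p : Fin 3 × Fin 3, ∑ m, SS n (gg v p.1 p.2 m) x * φ x ^ 2
      ≤ 36 * 4 ^ (n + 1) * ∑ a ∈ Finset.range (n + 1), SV a v x * ST (n - a) v x * φ x ^ 2
    simp only [← Finset.sum_mul]
    rw [← mul_assoc]
    exact mul_le_mul_of_nonneg_right (gg_sum n hv x) (sq_nonneg _)

/-- Mollification and weights. -/
lemma mol_wt {ρ' ρ M L ε : ℝ} {φ : V → ℝ} (hφ : Cut ρ' ρ M φ) (hL : 0 ≤ L)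
    (hlip : ∀ x y, |φ x ^ 2 - φ y ^ 2| ≤ L * ‖x - y‖) {κ : V → ℝ} (hκ : Ker ε κ) (hε : 0 < ε)
    (n : ℕ) {f : V → ℝ} (hf : ContDiff ℝ ∞ f) :
    ∫ x, SS n (cv κ f) x * φ x ^ 2
      ≤ (∫ x, SS n f x * φ x ^ 2) + L * ε * N n (ρ + ε) f := by
  have h1 := cv_wt hκ hε (SS_cont n hf) (SS_nonneg n f) (hφ.sm.continuous.pow 2)
    (fun x => sq_nonneg (φ x)) (ρ := ρ) (fun x hx => by
      show φ x ^ 2 = 0
      rw [hφ.out x hx]
      ring) hL hlip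
  refine le_trans ?_ h1
  have hφ2 : HasCompactSupport (fun x => φ x ^ 2) := by
    have := hφ.cs.comp_left (g := fun y : ℝ => y ^ 2) (by simp)
    exact this
  refine integral_mono (int_ss n (cv_smooth hκ.toKn hf.continuous) hφ.sm hφ.cs) ?_ fun x => ?_
  · exact int_cs ((cv_smooth hκ.toKn (SS_cont n hf)).continuous.mul (hφ.sm.continuous.pow 2))
      hφ2.mul_left
  · exact mul_le_mul_of_nonneg_right (cv_SS hκ n hf x) (sq_nonneg _)

lemma om_joint {H : Set ℝ} (hH : IsOpen H) {v : ℝ → V → V}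
    (hv : ∀ i, ContDiffOn ℝ ∞ (fun z : ℝ × V => v z.1 z.2 i) (H ×ˢ univ)) (i j : Fin 3) :
    ContDiffOn ℝ ∞ (fun z : ℝ × V => Om i j (v z.1) z.2) (H ×ˢ univ) := by
  unfold Om
  exact (Pool.Agent.Y8.pd_joint (F := fun t y => v t y j) hH (hv j) i).sub
    (Pool.Agent.Y8.pd_joint (F := fun t y => v t y i) hH (hv i) j)

section
variable {K M : ℝ} {H : Set ℝ} {v W : ℝ → V → V} {G k : ℝ → ℝ}

lemma WK.cv (h : WK K M H v W G k) {t : ℝ} (ht : t ∈ H) (i : Fin 3) :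
    ContDiff ℝ ∞ (fun y => v t y i) := sl (f := fun t y => v t y i) (h.smv i) ht

/-- The energy inequality for the derivatives of the mollified vorticity. -/
lemma enm (n : ℕ) {ρ ρ1 ρ1' ρ1a ρ2 M1 M2 L1 L2 ε : ℝ} {φ φ1 κ : V → ℝ} (hφ : Cut ρ ρ1 M1 φ)
    (hφ1 : Cut ρ1' ρ1a M2 φ1) (hM1 : 0 ≤ M1) (hL1 : 0 ≤ L1)
    (hlip1 : ∀ x y, |φ x ^ 2 - φ y ^ 2| ≤ L1 * ‖x - y‖) (hL2 : 0 ≤ L2)
    (hlip2 : ∀ x y, |φ1 x ^ 2 - φ1 y ^ 2| ≤ L2 * ‖x - y‖) (hε : 0 < ε) (hε1 : ε ≤ 1)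
    (h1 : ρ1 + ε ≤ ρ1') (h2 : ρ1a + ε ≤ ρ2) (h3 : ρ2 ≤ 1 / 4) (h4 : ρ1 ≤ 1 / 4)
    (h5 : ρ1a ≤ ρ2) (hκ : Ker ε κ) (hD : WK K M H v W G k) {t : ℝ} (ht : t ∈ H) :
    ∃ E' : ℝ, HasDerivAt (fun s => Ye κ n φ (v s)) E' t ∧
      E' ≤ -Ye κ (n + 1) φ (v t) + 10 * M1 * (1 + L2) * NT n ρ2 (v t)
        + 144 * 4 ^ (n + 1) * (PP n φ (v t) + L1 * ε * PP n φ1 (v t)) := by
  have hv := fun i => hD.cv ht i
  have hom : ∀ p : Fin 3 × Fin 3, ContDiff ℝ ∞ (Om p.1 p.2 (v t)) := fun p => om_sm hv p.1 p.2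
  have hj := fun p : Fin 3 × Fin 3 => om_joint hD.openH hD.smv p.1 p.2
  have hg := fun (p : Fin 3 × Fin 3) m => gg_sm hv p.1 p.2 m
  have hstep : ∀ p : Fin 3 × Fin 3, ∃ E' : ℝ,
      HasDerivAt (fun s => ∫ x, SS n (WD.cv κ (Om p.1 p.2 (v s))) x * φ x ^ 2) E' t ∧
      E' ≤ -(∫ x, SS (n + 1) (WD.cv κ (Om p.1 p.2 (v t))) x * φ x ^ 2)
        + 10 * (∫ x, SS n (WD.cv κ (Om p.1 p.2 (v t))) x * SS 1 φ x)
        + 4 * ∑ m, ∫ x, SS n (WD.cv κ (gg (v t) p.1 p.2 m)) x * φ x ^ 2 := by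
    intro p
    refine en_H (w := fun s => WD.cv κ (Om p.1 p.2 (v s)))
      (g := fun m => WD.cv κ (gg (v t) p.1 p.2 m)) n hD.openH hD.subH
      (cv_joint (f := fun s => Om p.1 p.2 (v s)) hD.openH hκ.toKn (hj p)) hφ.sm
      (fun m => cv_smooth hκ.toKn (hg p m).continuous) (ρ := ρ1) (by linarith) ht ?_ hφ.out
    intro x hx
    rw [(cv_dt (f := fun s => Om p.1 p.2 (v s)) hD.openH hκ.toKn (hj p) ht x).deriv,
      cv_lap hκ.toKn (hom p)]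
    have e1 : (fun y => deriv (fun s => Om p.1 p.2 (v s) y) t)
        = fun y => lap (Om p.1 p.2 (v t)) y + ∑ m, pd m (gg (v t) p.1 p.2 m) y := by
      funext y
      rw [gg_div hv, hD.eq t ht y p.1 p.2]
      ring
    rw [e1, cv_add hκ.toKn (lap_smooth (hom p)).continuous
      (continuous_finsetSum _ fun m _ => (sm_pd (hg p m) m).continuous),
      cv_sum3 hκ.toKn (fun m => (sm_pd (hg p m) m).continuous)]
    congr 1
    refine Finset.sum_congr rfl fun m _ => ?_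
    rw [cv_pd' hκ.toKn (hg p m)]
  choose E' hE1 hE2 using hstep
  refine ⟨∑ p, E' p, ?_, ?_⟩
  · have := HasDerivAt.fun_sum (u := Finset.univ) fun p _ => hE1 p
    exact this
  · have g0 : ∑ p, E' p ≤ ∑ p : Fin 3 × Fin 3,
        (-(∫ x, SS (n + 1) (WD.cv κ (Om p.1 p.2 (v t))) x * φ x ^ 2)
        + 10 * (∫ x, SS n (WD.cv κ (Om p.1 p.2 (v t))) x * SS 1 φ x)
        + 4 * ∑ m, ∫ x, SS n (WD.cv κ (gg (v t) p.1 p.2 m)) x * φ x ^ 2) :=
      Finset.sum_le_sum fun p _ => hE2 p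
    refine g0.trans ?_
    rw [Finset.sum_add_distrib, Finset.sum_add_distrib, Finset.sum_neg_distrib,
      ← Finset.mul_sum, ← Finset.mul_sum]
    have hρ1 : ρ1 ≤ ρ1' := by linarith
    -- the second term
    have g2 : ∑ p : Fin 3 × Fin 3, ∫ x, SS n (WD.cv κ (Om p.1 p.2 (v t))) x * SS 1 φ x
        ≤ M1 * ((1 + L2) * NT n ρ2 (v t)) := by
      unfold NT
      rw [Finset.mul_sum, Finset.mul_sum]
      refine Finset.sum_le_sum fun p _ => ?_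
      have a0 := cv_smooth hκ.toKn (hom p).continuous
      have a1 : ∫ x, SS n (WD.cv κ (Om p.1 p.2 (v t))) x * SS 1 φ x
          ≤ M1 * ∫ x, SS n (WD.cv κ (Om p.1 p.2 (v t))) x * φ1 x ^ 2 := by
        rw [← integral_const_mul]
        refine integral_mono (int_ss1 n a0 hφ.sm hφ.cs)
          ((int_ss n a0 hφ1.sm hφ1.cs).const_mul M1) fun x => ?_
        show SS n (WD.cv κ (Om p.1 p.2 (v t))) x * SS 1 φ x
          ≤ M1 * (SS n (WD.cv κ (Om p.1 p.2 (v t))) x * φ1 x ^ 2)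
        have b0 := SS_nonneg n (WD.cv κ (Om p.1 p.2 (v t))) x
        by_cases hx : x ∈ ball (0 : V) ρ1
        · have b1 := hφ.grad x
          rw [hφ1.one x (ball_subset_ball hρ1 hx)]
          nlinarith
        · rw [hφ.gout x hx]
          have : 0 ≤ SS n (WD.cv κ (Om p.1 p.2 (v t))) x * φ1 x ^ 2 :=
            mul_nonneg b0 (sq_nonneg _)
          rw [mul_zero]
          exact mul_nonneg hM1 this
      have a2 := mol_wt hφ1 hL2 hlip2 hκ hε n (hom p)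
      have a3 : ∫ x, SS n (Om p.1 p.2 (v t)) x * φ1 x ^ 2 ≤ N n ρ2 (Om p.1 p.2 (v t)) :=
        (cut_le_N n hφ1 (hom p)).trans (N_mono n h5 (hom p))
      have a4 : N n (ρ1a + ε) (Om p.1 p.2 (v t)) ≤ N n ρ2 (Om p.1 p.2 (v t)) :=
        N_mono n h2 (hom p)
      have a5 : L2 * ε * N n (ρ1a + ε) (Om p.1 p.2 (v t)) ≤ L2 * 1 * N n ρ2 (Om p.1 p.2 (v t)) := by
        apply mul_le_mul (mul_le_mul_of_nonneg_left hε1 hL2) a4 (N_nonneg _ _ _) (by linarith)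
      refine a1.trans (mul_le_mul_of_nonneg_left ?_ hM1)
      linarith
    -- the third term
    have g3 : ∑ p : Fin 3 × Fin 3, ∑ m, ∫ x, SS n (WD.cv κ (gg (v t) p.1 p.2 m)) x * φ x ^ 2
        ≤ 36 * 4 ^ (n + 1) * (PP n φ (v t) + L1 * ε * PP n φ1 (v t)) := by
      have a1 : ∀ (p : Fin 3 × Fin 3) m,
          ∫ x, SS n (WD.cv κ (gg (v t) p.1 p.2 m)) x * φ x ^ 2
          ≤ (∫ x, SS n (gg (v t) p.1 p.2 m) x * φ x ^ 2)
            + L1 * ε * ∫ x, SS n (gg (v t) p.1 p.2 m) x * φ1 x ^ 2 := by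
        intro p m
        have b1 := mol_wt hφ hL1 hlip1 hκ hε n (hg p m)
        have b2 : N n (ρ1 + ε) (gg (v t) p.1 p.2 m)
            ≤ ∫ x, SS n (gg (v t) p.1 p.2 m) x * φ1 x ^ 2 :=
          (N_mono n h1 (hg p m)).trans (N_le_cut n hφ1 (hg p m))
        have b3 := mul_le_mul_of_nonneg_left b2 (mul_nonneg hL1 hε.le)
        linarith
      have a2 : ∑ p : Fin 3 × Fin 3, ∑ m, ∫ x, SS n (WD.cv κ (gg (v t) p.1 p.2 m)) x * φ x ^ 2
          ≤ (∑ p : Fin 3 × Fin 3, ∑ m, ∫ x, SS n (gg (v t) p.1 p.2 m) x * φ x ^ 2)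
            + L1 * ε * ∑ p : Fin 3 × Fin 3, ∑ m, ∫ x, SS n (gg (v t) p.1 p.2 m) x * φ1 x ^ 2 := by
        rw [Finset.mul_sum, ← Finset.sum_add_distrib]
        refine Finset.sum_le_sum fun p _ => ?_
        rw [Finset.mul_sum, ← Finset.sum_add_distrib]
        exact Finset.sum_le_sum fun m _ => a1 p m
      have a3 := gg_int n hφ hv
      have a4 := gg_int n hφ1 hv
      have a5 := mul_le_mul_of_nonneg_left a4 (mul_nonneg hL1 hε.le)
      refine a2.trans ?_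
      nlinarith
    have h6 : (4 : ℝ) * (36 * 4 ^ (n + 1)) = 144 * 4 ^ (n + 1) := by ring
    have e7 : ∑ p : Fin 3 × Fin 3, ∫ x, SS (n + 1) (WD.cv κ (Om p.1 p.2 (v t))) x * φ x ^ 2
        = Ye κ (n + 1) φ (v t) := rfl
    rw [e7]
    nlinarith [g2, g3]

end

end Pool.Agent.Y7.WD
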