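import Pool.Agent.Y7.WFin
import Pool.Agent.Y96.NS.Scal

/-!
Suitable weak periodic solutions, all viscosities (helper7).
-/

set_option autoImplicit false
set_option linter.unusedVariables false

open MeasureTheory Set Metric Filter Topology
open scoped ContDiff ENNReal NNReal

namespace Pool.Agent.Y7

open H459R3.NS W221.NS Pool.Agent.TH305.LW Pool.Agent.TH305.DR Pool.Agent.TH305.LG
open Pool.Agent.Y8 Pool.Agent.Y7.Cov1

lemma enst_nn (v : V → V) : 0 ≤ enstrophy v := by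
  unfold enstrophy
  exact Finset.sum_nonneg fun i _ => Finset.sum_nonneg fun j _ =>
    integral_nonneg fun x => sq_nonneg _

lemma turb_enst {ν T E Q : ℝ} {G : Set ℝ} {u : ℝ → V → V} {p : ℝ → V → ℝ}
    (hN : Turb ν T E Q G u p) :
    ∫⁻ t in Ioo 0 T, ENNReal.ofReal (enstrophy (u t)) ≤ ENNReal.ofReal Q := by
  rw [setLIntegral_congr (aeG hN), ← ofReal_integral_eq_lintegral_ofReal hN.enst_int
    (Eventually.of_forall fun t => enst_nn _)]
  exact ENNReal.ofReal_le_ofReal hN.enst_le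

/-- Suitable weak periodic solutions, all viscosities. -/
theorem weakN {K : ℕ → ℝ} (hK : ∀ n, 0 < K n) {D : ℝ} (hD : 0 < D)
    (H : ∀ (T E Q : ℝ) (G : Set ℝ) (u : ℝ → V → V) (p : ℝ → V → ℝ), Turb 1 T E Q G u p →
      ∫⁻ t in Ioo 0 T, ∫⁻ y in cell, (Reg K 1 (u t) y - ENNReal.ofReal (D * (1 + 1 / t ^ 2)))
        ≤ ENNReal.ofReal D * ∫⁻ t in Ioo 0 T, ENNReal.ofReal (enstrophy (u t)))
    {ν T E Q : ℝ} {G : Set ℝ} {u : ℝ → V → V} {p : ℝ → V → ℝ} (hν : 0 < ν)
    (hS : Turb ν T E Q G u p) :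
    ∫⁻ t in Ioo 0 T, ∫⁻ x in cube, (RegI (fun n => √(3 ^ (n + 2) * K n)) ν (u t) x
        - ENNReal.ofReal (D * (1 + 1 / (ν * t) ^ 2)))
      ≤ ENNReal.ofReal (D / ν ^ 2) * ENNReal.ofReal Q := by
  have hS1 := (Pool.Agent.Y96.NS.t_WSCAL ν T E Q G u p hν hS).1
  have h1 := H (ν * T) _ _ _ _ _ hS1
  have h2 : ∫⁻ t in Ioo 0 T, ∫⁻ y in cell, (Reg K 1 (fun x => ν⁻¹ • u t x) y
      - ENNReal.ofReal (D * (1 + 1 / (ν * t) ^ 2))) ≤ ENNReal.ofReal D * ∫⁻ t in Ioo 0 T,
        ENNReal.ofReal (enstrophy (fun x => ν⁻¹ • u t x)) := by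
    refine visc hν ?_
    refine le_trans (le_of_eq ?_) h1
    refine lintegral_congr fun t => lintegral_congr fun y => ?_
    rw [mul_div_cancel₀ t hν.ne']
  calc ∫⁻ t in Ioo 0 T, ∫⁻ x in cube, (RegI (fun n => √(3 ^ (n + 2) * K n)) ν (u t) x
        - ENNReal.ofReal (D * (1 + 1 / (ν * t) ^ 2)))
      ≤ ∫⁻ t in Ioo 0 T, ∫⁻ y in cell, (Reg K 1 (fun x => ν⁻¹ • u t x) y
          - ENNReal.ofReal (D * (1 + 1 / (ν * t) ^ 2))) := by
        apply lintegral_mono_ae
        have hae : ∀ᵐ t ∂(volume.restrict (Ioo 0 T)), t ∈ G := by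
          rw [ae_restrict_iff' measurableSet_Ioo]
          have := hS.fullG
          rw [measure_eq_zero_iff_ae_notMem] at this
          filter_upwards [this] with t ht ht2
          by_contra h
          exact ht ⟨ht2, h⟩
        filter_upwards [hae] with t ht
        rw [cube_eq]
        refine lintegral_mono fun y => ?_
        exact tsub_le_tsub_right (regB hK hν (turb_cd hS ht) y) _
    _ ≤ ENNReal.ofReal D * ∫⁻ t in Ioo 0 T,
        ENNReal.ofReal (enstrophy (fun x => ν⁻¹ • u t x)) := h2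
    _ = ENNReal.ofReal D * (ENNReal.ofReal (ν⁻¹ ^ 2) *
          ∫⁻ t in Ioo 0 T, ENNReal.ofReal (enstrophy (u t))) := by
        have e3 : ∀ t, ENNReal.ofReal (enstrophy (fun x => ν⁻¹ • u t x))
            = ENNReal.ofReal (ν⁻¹ ^ 2) * ENNReal.ofReal (enstrophy (u t)) := by
          intro t
          rw [← ENNReal.ofReal_mul (by positivity), enst_smul]
        simp only [e3]
        rw [lintegral_const_mul' _ _ ENNReal.ofReal_ne_top]
    _ ≤ ENNReal.ofReal D * (ENNReal.ofReal (ν⁻¹ ^ 2) * ENNReal.ofReal Q) :=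
        mul_le_mul_right (mul_le_mul_right (turb_enst hS) _) _
    _ = ENNReal.ofReal (D / ν ^ 2) * ENNReal.ofReal Q := by
        rw [← mul_assoc, ← ENNReal.ofReal_mul hD.le]
        congr 2
        field_simp

end Pool.Agent.Y7
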