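import Pool.Agent.Y7.WEnm

/-!
The energy inequality for the derivatives of the vorticity, integrated over a time interval which
may contain singular times (helper7).
-/

set_option autoImplicit false
set_option linter.unusedVariables false

open MeasureTheory Set Metric Filter Topology
open scoped ContDiff ENNReal

namespace Pool.Agent.Y7.WD

open H459R3.NS W221.NS Pool.Agent.TH305.DR
open Pool.Agent.W583.MD (sm_pd cs_pd pd_mul' Z Z.add Z.sub Z.smul Z.sum int_cs Z_pd hcs)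
open Pool.Agent.W639.MH (int_ball)

section
variable {H : Set ℝ}

/-- Restriction to a subinterval. -/
lemma rH (hfull : volume (Ioo (-1 : ℝ) 0 \ H) = 0) {A : Set ℝ} (hA : A ⊆ Ioo (-1) 0) :
    (volume : Measure ℝ).restrict A = volume.restrict (A ∩ H) := by
  apply Measure.restrict_congr_set
  have h0 : ∀ᵐ τ ∂(volume : Measure ℝ), τ ∉ Ioo (-1 : ℝ) 0 \ H :=
    measure_eq_zero_iff_ae_notMem.1 hfull
  filter_upwards [h0] with τ h
  apply propext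
  show A τ ↔ (A ∩ H) τ
  constructor
  · intro h1
    refine ⟨h1, ?_⟩
    by_contra h2
    exact h ⟨hA h1, h2⟩
  · intro h1
    exact h1.1

lemma ae_mem (hfull : volume (Ioo (-1 : ℝ) 0 \ H) = 0) {A : Set ℝ} (hA : A ⊆ Ioo (-1) 0)
    (hAm : MeasurableSet A) : ∀ᵐ τ ∂(volume.restrict A), τ ∈ A ∧ τ ∈ H := by
  have h0 : ∀ᵐ τ ∂(volume : Measure ℝ), τ ∉ Ioo (-1 : ℝ) 0 \ H :=
    measure_eq_zero_iff_ae_notMem.1 hfull
  filter_upwards [ae_restrict_of_ae h0, ae_restrict_mem hAm] with τ h1 h2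
  refine ⟨h2, ?_⟩
  by_contra h4
  exact h1 ⟨hA h2, h4⟩

lemma aesm (hH : IsOpen H) (hfull : volume (Ioo (-1 : ℝ) 0 \ H) = 0) {A : Set ℝ}
    (hA : A ⊆ Ioo (-1) 0) {f : ℝ → ℝ} (hf : ContinuousOn f H) :
    AEStronglyMeasurable f (volume.restrict A) := by
  rw [rH hfull hA]
  exact (hf.aestronglyMeasurable hH.measurableSet).mono_measure
    (Measure.restrict_mono inter_subset_right le_rfl)

/-- Domination. -/
lemma int_le (hH : IsOpen H) (hfull : volume (Ioo (-1 : ℝ) 0 \ H) = 0) {A : Set ℝ}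
    (hA : A ⊆ Ioo (-1) 0) (hAm : MeasurableSet A) {f g : ℝ → ℝ} (hf : ContinuousOn f H)
    (hg : IntegrableOn g A) (h : ∀ τ ∈ A, τ ∈ H → |f τ| ≤ g τ) : IntegrableOn f A := by
  refine Integrable.mono' hg (aesm hH hfull hA hf) ?_
  filter_upwards [ae_mem hfull hA hAm] with τ hτ
  exact h τ hτ.1 hτ.2

lemma int_mono (hfull : volume (Ioo (-1 : ℝ) 0 \ H) = 0) {A : Set ℝ}
    (hA : A ⊆ Ioo (-1) 0) (hAm : MeasurableSet A) {f g : ℝ → ℝ} (hf : IntegrableOn f A)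
    (hg : IntegrableOn g A) (h : ∀ τ ∈ A, τ ∈ H → f τ ≤ g τ) :
    ∫ τ in A, f τ ≤ ∫ τ in A, g τ := by
  refine integral_mono_ae hf hg ?_
  filter_upwards [ae_mem hfull hA hAm] with τ hτ
  exact h τ hτ.1 hτ.2

lemma jh_ss (hH : IsOpen H) (n : ℕ) : ∀ {w : ℝ → V → ℝ},
    ContDiffOn ℝ ∞ (fun z : ℝ × V => w z.1 z.2) (H ×ˢ univ) →
      ContDiffOn ℝ ∞ (fun z : ℝ × V => SS n (w z.1) z.2) (H ×ˢ univ) := by
  induction n with
  | zero =>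
    intro w hw
    exact hw.pow 2
  | succ n ih =>
    intro w hw
    have h : ∀ i : Fin 3, ContDiffOn ℝ ∞ (fun z : ℝ × V => SS n (pd i (w z.1)) z.2)
        (H ×ˢ univ) := fun i =>
      ih (w := fun t => pd i (w t)) (Pool.Agent.Y8.pd_joint hH hw i)
    have h2 := ContDiffOn.sum (s := Finset.univ) fun i (_ : i ∈ Finset.univ) => h i
    exact h2

lemma ct_w (hH : IsOpen H) (n : ℕ) {w : ℝ → V → ℝ}
    (hw : ContDiffOn ℝ ∞ (fun z : ℝ × V => w z.1 z.2) (H ×ˢ univ)) {ρ' ρ M : ℝ} {φ : V → ℝ}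
    (hφ : Cut ρ' ρ M φ) : ContinuousOn (fun t => ∫ x, SS n (w t) x * φ x ^ 2) H := by
  have h2 : ContDiffOn ℝ ∞ (fun z : ℝ × V => φ z.2) (H ×ˢ univ) :=
    (hφ.sm.comp contDiff_snd).contDiffOn
  have hF : ContDiffOn ℝ ∞ (fun z : ℝ × V => SS n (w z.1) z.2 * φ z.2 ^ 2) (H ×ˢ univ) :=
    (jh_ss hH n hw).mul (h2.pow 2)
  intro t ht
  have hd := Pool.Agent.Y8.hd_int (F := fun s x => SS n (w s) x * φ x ^ 2) hH hF (a := 0)
    (R := ρ) (fun s _ x hx => by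
      show SS n (w s) x * φ x ^ 2 = 0
      rw [hφ.out x hx]
      ring) ht
  exact hd.continuousAt.continuousWithinAt

lemma ct_N' (hH : IsOpen H) (n : ℕ) (ρ : ℝ) {w : ℝ → V → ℝ}
    (hw : ContDiffOn ℝ ∞ (fun z : ℝ × V => w z.1 z.2) (H ×ˢ univ)) :
    ContinuousOn (fun t => N n ρ (w t)) H :=
  Pool.Agent.Y8.pint_cont hH (F := fun t x => SS n (w t) x) (jh_ss hH n hw).continuousOn 0 ρ

lemma cut_lip {ρ' ρ M : ℝ} {φ : V → ℝ} (h : Cut ρ' ρ M φ) : ∃ L : ℝ, 0 ≤ L ∧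
    ∀ x y, |φ x ^ 2 - φ y ^ 2| ≤ L * ‖x - y‖ := by
  have hs : ContDiff ℝ ∞ (fun x => φ x ^ 2) := h.sm.pow 2
  have hc : HasCompactSupport (fun x => φ x ^ 2) := by
    have := h.cs.comp_left (g := fun y : ℝ => y ^ 2) (by simp)
    exact this
  obtain ⟨L, hL⟩ := (hs.of_le (by norm_cast)).lipschitzWith_of_hasCompactSupport hc
    (n := 1) one_ne_zero
  refine ⟨L, L.2, fun x y => ?_⟩
  have := hL.dist_le_mul x y
  rwa [Real.dist_eq, dist_eq_norm] at this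

end

section
variable {K M : ℝ} {H : Set ℝ} {v W : ℝ → V → V} {G k : ℝ → ℝ}

lemma ct_YY (n : ℕ) {ρ' ρ M' : ℝ} {φ : V → ℝ} (hφ : Cut ρ' ρ M' φ) (hD : WK K M H v W G k) :
    ContinuousOn (fun t => YY n φ (v t)) H :=
  continuousOn_finsetSum _ fun p _ =>
    ct_w (w := fun t => Om p.1 p.2 (v t)) hD.openH n (om_joint hD.openH hD.smv p.1 p.2) hφ

lemma ct_Ye (n : ℕ) {ρ' ρ M' ε : ℝ} {φ κ : V → ℝ} (hφ : Cut ρ' ρ M' φ) (hκ : Kn ε κ)
    (hD : WK K M H v W G k) : ContinuousOn (fun t => Ye κ n φ (v t)) H :=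
  continuousOn_finsetSum _ fun p _ =>
    ct_w (w := fun t => WD.cv κ (Om p.1 p.2 (v t))) hD.openH n
      (cv_joint (f := fun t => Om p.1 p.2 (v t)) hD.openH hκ
        (om_joint hD.openH hD.smv p.1 p.2)) hφ

lemma ct_NT' (n : ℕ) (ρ : ℝ) (hD : WK K M H v W G k) :
    ContinuousOn (fun t => NT n ρ (v t)) H :=
  continuousOn_finsetSum _ fun p _ =>
    ct_N' (w := fun t => Om p.1 p.2 (v t)) hD.openH n ρ (om_joint hD.openH hD.smv p.1 p.2)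

/-- The weighted sum is bounded with an integrable modulus of continuity. -/
lemma Ye_mod (n : ℕ) {ρ' ρ M' ε : ℝ} {φ κ : V → ℝ} (hφ : Cut ρ' ρ M' φ) (hρ : ρ ≤ 1)
    (hε : ε ≤ 1) (hκ : Kn ε κ) (hD : WK K M H v W G k) : ∃ B : ℝ, 0 ≤ B ∧
      (∀ t ∈ H, |Ye κ n φ (v t)| ≤ B) ∧ ∀ s ∈ H, ∀ t ∈ H, s ≤ t →
        |Ye κ n φ (v t) - Ye κ n φ (v s)| ≤ B * ∫ τ in Ioo s t, k τ := by
  have h1 : ∀ p : Fin 3 × Fin 3, ∃ B : ℝ, 0 ≤ B ∧
      (∀ t ∈ H, |∫ x, SS n (WD.cv κ (Om p.1 p.2 (v t))) x * φ x ^ 2| ≤ B) ∧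
        ∀ s ∈ H, ∀ t ∈ H, s ≤ t →
        |(∫ x, SS n (WD.cv κ (Om p.1 p.2 (v t))) x * φ x ^ 2)
          - ∫ x, SS n (WD.cv κ (Om p.1 p.2 (v s))) x * φ x ^ 2| ≤ B * ∫ τ in Ioo s t, k τ := by
    intro p
    have h2 := md_SS (ε := ε) hD.knn (v := v) (fun t ht i => hD.cv ht i)
      (fun κ hκ i => hD.md ε κ hε hκ i) p n κ hκ
    exact h2.int hD.knn (fun t ht => SS_cont n (cv_smooth hκ
      (om_sm (fun i => hD.cv ht i) p.1 p.2).continuous)) (ψ := fun x => φ x ^ 2)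
      (hφ.sm.continuous.pow 2) (fun x => sq_nonneg _)
      (fun x hx => by
        show φ x ^ 2 = 0
        rw [hφ.out x fun h' => hx (ball_subset_ball hρ h')]
        ring)
  choose B hB h2 h3 using h1
  refine ⟨∑ p, B p, Finset.sum_nonneg fun p _ => hB p, fun t ht => ?_, fun s hs t ht hst => ?_⟩
  · exact (Finset.abs_sum_le_sum_abs _ _).trans (Finset.sum_le_sum fun p _ => h2 p t ht)
  · unfold Ye
    rw [← Finset.sum_sub_distrib, Finset.sum_mul]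
    exact (Finset.abs_sum_le_sum_abs _ _).trans
      (Finset.sum_le_sum fun p _ => h3 p s hs t ht hst)

lemma YY_le_NT (n : ℕ) {ρ' ρ ρ2 M' : ℝ} {φ : V → ℝ} (hφ : Cut ρ' ρ M' φ) (hρ : ρ ≤ ρ2)
    {v : V → V} (hv : ∀ i, ContDiff ℝ ∞ (fun y => v y i)) : YY n φ v ≤ NT n ρ2 v :=
  Finset.sum_le_sum fun p _ => (cut_le_N n hφ (om_sm hv p.1 p.2)).trans
    (N_mono n hρ (om_sm hv p.1 p.2))

lemma NT_le_YY (n : ℕ) {ρ' ρ M' : ℝ} {φ : V → ℝ} (hφ : Cut ρ' ρ M' φ)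
    {v : V → V} (hv : ∀ i, ContDiff ℝ ∞ (fun y => v y i)) : NT n ρ' v ≤ YY n φ v :=
  Finset.sum_le_sum fun p _ => N_le_cut n hφ (om_sm hv p.1 p.2)

lemma Ye_lim {κ : ℕ → V → ℝ} {ε : ℕ → ℝ} (hε : Tendsto ε atTop (𝓝 0)) (hε1 : ∀ j, ε j ≤ 1)
    (h : ∀ j, Ker (ε j) (κ j)) (n : ℕ) {ρ' ρ M' : ℝ} {φ : V → ℝ} (hφ : Cut ρ' ρ M' φ)
    {v : V → V} (hv : ∀ i, ContDiff ℝ ∞ (fun y => v y i)) :
    Tendsto (fun j => Ye (κ j) n φ v) atTop (𝓝 (YY n φ v)) :=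
  tendsto_finsetSum _ fun p _ => cv_int_lim hε hε1 h n (om_sm hv p.1 p.2)
    (hφ.sm.continuous.pow 2) (fun x => sq_nonneg _) (ρ := ρ) (fun x hx => by
      show φ x ^ 2 = 0
      rw [hφ.out x hx]
      ring)

end

end Pool.Agent.Y7.WD
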