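import Pool.Agent.Y7.WLagS

/-!
The particle paths of suitable weak periodic solutions, all viscosities (helper7).
-/

set_option autoImplicit false
set_option linter.unusedVariables false

open MeasureTheory Set Metric Filter Topology
open scoped ContDiff ENNReal NNReal

namespace Pool.Agent.Y7

open H459R3.NS W221.NS Pool.Agent.TH305.LW Pool.Agent.TH305.DR Pool.Agent.TH305.LG
open Pool.Agent.Y8

/-- Change of the viscosity for the paths. -/
lemma pathW_visc {ν : ℝ} (hν : 0 < ν) {T : ℝ} {G : Set ℝ} {u : ℝ → V → V} {ξ : ℝ → V}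
    (h : PathW (ν * T) {t | t / ν ∈ G} (fun t x => ν⁻¹ • u (t / ν) x) ξ) :
    PathW T G u (fun t => ξ (ν * t)) := by
  obtain ⟨ξ', h1, h2, h3⟩ := h
  have hm : ∀ t ∈ Ioo 0 T, ν * t ∈ Ioo 0 (ν * T) := fun t ht =>
    ⟨mul_pos hν ht.1, mul_lt_mul_of_pos_left ht.2 hν⟩
  refine ⟨fun t => ν • ξ' (ν * t), ?_, ?_, ?_⟩
  · exact (h1.comp (f := fun t : ℝ => ν * t) (by fun_prop) hm).const_smul ν
  · intro t ht
    have h4 := (h2 (ν * t) (hm t ht)).scomp t ((hasDerivAt_id t).const_mul ν)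
    simp only [mul_one] at h4
    exact h4
  · intro t ht
    have h4 := h3 (ν * t) (show ν * t / ν ∈ G by rwa [mul_div_cancel_left₀ _ hν.ne'])
    simp only at h4 ⊢
    rw [h4, mul_div_cancel_left₀ _ hν.ne', smul_smul, mul_inv_cancel₀ hν.ne', one_smul]

/-- Change of the viscosity for the paths, in the other direction. -/
lemma pathW_visc' {ν : ℝ} (hν : 0 < ν) {T : ℝ} {G : Set ℝ} {u : ℝ → V → V} {ξ : ℝ → V}
    (h : PathW T G u ξ) :
    PathW (ν * T) {t | t / ν ∈ G} (fun t x => ν⁻¹ • u (t / ν) x) (fun t => ξ (t / ν)) := by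
  obtain ⟨ξ', h1, h2, h3⟩ := h
  have hm : ∀ t ∈ Ioo 0 (ν * T), t / ν ∈ Ioo 0 T := fun t ht =>
    ⟨div_pos ht.1 hν, by rw [div_lt_iff₀ hν, mul_comm]; exact ht.2⟩
  refine ⟨fun t => ν⁻¹ • ξ' (t / ν), ?_, ?_, ?_⟩
  · exact (h1.comp (f := fun t : ℝ => t / ν) (by fun_prop) hm).const_smul ν⁻¹
  · intro t ht
    have h4 := (h2 (t / ν) (hm t ht)).scomp t ((hasDerivAt_id t).div_const ν)
    rw [one_div] at h4
    exact h4
  · intro t ht
    have h4 := h3 (t / ν) ht
    simp only at h4 ⊢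
    rw [h4]

lemma cell_vol : volume (cell : Set V) = 1 := by
  have h1 := cube_eq (fun _ => 1)
  rw [lintegral_one, lintegral_one, Measure.restrict_apply_univ, Measure.restrict_apply_univ,
    cube_vol] at h1
  exact h1.symm

lemma cube_cell : ∀ᵐ a : V, a ∈ cube ↔ a ∈ cell := by
  have hcc : (cell : Set V) ⊆ cube := fun x hx => by
    rw [mem_cell] at hx
    exact ⟨fun i => (hx i).1, fun i => (hx i).2.le⟩
  have h1 : volume ((cube : Set V) \ cell) = 0 := by
    rw [measure_diff hcc meas_cell.nullMeasurableSet (by rw [cell_vol]; exact ENNReal.one_ne_top),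
      cube_vol, cell_vol, tsub_self]
  have h2 := measure_eq_zero_iff_ae_notMem.1 h1
  filter_upwards [h2] with a ha
  exact ⟨fun h => by_contra fun hn => ha ⟨h, hn⟩, fun h => hcc h⟩

/-- The particle paths, all viscosities. -/
theorem wlagN (H : S_WLAG) : ∃ (C : ℝ) (K : ℕ → ℝ), 0 < C ∧ (∀ n, 0 < K n) ∧
    ∀ (ν T E D : ℝ) (G : Set ℝ) (u : ℝ → V → V) (p : ℝ → V → ℝ), 0 < ν → Turb ν T E D G u p →
    ∀ t₀ ∈ Ioo 0 T, ∃ X : ℝ → V → V, (∀ a, X t₀ a = a) ∧
      (∀ t ∈ Ioo 0 T, Measurable (X t) ∧ Measure.map (X t) volume = volume ∧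
        ∀ (a : V) (n : K3), X t (a - iv n) = X t a - iv n) ∧
      (∀ᵐ a, PathW T G u (fun t => X t a) ∧
        ∀ ξ : ℝ → V, PathW T G u ξ → ξ t₀ = a → ∀ t ∈ Ioo 0 T, ξ t = X t a) ∧
      ∫⁻ a in cube, ⨆ t ∈ G, (invSc 2 0 K ν (vort (u t)) (X t a)
          - ENNReal.ofReal (C * (1 + 1 / (ν * t)))) ≤ ENNReal.ofReal (C / ν * D) ∧
      (∀ (n : ℕ) (t₁ : ℝ), 0 < t₁ →
        ∫⁻ a in cube, ⨆ t ∈ G ∩ Ici t₁, ENNReal.ofReal
            (‖iteratedFDeriv ℝ n (vort (u t)) (X t a)‖ ^ (2 / (n + 2) : ℝ))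
          ≤ ENNReal.ofReal (C * (K n * ν) ^ (2 / (n + 2) : ℝ) * (D / ν + 1 + 1 / (ν * t₁)))) ∧
      ∀ t₁ r : ℝ, 0 < t₁ → 0 < r →
        volume {a ∈ cube | ∃ t ∈ Ioo t₁ T, ∃ x, SingPt G u t x ∧ ‖X t a - x‖ < r}
          ≤ ENNReal.ofReal (C * r ^ 2 * (D / ν + 1 + 1 / (ν * t₁))) := by
  obtain ⟨C, K, hC, hK, H⟩ := H
  obtain ⟨K', hK'⟩ : ∃ K' : ℕ → ℝ, K' = fun n => √(9 * 3 ^ n * K n) := ⟨_, rfl⟩
  have hK'0 : ∀ n, 0 < K' n := fun n => by
    rw [hK']
    have := hK n
    positivity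
  refine ⟨16 * C + 16, K', by positivity, hK'0, ?_⟩
  intro ν T E D G u p hν hN t₀ ht₀
  have hT : 0 < T := ht₀.1.trans ht₀.2
  have hD0 : 0 ≤ D := (setIntegral_nonneg hN.openG.measurableSet fun t _ => enst_nn _).trans
    hN.enst_le
  obtain ⟨hS1, hS2⟩ := Pool.Agent.Y96.NS.t_WSCAL ν T E D G u p hν hN
  have hm : ∀ t ∈ Ioo 0 T, ν * t ∈ Ioo 0 (ν * T) := fun t ht =>
    ⟨mul_pos hν ht.1, mul_lt_mul_of_pos_left ht.2 hν⟩
  obtain ⟨X, W, hX0, hX1, hX2, hWm, hW, hR⟩ := H (ν * T) (E / ν) (D / ν) _ _ _ hS1 (ν * t₀)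
    (hm t₀ ht₀)
  have hW' : ∫⁻ a in cell, W a ≤ ENNReal.ofReal (C / ν * D) := by
    refine hW.trans ?_
    have h1 := turb_enst hS1
    refine (mul_le_mul_right h1 _).trans (le_of_eq ?_)
    rw [← ENNReal.ofReal_mul hC.le]
    congr 1
    ring
  -- the regularity scale
  have hR' : ∀ᵐ a, ∀ t ∈ G, invSc 2 0 K' ν (vort (u t)) (X (ν * t) a)
      ≤ W a + ENNReal.ofReal (C * (1 + 1 / (ν * t))) := by
    filter_upwards [hR] with a ha t ht
    have h1 := ha (ν * t) (show ν * t / ν ∈ G by rwa [mul_div_cancel_left₀ _ hν.ne'])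
    refine le_trans ?_ h1
    rw [mul_div_cancel_left₀ _ hν.ne', hK']
    exact regW_inv hK hν (turb_cd hN ht) _
  refine ⟨fun t => X (ν * t), fun a => hX0 a, fun t ht => hX1 (ν * t) (hm t ht), ?_, ?_, ?_, ?_⟩
  · filter_upwards [hX2] with a ha
    refine ⟨pathW_visc hν ha.1, fun ξ hξ hξ0 t ht => ?_⟩
    have h1 := ha.2 (fun t => ξ (t / ν)) (pathW_visc' hν hξ) (by
      rw [mul_div_cancel_left₀ _ hν.ne', hξ0]) (ν * t) (hm t ht)
    rw [mul_div_cancel_left₀ _ hν.ne'] at h1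
    exact h1
  · rw [cube_eq]
    calc ∫⁻ a in cell, ⨆ t ∈ G, (invSc 2 0 K' ν (vort (u t)) (X (ν * t) a)
          - ENNReal.ofReal ((16 * C + 16) * (1 + 1 / (ν * t)))) ≤ ∫⁻ a in cell, W a := by
          apply lintegral_mono_ae
          filter_upwards [ae_restrict_of_ae hR'] with a ha
          refine iSup₂_le fun t ht => ?_
          rw [tsub_le_iff_right]
          refine (ha t ht).trans ?_
          gcongr
          · have : 0 < ν * t := mul_pos hν (hN.subG ht).1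
            positivity
          · linarith
      _ ≤ ENNReal.ofReal (C / ν * D) := hW'
      _ ≤ ENNReal.ofReal ((16 * C + 16) / ν * D) := by
          apply ENNReal.ofReal_le_ofReal
          gcongr
          linarith
  · intro n t₁ ht₁
    rw [cube_eq]
    have hKn := hK'0 n
    have hKν : 0 ≤ (K' n * ν) ^ (2 / (n + 2) : ℝ) :=
      Real.rpow_nonneg (mul_nonneg hKn.le hν.le) _
    calc ∫⁻ a in cell, ⨆ t ∈ G ∩ Ici t₁, ENNReal.ofReal
            (‖iteratedFDeriv ℝ n (vort (u t)) (X (ν * t) a)‖ ^ (2 / (n + 2) : ℝ))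
        ≤ ∫⁻ a in cell, ENNReal.ofReal ((K' n * ν) ^ (2 / (n + 2) : ℝ)) *
            (W a + ENNReal.ofReal (C * (1 + 1 / (ν * t₁)))) := by
          apply lintegral_mono_ae
          filter_upwards [ae_restrict_of_ae hR'] with a ha
          refine iSup₂_le fun t ht => ?_
          have h2 := der_gen (m := 2) (j := 0) hν (vort (u t)) (X (ν * t) a) n hKn
          rw [add_zero] at h2
          push_cast at h2
          refine h2.trans (mul_le_mul_right ((ha t ht.1).trans ?_) _)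
          refine add_le_add le_rfl (ENNReal.ofReal_le_ofReal ?_)
          have : t₁ ≤ t := ht.2
          gcongr
      _ = ENNReal.ofReal ((K' n * ν) ^ (2 / (n + 2) : ℝ)) *
            ((∫⁻ a in cell, W a) + ENNReal.ofReal (C * (1 + 1 / (ν * t₁)))) := by
          rw [lintegral_const_mul' _ _ ENNReal.ofReal_ne_top,
            lintegral_add_right _ measurable_const, lintegral_const, Measure.restrict_apply_univ,
            cell_vol, mul_one]
      _ ≤ ENNReal.ofReal ((K' n * ν) ^ (2 / (n + 2) : ℝ)) *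
            (ENNReal.ofReal (C / ν * D) + ENNReal.ofReal (C * (1 + 1 / (ν * t₁)))) :=
          mul_le_mul_right (add_le_add_left hW' _) _
      _ ≤ ENNReal.ofReal ((16 * C + 16) * (K' n * ν) ^ (2 / (n + 2) : ℝ) *
            (D / ν + 1 + 1 / (ν * t₁))) := by
          rw [← ENNReal.ofReal_add (by positivity) (by positivity), ← ENNReal.ofReal_mul hKν]
          apply ENNReal.ofReal_le_ofReal
          have e1 : (16 * C + 16) * (K' n * ν) ^ (2 / (n + 2) : ℝ) * (D / ν + 1 + 1 / (ν * t₁))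
              = (K' n * ν) ^ (2 / (n + 2) : ℝ) * ((16 * C + 16) * (D / ν + 1 + 1 / (ν * t₁))) := by
            ring
          rw [e1]
          apply mul_le_mul_of_nonneg_left _ hKν
          have e2 : 0 ≤ D / ν + 1 + 1 / (ν * t₁) := by positivity
          calc C / ν * D + C * (1 + 1 / (ν * t₁)) = C * (D / ν + 1 + 1 / (ν * t₁)) := by ring
            _ ≤ (16 * C + 16) * (D / ν + 1 + 1 / (ν * t₁)) := by
                apply mul_le_mul_of_nonneg_right _ e2
                linarith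
  · intro t₁ r ht₁ hr
    have h1 := sing_meas hS1 hC hWm hW' (hX2.mono fun a ha => ?_) hR (t₁ := ν * t₁) (mul_pos hν ht₁)
      hr
    · calc volume {a ∈ cube | ∃ t ∈ Ioo t₁ T, ∃ x, SingPt G u t x ∧ ‖X (ν * t) a - x‖ < r}
          ≤ volume {a ∈ cell | ∃ t ∈ Ioo (ν * t₁) (ν * T), ∃ x,
              SingPt {t | t / ν ∈ G} (fun t x => ν⁻¹ • u (t / ν) x) t x ∧ ‖X t a - x‖ < r} := by
            apply measure_mono_ae
            filter_upwards [cube_cell] with a ha h2
            obtain ⟨h3, t, ht, x, hS, hx⟩ := h2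
            refine ⟨ha.mp h3, ν * t, ⟨mul_lt_mul_of_pos_left ht.1 hν,
              mul_lt_mul_of_pos_left ht.2 hν⟩, x, hS2 t x hS, hx⟩
        _ ≤ _ := h1
        _ ≤ _ := by
            rw [← ENNReal.ofReal_add (by positivity) (by positivity), ← ENNReal.ofReal_one,
              ← ENNReal.ofReal_add (by positivity) (by norm_num),
              ← ENNReal.ofReal_mul (by positivity)]
            apply ENNReal.ofReal_le_ofReal
            have e2 : 0 ≤ D / ν + 1 / (ν * t₁) := by positivity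
            have e3 : 0 ≤ r ^ 2 := sq_nonneg r
            calc 16 * r ^ 2 * (C / ν * D + C * (1 + 1 / (ν * t₁)) + 1)
                = r ^ 2 * (16 * C * (D / ν + 1 + 1 / (ν * t₁)) + 16) := by ring
              _ ≤ r ^ 2 * ((16 * C + 16) * (D / ν + 1 + 1 / (ν * t₁))) := by
                  apply mul_le_mul_of_nonneg_left _ e3
                  nlinarith
              _ = (16 * C + 16) * r ^ 2 * (D / ν + 1 + 1 / (ν * t₁)) := by ring
    · obtain ⟨ξ', -, h2, -⟩ := ha.1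
      exact fun t ht => (h2 t ht).continuousAt.continuousWithinAt

end Pool.Agent.Y7
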