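import Pool.Agent.Y7.WClose
import Pool.Agent.Y7.WDer
import Pool.Agent.Y7.Loc7

/-!
Little oscillation along a path bounds all derivatives around it: weak solutions (helper7).
-/

set_option autoImplicit false
set_option linter.unusedVariables false

open MeasureTheory Set Metric Filter Topology
open scoped ContDiff ENNReal NNReal

namespace Pool.Agent.Y7

open H459R3.NS W221.NS Pool.Agent.TH305.LW Pool.Agent.TH305.DR Pool.Agent.Y8 WD

/-! ### Change of variables in time -/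

lemma tcov {F : ℝ → ℝ} {s c p q : ℝ} (hc : 0 < c) :
    (IntegrableOn (fun t => F (s + c * t)) (Ioo p q) ↔
      IntegrableOn F (Ioo (s + c * p) (s + c * q))) ∧
    ∫ t in Ioo p q, F (s + c * t) = c⁻¹ * ∫ τ in Ioo (s + c * p) (s + c * q), F τ := by
  obtain ⟨e, he⟩ : ∃ e : ℝ ≃ₜ ℝ, ∀ t, e t = s + c * t :=
    ⟨(Homeomorph.mulLeft₀ c hc.ne').trans (Homeomorph.addLeft s), fun t => rfl⟩
  have hme : MeasurableEmbedding e := e.measurableEmbedding
  have hpre : e ⁻¹' Ioo (s + c * p) (s + c * q) = Ioo p q := by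
    ext t
    simp only [mem_preimage, he, mem_Ioo]
    constructor
    · rintro ⟨h1, h2⟩
      constructor <;> nlinarith
    · rintro ⟨h1, h2⟩
      constructor <;> nlinarith
  have hmap : Measure.map e volume = ENNReal.ofReal (c⁻¹) • (volume : Measure ℝ) := by
    have h1 : (e : ℝ → ℝ) = (fun y => s + y) ∘ (fun t => c * t) := by
      funext t
      rw [he]
      rfl
    rw [h1, ← Measure.map_map (by fun_prop) (by fun_prop), Real.map_volume_mul_left hc.ne',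
      abs_of_pos (inv_pos.2 hc), Measure.map_smul, map_add_left_eq_self]
  have h0 : ENNReal.ofReal (c⁻¹) ≠ 0 := by
    rw [Ne, ENNReal.ofReal_eq_zero, not_le]
    exact inv_pos.2 hc
  have hF : (fun t => F (s + c * t)) = F ∘ e := by
    funext t
    show _ = F (e t)
    rw [he]
  constructor
  · rw [hF, ← hpre, ← hme.integrableOn_map_iff, hmap]
    unfold IntegrableOn
    rw [Measure.restrict_smul]
    exact ⟨fun h => (integrable_smul_measure h0 ENNReal.ofReal_ne_top).1 h,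
      fun h => h.smul_measure ENNReal.ofReal_ne_top⟩
  · rw [hF, ← hpre]
    have h1 := hme.setIntegral_map (μ := volume) F (Ioo (s + c * p) (s + c * q))
    rw [hmap, Measure.restrict_smul, integral_smul_measure,
      ENNReal.toReal_ofReal (inv_pos.2 hc).le, smul_eq_mul] at h1
    exact h1.symm

/-- The set of the regular times in the frame. -/
def HH (r s : ℝ) (G : Set ℝ) : Set ℝ := {t | t ∈ Ioo (-1 : ℝ) 0 ∧ s + r ^ 2 * t ∈ G}

section
variable {T E D : ℝ} {G : Set ℝ} {u : ℝ → V → V} {p : ℝ → V → ℝ}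

lemma turb_frv (h : Turb 1 T E D G u p) {r s B C : ℝ} {X Y : ℝ → V}
    (hP : FPath T r B C G u p X Y) {t : ℝ} (ht : s + r ^ 2 * t ∈ G) :
    frv r s X u t = fr r (u (s + r ^ 2 * t)) (X (s + r ^ 2 * t)) := by
  apply frv_fr
  exact hP.evD h ht

/-- The dissipation in the frame. -/
lemma wmass (h : Turb 1 T E D G u p) {r s : ℝ} (hr : 0 < r) (hrs : r ^ 2 < s) (hsT : s < T)
    (X : ℝ → V) (R : ℝ) {p₁ q₁ : ℝ} (hp : -1 ≤ p₁) (hq : q₁ ≤ 0) :
    (IntegrableOn (fun t => B2 0 R (frv r s X u t)) (Ioo p₁ q₁) ↔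
      IntegrableOn (fun τ => B2 (X τ) (r * R) (u τ)) (Ioo (s + r ^ 2 * p₁) (s + r ^ 2 * q₁))) ∧
    ∫ t in Ioo p₁ q₁, B2 0 R (frv r s X u t)
      = r⁻¹ * ∫ τ in Ioo (s + r ^ 2 * p₁) (s + r ^ 2 * q₁), B2 (X τ) (r * R) (u τ) := by
  have hr2 : 0 < r ^ 2 := by positivity
  have hae : ∀ᵐ t ∂(volume.restrict (Ioo p₁ q₁)), B2 0 R (frv r s X u t)
      = r * B2 (X (s + r ^ 2 * t)) (r * R) (u (s + r ^ 2 * t)) := by
    have h1 : ∀ᵐ t ∂(volume.restrict (Ioo p₁ q₁)), s + r ^ 2 * t ∈ G := by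
      have h2 : ∀ᵐ τ ∂(volume : Measure ℝ), τ ∉ Ioo 0 T \ G :=
        measure_eq_zero_iff_ae_notMem.1 h.fullG
      have h3 : ∀ᵐ t ∂(volume : Measure ℝ), s + r ^ 2 * t ∉ Ioo 0 T \ G := by
        have hq : Measure.QuasiMeasurePreserving (fun t : ℝ => s + r ^ 2 * t) volume volume := by
          have e1 : (fun t : ℝ => s + r ^ 2 * t) = (fun y => s + y) ∘ (fun t => r ^ 2 * t) := rfl
          rw [e1]
          refine (measurePreserving_add_left volume s).quasiMeasurePreserving.comp ?_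
          refine ⟨by fun_prop, ?_⟩
          rw [Real.map_volume_mul_left hr2.ne']
          exact Measure.smul_absolutelyContinuous
        exact hq.ae h2
      filter_upwards [ae_restrict_of_ae h3, ae_restrict_mem measurableSet_Ioo] with t h4 h5
      by_contra h6
      refine h4 ⟨⟨by nlinarith [h5.1], by nlinarith [h5.2]⟩, h6⟩
    filter_upwards [h1] with t ht
    have := B2_frv_a (X := X) (R := R) hr 0 (h.spv ht).1
    simp only [smul_zero, add_zero] at this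
    exact this
  have h1 := tcov (F := fun τ => r * B2 (X τ) (r * R) (u τ)) (s := s) (p := p₁) (q := q₁) hr2
  constructor
  · have hc1 : IntegrableOn (fun t => B2 0 R (frv r s X u t)) (Ioo p₁ q₁) volume ↔
        IntegrableOn (fun t => r * B2 (X (s + r ^ 2 * t)) (r * R) (u (s + r ^ 2 * t)))
          (Ioo p₁ q₁) volume := integrable_congr hae
    rw [hc1, h1.1]
    constructor
    · intro h2
      have h3 := h2.const_mul r⁻¹
      refine h3.congr (Eventually.of_forall fun τ => ?_)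
      show r⁻¹ * (r * B2 (X τ) (r * R) (u τ)) = B2 (X τ) (r * R) (u τ)
      field_simp
    · intro h2
      exact h2.const_mul r
  · rw [integral_congr_ae hae, h1.2, integral_const_mul]
    field_simp

/-- Little oscillation implies little dissipation. -/
theorem wsmall (hE4 : S_WEN4) : ∃ C : ℝ, 0 < C ∧ ∀ (T E D : ℝ) (G : Set ℝ) (u : ℝ → V → V)
    (p : ℝ → V → ℝ), Turb 1 T E D G u p →
    ∀ R₀ : ℝ, 0 < R₀ → ∀ (m : ℕ) (s : ℝ), sc R₀ m ^ 2 < s → s < T → ∀ ξ : ℝ → V,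
      ∀ (Y Y' : ℝ → V) (B' C' : ℝ), FPath T (sc R₀ m) B' C' G u p Y Y' →
      (∀ τ ∈ Ioo (s - sc R₀ m ^ 2) s, ‖ξ τ - Y τ‖ ≤ sc R₀ m) → ∀ η : ℝ, 0 < η → C * η ≤ 1 →
      ∫⁻ τ in Ioo (s - sc R₀ m ^ 2) s, Fx R₀ (u τ) (ξ τ) ≤ ENNReal.ofReal (η / sc R₀ m ^ 2) →
      IntegrableOn (fun τ => B2 (Y τ) (sc R₀ m * (3 / 4)) (u τ))
        (Ioo (s - 9 / 16 * sc R₀ m ^ 2) s) ∧
      ∫ τ in Ioo (s - 9 / 16 * sc R₀ m ^ 2) s, B2 (Y τ) (sc R₀ m * (3 / 4)) (u τ)
        ≤ C * η * sc R₀ m := by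
  obtain ⟨K, hK, hosc⟩ := osc
  obtain ⟨k, hk⟩ : ∃ k, k = K.toReal := ⟨_, rfl⟩
  have hk0 : 0 ≤ k := by rw [hk]; exact ENNReal.toReal_nonneg
  have hKk : K = ENNReal.ofReal k := by rw [hk, ENNReal.ofReal_toReal hK]
  obtain ⟨C, hC, hen⟩ := hE4
  refine ⟨C * (k + 1), by positivity, ?_⟩
  intro T E D G u p hN R₀ hR₀ m s hrs hsT ξ Y Y' B' C' hY hcl η hη hCη hI
  have hr := sc_pos hR₀ m
  obtain ⟨r, hrd⟩ : ∃ r, r = sc R₀ m := ⟨_, rfl⟩
  have hosc' := hosc R₀ hR₀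
  simp only [← hrd] at hr hrs hY hcl hI ⊢
  have hr2 : 0 < r ^ 2 := by positivity
  have hα : 0 < s - r ^ 2 := by linarith
  obtain ⟨kf, hL⟩ := Pool.Agent.Y8.B.p_wfr2 T E D G u p hN r s hr hrs hsT Y Y' B' C' hY
  have hτ : ∀ t ∈ Ioo (-1 : ℝ) 0, s + r ^ 2 * t ∈ Ioo (s - r ^ 2) s := fun t ht =>
    ⟨by nlinarith [ht.1], by nlinarith [ht.2]⟩
  have hv : ∀ t ∈ HH r s G, frv r s Y u t = fr r (u (s + r ^ 2 * t)) (Y (s + r ^ 2 * t)) :=
    fun t ht => turb_frv hN hY ht.2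
  have hpt : ∀ t ∈ HH r s G, ENNReal.ofReal (√(L4 0 4 (frv r s Y u t)))
      ≤ ENNReal.ofReal (k * r ^ 4) * Fx R₀ (u (s + r ^ 2 * t)) (ξ (s + r ^ 2 * t)) := by
    intro t ht
    have h1 := hosc' (u (s + r ^ 2 * t)) (hN.spv ht.2).1 m
      (ξ (s + r ^ 2 * t)) (Y (s + r ^ 2 * t)) (by
        rw [norm_sub_rev, ← hrd]
        exact hcl _ (hτ t ht.1))
    rw [← hrd, hKk, ← mul_assoc, ← ENNReal.ofReal_mul hk0] at h1
    rw [hv t ht]
    exact h1
  have hlint : ∫⁻ t in Ioo (-1 : ℝ) 0, ENNReal.ofReal (√(L4 0 4 (frv r s Y u t)))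
      ≤ ENNReal.ofReal (k * η) := by
    have hae : ∫⁻ t in Ioo (-1 : ℝ) 0, ENNReal.ofReal (√(L4 0 4 (frv r s Y u t)))
        ≤ ∫⁻ t in Ioo (-1 : ℝ) 0, ENNReal.ofReal (k * r ^ 4)
          * Fx R₀ (u (s + r ^ 2 * t)) (ξ (s + r ^ 2 * t)) := by
      apply lintegral_mono_ae
      filter_upwards [ae_mem hL.fullH subset_rfl measurableSet_Ioo] with t ht
      exact hpt t ht.2
    refine hae.trans ?_
    rw [lintegral_const_mul' _ _ ENNReal.ofReal_ne_top,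
      aff (fun τ => Fx R₀ (u τ) (ξ τ)) hr2]
    have e1 : s + r ^ 2 * (-1) = s - r ^ 2 := by ring
    have e2 : s + r ^ 2 * 0 = s := by ring
    rw [e1, e2]
    refine (mul_le_mul_right (mul_le_mul_right hI _) _).trans ?_
    rw [← ENNReal.ofReal_mul (by positivity), ← ENNReal.ofReal_mul (by positivity)]
    apply ENNReal.ofReal_le_ofReal
    apply le_of_eq
    field_simp
  have hcont : ContinuousOn (fun t => √(L4 0 4 (frv r s Y u t))) (HH r s G) := by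
    apply Real.continuous_sqrt.comp_continuousOn
    unfold L4
    have h2 := nsq_joint hL.smooth_v
    exact pint_cont (F := fun t z => nsq (frv r s Y u t) z ^ 2) hL.openH
      (h2.continuousOn.pow 2) 0 4
  have hint : IntegrableOn (fun t => √(L4 0 4 (frv r s Y u t))) (Ioo (-1) 0) := by
    refine ⟨aesm hL.openH hL.fullH subset_rfl hcont, ?_⟩
    rw [hasFiniteIntegral_iff_ofReal (Eventually.of_forall fun t => Real.sqrt_nonneg _)]
    exact hlint.trans_lt ENNReal.ofReal_lt_top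
  have hle : ∫ t in Ioo (-1 : ℝ) 0, √(L4 0 4 (frv r s Y u t)) ≤ (k + 1) * η := by
    have h1 : ∫ t in Ioo (-1 : ℝ) 0, √(L4 0 4 (frv r s Y u t)) ≤ k * η := by
      rw [← ENNReal.ofReal_le_ofReal_iff (by positivity),
        ofReal_integral_eq_lintegral_ofReal hint (Eventually.of_forall fun t => Real.sqrt_nonneg _)]
      exact hlint
    linarith
  obtain ⟨g1, g2⟩ := hen _ _ _ _ hL ((k + 1) * η) (by positivity) (by linarith) hint hle
  obtain ⟨w1, w2⟩ := wmass hN hr hrs hsT Y (3 / 4) (p₁ := -9 / 16) (q₁ := 0) (by norm_num) le_rfl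
  have e1 : s + r ^ 2 * (-9 / 16) = s - 9 / 16 * r ^ 2 := by ring
  have e2 : s + r ^ 2 * 0 = s := by ring
  rw [e1, e2] at w1 w2
  refine ⟨w1.1 g1, ?_⟩
  rw [w2, inv_mul_le_iff₀ hr] at g2
  refine g2.trans (le_of_eq ?_)
  ring

/-! ### Joint measurability -/

/-- The function of the gradient, as a function of time and space. -/
noncomputable def FtG (R₀ : ℝ) (G : Set ℝ) (u : ℝ → V → V) (z : ℝ × V) : ℝ≥0∞ :=
  Hl.Mx R₀ (fun y => (G ×ˢ (univ : Set V)).indicator (fun z => Sp.gw (u z.1) z.2) (z.1, y))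
    z.2 ^ (7 / 6 : ℝ)

lemma FtG_eq (R₀ : ℝ) (u : ℝ → V → V) {t : ℝ} (ht : t ∈ G) (x : V) :
    FtG R₀ G u (t, x) = Fx R₀ (u t) x := by
  unfold FtG Fx
  congr 2
  funext y
  rw [indicator_of_mem]
  exact ⟨ht, mem_univ _⟩

lemma FtG_meas (R₀ : ℝ) (h : Turb 1 T E D G u p) : Measurable (FtG R₀ G u) := by
  have hgs : ContinuousOn (fun z : ℝ × V => gsq (u z.1) z.2) (G ×ˢ univ) :=
    (gsq_joint h.openG h.smooth_u).continuousOn
  have hS : MeasurableSet (G ×ˢ (univ : Set V)) := h.openG.measurableSet.prod MeasurableSet.univ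
  have hG : Measurable ((G ×ˢ (univ : Set V)).indicator
      (fun z : ℝ × V => Sp.gw (u z.1) z.2)) := by
    have h1 := (W919.MH.MARK3.measurable_indicator hS hgs).pow_const (6 / 7 : ℝ)
    have e : ((G ×ˢ (univ : Set V)).indicator (fun z : ℝ × V => Sp.gw (u z.1) z.2))
        = fun z => ((G ×ˢ (univ : Set V)).indicator
          (fun z : ℝ × V => ENNReal.ofReal (gsq (u z.1) z.2)) z) ^ (6 / 7 : ℝ) := by
      funext z
      by_cases hz : z ∈ G ×ˢ (univ : Set V)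
      · rw [indicator_of_mem hz, indicator_of_mem hz]
        rfl
      · rw [indicator_of_notMem hz, indicator_of_notMem hz, ENNReal.zero_rpow_of_pos (by norm_num)]
    rw [e]
    exact h1
  obtain ⟨F, hFd⟩ : ∃ F : ℝ × V → ℝ≥0∞, F = (G ×ˢ (univ : Set V)).indicator
      (fun z : ℝ × V => Sp.gw (u z.1) z.2) := ⟨_, rfl⟩
  rw [← hFd] at hG
  have e2 : FtG R₀ G u = fun z => (⨆ m : ℕ, (∫⁻ y in ball z.2 (Hl.Rr R₀ m), F (z.1, y))
      / ENNReal.ofReal (Hl.Rr R₀ m ^ 3)) ^ (7 / 6 : ℝ) := by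
    funext z
    rw [hFd]
    rfl
  rw [e2]
  refine (Measurable.iSup fun m => ?_).pow_const _
  refine Measurable.div_const ?_ _
  have e : (fun z : ℝ × V => ∫⁻ y in ball z.2 (Hl.Rr R₀ m), F (z.1, y))
      = fun z : ℝ × V => ∫⁻ y, ({q : (ℝ × V) × V | dist q.2 q.1.2 < Hl.Rr R₀ m}.indicator
        (fun q => F (q.1.1, q.2))) (z, y) := by
    funext z
    rw [← lintegral_indicator measurableSet_ball]
    rfl
  rw [e]
  apply Measurable.lintegral_prod_right' (f := {q : (ℝ × V) × V |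
    dist q.2 q.1.2 < Hl.Rr R₀ m}.indicator (fun q => F (q.1.1, q.2)))
  refine Measurable.indicator ?_ ?_
  · exact hG.comp ((measurable_fst.comp measurable_fst).prodMk measurable_snd)
  · exact measurableSet_lt (measurable_snd.dist (measurable_snd.comp measurable_fst))
      measurable_const

lemma waem (R₀ : ℝ) (h : Turb 1 T E D G u p) {a b : ℝ} (ha : 0 ≤ a) (hb : b ≤ T) {ξ : ℝ → V}
    (hξ : ContinuousOn ξ (Ioo a b)) :
    AEMeasurable (fun τ => Fx R₀ (u τ) (ξ τ)) (volume.restrict (Ioo a b)) := by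
  have h1 : AEMeasurable (fun τ => (τ, ξ τ)) (volume.restrict (Ioo a b)) :=
    aemeasurable_id.prodMk (hξ.aemeasurable measurableSet_Ioo)
  refine ((FtG_meas R₀ h).comp_aemeasurable h1).congr ?_
  filter_upwards [aeT h ha hb] with τ hτ
  exact FtG_eq R₀ u hτ (ξ τ)

/-- The square root of the function along a path. -/
lemma whalf (R₀ : ℝ) (hN : Turb 1 T E D G u p) {s h η : ℝ} (hh : 0 < h)
    (hη : 0 ≤ η) (ha : 0 ≤ s - h) (hb : s ≤ T) {ξ : ℝ → V} (hξ : ContinuousOn ξ (Ioo (s - h) s))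
    (hI : ∫⁻ τ in Ioo (s - h) s, Fx R₀ (u τ) (ξ τ) ≤ ENNReal.ofReal (η / h)) :
    ∫⁻ τ in Ioo (s - h) s, Fx R₀ (u τ) (ξ τ) ^ (1 / 2 : ℝ) ≤ ENNReal.ofReal (√η) := by
  have hm := (waem R₀ hN ha hb hξ).pow_const (1 / 2 : ℝ)
  have h1 := Poi.jensen (p := 2) (by norm_num) hm
  have e1 : ∀ τ, (Fx R₀ (u τ) (ξ τ) ^ (1 / 2 : ℝ)) ^ (2 : ℝ) = Fx R₀ (u τ) (ξ τ) := by
    intro τ
    rw [← ENNReal.rpow_mul]
    norm_num
  simp_rw [e1] at h1
  rw [Measure.restrict_apply_univ, Real.volume_Ioo] at h1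
  have e2 : s - (s - h) = h := by ring
  have e3 : (2 : ℝ) - 1 = 1 := by norm_num
  rw [e2, e3, ENNReal.rpow_one] at h1
  have h2 : (∫⁻ τ in Ioo (s - h) s, Fx R₀ (u τ) (ξ τ) ^ (1 / 2 : ℝ)) ^ (2 : ℝ)
      ≤ ENNReal.ofReal η := by
    refine h1.trans ((mul_le_mul_right hI _).trans ?_)
    rw [← ENNReal.ofReal_mul hh.le]
    apply ENNReal.ofReal_le_ofReal
    rw [mul_div_cancel₀ _ hh.ne']
  have h3 := ENNReal.rpow_le_rpow h2 (show (0 : ℝ) ≤ 1 / 2 by norm_num)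
  rw [← ENNReal.rpow_mul, ENNReal.ofReal_rpow_of_nonneg hη (by norm_num), ← Real.sqrt_eq_rpow] at h3
  norm_num at h3
  norm_num
  exact h3

/-! ### Continuity at a regular time -/

lemma fr_contG (h : Turb 1 T E D G u p) {Y : ℝ → V} (hY : ContinuousOn Y G) (r : ℝ) :
    ContinuousOn (fun τ => A2 0 4 (fr r (u τ) (Y τ))) G := by
  have c0 : ContinuousOn (fun z : ℝ × V => Y z.1) (G ×ˢ univ) :=
    hY.comp continuousOn_fst fun z hz => hz.1
  have c1 : ContinuousOn (fun z : ℝ × V => u z.1 (Y z.1 + r • z.2)) (G ×ˢ univ) := by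
    have h1 : ContinuousOn (fun z : ℝ × V => (z.1, Y z.1 + r • z.2)) (G ×ˢ univ) :=
      continuousOn_fst.prodMk (c0.add (continuous_snd.const_smul r).continuousOn)
    exact h.smooth_u.continuousOn.comp h1 fun z hz => ⟨hz.1, mem_univ _⟩
  have c2 : ContinuousOn (fun z : ℝ × V => mo r (u z.1) (Y z.1)) (G ×ˢ univ) := by
    have h1 : ContinuousOn (fun z : ℝ × V => (z.1, Y z.1)) (G ×ˢ univ) :=
      continuousOn_fst.prodMk c0
    exact (mol_joint h.openG h.smooth_u r).continuousOn.comp h1 fun z hz => ⟨hz.1, mem_univ _⟩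
  refine pint_cont (F := fun t z => nsq (fr r (u t) (Y t)) z) h.openG ?_ 0 4
  unfold nsq
  refine continuousOn_finsetSum _ fun i _ => ?_
  have c3 : ContinuousOn (fun z : ℝ × V => u z.1 (Y z.1 + r • z.2) i) (G ×ˢ univ) :=
    continuousOn_pi.1 c1 i
  have c4 : ContinuousOn (fun z : ℝ × V => mo r (u z.1) (Y z.1) i) (G ×ˢ univ) :=
    continuousOn_pi.1 c2 i
  exact (continuousOn_const.mul (c3.sub c4)).pow 2

lemma sv_contG (h : Turb 1 T E D G u p) (n : ℕ) {y : ℝ → V} (hy : ContinuousOn y G) :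
    ContinuousOn (fun τ => SV n (u τ) (y τ)) G := by
  have h1 : ContinuousOn (fun z : ℝ × V => SV n (u z.1) z.2) (G ×ˢ univ) :=
    continuousOn_finsetSum _ fun i _ =>
      (jh_ss (w := fun t x => u t x i) h.openG n (comp_joint h.smooth_u i)).continuousOn
  exact h1.comp (continuousOn_id.prodMk hy) fun τ hτ => ⟨hτ, mem_univ _⟩

theorem wloc7 (hE4 : S_WEN4) : ∃ (η C : ℝ) (K : ℕ → ℝ), 0 < η ∧ 0 < C ∧ (∀ n, 0 < K n) ∧
    ∀ (T E D : ℝ) (G : Set ℝ) (u : ℝ → V → V) (p : ℝ → V → ℝ), Turb 1 T E D G u p →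
      ∀ R₀ : ℝ, 0 < R₀ → sc R₀ 0 ≤ 1 → ∀ (m N : ℕ) (s : ℝ), m + 4 ≤ N →
      sc R₀ m ^ 2 < s → s ∈ G → ∀ (ξ ξ' : ℝ → V) (B C' : ℝ), FPath T (sc R₀ N) B C' G u p ξ ξ' →
      ∫⁻ τ in Ioo (s - sc R₀ m ^ 2) s, Fx R₀ (u τ) (ξ τ) ≤ ENNReal.ofReal (η / sc R₀ m ^ 2) →
      ∀ F : ℝ, 0 ≤ F → Fx R₀ (u s) (ξ s) ≤ ENNReal.ofReal F →
      ∀ n, ∀ y ∈ ball (ξ s) (sc R₀ m / 256),
        (sc R₀ m / 16) ^ (2 * n + 4) * SV (n + 1) (u s) y
          ≤ K n * (1 + C * (sc R₀ m ^ 4 * F)) := by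
  obtain ⟨ε, hε, Cl, hCl, hloc⟩ := t_WDER
  obtain ⟨K₁, hK₁, hclose⟩ := t_WCLOSE
  obtain ⟨C₂, hC₂, hsmall⟩ := wsmall hE4
  obtain ⟨Kp, hKp, hpath⟩ := path_ex Pool.Agent.Y8.B.p_tcut Pool.Agent.Y8.B.p_acx
  obtain ⟨K₀, hK₀, hosc⟩ := osc
  obtain ⟨k, hk⟩ : ∃ k, k = K₀.toReal := ⟨_, rfl⟩
  have hk0 : 0 ≤ k := by rw [hk]; exact ENNReal.toReal_nonneg
  have hKk : K₀ = ENNReal.ofReal k := by rw [hk, ENNReal.ofReal_toReal hK₀]
  obtain ⟨η, hη, hη1, hη2, hη3⟩ : ∃ η : ℝ, 0 < η ∧ K₁ * √η ≤ 1 / 16 ∧ C₂ * η ≤ 1 ∧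
      16 * (C₂ * η) ≤ ε := by
    refine ⟨min ((1 / (16 * K₁)) ^ 2) (min (1 / C₂) (ε / (16 * C₂))), by positivity, ?_, ?_, ?_⟩
    · have h1 : √(min ((1 / (16 * K₁)) ^ 2) (min (1 / C₂) (ε / (16 * C₂)))) ≤ 1 / (16 * K₁) := by
        refine (Real.sqrt_le_sqrt (min_le_left _ _)).trans (le_of_eq ?_)
        exact Real.sqrt_sq (by positivity)
      calc K₁ * √(min ((1 / (16 * K₁)) ^ 2) (min (1 / C₂) (ε / (16 * C₂))))
          ≤ K₁ * (1 / (16 * K₁)) := by gcongr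
        _ = 1 / 16 := by field_simp
    · calc C₂ * min ((1 / (16 * K₁)) ^ 2) (min (1 / C₂) (ε / (16 * C₂)))
          ≤ C₂ * (1 / C₂) := by
            gcongr
            exact (min_le_right _ _).trans (min_le_left _ _)
        _ = 1 := by field_simp
    · calc 16 * (C₂ * min ((1 / (16 * K₁)) ^ 2) (min (1 / C₂) (ε / (16 * C₂))))
          ≤ 16 * (C₂ * (ε / (16 * C₂))) := by
            gcongr
            exact (min_le_right _ _).trans (min_le_right _ _)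
        _ = ε := by field_simp
  refine ⟨η, 257 * k + 1, fun n => Cl (n + 1) + Cl n, hη, by positivity, fun n => by
    have := hCl n
    have := hCl (n + 1)
    positivity, ?_⟩
  intro T E D G u p hN R₀ hR₀ hsc1 m N s hmN hrs hsG ξ ξ' B C' hξ hI F hF hFx n y hy
  have hr := sc_pos hR₀ m
  have hs0T := hN.subG hsG
  have hsT := hs0T.2
  have hs0 := hs0T.1
  -- the two scales
  obtain ⟨r, hrd⟩ : ∃ r, r = sc R₀ m := ⟨_, rfl⟩
  obtain ⟨r', hr'd⟩ : ∃ r', r' = sc R₀ (m + 4) := ⟨_, rfl⟩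
  have hrr : r' = r / 16 := by
    rw [hr'd, hrd, sc_add]
    norm_num
  have hr' : 0 < r' := by
    rw [hr'd]
    exact sc_pos hR₀ _
  have hr1 : r ≤ 1 := by
    rw [hrd]
    exact (sc_le' hR₀ (Nat.zero_le m)).trans hsc1
  have hr'1 : r' ≤ 1 := by rw [hrr]; linarith [hrd ▸ hr]
  have hcl0 := hclose T E D G u p hN R₀ hR₀ m N (by omega) s
  have hcl1 := hclose T E D G u p hN R₀ hR₀ (m + 4) N hmN s
  have hsm := hsmall T E D G u p hN R₀ hR₀ m s
  have hosc' := hosc R₀ hR₀ (u s) (hN.spv hsG).1 (m + 4) (ξ s) (ξ s)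
  rw [← hrd] at hr hrs hI hy hcl0 hsm ⊢
  rw [← hr'd] at hcl1 hosc'
  have hr2 : 0 < r ^ 2 := by positivity
  have hα : 0 < s - r ^ 2 := by linarith
  obtain ⟨CY, hCY, hpY⟩ := hpath E r hr hr1
  obtain ⟨Y, Yd, hYs, hY⟩ := hpY T D G u p hN s hs0T (ξ s)
  obtain ⟨CY', hCY', hpY'⟩ := hpath E r' hr' hr'1
  obtain ⟨Y', Yd', hYs', hY'⟩ := hpY' T D G u p hN s hs0T (ξ s)
  have hξc : ContinuousOn ξ (Ioo 0 T) := fun τ hτ => (hξ.hd τ hτ).continuousAt.continuousWithinAt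
  have hYc' : ContinuousOn Y' (Ioo 0 T) := fun τ hτ =>
    (hY'.hd τ hτ).continuousAt.continuousWithinAt
  have hhalf : ENNReal.ofReal K₁ * ∫⁻ τ in Ioo (s - r ^ 2) s, Fx R₀ (u τ) (ξ τ) ^ (1 / 2 : ℝ)
      ≤ ENNReal.ofReal (1 / 16) := by
    refine (mul_le_mul_right (whalf R₀ hN hr2 hη.le hα.le hsT.le
      (hξc.mono (Ioo_subset_Ioo hα.le hsT.le)) hI) _).trans ?_
    rw [← ENNReal.ofReal_mul hK₁.le]
    exact ENNReal.ofReal_le_ofReal hη1
  have d0 := hcl0 (r ^ 2) hr2 hα hsT ξ ξ' Y Yd _ _ _ _ hξ hY hYs hhalf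
  have d1 := hcl1 (r ^ 2) hr2 hα hsT ξ ξ' Y' Yd' _ _ _ _ hξ hY' hYs' hhalf
  obtain ⟨hdi, hdis⟩ := hsm hrs hsT ξ Y Yd _ _ hY
    (fun τ hτ => (d0 τ ⟨hτ.1, hτ.2.le⟩).trans (by linarith)) η hη hη2 hI
  -- the dissipation along the path at the smaller scale
  have hr'2 : r' ^ 2 = r ^ 2 / 256 := by
    rw [hrr]
    ring
  have hr'p : 0 < r' ^ 2 := pow_pos hr' 2
  have hr's : r' ^ 2 < s := by rw [hr'2]; linarith
  have hB0 : ∀ τ, 0 ≤ B2 (Y τ) (r * (3 / 4)) (u τ) := fun τ => integral_nonneg fun x =>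
    Finset.sum_nonneg fun i _ => Finset.sum_nonneg fun j _ => sq_nonneg _
  have hB0' : ∀ τ, 0 ≤ B2 (Y' τ) (r' * 8) (u τ) := fun τ => integral_nonneg fun x =>
    Finset.sum_nonneg fun i _ => Finset.sum_nonneg fun j _ => sq_nonneg _
  have hss : Ioo (s - r' ^ 2) s ⊆ Ioo (s - 9 / 16 * r ^ 2) s :=
    Ioo_subset_Ioo_left (by rw [hr'2]; linarith)
  obtain ⟨kf, hL⟩ := Pool.Agent.Y8.B.p_wfr2 T E D G u p hN r' s hr' hr's hsT Y' Yd' _ _ hY'
  have hpt : ∀ τ ∈ Ioo (s - r' ^ 2) s, τ ∈ G →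
      B2 (Y' τ) (r' * 8) (u τ) ≤ B2 (Y τ) (r * (3 / 4)) (u τ) := by
    intro τ hτ hτG
    have hτ2 : τ ∈ Ioc (s - r ^ 2) s := ⟨by
      have := hτ.1
      rw [hr'2] at this
      linarith, hτ.2.le⟩
    apply B2_mono (hN.spv hτG).1
    apply ball_subset_ball'
    rw [dist_eq_norm]
    have h1 := d0 τ hτ2
    have h2 := d1 τ hτ2
    have h3 : ‖Y' τ - Y τ‖ ≤ ‖ξ τ - Y' τ‖ + ‖ξ τ - Y τ‖ := by
      have e : Y' τ - Y τ = (ξ τ - Y τ) - (ξ τ - Y' τ) := by abel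
      rw [e]
      exact (norm_sub_le _ _).trans (by linarith)
    linarith
  obtain ⟨w1, w2⟩ := wmass hN hr' hr's hsT Y' 8 (p₁ := -1) (q₁ := 0) le_rfl le_rfl
  have e1 : s + r' ^ 2 * (-1) = s - r' ^ 2 := by ring
  have e2 : s + r' ^ 2 * 0 = s := by ring
  rw [e1, e2] at w1 w2
  have haeG := aeT hN (show 0 ≤ s - r' ^ 2 by linarith) hsT.le
  have hdi' : IntegrableOn (fun τ => B2 (Y τ) (r * (3 / 4)) (u τ)) (Ioo (s - r' ^ 2) s) :=
    hdi.mono_set hss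
  have hmY' : AEStronglyMeasurable (fun τ => B2 (Y' τ) (r' * 8) (u τ))
      (volume.restrict (Ioo (s - r' ^ 2) s)) := by
    have c1 : ContinuousOn (fun τ => B2 (Y' τ) (r' * 8) (u τ)) G := by
      have c2 : ContinuousOn (fun z : ℝ × V => gsq (u z.1) (Y' z.1 + z.2)) (G ×ˢ univ) := by
        have c0 : ContinuousOn (fun z : ℝ × V => Y' z.1) (G ×ˢ univ) :=
          (hYc'.mono hN.subG).comp continuousOn_fst fun z hz => hz.1
        exact (gsq_joint hN.openG hN.smooth_u).continuousOn.comp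
          (f := fun z : ℝ × V => (z.1, Y' z.1 + z.2))
          (continuousOn_fst.prodMk (c0.add continuousOn_snd)) fun z hz => ⟨hz.1, mem_univ _⟩
      refine (pint_cont (F := fun t z => gsq (u t) (Y' t + z)) hN.openG c2 0 (r' * 8)).congr
        fun τ _ => ?_
      exact Pool.Agent.W298.ME.CTM.shift (gsq (u τ)) (Y' τ) (r' * 8)
    have h1 : (volume : Measure ℝ).restrict (Ioo (s - r' ^ 2) s)
        = volume.restrict (Ioo (s - r' ^ 2) s ∩ G) := by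
      apply Measure.restrict_congr_set
      have h0 : ∀ᵐ τ ∂(volume : Measure ℝ), τ ∉ Ioo 0 T \ G :=
        measure_eq_zero_iff_ae_notMem.1 hN.fullG
      filter_upwards [h0] with τ hτ
      apply propext
      show (τ ∈ Ioo (s - r' ^ 2) s) ↔ τ ∈ Ioo (s - r' ^ 2) s ∩ G
      constructor
      · intro h1
        refine ⟨h1, ?_⟩
        by_contra h2
        exact hτ ⟨⟨by linarith [h1.1], h1.2.trans hsT⟩, h2⟩
      · intro h1
        exact h1.1
    rw [h1]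
    exact (c1.aestronglyMeasurable hN.openG.measurableSet).mono_measure
      (Measure.restrict_mono inter_subset_right le_rfl)
  have hiY' : IntegrableOn (fun τ => B2 (Y' τ) (r' * 8) (u τ)) (Ioo (s - r' ^ 2) s) := by
    refine Integrable.mono' hdi' hmY' ?_
    filter_upwards [haeG, ae_restrict_mem measurableSet_Ioo] with τ h1 h2
    rw [Real.norm_eq_abs, abs_of_nonneg (hB0' τ)]
    exact hpt τ h2 h1
  have hInt : IntegrableOn (fun t => B2 0 8 (frv r' s Y' u t)) (Ioo (-1) 0) := w1.2 hiY'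
  have hle : ∫ t in Ioo (-1) 0, B2 0 8 (frv r' s Y' u t) ≤ ε := by
    rw [w2]
    have f1 : ∫ τ in Ioo (s - r' ^ 2) s, B2 (Y' τ) (r' * 8) (u τ)
        ≤ ∫ τ in Ioo (s - r' ^ 2) s, B2 (Y τ) (r * (3 / 4)) (u τ) := by
      refine integral_mono_ae hiY' hdi' ?_
      filter_upwards [haeG, ae_restrict_mem measurableSet_Ioo] with τ h1 h2
      exact hpt τ h2 h1
    have f2 : ∫ τ in Ioo (s - r' ^ 2) s, B2 (Y τ) (r * (3 / 4)) (u τ)
        ≤ ∫ τ in Ioo (s - 9 / 16 * r ^ 2) s, B2 (Y τ) (r * (3 / 4)) (u τ) :=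
      setIntegral_mono_set hdi (Eventually.of_forall fun τ => hB0 τ) hss.eventuallyLE
    calc r'⁻¹ * ∫ τ in Ioo (s - r' ^ 2) s, B2 (Y' τ) (r' * 8) (u τ)
        ≤ r'⁻¹ * (C₂ * η * r) := by
          gcongr
          exact (f1.trans f2).trans hdis
      _ = 16 * (C₂ * η) := by
          rw [hrr]
          field_simp
      _ ≤ ε := hη3
  have hall := hloc _ _ _ _ hL hInt hle
  -- the point
  obtain ⟨z, hz⟩ : ∃ z : V, z = r'⁻¹ • (y - ξ s) := ⟨_, rfl⟩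
  have hyz : y = ξ s + r' • z := by
    rw [hz, smul_smul, mul_inv_cancel₀ hr'.ne', one_smul, add_sub_cancel]
  have hzb : z ∈ ball (0 : V) (1 / 16) := by
    rw [mem_ball, dist_eq_norm] at hy
    rw [hz, mem_ball_zero_iff, norm_smul, Real.norm_eq_abs, abs_of_pos (inv_pos.2 hr'),
      inv_mul_lt_iff₀ hr', hrr]
    linarith
  have hev : ∀ τ ∈ Ioo (s - r' ^ 2 / 32) s, τ ∈ G →
      r' ^ (2 * n + 4) * SV (n + 1) (u τ) (Y' τ + r' • z)
      ≤ Cl (n + 1) * (1 + A2 0 4 (fr r' (u τ) (Y' τ))) := by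
    intro τ hτ hτG
    have htm : (τ - s) / r' ^ 2 ∈ Ioo (-1 / 32 : ℝ) 0 := by
      constructor
      · rw [lt_div_iff₀ hr'p]
        linarith [hτ.1]
      · exact div_neg_of_neg_of_pos (by linarith [hτ.2]) hr'p
    have e1 : s + r' ^ 2 * ((τ - s) / r' ^ 2) = τ := by
      field_simp
      ring
    have hHm : (τ - s) / r' ^ 2 ∈ HH r' s G :=
      ⟨⟨by linarith [htm.1], htm.2⟩, by rw [e1]; exact hτG⟩
    have hv : ContDiff ℝ ∞ (u (s + r' ^ 2 * ((τ - s) / r' ^ 2))) := by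
      rw [e1]
      exact (hN.spv hτG).1
    have a2 := (hall (n + 1) _ hHm htm.1 z hzb).2
    rw [SV_frv n hv, turb_frv hN hY' hHm.2, e1] at a2
    exact a2
  have hyc : ContinuousOn (fun τ => Y' τ + r' • z) G :=
    (hYc'.mono hN.subG).add continuousOn_const
  have l1 : Tendsto (fun τ => r' ^ (2 * n + 4) * SV (n + 1) (u τ) (Y' τ + r' • z)) (𝓝[<] s)
      (𝓝 (r' ^ (2 * n + 4) * SV (n + 1) (u s) y)) := by
    apply Tendsto.const_mul
    have c1 := (sv_contG hN (n + 1) hyc).continuousAt (hN.openG.mem_nhds hsG)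
    have c2 : Tendsto (fun τ => SV (n + 1) (u τ) (Y' τ + r' • z)) (𝓝 s)
        (𝓝 (SV (n + 1) (u s) (Y' s + r' • z))) := c1
    rw [hYs', ← hyz] at c2
    exact c2.mono_left nhdsWithin_le_nhds
  have l2 : Tendsto (fun τ => Cl (n + 1) * (1 + A2 0 4 (fr r' (u τ) (Y' τ)))) (𝓝[<] s)
      (𝓝 (Cl (n + 1) * (1 + A2 0 4 (fr r' (u s) (ξ s))))) := by
    apply Tendsto.const_mul
    apply Tendsto.const_add
    have c1 := (fr_contG hN (hYc'.mono hN.subG) r').continuousAt (hN.openG.mem_nhds hsG)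
    have c2 : Tendsto (fun τ => A2 0 4 (fr r' (u τ) (Y' τ))) (𝓝 s)
        (𝓝 (A2 0 4 (fr r' (u s) (Y' s)))) := c1
    rw [hYs'] at c2
    exact c2.mono_left nhdsWithin_le_nhds
  have key : r' ^ (2 * n + 4) * SV (n + 1) (u s) y
      ≤ Cl (n + 1) * (1 + A2 0 4 (fr r' (u s) (ξ s))) := by
    refine le_of_tendsto_of_tendsto l1 l2 ?_
    filter_upwards [Ioo_mem_nhdsLT (show s - r' ^ 2 / 32 < s by linarith),
      nhdsWithin_le_nhds (hN.openG.mem_nhds hsG)] with τ hτ hτG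
    exact hev τ hτ hτG
  -- the oscillation at the final time
  have hus := (hN.spv hsG).1
  have hA : A2 0 4 (fr r' (u s) (ξ s)) ≤ 257 * (k * (r ^ 4 * F)) := by
    refine (Pool.Agent.W327.ME.A2_le (fr_smooth hus r' (ξ s))).trans ?_
    apply mul_le_mul_of_nonneg_left _ (by norm_num)
    rw [← ENNReal.ofReal_le_ofReal_iff (by positivity)]
    refine (hosc' (by rw [sub_self, norm_zero]; exact hr'.le)).trans ?_
    rw [hKk]
    refine (mul_le_mul_right (mul_le_mul_right hFx _) _).trans ?_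
    rw [← ENNReal.ofReal_mul (by positivity), ← ENNReal.ofReal_mul hk0]
    apply ENNReal.ofReal_le_ofReal
    have h4 : r' ^ 4 ≤ r ^ 4 := by
      apply pow_le_pow_left₀ hr'.le
      rw [hrr]
      linarith
    gcongr
  have hA0 : 0 ≤ r ^ 4 * F := by positivity
  rw [← hrr]
  refine key.trans ?_
  have c1 := hCl (n + 1)
  have c2 := hCl n
  have h5 : 1 + A2 0 4 (fr r' (u s) (ξ s)) ≤ 1 + (257 * k + 1) * (r ^ 4 * F) := by nlinarith
  have h6 : 0 ≤ 1 + (257 * k + 1) * (r ^ 4 * F) := by positivity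
  calc Cl (n + 1) * (1 + A2 0 4 (fr r' (u s) (ξ s)))
      ≤ Cl (n + 1) * (1 + (257 * k + 1) * (r ^ 4 * F)) := by gcongr
    _ ≤ (Cl (n + 1) + Cl n) * (1 + (257 * k + 1) * (r ^ 4 * F)) := by
        gcongr
        linarith

end

end Pool.Agent.Y7
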