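import Pool.Agent.Y7.Flw7

/-!
Limits of measure-preserving maps which commute with the translations of the lattice (helper7).
-/

set_option autoImplicit false
set_option linter.unusedVariables false

open MeasureTheory Set Metric Filter Topology
open scoped ContDiff ENNReal NNReal

namespace Pool.Agent.Y7

open H459R3.NS W221.NS Pool.Agent.TH305.LW Pool.Agent.TH305.DR Pool.Agent.TH305.LG

/-- A limit of measure-preserving maps does not increase the volume. -/
lemma lim_le {X : ℕ → V → V} {Y : V → V} (hX : ∀ k, Measurable (X k))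
    (hXm : ∀ k, Measure.map (X k) volume = volume) (hY : Measurable Y)
    (hlim : ∀ᵐ a, Tendsto (fun k => X k a) atTop (𝓝 (Y a))) :
    Measure.map Y volume ≤ volume := by
  have hO : ∀ O : Set V, IsOpen O → volume (Y ⁻¹' O) ≤ volume O := by
    intro O hO
    have h1 : ∀ᵐ a, O.indicator (fun _ => (1 : ℝ≥0∞)) (Y a)
        ≤ liminf (fun k => O.indicator (fun _ => (1 : ℝ≥0∞)) (X k a)) atTop := by
      filter_upwards [hlim] with a ha
      by_cases haO : Y a ∈ O
      · rw [indicator_of_mem haO]
        have hev : ∀ᶠ k in atTop, (1 : ℝ≥0∞) ≤ O.indicator (fun _ => (1 : ℝ≥0∞)) (X k a) := by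
          filter_upwards [ha.eventually (hO.mem_nhds haO)] with k hk
          rw [indicator_of_mem hk]
        exact le_liminf_of_le (by isBoundedDefault) hev
      · rw [indicator_of_notMem haO]
        exact zero_le
    calc volume (Y ⁻¹' O) = ∫⁻ a, O.indicator (fun _ => (1 : ℝ≥0∞)) (Y a) := by
          rw [← lintegral_indicator_one (hY hO.measurableSet)]
          rfl
      _ ≤ ∫⁻ a, liminf (fun k => O.indicator (fun _ => (1 : ℝ≥0∞)) (X k a)) atTop :=
          lintegral_mono_ae h1
      _ ≤ liminf (fun k => ∫⁻ a, O.indicator (fun _ => (1 : ℝ≥0∞)) (X k a)) atTop :=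
          lintegral_liminf_le fun k =>
            (measurable_const.indicator hO.measurableSet).comp (hX k)
      _ = liminf (fun _ : ℕ => volume O) atTop := by
          congr 1
          funext k
          have : ∫⁻ a, O.indicator (fun _ => (1 : ℝ≥0∞)) (X k a)
              = ∫⁻ x, O.indicator (fun _ => (1 : ℝ≥0∞)) x ∂(Measure.map (X k) volume) :=
            (lintegral_map (measurable_const.indicator hO.measurableSet) (hX k)).symm
          rw [this, hXm k, lintegral_indicator hO.measurableSet, lintegral_one,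
            Measure.restrict_apply_univ]
      _ = volume O := liminf_const _
  refine Measure.le_iff.2 fun S hS => ?_
  rw [Measure.map_apply hY hS, S.measure_eq_iInf_isOpen volume]
  refine le_iInf fun U => le_iInf fun hSU => le_iInf fun hU => ?_
  exact (measure_mono (preimage_mono hSU)).trans (hO U hU)

/-- A map which commutes with the translations and does not increase the volume preserves it. -/
lemma le_eq {φ : V → V} (hφ : Measurable φ) (hm : Measure.map φ volume ≤ volume)
    (hn : ∀ (y : V) (n : K3), φ (y - iv n) = φ y - iv n) : Measure.map φ volume = volume := by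
  obtain ⟨c, hc⟩ : ∃ c : V → ℝ≥0∞, c = cell.indicator (fun _ => (1 : ℝ≥0∞)) := ⟨_, rfl⟩
  have hcm : Measurable c := by
    rw [hc]
    exact measurable_const.indicator meas_cell
  have hcs : ∀ x, ∑' n : K3, c (x - iv n) = 1 := by
    rw [hc]
    exact cell_sum
  have hcs' : ∀ x, ∑' n : K3, c (x + iv n) = 1 := by
    rw [hc]
    exact cell_sum'
  have hsub : ∀ n : K3, Measurable fun y : V => y - iv n := fun n => measurable_id.sub_const _
  have hcφ : Measurable fun y => c (φ y) := hcm.comp hφ
  -- the image of the cell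
  have h1 : ∫⁻ y, c (φ y) = ∫⁻ y, c y := by
    calc ∫⁻ y, c (φ y) = ∫⁻ y, ∑' n : K3, c (y + iv n) * c (φ y) := by
          refine lintegral_congr fun y => ?_
          rw [ENNReal.tsum_mul_right, hcs', one_mul]
      _ = ∑' n : K3, ∫⁻ y, c (y + iv n) * c (φ y) := by
          apply lintegral_tsum
          intro n
          exact ((hcm.comp (measurable_id.add_const (iv n))).mul hcφ).aemeasurable
      _ = ∑' n : K3, ∫⁻ y, c y * c (φ (y - iv n)) := by
          refine tsum_congr fun n => ?_
          rw [← lintegral_sub_right_eq_self (fun y => c (y + iv n) * c (φ y)) (iv n)]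
          refine lintegral_congr fun y => ?_
          rw [sub_add_cancel]
      _ = ∫⁻ y, ∑' n : K3, c y * c (φ (y - iv n)) := by
          symm
          apply lintegral_tsum
          intro n
          exact (hcm.mul (hcφ.comp (hsub n))).aemeasurable
      _ = ∫⁻ y, c y := by
          refine lintegral_congr fun y => ?_
          simp_rw [hn]
          rw [ENNReal.tsum_mul_left, hcs, mul_one]
  have hcell : ∫⁻ y, c y = volume cell := by
    rw [hc, lintegral_indicator meas_cell, lintegral_one, Measure.restrict_apply_univ]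
  have hfin : volume (cell : Set V) ≠ ⊤ := by
    have h2 : (cell : Set V) ⊆ closedBall 0 1 := fun x hx => by
      rw [mem_closedBall, dist_zero_right]
      exact cell_norm hx
    exact ((measure_mono h2).trans_lt (isCompact_closedBall 0 1).measure_lt_top).ne
  obtain ⟨μ, hμ⟩ : ∃ μ : Measure V, μ = Measure.map φ volume := ⟨_, rfl⟩
  rw [← hμ] at hm ⊢
  -- the translates of the cell
  have hC : ∀ n : K3, ∫⁻ x, c (x - iv n) ∂μ = volume (cell : Set V) := by
    intro n
    have hcn : Measurable (fun x => c (x - iv n)) := hcm.comp (hsub n)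
    rw [hμ, lintegral_map hcn hφ, ← hcell, ← h1]
    calc ∫⁻ y, c (φ y - iv n) = ∫⁻ y, c (φ (y - iv n)) := by simp_rw [hn]
      _ = ∫⁻ y, c (φ y) := lintegral_sub_right_eq_self (fun y => c (φ y)) (iv n)
  have hC' : ∀ n : K3, ∫⁻ x, c (x - iv n) = volume (cell : Set V) := by
    intro n
    rw [lintegral_sub_right_eq_self (fun y => c y) (iv n), hcell]
  refine le_antisymm hm (Measure.le_iff.2 fun S hS => ?_)
  have key : ∀ ν : Measure V, ν S = ∑' n : K3, ∫⁻ x, S.indicator (fun _ => 1) x * c (x - iv n) ∂ν := by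
    intro ν
    have hSn : ∀ n : K3, Measurable fun x => S.indicator (fun _ => (1 : ℝ≥0∞)) x * c (x - iv n) :=
      fun n => (measurable_const.indicator hS).mul (hcm.comp (hsub n))
    rw [← lintegral_tsum (fun n => (hSn n).aemeasurable)]
    simp_rw [ENNReal.tsum_mul_left, hcs, mul_one]
    rw [lintegral_indicator hS, lintegral_one, Measure.restrict_apply_univ]
  rw [key volume, key μ]
  refine ENNReal.tsum_le_tsum fun n => ?_
  obtain ⟨d, hd⟩ : ∃ d : V → ℝ≥0∞, d = fun x => c (x - iv n) := ⟨_, rfl⟩
  have hdm : Measurable d := by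
    rw [hd]
    exact hcm.comp (hsub n)
  have e1 : ∀ ν : Measure V, ∫⁻ x, d x ∂ν = ∫⁻ x, S.indicator (fun _ => 1) x * d x ∂ν
      + ∫⁻ x, Sᶜ.indicator (fun _ => 1) x * d x ∂ν := by
    intro ν
    have hSd : Measurable fun x => S.indicator (fun _ => (1 : ℝ≥0∞)) x * d x :=
      (measurable_const.indicator hS).mul hdm
    rw [← lintegral_add_left hSd]
    refine lintegral_congr fun x => ?_
    by_cases hx : x ∈ S
    · rw [indicator_of_mem hx, indicator_of_notMem (notMem_compl_iff.2 hx), one_mul, zero_mul,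
        add_zero]
    · rw [indicator_of_notMem hx, indicator_of_mem (mem_compl hx), one_mul, zero_mul, zero_add]
  have e2 : ∫⁻ x, d x ∂μ = volume (cell : Set V) := by rw [hd]; exact hC n
  have e3 : ∫⁻ x, d x = volume (cell : Set V) := by rw [hd]; exact hC' n
  have e4 := e1 μ
  have e5 := e1 volume
  rw [e2] at e4
  rw [e3] at e5
  obtain ⟨A, hA⟩ : ∃ A, A = ∫⁻ x, S.indicator (fun _ => (1 : ℝ≥0∞)) x * d x := ⟨_, rfl⟩
  obtain ⟨B, hB⟩ : ∃ B, B = ∫⁻ x, Sᶜ.indicator (fun _ => (1 : ℝ≥0∞)) x * d x := ⟨_, rfl⟩
  obtain ⟨A', hA'⟩ : ∃ A, A = ∫⁻ x, S.indicator (fun _ => (1 : ℝ≥0∞)) x * d x ∂μ := ⟨_, rfl⟩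
  obtain ⟨B', hB'⟩ : ∃ B, B = ∫⁻ x, Sᶜ.indicator (fun _ => (1 : ℝ≥0∞)) x * d x ∂μ := ⟨_, rfl⟩
  have e6 : volume (cell : Set V) = A + B := by
    rw [hA, hB]
    exact e5
  have e7 : volume (cell : Set V) = A' + B' := by
    rw [hA', hB']
    exact e4
  have h6 : B' ≤ B := by
    rw [hB, hB']
    exact lintegral_mono' hm le_rfl
  have h7 : B ≠ ⊤ := by
    refine ne_top_of_le_ne_top hfin ?_
    rw [e6]
    exact le_add_self
  have h8 : A + B ≤ A' + B := by
    rw [← e6, e7]
    gcongr
  have h9 := (ENNReal.add_le_add_iff_right h7).1 h8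
  rw [hA, hA', hd] at h9
  exact h9

/-- The limit of measure-preserving maps which commute with the translations of the lattice. -/
theorem mea_lim {X : ℕ → V → V} {Y : V → V} (hX : ∀ k, Measurable (X k))
    (hXm : ∀ k, Measure.map (X k) volume = volume) (hY : Measurable Y)
    (hYn : ∀ (y : V) (n : K3), Y (y - iv n) = Y y - iv n)
    (hlim : ∀ᵐ a, Tendsto (fun k => X k a) atTop (𝓝 (Y a))) :
    Measure.map Y volume = volume := le_eq hY (lim_le hX hXm hY hlim) hYn

end Pool.Agent.Y7
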