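import Pool.Agent.Y7.WMol
import Pool.Agent.Y8.Asm2

/-!
Mollified fields: joint smoothness, the derivative in time, the modulus of continuity in time
(helper7).
-/

set_option autoImplicit false
set_option linter.unusedVariables false

open MeasureTheory Set Metric Filter Topology
open scoped ContDiff Convolution

namespace Pool.Agent.Y7.WD

open H459R3.NS W221.NS Pool.Agent.TH305.DR
open Pool.Agent.W583.MD (sm_pd cs_pd pd_mul' Z Z.add Z.sub Z.smul Z.sum int_cs Z_pd hcs)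
open Pool.Agent.W639.MH (int_ball)
open Pool.Agent.W505.ME.TSM (JS JS.slice JS.pd JS.dt JS.comm JS.sub JS.sum)

lemma cv_flip (κ f : V → ℝ) (x : V) : cv κ f x = ∫ z, κ z * f (x - z) := by
  unfold cv
  have h := integral_sub_left_eq_self (fun z => κ z * f (x - z)) (volume : Measure V) x
  simp only [sub_sub_cancel] at h
  exact h

lemma cv_joint {H : Set ℝ} (hH : IsOpen H) {ε : ℝ} {κ : V → ℝ} (h : Kn ε κ) {f : ℝ → V → ℝ}
    (hf : ContDiffOn ℝ ∞ (fun z : ℝ × V => f z.1 z.2) (H ×ˢ univ)) :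
    ContDiffOn ℝ ∞ (fun z : ℝ × V => cv κ (f z.1) z.2) (H ×ˢ univ) := by
  let g : (ℝ × V) → V → ℝ := fun z y => κ y * f z.1 (z.2 - y)
  have hs : IsOpen (H ×ˢ (univ : Set V)) := Pool.Agent.Y8.opH hH
  have hg : ContDiffOn ℝ ∞ (↿g) ((H ×ˢ (univ : Set V)) ×ˢ (univ : Set V)) := by
    have h1 : ContDiffOn ℝ ∞ (fun q : (ℝ × V) × V => κ q.2)
        ((H ×ˢ (univ : Set V)) ×ˢ (univ : Set V)) :=
      (h.sm.comp contDiff_snd).contDiffOn
    have h2 : ContDiff ℝ ∞ (fun q : (ℝ × V) × V => ((q.1.1, q.1.2 - q.2) : ℝ × V)) := by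
      fun_prop
    have h3 := hf.comp h2.contDiffOn (s := (H ×ˢ (univ : Set V)) ×ˢ (univ : Set V))
      (fun q hq => ⟨hq.1.1, mem_univ _⟩)
    exact h1.mul h3
  have hz : ∀ y ∉ closedBall (0 : V) ε, κ y = 0 := fun y hy =>
    h.out y fun h => hy (ball_subset_closedBall h)
  have key := contDiffOn_convolution_right_with_param_comp (𝕜 := ℝ) (n := ⊤)
    (ContinuousLinearMap.mul ℝ ℝ) (s := H ×ˢ (univ : Set V))
    (v := fun _ : ℝ × V => (0 : V)) contDiffOn_const (f := fun _ : V => (1 : ℝ)) (g := g)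
    (k := closedBall (0 : V) ε) hs (isCompact_closedBall 0 ε)
    (fun z y _ hy => by simp [g, hz y hy]) (μ := (volume : Measure V))
    (locallyIntegrable_const 1) hg
  refine key.congr ?_
  intro z _
  simp only [convolution_def, ContinuousLinearMap.mul_apply', one_mul, zero_sub]
  rw [cv_flip]
  exact (integral_neg_eq_self (fun y => g z y) volume).symm

lemma sl {H : Set ℝ} {f : ℝ → V → ℝ}
    (hf : ContDiffOn ℝ ∞ (fun z : ℝ × V => f z.1 z.2) (H ×ˢ univ)) {t : ℝ} (ht : t ∈ H) :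
    ContDiff ℝ ∞ (f t) := Pool.Agent.Y8.sl_sm hf ht

lemma cv_dt {H : Set ℝ} (hH : IsOpen H) {ε : ℝ} {κ : V → ℝ} (h : Kn ε κ) {f : ℝ → V → ℝ}
    (hf : ContDiffOn ℝ ∞ (fun z : ℝ × V => f z.1 z.2) (H ×ˢ univ)) {t : ℝ} (ht : t ∈ H) (x : V) :
    HasDerivAt (fun s => cv κ (f s) x) (cv κ (fun y => deriv (fun s => f s y) t) x) t := by
  have hF : ContDiffOn ℝ ∞ (fun z : ℝ × V => κ (x - z.2) * f z.1 z.2) (H ×ˢ univ) := by
    have h1 : ContDiff ℝ ∞ (fun z : ℝ × V => κ (x - z.2)) :=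
      h.sm.comp (contDiff_const.sub contDiff_snd)
    exact h1.contDiffOn.mul hf
  have h2 := Pool.Agent.Y8.hd_int (F := fun s y => κ (x - y) * f s y) hH hF (a := x) (R := ε)
    (fun s _ z hz => by
      show κ (x - z) * f s z = 0
      rw [refl_out h x z hz, zero_mul]) ht
  have e : cv κ (fun y => deriv (fun s => f s y) t) x
      = ∫ y, deriv (fun s => κ (x - y) * f s y) t := by
    unfold cv
    refine integral_congr_ae (Eventually.of_forall fun y => ?_)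
    show κ (x - y) * deriv (fun s => f s y) t = deriv (fun s => κ (x - y) * f s y) t
    rw [((Pool.Agent.Y8.dt_hd' hH hf ht y).const_mul (κ (x - y))).deriv]
  rw [e]
  exact h2

/-- Cut-off in time. -/
lemma cut_js {H : Set ℝ} (hH : IsOpen H) (hsub : H ⊆ Ioo (-1) 0) {w : ℝ → V → ℝ}
    (hw : ContDiffOn ℝ ∞ (fun z : ℝ × V => w z.1 z.2) (H ×ˢ univ)) {t : ℝ} (ht : t ∈ H) :
    ∃ W : ℝ → V → ℝ, JS W ∧ ∀ᶠ s in 𝓝 t, W s = w s := by
  obtain ⟨δ, hδ, hδH⟩ := Metric.isOpen_iff.1 hH t ht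
  let χ : ContDiffBump (t : ℝ) := ⟨δ / 4, δ / 2, by positivity, by linarith⟩
  have hχ1 : ∀ s ∈ ball t (δ / 4), χ s = 1 := fun s hs =>
    χ.one_of_mem_closedBall (ball_subset_closedBall hs)
  have hχ0 : ∀ s ∉ closedBall t (δ / 2), χ s = 0 := by
    intro s hs
    apply χ.zero_of_le_dist
    rw [mem_closedBall, not_le] at hs
    exact hs.le
  refine ⟨fun s x => χ s * w s x, ?_, ?_⟩
  · unfold JS
    rintro ⟨s, x⟩ ⟨hs, -⟩
    by_cases hsH : s ∈ H
    · have h1 : ContDiffAt ℝ ∞ (fun z : ℝ × V => w z.1 z.2) (s, x) :=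
        hw.contDiffAt ((Pool.Agent.Y8.opH hH).mem_nhds ⟨hsH, mem_univ _⟩)
      have h2 : ContDiffAt ℝ ∞ (fun z : ℝ × V => χ z.1) (s, x) :=
        (χ.contDiff.comp contDiff_fst).contDiffAt
      exact (h2.mul h1).contDiffWithinAt
    · have hs' : s ∉ closedBall t (δ / 2) := fun h' => hsH (hδH (by
        rw [mem_closedBall] at h'
        rw [mem_ball]
        linarith))
      have h3 : (fun z : ℝ × V => χ z.1 * w z.1 z.2) =ᶠ[𝓝 (s, x)] fun _ => 0 := by
        have ho : IsOpen ((closedBall t (δ / 2))ᶜ ×ˢ (univ : Set V)) :=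
          isClosed_closedBall.isOpen_compl.prod isOpen_univ
        filter_upwards [ho.mem_nhds ⟨hs', mem_univ _⟩] with z hz
        rw [hχ0 z.1 hz.1, zero_mul]
      exact (contDiffAt_const.congr_of_eventuallyEq h3).contDiffWithinAt
  · filter_upwards [ball_mem_nhds t (by positivity : 0 < δ / 4)] with s hs
    funext x
    rw [hχ1 s hs, one_mul]

/-- The derivatives in time and space commute at regular times. -/
lemma comm_H {H : Set ℝ} (hH : IsOpen H) (hsub : H ⊆ Ioo (-1) 0) {w : ℝ → V → ℝ}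
    (hw : ContDiffOn ℝ ∞ (fun z : ℝ × V => w z.1 z.2) (H ×ˢ univ)) {t : ℝ} (ht : t ∈ H)
    (x : V) (j : Fin 3) :
    deriv (fun s => pd j (w s) x) t = pd j (fun y => deriv (fun s => w s y) t) x := by
  obtain ⟨W, hW, hn⟩ := cut_js hH hsub hw ht
  have h1 : deriv (fun s => pd j (w s) x) t = deriv (fun s => pd j (W s) x) t := by
    apply Filter.EventuallyEq.deriv_eq
    filter_upwards [hn] with s hs
    rw [hs]
  have h2 : (fun y => deriv (fun s => w s y) t) = fun y => deriv (fun s => W s y) t := by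
    funext y
    apply Filter.EventuallyEq.deriv_eq
    filter_upwards [hn] with s hs
    rw [hs]
  rw [h1, h2]
  exact hW.comm (hsub ht) x j

/-- The energy inequality at a regular time. -/
lemma en_H (n : ℕ) {H : Set ℝ} (hH : IsOpen H) (hsub : H ⊆ Ioo (-1) 0) {w : ℝ → V → ℝ}
    {φ : V → ℝ} {g : Fin 3 → V → ℝ}
    (hw : ContDiffOn ℝ ∞ (fun z : ℝ × V => w z.1 z.2) (H ×ˢ univ))
    (hφ : ContDiff ℝ ∞ φ) (hg : ∀ m, ContDiff ℝ ∞ (g m)) {ρ : ℝ} (hρ : ρ ≤ 1) {t : ℝ}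
    (ht : t ∈ H)
    (heq : ∀ x ∈ ball (0 : V) ρ, deriv (fun s => w s x) t = lap (w t) x + ∑ m, pd m (g m) x)
    (hout : ∀ x ∉ ball (0 : V) ρ, φ x = 0) :
    ∃ E' : ℝ, HasDerivAt (fun s => ∫ x, SS n (w s) x * φ x ^ 2) E' t ∧
      E' ≤ -(∫ x, SS (n + 1) (w t) x * φ x ^ 2) + 10 * (∫ x, SS n (w t) x * SS 1 φ x)
        + 4 * ∑ m, ∫ x, SS n (g m) x * φ x ^ 2 := by
  obtain ⟨W, hJ, hnear⟩ := cut_js hH hsub hw ht
  have ht1 : W t = w t := hnear.self_of_nhds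
  obtain ⟨E', h1, h2⟩ := enN n hJ hφ hg hρ (hsub ht) (fun x hx => by
    have e1 : deriv (fun s => W s x) t = deriv (fun s => w s x) t := by
      apply Filter.EventuallyEq.deriv_eq
      filter_upwards [hnear] with s hs
      exact congrFun hs x
    rw [e1, ht1]
    exact heq x hx) hout
  refine ⟨E', ?_, ?_⟩
  · refine h1.congr_of_eventuallyEq ?_
    filter_upwards [hnear] with s hs
    show ∫ x, SS n (w s) x * φ x ^ 2 = ∫ x, SS n (W s) x * φ x ^ 2
    rw [hs]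
  · rw [ht1] at h2
    exact h2

/-- From the modulus of continuity to the fundamental theorem of calculus. -/
lemma md_ftc {H : Set ℝ} (hH : IsOpen H) (hsub : H ⊆ Ioo (-1) 0)
    (hfull : volume (Ioo (-1 : ℝ) 0 \ H) = 0) {f k : ℝ → ℝ} (hk : Integrable k)
    (hk0 : ∀ t, 0 ≤ k t) {B : ℝ} (hB : 0 ≤ B)
    (hf : ∀ s ∈ H, ∀ t ∈ H, s ≤ t → |f t - f s| ≤ B * ∫ τ in Ioo s t, k τ) {s t : ℝ} (hs : s ∈ H)
    (ht : t ∈ H) (hst : s ≤ t) :
    IntegrableOn (deriv f) (Ioo s t) ∧ f t - f s = ∫ τ in Ioo s t, deriv f τ := by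
  have hBk : Integrable (fun τ => B * k τ) := hk.const_mul B
  obtain ⟨F, hF1, hF2, hF3⟩ := Pool.Agent.Y8.B.p_acx (-1) 0 H f (fun τ => B * k τ) (by norm_num)
    hsub hBk.integrableOn (fun t => mul_nonneg hB (hk0 t)) (fun s hs t ht hst => by
      rw [integral_const_mul]
      exact hf s hs t ht hst)
  have hs1 := hsub hs
  have ht1 := hsub ht
  obtain ⟨g1, g2⟩ := Pool.Agent.Y8.ftc_mod (F := F) hBk hst (fun a ha b hb hab =>
    hF3 a ⟨hs1.1.le.trans ha.1, ha.2.trans ht1.2.le⟩ b ⟨hs1.1.le.trans hb.1, hb.2.trans ht1.2.le⟩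
      hab)
  have hae : ∀ᵐ τ ∂(volume.restrict (Ioo s t)), deriv F τ = deriv f τ := by
    have h0 : ∀ᵐ τ ∂(volume : Measure ℝ), τ ∉ Ioo (-1 : ℝ) 0 \ H :=
      measure_eq_zero_iff_ae_notMem.1 hfull
    filter_upwards [ae_restrict_of_ae h0, ae_restrict_mem measurableSet_Ioo] with τ h1 h2
    have h3 : τ ∈ H := by
      by_contra h4
      exact h1 ⟨⟨hs1.1.trans h2.1, h2.2.trans ht1.2⟩, h4⟩
    apply Filter.EventuallyEq.deriv_eq
    filter_upwards [hH.mem_nhds h3] with σ hσ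
    exact hF1 σ hσ
  refine ⟨g1.congr hae, ?_⟩
  rw [← hF1 t ht, ← hF1 s hs, g2]
  exact integral_congr_ae hae

/-- Bounded with an integrable modulus of continuity in time, uniformly on the unit ball. -/
def MD (H : Set ℝ) (k : ℝ → ℝ) (f : ℝ → V → ℝ) : Prop := ∃ B : ℝ, 0 ≤ B ∧
  ∀ x ∈ ball (0 : V) 1, (∀ t ∈ H, |f t x| ≤ B) ∧
    ∀ s ∈ H, ∀ t ∈ H, s ≤ t → |f t x - f s x| ≤ B * ∫ τ in Ioo s t, k τ

section
variable {H : Set ℝ} {k : ℝ → ℝ}

lemma MD.add (hk0 : ∀ t, 0 ≤ k t) {f g : ℝ → V → ℝ} (hf : MD H k f) (hg : MD H k g) :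
    MD H k (fun t x => f t x + g t x) := by
  obtain ⟨A, hA, h1⟩ := hf
  obtain ⟨B, hB, h2⟩ := hg
  refine ⟨A + B, by positivity, fun x hx => ⟨fun t ht => ?_, fun s hs t ht hst => ?_⟩⟩
  · exact (abs_add_le _ _).trans (add_le_add ((h1 x hx).1 t ht) ((h2 x hx).1 t ht))
  · have a1 := (h1 x hx).2 s hs t ht hst
    have a2 := (h2 x hx).2 s hs t ht hst
    have e : f t x + g t x - (f s x + g s x) = (f t x - f s x) + (g t x - g s x) := by ring
    rw [e, add_mul]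
    exact (abs_add_le _ _).trans (add_le_add a1 a2)

lemma MD.neg {f : ℝ → V → ℝ} (hf : MD H k f) : MD H k (fun t x => -f t x) := by
  obtain ⟨A, hA, h1⟩ := hf
  refine ⟨A, hA, fun x hx => ⟨fun t ht => ?_, fun s hs t ht hst => ?_⟩⟩
  · rw [abs_neg]
    exact (h1 x hx).1 t ht
  · have a1 := (h1 x hx).2 s hs t ht hst
    have e : -f t x - -f s x = -(f t x - f s x) := by ring
    rw [e, abs_neg]
    exact a1

lemma MD.sub (hk0 : ∀ t, 0 ≤ k t) {f g : ℝ → V → ℝ} (hf : MD H k f) (hg : MD H k g) :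
    MD H k (fun t x => f t x - g t x) := by
  have := hf.add hk0 hg.neg
  simp only [← sub_eq_add_neg] at this
  exact this

lemma MD.sq (hk0 : ∀ t, 0 ≤ k t) {f : ℝ → V → ℝ} (hf : MD H k f) :
    MD H k (fun t x => f t x ^ 2) := by
  obtain ⟨A, hA, h1⟩ := hf
  refine ⟨A ^ 2 + 2 * A * A, by positivity, fun x hx => ⟨fun t ht => ?_, fun s hs t ht hst => ?_⟩⟩
  · have a1 := (h1 x hx).1 t ht
    rw [abs_pow]
    have : |f t x| ^ 2 ≤ A ^ 2 := pow_le_pow_left₀ (abs_nonneg _) a1 2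
    have h3 : 0 ≤ 2 * A * A := by positivity
    linarith
  · have a1 := (h1 x hx).2 s hs t ht hst
    have a2 := (h1 x hx).1 s hs
    have a3 := (h1 x hx).1 t ht
    have e : f t x ^ 2 - f s x ^ 2 = (f t x - f s x) * (f t x + f s x) := by ring
    have hI : 0 ≤ ∫ τ in Ioo s t, k τ := integral_nonneg fun τ => hk0 τ
    rw [e, abs_mul]
    have a4 : |f t x + f s x| ≤ 2 * A := (abs_add_le _ _).trans (by linarith)
    have a5 : |f t x - f s x| * |f t x + f s x| ≤ (A * ∫ τ in Ioo s t, k τ) * (2 * A) :=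
      mul_le_mul a1 a4 (abs_nonneg _) (by positivity)
    have a6 : 0 ≤ A ^ 2 * ∫ τ in Ioo s t, k τ := by positivity
    nlinarith

lemma MD.sum3 (hk0 : ∀ t, 0 ≤ k t) {f : Fin 3 → ℝ → V → ℝ} (hf : ∀ i, MD H k (f i)) :
    MD H k (fun t x => ∑ i, f i t x) := by
  have h := ((hf 0).add hk0 (hf 1)).add hk0 (hf 2)
  have e : (fun t x => f 0 t x + f 1 t x + f 2 t x) = fun t x => ∑ i, f i t x := by
    funext t x
    rw [Fin.sum_univ_three]
  rw [e] at h
  exact h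

lemma MD.congr {f g : ℝ → V → ℝ} (hf : MD H k f)
    (h : ∀ t ∈ H, ∀ x ∈ ball (0 : V) 1, g t x = f t x) : MD H k g := by
  obtain ⟨A, hA, h1⟩ := hf
  refine ⟨A, hA, fun x hx => ⟨fun t ht => ?_, fun s hs t ht hst => ?_⟩⟩
  · rw [h t ht x hx]
    exact (h1 x hx).1 t ht
  · rw [h t ht x hx, h s hs x hx]
    exact (h1 x hx).2 s hs t ht hst

/-- The derivatives of the mollified vorticity. -/
lemma md_SS (hk0 : ∀ t, 0 ≤ k t) {v : ℝ → V → V}
    (hv : ∀ t ∈ H, ∀ i, ContDiff ℝ ∞ (fun y => v t y i)) {ε : ℝ}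
    (hmd : ∀ κ : V → ℝ, Kn ε κ → ∀ i, MD H k (fun t => cv κ (fun y => v t y i)))
    (p : Fin 3 × Fin 3) (n : ℕ) : ∀ κ : V → ℝ, Kn ε κ →
      MD H k (fun t => SS n (cv κ (Om p.1 p.2 (v t)))) := by
  induction n with
  | zero =>
    intro κ hκ
    have h1 := ((hmd _ (hκ.pd p.1) p.2).sub hk0 (hmd _ (hκ.pd p.2) p.1)).sq hk0
    refine h1.congr fun t ht x _ => ?_
    show (cv κ (Om p.1 p.2 (v t)) x) ^ 2 = _
    have e1 : cv κ (Om p.1 p.2 (v t)) x = cv (pd p.1 κ) (fun y => v t y p.2) x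
        - cv (pd p.2 κ) (fun y => v t y p.1) x := by
      have i1 := cv_int hκ (sm_pd (hv t ht p.2) p.1).continuous x
      have i2 := cv_int hκ (sm_pd (hv t ht p.1) p.2).continuous x
      have e2 : cv κ (Om p.1 p.2 (v t)) x = cv κ (pd p.1 (fun y => v t y p.2)) x
          - cv κ (pd p.2 (fun y => v t y p.1)) x := by
        unfold cv
        rw [← integral_sub i1 i2]
        refine integral_congr_ae (Eventually.of_forall fun y => ?_)
        show κ (x - y) * Om p.1 p.2 (v t) y = _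
        unfold Om
        ring
      rw [e2, ← cv_pd' hκ (hv t ht p.2), ← cv_pd' hκ (hv t ht p.1), cv_pd hκ (hv t ht p.2).continuous,
        cv_pd hκ (hv t ht p.1).continuous]
    rw [e1]
  | succ n ih =>
    intro κ hκ
    have h1 := MD.sum3 (f := fun i t => SS n (cv (pd i κ) (Om p.1 p.2 (v t)))) hk0
      fun i => ih (pd i κ) (hκ.pd i)
    refine h1.congr fun t ht x _ => ?_
    rw [SS_succ]
    refine Finset.sum_congr rfl fun i _ => ?_
    rw [cv_pd hκ (om_sm (hv t ht) p.1 p.2).continuous]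

/-- Integrals against a weight. -/
lemma MD.int {f : ℝ → V → ℝ} (hk0 : ∀ t, 0 ≤ k t) (hf : MD H k f)
    (hfc : ∀ t ∈ H, Continuous (f t)) {ψ : V → ℝ} (hψ : Continuous ψ) (hψ0 : ∀ x, 0 ≤ ψ x)
    (hout : ∀ x ∉ ball (0 : V) 1, ψ x = 0) : ∃ B : ℝ, 0 ≤ B ∧
      (∀ t ∈ H, |∫ x, f t x * ψ x| ≤ B) ∧ ∀ s ∈ H, ∀ t ∈ H, s ≤ t →
        |(∫ x, f t x * ψ x) - ∫ x, f s x * ψ x| ≤ B * ∫ τ in Ioo s t, k τ := by
  obtain ⟨A, hA, h1⟩ := hf
  have hψc : HasCompactSupport ψ := Pool.Agent.Y8.hcsR hout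
  have hψi : Integrable ψ := int_cs hψ hψc
  have hI0 : 0 ≤ ∫ x, ψ x := integral_nonneg hψ0
  have hi : ∀ t ∈ H, Integrable (fun x => f t x * ψ x) := fun t ht =>
    int_cs ((hfc t ht).mul hψ) hψc.mul_left
  refine ⟨A * ∫ x, ψ x, by positivity, fun t ht => ?_, fun s hs t ht hst => ?_⟩
  · rw [← integral_const_mul]
    refine (abs_integral_le_integral_abs).trans (integral_mono (hi t ht).abs (hψi.const_mul A)
      fun x => ?_)
    show |f t x * ψ x| ≤ A * ψ x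
    rw [abs_mul, abs_of_nonneg (hψ0 x)]
    by_cases hx : x ∈ ball (0 : V) 1
    · exact mul_le_mul_of_nonneg_right ((h1 x hx).1 t ht) (hψ0 x)
    · rw [hout x hx, mul_zero, mul_zero]
  · rw [← integral_sub (hi t ht) (hi s hs)]
    have hJ : 0 ≤ ∫ τ in Ioo s t, k τ := integral_nonneg fun τ => hk0 τ
    have e : A * (∫ x, ψ x) * ∫ τ in Ioo s t, k τ
        = ∫ x, (A * ∫ τ in Ioo s t, k τ) * ψ x := by
      rw [integral_const_mul]
      ring
    rw [e]
    refine (abs_integral_le_integral_abs).trans (integral_mono ((hi t ht).sub (hi s hs)).abs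
      (hψi.const_mul _) fun x => ?_)
    show |f t x * ψ x - f s x * ψ x| ≤ (A * ∫ τ in Ioo s t, k τ) * ψ x
    rw [← sub_mul, abs_mul, abs_of_nonneg (hψ0 x)]
    by_cases hx : x ∈ ball (0 : V) 1
    · exact mul_le_mul_of_nonneg_right ((h1 x hx).2 s hs t ht hst) (hψ0 x)
    · rw [hout x hx, mul_zero, mul_zero]

end

end Pool.Agent.Y7.WD
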