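import Pool.Agent.TH305.DR.Lev
import Pool.Agent.Y8.En

/-!
Mollification in the space variable (helper7).
-/

set_option autoImplicit false
set_option linter.unusedVariables false

open MeasureTheory Set Metric Filter Topology
open scoped ContDiff Convolution

namespace Pool.Agent.Y7.WD

open H459R3.NS W221.NS Pool.Agent.TH305.DR
open Pool.Agent.W583.MD (sm_pd cs_pd pd_mul' Z Z.add Z.sub Z.smul Z.sum int_cs Z_pd hcs)
open Pool.Agent.W639.MH (int_ball)

/-- Convolution with a kernel. -/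
noncomputable def cv (κ f : V → ℝ) (x : V) : ℝ := ∫ y, κ (x - y) * f y

/-- A smooth kernel supported in the ball of radius `ε`. -/
structure Kn (ε : ℝ) (κ : V → ℝ) : Prop where
  sm : ContDiff ℝ ∞ κ
  out : ∀ z ∉ ball (0 : V) ε, κ z = 0

/-- A mollifier. -/
structure Ker (ε : ℝ) (κ : V → ℝ) : Prop extends Kn ε κ where
  nn : ∀ z, 0 ≤ κ z
  one : ∫ z, κ z = 1

lemma Kn.cs {ε : ℝ} {κ : V → ℝ} (h : Kn ε κ) : HasCompactSupport κ :=
  HasCompactSupport.intro (isCompact_closedBall (0 : V) ε) fun z hz =>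
    h.out z fun h' => hz (ball_subset_closedBall h')

lemma ex_ker {ε : ℝ} (hε : 0 < ε) : ∃ κ : V → ℝ, Ker ε κ := by
  let b : ContDiffBump (0 : V) := ⟨ε / 2, ε, by positivity, by linarith⟩
  refine ⟨b.normed volume, ⟨b.contDiff_normed, fun z hz => ?_⟩, b.nonneg_normed,
    b.integral_normed⟩
  by_contra hne
  have h2 : z ∈ Function.support (b.normed (volume : Measure V)) := hne
  rw [b.support_normed_eq] at h2
  exact hz h2

lemma Kn.pd {ε : ℝ} {κ : V → ℝ} (h : Kn ε κ) (l : Fin 3) : Kn ε (pd l κ) := by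
  refine ⟨sm_pd h.sm l, fun z hz => ?_⟩
  rcases le_or_gt ε 0 with hε | hε
  · have h0 : κ = fun _ => 0 := by
      funext x
      exact h.out x (by rw [ball_eq_empty.2 hε]; exact notMem_empty x)
    rw [h0]
    simp [H459R3.NS.pd]
  · exact Pool.Agent.Y8.pd_zero' h.sm hε h.out hz l

lemma cv_conv (κ f : V → ℝ) : cv κ f = (f ⋆[ContinuousLinearMap.mul ℝ ℝ, volume] κ) := by
  funext x
  unfold cv
  rw [convolution_def]
  refine integral_congr_ae (Eventually.of_forall fun y => ?_)
  simp only [ContinuousLinearMap.mul_apply']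
  ring

lemma cv_smooth {ε : ℝ} {κ f : V → ℝ} (h : Kn ε κ) (hf : Continuous f) :
    ContDiff ℝ ∞ (cv κ f) := by
  rw [cv_conv]
  exact h.cs.contDiff_convolution_right (n := ⊤) _ hf.locallyIntegrable h.sm

lemma cv_pd {ε : ℝ} {κ f : V → ℝ} (h : Kn ε κ) (hf : Continuous f) (l : Fin 3) :
    pd l (cv κ f) = cv (pd l κ) f := by
  funext x
  have h1 := h.cs.hasFDerivAt_convolution_right (ContinuousLinearMap.mul ℝ ℝ)
    (μ := (volume : Measure V)) hf.locallyIntegrable (h.sm.of_le (by norm_cast)) x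
  rw [← cv_conv] at h1
  have h2 : pd l (cv κ f) x = (f ⋆[(ContinuousLinearMap.mul ℝ ℝ).precompR V, volume]
      fderiv ℝ κ) x (Pi.single l 1) := by
    unfold H459R3.NS.pd
    rw [h1.fderiv]
  have hcF : HasCompactSupport (fderiv ℝ κ) := h.cs.fderiv ℝ
  have hex : ConvolutionExistsAt f (fderiv ℝ κ) x ((ContinuousLinearMap.mul ℝ ℝ).precompR V)
      volume :=
    hcF.convolutionExists_right _ hf.locallyIntegrable (h.sm.continuous_fderiv (by simp)) x
  rw [h2, convolution_precompR_apply (ContinuousLinearMap.mul ℝ ℝ) hf.locallyIntegrable hcF (h.sm.continuous_fderiv (by simp))]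
  unfold cv
  rw [convolution_def]
  refine integral_congr_ae (Eventually.of_forall fun y => ?_)
  simp only [ContinuousLinearMap.mul_apply']
  unfold H459R3.NS.pd
  ring

lemma pd_refl {κ : V → ℝ} (hκ : ContDiff ℝ ∞ κ) (x : V) (l : Fin 3) (y : V) :
    pd l (fun y => κ (x - y)) y = -pd l κ (x - y) := by
  have h1 : HasFDerivAt (fun y : V => x - y) (-(ContinuousLinearMap.id ℝ V)) y :=
    (hasFDerivAt_id y).const_sub x
  have h2 : HasFDerivAt (fun y => κ (x - y))
      ((fderiv ℝ κ (x - y)).comp (-(ContinuousLinearMap.id ℝ V))) y :=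
    HasFDerivAt.comp y (hκ.differentiable (by simp) _).hasFDerivAt h1
  unfold H459R3.NS.pd
  rw [h2.fderiv]
  simp

lemma refl_sm {κ : V → ℝ} (hκ : ContDiff ℝ ∞ κ) (x : V) : ContDiff ℝ ∞ (fun y => κ (x - y)) :=
  hκ.comp (contDiff_const.sub contDiff_id)

lemma refl_out {ε : ℝ} {κ : V → ℝ} (h : Kn ε κ) (x : V) : ∀ y ∉ ball x ε, κ (x - y) = 0 := by
  intro y hy
  apply h.out
  intro h'
  apply hy
  rw [mem_ball_zero_iff] at h'
  rw [mem_ball, dist_eq_norm, norm_sub_rev]
  exact h'

lemma refl_cs {ε : ℝ} {κ : V → ℝ} (h : Kn ε κ) (x : V) : HasCompactSupport (fun y => κ (x - y)) :=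
  Pool.Agent.Y8.hcsR (refl_out h x)

lemma cv_pd' {ε : ℝ} {κ f : V → ℝ} (h : Kn ε κ) (hf : ContDiff ℝ ∞ f) (l : Fin 3) :
    pd l (cv κ f) = cv κ (pd l f) := by
  rw [cv_pd h hf.continuous]
  funext x
  have hz := Z_pd ((refl_sm h.sm x).mul hf) ((refl_cs h x).mul_right) l
  have e : pd l (fun y => κ (x - y) * f y)
      = fun y => κ (x - y) * pd l f y - pd l κ (x - y) * f y := by
    funext y
    rw [pd_mul' (refl_sm h.sm x) hf, pd_refl h.sm]
    ring
  rw [e] at hz
  have i1 : Integrable (fun y => κ (x - y) * pd l f y) :=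
    int_cs ((refl_sm h.sm x).continuous.mul (sm_pd hf l).continuous) (refl_cs h x).mul_right
  have i2 : Integrable (fun y => pd l κ (x - y) * f y) :=
    int_cs ((refl_sm (h.pd l).sm x).continuous.mul hf.continuous) (refl_cs (h.pd l) x).mul_right
  have h2 := hz.2
  rw [integral_sub i1 i2] at h2
  unfold cv
  linarith

lemma cv_int {ε : ℝ} {κ f : V → ℝ} (h : Kn ε κ) (hf : Continuous f) (x : V) :
    Integrable (fun y => κ (x - y) * f y) :=
  int_cs ((refl_sm h.sm x).continuous.mul hf) (refl_cs h x).mul_right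

lemma cv_congr {ε : ℝ} {κ f g : V → ℝ} (h : Kn ε κ) {x : V} (hfg : ∀ y ∈ ball x ε, f y = g y) :
    cv κ f x = cv κ g x := by
  unfold cv
  refine integral_congr_ae (Eventually.of_forall fun y => ?_)
  by_cases hy : y ∈ ball x ε
  · simp only [hfg y hy]
  · simp only [refl_out h x y hy, zero_mul]

lemma ker_shift {ε : ℝ} {κ : V → ℝ} (h : Ker ε κ) (x : V) : ∫ y, κ (x - y) = 1 := by
  rw [integral_sub_left_eq_self κ volume x]
  exact h.one

lemma cv_mono {ε : ℝ} {κ f g : V → ℝ} (h : Ker ε κ) (hf : Continuous f) (hg : Continuous g)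
    {x : V} (hfg : ∀ y ∈ ball x ε, f y ≤ g y) : cv κ f x ≤ cv κ g x := by
  refine integral_mono (cv_int h.toKn hf x) (cv_int h.toKn hg x) fun y => ?_
  show κ (x - y) * f y ≤ κ (x - y) * g y
  by_cases hy : y ∈ ball x ε
  · exact mul_le_mul_of_nonneg_left (hfg y hy) (h.nn _)
  · rw [refl_out h.toKn x y hy, zero_mul, zero_mul]

lemma cv_const {ε : ℝ} {κ : V → ℝ} (h : Ker ε κ) (c : ℝ) (x : V) : cv κ (fun _ => c) x = c := by
  unfold cv
  rw [integral_mul_const, ker_shift h, one_mul]

lemma cv_nonneg {ε : ℝ} {κ f : V → ℝ} (h : Ker ε κ) (hf : ∀ y, 0 ≤ f y) (x : V) :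
    0 ≤ cv κ f x := integral_nonneg fun y => mul_nonneg (h.nn _) (hf y)

/-- Jensen's inequality. -/
lemma cv_sq {ε : ℝ} {κ f : V → ℝ} (h : Ker ε κ) (hf : Continuous f) (x : V) :
    cv κ f x ^ 2 ≤ cv κ (fun y => f y ^ 2) x := by
  obtain ⟨m, hm⟩ : ∃ m, m = cv κ f x := ⟨_, rfl⟩
  have h0 : 0 ≤ ∫ y, κ (x - y) * (f y - m) ^ 2 :=
    integral_nonneg fun y => mul_nonneg (h.nn _) (sq_nonneg _)
  have e : ∀ y, κ (x - y) * (f y - m) ^ 2
      = κ (x - y) * f y ^ 2 - 2 * m * (κ (x - y) * f y) + m ^ 2 * κ (x - y) := by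
    intro y; ring
  have i0 : Integrable (fun y => κ (x - y) * f y ^ 2) := cv_int h.toKn (hf.pow 2) x
  have i1 : Integrable (fun y => 2 * m * (κ (x - y) * f y)) := (cv_int h.toKn hf x).const_mul _
  have i2 : Integrable (fun y => κ (x - y)) := by
    have := cv_int h.toKn (f := fun _ => 1) continuous_const x
    simpa using this
  simp_rw [e] at h0
  have i01 : Integrable (fun y => κ (x - y) * f y ^ 2 - 2 * m * (κ (x - y) * f y)) := i0.sub i1
  rw [integral_add i01 (i2.const_mul _), integral_sub i0 i1, integral_const_mul,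
    integral_const_mul, ker_shift h] at h0
  have e1 : ∫ y, κ (x - y) * f y = m := hm.symm
  rw [e1] at h0
  rw [← hm]
  have e2 : cv κ (fun y => f y ^ 2) x = ∫ y, κ (x - y) * f y ^ 2 := rfl
  rw [e2]
  linarith

lemma cv_sum3 {ε : ℝ} {κ : V → ℝ} (h : Kn ε κ) {f : Fin 3 → V → ℝ} (hf : ∀ i, Continuous (f i))
    (x : V) : cv κ (fun y => ∑ i, f i y) x = ∑ i, cv κ (f i) x := by
  unfold cv
  rw [← integral_finsetSum _ fun i _ => cv_int h (hf i) x]
  refine integral_congr_ae (Eventually.of_forall fun y => ?_)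
  simp only [Finset.mul_sum]

/-- Jensen's inequality for the derivatives. -/
lemma cv_SS {ε : ℝ} {κ : V → ℝ} (h : Ker ε κ) (n : ℕ) : ∀ {f : V → ℝ}, ContDiff ℝ ∞ f →
    ∀ x : V, SS n (cv κ f) x ≤ cv κ (SS n f) x := by
  induction n with
  | zero =>
    intro f hf x
    exact cv_sq h hf.continuous x
  | succ n ih =>
    intro f hf x
    have e1 : SS (n + 1) (cv κ f) x = ∑ i, SS n (cv κ (pd i f)) x := by
      rw [SS_succ]
      refine Finset.sum_congr rfl fun i _ => ?_
      rw [cv_pd' h.toKn hf]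
    have e2 : cv κ (SS (n + 1) f) x = ∑ i, cv κ (SS n (pd i f)) x := by
      rw [← cv_sum3 h.toKn (fun i => SS_cont n (sm_pd hf i))]
      rfl
    rw [e1, e2]
    exact Finset.sum_le_sum fun i _ => ih (sm_pd hf i) x

/-- Against a weight. -/
lemma cv_wt {ε : ℝ} {κ : V → ℝ} (h : Ker ε κ) (hε : 0 < ε) {F ψ : V → ℝ} (hF : Continuous F)
    (hF0 : ∀ x, 0 ≤ F x) (hψ : Continuous ψ) (hψ0 : ∀ x, 0 ≤ ψ x) {ρ L : ℝ}
    (hout : ∀ x ∉ ball (0 : V) ρ, ψ x = 0) (hL : 0 ≤ L) (hlip : ∀ x y, |ψ x - ψ y| ≤ L * ‖x - y‖) :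
    ∫ x, cv κ F x * ψ x ≤ (∫ x, F x * ψ x) + L * ε * ∫ x in ball (0 : V) (ρ + ε), F x := by
  have hψc : HasCompactSupport ψ := Pool.Agent.Y8.hcsR hout
  have hsw : ∫ x, cv κ F x * ψ x = ∫ y, F y * ∫ x, κ (x - y) * ψ x := by
    have e1 : ∀ x, cv κ F x * ψ x = ∫ y, κ (x - y) * F y * ψ x := fun x => by
      unfold cv
      rw [← integral_mul_const]
    have e2 : ∀ y, F y * (∫ x, κ (x - y) * ψ x) = ∫ x, κ (x - y) * F y * ψ x := fun y => by
      rw [← integral_const_mul]
      refine integral_congr_ae (Eventually.of_forall fun x => ?_)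
      show F y * (κ (x - y) * ψ x) = κ (x - y) * F y * ψ x
      ring
    simp_rw [e1, e2]
    apply integral_integral_swap
    have hc : Continuous (fun p : V × V => κ (p.1 - p.2) * F p.2 * ψ p.1) := by
      have := h.sm.continuous
      fun_prop
    apply hc.integrable_of_hasCompactSupport
    refine HasCompactSupport.intro ((isCompact_closedBall (0 : V) ρ).prod
      (isCompact_closedBall (0 : V) (ρ + ε))) ?_
    rintro ⟨x, y⟩ hxy
    by_cases hx : x ∈ ball (0 : V) ρ
    · by_cases hy : y ∈ ball x ε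
      · exfalso
        apply hxy
        refine ⟨ball_subset_closedBall hx, ?_⟩
        rw [mem_closedBall_zero_iff]
        rw [mem_ball_zero_iff] at hx
        rw [mem_ball, dist_eq_norm] at hy
        have : ‖y‖ ≤ ‖y - x‖ + ‖x‖ := by
          have := norm_add_le (y - x) x
          rwa [sub_add_cancel] at this
        simp only
        linarith
      · show κ (x - y) * F y * ψ x = 0
        rw [refl_out h.toKn x y hy]
        ring
    · show κ (x - y) * F y * ψ x = 0
      rw [hout x hx]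
      ring
  have hk1 : ∀ y, ∫ x, κ (x - y) = 1 := fun y => by
    rw [integral_sub_right_eq_self κ y]
    exact h.one
  have hki : ∀ y, Integrable (fun x => κ (x - y)) := fun y =>
    (int_cs h.sm.continuous h.cs).comp_sub_right y
  have hks : ∀ y (g : V → ℝ), Continuous g → Integrable (fun x => κ (x - y) * g x) := by
    intro y g hg
    have hcs : HasCompactSupport (fun x => κ (x - y)) :=
      h.cs.comp_homeomorph (Homeomorph.subRight y)
    have := h.sm.continuous
    exact int_cs (by fun_prop) hcs.mul_right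
  have hin : ∀ y, ∫ x, κ (x - y) * ψ x ≤ ψ y + L * ε * (ball (0 : V) (ρ + ε)).indicator 1 y := by
    intro y
    by_cases hy : y ∈ ball (0 : V) (ρ + ε)
    · rw [indicator_of_mem hy, Pi.one_apply, mul_one]
      have h1 : ∫ x, κ (x - y) * ψ x ≤ ∫ x, κ (x - y) * (ψ y + L * ε) := by
        refine integral_mono (hks y ψ hψ) (hks y _ continuous_const) fun x => ?_
        show κ (x - y) * ψ x ≤ κ (x - y) * (ψ y + L * ε)
        by_cases hx : x - y ∈ ball (0 : V) ε
        · refine mul_le_mul_of_nonneg_left ?_ (h.nn _)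
          rw [mem_ball_zero_iff] at hx
          have h2 := (abs_le.1 (hlip x y)).2
          have h3 : L * ‖x - y‖ ≤ L * ε := mul_le_mul_of_nonneg_left hx.le hL
          linarith
        · rw [h.out _ hx, zero_mul, zero_mul]
      rw [integral_mul_const, hk1, one_mul] at h1
      exact h1
    · rw [indicator_of_notMem hy, mul_zero, add_zero]
      have h1 : ∫ x, κ (x - y) * ψ x = 0 := by
        have : ∀ x, κ (x - y) * ψ x = 0 := by
          intro x
          by_cases hx : x ∈ ball (0 : V) ρ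
          · rw [h.out (x - y), zero_mul]
            intro h'
            apply hy
            rw [mem_ball_zero_iff] at hx h' ⊢
            have : ‖y‖ ≤ ‖x‖ + ‖x - y‖ := by
              have := norm_sub_le x (x - y)
              rwa [sub_sub_cancel] at this
            linarith
          · rw [hout x hx, mul_zero]
        simp [this]
      rw [h1]
      exact hψ0 y
  rw [hsw]
  have i1 : Integrable (fun y => F y * ψ y) := int_cs (hF.mul hψ) hψc.mul_left
  have i2 : IntegrableOn F (ball (0 : V) (ρ + ε)) := int_ball hF 0 _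
  have i3 : Integrable ((ball (0 : V) (ρ + ε)).indicator F) := i2.integrable_indicator
    measurableSet_ball
  have e3 : (∫ x, F x * ψ x) + L * ε * ∫ x in ball (0 : V) (ρ + ε), F x
      = ∫ y, (F y * ψ y + L * ε * (ball (0 : V) (ρ + ε)).indicator F y) := by
    rw [integral_add i1 (i3.const_mul _), integral_const_mul, integral_indicator measurableSet_ball]
  rw [e3]
  refine integral_mono_of_nonneg (Eventually.of_forall fun y => mul_nonneg (hF0 y)
    (integral_nonneg fun x => mul_nonneg (h.nn _) (hψ0 x))) (i1.add (i3.const_mul _))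
    (Eventually.of_forall fun y => ?_)
  show F y * (∫ x, κ (x - y) * ψ x) ≤ F y * ψ y + L * ε * (ball (0 : V) (ρ + ε)).indicator F y
  refine (mul_le_mul_of_nonneg_left (hin y) (hF0 y)).trans (le_of_eq ?_)
  by_cases hy : y ∈ ball (0 : V) (ρ + ε)
  · rw [indicator_of_mem hy, indicator_of_mem hy, Pi.one_apply]
    ring
  · rw [indicator_of_notMem hy, indicator_of_notMem hy]
    ring

/-- Convergence. -/
lemma cv_lim {κ : ℕ → V → ℝ} {ε : ℕ → ℝ} (hε : Tendsto ε atTop (𝓝 0))
    (h : ∀ j, Ker (ε j) (κ j)) {f : V → ℝ} (hf : Continuous f) (x : V) :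
    Tendsto (fun j => cv (κ j) f x) atTop (𝓝 (f x)) := by
  rw [Metric.tendsto_atTop]
  intro δ hδ
  obtain ⟨r, hr, hfr⟩ := Metric.continuous_iff.1 hf x (δ / 2) (by positivity)
  have h1 : ∀ᶠ j in atTop, ε j < r := hε.eventually (gt_mem_nhds hr)
  obtain ⟨N, hN⟩ := eventually_atTop.1 h1
  refine ⟨N, fun j hj => ?_⟩
  have hj' := hN j hj
  have hb : ∀ y ∈ ball x (ε j), |f y - f x| ≤ δ / 2 := by
    intro y hy
    have := hfr y (lt_trans hy hj')
    rw [Real.dist_eq] at this
    exact this.le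
  have u1 : cv (κ j) f x ≤ f x + δ / 2 := by
    have := cv_mono (h j) hf continuous_const (x := x) (g := fun _ => f x + δ / 2) (fun y hy => by
      have := (abs_le.1 (hb y hy)).2
      linarith)
    rwa [cv_const (h j)] at this
  have u2 : f x - δ / 2 ≤ cv (κ j) f x := by
    have := cv_mono (h j) continuous_const hf (x := x) (f := fun _ => f x - δ / 2) (fun y hy => by
      have := (abs_le.1 (hb y hy)).1
      linarith)
    rwa [cv_const (h j)] at this
  rw [Real.dist_eq, abs_lt]
  constructor <;> linarith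

lemma cv_SS_lim {κ : ℕ → V → ℝ} {ε : ℕ → ℝ} (hε : Tendsto ε atTop (𝓝 0))
    (h : ∀ j, Ker (ε j) (κ j)) (n : ℕ) : ∀ {f : V → ℝ}, ContDiff ℝ ∞ f → ∀ x : V,
      Tendsto (fun j => SS n (cv (κ j) f) x) atTop (𝓝 (SS n f x)) := by
  induction n with
  | zero =>
    intro f hf x
    exact (cv_lim hε h hf.continuous x).pow 2
  | succ n ih =>
    intro f hf x
    have e : (fun j => SS (n + 1) (cv (κ j) f) x) = fun j => ∑ i, SS n (cv (κ j) (pd i f)) x := by
      funext j
      rw [SS_succ]
      refine Finset.sum_congr rfl fun i _ => ?_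
      rw [cv_pd' (h j).toKn hf]
    rw [e, SS_succ]
    exact tendsto_finsetSum _ fun i _ => ih (sm_pd hf i) x

/-- Convergence of weighted integrals. -/
lemma cv_int_lim {κ : ℕ → V → ℝ} {ε : ℕ → ℝ} (hε : Tendsto ε atTop (𝓝 0)) (hε1 : ∀ j, ε j ≤ 1)
    (h : ∀ j, Ker (ε j) (κ j)) (n : ℕ) {f : V → ℝ} (hf : ContDiff ℝ ∞ f) {ψ : V → ℝ}
    (hψ : Continuous ψ) (hψ0 : ∀ x, 0 ≤ ψ x) {ρ : ℝ} (hout : ∀ x ∉ ball (0 : V) ρ, ψ x = 0) :
    Tendsto (fun j => ∫ x, SS n (cv (κ j) f) x * ψ x) atTop (𝓝 (∫ x, SS n f x * ψ x)) := by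
  have hψc : HasCompactSupport ψ := Pool.Agent.Y8.hcsR hout
  obtain ⟨B, hB⟩ := (isCompact_closedBall (0 : V) (ρ + 1)).exists_bound_of_continuousOn
    (SS_cont n hf).continuousOn
  refine tendsto_integral_of_dominated_convergence (fun x => |B| * ψ x) (fun j => ?_)
    ((int_cs hψ hψc).const_mul _) (fun j => Eventually.of_forall fun x => ?_)
    (Eventually.of_forall fun x => (cv_SS_lim hε h n hf x).mul_const _)
  · exact ((SS_cont n (cv_smooth (h j).toKn hf.continuous)).mul hψ).aestronglyMeasurable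
  · rw [Real.norm_eq_abs, abs_mul, abs_of_nonneg (hψ0 x), abs_of_nonneg (SS_nonneg _ _ _)]
    by_cases hx : x ∈ ball (0 : V) ρ
    · refine mul_le_mul_of_nonneg_right ?_ (hψ0 x)
      refine (cv_SS (h j) n hf x).trans ?_
      have h1 := cv_mono (h j) (SS_cont n hf) continuous_const (x := x) (g := fun _ => |B|)
        (fun y hy => by
          have hy1 : y ∈ closedBall (0 : V) (ρ + 1) := by
            rw [mem_closedBall_zero_iff]
            rw [mem_ball_zero_iff] at hx
            rw [mem_ball, dist_eq_norm] at hy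
            have h2 : ‖y‖ ≤ ‖y - x‖ + ‖x‖ := by
              have := norm_add_le (y - x) x
              rwa [sub_add_cancel] at this
            have := hε1 j
            linarith
          have := hB y hy1
          rw [Real.norm_eq_abs] at this
          exact (le_abs_self _).trans (this.trans (le_abs_self _)))
      rwa [cv_const (h j)] at h1
    · rw [hout x hx, mul_zero, mul_zero]

end Pool.Agent.Y7.WD
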