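import Pool.Agent.Y7.WLoc
import Pool.Agent.Y7.Core7

/-!
The regularity scale along the paths of the mollified velocity, weak solutions (helper7).
-/

set_option autoImplicit false
set_option linter.unusedVariables false

open MeasureTheory Set Metric Filter Topology
open scoped ContDiff ENNReal NNReal

namespace Pool.Agent.Y7

open H459R3.NS W221.NS Pool.Agent.TH305.LW Pool.Agent.TH305.DR Pool.Agent.TH305.LG
open Pool.Agent.Y7.Cov1 Pool.Agent.Y8 Pool.Agent.W349.MF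

/-- The regularity scale along a path of the mollified velocity. -/
theorem wpart (hE4 : S_WEN4) : ∃ (η C : ℝ) (K : ℕ → ℝ), 0 < η ∧ 0 < C ∧ (∀ n, 0 < K n) ∧
    ∀ (T E D : ℝ) (G : Set ℝ) (u : ℝ → V → V) (p : ℝ → V → ℝ), Turb 1 T E D G u p →
      ∀ R₀ : ℝ, 0 < R₀ → sc R₀ 0 ≤ 1 → ∀ (M N : ℕ), M + 4 ≤ N →
      ∀ (t₁ t : ℝ), 0 ≤ t₁ → t₁ < t → t ∈ G → ∀ (ξ ξ' : ℝ → V) (B C' : ℝ),
      FPath T (sc R₀ N) B C' G u p ξ ξ' → ∀ f : ℝ → ℝ≥0∞,
      (∀ τ ∈ Ioo t₁ t, τ ∈ G → f τ = Fx R₀ (u τ) (ξ τ)) →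
      min (Reg K 1 (u t) (ξ t)) (ENNReal.ofReal (1 / hh (sc R₀ 0 ^ 2) M ^ 2))
        ≤ ENNReal.ofReal C * (ENNReal.ofReal (1 / sc R₀ 0 ^ 4)
        + ENNReal.ofReal (1 / (t - t₁) ^ 2)
        + (∑' j : ℕ, ENNReal.ofReal (1 / hh (sc R₀ 0 ^ 2) j ^ 2)
            * (bad f (sc R₀ 0 ^ 2) η j).indicator (fun _ => 1) t)
        + Fx R₀ (u t) (ξ t)) := by
  obtain ⟨η, C, K, hη, hC, hK, H⟩ := wloc7 hE4
  refine ⟨η, 16 * 256 ^ 4 + 256 ^ 4 * C, K, hη, by positivity, hK, ?_⟩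
  intro T E D G u p hN R₀ hR₀ hsc1 M N hMN t₁ t ht₁ h1t htG ξ ξ' B C' hξ f hf
  have htT := hN.subG htG
  obtain ⟨h₀, hh₀⟩ : ∃ h₀, h₀ = sc R₀ 0 ^ 2 := ⟨_, rfl⟩
  have hsc := sc_pos hR₀ 0
  have h₀0 : 0 < h₀ := by rw [hh₀]; positivity
  have e4 : sc R₀ 0 ^ 4 = hh h₀ 0 ^ 2 := by
    rw [hh₀, ← sc_hh]
    ring
  rw [← hh₀]
  obtain ⟨S, hS⟩ : ∃ S, S = ∑' j : ℕ, ENNReal.ofReal (1 / hh h₀ j ^ 2)
      * (bad f h₀ η j).indicator (fun _ => 1) t := ⟨_, rfl⟩
  rw [← hS]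
  by_cases hFt : Fx R₀ (u t) (ξ t) = ⊤
  · rw [hFt]
    have : ENNReal.ofReal (16 * 256 ^ 4 + 256 ^ 4 * C) ≠ 0 := by
      rw [Ne, ENNReal.ofReal_eq_zero, not_le]
      positivity
    rw [add_top, ENNReal.mul_top this]
    exact le_top
  obtain ⟨F, hF⟩ : ∃ F, F = (Fx R₀ (u t) (ξ t)).toReal := ⟨_, rfl⟩
  have hF0 : 0 ≤ F := by rw [hF]; exact ENNReal.toReal_nonneg
  have hFF : Fx R₀ (u t) (ξ t) = ENNReal.ofReal F := by rw [hF, ENNReal.ofReal_toReal hFt]
  by_cases hex : ∃ k, k ≤ M ∧ hh h₀ k < t - t₁ ∧ t ∉ bad f h₀ η k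
  · classical
    refine (min_le_left _ _).trans ?_
    obtain ⟨k, hk⟩ : ∃ k, k = Nat.find hex := ⟨_, rfl⟩
    have hk1 : k ≤ M ∧ hh h₀ k < t - t₁ ∧ t ∉ bad f h₀ η k := by rw [hk]; exact Nat.find_spec hex
    have hkm : ∀ j, j < k → ¬(hh h₀ j < t - t₁ ∧ t ∉ bad f h₀ η j) := fun j hj hcon =>
      Nat.find_min hex (by rwa [← hk]) ⟨by omega, hcon⟩
    obtain ⟨hkM, hk2, hk3⟩ := hk1
    have er : sc R₀ k ^ 2 = hh h₀ k := by rw [hh₀]; exact sc_hh R₀ k
    have hhk := hh_pos h₀0 k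
    have hgood : ∫⁻ τ in Ioo (t - hh h₀ k) t, f τ ≤ ENNReal.ofReal (η / hh h₀ k) :=
      not_lt.1 hk3
    have hloc := H T E D G u p hN R₀ hR₀ hsc1 k N t (by omega) (by rw [er]; linarith) htG ξ ξ' B C'
      hξ (by
        rw [er]
        refine le_trans (le_of_eq ?_) hgood
        apply lintegral_congr_ae
        filter_upwards [aeT hN (show 0 ≤ t - hh h₀ k by linarith) htT.2.le,
          ae_restrict_mem measurableSet_Ioo] with τ h1 h2
        exact (hf τ ⟨by linarith [h2.1], h2.2⟩ h1).symm) F hF0 hFF.le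
    have hreg := reg_of (sc_pos hR₀ k) hC hF0 hloc
    have e5 : sc R₀ k ^ 4 = hh h₀ k ^ 2 := by
      rw [← er]
      ring
    rw [e5] at hreg
    have hb : ENNReal.ofReal (256 ^ 4 / hh h₀ k ^ 2) ≤ ENNReal.ofReal (16 * 256 ^ 4)
        * (ENNReal.ofReal (1 / sc R₀ 0 ^ 4) + ENNReal.ofReal (1 / (t - t₁) ^ 2) + S) := by
      rcases Nat.eq_zero_or_pos k with h0 | hpos
      · rw [h0, e4]
        calc ENNReal.ofReal (256 ^ 4 / hh h₀ 0 ^ 2)
            ≤ ENNReal.ofReal (16 * 256 ^ 4) * ENNReal.ofReal (1 / hh h₀ 0 ^ 2) := by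
              rw [← ENNReal.ofReal_mul (by norm_num)]
              apply ENNReal.ofReal_le_ofReal
              rw [mul_one_div]
              have := hh_pos h₀0 0
              gcongr
              norm_num
          _ ≤ _ := by
              gcongr
              exact le_add_right le_self_add
      · obtain ⟨j, hj⟩ : ∃ j, k = j + 1 := ⟨k - 1, by omega⟩
        have hjn := hkm j (by omega)
        have hhj := hh_pos h₀0 j
        have e6 : 256 ^ 4 / hh h₀ k ^ 2 = 16 * 256 ^ 4 * (1 / hh h₀ j ^ 2) := by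
          have h7 := hh_succ (h₀ := h₀) j
          rw [← hj] at h7
          rw [h7]
          field_simp
          norm_num
        rw [e6, ENNReal.ofReal_mul (by norm_num)]
        by_cases hjb : t ∈ bad f h₀ η j
        · have h8 : ENNReal.ofReal (1 / hh h₀ j ^ 2) ≤ S := by
            rw [hS]
            refine le_trans (le_of_eq ?_) (ENNReal.le_tsum j)
            rw [indicator_of_mem hjb, mul_one]
          gcongr
          exact h8.trans le_add_self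
        · have h9 : t - t₁ ≤ hh h₀ j := by
            by_contra hcon
            exact hjn ⟨not_le.1 hcon, hjb⟩
          have h10 : ENNReal.ofReal (1 / hh h₀ j ^ 2) ≤ ENNReal.ofReal (1 / (t - t₁) ^ 2) := by
            apply ENNReal.ofReal_le_ofReal
            have : 0 < t - t₁ := by linarith
            gcongr
          gcongr
          exact h10.trans (le_add_right le_add_self)
    refine hreg.trans ?_
    rw [mul_add]
    gcongr
    · refine hb.trans ?_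
      gcongr
      have : 0 ≤ 256 ^ 4 * C := by positivity
      linarith
    · rw [hFF, ← ENNReal.ofReal_mul (by positivity)]
      apply ENNReal.ofReal_le_ofReal
      have : 0 ≤ 16 * 256 ^ 4 * F := by positivity
      linarith
  · push Not at hex
    refine (min_le_right _ _).trans ?_
    have hhM := hh_pos h₀0 M
    have h1C : (1 : ℝ≥0∞) ≤ ENNReal.ofReal (16 * 256 ^ 4 + 256 ^ 4 * C) := by
      rw [← ENNReal.ofReal_one]
      apply ENNReal.ofReal_le_ofReal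
      have : 0 ≤ 256 ^ 4 * C := by positivity
      nlinarith
    have h2 : ENNReal.ofReal (1 / hh h₀ M ^ 2) ≤ ENNReal.ofReal (1 / sc R₀ 0 ^ 4)
        + ENNReal.ofReal (1 / (t - t₁) ^ 2) + S + Fx R₀ (u t) (ξ t) := by
      rcases lt_or_ge (hh h₀ M) (t - t₁) with h3 | h3
      · have h4 := hex M le_rfl h3
        have h8 : ENNReal.ofReal (1 / hh h₀ M ^ 2) ≤ S := by
          rw [hS]
          refine le_trans (le_of_eq ?_) (ENNReal.le_tsum M)
          rw [indicator_of_mem h4, mul_one]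
        exact (h8.trans le_add_self).trans le_self_add
      · have h10 : ENNReal.ofReal (1 / hh h₀ M ^ 2) ≤ ENNReal.ofReal (1 / (t - t₁) ^ 2) := by
          apply ENNReal.ofReal_le_ofReal
          have : 0 < t - t₁ := by linarith
          gcongr
        exact ((h10.trans le_add_self).trans le_self_add).trans le_self_add
    calc ENNReal.ofReal (1 / hh h₀ M ^ 2) ≤ _ := h2
      _ = 1 * (ENNReal.ofReal (1 / sc R₀ 0 ^ 4)
        + ENNReal.ofReal (1 / (t - t₁) ^ 2) + S + Fx R₀ (u t) (ξ t)) := (one_mul _).symm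
      _ ≤ _ := by gcongr

/-! ### Measurability of the regularity scale -/

lemma adm_mono {K : ℕ → ℝ} {ν : ℝ} {v : V → V} {x : V} {ρ q : ℝ} (h : Adm K ν v x ρ)
    (hq : 0 < q) (hqρ : q ≤ ρ) : Adm K ν v x q := by
  refine ⟨hq, fun y hy n => ?_⟩
  refine le_trans ?_ (h.2 y (ball_subset_ball hqρ hy) n)
  exact mul_le_mul_of_nonneg_right (pow_le_pow_left₀ hq.le hqρ _) (SV_nn _ _ _)

lemma reg_lt {K : ℕ → ℝ} {ν : ℝ} {v : V → V} {x : V} {c : ℝ≥0∞} :
    Reg K ν v x < c ↔ ∃ q : ℚ, 0 < (q : ℝ) ∧ ENNReal.ofReal (1 / (q : ℝ) ^ 4) < c ∧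
      Adm K ν v x q := by
  constructor
  · intro h
    unfold Reg at h
    rw [iInf_lt_iff] at h
    obtain ⟨ρ, h⟩ := h
    rw [iInf_lt_iff] at h
    obtain ⟨hA, h⟩ := h
    have hρ := hA.1
    have hcont : ContinuousAt (fun q : ℝ => ENNReal.ofReal (1 / q ^ 4)) ρ := by
      apply ENNReal.continuous_ofReal.continuousAt.comp
      apply ContinuousAt.div continuousAt_const (by fun_prop) (by positivity)
    have hev : ∀ᶠ q in 𝓝[<] ρ, ENNReal.ofReal (1 / q ^ 4) < c :=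
      (hcont.tendsto.eventually (gt_mem_nhds h)).filter_mono nhdsWithin_le_nhds
    have hev2 : ∀ᶠ q in 𝓝[<] ρ, q ∈ Ioo 0 ρ := Ioo_mem_nhdsLT hρ
    obtain ⟨l, hl, hlρ⟩ := (mem_nhdsLT_iff_exists_Ioo_subset' (show ρ - 1 < ρ by linarith)).1
      (hev.and hev2)
    obtain ⟨q, hq1, hq2⟩ := exists_rat_btwn (show l < ρ from hl)
    obtain ⟨h3, h4⟩ := hlρ ⟨hq1, hq2⟩
    exact ⟨q, h4.1, h3, adm_mono hA h4.1 h4.2.le⟩
  · rintro ⟨q, h1, h2, h3⟩
    exact (reg_le h3).trans_lt h2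

section
variable {T E D : ℝ} {G : Set ℝ} {u : ℝ → V → V} {p : ℝ → V → ℝ}

lemma adm_meas (h : Turb 1 T E D G u p) (K : ℕ → ℝ) (ν q : ℝ) (hq : 0 < q) :
    MeasurableSet {z : ℝ × V | z ∈ G ×ˢ (univ : Set V) ∧ Adm K ν (u z.1) z.2 q} := by
  have hGV : IsOpen (G ×ˢ (univ : Set V)) := opH h.openG
  have hO : ∀ (n : ℕ) (w : V), IsOpen {z : ℝ × V | z ∈ G ×ˢ (univ : Set V) ∧
      K n * ν ^ 2 < q ^ (2 * n + 4) * SV (n + 1) (u z.1) (z.2 + w)} := by
    intro n w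
    have h1 : ContinuousOn (fun z : ℝ × V => SV (n + 1) (u z.1) z.2) (G ×ˢ univ) :=
      continuousOn_finsetSum _ fun i _ =>
        (WD.jh_ss (w := fun t x => u t x i) h.openG (n + 1)
          (comp_joint h.smooth_u i)).continuousOn
    have h2 : ContinuousOn (fun z : ℝ × V => q ^ (2 * n + 4) * SV (n + 1) (u z.1) (z.2 + w))
        (G ×ˢ univ) :=
      continuousOn_const.mul (h1.comp (f := fun z : ℝ × V => (z.1, z.2 + w)) (by fun_prop)
        fun z hz => ⟨hz.1, mem_univ _⟩)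
    exact h2.isOpen_inter_preimage hGV isOpen_Ioi
  have hU : IsOpen (⋃ n : ℕ, ⋃ w ∈ ball (0 : V) q, {z : ℝ × V | z ∈ G ×ˢ (univ : Set V) ∧
      K n * ν ^ 2 < q ^ (2 * n + 4) * SV (n + 1) (u z.1) (z.2 + w)}) :=
    isOpen_iUnion fun n => isOpen_biUnion fun w _ => hO n w
  have e : {z : ℝ × V | z ∈ G ×ˢ (univ : Set V) ∧ Adm K ν (u z.1) z.2 q}
      = (G ×ˢ (univ : Set V)) \ (⋃ n : ℕ, ⋃ w ∈ ball (0 : V) q, {z : ℝ × V |
        z ∈ G ×ˢ (univ : Set V) ∧
        K n * ν ^ 2 < q ^ (2 * n + 4) * SV (n + 1) (u z.1) (z.2 + w)}) := by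
    ext z
    simp only [mem_ofPred_eq, Set.mem_sdiff, mem_iUnion, not_exists, not_and]
    constructor
    · rintro ⟨hz, hA⟩
      refine ⟨hz, fun n w hw _ => not_lt.2 ?_⟩
      apply hA.2 (z.2 + w) _ n
      rw [mem_ball, dist_eq_norm, add_sub_cancel_left]
      rwa [mem_ball_zero_iff] at hw
    · rintro ⟨hz, hA⟩
      refine ⟨hz, hq, fun y hy n => ?_⟩
      have := hA n (y - z.2) (by
        rw [mem_ball_zero_iff]
        rwa [mem_ball, dist_eq_norm] at hy) hz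
      rw [not_lt, add_sub_cancel] at this
      exact this
  rw [e]
  exact hGV.measurableSet.diff hU.measurableSet

/-- The regularity scale is jointly measurable. -/
lemma reg_meas (h : Turb 1 T E D G u p) (K : ℕ → ℝ) (ν : ℝ) :
    Measurable ((G ×ˢ (univ : Set V)).indicator (fun z : ℝ × V => Reg K ν (u z.1) z.2)) := by
  have hGV : MeasurableSet (G ×ˢ (univ : Set V)) := (opH h.openG).measurableSet
  apply measurable_of_Iio
  intro c
  rcases eq_or_ne c 0 with hc | hc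
  · rw [hc]
    have : Iio (0 : ℝ≥0∞) = ∅ := by
      ext x
      simp
    rw [this, preimage_empty]
    exact MeasurableSet.empty
  have e : ((G ×ˢ (univ : Set V)).indicator (fun z : ℝ × V => Reg K ν (u z.1) z.2)) ⁻¹' Iio c
      = (G ×ˢ (univ : Set V))ᶜ ∪ ⋃ q : ℚ, ⋃ _ : 0 < (q : ℝ) ∧ ENNReal.ofReal (1 / (q : ℝ) ^ 4) < c,
        {z : ℝ × V | z ∈ G ×ˢ (univ : Set V) ∧ Adm K ν (u z.1) z.2 q} := by
    ext z
    simp only [mem_preimage, mem_Iio, mem_union, mem_iUnion]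
    by_cases hz : z ∈ G ×ˢ (univ : Set V)
    · rw [indicator_of_mem hz, reg_lt]
      constructor
      · rintro ⟨q, h1, h2, h3⟩
        exact Or.inr ⟨q, ⟨h1, h2⟩, hz, h3⟩
      · rintro (h1 | ⟨q, ⟨h1, h2⟩, -, h3⟩)
        · exact absurd hz h1
        · exact ⟨q, h1, h2, h3⟩
    · rw [indicator_of_notMem hz]
      exact ⟨fun _ => Or.inl hz, fun _ => pos_iff_ne_zero.2 hc⟩
  rw [e]
  exact hGV.compl.union (MeasurableSet.iUnion fun q => MeasurableSet.iUnion fun hq =>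
    adm_meas h K ν q hq.1)

lemma reg_meas1 (h : Turb 1 T E D G u p) (K : ℕ → ℝ) (ν : ℝ) {t : ℝ} (ht : t ∈ G) :
    Measurable (Reg K ν (u t)) := by
  have h1 := (reg_meas h K ν).comp (measurable_prodMk_left (x := t) (β := V))
  have e : (G ×ˢ (univ : Set V)).indicator (fun z : ℝ × V => Reg K ν (u z.1) z.2) ∘ Prod.mk t
      = Reg K ν (u t) := by
    funext x
    exact indicator_of_mem (show (t, x) ∈ G ×ˢ (univ : Set V) from ⟨ht, mem_univ _⟩) _
  rwa [e] at h1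

end

end Pool.Agent.Y7
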