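import Pool.Agent.Y7.WStm
import Pool.Agent.Y7.RegW
import Pool.Agent.Y8.Maj
import Pool.Agent.Y8.Lei
import Pool.Agent.TH305.DR.Loc

/-!
The velocity is bounded where the vorticity and its derivatives are: no singular points there
(helper7).
-/

set_option autoImplicit false
set_option linter.unusedVariables false

open MeasureTheory Set Metric Filter Topology
open scoped ContDiff ENNReal NNReal

namespace Pool.Agent.Y7

open H459R3.NS W221.NS Pool.Agent.TH305.LW Pool.Agent.TH305.DR Pool.Agent.TH305.LG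
open Pool.Agent.Y8
open Pool.Agent.W583.MD (sm_pd)

/-- The interior bound of a divergence-free field in terms of its `L²` norm and of the
vorticity. -/
lemma vel_bd {ρ : ℝ} (h0 : 0 < ρ) (h1 : ρ ≤ 1) : ∃ C : ℝ, 0 < C ∧ ∀ v : V → V,
    (∀ i, ContDiff ℝ ∞ (fun y => v y i)) → (∀ x ∈ ball (0 : V) 8, dv v x = 0) →
    ∀ x ∈ ball (0 : V) (ρ / 2), ∀ i, v x i ^ 2
      ≤ C * (N 0 ρ (fun y => v y i) + ∑ m, N 0 ρ (Om m i v) + ∑ m, N 1 ρ (Om m i v)
        + ∑ m, N 2 ρ (Om m i v)) := by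
  obtain ⟨C0, hC0, H0⟩ := pointN (ρ' := ρ / 2) (ρ := 5 * ρ / 8) (by linarith) (by linarith)
    (by linarith)
  obtain ⟨C1, hC1, H1⟩ := el_ball (ρ' := 5 * ρ / 8) (ρ := 6 * ρ / 8) (by linarith) (by linarith)
  obtain ⟨C2, hC2, H2⟩ := el_ball (ρ' := 6 * ρ / 8) (ρ := 7 * ρ / 8) (by linarith) (by linarith)
  obtain ⟨C3, hC3, H3⟩ := el_ball (ρ' := 7 * ρ / 8) (ρ := ρ) (by linarith) (by linarith)
  refine ⟨C0 * (1 + C3 + C2 * (C3 + 1) + C1 * (C2 * (C3 + 1) + 1)), by positivity,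
    fun v hv hd x hx i => ?_⟩
  have hb8 : ∀ {r : ℝ}, r ≤ 1 → ∀ y ∈ ball (0 : V) r, y ∈ ball (0 : V) 8 := fun hr y hy =>
    ball_subset_ball (by linarith) hy
  have hlap : ∀ {r : ℝ}, r ≤ 1 → ∀ y ∈ ball (0 : V) r, lap (fun z => v z i) y
      = ∑ m, pd m (Om m i v) y := fun hr y hy => lap_div hv hd (hb8 hr y hy) i
  have hOm := fun m => om_sm hv m i
  obtain ⟨P, hP⟩ : ∃ P, P = N 0 ρ (fun y => v y i) + ∑ m, N 0 ρ (Om m i v)
      + ∑ m, N 1 ρ (Om m i v) + ∑ m, N 2 ρ (Om m i v) := ⟨_, rfl⟩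
  rw [← hP]
  have n0 := N_nonneg 0 ρ (fun y => v y i)
  have nb : ∀ k, 0 ≤ ∑ m, N k ρ (Om m i v) := fun k => Finset.sum_nonneg fun m _ => N_nonneg _ _ _
  have nb0 := nb 0
  have nb1 := nb 1
  have nb2 := nb 2
  have hP0 : 0 ≤ P := by rw [hP]; positivity
  have a1 : N 1 (7 * ρ / 8) (fun y => v y i) ≤ C3 * P := by
    refine (H3 0 _ (fun m => Om m i v) (hv i) hOm (hlap h1)).trans ?_
    apply mul_le_mul_of_nonneg_left _ hC3.le
    rw [hP]
    linarith
  have mono : ∀ k : ℕ, ∑ m, N k (7 * ρ / 8) (Om m i v) ≤ ∑ m, N k ρ (Om m i v) := fun k =>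
    Finset.sum_le_sum fun m _ => N_mono k (by linarith) (hOm m)
  have mono' : ∀ k : ℕ, ∑ m, N k (6 * ρ / 8) (Om m i v) ≤ ∑ m, N k ρ (Om m i v) := fun k =>
    Finset.sum_le_sum fun m _ => N_mono k (by linarith) (hOm m)
  have a2 : N 2 (6 * ρ / 8) (fun y => v y i) ≤ C2 * (C3 + 1) * P := by
    refine (H2 1 _ (fun m => Om m i v) (hv i) hOm (hlap (by linarith))).trans ?_
    rw [mul_assoc]
    apply mul_le_mul_of_nonneg_left _ hC2.le
    have := mono 1
    have : ∑ m, N 1 ρ (Om m i v) ≤ P := by rw [hP]; linarith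
    linarith
  have a3 : N 3 (5 * ρ / 8) (fun y => v y i) ≤ C1 * (C2 * (C3 + 1) + 1) * P := by
    refine (H1 2 _ (fun m => Om m i v) (hv i) hOm (hlap (by linarith))).trans ?_
    rw [mul_assoc]
    apply mul_le_mul_of_nonneg_left _ hC1.le
    have := mono' 2
    have : ∑ m, N 2 ρ (Om m i v) ≤ P := by rw [hP]; linarith
    linarith
  have b0 : N 0 (5 * ρ / 8) (fun y => v y i) ≤ P := by
    have := N_mono (ρ' := 5 * ρ / 8) (ρ := ρ) 0 (by linarith) (hv i)
    rw [hP]
    linarith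
  have b1 : N 1 (5 * ρ / 8) (fun y => v y i) ≤ C3 * P :=
    (N_mono 1 (by linarith) (hv i)).trans a1
  have b2 : N 2 (5 * ρ / 8) (fun y => v y i) ≤ C2 * (C3 + 1) * P :=
    (N_mono 2 (by linarith) (hv i)).trans a2
  have h5 := H0 0 _ (hv i) x hx
  rw [SS_zero] at h5
  refine h5.trans ?_
  rw [mul_assoc]
  apply mul_le_mul_of_nonneg_left _ hC0.le
  simp only [zero_add]
  nlinarith

lemma int_tr (f : V → ℝ) (a : V) (ρ : ℝ) :
    ∫ y in ball (0 : V) ρ, f (a + y) = ∫ z in ball a ρ, f z := by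
  have h := (measurePreserving_add_left volume a).setIntegral_preimage_emb
    (measurableEmbedding_addLeft a) f (ball a ρ)
  rw [preimage_add_ball, sub_self] at h
  exact h

lemma SS_tr (n : ℕ) {f : V → ℝ} (hf : ContDiff ℝ ∞ f) (a x : V) :
    SS n (fun y => f (a + y)) x = SS n f (a + x) := by
  have h := SS_scale n hf 1 1 a x
  simpa using h

lemma pd_tr {f : V → ℝ} (hf : ContDiff ℝ ∞ f) (a : V) (i : Fin 3) :
    pd i (fun y => f (a + y)) = fun x => pd i f (a + x) := by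
  have h := pd_scale1 hf 1 1 a i
  simpa using h

lemma Om_tr {w : V → V} (hw : ∀ i, ContDiff ℝ ∞ (fun y => w y i)) (a : V) (i j : Fin 3) :
    Om i j (fun y => w (a + y)) = fun x => Om i j w (a + x) := by
  funext x
  unfold Om
  have h1 := congrFun (pd_tr (hw j) a i) x
  have h2 := congrFun (pd_tr (hw i) a j) x
  rw [h1, h2]

/-- No singular points where the vorticity and its derivatives are bounded. -/
lemma sing_tube {T E D : ℝ} {G : Set ℝ} {u : ℝ → V → V} {p : ℝ → V → ℝ}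
    (hN : Turb 1 T E D G u p) {ξ : ℝ → V} {t : ℝ} (hξ : ContinuousAt ξ t) {ρ : ℝ} (h0 : 0 < ρ)
    (h1 : ρ ≤ 1) {M : ℕ → ℝ}
    (hM : ∀ᶠ s in 𝓝 t, s ∈ G → ∀ n, ∀ y ∈ ball (ξ s) ρ, ST n (u s) y ≤ M n)
    {x : V} (hx : ‖ξ t - x‖ < ρ / 4) : ¬SingPt G u t x := by
  obtain ⟨C, hC, H⟩ := vel_bd h0 h1
  obtain ⟨C', hC', H'⟩ := ball_le 1
  obtain ⟨A, hA⟩ : ∃ A, A = C * (C' * E ^ 2 + 3 * (8 * |M 0|) + 3 * (8 * |M 1|)
    + 3 * (8 * |M 2|)) := ⟨_, rfl⟩
  -- the bound at the times near `t`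
  have hbd : ∀ s ∈ G, (∀ n, ∀ y ∈ ball (ξ s) ρ, ST n (u s) y ≤ M n) →
      ∀ y ∈ ball (ξ s) (ρ / 2), ‖u s y‖ ≤ √A := by
    intro s hs hST y hy
    obtain ⟨hus, hup⟩ := hN.spv hs
    have hc : ∀ i, ContDiff ℝ ∞ (fun y => u s y i) := fun i => contDiff_pi.1 hus i
    obtain ⟨v, hv⟩ : ∃ v : V → V, v = fun y => u s (ξ s + y) := ⟨_, rfl⟩
    have hvc : ∀ i, ContDiff ℝ ∞ (fun y => v y i) := by
      intro i
      rw [hv]
      exact (hc i).comp (contDiff_const.add contDiff_id)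
    have hdv : ∀ x ∈ ball (0 : V) 8, dv v x = 0 := by
      intro x _
      unfold dv
      have h2 : ∀ i, pd i (fun y => v y i) x = pd i (fun y => u s y i) (ξ s + x) := by
        intro i
        rw [hv]
        exact congrFun (pd_tr (hc i) (ξ s) i) x
      simp_rw [h2]
      exact hN.divfree s hs (ξ s + x)
    have hyy : y - ξ s ∈ ball (0 : V) (ρ / 2) := by
      rw [mem_ball_zero_iff]
      rwa [mem_ball, dist_eq_norm] at hy
    have h3 := H v hvc hdv (y - ξ s) hyy
    have e0 : ∀ i, v (y - ξ s) i = u s y i := by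
      intro i
      rw [hv]
      simp
    have hN0 : ∀ i, N 0 ρ (fun y => v y i) ≤ C' * E ^ 2 := by
      intro i
      have e1 : N 0 ρ (fun y => v y i) = ∫ z in ball (ξ s) ρ, u s z i ^ 2 := by
        rw [← int_tr]
        unfold TH305.DR.N
        rw [hv]
        rfl
      rw [e1]
      have hn : Continuous (nsq (u s)) := (nsq_sm hus).continuous
      have hi : ∀ (g : V → ℝ), Continuous g → ∀ a r, IntegrableOn g (ball a r) := fun g hg a r =>
        (hg.continuousOn.integrableOn_compact (isCompact_closedBall a r)).mono_set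
          ball_subset_closedBall
      calc ∫ z in ball (ξ s) ρ, u s z i ^ 2 ≤ ∫ z in ball (ξ s) ρ, nsq (u s) z := by
            apply integral_mono (hi _ ((hc i).continuous.pow 2) _ _) (hi _ hn _ _)
            intro z
            unfold nsq
            exact Finset.single_le_sum (f := fun i => u s z i ^ 2) (fun i _ => sq_nonneg _)
              (Finset.mem_univ i)
        _ ≤ ∫ z in ball (ξ s) 1, nsq (u s) z :=
            setIntegral_mono_set (hi _ hn _ _) (Eventually.of_forall fun z => nsq_nn _ z)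
              (ball_subset_ball h1).eventuallyLE
        _ ≤ C' * ∫ z in cube, nsq (u s) z := H' _ hn (nsq_per hup) (nsq_nn _) _
        _ = C' * energy (u s) := by rw [energy_eq hus]
        _ ≤ C' * E ^ 2 := mul_le_mul_of_nonneg_left (hN.energy_le s hs) hC'.le
    have hNk : ∀ k i, ∑ m, N k ρ (Om m i v) ≤ 3 * (8 * |M k|) := by
      intro k i
      have h4 : ∀ m, N k ρ (Om m i v) ≤ 8 * |M k| := by
        intro m
        have h5 : ∀ z ∈ ball (0 : V) ρ, ‖SS k (Om m i v) z‖ ≤ |M k| := by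
          intro z hz
          rw [Real.norm_of_nonneg (SS_nonneg _ _ _), hv, Om_tr hc,
            SS_tr k (om_sm hc m i)]
          have h6 : ξ s + z ∈ ball (ξ s) ρ := by
            rw [mem_ball, dist_eq_norm, add_sub_cancel_left]
            rwa [mem_ball_zero_iff] at hz
          have h7 := hST k _ h6
          have h8 : SS k (Om m i (u s)) (ξ s + z) ≤ ST k (u s) (ξ s + z) := by
            unfold TH305.DR.ST
            exact Finset.single_le_sum (f := fun p : Fin 3 × Fin 3 =>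
              SS k (Om p.1 p.2 (u s)) (ξ s + z)) (fun p _ => SS_nonneg _ _ _)
              (Finset.mem_univ (m, i))
          exact h8.trans (h7.trans (le_abs_self _))
        have h9 := norm_setIntegral_le_of_norm_le_const (μ := volume)
          (isBounded_ball.measure_lt_top) h5
        have h10 : volume.real (ball (0 : V) ρ) ≤ 8 := by
          rw [Measure.real, Real.volume_pi_ball _ h0]
          simp only [Fintype.card_fin]
          rw [ENNReal.toReal_ofReal (by positivity)]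
          have : (2 * ρ) ^ 3 ≤ 2 ^ 3 := pow_le_pow_left₀ (by positivity) (by linarith) 3
          linarith
        have h11 : N k ρ (Om m i v) ≤ |M k| * volume.real (ball (0 : V) ρ) :=
          (le_abs_self _).trans h9
        have := abs_nonneg (M k)
        nlinarith
      calc ∑ m, N k ρ (Om m i v) ≤ ∑ _m : Fin 3, 8 * |M k| := Finset.sum_le_sum fun m _ => h4 m
        _ = 3 * (8 * |M k|) := by simp
    rw [pi_norm_le_iff_of_nonneg (Real.sqrt_nonneg _)]
    intro i
    rw [Real.norm_eq_abs]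
    apply Real.abs_le_sqrt
    rw [← e0 i]
    refine (h3 i).trans ?_
    rw [hA]
    apply mul_le_mul_of_nonneg_left _ hC.le
    have := hN0 i
    have := hNk 0 i
    have := hNk 1 i
    have := hNk 2 i
    linarith
  have hev : ∀ᶠ s in 𝓝 t, ‖ξ s - ξ t‖ < ρ / 8 := by
    have := hξ.tendsto.eventually (ball_mem_nhds (ξ t) (show 0 < ρ / 8 by positivity))
    filter_upwards [this] with s hs
    rwa [dist_eq_norm] at hs
  obtain ⟨δ, hδ, hδs⟩ := Metric.eventually_nhds_iff.1 (hM.and hev)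
  intro hS
  obtain ⟨s, hsG, hst, y, hy, hBy⟩ := hS (min δ (ρ / 8)) (lt_min hδ (by positivity)) (√A)
  obtain ⟨h2, h3⟩ := hδs (y := s) (by
    rw [Real.dist_eq]
    exact hst.trans_le (min_le_left _ _))
  have h4 := hbd s hsG (h2 hsG) y (by
    rw [mem_ball, dist_eq_norm]
    have e : y - ξ s = (y - x) + (x - ξ t) + (ξ t - ξ s) := by abel
    rw [mem_ball, dist_eq_norm] at hy
    have h5 := hy.trans_le (min_le_right _ _)
    have h6 : ‖x - ξ t‖ < ρ / 4 := by rwa [norm_sub_rev]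
    have h7 : ‖ξ t - ξ s‖ < ρ / 8 := by rwa [norm_sub_rev]
    rw [e]
    calc ‖(y - x) + (x - ξ t) + (ξ t - ξ s)‖ ≤ ‖(y - x) + (x - ξ t)‖ + ‖ξ t - ξ s‖ :=
          norm_add_le _ _
      _ ≤ ‖y - x‖ + ‖x - ξ t‖ + ‖ξ t - ξ s‖ := by
          gcongr
          exact norm_add_le _ _
      _ < ρ / 2 := by linarith)
  exact absurd hBy (not_lt.2 h4)

end Pool.Agent.Y7
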