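import Pool.Agent.Y7.P12
import Pool.Agent.Y8.Stm6
import Pool.Agent.TH305.DR.Dat
import Pool.Agent.TH305.LG.Peri0

/-!
Statements for the extension of the estimates of the regularity scale to suitable weak solutions
(helper7).
-/

open MeasureTheory Set Metric
open scoped ContDiff ENNReal

namespace Pool.Agent.Y7

open H459R3.NS W221.NS Pool.Agent.Y8 Pool.Agent.TH305.DR Pool.Agent.TH305.LG
open Pool.Agent.W349.MF

/-- The energy step for weak local solutions: small `L⁴` oscillation implies small dissipation on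
a smaller ball at later times. -/
def S_WEN4 : Prop := ∃ C : ℝ, 0 < C ∧ ∀ (H : Set ℝ) (v : ℝ → V → V) (q : ℝ → V → ℝ) (k : ℝ → ℝ),
  WL2 H v q k → ∀ ε : ℝ, 0 < ε → C * ε ≤ 1 →
    IntegrableOn (fun t => √(L4 0 4 (v t))) (Ioo (-1) 0) →
    ∫ t in Ioo (-1) 0, √(L4 0 4 (v t)) ≤ ε →
      IntegrableOn (fun t => B2 0 (3 / 4) (v t)) (Ioo (-9 / 16) 0) ∧
        ∫ t in Ioo (-9 / 16) 0, B2 0 (3 / 4) (v t) ≤ C * ε

/-- Small dissipation at unit scale bounds all derivatives of the vorticity, and all derivatives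
of the velocity in terms of its `L²` norm at the same time, for weak local solutions. -/
def S_WDER : Prop := ∃ ε : ℝ, 0 < ε ∧ ∃ C : ℕ → ℝ, (∀ n, 0 < C n) ∧
  ∀ (H : Set ℝ) (v : ℝ → V → V) (q : ℝ → V → ℝ) (k : ℝ → ℝ), WL2 H v q k →
    IntegrableOn (fun t => B2 0 8 (v t)) (Ioo (-1) 0) →
    ∫ t in Ioo (-1) 0, B2 0 8 (v t) ≤ ε →
      ∀ n, ∀ t ∈ H, -1 / 32 < t → ∀ x ∈ ball (0 : V) (1 / 16),
        ST n (v t) x ≤ C n ∧ SV n (v t) x ≤ C n * (1 + A2 0 4 (v t))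

/-- The flow of the mollified velocity commutes with the translations of the lattice. -/
def S_WEQV : Prop := ∀ (T E D : ℝ) (G : Set ℝ) (u : ℝ → V → V) (p : ℝ → V → ℝ),
  Turb 1 T E D G u p → ∀ (r B C t₀ : ℝ) (X Y : ℝ → V → V), 0 < r → r ≤ 1 → t₀ ∈ Ioo 0 T →
    WFl T r B C G u p t₀ X Y → ∀ t ∈ Ioo 0 T, ∀ (x : V) (n : K3),
      X t (x - iv n) = X t x - iv n

/-- Paths which follow the mollified velocities at two scales stay close, if there is little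
oscillation along one of them. -/
def S_WCLOSE : Prop := ∃ K : ℝ, 0 < K ∧ ∀ (T E D : ℝ) (G : Set ℝ) (u : ℝ → V → V)
  (p : ℝ → V → ℝ), Turb 1 T E D G u p → ∀ R₀ : ℝ, 0 < R₀ → ∀ m N : ℕ, m ≤ N →
    ∀ s h : ℝ, 0 < h → 0 < s - h → s < T → ∀ (ξ ξ' Y Y' : ℝ → V) (B C B' C' : ℝ),
      FPath T (sc R₀ N) B C G u p ξ ξ' → FPath T (sc R₀ m) B' C' G u p Y Y' → Y s = ξ s →
      ENNReal.ofReal K * ∫⁻ τ in Ioo (s - h) s, Fx R₀ (u τ) (ξ τ) ^ (1 / 2 : ℝ)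
        ≤ ENNReal.ofReal (1 / 16) →
      ∀ τ ∈ Ioc (s - h) s, ‖ξ τ - Y τ‖ ≤ sc R₀ m / 16

end Pool.Agent.Y7
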