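import Pool.Agent.Y7.Sl
import Pool.Agent.W108.ME.WB
import Pool.Agent.W327.ME.HYP

/-! Bounds at unit scale for the slices measured by the `L⁴` oscillation (helper7). -/

set_option autoImplicit false

open MeasureTheory Set Metric
open scoped ContDiff

namespace Pool.Agent.Y7

open H459R3.NS W221.NS Pool.Agent.W108.ME

theorem wb : ∃ C : ℝ, 0 < C ∧ ∀ (v W N : V → V) (P : V → ℝ) (G : ℝ), Sl v W N P G →
    A2 0 1 W ≤ C * G ∧ √(L4 0 1 W) ≤ C * G ∧ √(L4 0 1 v) ≤ C * G ∧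
    ∀ z ∈ ball (0 : V) 1, gsq v z ≤ 2 * gsq W z + 18 * G := by
  refine ⟨2 * 257 + 48 + 24 + 3 + 1, by positivity, fun v W N P G S => ?_⟩
  have hG : 0 ≤ G := S.pos
  have hsG : √G ^ 2 = G := Real.sq_sqrt hG
  have hA14 : A2 0 1 v ≤ A2 0 4 v := ball_sub (nsq_cont S.sv) (nsq_nonneg v) 1 4 (by norm_num)
  have hAv : A2 0 1 v ≤ 257 * G :=
    hA14.trans ((Pool.Agent.W327.ME.A2_le S.sv).trans
      (mul_le_mul_of_nonneg_left S.l4 (by norm_num)))
  have hL14 : L4 0 1 v ≤ L4 0 4 v :=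
    ball_sub ((nsq_cont S.sv).pow 2) (fun z => sq_nonneg _) 1 4 (by norm_num)
  have hL4v : √(L4 0 1 v) ≤ G := (Real.sqrt_le_sqrt hL14).trans S.l4
  have hn : ∀ z ∈ ball (0 : V) 1, nsq W z ≤ 2 * nsq v z + 6 * G := by
    intro z hz
    have h3 : ∀ i, W z i ^ 2 ≤ 2 * v z i ^ 2 + 2 * G := by
      intro i
      have h4 := S.dD z hz i
      have h5 : (v z i - W z i) ^ 2 ≤ √G ^ 2 := sq_le_sq' (abs_le.1 h4).1 (abs_le.1 h4).2
      rw [hsG] at h5
      nlinarith [sq_nonneg (v z i + (v z i - W z i))]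
    unfold nsq
    calc ∑ i, W z i ^ 2 ≤ ∑ i : Fin 3, (2 * v z i ^ 2 + 2 * G) := Finset.sum_le_sum fun i _ => h3 i
      _ = 2 * (∑ i, v z i ^ 2) + 6 * G := by
          rw [Finset.sum_add_distrib, ← Finset.mul_sum, Finset.sum_const, Finset.card_univ,
            Fintype.card_fin, nsmul_eq_mul]
          push_cast
          ring
  have hn2 : ∀ z ∈ ball (0 : V) 1, nsq W z ^ 2 ≤ 8 * nsq v z ^ 2 + 72 * G ^ 2 := by
    intro z hz
    have h3 := hn z hz
    have h4 : nsq W z ^ 2 ≤ (2 * nsq v z + 6 * G) ^ 2 := pow_le_pow_left₀ (nsq_nonneg W z) h3 2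
    nlinarith [sq_nonneg (2 * nsq v z - 6 * G)]
  have hg : ∀ z ∈ ball (0 : V) 1, gsq v z ≤ 2 * gsq W z + 18 * G := by
    intro z hz
    have h3 : ∀ i j, pd j (fun y => v y i) z ^ 2 ≤ 2 * pd j (fun y => W y i) z ^ 2 + 2 * G := by
      intro i j
      have h4 := S.gD z hz i j
      have h6 : pd j (fun y => v y i - W y i) z = pd j (fun y => v y i) z - pd j (fun y => W y i) z := by
        unfold pd
        rw [fderiv_fun_sub ((comp_cd S.sv i).differentiable (by simp) z)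
          ((comp_cd S.sW i).differentiable (by simp) z)]
        rfl
      rw [h6] at h4
      have h5 := sq_le_sq' (abs_le.1 h4).1 (abs_le.1 h4).2
      rw [hsG] at h5
      nlinarith [sq_nonneg (pd j (fun y => W y i) z -
        (pd j (fun y => v y i) z - pd j (fun y => W y i) z))]
    unfold gsq
    calc ∑ i, ∑ j, pd j (fun y => v y i) z ^ 2 ≤
        ∑ i : Fin 3, ∑ j : Fin 3, (2 * pd j (fun y => W y i) z ^ 2 + 2 * G) :=
          Finset.sum_le_sum fun i _ => Finset.sum_le_sum fun j _ => h3 i j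
      _ = 2 * (∑ i, ∑ j, pd j (fun y => W y i) z ^ 2) + 18 * G := by
          simp only [Finset.sum_add_distrib, ← Finset.mul_sum, Finset.sum_const, Finset.card_univ,
            Fintype.card_fin, nsmul_eq_mul]
          push_cast
          ring
  have hAW : A2 0 1 W ≤ 2 * A2 0 1 v + 8 * (6 * G) :=
    ball_mono (nsq_cont S.sW) (nsq_cont S.sv) 2 (6 * G) hn
  have hLW : L4 0 1 W ≤ 8 * L4 0 1 v + 8 * (72 * G ^ 2) :=
    ball_mono ((nsq_cont S.sW).pow 2) ((nsq_cont S.sv).pow 2) 8 (72 * G ^ 2) hn2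
  have hLv0 : 0 ≤ L4 0 1 v := integral_nonneg fun z => sq_nonneg _
  have hsL : √(L4 0 1 W) ≤ 3 * √(L4 0 1 v) + 24 * G := by
    rw [Real.sqrt_le_left (by positivity)]
    have h3 : √(L4 0 1 v) ^ 2 = L4 0 1 v := Real.sq_sqrt hLv0
    nlinarith [Real.sqrt_nonneg (L4 0 1 v), mul_nonneg (Real.sqrt_nonneg (L4 0 1 v)) hG]
  refine ⟨?_, ?_, ?_, hg⟩ <;> nlinarith

end Pool.Agent.Y7
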